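import Pool.Agent.CHK.BfmFm

/-!
# Functions given by bounded formulas are computable in polynomial time
-/

namespace Pool.Agent.CHK

open Turing Pool.Agent.Helper64.Stk

/-- The word with letters `β(i)`, `i < k`, `α(i)`. -/
noncomputable def bfmPre (al be : Fm) (w : List Bool) (k : ℕ) : List Bool :=
  (List.range k).flatMap (fun i => if al.Holds w (Function.update 0 0 i) then
    [decide (be.Holds w (Function.update 0 0 i))] else [])

/-- The function on words given by a term and two formulas: the letters `β(i)` for `i < T` with
`α(i)`. -/
noncomputable def bfmF (T : Tm) (al be : Fm) (w : List Bool) : List Bool :=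
  (List.range (T.eval w.length 0)).flatMap (fun i => if al.Holds w (Function.update 0 0 i) then
    [decide (be.Holds w (Function.update 0 0 i))] else [])

theorem bfmPre_succ (al be : Fm) (w : List Bool) (k : ℕ) :
    bfmPre al be w (k + 1) = bfmPre al be w k ++ (if al.Holds w (Function.update 0 0 k) then
      [decide (be.Holds w (Function.update 0 0 k))] else []) := by
  simp only [bfmPre, List.range_succ, List.flatMap_append, List.flatMap_cons, List.flatMap_nil,
    List.append_nil]

theorem bfmPre_length (al be : Fm) (w : List Bool) (k : ℕ) :
    (bfmPre al be w k).length ≤ k := by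
  induction k with
  | zero => simp [bfmPre]
  | succ k ih =>
    rw [bfmPre_succ, List.length_append]
    split_ifs
    · simp only [List.length_cons, List.length_nil]
      omega
    · simp only [List.length_nil]
      omega

/-- The program. -/
def bfmC (T : Tm) (al be : Fm) : Cmd Key Bool :=
  .seq (ctm T 3 0)
    (.seq (.loop (.tmp 0) (fun _ => false) (fun _ => .seq (cfm al 3 1)
      (.seq (.cas (.tmp 1) .skip (fun c => match c with
        | true => cfm be 3 2
        | false => .skip)) (.push (.var 0) true))))
    (.seq (.loop (.var 0) (fun _ => false) (fun _ => .skip))
    (.seq (.loop .inp (fun _ => false) (fun _ => .skip))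
    (.loop (.tmp 2) (fun _ => false) (fun c => .push .out c)))))

theorem only_inp (w : List Bool) : only Key.inp w = st w [] 0 (fun _ => []) := by
  funext j
  cases j <;> simp [only, st]

theorem only_out (w : List Bool) : only Key.out w = st [] w 0 (fun _ => []) := by
  funext j
  cases j <;> simp [only, st]

theorem ru_bfm (T : Tm) (al be : Fm) : ∃ p : Polynomial ℕ, ∀ w : List Bool,
    Ru (bfmC T al be) (only Key.inp w) (only Key.out (bfmF T al be w)) (p.eval w.length) := by
  obtain ⟨q, hq⟩ := ru_tm T
  obtain ⟨q', hq'⟩ := tm_bd T
  obtain ⟨p, hp⟩ := ru_fm al
  obtain ⟨r, hr⟩ := ru_fm be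
  refine ⟨q + ((q' * ((p + r).comp (Polynomial.X + q') + 3 + 1) + 1) +
    ((2 * q' + 1) + ((2 * Polynomial.X + 1) + (2 * q' + 1)))), fun w => ?_⟩
  set N := T.eval w.length 0 with hN
  set m := w.length with hm
  have hNq := hq' m 0 m le_rfl (fun x => Nat.zero_le _)
  rw [← hN] at hNq
  have h1 := hq 3 0 w [] 0 (fun _ => []) m (by omega) (fun _ _ => rfl) le_rfl
    (fun x => Nat.zero_le _)
  rw [List.append_nil, ← hm, ← hN] at h1
  have h2 := Ru.loop_accN (k := .tmp 0) (body := fun _ => .seq (cfm al 3 1)
      (.seq (.cas (.tmp 1) .skip (fun c => match c with
        | true => cfm be 3 2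
        | false => .skip)) (.push (.var 0) true)))
    (n := ((p + r).comp (Polynomial.X + q')).eval m + 3) (N := N)
    (fun s l => st w [] (Function.update 0 0 s.length) (Function.update (Function.update
      (fun _ => []) 0 l) 2 (bfmPre al be w s.length).reverse))
    (by
      intro s l
      rw [st_tmp, Function.update_of_ne (by omega), Function.update_self])
    (by
      intro a s l hs
      have e2 : Function.update (Function.update (Function.update (fun _ => ([] : List Bool)) 0
          (a :: l)) 2 (bfmPre al be w s.length).reverse) 0 l =
          Function.update (Function.update (fun _ => ([] : List Bool)) 0 l) 2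
            (bfmPre al be w s.length).reverse := by
        rw [Function.update_comm (by omega : (2 : ℕ) ≠ 0), Function.update_idem]
      rw [update_st_tmp, e2]
      obtain ⟨σ, hσ⟩ : ∃ σ, σ = Function.update (Function.update (fun _ => ([] : List Bool)) 0 l) 2
            (bfmPre al be w s.length).reverse := ⟨_, rfl⟩
      rw [← hσ]
      have hσ3 : ∀ k, 3 ≤ k → σ k = [] := by
        intro k hk
        rw [hσ, Function.update_of_ne (by omega), Function.update_of_ne (by omega)]
      have hσ1 : σ 1 = [] := by
        rw [hσ, Function.update_of_ne (by omega), Function.update_of_ne (by omega)]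
      have hσ2 : σ 2 = (bfmPre al be w s.length).reverse := by
        rw [hσ, Function.update_self]
      have hbd : ∀ y, Function.update (0 : ℕ → ℕ) 0 s.length y ≤ m + q'.eval m := by
        intro y
        by_cases hy : y = 0
        · subst hy
          rw [Function.update_self]
          omega
        · rw [Function.update_of_ne hy]
          exact Nat.zero_le _
      have h3 := hp 3 1 w [] (Function.update 0 0 s.length) σ (m + q'.eval m) (by omega) hσ3
        (by omega) hbd
      rw [hσ1] at h3
      have h4 : Ru (.cas (.tmp 1) .skip (fun c => match c with
          | true => cfm be 3 2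
          | false => .skip))
          (st w [] (Function.update 0 0 s.length) (Function.update σ 1
            [decide (al.Holds w (Function.update 0 0 s.length))]))
          (st w [] (Function.update 0 0 s.length) (Function.update σ 2
            (bfmPre al be w (s.length + 1)).reverse)) (1 + (r.eval (m + q'.eval m) + 1)) := by
        have e3 : Function.update (Function.update σ 1
            [decide (al.Holds w (Function.update 0 0 s.length))]) 1 [] = σ := by
          rw [Function.update_idem, ← hσ1, Function.update_eq_self]
        by_cases h : al.Holds w (Function.update 0 0 s.length)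
        · have h5 := hr 3 2 w [] (Function.update 0 0 s.length) σ (m + q'.eval m) (by omega) hσ3
            (by omega) hbd
          have e4 : Function.update (st w [] (Function.update 0 0 s.length) (Function.update σ 1
            [decide (al.Holds w (Function.update 0 0 s.length))])) (.tmp 1) [] =
              st w [] (Function.update 0 0 s.length) σ := by
            rw [update_st_tmp, e3]
          rw [← e4] at h5
          refine (Ru.cas_cons (k := .tmp 1) (e := .skip) (body := fun c => match c with
            | true => cfm be 3 2
            | false => .skip) (a := true) (l := [])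
            (by rw [st_tmp, Function.update_self, decide_eq_true h]) h5).conv ?_ (by omega)
          rw [bfmPre_succ, if_pos h, List.reverse_append, hσ2]
          rfl
        · refine (Ru.cas_cons (k := .tmp 1) (e := .skip) (body := fun c => match c with
            | true => cfm be 3 2
            | false => .skip) (a := false) (l := [])
            (by rw [st_tmp, Function.update_self, decide_eq_false h]) (Ru.skip _)).conv ?_
              (by omega)
          rw [update_st_tmp, e3, bfmPre_succ, if_neg h, List.append_nil, ← hσ2,
            Function.update_eq_self]
      have h6 := Ru.push (.var 0) true (st w [] (Function.update 0 0 s.length) (Function.update σ 2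
            (bfmPre al be w (s.length + 1)).reverse))
      rw [st_var, Function.update_self, ← List.replicate_succ, update_st_var,
        Function.update_idem] at h6
      refine (h3.seq (h4.seq h6)).conv ?_ ?_
      · rw [List.length_cons, hσ, Function.update_idem]
      · simp only [Polynomial.eval_comp, Polynomial.eval_add, Polynomial.eval_X]
        omega)
    (List.replicate N true) [] (by simp)
  simp only [List.length_nil, List.length_append, List.length_reverse,
    List.length_replicate, Nat.add_zero] at h2
  have e1 : Function.update (Function.update (fun _ => ([] : List Bool)) 0 (List.replicate N true))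
      2 (bfmPre al be w 0).reverse = Function.update (fun _ => ([] : List Bool)) 0
        (List.replicate N true) := by
    have : (bfmPre al be w 0).reverse = Function.update (fun _ => ([] : List Bool)) 0
        (List.replicate N true) 2 := by
      rw [Function.update_of_ne (by omega)]
      rfl
    rw [this, Function.update_eq_self]
  have e2 : Function.update (0 : ℕ → ℕ) 0 0 = 0 := by
    have : (0 : ℕ) = (0 : ℕ → ℕ) 0 := rfl
    conv_lhs => rw [this]
    exact Function.update_eq_self 0 (0 : ℕ → ℕ)
  rw [e1, e2] at h2
  have e3 : Function.update (Function.update (fun _ => ([] : List Bool)) 0 []) 2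
      (bfmPre al be w N).reverse = Function.update (fun _ => ([] : List Bool)) 2
      (bfmPre al be w N).reverse := by
    have : ([] : List Bool) = (fun _ : ℕ => ([] : List Bool)) 0 := rfl
    conv_lhs => rw [this]
    rw [← this]
    rw [show Function.update (fun _ : ℕ => ([] : List Bool)) 0 [] = fun _ => [] from
      Function.update_eq_self_iff.2 rfl]
  rw [e3] at h2
  have h3 := ru_clearVar 0 w [] (Function.update (fun _ => ([] : List Bool)) 2
      (bfmPre al be w N).reverse) 0 N
  rw [e2] at h3
  have h4 := Ru.loop_acc (k := .inp) (body := fun _ => .skip) (n := 1)
    (fun _ l => st l [] 0 (Function.update (fun _ => ([] : List Bool)) 2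
      (bfmPre al be w N).reverse)) (by intro p l; rfl)
    (by
      intro a p l
      rw [update_st_inp]
      exact Ru.skip _) w []
  have h5 := Ru.loop_acc (k := .tmp 2) (body := fun c => .push .out c) (n := 1)
    (fun s l => st [] s 0 (Function.update (fun _ => ([] : List Bool)) 2 l))
    (by intro p l; simp)
    (by
      intro a p l
      refine (Ru.push _ _ _).conv ?_ le_rfl
      rw [update_st_tmp, update_st_out, Function.update_idem]
      rfl) (bfmPre al be w N).reverse []
  rw [List.reverse_reverse, List.append_nil] at h5
  rw [only_inp, only_out]
  refine (h1.seq (h2.seq (h3.seq (h4.seq h5)))).conv ?_ ?_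
  · have : Function.update (fun _ : ℕ => ([] : List Bool)) 2 [] = fun _ => [] :=
      Function.update_eq_self_iff.2 rfl
    rw [this]
    rfl
  · simp only [Polynomial.eval_add, Polynomial.eval_mul, Polynomial.eval_ofNat,
      Polynomial.eval_one, Polynomial.eval_X, List.length_reverse]
    have h8 := bfmPre_length al be w N
    have h9 : N * (Polynomial.eval m ((p + r).comp (Polynomial.X + q')) + 3 + 1) ≤
        q'.eval m * (Polynomial.eval m ((p + r).comp (Polynomial.X + q')) + 3 + 1) :=
      Nat.mul_le_mul_right _ hNq
    omega

/-- The version for encoded types. -/
theorem bfm_enc {A B : Type} (ea : A → List Bool) (eb : B → List Bool) (f : A → B) (T : Tm)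
    (al be : Fm) (h : ∀ x, bfmF T al be (ea x) = eb (f x)) :
    Nonempty (Turing.TM2ComputableInPolyTime ea eb f) := by
  obtain ⟨p, hp⟩ := ru_bfm T al be
  refine computable_of_runs_inf ea eb f Key.inp Key.out (bfmC T al be) p (fun x => ?_)
  obtain ⟨t, ht, hr⟩ := hp (ea x)
  refine ⟨t, ht, ?_⟩
  rw [← h x]
  exact hr

/-- Functions on words given by bounded formulas are computable in polynomial time. -/
theorem bfm_fun (T : Tm) (al be : Fm) :
    Nonempty (Turing.TM2ComputableInPolyTime (id : List Bool → List Bool) id
      (fun w => (List.range (T.eval w.length 0)).flatMap
        (fun i => if al.Holds w (Function.update 0 0 i) then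
          [decide (be.Holds w (Function.update 0 0 i))] else []))) :=
  bfm_enc id id _ T al be (fun _ => rfl)

end Pool.Agent.CHK
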