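import Mathlib

/-!
# Bounded formulas over words

Terms and formulas of bounded arithmetic over a word of bits (all quantifiers are bounded by
terms).
-/

namespace Pool.Agent.CHK

/-- Terms; `len` is the length of the input word. -/
inductive Tm : Type
  | var (i : ℕ)
  | const (c : ℕ)
  | len
  | add (a b : Tm)
  | mul (a b : Tm)

/-- The value of a term. -/
def Tm.eval (n : ℕ) (v : ℕ → ℕ) : Tm → ℕ
  | .var i => v i
  | .const c => c
  | .len => n
  | .add a b => a.eval n v + b.eval n v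
  | .mul a b => a.eval n v * b.eval n v

/-- Formulas; `inp a`: letter number `a` of the word exists and is `true`; `ex x t f`: there is
`a < t` such that `f` holds for `x := a`. -/
inductive Fm : Type
  | lt (a b : Tm)
  | inp (a : Tm)
  | neg (f : Fm)
  | and (f g : Fm)
  | ex (x : ℕ) (t : Tm) (f : Fm)

/-- Truth of a formula. -/
def Fm.Holds (w : List Bool) : Fm → (ℕ → ℕ) → Prop
  | .lt a b, v => a.eval w.length v < b.eval w.length v
  | .inp a, v => w[a.eval w.length v]? = some true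
  | .neg f, v => ¬ f.Holds w v
  | .and f g, v => f.Holds w v ∧ g.Holds w v
  | .ex x t f, v => ∃ a, a < t.eval w.length v ∧ f.Holds w (Function.update v x a)

variable {w : List Bool} {v : ℕ → ℕ} {n : ℕ}

@[simp] theorem Tm.eval_var (i : ℕ) : (Tm.var i).eval n v = v i := rfl
@[simp] theorem Tm.eval_const (c : ℕ) : (Tm.const c).eval n v = c := rfl
@[simp] theorem Tm.eval_len : Tm.len.eval n v = n := rfl
@[simp] theorem Tm.eval_add (a b : Tm) : (a.add b).eval n v = a.eval n v + b.eval n v := rfl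
@[simp] theorem Tm.eval_mul (a b : Tm) : (a.mul b).eval n v = a.eval n v * b.eval n v := rfl

@[simp] theorem Fm.holds_lt (a b : Tm) :
    (Fm.lt a b).Holds w v ↔ a.eval w.length v < b.eval w.length v := Iff.rfl
@[simp] theorem Fm.holds_inp (a : Tm) :
    (Fm.inp a).Holds w v ↔ w[a.eval w.length v]? = some true := Iff.rfl
@[simp] theorem Fm.holds_neg (f : Fm) : (Fm.neg f).Holds w v ↔ ¬ f.Holds w v := Iff.rfl
@[simp] theorem Fm.holds_and (f g : Fm) :
    (Fm.and f g).Holds w v ↔ f.Holds w v ∧ g.Holds w v := Iff.rfl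
@[simp] theorem Fm.holds_ex (x : ℕ) (t : Tm) (f : Fm) :
    (Fm.ex x t f).Holds w v ↔
      ∃ a, a < t.eval w.length v ∧ f.Holds w (Function.update v x a) := Iff.rfl

/-! ### derived formulas -/

/-- disjunction -/
def Fm.or (f g : Fm) : Fm := .neg (.and (.neg f) (.neg g))

/-- implication -/
def Fm.imp (f g : Fm) : Fm := .neg (.and f (.neg g))

/-- equivalence -/
def Fm.iff (f g : Fm) : Fm := .and (f.imp g) (g.imp f)

/-- bounded universal quantifier -/
def Fm.all (x : ℕ) (t : Tm) (f : Fm) : Fm := .neg (.ex x t (.neg f))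

/-- `a ≤ b` -/
def Fm.le (a b : Tm) : Fm := .neg (.lt b a)

/-- `a = b` -/
def Fm.eq (a b : Tm) : Fm := .and (Fm.le a b) (Fm.le b a)

/-- `a ≠ b` -/
def Fm.ne (a b : Tm) : Fm := .neg (Fm.eq a b)

/-- truth -/
def Fm.tt : Fm := .lt (.const 0) (.const 1)

/-- falsity -/
def Fm.ff : Fm := .lt (.const 0) (.const 0)

@[simp] theorem Fm.holds_or (f g : Fm) : (f.or g).Holds w v ↔ f.Holds w v ∨ g.Holds w v := by
  simp only [Fm.or, Fm.holds_neg, Fm.holds_and]
  tauto

@[simp] theorem Fm.holds_imp (f g : Fm) : (f.imp g).Holds w v ↔ (f.Holds w v → g.Holds w v) := by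
  simp only [Fm.imp, Fm.holds_neg, Fm.holds_and]
  tauto

@[simp] theorem Fm.holds_iff (f g : Fm) : (f.iff g).Holds w v ↔ (f.Holds w v ↔ g.Holds w v) := by
  simp only [Fm.iff, Fm.holds_imp, Fm.holds_and]
  tauto

@[simp] theorem Fm.holds_all (x : ℕ) (t : Tm) (f : Fm) : (Fm.all x t f).Holds w v ↔
    ∀ a, a < t.eval w.length v → f.Holds w (Function.update v x a) := by
  simp only [Fm.all, Fm.holds_neg, Fm.holds_ex]
  push Not
  rfl

@[simp] theorem Fm.holds_le (a b : Tm) :
    (Fm.le a b).Holds w v ↔ a.eval w.length v ≤ b.eval w.length v := by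
  simp only [Fm.le, Fm.holds_neg, Fm.holds_lt, not_lt]

@[simp] theorem Fm.holds_eq (a b : Tm) :
    (Fm.eq a b).Holds w v ↔ a.eval w.length v = b.eval w.length v := by
  simp only [Fm.eq, Fm.holds_and, Fm.holds_le]
  omega

@[simp] theorem Fm.holds_ne (a b : Tm) :
    (Fm.ne a b).Holds w v ↔ a.eval w.length v ≠ b.eval w.length v := by
  simp only [Fm.ne, Fm.holds_neg, Fm.holds_eq, ne_eq]

@[simp] theorem Fm.holds_tt : Fm.tt.Holds w v ↔ True := by
  simp [Fm.tt]

@[simp] theorem Fm.holds_ff : Fm.ff.Holds w v ↔ False := by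
  simp [Fm.ff]

end Pool.Agent.CHK
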