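import Pool.Agent.Helper64.MEE.Cmd

/-!
# Commands with infinitely many stack names

A command uses finitely many stacks, so for the machine the type of stack names need not be finite.
-/

namespace Pool.Agent.CHK

open Turing Pool.Agent.Helper64.Stk

variable {K K' Γ : Type}

/-- The keys of a command. -/
def cmdKeys : Cmd K Γ → Set K
  | .skip => ∅
  | .push k _ => {k}
  | .seq c d => cmdKeys c ∪ cmdKeys d
  | .loop k _ body => {k} ∪ ⋃ a, cmdKeys (body a)
  | .cas k e body => {k} ∪ (cmdKeys e ∪ ⋃ a, cmdKeys (body a))

theorem cmdKeys_finite [Finite Γ] (c : Cmd K Γ) : (cmdKeys c).Finite := by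
  induction c with
  | skip => exact Set.finite_empty
  | push k a => exact Set.finite_singleton k
  | seq c d ihc ihd => exact ihc.union ihd
  | loop k stop body ih => exact (Set.finite_singleton k).union (Set.finite_iUnion ih)
  | cas k e body ihe ih =>
    exact (Set.finite_singleton k).union (ihe.union (Set.finite_iUnion ih))

/-- Renaming the stacks. -/
def cmdMap (f : K → K') : Cmd K Γ → Cmd K' Γ
  | .skip => .skip
  | .push k a => .push (f k) a
  | .seq c d => .seq (cmdMap f c) (cmdMap f d)
  | .loop k stop body => .loop (f k) stop (fun a => cmdMap f (body a))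
  | .cas k e body => .cas (f k) (cmdMap f e) (fun a => cmdMap f (body a))

variable [DecidableEq K] [DecidableEq K']

theorem update_comp_key {f : K → K'} {g : K' → K} (hg : Function.Injective g) {k : K}
    (hk : g (f k) = k) (S : K → List Γ) (l : List Γ) :
    Function.update S k l ∘ g = Function.update (S ∘ g) (f k) l := by
  funext j
  by_cases h : j = f k
  · subst h
    simp [hk]
  · have h' : g j ≠ k := by
      intro h'
      apply h
      apply hg
      rw [h', hk]
    simp [Function.update_of_ne h, Function.update_of_ne h']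

theorem runs_cmdMap {f : K → K'} {g : K' → K} (hg : Function.Injective g) {c : Cmd K Γ}
    {S S' : K → List Γ} {t : ℕ} (h : Runs c S S' t) (hc : ∀ k ∈ cmdKeys c, g (f k) = k) :
    Runs (cmdMap f c) (S ∘ g) (S' ∘ g) t := by
  induction h with
  | skip S => exact Runs.skip _
  | push k a S =>
    have hk : g (f k) = k := hc k rfl
    rw [update_comp_key hg hk]
    have h1 := Runs.push (f k) a (S ∘ g)
    have h2 : (S ∘ g) (f k) = S k := by simp [hk]
    rw [h2] at h1
    exact h1
  | seq h h' ih ih' =>
    exact Runs.seq (ih fun k hk => hc k (Or.inl hk)) (ih' fun k hk => hc k (Or.inr hk))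
  | @loop_nil k stop body S h =>
    have hk : g (f k) = k := hc k (Or.inl rfl)
    exact Runs.loop_nil (by simp [hk, h])
  | @loop_stop k stop body S a l h ha =>
    have hk : g (f k) = k := hc k (Or.inl rfl)
    rw [update_comp_key hg hk]
    exact Runs.loop_stop (by simp [hk, h]) ha
  | @loop_step k stop body S S' S'' a l t t' h ha h1 h2 ih1 ih2 =>
    have hk : g (f k) = k := hc k (Or.inl rfl)
    have e1 := ih1 fun j hj => hc j (Or.inr (Set.mem_iUnion.2 ⟨a, hj⟩))
    rw [update_comp_key hg hk] at e1
    exact Runs.loop_step (by simp [hk, h]) ha e1 (ih2 hc)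
  | @cas_nil k e body S S' t h h1 ih =>
    have hk : g (f k) = k := hc k (Or.inl rfl)
    exact Runs.cas_nil (by simp [hk, h]) (ih fun j hj => hc j (Or.inr (Or.inl hj)))
  | @cas_cons k e body S S' a l t h h1 ih =>
    have hk : g (f k) = k := hc k (Or.inl rfl)
    have e1 := ih fun j hj => hc j (Or.inr (Or.inr (Set.mem_iUnion.2 ⟨a, hj⟩)))
    rw [update_comp_key hg hk] at e1
    exact Runs.cas_cons (by simp [hk, h]) e1

/-- `computable_of_runs` for an infinite type of stack names. -/
theorem computable_of_runs_inf [Fintype Γ] {α β : Type} (ea : α → List Γ)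
    (eb : β → List Γ) (f : α → β) (kin kout : K) (c : Cmd K Γ) (p : Polynomial ℕ)
    (h : ∀ x, ∃ t, t ≤ p.eval (ea x).length ∧
      Runs c (only kin (ea x)) (only kout (eb (f x))) t) :
    Nonempty (TM2ComputableInPolyTime ea eb f) := by
  classical
  have hfin : (cmdKeys c ∪ {kin, kout}).Finite :=
    (cmdKeys_finite c).union (Set.toFinite _)
  let K' : Type := {k : K // k ∈ hfin.toFinset}
  have hin : kin ∈ hfin.toFinset := by simp
  have hout : kout ∈ hfin.toFinset := by simp
  let g : K' → K := Subtype.val
  let fk : K → K' := fun k => if hk : k ∈ hfin.toFinset then ⟨k, hk⟩ else ⟨kin, hin⟩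
  have hgf : ∀ k ∈ hfin.toFinset, g (fk k) = k := by
    intro k hk
    simp only [fk, dif_pos hk, g]
  have hg : Function.Injective g := Subtype.val_injective
  refine ⟨computable_of_runs (K := K') ea eb f ⟨kin, hin⟩ ⟨kout, hout⟩ (cmdMap fk c) p
    (fun x => ?_)⟩
  obtain ⟨t, ht, hr⟩ := h x
  refine ⟨t, ht, ?_⟩
  have h1 := runs_cmdMap (f := fk) hg hr (fun k hk => hgf k (by simp [hk]))
  have e1 : only kin (ea x) ∘ g = only (⟨kin, hin⟩ : K') (ea x) := by
    funext j
    simp only [only, Function.comp_apply, g]
    by_cases hj : j = ⟨kin, hin⟩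
    · subst hj
      simp
    · rw [if_neg hj, if_neg]
      intro h'
      exact hj (Subtype.ext h')
  have e2 : only kout (eb (f x)) ∘ g = only (⟨kout, hout⟩ : K') (eb (f x)) := by
    funext j
    simp only [only, Function.comp_apply, g]
    by_cases hj : j = ⟨kout, hout⟩
    · subst hj
      simp
    · rw [if_neg hj, if_neg]
      intro h'
      exact hj (Subtype.ext h')
  rw [e1, e2] at h1
  exact h1

end Pool.Agent.CHK
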