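import Pool.Agent.CHK.BfmTm

/-!
# Evaluation of formulas by stack commands
-/

namespace Pool.Agent.CHK

open Turing Pool.Agent.Helper64.Stk

noncomputable instance Fm.decHolds (w : List Bool) (f : Fm) (v : ℕ → ℕ) :
    Decidable (f.Holds w v) := Classical.propDecidable _

/-- `Ru.loop_acc` with a bound for the number of rounds. -/
theorem Ru.loop_accN {k : Key} {body : Bool → Cmd Key Bool} {n N : ℕ}
    (J : List Bool → List Bool → Key → List Bool) (hJ : ∀ p l, J p l k = l)
    (hstep : ∀ a p l, p.length + l.length + 1 = N →
      Ru (body a) (Function.update (J p (a :: l)) k l) (J (a :: p) l) n)
    (l : List Bool) : ∀ p, p.length + l.length = N →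
      Ru (.loop k (fun _ => false) body) (J p l) (J (l.reverse ++ p) [])
      (l.length * (n + 1) + 1) := by
  induction l with
  | nil => intro p _; exact (Ru.loop_nil (hJ p [])).mono (by simp)
  | cons a l ih =>
    intro p hp
    have h2 := Ru.loop_step (k := k) (stop := fun _ => false) (body := body) (hJ p (a :: l)) rfl
      (hstep a p l (by rw [List.length_cons] at hp; omega))
      (ih (a :: p) (by rw [List.length_cons] at hp ⊢; omega))
    refine h2.conv ?_ ?_
    · rw [List.reverse_cons, List.append_assoc]
      rfl
    · rw [List.length_cons]
      ring_nf
      omega

/-- The command which pushes the truth value of a formula on `tmp d`; the stacks `tmp k`, `b ≤ k`,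
are free. -/
def cfm : Fm → ℕ → ℕ → Cmd Key Bool
  | .lt s t, b, d => .seq (ctm s (b + 2) b) (.seq (ctm t (b + 2) (b + 1))
      (.seq (.loop (.tmp b) (fun _ => false) (fun _ => .cas (.tmp (b + 1)) .skip (fun _ => .skip)))
        (.cas (.tmp (b + 1)) (.push (.tmp d) false)
          (fun _ => .seq (clearT (b + 1)) (.push (.tmp d) true)))))
  | .inp s, b, d => .seq (ctm s (b + 2) b)
      (.seq (.loop (.tmp b) (fun _ => false)
          (fun _ => .cas .inp .skip (fun c => .push (.tmp (b + 1)) c)))
        (.seq (.cas .inp (.push (.tmp d) false) (fun c => .seq (.push .inp c) (.push (.tmp d) c)))
          (.loop (.tmp (b + 1)) (fun _ => false) (fun c => .push .inp c))))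
  | .neg f, b, d => .seq (cfm f b d) (.cas (.tmp d) .skip (fun c => .push (.tmp d) (!c)))
  | .and f g, b, d => .seq (cfm f b d) (.cas (.tmp d) .skip
      (fun c => match c with
        | true => cfm g b d
        | false => .push (.tmp d) false))
  | .ex x t f, b, d => .seq (ctm t (b + 4) b)
      (.seq (.loop (.var x) (fun _ => false) (fun _ => .push (.tmp (b + 1)) true))
      (.seq (.loop (.tmp b) (fun _ => false) (fun _ => .seq (cfm f (b + 4) (b + 3))
        (.seq (.cas (.tmp (b + 3)) .skip (fun c => match c with
          | true => .cas (.tmp (b + 2)) (.push (.tmp (b + 2)) true)
              (fun _ => .push (.tmp (b + 2)) true)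
          | false => .skip)) (.push (.var x) true))))
      (.seq (.loop (.var x) (fun _ => false) (fun _ => .skip))
      (.seq (.loop (.tmp (b + 1)) (fun _ => false) (fun _ => .push (.var x) true))
      (.cas (.tmp (b + 2)) (.push (.tmp d) false) (fun _ => .push (.tmp d) true))))))

theorem ru_lt (s t : Tm) : ∃ p : Polynomial ℕ, ∀ (b d : ℕ) (w o : List Bool) (v : ℕ → ℕ)
    (τ : ℕ → List Bool) (m : ℕ), d < b → (∀ k, b ≤ k → τ k = []) → w.length ≤ m →
    (∀ x, v x ≤ m) → Ru (cfm (.lt s t) b d) (st w o v τ)
      (st w o v (Function.update τ d (decide ((Fm.lt s t).Holds w v) :: τ d)))
      (p.eval m) := by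
  obtain ⟨p, hp⟩ := ru_tm s
  obtain ⟨q, hq⟩ := ru_tm t
  obtain ⟨p', hp'⟩ := tm_bd s
  obtain ⟨q', hq'⟩ := tm_bd t
  refine ⟨p + (q + ((p' * 3 + 1) + (2 * q' + 4))), fun b d w o v τ m hd hτ hw hv => ?_⟩
  set x := s.eval w.length v with hx
  set y := t.eval w.length v with hy
  have hxp := hp' w.length v m hw hv
  have hyq := hq' w.length v m hw hv
  rw [← hx] at hxp
  rw [← hy] at hyq
  have h1 := hp (b + 2) b w o v τ m (by omega) (fun k hk => hτ k (by omega)) hw hv
  rw [hτ b le_rfl, List.append_nil, ← hx] at h1
  have h2 := hq (b + 2) (b + 1) w o v (Function.update τ b (List.replicate x true)) m (by omega)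
    (fun k hk => by rw [Function.update_of_ne (by omega)]; exact hτ k (by omega)) hw hv
  rw [Function.update_of_ne (by omega), hτ (b + 1) (by omega), List.append_nil, ← hy] at h2
  have h3 := Ru.loop_acc (k := .tmp b)
    (body := fun _ => .cas (.tmp (b + 1)) .skip (fun _ => .skip)) (n := 2)
    (fun p l => st w o v (Function.update (Function.update τ b l) (b + 1)
      (List.replicate (y - p.length) true)))
    (by
      intro p l
      rw [st_tmp, Function.update_of_ne (by omega), Function.update_self])
    (by
      intro a p l
      rw [update_st_tmp]
      rcases Nat.eq_zero_or_pos (y - p.length) with h | h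
      · refine (Ru.cas_nil ?_ (Ru.skip _)).conv ?_ le_rfl
        · simp [h]
        · congr 1
          rw [h, List.length_cons, show y - (p.length + 1) = 0 by omega]
          funext i
          by_cases hi : i = b
          · subst hi
            rw [Function.update_self, Function.update_of_ne (by omega), Function.update_self]
          · rw [Function.update_of_ne hi]
            by_cases hi' : i = b + 1
            · subst hi'
              rw [Function.update_self, Function.update_self]
            · rw [Function.update_of_ne hi', Function.update_of_ne hi',
                Function.update_of_ne hi, Function.update_of_ne hi]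
      · obtain ⟨z, hz⟩ : ∃ z, y - p.length = z + 1 := ⟨y - p.length - 1, by omega⟩
        refine (Ru.cas_cons (a := true) (l := List.replicate z true) ?_ (Ru.skip _)).conv ?_ le_rfl
        · simp [hz, List.replicate_succ]
        · rw [update_st_tmp]
          congr 1
          rw [List.length_cons, show y - (p.length + 1) = z by omega]
          funext i
          by_cases hi : i = b
          · subst hi
            rw [Function.update_of_ne (by omega), Function.update_self,
              Function.update_of_ne (by omega), Function.update_self]
          · by_cases hi' : i = b + 1
            · subst hi'
              rw [Function.update_self, Function.update_self]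
            · rw [Function.update_of_ne hi', Function.update_of_ne hi,
                Function.update_of_ne hi', Function.update_of_ne hi, Function.update_of_ne hi',
                Function.update_of_ne hi])
    (List.replicate x true) []
  simp only [List.length_nil, Nat.sub_zero, List.length_append, List.length_reverse,
    List.length_replicate, Nat.add_zero] at h3
  have h4 : Ru (.cas (.tmp (b + 1)) (.push (.tmp d) false)
      (fun _ => .seq (clearT (b + 1)) (.push (.tmp d) true)))
      (st w o v (Function.update (Function.update τ b []) (b + 1)
        (List.replicate (y - x) true)))
      (st w o v (Function.update τ d (decide ((Fm.lt s t).Holds w v) :: τ d)))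
      (2 * q'.eval m + 4) := by
    rcases Nat.eq_zero_or_pos (y - x) with h | h
    · refine (Ru.cas_nil ?_ (Ru.push _ _ _)).conv ?_ (by omega)
      · simp [h]
      · have hd' : decide ((Fm.lt s t).Holds w v) = false := by
          rw [decide_eq_false_iff_not, Fm.holds_lt, ← hx, ← hy]
          omega
        rw [hd', update_st_tmp, st_tmp, h, List.replicate_zero]
        congr 1
        funext i
        by_cases hi : i = d
        · subst hi
          rw [Function.update_self, Function.update_self, Function.update_of_ne (by omega),
            Function.update_of_ne (by omega)]
        · rw [Function.update_of_ne hi, Function.update_of_ne hi]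
          by_cases hi' : i = b
          · subst hi'
            rw [Function.update_of_ne (by omega), Function.update_self, hτ _ le_rfl]
          · by_cases hi'' : i = b + 1
            · subst hi''
              rw [Function.update_self, hτ _ (by omega)]
            · rw [Function.update_of_ne hi'', Function.update_of_ne hi']
    · obtain ⟨z, hz⟩ : ∃ z, y - x = z + 1 := ⟨y - x - 1, by omega⟩
      have hd' : decide ((Fm.lt s t).Holds w v) = true := by
        rw [decide_eq_true_iff, Fm.holds_lt, ← hx, ← hy]
        omega
      have e1 := ru_clearT (b + 1) w o v (Function.update (Function.update (Function.update τ b [])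
        (b + 1) (List.replicate (y - x) true)) (b + 1) (List.replicate z true))
      have e2 : Ru (.seq (clearT (b + 1)) (.push (.tmp d) true))
          (Function.update (st w o v (Function.update (Function.update τ b []) (b + 1)
            (List.replicate (y - x) true))) (.tmp (b + 1)) (List.replicate z true))
          (st w o v (Function.update τ d (decide ((Fm.lt s t).Holds w v) :: τ d)))
          (2 * z + 2) := by
        rw [update_st_tmp]
        refine (e1.seq (Ru.push _ _ _)).conv ?_ ?_
        · rw [hd', update_st_tmp, st_tmp]
          congr 1
          funext i
          by_cases hi : i = d
          · subst hi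
            rw [Function.update_self, Function.update_self, Function.update_of_ne (by omega),
              Function.update_of_ne (by omega), Function.update_of_ne (by omega),
              Function.update_of_ne (by omega)]
          · rw [Function.update_of_ne hi, Function.update_of_ne hi]
            by_cases hi' : i = b
            · subst hi'
              rw [Function.update_of_ne (by omega), Function.update_of_ne (by omega),
                Function.update_of_ne (by omega), Function.update_self, hτ _ le_rfl]
            · by_cases hi'' : i = b + 1
              · subst hi''
                rw [Function.update_self, hτ _ (by omega)]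
              · rw [Function.update_of_ne hi'', Function.update_of_ne hi'',
                  Function.update_of_ne hi'', Function.update_of_ne hi']
        · rw [Function.update_self, List.length_replicate]
      exact (Ru.cas_cons (a := true) (l := List.replicate z true)
        (by simp [hz, List.replicate_succ]) e2).mono (by omega)
  refine (h1.seq (h2.seq (h3.seq h4))).conv rfl ?_
  simp only [Polynomial.eval_add, Polynomial.eval_mul, Polynomial.eval_ofNat,
    Polynomial.eval_one]
  omega

theorem ru_inp (s : Tm) : ∃ p : Polynomial ℕ, ∀ (b d : ℕ) (w o : List Bool) (v : ℕ → ℕ)
    (τ : ℕ → List Bool) (m : ℕ), d < b → (∀ k, b ≤ k → τ k = []) → w.length ≤ m →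
    (∀ x, v x ≤ m) → Ru (cfm (.inp s) b d) (st w o v τ)
      (st w o v (Function.update τ d (decide ((Fm.inp s).Holds w v) :: τ d)))
      (p.eval m) := by
  obtain ⟨p, hp⟩ := ru_tm s
  obtain ⟨p', hp'⟩ := tm_bd s
  refine ⟨p + ((p' * 3 + 1) + (3 + (2 * Polynomial.X + 1))), fun b d w o v τ m hd hτ hw hv => ?_⟩
  set x := s.eval w.length v with hx
  have hxp := hp' w.length v m hw hv
  rw [← hx] at hxp
  have h1 := hp (b + 2) b w o v τ m (by omega) (fun k hk => hτ k (by omega)) hw hv
  rw [hτ b le_rfl, List.append_nil, ← hx] at h1
  have h2 := Ru.loop_acc (k := .tmp b)
    (body := fun _ => .cas .inp .skip (fun c => .push (.tmp (b + 1)) c)) (n := 2)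
    (fun p l => st (w.drop p.length) o v (Function.update (Function.update τ b l) (b + 1)
      (w.take p.length).reverse))
    (by
      intro p l
      rw [st_tmp, Function.update_of_ne (by omega), Function.update_self])
    (by
      intro a p l
      rw [update_st_tmp]
      rcases Nat.lt_or_ge p.length w.length with h | h
      · have e1 : w.drop p.length = w[p.length] :: w.drop (p.length + 1) :=
          List.drop_eq_getElem_cons h
        refine (Ru.cas_cons (a := w[p.length]) (l := w.drop (p.length + 1)) ?_
          (Ru.push _ _ _)).conv ?_ le_rfl
        · rw [st_inp, e1]
        · rw [update_st_inp, update_st_tmp, st_tmp, List.length_cons]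
          congr 1
          have e2 : (w.take (p.length + 1)).reverse = w[p.length] :: (w.take p.length).reverse := by
            rw [List.take_succ_eq_append_getElem h, List.reverse_append]
            rfl
          funext i
          by_cases hi : i = b
          · subst hi
            rw [Function.update_of_ne (by omega), Function.update_self,
              Function.update_of_ne (by omega), Function.update_self]
          · by_cases hi' : i = b + 1
            · subst hi'
              rw [Function.update_self, Function.update_self, e2, Function.update_of_ne hi,
                Function.update_self]
            · rw [Function.update_of_ne hi', Function.update_of_ne hi,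
                Function.update_of_ne hi', Function.update_of_ne hi, Function.update_of_ne hi',
                Function.update_of_ne hi]
      · refine (Ru.cas_nil ?_ (Ru.skip _)).conv ?_ le_rfl
        · rw [st_inp]
          exact List.drop_eq_nil_of_le h
        · rw [List.length_cons, List.drop_eq_nil_of_le h, List.drop_eq_nil_of_le (by omega),
            List.take_of_length_le h, List.take_of_length_le (by omega)]
          congr 1
          funext i
          by_cases hi : i = b
          · subst hi
            rw [Function.update_self, Function.update_of_ne (by omega), Function.update_self]
          · rw [Function.update_of_ne hi]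
            by_cases hi' : i = b + 1
            · subst hi'
              rw [Function.update_self, Function.update_self]
            · rw [Function.update_of_ne hi', Function.update_of_ne hi',
                Function.update_of_ne hi, Function.update_of_ne hi])
    (List.replicate x true) []
  simp only [List.length_nil, List.drop_zero, List.take_zero, List.reverse_nil,
    List.length_append, List.length_reverse, List.length_replicate, Nat.add_zero] at h2
  have e3 : Function.update (Function.update τ b (List.replicate x true)) (b + 1) ([] : List Bool) =
      Function.update τ b (List.replicate x true) := by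
    funext i
    by_cases hi' : i = b + 1
    · subst hi'
      rw [Function.update_self, Function.update_of_ne (by omega), hτ _ (by omega)]
    · rw [Function.update_of_ne hi']
  rw [e3] at h2
  set c := decide ((Fm.inp s).Holds w v) with hc
  have h3 : Ru (.cas .inp (.push (.tmp d) false) (fun c => .seq (.push .inp c) (.push (.tmp d) c)))
      (st (w.drop x) o v (Function.update (Function.update τ b []) (b + 1)
        (w.take x).reverse))
      (st (w.drop x) o v (Function.update (Function.update (Function.update τ b []) (b + 1)
        (w.take x).reverse) d (c :: τ d))) 3 := by
    rcases Nat.lt_or_ge x w.length with h | h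
    · have e1 : w.drop x = w[x] :: w.drop (x + 1) := List.drop_eq_getElem_cons h
      have e2 : c = w[x] := by
        rw [hc]
        have : (Fm.inp s).Holds w v ↔ w[x] = true := by
          rw [Fm.holds_inp, ← hx, List.getElem?_eq_getElem h, Option.some.injEq]
        rw [show decide ((Fm.inp s).Holds w v) = decide (w[x] = true) from decide_eq_decide.2 this]
        simp
      refine (Ru.cas_cons (a := w[x]) (l := w.drop (x + 1)) (by rw [st_inp, e1])
        ((Ru.push _ _ _).seq (Ru.push _ _ _))).conv ?_ le_rfl
      rw [update_st_inp, update_st_inp, update_st_tmp, st_inp, st_tmp, e2,
        Function.update_of_ne (by omega), Function.update_of_ne (by omega), e1]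
    · have e2 : c = false := by
        rw [hc, decide_eq_false_iff_not, Fm.holds_inp, ← hx, List.getElem?_eq_none h]
        simp
      refine (Ru.cas_nil (by rw [st_inp]; exact List.drop_eq_nil_of_le h)
        (Ru.push _ _ _)).conv ?_ (by omega)
      rw [update_st_tmp, st_tmp, e2, Function.update_of_ne (by omega),
        Function.update_of_ne (by omega)]
  have h4 := Ru.loop_acc (k := .tmp (b + 1)) (body := fun c => .push .inp c) (n := 1)
    (fun p l => st (p ++ w.drop x) o v (Function.update (Function.update τ (b + 1) l) d
      (c :: τ d)))
    (by
      intro p l
      rw [st_tmp, Function.update_of_ne (by omega), Function.update_self])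
    (by
      intro a p l
      refine (Ru.push _ _ _).conv ?_ le_rfl
      rw [update_st_tmp, update_st_inp, st_inp]
      rw [List.cons_append]
      congr 1
      funext i
      by_cases hi : i = d
      · subst hi
        rw [Function.update_of_ne (by omega), Function.update_self, Function.update_self]
      · by_cases hi' : i = b + 1
        · subst hi'
          rw [Function.update_self, Function.update_of_ne hi, Function.update_self]
        · rw [Function.update_of_ne hi', Function.update_of_ne hi, Function.update_of_ne hi',
            Function.update_of_ne hi, Function.update_of_ne hi'])
    (w.take x).reverse []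
  rw [List.reverse_reverse, List.append_nil, List.nil_append, List.take_append_drop] at h4
  have e4 : Function.update (Function.update (Function.update τ b []) (b + 1)
      (w.take x).reverse) d (c :: τ d) = Function.update (Function.update τ (b + 1)
      (w.take x).reverse) d (c :: τ d) := by
    funext i
    by_cases hi : i = d
    · subst hi
      rw [Function.update_self, Function.update_self]
    · rw [Function.update_of_ne hi, Function.update_of_ne hi]
      by_cases hi' : i = b + 1
      · subst hi'
        rw [Function.update_self, Function.update_self]
      · rw [Function.update_of_ne hi', Function.update_of_ne hi']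
        by_cases hi'' : i = b
        · subst hi''
          rw [Function.update_self, hτ _ le_rfl]
        · rw [Function.update_of_ne hi'']
  rw [e4] at h3
  refine (h1.seq (h2.seq (h3.seq h4))).conv ?_ ?_
  · congr 1
    funext i
    by_cases hi : i = d
    · subst hi
      rw [Function.update_self, Function.update_self]
    · rw [Function.update_of_ne hi, Function.update_of_ne hi]
      by_cases hi' : i = b + 1
      · subst hi'
        rw [Function.update_self, hτ _ (by omega)]
      · rw [Function.update_of_ne hi']
  · simp only [Polynomial.eval_add, Polynomial.eval_mul, Polynomial.eval_ofNat,
      Polynomial.eval_one, Polynomial.eval_X, List.length_reverse, List.length_take]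
    have : min x w.length ≤ m := (min_le_right _ _).trans hw
    omega

theorem ru_clearVar (x : ℕ) (w o : List Bool) (τ : ℕ → List Bool) (v : ℕ → ℕ) (n : ℕ) :
    Ru (.loop (.var x) (fun _ => false) (fun _ => .skip))
      (st w o (Function.update v x n) τ) (st w o (Function.update v x 0) τ) (2 * n + 1) := by
  induction n with
  | zero => exact Ru.loop_nil (by simp)
  | succ n ih =>
    have h1 : Ru (.skip) (Function.update (st w o (Function.update v x (n + 1)) τ) (.var x)
        (List.replicate n true)) (st w o (Function.update v x n) τ) 1 := by
      rw [update_st_var, Function.update_idem]
      exact Ru.skip _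
    have h2 := Ru.loop_step (k := .var x) (stop := fun _ => false)
      (body := fun _ => .skip) (a := true) (l := List.replicate n true)
      (by simp [List.replicate_succ]) rfl h1 ih
    exact h2.mono (by omega)

theorem ru_restVar (x j : ℕ) (w o : List Bool) (τ : ℕ → List Bool) (v : ℕ → ℕ) (n : ℕ) :
    ∀ m, Ru (.loop (.tmp j) (fun _ => false) (fun _ => .push (.var x) true))
      (st w o (Function.update v x m) (Function.update τ j (List.replicate n true)))
      (st w o (Function.update v x (m + n)) (Function.update τ j [])) (2 * n + 1) := by
  induction n with
  | zero => intro m; exact Ru.loop_nil (by simp)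
  | succ n ih =>
    intro m
    have h1 : Ru (.push (.var x) true) (Function.update (st w o (Function.update v x m)
        (Function.update τ j (List.replicate (n + 1) true))) (.tmp j) (List.replicate n true))
        (st w o (Function.update v x (m + 1)) (Function.update τ j (List.replicate n true))) 1 := by
      rw [update_st_tmp, Function.update_idem]
      refine (Ru.push _ _ _).conv ?_ le_rfl
      rw [st_var, Function.update_self, ← List.replicate_succ, update_st_var,
        Function.update_idem]
    have h2 := Ru.loop_step (k := .tmp j) (stop := fun _ => false)
      (body := fun _ => .push (.var x) true) (a := true) (l := List.replicate n true)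
      (by simp [List.replicate_succ]) rfl h1 (ih (m + 1))
    refine h2.conv ?_ (by omega)
    rw [show m + 1 + n = m + (n + 1) by omega]

/-- The flag command. -/
def flagC (b : ℕ) : Cmd Key Bool :=
  .cas (.tmp (b + 3)) .skip (fun c => match c with
    | true => .cas (.tmp (b + 2)) (.push (.tmp (b + 2)) true)
        (fun _ => .push (.tmp (b + 2)) true)
    | false => .skip)

/-- The flag of a truth value. -/
def flagL (c : Bool) : List Bool := if c then [true] else []

theorem ru_flagC (b : ℕ) (w o : List Bool) (v : ℕ → ℕ) (σ : ℕ → List Bool) (c e : Bool) :
    Ru (flagC b) (st w o v (Function.update (Function.update σ (b + 2) (flagL e)) (b + 3) [c]))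
      (st w o v (Function.update (Function.update σ (b + 2) (flagL (e || c))) (b + 3) [])) 3 := by
  have e1 : ∀ l l' l'' : List Bool, Function.update (Function.update (Function.update σ (b + 2) l)
      (b + 3) l') (b + 2) l'' = Function.update (Function.update σ (b + 2) l'') (b + 3) l' := by
    intro l l' l''
    rw [Function.update_comm (by omega : b + 3 ≠ b + 2), Function.update_idem]
  cases c with
  | false =>
    refine (Ru.cas_cons (k := .tmp (b + 3)) (a := false) (l := []) (by simp)
      (Ru.skip _)).conv ?_ (by omega)
    rw [update_st_tmp, Function.update_idem, Bool.or_false]
  | true =>
    rw [Bool.or_true]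
    cases e with
    | false =>
      have h1 : Ru (.cas (.tmp (b + 2)) (.push (.tmp (b + 2)) true)
          (fun _ => .push (.tmp (b + 2)) true))
          (Function.update (st w o v (Function.update (Function.update σ (b + 2) (flagL false))
            (b + 3) [true])) (.tmp (b + 3)) [])
          (st w o v (Function.update (Function.update σ (b + 2) (flagL true)) (b + 3) [])) 2 := by
        rw [update_st_tmp, Function.update_idem]
        refine (Ru.cas_nil (by simp [flagL]) (Ru.push _ _ _)).conv ?_ le_rfl
        rw [update_st_tmp, st_tmp, e1, Function.update_of_ne (by omega : b + 2 ≠ b + 3),
          Function.update_self]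
        rfl
      exact Ru.cas_cons (k := .tmp (b + 3)) (e := .skip) (body := fun c => match c with
        | true => .cas (.tmp (b + 2)) (.push (.tmp (b + 2)) true)
            (fun _ => .push (.tmp (b + 2)) true)
        | false => .skip) (a := true) (l := []) (by simp) h1
    | true =>
      have h1 : Ru (.cas (.tmp (b + 2)) (.push (.tmp (b + 2)) true)
          (fun _ => .push (.tmp (b + 2)) true))
          (Function.update (st w o v (Function.update (Function.update σ (b + 2) (flagL true))
            (b + 3) [true])) (.tmp (b + 3)) [])
          (st w o v (Function.update (Function.update σ (b + 2) (flagL true)) (b + 3) [])) 2 := by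
        rw [update_st_tmp, Function.update_idem]
        have h2 := Ru.push (.tmp (b + 2)) true (Function.update (st w o v (Function.update
          (Function.update σ (b + 2) (flagL true)) (b + 3) [])) (.tmp (b + 2)) [])
        refine (Ru.cas_cons (k := .tmp (b + 2)) (e := .push (.tmp (b + 2)) true)
          (body := fun _ => .push (.tmp (b + 2)) true) (a := true) (l := [])
          (by simp [flagL]) h2).conv ?_ le_rfl
        rw [update_st_tmp, update_st_tmp, st_tmp, Function.update_self, Function.update_idem, e1]
        rfl
      exact Ru.cas_cons (k := .tmp (b + 3)) (e := .skip) (body := fun c => match c with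
        | true => .cas (.tmp (b + 2)) (.push (.tmp (b + 2)) true)
            (fun _ => .push (.tmp (b + 2)) true)
        | false => .skip) (a := true) (l := []) (by simp) h1

theorem ru_fm (f : Fm) : ∃ p : Polynomial ℕ, ∀ (b d : ℕ) (w o : List Bool) (v : ℕ → ℕ)
    (τ : ℕ → List Bool) (m : ℕ), d < b → (∀ k, b ≤ k → τ k = []) → w.length ≤ m →
    (∀ x, v x ≤ m) → Ru (cfm f b d) (st w o v τ)
      (st w o v (Function.update τ d (decide (f.Holds w v) :: τ d))) (p.eval m) := by
  induction f with
  | lt s t => exact ru_lt s t
  | inp s => exact ru_inp s
  | neg f ih =>
    obtain ⟨p, hp⟩ := ih
    refine ⟨p + 2, fun b d w o v τ m hd hτ hw hv => ?_⟩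
    have h1 := hp b d w o v τ m hd hτ hw hv
    have h2 : Ru (.cas (.tmp d) .skip (fun c => .push (.tmp d) (!c)))
        (st w o v (Function.update τ d (decide (f.Holds w v) :: τ d)))
        (st w o v (Function.update τ d (decide ((Fm.neg f).Holds w v) :: τ d))) 2 := by
      have h3 := Ru.push (.tmp d) (!decide (f.Holds w v)) (Function.update
        (st w o v (Function.update τ d (decide (f.Holds w v) :: τ d))) (.tmp d) (τ d))
      refine (Ru.cas_cons (k := .tmp d) (e := .skip) (body := fun c => .push (.tmp d) (!c))
        (a := decide (f.Holds w v)) (l := τ d) (by rw [st_tmp, Function.update_self])
        h3).conv ?_ le_rfl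
      rw [update_st_tmp, update_st_tmp, st_tmp, Function.update_idem, Function.update_idem,
        Function.update_self]
      congr 4
      by_cases h : f.Holds w v
      · have h' : ¬ (Fm.neg f).Holds w v := fun h' => h' h
        rw [decide_eq_true h, decide_eq_false h']
        rfl
      · have h' : (Fm.neg f).Holds w v := h
        rw [decide_eq_false h, decide_eq_true h']
        rfl
    rw [Polynomial.eval_add, Polynomial.eval_ofNat]
    exact h1.seq h2
  | and f g ihf ihg =>
    obtain ⟨p, hp⟩ := ihf
    obtain ⟨q, hq⟩ := ihg
    refine ⟨p + (2 + q), fun b d w o v τ m hd hτ hw hv => ?_⟩
    have h1 := hp b d w o v τ m hd hτ hw hv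
    have h2 : Ru (.cas (.tmp d) .skip (fun c => match c with
        | true => cfm g b d
        | false => .push (.tmp d) false))
        (st w o v (Function.update τ d (decide (f.Holds w v) :: τ d)))
        (st w o v (Function.update τ d (decide ((Fm.and f g).Holds w v) :: τ d)))
        (2 + q.eval m) := by
      by_cases h : f.Holds w v
      · have hdf : decide (f.Holds w v) = true := decide_eq_true h
        have hdg : decide ((Fm.and f g).Holds w v) = decide (g.Holds w v) := by
          rw [decide_eq_decide, Fm.holds_and]
          exact ⟨fun h' => h'.2, fun h' => ⟨h, h'⟩⟩
        have e1 : Function.update (st w o v (Function.update τ d (decide (f.Holds w v) :: τ d)))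
            (.tmp d) (τ d) = st w o v τ := by
          rw [update_st_tmp, Function.update_idem, Function.update_eq_self]
        have h3 := hq b d w o v τ m hd hτ hw hv
        rw [← e1] at h3
        refine (Ru.cas_cons (k := .tmp d) (e := .skip) (body := fun c => match c with
          | true => cfm g b d
          | false => .push (.tmp d) false) (a := true) (l := τ d) (by simp [hdf]) h3).conv
            ?_ (by omega)
        rw [hdg]
      · have hdf : decide (f.Holds w v) = false := decide_eq_false h
        have hdg : decide ((Fm.and f g).Holds w v) = false := by
          rw [decide_eq_false_iff_not, Fm.holds_and]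
          exact fun h' => h h'.1
        have h3 := Ru.push (.tmp d) false (Function.update
          (st w o v (Function.update τ d (decide (f.Holds w v) :: τ d))) (.tmp d) (τ d))
        refine (Ru.cas_cons (k := .tmp d) (e := .skip) (body := fun c => match c with
          | true => cfm g b d
          | false => .push (.tmp d) false) (a := false) (l := τ d) (by simp [hdf]) h3).conv
            ?_ (by omega)
        rw [hdg, update_st_tmp, update_st_tmp, st_tmp, Function.update_idem,
          Function.update_idem, Function.update_self]
    rw [Polynomial.eval_add, Polynomial.eval_add, Polynomial.eval_ofNat]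
    exact h1.seq h2
  | ex x t f ih =>
    obtain ⟨p, hp⟩ := ih
    obtain ⟨q, hq⟩ := ru_tm t
    obtain ⟨q', hq'⟩ := tm_bd t
    refine ⟨q + ((2 * Polynomial.X + 1) + ((q' * (p.comp (Polynomial.X + q') + 4 + 1) + 1) +
      ((2 * q' + 1) + ((2 * Polynomial.X + 1) + 2)))), fun b d w o v τ m hd hτ hw hv => ?_⟩
    set T := t.eval w.length v with hT
    have hTq := hq' w.length v m hw hv
    rw [← hT] at hTq
    set fl : ℕ → Bool := fun i => decide (∃ a, a < i ∧ f.Holds w (Function.update v x a)) with hfl
    have hfl0 : fl 0 = false := by
      simp only [hfl, decide_eq_false_iff_not]
      rintro ⟨a, ha, _⟩
      omega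
    have hfls : ∀ i, fl (i + 1) = (fl i || decide (f.Holds w (Function.update v x i))) := by
      intro i
      rw [Bool.eq_iff_iff]
      simp only [hfl, decide_eq_true_eq, Bool.or_eq_true]
      constructor
      · rintro ⟨a, ha, h⟩
        rcases Nat.lt_succ_iff_lt_or_eq.1 ha with h' | h'
        · exact Or.inl ⟨a, h', h⟩
        · rw [h'] at h
          exact Or.inr h
      · rintro (⟨a, ha, h⟩ | h)
        · exact ⟨a, by omega, h⟩
        · exact ⟨i, by omega, h⟩
    -- the term
    have h1 := hq (b + 4) b w o v τ m (by omega) (fun k hk => hτ k (by omega)) hw hv
    rw [hτ b le_rfl, List.append_nil, ← hT] at h1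
    -- saving the variable
    have h2 := ru_moveVar x (b + 1) w o (Function.update τ b (List.replicate T true)) (v x) 0 v
    have e1 : Function.update (Function.update τ b (List.replicate T true)) (b + 1)
        (List.replicate 0 true) = Function.update τ b (List.replicate T true) := by
      funext i
      by_cases hi : i = b + 1
      · subst hi
        rw [Function.update_self, Function.update_of_ne (by omega), hτ _ (by omega)]
        rfl
      · rw [Function.update_of_ne hi]
    rw [e1, Function.update_eq_self, Nat.zero_add] at h2
    -- the loop
    have h3 := Ru.loop_accN (k := .tmp b) (body := fun _ => .seq (cfm f (b + 4) (b + 3))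
        (.seq (flagC b) (.push (.var x) true))) (n := (p.comp (Polynomial.X + q')).eval m + 4)
      (N := T)
      (fun p l => st w o (Function.update v x p.length) (Function.update (Function.update
        (Function.update (Function.update τ b l) (b + 1) (List.replicate (v x) true))
          (b + 2) (flagL (fl p.length))) (b + 3) []))
      (by
        intro p l
        rw [st_tmp, Function.update_of_ne (by omega), Function.update_of_ne (by omega),
          Function.update_of_ne (by omega), Function.update_self])
      (by
        intro a r l hr
        have e2 : Function.update (Function.update (Function.update (Function.update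
            (Function.update τ b (a :: l)) (b + 1) (List.replicate (v x) true))
            (b + 2) (flagL (fl r.length))) (b + 3) []) b l = Function.update (Function.update
            (Function.update (Function.update τ b l) (b + 1) (List.replicate (v x) true))
            (b + 2) (flagL (fl r.length))) (b + 3) [] := by
          rw [Function.update_comm (by omega : b + 3 ≠ b), Function.update_comm
            (by omega : b + 2 ≠ b), Function.update_comm (by omega : b + 1 ≠ b),
            Function.update_idem]
        rw [update_st_tmp, e2]
        have h4 := hp (b + 4) (b + 3) w o (Function.update v x r.length) (Function.update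
          (Function.update (Function.update (Function.update τ b l) (b + 1)
          (List.replicate (v x) true)) (b + 2) (flagL (fl r.length))) (b + 3) [])
          (m + q'.eval m) (by omega)
          (fun k hk => by
            rw [Function.update_of_ne (by omega), Function.update_of_ne (by omega),
              Function.update_of_ne (by omega), Function.update_of_ne (by omega)]
            exact hτ k (by omega)) (by omega)
          (fun y => by
            by_cases hy : y = x
            · subst hy
              rw [Function.update_self]
              omega
            · rw [Function.update_of_ne hy]
              have := hv y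
              omega)
        rw [Function.update_idem, Function.update_self] at h4
        have h5 := ru_flagC b w o (Function.update v x r.length) (Function.update
          (Function.update τ b l) (b + 1) (List.replicate (v x) true))
          (decide (f.Holds w (Function.update v x r.length))) (fl r.length)
        rw [← hfls] at h5
        have h6 := Ru.push (.var x) true (st w o (Function.update v x r.length) (Function.update
          (Function.update (Function.update (Function.update τ b l) (b + 1)
          (List.replicate (v x) true)) (b + 2) (flagL (fl (r.length + 1)))) (b + 3) []))
        rw [st_var, Function.update_self, ← List.replicate_succ, update_st_var,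
          Function.update_idem] at h6
        refine (h4.seq (h5.seq h6)).conv ?_ ?_
        · rw [List.length_cons]
        · rw [Polynomial.eval_comp, Polynomial.eval_add, Polynomial.eval_X])
      (List.replicate T true) [] (by simp)
    simp only [List.length_nil, List.length_append, List.length_reverse,
      List.length_replicate, Nat.add_zero, hfl0] at h3
    have e3 : Function.update (Function.update (Function.update (Function.update τ b
        (List.replicate T true)) (b + 1) (List.replicate (v x) true)) (b + 2) (flagL false))
        (b + 3) [] = Function.update (Function.update τ b
        (List.replicate T true)) (b + 1) (List.replicate (v x) true) := by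
      funext i
      by_cases hi : i = b + 3
      · subst hi
        rw [Function.update_self, Function.update_of_ne (by omega),
          Function.update_of_ne (by omega), hτ _ (by omega)]
      · rw [Function.update_of_ne hi]
        by_cases hi' : i = b + 2
        · subst hi'
          rw [Function.update_self, Function.update_of_ne (by omega),
            Function.update_of_ne (by omega), hτ _ (by omega)]
          rfl
        · rw [Function.update_of_ne hi']
    rw [e3] at h3
    -- clearing the variable and restoring it
    set σ := Function.update (Function.update (Function.update (Function.update τ b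
      ([] : List Bool)) (b + 1) (List.replicate (v x) true)) (b + 2) (flagL (fl T)))
      (b + 3) [] with hσ
    have h4 := ru_clearVar x w o σ v T
    have h5 := ru_restVar x (b + 1) w o σ v (v x) 0
    have e4 : Function.update σ (b + 1) (List.replicate (v x) true) = σ := by
      have : List.replicate (v x) true = σ (b + 1) := by
        rw [hσ, Function.update_of_ne (by omega), Function.update_of_ne (by omega),
          Function.update_self]
      rw [this, Function.update_eq_self]
    rw [e4, Nat.zero_add, Function.update_eq_self] at h5
    -- the result
    have hres : decide ((Fm.ex x t f).Holds w v) = fl T := by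
      rw [hfl]
      exact decide_eq_decide.2 Iff.rfl
    have h6 : Ru (.cas (.tmp (b + 2)) (.push (.tmp d) false) (fun _ => .push (.tmp d) true))
        (st w o v (Function.update σ (b + 1) []))
        (st w o v (Function.update τ d (decide ((Fm.ex x t f).Holds w v) :: τ d))) 2 := by
      have hval : Function.update σ (b + 1) [] (b + 2) = flagL (fl T) := by
        rw [Function.update_of_ne (by omega), hσ, Function.update_of_ne (by omega),
          Function.update_self]
      have hd' : Function.update σ (b + 1) [] d = τ d := by
        rw [Function.update_of_ne (by omega), hσ, Function.update_of_ne (by omega),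
          Function.update_of_ne (by omega), Function.update_of_ne (by omega),
          Function.update_of_ne (by omega)]
      have hoth : ∀ (l : List Bool), Function.update (Function.update (Function.update σ (b + 1) [])
          (b + 2) []) d l = Function.update τ d l := by
        intro l
        funext i
        by_cases hi : i = d
        · subst hi
          rw [Function.update_self, Function.update_self]
        · rw [Function.update_of_ne hi, Function.update_of_ne hi]
          by_cases h2 : i = b + 2
          · subst h2
            rw [Function.update_self, hτ _ (by omega)]
          · rw [Function.update_of_ne h2]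
            by_cases h1 : i = b + 1
            · subst h1
              rw [Function.update_self, hτ _ (by omega)]
            · rw [Function.update_of_ne h1, hσ]
              by_cases h3 : i = b + 3
              · subst h3
                rw [Function.update_self, hτ _ (by omega)]
              · rw [Function.update_of_ne h3, Function.update_of_ne h2,
                  Function.update_of_ne h1]
                by_cases h0 : i = b
                · subst h0
                  rw [Function.update_self, hτ _ le_rfl]
                · rw [Function.update_of_ne h0]
      rw [hres]
      cases hf : fl T with
      | false =>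
        rw [hf] at hval
        have h7 := Ru.push (.tmp d) false (st w o v (Function.update σ (b + 1) []))
        refine (Ru.cas_nil (k := .tmp (b + 2)) (by rw [st_tmp, hval]; rfl) h7).conv ?_ le_rfl
        rw [update_st_tmp, st_tmp, hd']
        have e5 : Function.update (Function.update σ (b + 1) []) (b + 2) [] =
            Function.update σ (b + 1) [] := by
          have : ([] : List Bool) = Function.update σ (b + 1) [] (b + 2) := by
            rw [hval]
            rfl
          conv_lhs => rw [this]
          rw [← this]
          exact Function.update_eq_self_iff.2 this
        rw [← hoth, e5]
      | true =>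
        rw [hf] at hval
        have h7 := Ru.push (.tmp d) true (Function.update (st w o v
          (Function.update σ (b + 1) [])) (.tmp (b + 2)) [])
        refine (Ru.cas_cons (k := .tmp (b + 2)) (e := .push (.tmp d) false)
          (body := fun _ => .push (.tmp d) true) (a := true) (l := [])
          (by rw [st_tmp, hval]; rfl) h7).conv ?_ le_rfl
        rw [update_st_tmp, update_st_tmp, st_tmp, Function.update_of_ne (by omega), hd', hoth]
    refine (h1.seq (h2.seq (h3.seq (h4.seq (h5.seq h6))))).conv rfl ?_
    simp only [Polynomial.eval_add, Polynomial.eval_mul, Polynomial.eval_ofNat,
      Polynomial.eval_one, Polynomial.eval_X]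
    have h8 := hv x
    have h9 : T * (Polynomial.eval m (p.comp (Polynomial.X + q')) + 4 + 1) ≤
        q'.eval m * (Polynomial.eval m (p.comp (Polynomial.X + q')) + 4 + 1) :=
      Nat.mul_le_mul_right _ hTq
    omega

end Pool.Agent.CHK
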