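import Pool.Agent.CHK.BfmDefs
import Pool.Agent.CHK.BfmFin

/-!
# Evaluation of terms by stack commands
-/

namespace Pool.Agent.CHK

open Turing Pool.Agent.Helper64.Stk

/-- Stack names. -/
inductive Key : Type
  | inp
  | out
  | var (x : ℕ)
  | tmp (k : ℕ)
  deriving DecidableEq

/-- The states: the input, the output, the variables (unary), the auxiliary stacks. -/
def st (w : List Bool) (o : List Bool) (v : ℕ → ℕ) (τ : ℕ → List Bool) : Key → List Bool
  | .inp => w
  | .out => o
  | .var x => List.replicate (v x) true
  | .tmp k => τ k

section St

variable (w o : List Bool) (v : ℕ → ℕ) (τ : ℕ → List Bool)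

@[simp] theorem st_inp : st w o v τ .inp = w := rfl
@[simp] theorem st_out : st w o v τ .out = o := rfl
@[simp] theorem st_var (x : ℕ) : st w o v τ (.var x) = List.replicate (v x) true := rfl
@[simp] theorem st_tmp (k : ℕ) : st w o v τ (.tmp k) = τ k := rfl

@[simp] theorem update_st_inp (l : List Bool) :
    Function.update (st w o v τ) .inp l = st l o v τ := by
  funext j
  by_cases h : j = .inp
  · subst h; simp
  · rw [Function.update_of_ne h]
    cases j <;> first | rfl | exact absurd rfl h

@[simp] theorem update_st_out (l : List Bool) :
    Function.update (st w o v τ) .out l = st w l v τ := by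
  funext j
  by_cases h : j = .out
  · subst h; simp
  · rw [Function.update_of_ne h]
    cases j <;> first | rfl | exact absurd rfl h

@[simp] theorem update_st_tmp (k : ℕ) (l : List Bool) :
    Function.update (st w o v τ) (.tmp k) l = st w o v (Function.update τ k l) := by
  funext j
  by_cases h : j = .tmp k
  · subst h; simp
  · rw [Function.update_of_ne h]
    cases j with
    | inp => rfl
    | out => rfl
    | var x => rfl
    | tmp i =>
      have : i ≠ k := fun h' => h (by rw [h'])
      simp [Function.update_of_ne this]

theorem update_st_var (x : ℕ) (n : ℕ) :
    Function.update (st w o v τ) (.var x) (List.replicate n true) =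
      st w o (Function.update v x n) τ := by
  funext j
  by_cases h : j = .var x
  · subst h; simp
  · rw [Function.update_of_ne h]
    cases j with
    | inp => rfl
    | out => rfl
    | var i =>
      have : i ≠ x := fun h' => h (by rw [h'])
      simp [Function.update_of_ne this]
    | tmp i => rfl

end St

/-- `Ru c S S' n`: the command runs from `S` to `S'` in at most `n` steps. -/
def Ru (c : Cmd Key Bool) (S S' : Key → List Bool) (n : ℕ) : Prop := ∃ t, t ≤ n ∧ Runs c S S' t

theorem Ru.mono {c : Cmd Key Bool} {S S' : Key → List Bool} {n m : ℕ} (h : Ru c S S' n)
    (hnm : n ≤ m) : Ru c S S' m := by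
  obtain ⟨t, ht, hr⟩ := h
  exact ⟨t, ht.trans hnm, hr⟩

theorem Ru.conv {c : Cmd Key Bool} {S S' S'' : Key → List Bool} {n m : ℕ} (h : Ru c S S' n)
    (hS : S' = S'') (hnm : n ≤ m) : Ru c S S'' m := by
  subst hS
  exact h.mono hnm

theorem Ru.skip (S : Key → List Bool) : Ru .skip S S 1 := ⟨1, le_rfl, Runs.skip S⟩

theorem Ru.push (k : Key) (a : Bool) (S : Key → List Bool) :
    Ru (.push k a) S (Function.update S k (a :: S k)) 1 := ⟨1, le_rfl, Runs.push k a S⟩

theorem Ru.seq {c d : Cmd Key Bool} {S S' S'' : Key → List Bool} {n m : ℕ} (h : Ru c S S' n)
    (h' : Ru d S' S'' m) : Ru (.seq c d) S S'' (n + m) := by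
  obtain ⟨t, ht, hr⟩ := h
  obtain ⟨t', ht', hr'⟩ := h'
  exact ⟨t + t', by omega, hr.seq hr'⟩

theorem Ru.loop_nil {k : Key} {stop : Bool → Bool} {body : Bool → Cmd Key Bool}
    {S : Key → List Bool} (h : S k = []) : Ru (.loop k stop body) S S 1 :=
  ⟨1, le_rfl, Runs.loop_nil h⟩

theorem Ru.loop_step {k : Key} {stop : Bool → Bool} {body : Bool → Cmd Key Bool}
    {S S' S'' : Key → List Bool} {a : Bool} {l : List Bool} {n m : ℕ} (h : S k = a :: l)
    (ha : stop a = false) (h1 : Ru (body a) (Function.update S k l) S' n)
    (h2 : Ru (.loop k stop body) S' S'' m) : Ru (.loop k stop body) S S'' (1 + n + m) := by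
  obtain ⟨t, ht, hr⟩ := h1
  obtain ⟨t', ht', hr'⟩ := h2
  exact ⟨1 + t + t', by omega, Runs.loop_step h ha hr hr'⟩

theorem Ru.cas_nil {k : Key} {e : Cmd Key Bool} {body : Bool → Cmd Key Bool}
    {S S' : Key → List Bool} {n : ℕ} (h : S k = []) (h1 : Ru e S S' n) :
    Ru (.cas k e body) S S' (1 + n) := by
  obtain ⟨t, ht, hr⟩ := h1
  exact ⟨1 + t, by omega, Runs.cas_nil h hr⟩

theorem Ru.cas_cons {k : Key} {e : Cmd Key Bool} {body : Bool → Cmd Key Bool}
    {S S' : Key → List Bool} {a : Bool} {l : List Bool} {n : ℕ} (h : S k = a :: l)
    (h1 : Ru (body a) (Function.update S k l) S' n) : Ru (.cas k e body) S S' (1 + n) := by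
  obtain ⟨t, ht, hr⟩ := h1
  exact ⟨1 + t, by omega, Runs.cas_cons h hr⟩

/-- Pop everything from `k` and run the command `body a` for every letter `a`; `J p l` is the state
when `p` has been read (in reverse order) and `l` remains. -/
theorem Ru.loop_acc {k : Key} {body : Bool → Cmd Key Bool} {n : ℕ}
    (J : List Bool → List Bool → Key → List Bool) (hJ : ∀ p l, J p l k = l)
    (hstep : ∀ a p l, Ru (body a) (Function.update (J p (a :: l)) k l) (J (a :: p) l) n)
    (l : List Bool) : ∀ p, Ru (.loop k (fun _ => false) body) (J p l) (J (l.reverse ++ p) [])
      (l.length * (n + 1) + 1) := by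
  induction l with
  | nil => intro p; exact (Ru.loop_nil (hJ p [])).mono (by simp)
  | cons a l ih =>
    intro p
    have h2 := Ru.loop_step (k := k) (stop := fun _ => false) (body := body) (hJ p (a :: l)) rfl
      (hstep a p l) (ih (a :: p))
    refine h2.conv ?_ ?_
    · rw [List.reverse_cons, List.append_assoc]
      rfl
    · rw [List.length_cons]
      ring_nf
      omega

theorem evalMono (p : Polynomial ℕ) {a b : ℕ} (h : a ≤ b) : p.eval a ≤ p.eval b := by
  rw [Polynomial.eval_eq_sum_range, Polynomial.eval_eq_sum_range]
  exact Finset.sum_le_sum fun i _ => Nat.mul_le_mul_left _ (Nat.pow_le_pow_left h i)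

/-! ### elementary commands -/

/-- Copy the unary number on `k` to the stack `d`, using the stack `j`. -/
def copyU (k d j : Key) : Cmd Key Bool :=
  .seq (.loop k (fun _ => false) (fun _ => .push j true))
    (.loop j (fun _ => false) (fun _ => .seq (.push k true) (.push d true)))

theorem ru_moveVar (x j : ℕ) (w o : List Bool) (τ : ℕ → List Bool) (n : ℕ) :
    ∀ (m : ℕ) (v : ℕ → ℕ), Ru (.loop (.var x) (fun _ => false) (fun _ => .push (.tmp j) true))
      (st w o (Function.update v x n) (Function.update τ j (List.replicate m true)))
      (st w o (Function.update v x 0) (Function.update τ j (List.replicate (m + n) true)))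
      (2 * n + 1) := by
  induction n with
  | zero =>
    intro m v
    exact Ru.loop_nil (by simp)
  | succ n ih =>
    intro m v
    have h1 : Ru (.push (.tmp j) true)
        (Function.update (st w o (Function.update v x (n + 1))
          (Function.update τ j (List.replicate m true))) (.var x) (List.replicate n true))
        (st w o (Function.update v x n) (Function.update τ j (List.replicate (m + 1) true))) 1 := by
      rw [update_st_var, Function.update_idem]
      refine (Ru.push _ _ _).conv ?_ le_rfl
      simp [List.replicate_succ]
    have h2 := Ru.loop_step (k := .var x) (stop := fun _ => false)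
      (body := fun _ => .push (.tmp j) true) (a := true) (l := List.replicate n true)
      (by simp [List.replicate_succ]) rfl h1 (ih (m + 1) v)
    refine h2.conv ?_ (by omega)
    rw [show m + 1 + n = m + (n + 1) by omega]

theorem ru_moveBack (x d j : ℕ) (hdj : d ≠ j) (w o : List Bool) (v : ℕ → ℕ) (n : ℕ) :
    ∀ (m : ℕ) (τ : ℕ → List Bool), Ru (.loop (.tmp j) (fun _ => false)
        (fun _ => .seq (.push (.var x) true) (.push (.tmp d) true)))
      (st w o (Function.update v x m) (Function.update τ j (List.replicate n true)))
      (st w o (Function.update v x (m + n)) (Function.update (Function.update τ j [])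
        d (List.replicate n true ++ τ d))) (3 * n + 1) := by
  induction n with
  | zero =>
    intro m τ
    refine (Ru.loop_nil (by simp)).conv ?_ le_rfl
    congr 1
    funext i
    by_cases hi : i = d
    · subst hi; simp [Function.update_of_ne hdj]
    · simp [Function.update_of_ne hi]
  | succ n ih =>
    intro m τ
    have h1 : Ru (.seq (.push (.var x) true) (.push (.tmp d) true))
        (Function.update (st w o (Function.update v x m)
          (Function.update τ j (List.replicate (n + 1) true))) (.tmp j) (List.replicate n true))
        (st w o (Function.update v x (m + 1)) (Function.update (Function.update τ d (true :: τ d)) j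
          (List.replicate n true))) 2 := by
      have e1 := Ru.push (.var x) true (Function.update (st w o (Function.update v x m)
          (Function.update τ j (List.replicate (n + 1) true))) (.tmp j) (List.replicate n true))
      have e2 : Function.update (Function.update (st w o (Function.update v x m)
          (Function.update τ j (List.replicate (n + 1) true))) (.tmp j) (List.replicate n true))
          (.var x) (true :: (Function.update (st w o (Function.update v x m)
          (Function.update τ j (List.replicate (n + 1) true))) (.tmp j)
            (List.replicate n true)) (.var x)) =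
          st w o (Function.update v x (m + 1)) (Function.update τ j (List.replicate n true)) := by
        rw [update_st_tmp, Function.update_idem, st_var, Function.update_self,
          ← List.replicate_succ, update_st_var, Function.update_idem]
      rw [e2] at e1
      refine (e1.seq (Ru.push _ _ _)).conv ?_ (by omega)
      rw [update_st_tmp, st_tmp, Function.update_of_ne hdj, Function.update_comm hdj]
    refine (Ru.loop_step (a := true) (l := List.replicate n true) (by simp [List.replicate_succ])
      rfl h1 (ih (m + 1) (Function.update τ d (true :: τ d)))).conv ?_ (by omega)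
    rw [Function.update_self]
    congr 1
    · congr 1
      omega
    · funext i
      by_cases hi : i = d
      · subst hi
        simp only [Function.update_self]
        rw [List.replicate_succ', List.append_assoc]
        rfl
      · by_cases hi' : i = j
        · subst hi'; simp [Function.update_of_ne hi]
        · simp [Function.update_of_ne hi, Function.update_of_ne hi']

theorem ru_copyVar (x d j : ℕ) (hdj : d ≠ j) (w o : List Bool) (v : ℕ → ℕ) (τ : ℕ → List Bool)
    (hj : τ j = []) :
    Ru (copyU (.var x) (.tmp d) (.tmp j)) (st w o v τ)
      (st w o v (Function.update τ d (List.replicate (v x) true ++ τ d))) (5 * v x + 2) := by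
  have h1 := ru_moveVar x j w o τ (v x) 0 v
  have e1 : Function.update v x (v x) = v := Function.update_eq_self x v
  have e2 : Function.update τ j (List.replicate 0 true) = τ := by
    rw [List.replicate_zero, ← hj]
    exact Function.update_eq_self j τ
  rw [e1, e2, Nat.zero_add] at h1
  have h2 := ru_moveBack x d j hdj w o v (v x) 0 τ
  have e3 : Function.update τ j [] = τ := e2
  rw [Nat.zero_add, e1, e3] at h2
  exact (h1.seq h2).conv rfl (by omega)

theorem ru_copyTmp (k d j : ℕ) (hkd : k ≠ d) (hkj : k ≠ j) (hdj : d ≠ j) (w o : List Bool)
    (v : ℕ → ℕ) (τ : ℕ → List Bool) (n : ℕ) (hk : τ k = List.replicate n true) (hj : τ j = []) :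
    Ru (copyU (.tmp k) (.tmp d) (.tmp j)) (st w o v τ)
      (st w o v (Function.update τ d (List.replicate n true ++ τ d))) (5 * n + 2) := by
  have h1 := Ru.loop_acc (k := .tmp k) (body := fun _ => .push (.tmp j) true) (n := 1)
    (fun p l => st w o v (Function.update (Function.update τ k l) j
      (List.replicate p.length true))) (by intro p l; simp [Function.update_of_ne hkj])
    (by
      intro a p l
      refine (Ru.push _ _ _).conv ?_ le_rfl
      simp only [update_st_tmp, st_tmp]
      congr 1
      funext i
      by_cases hi : i = j
      · subst hi
        simp [Function.update_of_ne hkj.symm, List.replicate_succ]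
      · by_cases hi' : i = k
        · subst hi'; simp [Function.update_of_ne hkj]
        · simp [Function.update_of_ne hi, Function.update_of_ne hi']) (List.replicate n true) []
  have h2 := Ru.loop_acc (k := .tmp j)
    (body := fun _ => .seq (.push (.tmp k) true) (.push (.tmp d) true)) (n := 2)
    (fun p l => st w o v (Function.update (Function.update (Function.update τ j l) k
      (List.replicate p.length true)) d (List.replicate p.length true ++ τ d)))
    (by intro p l; simp [Function.update_of_ne hkj.symm, Function.update_of_ne hdj.symm])
    (by
      intro a p l
      refine ((Ru.push _ _ _).seq (Ru.push _ _ _)).conv ?_ le_rfl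
      simp only [update_st_tmp, st_tmp]
      congr 1
      funext i
      by_cases hi : i = j
      · subst hi
        simp [Function.update_of_ne hkj.symm, Function.update_of_ne hdj.symm]
      · by_cases hi' : i = k
        · subst hi'
          simp [Function.update_of_ne hkj, Function.update_of_ne hkd, List.replicate_succ]
        · by_cases hi'' : i = d
          · subst hi''
            simp [Function.update_of_ne hkd.symm, Function.update_of_ne hdj,
              List.replicate_succ]
          · simp [Function.update_of_ne hi, Function.update_of_ne hi',
              Function.update_of_ne hi'']) (List.replicate n true) []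
  have e1 : Function.update (Function.update τ k (List.replicate n true)) j
      (List.replicate ([] : List Bool).length true) = τ := by
    rw [← hk, Function.update_eq_self, List.length_nil, List.replicate_zero, ← hj,
      Function.update_eq_self]
  have e2 : Function.update (Function.update τ k ([] : List Bool)) j (List.replicate
      ((List.replicate n true).reverse ++ []).length true) =
      Function.update (Function.update (Function.update τ j (List.replicate n true)) k
      (List.replicate ([] : List Bool).length true)) d
        (List.replicate ([] : List Bool).length true ++ τ d) := by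
    funext i
    by_cases hi : i = j
    · subst hi
      simp [Function.update_of_ne hkj.symm, Function.update_of_ne hdj.symm]
    · by_cases hi' : i = k
      · subst hi'
        simp [Function.update_of_ne hkj, Function.update_of_ne hkd]
      · by_cases hi'' : i = d
        · subst hi''
          simp [Function.update_of_ne hkd.symm, Function.update_of_ne hdj]
        · simp [Function.update_of_ne hi, Function.update_of_ne hi', Function.update_of_ne hi'']
  have e3 : Function.update (Function.update (Function.update τ j ([] : List Bool)) k
      (List.replicate ((List.replicate n true).reverse ++ []).length true)) d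
        (List.replicate ((List.replicate n true).reverse ++ []).length true ++ τ d) =
      Function.update τ d (List.replicate n true ++ τ d) := by
    funext i
    by_cases hi : i = j
    · subst hi
      simp [Function.update_of_ne hkj.symm, Function.update_of_ne hdj.symm, hj]
    · by_cases hi' : i = k
      · subst hi'
        simp [Function.update_of_ne hkd, hk]
      · by_cases hi'' : i = d
        · subst hi''
          simp
        · simp [Function.update_of_ne hi, Function.update_of_ne hi', Function.update_of_ne hi'']
  simp only [e1] at h1
  simp only [← e2] at h2
  simp only [e3] at h2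
  refine (h1.seq h2).conv rfl ?_
  simp only [List.length_replicate]
  omega

/-- Empty an auxiliary stack. -/
def clearT (j : ℕ) : Cmd Key Bool := .loop (.tmp j) (fun _ => false) (fun _ => .skip)

theorem ru_clearT (j : ℕ) (w o : List Bool) (v : ℕ → ℕ) (τ : ℕ → List Bool) :
    Ru (clearT j) (st w o v τ) (st w o v (Function.update τ j [])) (2 * (τ j).length + 1) := by
  have h1 := Ru.loop_acc (k := .tmp j) (body := fun _ => .skip) (n := 1)
    (fun _ l => st w o v (Function.update τ j l)) (by intro p l; simp)
    (by
      intro a p l
      refine (Ru.skip _).conv ?_ le_rfl
      simp) (τ j) []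
  simp only [Function.update_eq_self] at h1
  exact h1.mono (by omega)

/-- Add the length of the input to the unary number on `d`. -/
def lenU (d j : ℕ) : Cmd Key Bool :=
  .seq (.loop .inp (fun _ => false) (fun a => .push (.tmp j) a))
    (.loop (.tmp j) (fun _ => false) (fun a => .seq (.push .inp a) (.push (.tmp d) true)))

theorem ru_lenU (d j : ℕ) (hdj : d ≠ j) (w o : List Bool) (v : ℕ → ℕ) (τ : ℕ → List Bool)
    (hj : τ j = []) :
    Ru (lenU d j) (st w o v τ)
      (st w o v (Function.update τ d (List.replicate w.length true ++ τ d)))
      (5 * w.length + 2) := by
  have h1 := Ru.loop_acc (k := .inp) (body := fun a => .push (.tmp j) a) (n := 1)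
    (fun p l => st l o v (Function.update τ j p)) (by intro p l; simp)
    (by
      intro a p l
      refine (Ru.push _ _ _).conv ?_ le_rfl
      simp) w []
  have h2 := Ru.loop_acc (k := .tmp j)
    (body := fun a => .seq (.push .inp a) (.push (.tmp d) true)) (n := 2)
    (fun p l => st p o v (Function.update (Function.update τ j l) d
      (List.replicate p.length true ++ τ d)))
    (by intro p l; simp [Function.update_of_ne hdj.symm])
    (by
      intro a p l
      refine ((Ru.push _ _ _).seq (Ru.push _ _ _)).conv ?_ le_rfl
      simp only [update_st_tmp, update_st_inp, st_tmp, st_inp]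
      congr 1
      funext i
      by_cases hi : i = j
      · subst hi
        simp [Function.update_of_ne hdj.symm]
      · by_cases hi'' : i = d
        · subst hi''
          simp [Function.update_of_ne hdj, List.replicate_succ]
        · simp [Function.update_of_ne hi, Function.update_of_ne hi'']) w.reverse []
  have e1 : Function.update τ j ([] : List Bool) = τ := by
    rw [← hj, Function.update_eq_self]
  have e2 : Function.update τ j (w.reverse ++ []) = Function.update (Function.update τ j w.reverse)
      d (List.replicate ([] : List Bool).length true ++ τ d) := by
    funext i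
    by_cases hi'' : i = d
    · subst hi''
      simp [Function.update_of_ne hdj]
    · simp [Function.update_of_ne hi'']
  simp only [e1] at h1
  simp only [← e2, e1, List.append_nil, List.reverse_reverse] at h2
  rw [List.append_nil] at h1
  refine (h1.seq h2).conv rfl ?_
  rw [List.length_reverse]
  omega

/-- Push `c` letters `true`. -/
def pushC (d : ℕ) : ℕ → Cmd Key Bool
  | 0 => .skip
  | c + 1 => .seq (.push (.tmp d) true) (pushC d c)

theorem ru_pushC (d c : ℕ) (w o : List Bool) (v : ℕ → ℕ) : ∀ τ : ℕ → List Bool,
    Ru (pushC d c) (st w o v τ)
      (st w o v (Function.update τ d (List.replicate c true ++ τ d))) (c + 1) := by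
  induction c with
  | zero =>
    intro τ
    refine (Ru.skip _).conv ?_ (by omega)
    simp
  | succ c ih =>
    intro τ
    have h1 := Ru.push (.tmp d) true (st w o v τ)
    rw [update_st_tmp] at h1
    refine (h1.seq (ih _)).conv ?_ (by omega)
    congr 1
    rw [Function.update_idem, Function.update_self, st_tmp, List.replicate_succ', List.append_assoc]
    rfl

/-- The command which adds the value of a term to the number on `tmp d`; the stacks `tmp k`,
`b ≤ k`, are free. -/
def ctm : Tm → ℕ → ℕ → Cmd Key Bool
  | .var i, b, d => copyU (.var i) (.tmp d) (.tmp b)
  | .const c, _, d => pushC d c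
  | .len, b, d => lenU d b
  | .add s t, b, d => .seq (ctm s b d) (ctm t b d)
  | .mul s t, b, d => .seq (ctm s (b + 2) b) (.seq (ctm t (b + 2) (b + 1))
      (.seq (.loop (.tmp b) (fun _ => false)
        (fun _ => copyU (.tmp (b + 1)) (.tmp d) (.tmp (b + 2)))) (clearT (b + 1))))

/-- Values of terms are polynomially bounded. -/
theorem tm_bd (t : Tm) : ∃ q : Polynomial ℕ, ∀ (n : ℕ) (v : ℕ → ℕ) (m : ℕ), n ≤ m →
    (∀ x, v x ≤ m) → t.eval n v ≤ q.eval m := by
  induction t with
  | var i => exact ⟨Polynomial.X, fun n v m _ hv => by simpa using hv i⟩
  | const c => exact ⟨Polynomial.C c, fun n v m _ _ => by simp⟩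
  | len => exact ⟨Polynomial.X, fun n v m hn _ => by simpa using hn⟩
  | add s t ihs iht =>
    obtain ⟨p, hp⟩ := ihs
    obtain ⟨q, hq⟩ := iht
    refine ⟨p + q, fun n v m hn hv => ?_⟩
    rw [Polynomial.eval_add]
    exact Nat.add_le_add (hp n v m hn hv) (hq n v m hn hv)
  | mul s t ihs iht =>
    obtain ⟨p, hp⟩ := ihs
    obtain ⟨q, hq⟩ := iht
    refine ⟨p * q, fun n v m hn hv => ?_⟩
    rw [Polynomial.eval_mul]
    exact Nat.mul_le_mul (hp n v m hn hv) (hq n v m hn hv)

theorem ru_tm (t : Tm) : ∃ p : Polynomial ℕ, ∀ (b d : ℕ) (w o : List Bool) (v : ℕ → ℕ)
    (τ : ℕ → List Bool) (m : ℕ), d < b → (∀ k, b ≤ k → τ k = []) → w.length ≤ m →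
    (∀ x, v x ≤ m) → Ru (ctm t b d) (st w o v τ)
      (st w o v (Function.update τ d (List.replicate (t.eval w.length v) true ++ τ d)))
      (p.eval m) := by
  induction t with
  | var i =>
    refine ⟨5 * Polynomial.X + 2, fun b d w o v τ m hd hτ hw hv => ?_⟩
    refine (ru_copyVar i d b (by omega) w o v τ (hτ b le_rfl)).mono ?_
    have := hv i
    simp only [Polynomial.eval_add, Polynomial.eval_mul, Polynomial.eval_ofNat,
      Polynomial.eval_X]
    omega
  | const c =>
    refine ⟨Polynomial.C (c + 1), fun b d w o v τ m hd hτ hw hv => ?_⟩
    rw [Polynomial.eval_C]
    exact ru_pushC d c w o v τ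
  | len =>
    refine ⟨5 * Polynomial.X + 2, fun b d w o v τ m hd hτ hw hv => ?_⟩
    refine (ru_lenU d b (by omega) w o v τ (hτ b le_rfl)).mono ?_
    simp only [Polynomial.eval_add, Polynomial.eval_mul, Polynomial.eval_ofNat,
      Polynomial.eval_X]
    omega
  | add s t ihs iht =>
    obtain ⟨p, hp⟩ := ihs
    obtain ⟨q, hq⟩ := iht
    refine ⟨p + q, fun b d w o v τ m hd hτ hw hv => ?_⟩
    have h1 := hp b d w o v τ m hd hτ hw hv
    have h2 := hq b d w o v (Function.update τ d
      (List.replicate (s.eval w.length v) true ++ τ d)) m hd
      (fun k hk => by rw [Function.update_of_ne (by omega)]; exact hτ k hk) hw hv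
    rw [Polynomial.eval_add]
    refine (h1.seq h2).conv ?_ le_rfl
    rw [Function.update_idem, Function.update_self, ← List.append_assoc,
      List.replicate_append_replicate, Tm.eval_add, Nat.add_comm]
  | mul s t ihs iht =>
    obtain ⟨p, hp⟩ := ihs
    obtain ⟨q, hq⟩ := iht
    obtain ⟨p', hp'⟩ := tm_bd s
    obtain ⟨q', hq'⟩ := tm_bd t
    refine ⟨p + (q + ((p' * (5 * q' + 2 + 1) + 1) + (2 * q' + 1))),
      fun b d w o v τ m hd hτ hw hv => ?_⟩
    set x := s.eval w.length v with hx
    set y := t.eval w.length v with hy
    have hxp := hp' w.length v m hw hv
    have hyq := hq' w.length v m hw hv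
    rw [← hx] at hxp
    rw [← hy] at hyq
    have h1 := hp (b + 2) b w o v τ m (by omega) (fun k hk => hτ k (by omega)) hw hv
    rw [hτ b le_rfl, List.append_nil, ← hx] at h1
    have h2 := hq (b + 2) (b + 1) w o v (Function.update τ b (List.replicate x true)) m (by omega)
      (fun k hk => by rw [Function.update_of_ne (by omega)]; exact hτ k (by omega)) hw hv
    rw [Function.update_of_ne (by omega), hτ (b + 1) (by omega), List.append_nil, ← hy] at h2
    have h3 := Ru.loop_acc (k := .tmp b)
      (body := fun _ => copyU (.tmp (b + 1)) (.tmp d) (.tmp (b + 2))) (n := 5 * y + 2)
      (fun p l => st w o v (Function.update (Function.update (Function.update τ b l) (b + 1)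
        (List.replicate y true)) d (List.replicate (p.length * y) true ++ τ d)))
      (by
        intro p l
        rw [st_tmp, Function.update_of_ne (by omega), Function.update_of_ne (by omega),
          Function.update_self])
      (by
        intro a p l
        rw [update_st_tmp]
        refine (ru_copyTmp (b + 1) d (b + 2) (by omega) (by omega) (by omega) w o v _ y
          ?_ ?_).conv ?_ le_rfl
        · rw [Function.update_of_ne (by omega), Function.update_of_ne (by omega),
            Function.update_self]
        · rw [Function.update_of_ne (by omega), Function.update_of_ne (by omega),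
            Function.update_of_ne (by omega), Function.update_of_ne (by omega)]
          exact hτ _ (by omega)
        · congr 1
          funext i
          by_cases hi : i = d
          · subst hi
            rw [Function.update_self, Function.update_self, Function.update_of_ne (by omega),
              Function.update_self, ← List.append_assoc, List.replicate_append_replicate,
              List.length_cons]
            congr 2
            ring
          · by_cases hi' : i = b
            · subst hi'
              rw [Function.update_of_ne hi, Function.update_self, Function.update_of_ne hi,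
                Function.update_of_ne (by omega), Function.update_self]
            · by_cases hi'' : i = b + 1
              · subst hi''
                rw [Function.update_of_ne hi, Function.update_of_ne hi',
                  Function.update_of_ne hi, Function.update_self, Function.update_of_ne hi,
                  Function.update_self]
              · rw [Function.update_of_ne hi, Function.update_of_ne hi',
                  Function.update_of_ne hi, Function.update_of_ne hi'',
                  Function.update_of_ne hi', Function.update_of_ne hi,
                  Function.update_of_ne hi'', Function.update_of_ne hi'])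
      (List.replicate x true) []
    have h4 := ru_clearT (b + 1) w o v (Function.update (Function.update (Function.update τ b [])
        (b + 1) (List.replicate y true)) d
          (List.replicate (((List.replicate x true).reverse ++ []).length * y) true ++ τ d))
    have e1 : Function.update (Function.update (Function.update τ b (List.replicate x true))
        (b + 1) (List.replicate y true)) d
        (List.replicate (([] : List Bool).length * y) true ++ τ d) =
        Function.update (Function.update τ b (List.replicate x true)) (b + 1)
          (List.replicate y true) := by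
      rw [List.length_nil, Nat.zero_mul, List.replicate_zero, List.nil_append]
      funext i
      by_cases hi : i = d
      · subst hi
        rw [Function.update_self, Function.update_of_ne (by omega),
          Function.update_of_ne (by omega)]
      · rw [Function.update_of_ne hi]
    simp only [e1] at h3
    refine (h1.seq (h2.seq (h3.seq h4))).conv ?_ ?_
    · congr 1
      funext i
      by_cases hi : i = d
      · subst hi
        rw [Function.update_of_ne (by omega), Function.update_self, Function.update_self]
        simp [hx, hy]
      · by_cases hi' : i = b
        · subst hi'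
          rw [Function.update_of_ne (by omega), Function.update_of_ne hi,
            Function.update_of_ne (by omega), Function.update_self, Function.update_of_ne hi]
          exact (hτ _ le_rfl).symm
        · by_cases hi'' : i = b + 1
          · subst hi''
            rw [Function.update_self, Function.update_of_ne hi]
            exact (hτ _ (by omega)).symm
          · rw [Function.update_of_ne hi'', Function.update_of_ne hi,
              Function.update_of_ne hi'', Function.update_of_ne hi', Function.update_of_ne hi]
    · have e2 : (Function.update (Function.update (Function.update τ b ([] : List Bool))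
        (b + 1) (List.replicate y true)) d
          (List.replicate (((List.replicate x true).reverse ++ []).length * y) true ++ τ d)
          (b + 1)).length = y := by
        rw [Function.update_of_ne (by omega), Function.update_self, List.length_replicate]
      rw [e2, List.length_replicate]
      simp only [Polynomial.eval_add, Polynomial.eval_mul, Polynomial.eval_ofNat,
        Polynomial.eval_one]
      have h5 : x * (5 * y + 2 + 1) ≤ p'.eval m * (5 * q'.eval m + 2 + 1) :=
        Nat.mul_le_mul hxp (by omega)
      omega

end Pool.Agent.CHK
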