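import Pool.Agent.CHK.Side

set_option autoImplicit false

/-! Module COMB: one comb and the sides. -/

namespace Pool.Agent.CHK

/-! ### arithmetic -/

theorem ca_mono {m s t : ℕ} (h : s ≤ t) : ca m s + 2 * ((t : ℤ) - s) ≤ ca m t := by
  have h1 : s / m ≤ t / m := Nat.div_le_div_right h
  have h2 : ((s / m : ℕ) : ℤ) ≤ ((t / m : ℕ) : ℤ) := by exact_mod_cast h1
  unfold ca
  linarith

theorem ca_le {m s t : ℕ} (h : s ≤ t) : ca m s ≤ ca m t := by
  have h1 := ca_mono (m := m) h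
  have h2 : (s : ℤ) ≤ t := by exact_mod_cast h
  linarith

theorem ca_lt {m s t : ℕ} (h : s < t) : ca m s + 2 ≤ ca m t := by
  have h1 := ca_mono (m := m) h.le
  have h2 : (s : ℤ) + 1 ≤ t := by exact_mod_cast h
  linarith

theorem cb_eq (m s : ℕ) : cb m s = ca m s + 4 := rfl

theorem ca_even (m s : ℕ) : ∃ k : ℤ, ca m s = 2 * k :=
  ⟨(s : ℤ) + 2 * ((s / m : ℕ) : ℤ), by unfold ca; ring⟩

theorem ca_nonneg (m s : ℕ) : 0 ≤ ca m s := by
  unfold ca
  positivity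

theorem ca_inj {m s t : ℕ} (h : ca m s = ca m t) : s = t := by
  rcases lt_trichotomy s t with h1 | h1 | h1
  · have := ca_lt (m := m) h1
    omega
  · exact h1
  · have := ca_lt (m := m) h1
    omega

theorem trunk_le {m s₁ s₂ : ℕ} (h : s₁ ≤ s₂) : trunk m s₁ s₂ + 2 ≤ ca m s₁ := by
  have h2 : (s₁ : ℤ) ≤ s₂ := by exact_mod_cast h
  unfold trunk
  linarith

theorem cb_lt {m s : ℕ} (hs : s < m * m) : cb m s + 1 < bs m m := by
  have hm : 0 < m := by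
    rcases Nat.eq_zero_or_pos m with h | h
    · subst h
      simp at hs
    · exact h
  have h1 : s / m < m := Nat.div_lt_of_lt_mul hs
  have h2 : ((s / m : ℕ) : ℤ) + 1 ≤ m := by exact_mod_cast h1
  have h3 : (s : ℤ) + 1 ≤ (m : ℤ) * m := by exact_mod_cast hs
  unfold cb ca bs
  nlinarith

theorem trunk_ge {m s₁ s₂ : ℕ} (h₂ : s₂ < m * m) : -2 * (m : ℤ) * m ≤ trunk m s₁ s₂ := by
  have h3 : (s₂ : ℤ) + 1 ≤ (m : ℤ) * m := by exact_mod_cast h₂
  have h4 : (0 : ℤ) ≤ s₁ := by positivity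
  have h5 : 0 ≤ ca m s₁ := ca_nonneg m s₁
  unfold trunk
  nlinarith

/-! ### the normal form of the vertices of a comb -/

/-- The vertices of a comb. -/
theorem comb_pt {m : ℕ} {r : ℕ → Bool} {e : Edge} (he : e ∈ Comb m r) {z : V} (hz : Inc z e) :
    ∃ s₁ s₂ : ℕ, IsFirst r s₁ ∧ IsLast r s₂ ∧ s₁ ≤ s₂ ∧
      ((∃ s, r s = true ∧ (z.2 = cb m s ∨ z.2 = cb m s + 1) ∧ trunk m s₁ s₂ ≤ z.1 ∧
        z.1 ≤ ca m s) ∨
      (z.1 = trunk m s₁ s₂ ∧ cb m s₁ ≤ z.2 ∧ z.2 ≤ cb m s₂ + 1) ∨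
      (∃ s t, IsNext r s t ∧ z.1 = trunk m s₁ s₂ + 1 ∧ cb m s + 1 ≤ z.2 ∧ z.2 ≤ cb m t)) := by
  obtain ⟨s₁, s₂, hs₁, hs₂, x, h⟩ := he
  have h12 : s₁ ≤ s₂ := hs₁.2 _ hs₂.1
  have hT := trunk_le (m := m) h12
  refine ⟨s₁, s₂, hs₁, hs₂, h12, ?_⟩
  rcases h with ⟨s, hs, rfl, h1, h2, h3⟩ | ⟨s, hs, rfl, h1, h2, h3⟩ | ⟨s, hs, rfl⟩ |
    ⟨rfl, h1, h2⟩ | ⟨s, t, hst, rfl, h1, h2⟩
  · left
    refine ⟨s, hs, ?_⟩
    rcases hz with rfl | rfl
    · exact ⟨Or.inl rfl, h1, h2.le⟩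
    · have g : Edge.hi (x, cb m s, false) = (x + 1, cb m s) := rfl
      rw [g]
      exact ⟨Or.inl rfl, by simp only; omega, by simp only; omega⟩
  · left
    refine ⟨s, hs, ?_⟩
    rcases hz with rfl | rfl
    · exact ⟨Or.inr rfl, h1, h2.le⟩
    · have g : Edge.hi (x, cb m s + 1, false) = (x + 1, cb m s + 1) := rfl
      rw [g]
      exact ⟨Or.inr rfl, by simp only; omega, by simp only; omega⟩
  · left
    have h4 := ca_le (m := m) (hs₁.2 _ hs)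
    refine ⟨s, hs, ?_⟩
    rcases hz with rfl | rfl
    · exact ⟨Or.inl rfl, by simp only [Edge.lo]; omega, le_rfl⟩
    · have g : Edge.hi (ca m s, cb m s, true) = (ca m s, cb m s + 1) := rfl
      rw [g]
      exact ⟨Or.inr rfl, by simp only; omega, le_rfl⟩
  · right
    left
    rcases hz with rfl | rfl
    · exact ⟨rfl, h1, by simp only [Edge.lo]; omega⟩
    · have g : Edge.hi (trunk m s₁ s₂, x, true) = (trunk m s₁ s₂, x + 1) := rfl
      rw [g]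
      exact ⟨rfl, by simp only; omega, by simp only; omega⟩
  · right
    right
    refine ⟨s, t, hst, ?_⟩
    rcases hz with rfl | rfl
    · exact ⟨rfl, h1, h2.le⟩
    · have g : Edge.hi (trunk m s₁ s₂ + 1, x, true) = (trunk m s₁ s₂ + 1, x + 1) := rfl
      rw [g]
      exact ⟨rfl, by simp only; omega, by simp only; omega⟩

/-! ### the statements -/

theorem comb_nonempty {m : ℕ} {r : ℕ → Bool} {e : Edge} (he : e ∈ Comb m r) :
    ∃ s, r s = true := by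
  obtain ⟨s₁, s₂, hs₁, hs₂, x, h⟩ := he
  exact ⟨s₁, hs₁.1⟩

theorem exists_first_last {m : ℕ} {r : ℕ → Bool} (hr : ∀ s, r s = true → s < m * m) {s : ℕ}
    (hs : r s = true) : ∃ s₁ s₂, IsFirst r s₁ ∧ IsLast r s₂ ∧ s₁ ≤ s ∧ s ≤ s₂ := by
  classical
  have hex : ∃ t, r t = true := ⟨s, hs⟩
  obtain ⟨t, ht1, ht2⟩ : ∃ t, r t = true ∧ ∀ u, r u = true → u ≤ t := by
    have hne : ((Finset.range (m * m)).filter (fun t => r t = true)).Nonempty :=
      ⟨s, by simp [hs, hr s hs]⟩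
    refine ⟨_, (Finset.mem_filter.1 (Finset.max'_mem _ hne)).2, ?_⟩
    intro u hu
    exact Finset.le_max' _ _ (by simp [hu, hr u hu])
  refine ⟨Nat.find hex, t, ⟨Nat.find_spec hex, fun u hu => Nat.find_min' hex hu⟩, ⟨ht1, ht2⟩,
    Nat.find_min' hex hs, ht2 s hs⟩

theorem exists_next {r : ℕ → Bool} {s t : ℕ} (hs : r s = true) (ht : r t = true) (h : s < t) :
    ∃ u, IsNext r s u ∧ u ≤ t := by
  classical
  have hex : ∃ u, s < u ∧ r u = true := ⟨t, h, ht⟩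
  refine ⟨Nat.find hex, ⟨hs, (Nat.find_spec hex).2, (Nat.find_spec hex).1, ?_⟩,
    Nat.find_min' hex ⟨h, ht⟩⟩
  intro u hu
  rcases Nat.lt_or_ge s u with h1 | h1
  · exact Or.inr (Nat.find_min' hex ⟨h1, hu⟩)
  · exact Or.inl h1

theorem comb_pos {m : ℕ} {r : ℕ → Bool} (hr : ∀ s, r s = true → s < m * m) {e : Edge}
    (he : e ∈ Comb m r) {z : V} (hz : Inc z e) :
    z.1 < z.2 ∧ 4 ≤ z.2 ∧ z.2 < bs m m ∧ -2 * (m : ℤ) * m ≤ z.1 := by
  obtain ⟨s₁, s₂, hs₁, hs₂, h12, h⟩ := comb_pt he hz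
  have hT := trunk_le (m := m) h12
  have hT2 : -2 * (m : ℤ) * m ≤ trunk m s₁ s₂ := trunk_ge (hr _ hs₂.1)
  have e1 := cb_eq m s₁
  have e2 := cb_eq m s₂
  have n1 := ca_nonneg m s₁
  have b2 := cb_lt (hr _ hs₂.1)
  rcases h with ⟨s, hs, h1, h2, h3⟩ | ⟨h1, h2, h3⟩ | ⟨s, t, hst, h1, h2, h3⟩
  · have e3 := cb_eq m s
    have n3 := ca_nonneg m s
    have b3 := cb_lt (hr _ hs)
    rcases h1 with h1 | h1
    · exact ⟨by omega, by omega, by omega, by omega⟩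
    · exact ⟨by omega, by omega, by omega, by omega⟩
  · exact ⟨by omega, by omega, by omega, by omega⟩
  · have e3 := cb_eq m s
    have e4 := cb_eq m t
    have h5 := ca_le (m := m) (hs₁.2 _ hst.1)
    have b4 := cb_lt (hr _ hst.2.1)
    exact ⟨by omega, by omega, by omega, by omega⟩

theorem comb_side {m : ℕ} {r : ℕ → Bool} (hr : ∀ s, r s = true → s < m * m) {e : Edge}
    (he : e ∈ Comb m r) {i k : ℕ} (hi : i < m) (hk : k ≤ 4 * m + 8) (hz : Inc (sv m i k) e) :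
    ∃ s, r s = true ∧ s / m = i ∧ sv m i k = corner m s := by
  obtain ⟨s₁, s₂, hs₁, hs₂, h12, h⟩ := comb_pt he hz
  have hT := trunk_le (m := m) h12
  rcases h with ⟨s, hs, h1, h2, h3⟩ | ⟨h1, h2, h3⟩ | ⟨s, t, hst, h1, h2, h3⟩
  · obtain ⟨a1, a2, a3⟩ := side_at m i k s hi hk (hr _ hs)
    rcases h1 with h1 | h1
    · have a4 := a1 h1.ge
      have a5 : sv m i k = corner m s := by
        apply Prod.ext
        · exact le_antisymm h3 a4
        · exact h1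
      exact ⟨s, hs, a3 a5, a5⟩
    · have a4 := a2 (by omega)
      omega
  · obtain ⟨a1, a2, a3⟩ := side_at m i k s₁ hi hk (hr _ hs₁.1)
    have a4 := a1 h2
    omega
  · obtain ⟨a1, a2, a3⟩ := side_at m i k s hi hk (hr _ hst.1)
    have a4 := a2 (by omega)
    have h5 := ca_le (m := m) (hs₁.2 _ hst.1)
    omega

theorem comb_up {m : ℕ} {r : ℕ → Bool} (hr : ∀ s, r s = true → s < m * m) {e : Edge}
    (he : e ∈ Comb m r) {s : ℕ} (hs : r s = true) (h : e.lo = corner m s) :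
    e = (ca m s, cb m s, true) := by
  obtain ⟨s₁, s₂, hs₁, hs₂, x, hh⟩ := he
  have h12 : s₁ ≤ s₂ := hs₁.2 _ hs₂.1
  have hT := trunk_le (m := m) h12
  have h4 := ca_le (m := m) (hs₁.2 _ hs)
  obtain ⟨j, hj⟩ := ca_even m s
  have e1 := cb_eq m s
  rcases hh with ⟨t, ht, rfl, h1, h2, h3⟩ | ⟨t, ht, rfl, h1, h2, h3⟩ | ⟨t, ht, rfl⟩ |
    ⟨rfl, h1, h2⟩ | ⟨t, u, htu, rfl, h1, h2⟩
  · have g1 : x = ca m s := congrArg Prod.fst h
    have g2 : cb m t = cb m s := congrArg Prod.snd h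
    have g3 : ca m t = ca m s := by
      have := cb_eq m t
      omega
    omega
  · have g2 : cb m t + 1 = cb m s := congrArg Prod.snd h
    obtain ⟨l, hl⟩ := ca_even m t
    have := cb_eq m t
    omega
  · have g1 : ca m t = ca m s := congrArg Prod.fst h
    rw [ca_inj g1]
  · have g1 : trunk m s₁ s₂ = ca m s := congrArg Prod.fst h
    omega
  · have g1 : trunk m s₁ s₂ + 1 = ca m s := congrArg Prod.fst h
    omega

theorem comb_stub {m : ℕ} {r : ℕ → Bool} (hr : ∀ s, r s = true → s < m * m) {e : Edge}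
    (he : e ∈ Comb m r) {s : ℕ} (hs : r s = true) : e.lo ≠ (ca m s, cb m s + 1) := by
  intro h
  obtain ⟨s₁, s₂, hs₁, hs₂, x, hh⟩ := he
  have h12 : s₁ ≤ s₂ := hs₁.2 _ hs₂.1
  have hT := trunk_le (m := m) h12
  have h4 := ca_le (m := m) (hs₁.2 _ hs)
  obtain ⟨j, hj⟩ := ca_even m s
  have e1 := cb_eq m s
  rcases hh with ⟨t, ht, rfl, h1, h2, h3⟩ | ⟨t, ht, rfl, h1, h2, h3⟩ | ⟨t, ht, rfl⟩ |
    ⟨rfl, h1, h2⟩ | ⟨t, u, htu, rfl, h1, h2⟩
  · have g2 : cb m t = cb m s + 1 := congrArg Prod.snd h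
    obtain ⟨l, hl⟩ := ca_even m t
    have := cb_eq m t
    omega
  · have g1 : x = ca m s := congrArg Prod.fst h
    have g2 : cb m t + 1 = cb m s + 1 := congrArg Prod.snd h
    have := cb_eq m t
    omega
  · have g2 : cb m t = cb m s + 1 := congrArg Prod.snd h
    obtain ⟨l, hl⟩ := ca_even m t
    have := cb_eq m t
    omega
  · have g1 : trunk m s₁ s₂ = ca m s := congrArg Prod.fst h
    omega
  · have g1 : trunk m s₁ s₂ + 1 = ca m s := congrArg Prod.fst h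
    omega

theorem comb_leg {m : ℕ} {r : ℕ → Bool} (hr : ∀ s, r s = true → s < m * m) {s : ℕ}
    (hs : r s = true) :
    (ca m s, cb m s, true) ∈ Comb m r ∧ (ca m s - 1, cb m s + 1, false) ∈ Comb m r := by
  obtain ⟨s₁, s₂, hs₁, hs₂, h1, h2⟩ := exists_first_last hr hs
  have hT := trunk_le (m := m) (h1.trans h2)
  have h4 := ca_le (m := m) h1
  refine ⟨⟨s₁, s₂, hs₁, hs₂, 0, Or.inr (Or.inr (Or.inl ⟨s, hs, rfl⟩))⟩,
    ⟨s₁, s₂, hs₁, hs₂, ca m s - 1, Or.inr (Or.inl ⟨s, hs, rfl, by omega, by omega,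
      fun _ => by omega⟩)⟩⟩

end Pool.Agent.CHK
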