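import Pool.Agent.CHK.Lat

set_option autoImplicit false

/-! Generic facts about walks in the grid. -/

namespace Pool.Agent.CHK

theorem lev_hi (e : Edge) : lev e.hi = lev e.lo + 1 := by
  unfold lev Edge.hi Edge.lo
  split_ifs
  · simp only
    ring
  · simp only
    ring

theorem walk_append {F : Set Edge} {U : Set V} {z z' : V} {L L' : List Edge} :
    Walk F U z (L ++ L') z' ↔ ∃ w, Walk F U z L w ∧ Walk F U w L' z' := by
  induction L generalizing z with
  | nil => simp [Walk]
  | cons e L ih =>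
    simp only [List.cons_append, Walk, ih]
    constructor
    · rintro ⟨he, ⟨h1, h2, w, h3, h4⟩ | ⟨h1, h2, w, h3, h4⟩⟩
      · exact ⟨w, ⟨he, Or.inl ⟨h1, h2, h3⟩⟩, h4⟩
      · exact ⟨w, ⟨he, Or.inr ⟨h1, h2, h3⟩⟩, h4⟩
    · rintro ⟨w, ⟨he, ⟨h1, h2, h3⟩ | ⟨h1, h2, h3⟩⟩, h4⟩
      · exact ⟨he, Or.inl ⟨h1, h2, w, h3, h4⟩⟩
      · exact ⟨he, Or.inr ⟨h1, h2, w, h3, h4⟩⟩

theorem upwalk_append {F : Set Edge} {U : Set V} {z z' : V} {L L' : List Edge} :
    UpWalk F U z (L ++ L') z' ↔ ∃ w, UpWalk F U z L w ∧ UpWalk F U w L' z' := by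
  induction L generalizing z with
  | nil => simp [UpWalk]
  | cons e L ih =>
    simp only [List.cons_append, UpWalk, ih]
    constructor
    · rintro ⟨he, h1, h2, w, h3, h4⟩
      exact ⟨w, ⟨he, h1, h2, h3⟩, h4⟩
    · rintro ⟨w, ⟨he, h1, h2, h3⟩, h4⟩
      exact ⟨he, h1, h2, w, h3, h4⟩

theorem Walk.mem {F : Set Edge} {U : Set V} {z z' : V} {L : List Edge} (h : Walk F U z L z')
    {e : Edge} (he : e ∈ L) : e ∈ F := by
  induction L generalizing z with
  | nil => simp at he
  | cons a L ih =>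
    simp only [Walk] at h
    rcases List.mem_cons.1 he with rfl | he
    · exact h.1
    · rcases h.2 with ⟨_, _, h3⟩ | ⟨_, _, h3⟩
      · exact ih h3 he
      · exact ih h3 he

theorem UpWalk.mem {F : Set Edge} {U : Set V} {z z' : V} {L : List Edge} (h : UpWalk F U z L z')
    {e : Edge} (he : e ∈ L) : e ∈ F := by
  induction L generalizing z with
  | nil => simp at he
  | cons a L ih =>
    simp only [UpWalk] at h
    rcases List.mem_cons.1 he with rfl | he
    · exact h.1
    · exact ih h.2.2.2 he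

theorem Walk.conv {F F' : Set Edge} {U U' : Set V} {z z' : V} {L : List Edge}
    (h : Walk F U z L z') (hF : ∀ e ∈ L, e ∈ F') (hU : ∀ e ∈ L, ∀ w, Inc w e → w ∉ U → w ∉ U') :
    Walk F' U' z L z' := by
  induction L generalizing z with
  | nil => exact h
  | cons a L ih =>
    simp only [Walk] at h ⊢
    refine ⟨hF a List.mem_cons_self, ?_⟩
    have hF' : ∀ e ∈ L, e ∈ F' := fun e he => hF e (List.mem_cons_of_mem _ he)
    have hU' : ∀ e ∈ L, ∀ w, Inc w e → w ∉ U → w ∉ U' :=
      fun e he => hU e (List.mem_cons_of_mem _ he)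
    rcases h.2 with ⟨h1, h2, h3⟩ | ⟨h1, h2, h3⟩
    · exact Or.inl ⟨h1, hU a List.mem_cons_self _ (Or.inr rfl) h2, ih h3 hF' hU'⟩
    · exact Or.inr ⟨h1, hU a List.mem_cons_self _ (Or.inl rfl) h2, ih h3 hF' hU'⟩

theorem UpWalk.conv {F F' : Set Edge} {U U' : Set V} {z z' : V} {L : List Edge}
    (h : UpWalk F U z L z') (hF : ∀ e ∈ L, e ∈ F')
    (hU : ∀ e ∈ L, e.hi ∉ U → e.hi ∉ U') : UpWalk F' U' z L z' := by
  induction L generalizing z with
  | nil => exact h
  | cons a L ih =>
    simp only [UpWalk] at h ⊢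
    exact ⟨hF a List.mem_cons_self, h.2.1, hU a List.mem_cons_self h.2.2.1,
      ih h.2.2.2 (fun e he => hF e (List.mem_cons_of_mem _ he))
        (fun e he => hU e (List.mem_cons_of_mem _ he))⟩

theorem UpWalk.walk {F : Set Edge} {U : Set V} {z z' : V} {L : List Edge}
    (h : UpWalk F U z L z') : Walk F U z L z' := by
  induction L generalizing z with
  | nil => exact h
  | cons a L ih =>
    simp only [UpWalk] at h
    simp only [Walk]
    exact ⟨h.1, Or.inl ⟨h.2.1, h.2.2.1, ih h.2.2.2⟩⟩

theorem UpWalk.lev_eq {F : Set Edge} {U : Set V} {z z' : V} {L : List Edge}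
    (h : UpWalk F U z L z') : lev z' = lev z + L.length := by
  induction L generalizing z with
  | nil =>
    simp only [UpWalk] at h
    simp [h]
  | cons a L ih =>
    simp only [UpWalk] at h
    rw [ih h.2.2.2, lev_hi, h.2.1, List.length_cons]
    push_cast
    ring

theorem UpWalk.lev_mem {F : Set Edge} {U : Set V} {z z' : V} {L : List Edge}
    (h : UpWalk F U z L z') {e : Edge} (he : e ∈ L) : lev z ≤ lev e.lo ∧ lev e.lo < lev z' := by
  induction L generalizing z with
  | nil => simp at he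
  | cons a L ih =>
    have h0 := h.lev_eq
    simp only [UpWalk] at h
    rcases List.mem_cons.1 he with rfl | he
    · rw [h.2.1]
      rw [List.length_cons] at h0
      push_cast at h0
      exact ⟨le_refl _, by omega⟩
    · have h1 := ih h.2.2.2 he
      rw [lev_hi, h.2.1] at h1
      exact ⟨by omega, h1.2⟩

theorem UpWalk.unique {F : Set Edge} {U : Set V} {z z' : V} {L : List Edge}
    (h : UpWalk F U z L z') {e e' : Edge} (he : e ∈ L) (he' : e' ∈ L) (hl : lev e.lo = lev e'.lo) :
    e = e' := by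
  induction L generalizing z with
  | nil => simp at he
  | cons a L ih =>
    simp only [UpWalk] at h
    rcases List.mem_cons.1 he with h5 | h5
    · rcases List.mem_cons.1 he' with h6 | h6
      · rw [h5, h6]
      · have h1 := (h.2.2.2.lev_mem h6).1
        rw [lev_hi] at h1
        rw [h5] at hl
        omega
    · rcases List.mem_cons.1 he' with h6 | h6
      · have h1 := (h.2.2.2.lev_mem h5).1
        rw [lev_hi] at h1
        rw [h6] at hl
        omega
      · exact ih h.2.2.2 h5 h6

theorem UpWalk.nodup {F : Set Edge} {U : Set V} {z z' : V} {L : List Edge}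
    (h : UpWalk F U z L z') : L.Nodup := by
  induction L generalizing z with
  | nil => exact List.nodup_nil
  | cons a L ih =>
    simp only [UpWalk] at h
    refine List.nodup_cons.2 ⟨fun ha => ?_, ih h.2.2.2⟩
    have h1 := (h.2.2.2.lev_mem ha).1
    rw [lev_hi] at h1
    omega

/-- Every end of an edge of the walk is the start or lies outside `U`. -/
theorem Walk.avoid {F : Set Edge} {U : Set V} {z z' : V} {L : List Edge} (h : Walk F U z L z')
    {e : Edge} (he : e ∈ L) {w : V} (hw : Inc w e) : w = z ∨ w ∉ U := by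
  induction L generalizing z with
  | nil => simp at he
  | cons a L ih =>
    simp only [Walk] at h
    rcases List.mem_cons.1 he with rfl | he
    · rcases h.2 with ⟨h1, h2, h3⟩ | ⟨h1, h2, h3⟩
      · rcases hw with hw | hw
        · exact Or.inl (hw.symm.trans h1)
        · exact Or.inr (hw ▸ h2)
      · rcases hw with hw | hw
        · exact Or.inr (hw ▸ h2)
        · exact Or.inl (hw.symm.trans h1)
    · right
      rcases h.2 with ⟨h1, h2, h3⟩ | ⟨h1, h2, h3⟩
      · rcases ih h3 he with h4 | h4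
        · exact h4 ▸ h2
        · exact h4
      · rcases ih h3 he with h4 | h4
        · exact h4 ▸ h2
        · exact h4

/-- Cutting a walk at a vertex which it visits. -/
theorem Walk.visit {F : Set Edge} {U : Set V} {z z' : V} {L : List Edge} (h : Walk F U z L z')
    {e : Edge} (he : e ∈ L) {w : V} (hw : Inc w e) :
    ∃ L₁ L₂, L = L₁ ++ L₂ ∧ Walk F U z L₁ w ∧ Walk F U w L₂ z' := by
  induction L generalizing z with
  | nil => simp at he
  | cons a L ih =>
    have h0 := h
    simp only [Walk] at h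
    rcases List.mem_cons.1 he with rfl | he
    · rcases h.2 with ⟨h1, h2, h3⟩ | ⟨h1, h2, h3⟩
      · rcases hw with hw | hw
        · refine ⟨[], e :: L, rfl, ?_, ?_⟩
          · simp only [Walk]
            exact h1.symm.trans hw
          · rw [← hw, h1]
            exact h0
        · refine ⟨[e], L, rfl, ?_, hw ▸ h3⟩
          simp only [Walk]
          exact ⟨h.1, Or.inl ⟨h1, h2, hw⟩⟩
      · rcases hw with hw | hw
        · refine ⟨[e], L, rfl, ?_, hw ▸ h3⟩
          simp only [Walk]
          exact ⟨h.1, Or.inr ⟨h1, h2, hw⟩⟩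
        · refine ⟨[], e :: L, rfl, ?_, ?_⟩
          · simp only [Walk]
            exact h1.symm.trans hw
          · rw [← hw, h1]
            exact h0
    · rcases h.2 with ⟨h1, h2, h3⟩ | ⟨h1, h2, h3⟩
      · obtain ⟨L₁, L₂, h4, h5, h6⟩ := ih h3 he
        refine ⟨a :: L₁, L₂, by rw [h4, List.cons_append], ?_, h6⟩
        simp only [Walk]
        exact ⟨h.1, Or.inl ⟨h1, h2, h5⟩⟩
      · obtain ⟨L₁, L₂, h4, h5, h6⟩ := ih h3 he
        refine ⟨a :: L₁, L₂, by rw [h4, List.cons_append], ?_, h6⟩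
        simp only [Walk]
        exact ⟨h.1, Or.inr ⟨h1, h2, h5⟩⟩

/-- A walk does not enter a set of vertices which no edge leaves. -/
theorem Walk.closed {F : Set Edge} {U : Set V} {z z' : V} {L : List Edge} (h : Walk F U z L z')
    {S : Set V} (hS : ∀ e ∈ F, e.lo ∈ S ↔ e.hi ∈ S) (hz : z ∉ S) {e : Edge} (he : e ∈ L) :
    e.lo ∉ S := by
  induction L generalizing z with
  | nil => simp at he
  | cons a L ih =>
    simp only [Walk] at h
    have ha := hS a h.1
    rcases List.mem_cons.1 he with rfl | he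
    · rcases h.2 with ⟨h1, h2, h3⟩ | ⟨h1, h2, h3⟩
      · rw [h1]
        exact hz
      · intro h4
        apply hz
        rw [← h1]
        exact ha.1 h4
    · rcases h.2 with ⟨h1, h2, h3⟩ | ⟨h1, h2, h3⟩
      · refine ih h3 (fun h4 => hz ?_) he
        rw [← h1]
        exact ha.2 h4
      · refine ih h3 (fun h4 => hz ?_) he
        rw [← h1]
        exact ha.1 h4

/-- Turning a closed walk. -/
theorem Walk.rotate {F : Set Edge} {U : Set V} {z : V} {L : List Edge} (h : Walk F U z L z)
    {e : Edge} (he : e ∈ L) {w : V} (hw : Inc w e) :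
    ∃ L', Walk F U w L' w ∧ L'.Perm L := by
  obtain ⟨L₁, L₂, h1, h2, h3⟩ := h.visit he hw
  refine ⟨L₂ ++ L₁, walk_append.2 ⟨z, h3, h2⟩, ?_⟩
  rw [h1]
  exact List.perm_append_comm

/-- Inserting a closed walk. -/
theorem Walk.splice {F : Set Edge} {U : Set V} {z z' : V} {L : List Edge} (h : Walk F U z L z')
    (hL : L.Nodup) {e : Edge} (he : e ∈ L) {w : V} (hw : Inc w e) {C : List Edge}
    (hC : Walk F U w C w) (hC' : C.Nodup) (hd : ∀ e ∈ C, e ∉ L) :
    ∃ L', Walk F U z L' z' ∧ L'.Nodup ∧ ∀ e, e ∈ L' ↔ e ∈ L ∨ e ∈ C := by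
  obtain ⟨L₁, L₂, h1, h2, h3⟩ := h.visit he hw
  have hp : (L₁ ++ (C ++ L₂)).Perm (L ++ C) := by
    rw [h1, List.append_assoc]
    exact (List.Perm.refl L₁).append List.perm_append_comm
  refine ⟨L₁ ++ (C ++ L₂), walk_append.2 ⟨w, h2, walk_append.2 ⟨w, hC, h3⟩⟩, ?_, ?_⟩
  · rw [hp.nodup_iff]
    exact hL.append hC' (fun a ha ha' => hd a ha' ha)
  · intro a
    rw [hp.mem_iff, List.mem_append]

end Pool.Agent.CHK
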