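import Pool.Agent.CHK.Comb
import Pool.Agent.CHK.Walk

set_option autoImplicit false

/-! A comb is a closed walk. -/

namespace Pool.Agent.CHK

/-- A walk without repeated edges whose edges are described by `P`. -/
private def CSeg (P : Edge → Prop) (z z' : V) : Prop :=
  ∃ L, Walk Set.univ ∅ z L z' ∧ L.Nodup ∧ ∀ e, e ∈ L ↔ P e

private theorem CSeg.congr {P Q : Edge → Prop} {z z' : V} (h : CSeg P z z')
    (hPQ : ∀ e, P e ↔ Q e) : CSeg Q z z' := by
  obtain ⟨L, h1, h2, h3⟩ := h
  exact ⟨L, h1, h2, fun e => (h3 e).trans (hPQ e)⟩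

private theorem CSeg.trans {P Q : Edge → Prop} {z z' z'' : V} (h : CSeg P z z')
    (h' : CSeg Q z' z'') (hd : ∀ e, P e → Q e → False) :
    CSeg (fun e => P e ∨ Q e) z z'' := by
  obtain ⟨L, h1, h2, h3⟩ := h
  obtain ⟨L', h1', h2', h3'⟩ := h'
  refine ⟨L ++ L', walk_append.2 ⟨z', h1, h1'⟩, ?_, fun e => ?_⟩
  · refine List.Nodup.append h2 h2' ?_
    intro e he he'
    exact hd e ((h3 e).1 he) ((h3' e).1 he')
  · rw [List.mem_append, h3, h3']

private theorem cseg_rev {z z' : V} {L : List Edge} (h : Walk Set.univ ∅ z L z') :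
    Walk Set.univ ∅ z' L.reverse z := by
  induction L generalizing z with
  | nil =>
    have h' : z = z' := h
    subst h'
    rfl
  | cons e L ih =>
    obtain ⟨-, h⟩ := h
    rw [List.reverse_cons]
    rcases h with ⟨h1, h2, h3⟩ | ⟨h1, h2, h3⟩
    · refine walk_append.2 ⟨e.hi, ih h3, trivial, Or.inr ⟨rfl, by simp, ?_⟩⟩
      exact h1
    · refine walk_append.2 ⟨e.lo, ih h3, trivial, Or.inl ⟨rfl, by simp, ?_⟩⟩
      exact h1

private theorem CSeg.symm {P : Edge → Prop} {z z' : V} (h : CSeg P z z') : CSeg P z' z := by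
  obtain ⟨L, h1, h2, h3⟩ := h
  refine ⟨L.reverse, cseg_rev h1, List.nodup_reverse.2 h2, fun e => ?_⟩
  rw [List.mem_reverse, h3]

private theorem cseg_right_aux (x y : ℤ) (n : ℕ) :
    CSeg (fun e => ∃ z, e = (z, y, false) ∧ x ≤ z ∧ z < x + n) (x, y) (x + n, y) := by
  induction n with
  | zero =>
    refine ⟨[], ?_, List.nodup_nil, fun e => ?_⟩
    · show ((x, y) : V) = (x + (0 : ℕ), y)
      simp
    · constructor
      · intro h; exact absurd h List.not_mem_nil
      · rintro ⟨z, -, h1, h2⟩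
        push_cast at h2
        omega
  | succ n ih =>
    have h1 : CSeg (fun e => e = (x + n, y, false)) (x + n, y) (x + (n + 1 : ℕ), y) := by
      refine ⟨[(x + n, y, false)], ?_, List.nodup_singleton _, fun e => by simp⟩
      refine ⟨trivial, Or.inl ⟨rfl, by simp, ?_⟩⟩
      show (x + n + 1, y) = (x + (n + 1 : ℕ), y)
      push_cast
      rw [add_assoc]
    refine (ih.trans h1 ?_).congr ?_
    · rintro e ⟨z, rfl, h2, h3⟩ h4
      have := congrArg Prod.fst h4
      simp only at this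
      omega
    · intro e
      constructor
      · rintro (⟨z, rfl, h2, h3⟩ | rfl)
        · exact ⟨z, rfl, h2, by push_cast; omega⟩
        · exact ⟨x + n, rfl, by omega, by push_cast; omega⟩
      · rintro ⟨z, rfl, h2, h3⟩
        push_cast at h3
        by_cases h4 : z < x + n
        · exact Or.inl ⟨z, rfl, h2, h4⟩
        · exact Or.inr (by rw [show z = x + n by omega])

private theorem cseg_up_aux (x y : ℤ) (n : ℕ) :
    CSeg (fun e => ∃ z, e = (x, z, true) ∧ y ≤ z ∧ z < y + n) (x, y) (x, y + n) := by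
  induction n with
  | zero =>
    refine ⟨[], ?_, List.nodup_nil, fun e => ?_⟩
    · show ((x, y) : V) = (x, y + (0 : ℕ))
      simp
    · constructor
      · intro h; exact absurd h List.not_mem_nil
      · rintro ⟨z, -, h1, h2⟩
        push_cast at h2
        omega
  | succ n ih =>
    have h1 : CSeg (fun e => e = (x, y + n, true)) (x, y + n) (x, y + (n + 1 : ℕ)) := by
      refine ⟨[(x, y + n, true)], ?_, List.nodup_singleton _, fun e => by simp⟩
      refine ⟨trivial, Or.inl ⟨rfl, by simp, ?_⟩⟩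
      show (x, y + n + 1) = (x, y + (n + 1 : ℕ))
      push_cast
      rw [add_assoc]
    refine (ih.trans h1 ?_).congr ?_
    · rintro e ⟨z, rfl, h2, h3⟩ h4
      have := congrArg (fun e : Edge => e.2.1) h4
      simp only at this
      omega
    · intro e
      constructor
      · rintro (⟨z, rfl, h2, h3⟩ | rfl)
        · exact ⟨z, rfl, h2, by push_cast; omega⟩
        · exact ⟨y + n, rfl, by omega, by push_cast; omega⟩
      · rintro ⟨z, rfl, h2, h3⟩
        push_cast at h3
        by_cases h4 : z < y + n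
        · exact Or.inl ⟨z, rfl, h2, h4⟩
        · exact Or.inr (by rw [show z = y + n by omega])

private theorem cseg_right {x x' : ℤ} (y : ℤ) (h : x ≤ x') :
    CSeg (fun e => ∃ z, e = (z, y, false) ∧ x ≤ z ∧ z < x') (x, y) (x', y) := by
  obtain ⟨n, hn⟩ := Int.eq_ofNat_of_zero_le (sub_nonneg.2 h)
  have hx : x' = x + n := by omega
  rw [hx]
  exact cseg_right_aux x y n

private theorem cseg_up (x : ℤ) {y y' : ℤ} (h : y ≤ y') :
    CSeg (fun e => ∃ z, e = (x, z, true) ∧ y ≤ z ∧ z < y') (x, y) (x, y') := by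
  obtain ⟨n, hn⟩ := Int.eq_ofNat_of_zero_le (sub_nonneg.2 h)
  have hy : y' = y + n := by omega
  rw [hy]
  exact cseg_up_aux x y n

private theorem cseg_leg (x y : ℤ) : CSeg (fun e => e = (x, y, true)) (x, y) (x, y + 1) := by
  refine ⟨[(x, y, true)], ?_, List.nodup_singleton _, fun e => by simp⟩
  exact ⟨trivial, Or.inl ⟨rfl, by simp, rfl⟩⟩

private theorem combw_prev {r : ℕ → Bool} {s₁ s : ℕ} (h₁ : r s₁ = true) (hs : r s = true)
    (h : s₁ < s) : ∃ t, IsNext r t s ∧ s₁ ≤ t := by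
  classical
  have hex : ∃ t, t < s ∧ r t = true := ⟨s₁, h, h₁⟩
  let t := Nat.findGreatest (fun t => t < s ∧ r t = true) s
  have ht : t < s ∧ r t = true :=
    Nat.findGreatest_spec (P := fun t => t < s ∧ r t = true) h.le ⟨h, h₁⟩
  have hle : ∀ u, u < s → r u = true → u ≤ t := fun u hu hru =>
    Nat.le_findGreatest (P := fun t => t < s ∧ r t = true) hu.le ⟨hu, hru⟩
  refine ⟨t, ⟨ht.2, hs, ht.1, fun u hu => ?_⟩, hle _ h h₁⟩
  rcases Nat.lt_or_ge u s with h1 | h1
  · exact Or.inl (hle u h1 hu)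
  · exact Or.inr h1

/-- The edges visited up to the leg `s`. -/
private def CUp (m : ℕ) (r : ℕ → Bool) (s₁ : ℕ) (T : ℤ) (s : ℕ) (e : Edge) : Prop :=
  (∃ t x, r t = true ∧ t ≤ s ∧ e = (x, cb m t, false) ∧ T ≤ x ∧ x < ca m t ∧
      (t ≠ s₁ → T < x)) ∨
    (∃ t, r t = true ∧ t ≤ s ∧ e = (ca m t, cb m t, true)) ∨
    (∃ t x, r t = true ∧ t < s ∧ e = (x, cb m t + 1, false) ∧ T < x ∧ x < ca m t) ∨
    ∃ t t' x, IsNext r t t' ∧ t' ≤ s ∧ e = (T + 1, x, true) ∧ cb m t + 1 ≤ x ∧ x < cb m t'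

private theorem cup_y {m : ℕ} {r : ℕ → Bool} {s₁ : ℕ} {T : ℤ} {s : ℕ} {e : Edge}
    (h : CUp m r s₁ T s e) : e.2.1 ≤ cb m s := by
  rcases h with ⟨t, x, -, h1, rfl, -⟩ | ⟨t, -, h1, rfl⟩ | ⟨t, x, -, h1, rfl, -⟩ |
    ⟨t, t', x, -, h1, rfl, -, h2⟩
  · have := ca_le (m := m) h1
    simp only [cb_eq]
    omega
  · have := ca_le (m := m) h1
    simp only [cb_eq]
    omega
  · have := ca_lt (m := m) h1
    simp only [cb_eq]
    omega
  · have := ca_le (m := m) h1
    simp only [cb_eq] at h2 ⊢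
    omega

private theorem combw_ind {m : ℕ} {r : ℕ → Bool} {s₁ s₂ : ℕ} (h₁ : IsFirst r s₁)
    (h12 : s₁ ≤ s₂) (s : ℕ) (hs : r s = true) :
    CSeg (CUp m r s₁ (trunk m s₁ s₂) s) (trunk m s₁ s₂, cb m s₁) (ca m s, cb m s + 1) := by
  have hT := trunk_le (m := m) h12
  set T := trunk m s₁ s₂ with hTdef
  induction s using Nat.strong_induction_on with
  | _ s ih =>
    rcases Nat.lt_or_ge s₁ s with hlt | hge
    · obtain ⟨t, ht, hst⟩ := combw_prev h₁.1 hs hlt
      have ih' := ih t ht.2.2.1 ht.1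
      have hca : ca m t + 2 ≤ ca m s := ca_lt ht.2.2.1
      have hcat : ca m s₁ ≤ ca m t := ca_le hst
      have hTt : T + 1 ≤ ca m t := by omega
      have hTs : T + 1 ≤ ca m s := by omega
      have hcb : cb m t + 1 ≤ cb m s := by simp only [cb_eq]; omega
      -- left along the upper row of `t`
      have g1 := (cseg_right (cb m t + 1) hTt).symm
      have g2 := cseg_up (T + 1) hcb
      have g3 := cseg_right (cb m s) hTs
      have g4 := cseg_leg (ca m s) (cb m s)
      have k1 := ih'.trans g1 (fun e he he' => by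
        have h1 := cup_y he
        obtain ⟨z, rfl, -, -⟩ := he'
        simp only at h1
        omega)
      have k2 := k1.trans g2 (fun e he he' => by
        obtain ⟨z, rfl, h2, h3⟩ := he'
        rcases he with he | ⟨z', he, -⟩
        · have h1 := cup_y he
          simp only at h1
          omega
        · have := congrArg (fun e : Edge => e.2.2) he
          simp at this)
      have k3 := k2.trans g3 (fun e he he' => by
        obtain ⟨z, rfl, h2, h3⟩ := he'
        rcases he with (he | ⟨z', he, -⟩) | ⟨z', he, -⟩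
        · have h1 := cup_y he
          simp only at h1
          omega
        · have := congrArg (fun e : Edge => e.2.1) he
          simp only [cb_eq] at this
          omega
        · have := congrArg (fun e : Edge => e.2.2) he
          simp at this)
      have k4 := k3.trans g4 (fun e he he' => by
        subst he'
        rcases he with ((he | ⟨z', he, -⟩) | ⟨z', he, h2, h3⟩) | ⟨z', he, -⟩
        · have h1 := cup_y he
          simp only at h1
          omega
        · have := congrArg (fun e : Edge => e.2.2) he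
          simp at this
        · have := congrArg (fun e : Edge => e.2.1) he
          simp only at this
          omega
        · have := congrArg (fun e : Edge => e.2.2) he
          simp at this)
      refine k4.congr fun e => ?_
      constructor
      · rintro ((((he | ⟨z, rfl, h2, h3⟩) | ⟨z, rfl, h2, h3⟩) | ⟨z, rfl, h2, h3⟩) | rfl)
        · rcases he with ⟨u, x, hu, h1, rfl, h2⟩ | ⟨u, hu, h1, rfl⟩ | ⟨u, x, hu, h1, rfl, h2⟩ |
            ⟨u, u', x, hu, h1, rfl, h2⟩
          · exact Or.inl ⟨u, x, hu, h1.trans ht.2.2.1.le, rfl, h2⟩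
          · exact Or.inr (Or.inl ⟨u, hu, h1.trans ht.2.2.1.le, rfl⟩)
          · exact Or.inr (Or.inr (Or.inl ⟨u, x, hu, h1.trans ht.2.2.1, rfl, h2⟩))
          · exact Or.inr (Or.inr (Or.inr ⟨u, u', x, hu, h1.trans ht.2.2.1.le, rfl, h2⟩))
        · exact Or.inr (Or.inr (Or.inl ⟨t, z, ht.1, ht.2.2.1, rfl, by omega, h3⟩))
        · exact Or.inr (Or.inr (Or.inr ⟨t, s, z, ht, le_rfl, rfl, h2, h3⟩))
        · exact Or.inl ⟨s, z, hs, le_rfl, rfl, by omega, h3, fun _ => by omega⟩
        · exact Or.inr (Or.inl ⟨s, hs, le_rfl, rfl⟩)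
      · rintro (⟨u, x, hu, h1, rfl, h2, h3, h4⟩ | ⟨u, hu, h1, rfl⟩ | ⟨u, x, hu, h1, rfl, h2, h3⟩ |
            ⟨u, u', x, hu, h1, rfl, h2, h3⟩)
        · rcases ht.2.2.2 u hu with h5 | h5
          · exact Or.inl (Or.inl (Or.inl (Or.inl (Or.inl ⟨u, x, hu, h5, rfl, h2, h3, h4⟩))))
          · have h6 : u = s := le_antisymm h1 h5
            subst h6
            have := h4 (by omega)
            exact Or.inl (Or.inr ⟨x, rfl, by omega, h3⟩)
        · rcases ht.2.2.2 u hu with h5 | h5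
          · exact Or.inl (Or.inl (Or.inl (Or.inl (Or.inr (Or.inl ⟨u, hu, h5, rfl⟩)))))
          · have h6 : u = s := le_antisymm h1 h5
            subst h6
            exact Or.inr rfl
        · rcases ht.2.2.2 u hu with h5 | h5
          · rcases Nat.lt_or_ge u t with h6 | h6
            · exact Or.inl (Or.inl (Or.inl (Or.inl (Or.inr (Or.inr (Or.inl
                ⟨u, x, hu, h6, rfl, h2, h3⟩))))))
            · have h7 : u = t := le_antisymm h5 h6
              subst h7
              exact Or.inl (Or.inl (Or.inl (Or.inr ⟨x, rfl, by omega, h3⟩)))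
          · omega
        · rcases ht.2.2.2 u' hu.2.1 with h5 | h5
          · exact Or.inl (Or.inl (Or.inl (Or.inl (Or.inr (Or.inr (Or.inr
              ⟨u, u', x, hu, h5, rfl, h2, h3⟩))))))
          · have h6 : u' = s := le_antisymm h1 h5
            subst h6
            have h7 : u = t := by
              have a1 := hu.2.2.2 t ht.1
              have a2 := ht.2.2.2 u hu.1
              have a3 := hu.2.2.1
              have a4 := ht.2.2.1
              omega
            subst h7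
            exact Or.inl (Or.inl (Or.inr ⟨x, rfl, h2, h3⟩))
    · have hse : s = s₁ := le_antisymm hge (h₁.2 s hs)
      subst hse
      have hTs : T ≤ ca m s := by omega
      have g3 := cseg_right (cb m s) hTs
      have g4 := cseg_leg (ca m s) (cb m s)
      have k4 := g3.trans g4 (fun e he he' => by
        subst he'
        obtain ⟨z', he, -⟩ := he
        have := congrArg (fun e : Edge => e.2.2) he
        simp at this)
      refine k4.congr fun e => ?_
      constructor
      · rintro (⟨z, rfl, h2, h3⟩ | rfl)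
        · exact Or.inl ⟨s, z, hs, le_rfl, rfl, h2, h3, fun h => absurd rfl h⟩
        · exact Or.inr (Or.inl ⟨s, hs, le_rfl, rfl⟩)
      · rintro (⟨u, x, hu, h1, rfl, h2, h3, h4⟩ | ⟨u, hu, h1, rfl⟩ | ⟨u, x, hu, h1, rfl, h2, h3⟩ |
            ⟨u, u', x, hu, h1, rfl, h2, h3⟩)
        · have h6 : u = s := le_antisymm h1 (h₁.2 u hu)
          subst h6
          exact Or.inl ⟨x, rfl, h2, h3⟩
        · have h6 : u = s := le_antisymm h1 (h₁.2 u hu)
          subst h6
          exact Or.inr rfl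
        · have := h₁.2 u hu
          omega
        · have := h₁.2 u hu.1
          have := hu.2.2.1
          omega

theorem comb_walk {m : ℕ} {r : ℕ → Bool} (hr : ∀ s, r s = true → s < m * m) {s : ℕ}
    (hs : r s = true) :
    ∃ L, Walk (Comb m r) ∅ (corner m s) L (corner m s) ∧ L.Nodup ∧ ∀ e ∈ Comb m r, e ∈ L := by
  obtain ⟨s₁, s₂, h₁, h₂, h1s, hs2⟩ := exists_first_last hr hs
  have h12 : s₁ ≤ s₂ := h1s.trans hs2
  have hT := trunk_le (m := m) h12
  have hup := combw_ind (m := m) h₁ h12 s₂ h₂.1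
  set T := trunk m s₁ s₂ with hTdef
  have hca : ca m s₁ ≤ ca m s₂ := ca_le h12
  have hcb : cb m s₁ ≤ cb m s₂ + 1 := by simp only [cb_eq]; omega
  have g1 := (cseg_right (cb m s₂ + 1) (show T ≤ ca m s₂ by omega)).symm
  have g2 := (cseg_up T hcb).symm
  have k1 := hup.trans g1 (fun e he he' => by
    have h1 := cup_y he
    obtain ⟨z, rfl, -, -⟩ := he'
    simp only at h1
    omega)
  have k2 := k1.trans g2 (fun e he he' => by
    obtain ⟨z, rfl, h2, h3⟩ := he'
    rcases he with (⟨u, x, hu, h1, he, -⟩ | ⟨u, hu, h1, he⟩ | ⟨u, x, hu, h1, he, -⟩ |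
            ⟨u, u', x, hu, h1, he, -⟩) | ⟨z', he, -⟩
    · have := congrArg (fun e : Edge => e.2.2) he
      simp at this
    · have h4 := congrArg (fun e : Edge => e.1) he
      have h5 := ca_le (m := m) (h₁.2 u hu)
      simp only at h4
      omega
    · have := congrArg (fun e : Edge => e.2.2) he
      simp at this
    · have h4 := congrArg (fun e : Edge => e.1) he
      simp only at h4
      omega
    · have := congrArg (fun e : Edge => e.2.2) he
      simp at this)
  obtain ⟨L, hL, hN, hmem⟩ := k2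
  have hiff : ∀ e, e ∈ L ↔ e ∈ Comb m r := by
    intro e
    rw [hmem]
    constructor
    · rintro ((he | ⟨z, rfl, h2, h3⟩) | ⟨z, rfl, h2, h3⟩)
      · rcases he with ⟨u, x, hu, h1, rfl, h2, h3, h4⟩ | ⟨u, hu, h1, rfl⟩ |
            ⟨u, x, hu, h1, rfl, h2, h3⟩ | ⟨u, u', x, hu, h1, rfl, h2, h3⟩
        · exact ⟨s₁, s₂, h₁, h₂, x, Or.inl ⟨u, hu, rfl, h2, h3, h4⟩⟩
        · exact ⟨s₁, s₂, h₁, h₂, 0, Or.inr (Or.inr (Or.inl ⟨u, hu, rfl⟩))⟩
        · exact ⟨s₁, s₂, h₁, h₂, x, Or.inr (Or.inl ⟨u, hu, rfl, h2.le, h3, fun _ => h2⟩)⟩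
        · exact ⟨s₁, s₂, h₁, h₂, x, Or.inr (Or.inr (Or.inr (Or.inr ⟨u, u', hu, rfl, h2, h3⟩)))⟩
      · exact ⟨s₁, s₂, h₁, h₂, z, Or.inr (Or.inl
          ⟨s₂, h₂.1, rfl, h2, h3, fun h => absurd rfl h⟩)⟩
      · exact ⟨s₁, s₂, h₁, h₂, z, Or.inr (Or.inr (Or.inr (Or.inl ⟨rfl, h2, by omega⟩)))⟩
    · rintro ⟨t₁, t₂, k₁, k₂, x, he⟩
      have e1 : t₁ = s₁ := le_antisymm (k₁.2 _ h₁.1) (h₁.2 _ k₁.1)
      have e2 : t₂ = s₂ := le_antisymm (h₂.2 _ k₂.1) (k₂.2 _ h₂.1)
      subst e1 e2
      rcases he with ⟨u, hu, rfl, h2, h3, h4⟩ | ⟨u, hu, rfl, h2, h3, h4⟩ | ⟨u, hu, rfl⟩ |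
        ⟨rfl, h2, h3⟩ | ⟨u, u', hu, rfl, h2, h3⟩
      · exact Or.inl (Or.inl (Or.inl ⟨u, x, hu, h₂.2 u hu, rfl, h2, h3, h4⟩))
      · by_cases hu2 : u = t₂
        · subst hu2
          exact Or.inl (Or.inr ⟨x, rfl, h2, h3⟩)
        · exact Or.inl (Or.inl (Or.inr (Or.inr (Or.inl
            ⟨u, x, hu, lt_of_le_of_ne (h₂.2 u hu) hu2, rfl, h4 hu2, h3⟩))))
      · exact Or.inl (Or.inl (Or.inr (Or.inl ⟨u, hu, h₂.2 u hu, rfl⟩)))
      · exact Or.inr ⟨x, rfl, h2, by omega⟩
      · exact Or.inl (Or.inl (Or.inr (Or.inr (Or.inr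
          ⟨u, u', x, hu, h₂.2 _ hu.2.1, rfl, h2, h3⟩))))
  have hW : Walk (Comb m r) ∅ (T, cb m s₁) L (T, cb m s₁) :=
    Walk.conv hL (fun e he => (hiff e).1 he) (fun _ _ _ _ h => h)
  have hleg : (ca m s, cb m s, true) ∈ L := (hiff _).2 (comb_leg hr hs).1
  obtain ⟨L', hL', hp⟩ := Walk.rotate hW hleg (w := corner m s) (Or.inl rfl)
  refine ⟨L', hL', hp.nodup_iff.2 hN, fun e he => hp.mem_iff.2 ((hiff e).2 he)⟩

end Pool.Agent.CHK
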