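import Mathlib

set_option autoImplicit false

/-! Finite multigraphs: definitions for the membership part. -/

namespace Pool.Agent.CHK

/-- A multigraph: every edge has two ends. -/
structure MG (α β : Type) where
  p : β → α
  q : β → α

variable {α β : Type} [DecidableEq α] [DecidableEq β]

/-- The number of ends of edges of `S` at `v`, modulo 2. -/
def MG.bdy (G : MG α β) (S : Finset β) (v : α) : ZMod 2 :=
  ∑ e ∈ S, ((if G.p e = v then 1 else 0) + if G.q e = v then 1 else 0)

/-- `u` and `v` are joined by an edge of `S`. -/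
def MG.Adj (G : MG α β) (S : Finset β) (u v : α) : Prop :=
  ∃ e ∈ S, (G.p e = u ∧ G.q e = v) ∨ (G.q e = u ∧ G.p e = v)

/-- `u` and `v` are connected by edges of `S`. -/
def MG.Con (G : MG α β) (S : Finset β) : α → α → Prop := Relation.ReflTransGen (G.Adj S)

/-- The edges of `S` at `v`. -/
def MG.star (G : MG α β) (S : Finset β) (v : α) : Finset β :=
  S.filter fun e => G.p e = v ∨ G.q e = v

open Classical in
/-- The edges of `S` which are connected to `s`. -/
noncomputable def MG.comp (G : MG α β) (S : Finset β) (s : α) : Finset β :=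
  S.filter fun e => G.Con S s (G.p e)

/-- Walks with the list of their edges. -/
def MG.Walk (G : MG α β) (S : Finset β) : α → List β → α → Prop
  | u, [], v => u = v
  | u, e :: L, v => e ∈ S ∧
      ((G.p e = u ∧ G.Walk S (G.q e) L v) ∨ (G.q e = u ∧ G.Walk S (G.p e) L v))

/-- Maximal trails: no edge is left at the end. -/
def MG.MT (G : MG α β) (E : Finset β) (s : α) (L : List β) (t : α) : Prop :=
  G.Walk E s L t ∧ L.Nodup ∧ ∀ e ∈ G.star E t, e ∈ L

/-- The characteristic function of `s` plus that of `t`. -/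
def chi (s t v : α) : ZMod 2 := (if v = s then 1 else 0) + if v = t then 1 else 0

/-- No loops. -/
def MG.NL (G : MG α β) (E : Finset β) : Prop := ∀ e ∈ E, G.p e ≠ G.q e

/-- The edge sets of trails in `E` from `s` to `t` which contain `R`. -/
structure MG.Rep (G : MG α β) (E : Finset β) (s t : α) (R S : Finset β) : Prop where
  sub : S ⊆ E
  bd : ∀ v, G.bdy S v = chi s t v
  pre : R ⊆ S
  con : ∀ e ∈ S, G.Con S t (G.p e)

/-- There is an edge set in `E` with the parities of a trail from `s` to `t` containing `R`. -/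
def MG.Av (G : MG α β) (E : Finset β) (s t : α) (R : Finset β) : Prop :=
  ∃ S ⊆ E, (∀ v, G.bdy S v = chi s t v) ∧ R ⊆ S

/-- There is a reply containing `D`. -/
def MG.Hb (G : MG α β) (E : Finset β) (s t : α) (R D : Finset β) : Prop :=
  ∃ S, G.Rep E s t R S ∧ D ⊆ S

/-- The criterion for one class: every reply misses exactly one element of `F`, a good one. -/
def MG.SC (G : MG α β) (E : Finset β) (s t : α) (R F : Finset β) (Good : β → Prop) : Prop :=
  ¬ G.Av E s t R ∨
    ((∀ f ∈ F, ∀ f' ∈ F, f ≠ f' → ¬ G.Av (E \ {f, f'}) s t R) ∧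
      (∀ f ∈ F, Good f ∨ ¬ G.Av (E \ {f}) s t R) ∧
      ∃ w ∈ F, G.Av (E \ {w}) s t R ∧
        ((∃ w' ∈ F, w' ≠ w ∧ G.Av (E \ {w'}) s t R) ∨ ¬ G.Hb E s t R {w}))

/-- `v` is an end of an edge of `D`. -/
def MG.EndD (G : MG α β) (D : Finset β) (v : α) : Prop := ∃ e ∈ D, G.p e = v ∨ G.q e = v

end Pool.Agent.CHK
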