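import Pool.Agent.CHK.Sod
import Pool.Agent.CHK.Gr

set_option autoImplicit false

/-! The game as walks: definitions for the membership part. White (`true`) is to move, then Black
replies, then White must capture everything. -/

namespace Pool.Agent.CHK

/-- Runs of jumps with the list of the jumped squares: `D` directions, `A` squares which may be
jumped, `F` landing squares. -/
def Run (D A F : Sq → Prop) : Sq → List Sq → Sq → Prop
  | z, [], z' => z = z'
  | z, e :: L, z' => ∃ d, D d ∧ e = z + d ∧ A e ∧ F (e + d) ∧ Run D A F (e + d) L z'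

/-- The pieces of the colour `c`. -/
def Col (B : Board) (c : Bool) (z : Sq) : Prop := ∃ P, B z = some P ∧ P.white = c

/-- Landing squares for the piece which starts on `s`. -/
def Fre (N : ℕ) (B : Board) (s z : Sq) : Prop := On N z ∧ (B z = none ∨ z = s)

open Classical in
/-- The board after the piece on `s` has captured `L` and arrived at `t`. -/
noncomputable def res (N : ℕ) (B : Board) (s : Sq) (L : Sq → Prop) (t : Sq) : Board := fun y =>
  if L y then none else if y = t then (B s).map (fun P => arrive N P t)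
    else if y = s then none else B y

/-- All pieces are on the board. -/
def Val (N : ℕ) (B : Board) : Prop := ∀ z, B z ≠ none → On N z

/-- White can capture everything. -/
def Win (N : ℕ) (B : Board) : Prop := ∃ B', Move N true true B B' ∧ Cleared false B'

/-- The piece `P` on `w` could capture exactly the pieces on `β` if all landing squares were
free. -/
def Cov (N : ℕ) (P : Piece) (w : Sq) (β : Sq → Prop) : Prop :=
  ∃ L t, Run (Dir P) β (On N) w L t ∧ L.Nodup ∧ ∀ y, β y → y ∈ L

/-- `z` is a square of the class of `w` next to a square of `β`. -/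
def EndOf (w : Sq) (β : Sq → Prop) (z : Sq) : Prop := Cls w z ∧ ∃ d, Dg d ∧ β (z + d)

/-- The black pieces after the piece on `s` has gone to `t`. -/
def BlT (B : Board) (s t y : Sq) : Prop := (Col B false y ∧ y ≠ s) ∨ y = t

/-- White can capture everything after the black piece on `s` has captured `S` and has arrived at
`t`. -/
def GoodR (N : ℕ) (B : Board) (s t : Sq) (S : Sq → Prop) : Prop :=
  ∃ w P, B w = some P ∧ P.white = true ∧ ¬ S w ∧ Cov N P w (BlT B s t) ∧
    ∀ z, Col B true z → EndOf w (BlT B s t) z → z ≠ w → S z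

/-- Every reply of Black allows White to capture everything. -/
def AllRep (N : ℕ) (B : Board) : Prop := ∀ B', Move N true false B B' → Win N B'

/-- Black can capture. -/
def CanCap (N : ℕ) (B : Board) : Prop := ∃ s Q d, B s = some Q ∧ Q.white = false ∧ Dir Q d ∧
  Col B true (s + d) ∧ On N (s + d + d) ∧ B (s + d + d) = none

/-- White wins after every simple move of Black. -/
def RepStep (N : ℕ) (B : Board) : Prop := ∀ s Q d, B s = some Q → Q.white = false → Dir Q d →
  On N (s + d) → B (s + d) = none → GoodR N B s (s + d) (fun _ => False)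

/-- White wins after every capture of the black piece `Q` on `s`. -/
def RepCap (N : ℕ) (B : Board) (s : Sq) (Q : Piece) : Prop := ∀ L t, L ≠ [] →
  Run (Dir Q) (Col B true) (Fre N B s) s L t → L.Nodup →
  (arrive N Q t ≠ Q ∨ ∀ d, Dir Q d → Col B true (t + d) → Fre N B s (t + d + d) → t + d ∈ L) →
  GoodR N B s t (· ∈ L)

/-- White pieces of the class `k` (relative to `s`) next to the black pieces after the reply. -/
def FK (N : ℕ) (B : Board) (s t : Sq) (k : ℤ) (z : Sq) : Prop :=
  On N z ∧ Col B true z ∧ Opp s k z ∧ ∃ d, Dg d ∧ BlT B s t (z + d)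

/-- Those which could capture all black pieces if the landing squares were free. -/
def GK (N : ℕ) (B : Board) (s t : Sq) (k : ℤ) (w : Sq) : Prop :=
  ∃ P, B w = some P ∧ P.white = true ∧ Opp s k w ∧ Cov N P w (BlT B s t)

/-- The reply with the captured set `S` is good for the class `k`. -/
def KGd (N : ℕ) (B : Board) (s t : Sq) (k : ℤ) (S : Sq → Prop) : Prop :=
  ∃ w, GK N B s t k w ∧ ¬ S w ∧ ∀ z, FK N B s t k z → z ≠ w → S z

/-! ### Captures of a black man -/

/-- A black man. -/
abbrev bman : Piece := ⟨false, false⟩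

/-- A black king. -/
abbrev bking : Piece := ⟨false, true⟩

/-- The capture of a man ends on `t`. -/
def MEnd (N : ℕ) (B : Board) (s t : Sq) : Prop :=
  t.2 = 0 ∨ ∀ d, Dir bman d → Col B true (t + d) → ¬ Fre N B s (t + d + d)

/-- Complete captures of the black man on `s`. -/
def ManRun (N : ℕ) (B : Board) (s : Sq) (L : List Sq) (t : Sq) : Prop :=
  L ≠ [] ∧ Run (Dir bman) (Col B true) (Fre N B s) s L t ∧ MEnd N B s t

/-! ### Captures of a black king: the graph -/

open Classical in
/-- The direction of the edge `e` in the graph of the class of `s`. -/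
noncomputable def dl (s e : Sq) : Sq := if Cls s (e + (1, 1)) then (1, 1) else (1, -1)

/-- The graph of the class of `s`: the edges are squares. -/
noncomputable def gr (s : Sq) : MG Sq Sq := ⟨fun e => e + dl s e, fun e => e - dl s e⟩

/-- All squares of the board. -/
noncomputable def box (N : ℕ) : Finset Sq := (Finset.Ico (0 : ℤ) N) ×ˢ (Finset.Ico (0 : ℤ) N)

/-- Edges: squares of `W` with both ends in `F`. -/
def IsE (W F : Sq → Prop) (s e : Sq) : Prop := W e ∧ F (e + dl s e) ∧ F (e - dl s e)

/-- `e` is an edge at `v`. -/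
def AtV (W F : Sq → Prop) (s v e : Sq) : Prop := IsE W F s e ∧ (e + dl s e = v ∨ e - dl s e = v)

/-- The vertices of the graph of the king on `s`. -/
def Ver (N : ℕ) (B : Board) (s z : Sq) : Prop := Cls s z ∧ Fre N B s z

open Classical in
/-- The edges of the graph of the king on `s`. -/
noncomputable def Ed (N : ℕ) (B : Board) (s : Sq) : Finset Sq :=
  (box N).filter (IsE (Col B true) (Ver N B s) s)

open Classical in
/-- `FK` as a finite set. -/
noncomputable def FKs (N : ℕ) (B : Board) (s t : Sq) (k : ℤ) : Finset Sq :=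
  (box N).filter (FK N B s t k)

/-- The one-class criterion for the class `k` and the edges `E`. -/
def SCk (N : ℕ) (B : Board) (s t : Sq) (k : ℤ) (E : Finset Sq) : Prop :=
  (gr s).SC E s t ((gr s).star (Ed N B s) t) (FKs N B s t k) (GK N B s t k)

/-- A piece which is never captured. -/
def TyN (N : ℕ) (B : Board) (s t : Sq) (k : ℤ) : Prop :=
  ∃ a ∈ FKs N B s t k, GK N B s t k a ∧
    ¬ (gr s).Hb (Ed N B s) s t ((gr s).star (Ed N B s) t) {a} ∧
    ∀ f ∈ FKs N B s t k, f ≠ a → SCk N B s t (1 - k) (Ed N B s \ {f})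

/-- The parity criterion. -/
def Par (N : ℕ) (B : Board) (s t : Sq) (k : ℤ) : Prop :=
  ∃ a ∈ FKs N B s t k, GK N B s t k a ∧ a ∉ (gr s).star (Ed N B s) t ∧
    (∀ f ∈ FKs N B s t k, f = a ∨ f ∈ (gr s).star (Ed N B s) t) ∧
    ∃ u c, u ≠ t ∧ a ≠ c ∧ a ∈ (gr s).star (Ed N B s) u ∧ c ∈ (gr s).star (Ed N B s) u ∧
      ((u = s ∧ ∀ e ∈ (gr s).star (Ed N B s) u, e = a ∨ e = c) ∨
        (u ≠ s ∧ ∃ g, g ∈ (gr s).star (Ed N B s) t ∧ g ∈ (gr s).star (Ed N B s) u ∧ g ≠ a ∧ g ≠ c ∧
          ∀ e ∈ (gr s).star (Ed N B s) u, e = a ∨ e = c ∨ e = g)) ∧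
      SCk N B s t (1 - k) (Ed N B s \ {c})

/-- The criterion for two edges with a common end. -/
def Shr (N : ℕ) (B : Board) (s t : Sq) : Prop :=
  ∃ a ∈ FKs N B s t 0, ∃ d ∈ FKs N B s t 1, GK N B s t 0 a ∧ GK N B s t 1 d ∧
    a ∉ (gr s).star (Ed N B s) t ∧ d ∉ (gr s).star (Ed N B s) t ∧
    (∀ f ∈ FKs N B s t 0, f = a ∨ f ∈ (gr s).star (Ed N B s) t) ∧
    (∀ f ∈ FKs N B s t 1, f = d ∨ f ∈ (gr s).star (Ed N B s) t) ∧
    ∃ u, a ∈ (gr s).star (Ed N B s) u ∧ d ∈ (gr s).star (Ed N B s) u ∧
      ∀ D ⊆ (gr s).star (Ed N B s) u, a ∈ D → d ∈ D →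
        ¬ (gr s).Hb (Ed N B s \ ((gr s).star (Ed N B s) u \ D)) s t
          ((gr s).star (Ed N B s) t) D

/-- The certificate for the replies of the king on `s` which end on `t`. -/
def Chk (N : ℕ) (B : Board) (s t : Sq) : Prop :=
  SCk N B s t 0 (Ed N B s) ∨ SCk N B s t 1 (Ed N B s) ∨ TyN N B s t 0 ∨ TyN N B s t 1 ∨
    Par N B s t 0 ∨ Par N B s t 1 ∨ Shr N B s t

/-- An odd number of the four diagonal neighbours of `z` belongs to `β`. -/
def oddN (β : Sq → Prop) (z : Sq) : Prop :=
  Xor (Xor (β (z + (1, 1))) (β (z + (-1, -1)))) (Xor (β (z + (1, -1))) (β (z + (-1, 1))))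

/-- The squares of class `k` in `W` next to `β` or `t`. -/
def FA (W β : Sq → Prop) (s t : Sq) (k : ℤ) (z : Sq) : Prop :=
  W z ∧ Opp s k z ∧ ∃ d, Dg d ∧ (β (z + d) ∨ z + d = t)

/-- The position turned by 180 degrees with the colours exchanged. -/
def rot (N : ℕ) (B : Board) : Board := fun z =>
  (B ((N : ℤ) - 1 - z.1, (N : ℤ) - 1 - z.2)).map (fun P => ⟨!P.white, P.king⟩)

end Pool.Agent.CHK
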