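import Pool.Agent.CHK.SodB

set_option autoImplicit false

/-! Squares and boards in formulas. -/

namespace Pool.Agent.CHK

variable {Q Q' : ℕ → (ℕ → List ℕ → Prop) → (List ℕ → Prop) → (ℕ → ℕ) → Prop}
variable {P P' : ℕ → (ℕ → List ℕ → Prop) → (ℕ → ℕ) → Prop}

/-- Quantifiers over the squares of the board. -/
theorem sq_cns (x y : ℕ) (v : ℕ → ℕ) : sq (cns x (cns y v)) 0 = ((x : ℤ), (y : ℤ)) := rfl

theorem sq_cns_add (x y : ℕ) (v : ℕ → ℕ) (i : ℕ) : sq (cns x (cns y v)) (i + 2) = sq v i := rfl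

/-- The substitution which exchanges the variables 0 and 1. -/
def sodcSwap : ℕ → ℕ → (ℕ → ℕ) → ℕ
  | 0 => fun _ v => v 1
  | 1 => fun _ v => v 0
  | i + 2 => fun _ v => v (i + 2)

theorem sodcSwap_dt (i : ℕ) : DT (sodcSwap i) := by
  rcases i with _ | _ | i
  · exact DT.var 1
  · exact DT.var 0
  · exact DT.var (i + 2)

theorem sodcSwap_cns (N x y : ℕ) (v : ℕ → ℕ) :
    (fun i => sodcSwap i N (cns y (cns x v))) = cns x (cns y v) := by
  funext i
  rcases i with _ | _ | i <;> rfl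

/-- `∃ z : Sq` with the coordinates smaller than `N`. -/
theorem FO.exSq (h : FO Q) :
    FO (fun N R C v => ∃ x y : ℕ, x < N ∧ y < N ∧ Q N R C (cns x (cns y v))) := by
  refine FO.congr (Q' := fun N R C v => ∃ x, x < N ∧ ∃ y, y < N ∧
    Q N R C (fun i => sodcSwap i N (cns y (cns x v)))) ?_
    (FO.ex DT.size (FO.ex DT.size (FO.sub sodcSwap sodcSwap_dt h)))
  intro N R C v
  simp only [sodcSwap_cns]
  constructor
  · rintro ⟨x, y, hx, hy, h⟩
    exact ⟨x, hx, y, hy, h⟩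
  · rintro ⟨x, hx, y, hy, h⟩
    exact ⟨x, y, hx, hy, h⟩

theorem FO.allSq (h : FO Q) :
    FO (fun N R C v => ∀ x y : ℕ, x < N → y < N → Q N R C (cns x (cns y v))) := by
  refine FO.congr (Q' := fun N R C v => ∀ x, x < N → ∀ y, y < N →
    Q N R C (fun i => sodcSwap i N (cns y (cns x v)))) ?_
    (FO.all DT.size (FO.all DT.size (FO.sub sodcSwap sodcSwap_dt h)))
  intro N R C v
  simp only [sodcSwap_cns]
  constructor
  · intro h x hx y hy
    exact h x y hx hy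
  · intro h x y hx hy
    exact h x hx y hy

theorem NPd.exSq (h : NPd P) :
    NPd (fun N R v => ∃ x y : ℕ, x < N ∧ y < N ∧ P N R (cns x (cns y v))) := by
  refine NPd.congr (P' := fun N R v => ∃ x, x < N ∧ ∃ y, y < N ∧
    P N R (fun i => sodcSwap i N (cns y (cns x v)))) ?_
    (NPd.ex DT.size (NPd.ex DT.size (NPd.sub sodcSwap sodcSwap_dt h)))
  intro N R v
  simp only [sodcSwap_cns]
  constructor
  · rintro ⟨x, y, hx, hy, h⟩
    exact ⟨x, hx, y, hy, h⟩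
  · rintro ⟨x, hx, y, hy, h⟩
    exact ⟨x, y, hx, hy, h⟩

theorem NPd.allSq (h : NPd P) :
    NPd (fun N R v => ∀ x y : ℕ, x < N → y < N → P N R (cns x (cns y v))) := by
  refine NPd.congr (P' := fun N R v => ∀ x, x < N → ∀ y, y < N →
    P N R (fun i => sodcSwap i N (cns y (cns x v)))) ?_
    (NPd.all DT.size (NPd.all DT.size (NPd.sub sodcSwap sodcSwap_dt h)))
  intro N R v
  simp only [sodcSwap_cns]
  constructor
  · intro h x hx y hy
    exact h x y hx hy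
  · intro h x y hx hy
    exact h x hx y hy

theorem sodc_on_nat {N : ℕ} {z : Sq} (h : On N z) :
    ∃ x y : ℕ, x < N ∧ y < N ∧ z = ((x : ℤ), (y : ℤ)) := by
  obtain ⟨a, b⟩ := z
  obtain ⟨h1, h2, h3, h4, h5⟩ := h
  simp only at h1 h2 h3 h4 h5
  obtain ⟨x, rfl⟩ := Int.eq_ofNat_of_zero_le h1
  obtain ⟨y, rfl⟩ := Int.eq_ofNat_of_zero_le h3
  exact ⟨x, y, by exact_mod_cast h2, by exact_mod_cast h4, rfl⟩

/-- Translation between squares and pairs of coordinates. -/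
theorem ex_on {N : ℕ} {A : Sq → Prop} (h : ∀ z, A z → On N z) :
    (∃ z, A z) ↔ ∃ x y : ℕ, x < N ∧ y < N ∧ A ((x : ℤ), (y : ℤ)) := by
  constructor
  · rintro ⟨z, hz⟩
    obtain ⟨x, y, hx, hy, rfl⟩ := sodc_on_nat (h z hz)
    exact ⟨x, y, hx, hy, hz⟩
  · rintro ⟨x, y, _, _, hz⟩
    exact ⟨_, hz⟩

theorem all_on {N : ℕ} {A : Sq → Prop} (h : ∀ z, ¬ A z → On N z) :
    (∀ z, A z) ↔ ∀ x y : ℕ, x < N → y < N → A ((x : ℤ), (y : ℤ)) := by
  constructor
  · intro hz x y _ _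
    exact hz _
  · intro hz z
    by_contra hc
    obtain ⟨x, y, hx, hy, rfl⟩ := sodc_on_nat (h z hc)
    exact hc (hz x y hx hy)

/-! ### Integer linear conditions -/

/-- Integer terms: differences of definable terms. -/
def sodcIT (t : ℕ → (ℕ → ℕ) → ℤ) : Prop :=
  ∃ a b : ℕ → (ℕ → ℕ) → ℕ, DT a ∧ DT b ∧ ∀ N v, t N v = (a N v : ℤ) - (b N v : ℤ)

theorem sodcIT_var (i : ℕ) : sodcIT (fun _ v => (v i : ℤ)) :=
  ⟨_, _, DT.var i, DT.const 0, fun N v => by simp⟩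

theorem sodcIT_size : sodcIT (fun N _ => (N : ℤ)) :=
  ⟨_, _, DT.size, DT.const 0, fun N v => by simp⟩

theorem sodcIT_const (c : ℤ) : sodcIT (fun _ _ => c) :=
  ⟨_, _, DT.const c.toNat, DT.const (-c).toNat, fun N v => by
    show c = (c.toNat : ℤ) - ((-c).toNat : ℤ)
    omega⟩

theorem sodcIT_add {s t : ℕ → (ℕ → ℕ) → ℤ} (hs : sodcIT s) (ht : sodcIT t) :
    sodcIT (fun N v => s N v + t N v) := by
  obtain ⟨a, b, ha, hb, h⟩ := hs
  obtain ⟨a', b', ha', hb', h'⟩ := ht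
  refine ⟨_, _, ha.add ha', hb.add hb', fun N v => ?_⟩
  show s N v + t N v = _
  rw [h, h']
  push_cast
  ring

theorem sodcIT_neg {s : ℕ → (ℕ → ℕ) → ℤ} (hs : sodcIT s) : sodcIT (fun N v => -s N v) := by
  obtain ⟨a, b, ha, hb, h⟩ := hs
  refine ⟨_, _, hb, ha, fun N v => ?_⟩
  show -s N v = _
  rw [h]
  ring

theorem sodcIT_sub {s t : ℕ → (ℕ → ℕ) → ℤ} (hs : sodcIT s) (ht : sodcIT t) :
    sodcIT (fun N v => s N v - t N v) := by
  simpa [sub_eq_add_neg] using sodcIT_add hs (sodcIT_neg ht)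

theorem sodc_le {s t : ℕ → (ℕ → ℕ) → ℤ} (hs : sodcIT s) (ht : sodcIT t) :
    FO (fun N _ _ v => s N v ≤ t N v) := by
  obtain ⟨a, b, ha, hb, h⟩ := hs
  obtain ⟨a', b', ha', hb', h'⟩ := ht
  refine FO.congr ?_ (FO.le (ha.add hb') (ha'.add hb))
  intro N R C v
  show s N v ≤ t N v ↔ _
  rw [h, h']
  omega

theorem sodc_lt {s t : ℕ → (ℕ → ℕ) → ℤ} (hs : sodcIT s) (ht : sodcIT t) :
    FO (fun N _ _ v => s N v < t N v) := by
  obtain ⟨a, b, ha, hb, h⟩ := hs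
  obtain ⟨a', b', ha', hb', h'⟩ := ht
  refine FO.congr ?_ (FO.lt (ha.add hb') (ha'.add hb))
  intro N R C v
  show s N v < t N v ↔ _
  rw [h, h']
  omega

theorem sodc_eq {s t : ℕ → (ℕ → ℕ) → ℤ} (hs : sodcIT s) (ht : sodcIT t) :
    FO (fun N _ _ v => s N v = t N v) :=
  FO.congr (fun _ _ _ _ => le_antisymm_iff) ((sodc_le hs ht).and (sodc_le ht hs))

theorem sodc_dt_shift {t : ℕ → (ℕ → ℕ) → ℕ} (ht : DT t) :
    DT (fun N w => t N (fun i => w (i + 1))) := by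
  obtain ⟨a, ha⟩ := ht
  have h : DT (fun N w => a.ev N (fun i => w (i + 1))) := by
    clear ha
    induction a with
    | var i => exact DT.var (i + 1)
    | const c => exact DT.const c
    | size => exact DT.size
    | add a b iha ihb => exact iha.add ihb
    | mul a b iha ihb => exact iha.mul ihb
  obtain ⟨b, hb⟩ := h
  exact ⟨b, fun N w => (ha N _).trans (hb N w)⟩

/-- Divisibility of an integer term by a positive constant. -/
theorem sodc_dvd {m : ℕ} (hm : 0 < m) {t : ℕ → (ℕ → ℕ) → ℤ} (ht : sodcIT t) :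
    FO (fun N _ _ v => (m : ℤ) ∣ t N v) := by
  obtain ⟨a, b, ha, hb, h⟩ := ht
  refine FO.congr ?_ (FO.ex ((ha.add hb).add (DT.const 1))
    ((FO.eq (sodc_dt_shift ha) ((sodc_dt_shift hb).add ((DT.const m).mul (DT.var 0)))).or
      (FO.eq (sodc_dt_shift hb) ((sodc_dt_shift ha).add ((DT.const m).mul (DT.var 0))))))
  intro N R C v
  show (m : ℤ) ∣ t N v ↔ ∃ x, x < a N v + b N v + 1 ∧
    (a N v = b N v + m * x ∨ b N v = a N v + m * x)
  rw [h]
  constructor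
  · rintro ⟨k, hk⟩
    rcases le_total 0 k with h0 | h0
    · obtain ⟨x, rfl⟩ := Int.eq_ofNat_of_zero_le h0
      have hx : a N v = b N v + m * x := by
        zify
        linarith
      refine ⟨x, ?_, Or.inl hx⟩
      have : x ≤ m * x := Nat.le_mul_of_pos_left x hm
      omega
    · obtain ⟨x, hx0⟩ := Int.eq_ofNat_of_zero_le (neg_nonneg.2 h0)
      have hx : b N v = a N v + m * x := by
        zify
        rw [← hx0]
        linarith
      refine ⟨x, ?_, Or.inr hx⟩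
      have : x ≤ m * x := Nat.le_mul_of_pos_left x hm
      omega
  · rintro ⟨x, _, hx | hx⟩
    · exact ⟨x, by rw [hx]; push_cast; ring⟩
    · exact ⟨-x, by rw [hx]; push_cast; ring⟩

theorem sodcIT_fst (i : ℕ) (d : Sq) : sodcIT (fun _ v => (sq v i + d).1) :=
  sodcIT_add (sodcIT_var i) (sodcIT_const d.1)

theorem sodcIT_snd (i : ℕ) (d : Sq) : sodcIT (fun _ v => (sq v i + d).2) :=
  sodcIT_add (sodcIT_var (i + 1)) (sodcIT_const d.2)

theorem sodcIT_fst0 (i : ℕ) : sodcIT (fun _ v => (sq v i).1) := sodcIT_var i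

theorem sodcIT_snd0 (i : ℕ) : sodcIT (fun _ v => (sq v i).2) := sodcIT_var (i + 1)

theorem FO.on (i : ℕ) (d : Sq) : FO (fun N _ _ v => On N (sq v i + d)) := by
  refine FO.congr ?_ ((sodc_le (sodcIT_const 0) (sodcIT_fst i d)).and
    ((sodc_lt (sodcIT_fst i d) sodcIT_size).and ((sodc_le (sodcIT_const 0) (sodcIT_snd i d)).and
      ((sodc_lt (sodcIT_snd i d) sodcIT_size).and
        (sodc_dvd two_pos (sodcIT_add (sodcIT_fst i d) (sodcIT_snd i d)))))))
  intro N R C v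
  show On N (sq v i + d) ↔ _
  unfold On
  rw [even_iff_two_dvd]
  exact Iff.rfl

/-- The entry of relation `k` at a shifted square. -/
theorem sodc_rel (k i : ℕ) (d : Sq) (tail : List ℕ) :
    FO (fun N R _ v => On N (sq v i + d) ∧
      R k ((sq v i + d).1.toNat :: (sq v i + d).2.toNat :: tail)) := by
  refine FO.congr ?_ ((FO.on i d).and (FO.exSq ((sodc_eq (sodcIT_fst0 0)
    (sodcIT_fst (i + 2) d)).and ((sodc_eq (sodcIT_snd0 0) (sodcIT_snd (i + 2) d)).and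
      (FO.rel k ((fun _ v => v 0) :: (fun _ v => v 1) :: tail.map (fun c => fun _ _ => c))
        ?_)))))
  · intro N R C v
    show On N (sq v i + d) ∧ R k ((sq v i + d).1.toNat :: (sq v i + d).2.toNat :: tail) ↔
      On N (sq v i + d) ∧ ∃ x y : ℕ, x < N ∧ y < N ∧ ((x : ℤ) = (sq v i + d).1 ∧
        ((y : ℤ) = (sq v i + d).2 ∧ R k (x :: y :: (tail.map
          (fun c => fun (_ : ℕ) (_ : ℕ → ℕ) => c)).map (fun t => t N (cns x (cns y v))))))
    have key : ∀ x y : ℕ, (tail.map (fun c => fun (_ : ℕ) (_ : ℕ → ℕ) => c)).map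
        (fun t => t N (cns x (cns y v))) = tail := by
      intro x y
      rw [List.map_map]
      exact List.map_id _
    constructor
    · rintro ⟨hon, hR⟩
      refine ⟨hon, ?_⟩
      obtain ⟨x, y, hx, hy, hz⟩ := sodc_on_nat hon
      refine ⟨x, y, hx, hy, by rw [hz], by rw [hz], ?_⟩
      rw [hz] at hR
      rw [key]
      simpa using hR
    · rintro ⟨hon, x, y, hx, hy, h1, h2, hR⟩
      refine ⟨hon, ?_⟩
      rw [key] at hR
      rw [← h1, ← h2]
      simpa using hR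
  · intro t ht
    simp only [List.mem_cons, List.mem_map] at ht
    rcases ht with rfl | rfl | ⟨c, _, rfl⟩
    · exact DT.var 0
    · exact DT.var 1
    · exact DT.const c

theorem sodc_bd_none {N : ℕ} {R : ℕ → List ℕ → Prop} {k : ℕ} {z : Sq} :
    bd N R k z = none ↔ ¬ (On N z ∧ R k [z.1.toNat, z.2.toNat, 0]) := by
  classical
  unfold bd
  by_cases h : On N z ∧ R k [z.1.toNat, z.2.toNat, 0]
  · simp [h]
  · simp [h]

theorem sodc_bd_some {N : ℕ} {R : ℕ → List ℕ → Prop} {k : ℕ} {z : Sq} {w g : Bool} :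
    bd N R k z = some ⟨w, g⟩ ↔ (On N z ∧ R k [z.1.toNat, z.2.toNat, 0]) ∧
      (((On N z ∧ R k [z.1.toNat, z.2.toNat, 1]) ↔ w = true) ∧
        ((On N z ∧ R k [z.1.toNat, z.2.toNat, 2]) ↔ g = true)) := by
  classical
  unfold bd
  by_cases h : On N z ∧ R k [z.1.toNat, z.2.toNat, 0]
  · rw [if_pos h]
    simp only [Option.some.injEq, Piece.mk.injEq, h, true_and, and_true]
    constructor
    · rintro ⟨rfl, rfl⟩
      simp
    · rintro ⟨h1, h2⟩
      constructor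
      · cases w
        · exact decide_eq_false (fun h => by simpa using h1.1 h)
        · exact decide_eq_true (h1.2 rfl)
      · cases g
        · exact decide_eq_false (fun h => by simpa using h2.1 h)
        · exact decide_eq_true (h2.2 rfl)
  · rw [if_neg h]
    simp [h]

theorem FO.bd_eq (k i : ℕ) (d : Sq) (o : Option Piece) :
    FO (fun N R _ v => bd N R k (sq v i + d) = o) := by
  rcases o with _ | ⟨w, g⟩
  · exact FO.congr (fun _ _ _ _ => sodc_bd_none) (sodc_rel k i d [0]).not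
  · exact FO.congr (fun _ _ _ _ => sodc_bd_some) ((sodc_rel k i d [0]).and
      (((sodc_rel k i d [1]).iff (FO.prop (w = true))).and
        ((sodc_rel k i d [2]).iff (FO.prop (g = true)))))

theorem FO.sset_mem (k i : ℕ) (d : Sq) : FO (fun N R _ v => sset N R k (sq v i + d)) :=
  sodc_rel k i d []

theorem FO.sq_eq (i j : ℕ) (d : Sq) : FO (fun _ _ _ v => sq v i = sq v j + d) :=
  FO.congr (fun _ _ _ _ => Prod.ext_iff) ((sodc_eq (sodcIT_fst0 i) (sodcIT_fst j d)).and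
    (sodc_eq (sodcIT_snd0 i) (sodcIT_snd j d)))

theorem sodc_cls_iff (s z : Sq) : Cls s z ↔ (2 : ℤ) ∣ z.1 - s.1 ∧ (2 : ℤ) ∣ z.2 - s.2 ∧
    (4 : ℤ) ∣ (z.1 - s.1) + (z.2 - s.2) := by
  obtain ⟨a, b⟩ := s
  obtain ⟨c, d⟩ := z
  simp only [Cls, Prod.mk.injEq]
  constructor
  · rintro ⟨i, j, ⟨h1, h2⟩, k, hk⟩
    exact ⟨⟨i, by linarith⟩, ⟨j, by linarith⟩, ⟨k, by linarith⟩⟩
  · rintro ⟨⟨i, hi⟩, ⟨j, hj⟩, ⟨k, hk⟩⟩
    exact ⟨i, j, ⟨by linarith, by linarith⟩, k, by linarith⟩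

theorem FO.cls (i j : ℕ) (d : Sq) : FO (fun _ _ _ v => Cls (sq v i) (sq v j + d)) := by
  have h1 := sodcIT_sub (sodcIT_fst j d) (sodcIT_fst0 i)
  have h2 := sodcIT_sub (sodcIT_snd j d) (sodcIT_snd0 i)
  exact FO.congr (fun _ _ _ _ => sodc_cls_iff _ _) ((sodc_dvd two_pos h1).and
    ((sodc_dvd two_pos h2).and (sodc_dvd four_pos (sodcIT_add h1 h2))))

theorem sodc_opp_iff (s z : Sq) (k : ℤ) : Opp s k z ↔ (0 ≤ k ∧ k < 2) ∧
    ((2 : ℤ) ∣ z.1 - s.1 + -1 ∧ (2 : ℤ) ∣ z.2 - s.2 + -1 ∧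
    (4 : ℤ) ∣ ((z.1 - s.1) + (z.2 - s.2)) + (-2 - 2 * k)) := by
  obtain ⟨a, b⟩ := s
  obtain ⟨c, d⟩ := z
  simp only [Opp, Prod.mk.injEq]
  constructor
  · rintro ⟨i, j, ⟨h1, h2⟩, hk⟩
    exact ⟨⟨by omega, by omega⟩, ⟨i, by linarith⟩, ⟨j, by linarith⟩, ⟨(i + j) / 2, by omega⟩⟩
  · rintro ⟨⟨hk0, hk2⟩, ⟨i, hi⟩, ⟨j, hj⟩, ⟨m, hm⟩⟩
    exact ⟨i, j, ⟨by linarith, by linarith⟩, by omega⟩

theorem FO.opp (i j : ℕ) (d : Sq) (k : ℤ) : FO (fun _ _ _ v => Opp (sq v i) k (sq v j + d)) := by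
  have h1 := sodcIT_sub (sodcIT_fst j d) (sodcIT_fst0 i)
  have h2 := sodcIT_sub (sodcIT_snd j d) (sodcIT_snd0 i)
  exact FO.congr (fun _ _ _ _ => sodc_opp_iff _ _ _) ((FO.prop (0 ≤ k ∧ k < 2)).and
    ((sodc_dvd two_pos (sodcIT_add h1 (sodcIT_const (-1)))).and
      ((sodc_dvd two_pos (sodcIT_add h2 (sodcIT_const (-1)))).and
        (sodc_dvd four_pos (sodcIT_add (sodcIT_add h1 h2) (sodcIT_const (-2 - 2 * k)))))))

/-- The row of a square. -/
theorem FO.row_lt (i j : ℕ) (d : ℤ) : FO (fun _ _ _ v => (sq v i).2 < (sq v j).2 + d) :=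
  sodc_lt (sodcIT_snd0 i) (sodcIT_add (sodcIT_snd0 j) (sodcIT_const d))

theorem sodc_dg (A : Sq → Prop) : (∃ d, Dg d ∧ A d) ↔
    (A (1, 1) ∨ A (1, -1)) ∨ (A (-1, 1) ∨ A (-1, -1)) := by
  constructor
  · rintro ⟨⟨a, b⟩, ⟨rfl | rfl, rfl | rfl⟩, h⟩
    · exact Or.inl (Or.inl h)
    · exact Or.inl (Or.inr h)
    · exact Or.inr (Or.inl h)
    · exact Or.inr (Or.inr h)
  · rintro ((h | h) | (h | h)) <;> exact ⟨_, by simp [Dg], h⟩

theorem sodc_dg_all (A : Sq → Prop) : (∀ d, Dg d → A d) ↔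
    (A (1, 1) ∧ A (1, -1)) ∧ (A (-1, 1) ∧ A (-1, -1)) := by
  constructor
  · intro h
    exact ⟨⟨h _ (by simp [Dg]), h _ (by simp [Dg])⟩, h _ (by simp [Dg]), h _ (by simp [Dg])⟩
  · rintro ⟨⟨h1, h2⟩, h3, h4⟩ ⟨a, b⟩ ⟨rfl | rfl, rfl | rfl⟩
    · exact h1
    · exact h2
    · exact h3
    · exact h4

theorem FO.exDg {Q : Sq → ℕ → (ℕ → List ℕ → Prop) → (List ℕ → Prop) → (ℕ → ℕ) → Prop}
    (h : ∀ d, Dg d → FO (Q d)) : FO (fun N R C v => ∃ d, Dg d ∧ Q d N R C v) :=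
  FO.congr (fun N R C v => sodc_dg (fun d => Q d N R C v))
    (((h _ (by simp [Dg])).or (h _ (by simp [Dg]))).or
      ((h _ (by simp [Dg])).or (h _ (by simp [Dg]))))

theorem FO.allDg {Q : Sq → ℕ → (ℕ → List ℕ → Prop) → (List ℕ → Prop) → (ℕ → ℕ) → Prop}
    (h : ∀ d, Dg d → FO (Q d)) : FO (fun N R C v => ∀ d, Dg d → Q d N R C v) :=
  FO.congr (fun N R C v => sodc_dg_all (fun d => Q d N R C v))
    (((h _ (by simp [Dg])).and (h _ (by simp [Dg]))).and
      ((h _ (by simp [Dg])).and (h _ (by simp [Dg]))))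

theorem NPd.exDg {P : Sq → ℕ → (ℕ → List ℕ → Prop) → (ℕ → ℕ) → Prop}
    (h : ∀ d, Dg d → NPd (P d)) : NPd (fun N R v => ∃ d, Dg d ∧ P d N R v) :=
  NPd.congr (fun N R v => sodc_dg (fun d => P d N R v))
    (((h _ (by simp [Dg])).or (h _ (by simp [Dg]))).or
      ((h _ (by simp [Dg])).or (h _ (by simp [Dg]))))

theorem NPd.allDg {P : Sq → ℕ → (ℕ → List ℕ → Prop) → (ℕ → ℕ) → Prop}
    (h : ∀ d, Dg d → NPd (P d)) : NPd (fun N R v => ∀ d, Dg d → P d N R v) :=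
  NPd.congr (fun N R v => sodc_dg_all (fun d => P d N R v))
    (((h _ (by simp [Dg])).and (h _ (by simp [Dg]))).and
      ((h _ (by simp [Dg])).and (h _ (by simp [Dg]))))

/-- The relation describing a board. -/
def sodcBd (B : Board) : List ℕ → Prop
  | [x, y, 0] => B ((x : ℤ), (y : ℤ)) ≠ none
  | [x, y, 1] => ∃ P, B ((x : ℤ), (y : ℤ)) = some P ∧ P.white = true
  | [x, y, 2] => ∃ P, B ((x : ℤ), (y : ℤ)) = some P ∧ P.king = true
  | _ => False

/-- A board and a set of squares are described by relations. -/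
theorem exists_bd {N : ℕ} (B : Board) (hB : ∀ z, B z ≠ none → On N z)
    (R : ℕ → List ℕ → Prop) (k : ℕ) :
    ∃ X : List ℕ → Prop, bd N (Function.update R k X) k = B := by
  classical
  refine ⟨sodcBd B, ?_⟩
  funext z
  by_cases hz : On N z
  · obtain ⟨x, y, hx, hy, rfl⟩ := sodc_on_nat hz
    rcases hP : B ((x : ℤ), (y : ℤ)) with _ | ⟨w, g⟩
    · rw [sodc_bd_none, Function.update_self]
      simp [sodcBd, hP]
    · rw [sodc_bd_some, Function.update_self]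
      simp [sodcBd, hP, hz]
  · have h1 : B z = none := by
      by_contra h
      exact hz (hB z h)
    rw [h1, sodc_bd_none]
    exact fun h => hz h.1

theorem exists_sset {N : ℕ} (A : Sq → Prop) (hA : ∀ z, A z → On N z)
    (R : ℕ → List ℕ → Prop) (k : ℕ) :
    ∃ X : List ℕ → Prop, sset N (Function.update R k X) k = A := by
  refine ⟨fun l => ∃ x y : ℕ, l = [x, y] ∧ A ((x : ℤ), (y : ℤ)), ?_⟩
  funext z
  apply propext
  unfold sset
  rw [Function.update_self]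
  constructor
  · rintro ⟨hz, x, y, h1, h2⟩
    obtain ⟨x', y', hx, hy, rfl⟩ := sodc_on_nat hz
    simp at h1
    rw [h1.1, h1.2]
    exact h2
  · intro h
    have hz := hA z h
    refine ⟨hz, ?_⟩
    obtain ⟨x', y', hx, hy, rfl⟩ := sodc_on_nat hz
    exact ⟨x', y', by simp, h⟩

theorem bd_update {N : ℕ} {R : ℕ → List ℕ → Prop} {k j : ℕ} (h : j ≠ k) (X : List ℕ → Prop) :
    bd N (Function.update R k X) j = bd N R j := by
  unfold bd
  rw [Function.update_of_ne h]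

theorem sset_update {N : ℕ} {R : ℕ → List ℕ → Prop} {k j : ℕ} (h : j ≠ k) (X : List ℕ → Prop) :
    sset N (Function.update R k X) j = sset N R j := by
  unfold sset
  rw [Function.update_of_ne h]

end Pool.Agent.CHK
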