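import Mathlib
import Pool.Agent.CHK.SodC
import Pool.Agent.CHK.Play

set_option autoImplicit false

/-! Runs are second-order definable. -/

namespace Pool.Agent.CHK

/-- The certificate `C` says that the square number `i` of kind `b` is `z`. -/
def daC (C : List ℕ → Prop) (b i : ℕ) (z : Sq) : Prop := C [b, i, z.1.toNat, z.2.toNat]

theorem da_fo (b : ℕ) {t : ℕ → (ℕ → ℕ) → ℕ} (ht : DT t) (j : ℕ) :
    FO (fun N _ C v => daC C b (t N v) (sq v j)) := by
  refine FO.congr ?_ (FO.crt [fun _ _ => b, t, fun _ v => v j, fun _ v => v (j + 1)] ?_)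
  · intro N R C v
    simp [daC, sq]
  · intro s hs
    simp only [List.mem_cons, List.not_mem_nil, or_false] at hs
    rcases hs with rfl | rfl | rfl | rfl
    · exact DT.const b
    · exact ht
    · exact DT.var _
    · exact DT.var _

theorem da_toNat {N : ℕ} {z z' : Sq} (h : On N z) (h' : On N z') (h1 : z.1.toNat = z'.1.toNat)
    (h2 : z.2.toNat = z'.2.toNat) : z = z' := by
  obtain ⟨a1, -, a2, -, -⟩ := h
  obtain ⟨b1, -, b2, -, -⟩ := h'
  refine Prod.ext ?_ ?_ <;> omega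

theorem da_pos {D A F : Sq → Prop} (L : List Sq) : ∀ {s t : Sq}, Run D A F s L t →
    ∃ pz : ℕ → Sq, pz 0 = s ∧ pz L.length = t ∧ ∀ i (h : i < L.length), ∃ d, D d ∧
      L[i] = pz i + d ∧ pz (i + 1) = L[i] + d ∧ A L[i] ∧ F (L[i] + d) := by
  induction L with
  | nil =>
    intro s t h
    exact ⟨fun _ => s, rfl, h, fun i hi => absurd hi (Nat.not_lt_zero _)⟩
  | cons e L ih =>
    intro s t h
    obtain ⟨d, hd, he, hA, hF, hr⟩ := h
    obtain ⟨pz, p0, p1, p2⟩ := ih hr
    refine ⟨fun i => Nat.casesOn i s pz, rfl, p1, ?_⟩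
    intro i hi
    cases i with
    | zero => exact ⟨d, hd, he, p0, hA, hF⟩
    | succ i => exact p2 i (by simpa using hi)

/-- The matrix. -/
def DaM (D A F S : Sq → Prop) (C : List ℕ → Prop) (N n : ℕ) (s t : Sq) : Prop :=
  daC C 0 0 s ∧ daC C 0 n t ∧
  (∀ i, i < n + 1 → ∀ z, On N z → daC C 0 i z → ∀ z', On N z' → daC C 0 i z' → z = z') ∧
  (∀ i, i < n → ∀ z, On N z → daC C 1 i z → ∀ z', On N z' → daC C 1 i z' → z = z') ∧
  (∀ i, i < n → ∃ z, On N z ∧ daC C 0 i z ∧ ∃ e, On N e ∧ daC C 1 i e ∧ A e ∧ S e ∧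
    ∃ z', On N z' ∧ daC C 0 (i + 1) z' ∧ F z' ∧ ∃ d, D d ∧ e = z + d ∧ z' = e + d) ∧
  (∀ i, i < n → ∀ j, j < n → ∀ e, On N e → daC C 1 i e → daC C 1 j e → i = j) ∧
  ∀ e, On N e → S e → ∃ i, i < n ∧ daC C 1 i e

theorem da_len {N : ℕ} {L : List Sq} (h : L.Nodup) (hL : ∀ y ∈ L, On N y) :
    L.length ≤ N * N := by
  classical
  have h1 : (L.map fun z : Sq => (z.1.toNat, z.2.toNat)).Nodup := by
    rw [List.nodup_map_iff_inj_on h]
    intro x hx y hy hxy
    simp only [Prod.mk.injEq] at hxy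
    exact da_toNat (hL x hx) (hL y hy) hxy.1 hxy.2
  have h2 : (L.map fun z : Sq => (z.1.toNat, z.2.toNat)).toFinset ⊆
      Finset.range N ×ˢ Finset.range N := by
    intro p hp
    rw [List.mem_toFinset, List.mem_map] at hp
    obtain ⟨z, hz, rfl⟩ := hp
    obtain ⟨a1, a2, a3, a4, -⟩ := hL z hz
    rw [Finset.mem_product, Finset.mem_range, Finset.mem_range]
    constructor <;> simp only <;> omega
  have h3 := Finset.card_le_card h2
  rw [List.toFinset_card_of_nodup h1, List.length_map] at h3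
  simpa using h3

theorem da_iff {D A F S : Sq → Prop} {N : ℕ} {s t : Sq} (hs : On N s)
    (hA : ∀ z, A z → On N z) (hF : ∀ z, F z → On N z) (hS : ∀ z, S z → On N z) :
    (∃ L, Run D A F s L t ∧ L.Nodup ∧ ∀ y, y ∈ L ↔ S y) ↔
      ∃ C : List ℕ → Prop, ∃ n, n < N * N + 1 ∧ On N t ∧ DaM D A F S C N n s t := by
  constructor
  · rintro ⟨L, hr, hn, hm⟩
    obtain ⟨pz, p0, p1, p2⟩ := da_pos L hr
    have hp : ∀ i, i < L.length + 1 → On N (pz i) := by
      intro i hi
      cases i with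
      | zero => rw [p0]; exact hs
      | succ i =>
        obtain ⟨d, -, -, h3, -, h5⟩ := p2 i (by omega)
        rw [h3]
        exact hF _ h5
    have he : ∀ i (h : i < L.length), On N L[i] := by
      intro i h
      obtain ⟨d, -, -, -, h4, -⟩ := p2 i h
      exact hA _ h4
    refine ⟨fun l => (∃ i, i < L.length + 1 ∧ l = [0, i, (pz i).1.toNat, (pz i).2.toNat]) ∨
      ∃ (i : ℕ) (h : i < L.length), l = [1, i, L[i].1.toNat, L[i].2.toNat], L.length, ?_, ?_, ?_⟩
    · exact Nat.lt_succ_of_le (da_len hn fun y hy => hS y ((hm y).1 hy))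
    · rw [← p1]
      exact hp _ (Nat.lt_succ_self _)
    · have c0 : ∀ i, i < L.length + 1 → ∀ z, On N z → (daC (fun l => (∃ i, i < L.length + 1 ∧
          l = [0, i, (pz i).1.toNat, (pz i).2.toNat]) ∨
          ∃ (i : ℕ) (h : i < L.length), l = [1, i, L[i].1.toNat, L[i].2.toNat]) 0 i z ↔
          z = pz i) := by
        intro i hi z hz
        constructor
        · rintro (⟨j, hj, h⟩ | ⟨j, hj, h⟩)
          · simp only [List.cons.injEq, true_and, and_true] at h
            obtain ⟨rfl, h1, h2⟩ := h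
            exact da_toNat hz (hp _ hi) h1 h2
          · simp at h
        · rintro rfl
          exact Or.inl ⟨i, hi, rfl⟩
      have c1 : ∀ i (h : i < L.length), ∀ z, On N z → (daC (fun l => (∃ i, i < L.length + 1 ∧
          l = [0, i, (pz i).1.toNat, (pz i).2.toNat]) ∨
          ∃ (i : ℕ) (h : i < L.length), l = [1, i, L[i].1.toNat, L[i].2.toNat]) 1 i z ↔
          z = L[i]) := by
        intro i hi z hz
        constructor
        · rintro (⟨j, hj, h⟩ | ⟨j, hj, h⟩)
          · simp at h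
          · simp only [List.cons.injEq, true_and, and_true] at h
            obtain ⟨rfl, h1, h2⟩ := h
            exact da_toNat hz (he _ hi) h1 h2
        · rintro rfl
          exact Or.inr ⟨i, hi, rfl⟩
      refine ⟨(c0 0 (by omega) s hs).2 p0.symm, ?_, ?_, ?_, ?_, ?_, ?_⟩
      · have ht : On N t := by
          rw [← p1]
          exact hp _ (Nat.lt_succ_self _)
        exact (c0 _ (Nat.lt_succ_self _) t ht).2 p1.symm
      · intro i hi z hz h z' hz' h'
        rw [(c0 i hi z hz).1 h, (c0 i hi z' hz').1 h']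
      · intro i hi z hz h z' hz' h'
        rw [(c1 i hi z hz).1 h, (c1 i hi z' hz').1 h']
      · intro i hi
        obtain ⟨d, hd, e1, e2, e3, e4⟩ := p2 i hi
        refine ⟨pz i, hp i (by omega), (c0 i (by omega) _ (hp i (by omega))).2 rfl, L[i], he i hi,
          (c1 i hi _ (he i hi)).2 rfl, e3, (hm _).1 (List.getElem_mem hi), pz (i + 1),
          hp _ (by omega), (c0 _ (by omega) _ (hp _ (by omega))).2 rfl, ?_, d, hd, e1, e2⟩
        rw [e2]
        exact e4
      · intro i hi j hj e h h1 h2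
        have h3 := (c1 i hi e h).1 h1
        have h4 := (c1 j hj e h).1 h2
        rw [h3] at h4
        exact (List.Nodup.getElem_inj_iff hn).1 h4
      · intro e h h1
        obtain ⟨i, hi, h2⟩ := List.getElem_of_mem ((hm e).2 h1)
        exact ⟨i, hi, (c1 i hi e h).2 h2.symm⟩
  · rintro ⟨C, n, -, ht, m1, m2, m3, m4, m5, m6, m7⟩
    have key : ∀ k, k ≤ n → ∀ z, On N z → daC C 0 (n - k) z → ∃ L, Run D A F z L t ∧
        L.length = k ∧ ∀ j (h : j < L.length), On N L[j] ∧ S L[j] ∧ daC C 1 (n - k + j) L[j] := by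
      intro k
      induction k with
      | zero =>
        intro _ z hz h
        refine ⟨[], m3 n (Nat.lt_succ_self _) z hz h t ht m2, rfl, ?_⟩
        intro j hj
        exact absurd hj (Nat.not_lt_zero _)
      | succ k ih =>
        intro hk z hz h
        obtain ⟨y, hy, h1, e, he, h2, hAe, hSe, z', hz', h3, hFz, d, hd, e1, e2⟩ :=
          m5 (n - (k + 1)) (by omega)
        have hyz : z = y := m3 (n - (k + 1)) (by omega) z hz h y hy h1
        subst hyz
        have hi : n - (k + 1) + 1 = n - k := by omega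
        rw [hi] at h3
        obtain ⟨L, hL, hl, hj⟩ := ih (by omega) z' hz' h3
        refine ⟨e :: L, ⟨d, hd, e1, hAe, ?_, ?_⟩, ?_, ?_⟩
        · rw [← e2]; exact hFz
        · rw [← e2]; exact hL
        · rw [List.length_cons, hl]
        · intro j hj'
          cases j with
          | zero => exact ⟨he, hSe, h2⟩
          | succ j =>
            have hjl : j < L.length := by simpa using hj'
            obtain ⟨g1, g2, g3⟩ := hj j hjl
            refine ⟨g1, g2, ?_⟩
            have hj2 : n - (k + 1) + (j + 1) = n - k + j := by omega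
            rw [hj2]
            exact g3
    obtain ⟨L, hL, hl, hj⟩ := key n le_rfl s hs (by rw [Nat.sub_self]; exact m1)
    rw [Nat.sub_self] at hj
    simp only [zero_add] at hj
    refine ⟨L, hL, ?_, ?_⟩
    · rw [List.nodup_iff_injective_get]
      intro i j hij
      simp only [List.get_eq_getElem] at hij
      have h1 := hj i i.2
      have h2 := hj j j.2
      have h3 : daC C 1 j L[(i : ℕ)] := by
        rw [hij]
        exact h2.2.2
      exact Fin.ext (m6 i (by rw [← hl]; exact i.2) j (by rw [← hl]; exact j.2) _ h1.1 h1.2.2 h3)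
    · intro y
      constructor
      · intro hy
        obtain ⟨i, hi, rfl⟩ := List.getElem_of_mem hy
        exact (hj i hi).2.1
      · intro hy
        obtain ⟨i, hi, h1⟩ := m7 y (hS y hy) hy
        have hi' : i < L.length := by rw [hl]; exact hi
        have h2 := m4 i hi y (hS y hy) h1 L[i] (hj i hi').1 (hj i hi').2.2
        rw [h2]
        exact List.getElem_mem hi'

theorem da_exS {A : ℕ → (ℕ → List ℕ → Prop) → (List ℕ → Prop) → (ℕ → ℕ) → Sq → Prop}
    (h : FO (fun N R C v => A N R C (fun i => v (i + 2)) (sq v 0))) :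
    FO (fun N R C v => ∃ z, On N z ∧ A N R C v z) := by
  refine FO.congr ?_ (FO.exSq (FO.and (FO.on 0 0) h))
  intro N R C v
  rw [ex_on (N := N) (A := fun z => On N z ∧ A N R C v z) (fun z hz => hz.1)]
  constructor
  · rintro ⟨x, y, hx, hy, h1, h2⟩
    refine ⟨x, y, hx, hy, ?_, h2⟩
    rw [sq_cns, add_zero]
    exact h1
  · rintro ⟨x, y, hx, hy, h1, h2⟩
    rw [sq_cns, add_zero] at h1
    exact ⟨x, y, hx, hy, h1, h2⟩

theorem da_allS {A : ℕ → (ℕ → List ℕ → Prop) → (List ℕ → Prop) → (ℕ → ℕ) → Sq → Prop}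
    (h : FO (fun N R C v => A N R C (fun i => v (i + 2)) (sq v 0))) :
    FO (fun N R C v => ∀ z, On N z → A N R C v z) := by
  refine FO.congr ?_ (FO.allSq (FO.imp (FO.on 0 0) h))
  intro N R C v
  rw [all_on (N := N) (A := fun z => On N z → A N R C v z) (fun z hz => by
    by_contra h1
    exact hz fun h2 => absurd h2 h1)]
  constructor
  · intro h1 x y hx hy h2
    rw [sq_cns, add_zero] at h2
    exact h1 x y hx hy h2
  · intro h1 x y hx hy h2
    refine h1 x y hx hy ?_
    rw [sq_cns, add_zero]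
    exact h2

theorem da_nexS {A : ℕ → (ℕ → List ℕ → Prop) → (ℕ → ℕ) → Sq → Prop}
    (h : NPd (fun N R v => A N R (fun i => v (i + 2)) (sq v 0))) :
    NPd (fun N R v => ∃ z, On N z ∧ A N R v z) := by
  refine NPd.congr ?_ (NPd.exSq (NPd.and (NPd.fo (FO.on 0 0)) h))
  intro N R v
  rw [ex_on (N := N) (A := fun z => On N z ∧ A N R v z) (fun z hz => hz.1)]
  constructor
  · rintro ⟨x, y, hx, hy, h1, h2⟩
    refine ⟨x, y, hx, hy, ?_, h2⟩
    rw [sq_cns, add_zero]
    exact h1
  · rintro ⟨x, y, hx, hy, h1, h2⟩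
    rw [sq_cns, add_zero] at h1
    exact ⟨x, y, hx, hy, h1, h2⟩

theorem da_nallS {A : ℕ → (ℕ → List ℕ → Prop) → (ℕ → ℕ) → Sq → Prop}
    (h : NPd (fun N R v => A N R (fun i => v (i + 2)) (sq v 0))) :
    NPd (fun N R v => ∀ z, On N z → A N R v z) := by
  refine NPd.congr ?_ (NPd.allSq (NPd.imp (FO.on 0 0) h))
  intro N R v
  rw [all_on (N := N) (A := fun z => On N z → A N R v z) (fun z hz => by
    by_contra h1
    exact hz fun h2 => absurd h2 h1)]
  constructor
  · intro h1 x y hx hy h2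
    rw [sq_cns, add_zero] at h2
    exact h1 x y hx hy h2
  · intro h1 x y hx hy h2
    refine h1 x y hx hy ?_
    rw [sq_cns, add_zero]
    exact h2

theorem da_sqeq (i j : ℕ) : FO (fun _ _ _ v => sq v i = sq v j) :=
  FO.congr (fun _ _ _ v => by rw [add_zero]) (FO.sq_eq i j 0)

theorem da_ss (k i : ℕ) : FO (fun N R _ v => sset N R k (sq v i)) :=
  FO.congr (fun _ _ _ v => by rw [add_zero]) (FO.sset_mem k i 0)

theorem da_on (i : ℕ) : FO (fun N _ _ v => On N (sq v i)) :=
  FO.congr (fun _ _ _ v => by rw [add_zero]) (FO.on i 0)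

theorem da_exD {D : Sq → Prop} (hD : ∀ d, D d → Dg d)
    {Q : Sq → ℕ → (ℕ → List ℕ → Prop) → (List ℕ → Prop) → (ℕ → ℕ) → Prop}
    (h : ∀ d, Dg d → FO (Q d)) : FO (fun N R C v => ∃ d, D d ∧ Q d N R C v) := by
  refine FO.congr ?_ (FO.exDg (Q := fun d N R C v => D d ∧ Q d N R C v)
    fun d hd => FO.and (FO.prop _) (h d hd))
  intro N R C v
  constructor
  · rintro ⟨d, h1, h2⟩
    exact ⟨d, hD d h1, h1, h2⟩
  · rintro ⟨d, -, h1, h2⟩
    exact ⟨d, h1, h2⟩

theorem da_matrix {D : Sq → Prop} (hD : ∀ d, D d → Dg d) :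
    FO (fun N R C v => DaM D (sset N R 7) (sset N R 8) (sset N R 9) C N (v 0) (sq v 1)
      (sq v 3)) := by
  unfold DaM
  refine FO.and (da_fo 0 (DT.const 0) 1) (FO.and (da_fo 0 (DT.var 0) 3) (FO.and ?_ (FO.and ?_
    (FO.and ?_ (FO.and ?_ ?_)))))
  · refine FO.all (t := fun _ v => v 0 + 1) (DT.add (DT.var 0) (DT.const 1))
      (Q := fun N R C v => ∀ z, On N z → daC C 0 (v 0) z → ∀ z', On N z' →
        daC C 0 (v 0) z' → z = z') ?_
    exact da_allS (FO.imp (da_fo 0 (DT.var 2) 0) (da_allS (FO.imp (da_fo 0 (DT.var 4) 0)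
      (da_sqeq 2 0))))
  · refine FO.all (t := fun _ v => v 0) (DT.var 0)
      (Q := fun N R C v => ∀ z, On N z → daC C 1 (v 0) z → ∀ z', On N z' →
        daC C 1 (v 0) z' → z = z') ?_
    exact da_allS (FO.imp (da_fo 1 (DT.var 2) 0) (da_allS (FO.imp (da_fo 1 (DT.var 4) 0)
      (da_sqeq 2 0))))
  · refine FO.all (t := fun _ v => v 0) (DT.var 0)
      (Q := fun N R C v => ∃ z, On N z ∧ daC C 0 (v 0) z ∧ ∃ e, On N e ∧ daC C 1 (v 0) e ∧
        sset N R 7 e ∧ sset N R 9 e ∧ ∃ z', On N z' ∧ daC C 0 (v 0 + 1) z' ∧ sset N R 8 z' ∧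
        ∃ d, D d ∧ e = z + d ∧ z' = e + d) ?_
    refine da_exS (FO.and (da_fo 0 (DT.var 2) 0) (da_exS (FO.and (da_fo 1 (DT.var 4) 0)
      (FO.and (da_ss 7 0) (FO.and (da_ss 9 0) (da_exS (FO.and
        (da_fo 0 (DT.add (DT.var 6) (DT.const 1)) 0) (FO.and (da_ss 8 0) ?_))))))))
    exact da_exD hD fun d _ => FO.and (FO.sq_eq 2 4 d) (FO.sq_eq 0 2 d)
  · refine FO.all (t := fun _ v => v 0) (DT.var 0)
      (Q := fun N R C v => ∀ j, j < v 1 → ∀ e, On N e → daC C 1 (v 0) e → daC C 1 j e →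
        v 0 = j) ?_
    refine FO.all (t := fun _ v => v 1) (DT.var 1)
      (Q := fun N R C v => ∀ e, On N e → daC C 1 (v 1) e → daC C 1 (v 0) e → v 1 = v 0) ?_
    exact da_allS (FO.imp (da_fo 1 (DT.var 3) 0) (FO.imp (da_fo 1 (DT.var 2) 0)
      (FO.eq (DT.var 3) (DT.var 2))))
  · refine da_allS (FO.imp (da_ss 9 0) ?_)
    exact FO.ex (t := fun _ v => v 2) (DT.var 2)
      (Q := fun N R C v => daC C 1 (v 0) (sq v 1)) (da_fo 1 (DT.var 0) 1)

/-- Relations 7, 8, 9 are sets of squares. -/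
theorem npd_run {D : Sq → Prop} (hD : ∀ d, D d → Dg d) :
    NPd (fun N R v => On N (sq v 0) ∧ ∃ L, Run D (sset N R 7) (sset N R 8) (sq v 0) L (sq v 2) ∧
      L.Nodup ∧ ∀ y, y ∈ L ↔ sset N R 9 y) := by
  refine ⟨fun N R C v => On N (sq v 0) ∧ ∃ n, n < N * N + 1 ∧ On N (sq v 2) ∧
    DaM D (sset N R 7) (sset N R 8) (sset N R 9) C N n (sq v 0) (sq v 2), ?_, ?_⟩
  · refine FO.and (da_on 0) ?_
    exact FO.ex (t := fun N _ => N * N + 1) (DT.add (DT.mul DT.size DT.size) (DT.const 1))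
      (Q := fun N R C v => On N (sq v 3) ∧ DaM D (sset N R 7) (sset N R 8) (sset N R 9) C N (v 0)
        (sq v 1) (sq v 3)) (FO.and (da_on 3) (da_matrix hD))
  · intro N R v
    constructor
    · rintro ⟨h1, h2⟩
      obtain ⟨C, n, h3, h4, h5⟩ := (da_iff h1 (fun z hz => hz.1) (fun z hz => hz.1)
        (fun z hz => hz.1)).1 h2
      exact ⟨C, h1, n, h3, h4, h5⟩
    · rintro ⟨C, h1, n, h3, h4, h5⟩
      exact ⟨h1, (da_iff h1 (fun z hz => hz.1) (fun z hz => hz.1)
        (fun z hz => hz.1)).2 ⟨C, n, h3, h4, h5⟩⟩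

end Pool.Agent.CHK
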