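import Mathlib
import Pool.Agent.CHK.DefA

set_option autoImplicit false

/-! Covering captures and good replies are definable. -/

namespace Pool.Agent.CHK

theorem val_bd (N : ℕ) (R : ℕ → List ℕ → Prop) (k : ℕ) : Val N (bd N R k) := by
  intro z hz
  by_contra h
  apply hz
  unfold bd
  rw [if_neg fun h1 => h h1.1]

/-- Runs with definable sets. -/
theorem di_run {D : Sq → Prop} (hD : ∀ d, D d → Dg d)
    {A F S : ℕ → (ℕ → List ℕ → Prop) → (ℕ → ℕ) → Sq → Prop}
    (hA : FO (fun N R _ v => A N R (fun i => v (i + 2)) (sq v 0)))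
    (hF : FO (fun N R _ v => F N R (fun i => v (i + 2)) (sq v 0)))
    (hS : FO (fun N R _ v => S N R (fun i => v (i + 2)) (sq v 0)))
    (oA : ∀ N R v z, A N R v z → On N z) (oF : ∀ N R v z, F N R v z → On N z)
    (oS : ∀ N R v z, S N R v z → On N z)
    (iA : ∀ N R v k X, 7 ≤ k → A N (Function.update R k X) v = A N R v)
    (iF : ∀ N R v k X, 7 ≤ k → F N (Function.update R k X) v = F N R v)
    (iS : ∀ N R v k X, 7 ≤ k → S N (Function.update R k X) v = S N R v) :
    NPd (fun N R v => On N (sq v 0) ∧ ∃ L, Run D (A N R v) (F N R v) (sq v 0) L (sq v 2) ∧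
      L.Nodup ∧ ∀ y, y ∈ L ↔ S N R v y) := by
  have h0 : NPd (fun N R v => (∀ z, On N z → (sset N R 7 z ↔ A N R v z)) ∧
      (∀ z, On N z → (sset N R 8 z ↔ F N R v z)) ∧ (∀ z, On N z → (sset N R 9 z ↔ S N R v z)) ∧
      (On N (sq v 0) ∧ ∃ L, Run D (sset N R 7) (sset N R 8) (sq v 0) L (sq v 2) ∧
      L.Nodup ∧ ∀ y, y ∈ L ↔ sset N R 9 y)) :=
    NPd.and (NPd.fo (da_allS (FO.iff (da_ss 7 0) hA)))
      (NPd.and (NPd.fo (da_allS (FO.iff (da_ss 8 0) hF)))
        (NPd.and (NPd.fo (da_allS (FO.iff (da_ss 9 0) hS))) (npd_run hD)))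
  refine NPd.congr ?_ (NPd.so 7 (NPd.so 8 (NPd.so 9 h0)))
  intro N R v
  constructor
  · intro h
    obtain ⟨X7, e7⟩ := exists_sset (A N R v) (oA N R v) R 7
    obtain ⟨X8, e8⟩ := exists_sset (F N R v) (oF N R v) (Function.update R 7 X7) 8
    obtain ⟨X9, e9⟩ := exists_sset (S N R v) (oS N R v)
      (Function.update (Function.update R 7 X7) 8 X8) 9
    refine ⟨X7, X8, X9, ?_⟩
    have f7 : sset N (Function.update (Function.update (Function.update R 7 X7) 8 X8) 9 X9) 7 =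
        A N R v := by
      rw [sset_update (by norm_num), sset_update (by norm_num), e7]
    have f8 : sset N (Function.update (Function.update (Function.update R 7 X7) 8 X8) 9 X9) 8 =
        F N R v := by
      rw [sset_update (by norm_num), e8]
    refine ⟨fun z _ => ?_, fun z _ => ?_, fun z _ => ?_, ?_⟩
    · rw [f7, iA _ _ _ _ _ (by norm_num), iA _ _ _ _ _ (by norm_num), iA _ _ _ _ _ (by norm_num)]
    · rw [f8, iF _ _ _ _ _ (by norm_num), iF _ _ _ _ _ (by norm_num), iF _ _ _ _ _ (by norm_num)]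
    · rw [e9, iS _ _ _ _ _ (by norm_num), iS _ _ _ _ _ (by norm_num), iS _ _ _ _ _ (by norm_num)]
    · rw [f7, f8, e9]
      exact h
  · rintro ⟨X7, X8, X9, h7, h8, h9, h⟩
    rw [iA _ _ _ _ _ (by norm_num), iA _ _ _ _ _ (by norm_num), iA _ _ _ _ _ (by norm_num)] at h7
    rw [iF _ _ _ _ _ (by norm_num), iF _ _ _ _ _ (by norm_num), iF _ _ _ _ _ (by norm_num)] at h8
    rw [iS _ _ _ _ _ (by norm_num), iS _ _ _ _ _ (by norm_num), iS _ _ _ _ _ (by norm_num)] at h9
    have f7 : sset N (Function.update (Function.update (Function.update R 7 X7) 8 X8) 9 X9) 7 =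
        A N R v := funext fun z => propext
      ⟨fun h1 => (h7 z h1.1).1 h1, fun h1 => (h7 z (oA _ _ _ _ h1)).2 h1⟩
    have f8 : sset N (Function.update (Function.update (Function.update R 7 X7) 8 X8) 9 X9) 8 =
        F N R v := funext fun z => propext
      ⟨fun h1 => (h8 z h1.1).1 h1, fun h1 => (h8 z (oF _ _ _ _ h1)).2 h1⟩
    have f9 : sset N (Function.update (Function.update (Function.update R 7 X7) 8 X8) 9 X9) 9 =
        S N R v := funext fun z => propext
      ⟨fun h1 => (h9 z h1.1).1 h1, fun h1 => (h9 z (oS _ _ _ _ h1)).2 h1⟩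
    rw [f7, f8, f9] at h
    exact h

theorem di_bd {N : ℕ} {R : ℕ → List ℕ → Prop} {k j : ℕ} (X : List ℕ → Prop) (h : 7 ≤ k)
    (hj : j < 7) : bd N (Function.update R k X) j = bd N R j :=
  bd_update (by omega) X

theorem di_bdeq (k i : ℕ) (o : Option Piece) : FO (fun N R _ v => bd N R k (sq v i) = o) :=
  FO.congr (fun _ _ _ v => by rw [add_zero]) (FO.bd_eq k i 0 o)

theorem di_col_iff {B : Board} {c : Bool} {z : Sq} :
    Col B c z ↔ B z = some ⟨c, false⟩ ∨ B z = some ⟨c, true⟩ := by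
  constructor
  · rintro ⟨⟨w, g⟩, h1, h2⟩
    simp only at h2
    subst h2
    cases g
    · exact Or.inl h1
    · exact Or.inr h1
  · rintro (h | h)
    · exact ⟨_, h, rfl⟩
    · exact ⟨_, h, rfl⟩

theorem di_col (k i : ℕ) (d : Sq) (c : Bool) :
    FO (fun N R _ v => Col (bd N R k) c (sq v i + d)) :=
  FO.congr (fun _ _ _ _ => di_col_iff) (FO.or (FO.bd_eq k i d _) (FO.bd_eq k i d _))

theorem di_col0 (k i : ℕ) (c : Bool) : FO (fun N R _ v => Col (bd N R k) c (sq v i)) :=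
  FO.congr (fun _ _ _ v => by rw [add_zero]) (di_col k i 0 c)

/-- `BlT` for the squares `s = sq v j`, `t = sq v l` and `y = sq v i + d`. -/
theorem di_blt (k i j l : ℕ) (d : Sq) :
    FO (fun N R _ v => BlT (bd N R k) (sq v j) (sq v l) (sq v i + d)) := by
  have h1 : FO (fun _ _ _ v => sq v i + d = sq v j) := by
    refine FO.congr ?_ (FO.sq_eq i j (-d))
    intro N R C v
    constructor
    · intro h; rw [← h]; abel
    · intro h; rw [h]; abel
  have h2 : FO (fun _ _ _ v => sq v i + d = sq v l) := by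
    refine FO.congr ?_ (FO.sq_eq i l (-d))
    intro N R C v
    constructor
    · intro h; rw [← h]; abel
    · intro h; rw [h]; abel
  exact FO.or (FO.and (di_col k i d false) (FO.not h1)) h2

theorem di_blt0 (k i j l : ℕ) :
    FO (fun N R _ v => BlT (bd N R k) (sq v j) (sq v l) (sq v i)) :=
  FO.congr (fun _ _ _ v => by rw [add_zero]) (di_blt k i j l 0)

theorem di_blt_on {N : ℕ} {R : ℕ → List ℕ → Prop} {k : ℕ} {s t y : Sq} (ht : On N t)
    (h : BlT (bd N R k) s t y) : On N y := by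
  rcases h with ⟨⟨P, h1, -⟩, -⟩ | rfl
  · exact val_bd N R k y (by rw [h1]; simp)
  · exact ht

theorem di_run_mem {D A F : Sq → Prop} (L : List Sq) : ∀ {z z' : Sq}, Run D A F z L z' →
    ∀ e ∈ L, A e := by
  induction L with
  | nil => intro z z' _ e he; simp at he
  | cons a L ih =>
    rintro z z' ⟨d, -, -, hA, -, hr⟩ e he
    rcases List.mem_cons.1 he with rfl | he
    · exact hA
    · exact ih hr e he

theorem di_run_end {D A F : Sq → Prop} (L : List Sq) : ∀ {z z' : Sq}, Run D A F z L z' →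
    z' = z ∨ F z' := by
  induction L with
  | nil => intro z z' h; exact Or.inl h.symm
  | cons a L ih =>
    rintro z z' ⟨d, -, -, -, hF, hr⟩
    rcases ih hr with h | h
    · rw [h]; exact Or.inr hF
    · exact Or.inr h

/-- Covering captures of a white piece. -/
theorem di_cov (g : Bool) : NPd (fun N R v => On N (sq v 0) ∧ On N (sq v 2) ∧ On N (sq v 4) ∧
    Cov N ⟨true, g⟩ (sq v 4) (BlT (bd N R 2) (sq v 0) (sq v 2))) := by
  have h1 := di_run (D := Dir ⟨true, g⟩)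
    (fun d hd => ⟨hd.1, by
      rcases hd.2 with h | ⟨-, h⟩
      · left; rw [h]; rfl
      · right; rw [h]; rfl⟩)
    (A := fun N R v y => On N y ∧ BlT (bd N R 2) (sq v 4) (sq v 6) y)
    (F := fun N _ _ y => On N y)
    (S := fun N R v y => On N y ∧ BlT (bd N R 2) (sq v 4) (sq v 6) y)
    (FO.and (da_on 0) (di_blt0 2 0 6 8)) (da_on 0) (FO.and (da_on 0) (di_blt0 2 0 6 8))
    (fun _ _ _ _ h => h.1) (fun _ _ _ _ h => h) (fun _ _ _ _ h => h.1)
    (fun N R v k X hk => by rw [di_bd X hk (by norm_num)])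
    (fun N R v k X hk => rfl)
    (fun N R v k X hk => by rw [di_bd X hk (by norm_num)])
  have h2 := NPd.sub (fun i _ v => match i with
    | 0 => v 6
    | 1 => v 7
    | 2 => v 0
    | 3 => v 1
    | 4 => v 2
    | 5 => v 3
    | 6 => v 4
    | 7 => v 5
    | _ => v 0) (by
      intro i
      match i with
      | 0 => exact DT.var _
      | 1 => exact DT.var _
      | 2 => exact DT.var _
      | 3 => exact DT.var _
      | 4 => exact DT.var _
      | 5 => exact DT.var _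
      | 6 => exact DT.var _
      | 7 => exact DT.var _
      | _ + 8 => exact DT.var _) h1
  have h3 := da_nexS (A := fun N R v z => On N (sq v 4) ∧ ∃ L, Run (Dir ⟨true, g⟩)
      (fun y => On N y ∧ BlT (bd N R 2) (sq v 0) (sq v 2) y) (fun y => On N y) (sq v 4) L z ∧
      L.Nodup ∧ ∀ y, y ∈ L ↔ On N y ∧ BlT (bd N R 2) (sq v 0) (sq v 2) y) h2
  refine NPd.congr ?_ (NPd.and (NPd.fo (da_on 0)) (NPd.and (NPd.fo (da_on 2))
    (NPd.and (NPd.fo (da_on 4)) h3)))
  intro N R v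
  constructor
  · rintro ⟨a1, a2, a3, L, t', hr, hn, hm⟩
    have hb : (fun y => On N y ∧ BlT (bd N R 2) (sq v 0) (sq v 2) y) =
        BlT (bd N R 2) (sq v 0) (sq v 2) :=
      funext fun y => propext ⟨fun h => h.2, fun h => ⟨di_blt_on a2 h, h⟩⟩
    refine ⟨a1, a2, a3, t', ?_, a3, L, ?_, hn, ?_⟩
    · rcases di_run_end L hr with h | h
      · rw [h]; exact a3
      · exact h
    · rw [hb]; exact hr
    · intro y
      exact ⟨fun h => ⟨di_blt_on a2 (di_run_mem L hr y h), di_run_mem L hr y h⟩, fun h => hm y h.2⟩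
  · rintro ⟨a1, a2, a3, t', -, -, L, hr, hn, hm⟩
    have hb : (fun y => On N y ∧ BlT (bd N R 2) (sq v 0) (sq v 2) y) =
        BlT (bd N R 2) (sq v 0) (sq v 2) :=
      funext fun y => propext ⟨fun h => h.2, fun h => ⟨di_blt_on a2 h, h⟩⟩
    rw [hb] at hr
    exact ⟨a1, a2, a3, L, t', hr, hn, fun y hy => (hm y).2 ⟨di_blt_on a2 hy, hy⟩⟩

theorem npd_gk (k : ℤ) : NPd (fun N R v => On N (sq v 0) ∧ On N (sq v 2) ∧
    GK N (bd N R 2) (sq v 0) (sq v 2) k (sq v 4)) := by
  have h : ∀ g : Bool, NPd (fun N R v => (bd N R 2 (sq v 4) = some ⟨true, g⟩ ∧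
      Opp (sq v 0) k (sq v 4)) ∧ (On N (sq v 0) ∧ On N (sq v 2) ∧ On N (sq v 4) ∧
      Cov N ⟨true, g⟩ (sq v 4) (BlT (bd N R 2) (sq v 0) (sq v 2)))) := fun g =>
    NPd.and (NPd.fo (FO.and (di_bdeq 2 4 _)
      (FO.congr (fun _ _ _ v => by rw [add_zero]) (FO.opp 0 4 0 k)))) (di_cov g)
  refine NPd.congr ?_ (NPd.or (h false) (h true))
  intro N R v
  constructor
  · rintro ⟨a1, a2, ⟨w, g⟩, h1, h2, h3, h4⟩
    simp only at h2
    subst h2
    have a3 : On N (sq v 4) := val_bd N R 2 _ (by rw [h1]; simp)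
    cases g
    · exact Or.inl ⟨⟨h1, h3⟩, a1, a2, a3, h4⟩
    · exact Or.inr ⟨⟨h1, h3⟩, a1, a2, a3, h4⟩
  · rintro (⟨⟨h1, h3⟩, a1, a2, a3, h4⟩ | ⟨⟨h1, h3⟩, a1, a2, a3, h4⟩)
    · exact ⟨a1, a2, _, h1, rfl, h3, h4⟩
    · exact ⟨a1, a2, _, h1, rfl, h3, h4⟩

/-- Here relation 3 is the captured set. -/
theorem npd_goodR : NPd (fun N R v => On N (sq v 0) ∧ On N (sq v 2) ∧
    GoodR N (bd N R 2) (sq v 0) (sq v 2) (sset N R 3)) := by
  have h : ∀ g : Bool, NPd (fun N R v => ∃ w, On N w ∧ ((bd N R 2 w = some ⟨true, g⟩ ∧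
      ¬ sset N R 3 w ∧ ∀ z, On N z → Col (bd N R 2) true z → (Cls w z ∧ ∃ d, Dg d ∧
        BlT (bd N R 2) (sq v 0) (sq v 2) (z + d)) → z ≠ w → sset N R 3 z) ∧
      (On N (sq v 0) ∧ On N (sq v 2) ∧ On N w ∧
      Cov N ⟨true, g⟩ w (BlT (bd N R 2) (sq v 0) (sq v 2))))) := by
    intro g
    have h2 := NPd.sub (fun i _ v => match i with
      | 0 => v 2
      | 1 => v 3
      | 2 => v 4
      | 3 => v 5
      | 4 => v 0
      | 5 => v 1
      | _ => v 0) (by
        intro i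
        match i with
        | 0 => exact DT.var _
        | 1 => exact DT.var _
        | 2 => exact DT.var _
        | 3 => exact DT.var _
        | 4 => exact DT.var _
        | 5 => exact DT.var _
        | _ + 6 => exact DT.var _) (di_cov g)
    refine da_nexS (NPd.and (NPd.fo (FO.and (di_bdeq 2 0 _) (FO.and (FO.not (da_ss 3 0))
      (da_allS (FO.imp (di_col0 2 0 true) (FO.imp (FO.and ?_ ?_) (FO.imp ?_ (da_ss 3 0)))))))) h2)
    · exact FO.congr (fun _ _ _ v => by rw [add_zero]; exact Iff.rfl) (FO.cls 2 0 0)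
    · exact FO.exDg (Q := fun d N R _ v => BlT (bd N R 2) (sq v 4) (sq v 6) (sq v 0 + d))
        fun d _ => di_blt 2 0 4 6 d
    · exact FO.not (da_sqeq 0 2)
  refine NPd.congr ?_ (NPd.or (h false) (h true))
  intro N R v
  constructor
  · rintro ⟨a1, a2, w, ⟨c, g⟩, h1, h2, h3, h4, h5⟩
    simp only at h2
    subst h2
    have a3 : On N w := val_bd N R 2 _ (by rw [h1]; simp)
    have h6 : ∀ z, On N z → Col (bd N R 2) true z → (Cls w z ∧ ∃ d, Dg d ∧
        BlT (bd N R 2) (sq v 0) (sq v 2) (z + d)) → z ≠ w → sset N R 3 z :=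
      fun z _ b1 b2 b3 => h5 z b1 b2 b3
    cases g
    · exact Or.inl ⟨w, a3, ⟨h1, h3, h6⟩, a1, a2, a3, h4⟩
    · exact Or.inr ⟨w, a3, ⟨h1, h3, h6⟩, a1, a2, a3, h4⟩
  · have h7 : ∀ z, Col (bd N R 2) true z → On N z := by
      rintro z ⟨P, h1, -⟩
      exact val_bd N R 2 z (by rw [h1]; simp)
    rintro (⟨w, a3, ⟨h1, h3, h6⟩, a1, a2, -, h4⟩ | ⟨w, a3, ⟨h1, h3, h6⟩, a1, a2, -, h4⟩)
    · exact ⟨a1, a2, w, _, h1, rfl, h3, h4, fun z b1 b2 b3 => h6 z (h7 z b1) b1 b2 b3⟩
    · exact ⟨a1, a2, w, _, h1, rfl, h3, h4, fun z b1 b2 b3 => h6 z (h7 z b1) b1 b2 b3⟩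

end Pool.Agent.CHK
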