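import Pool.Agent.CHK.SodC
import Pool.Agent.CHK.Play

set_option autoImplicit false

namespace Pool.Agent.CHK

/-! ### Tools -/

section tools

variable {Q : ℕ → (ℕ → List ℕ → Prop) → (List ℕ → Prop) → (ℕ → ℕ) → Prop}

theorem db_ex_piece {A : Piece → Prop} : (∃ P, A P) ↔
    A ⟨true, true⟩ ∨ A ⟨true, false⟩ ∨ A ⟨false, true⟩ ∨ A ⟨false, false⟩ := by
  constructor
  · rintro ⟨⟨w, k⟩, h⟩
    cases w <;> cases k <;> simp [h]
  · rintro (h | h | h | h) <;> exact ⟨_, h⟩

theorem db_all_piece {A : Piece → Prop} : (∀ P, A P) ↔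
    A ⟨true, true⟩ ∧ A ⟨true, false⟩ ∧ A ⟨false, true⟩ ∧ A ⟨false, false⟩ := by
  constructor
  · intro h
    exact ⟨h _, h _, h _, h _⟩
  · rintro ⟨h1, h2, h3, h4⟩ ⟨w, k⟩
    cases w <;> cases k <;> assumption

theorem db_exP {Q : Piece → ℕ → (ℕ → List ℕ → Prop) → (List ℕ → Prop) → (ℕ → ℕ) → Prop}
    (h : ∀ P, FO (Q P)) : FO (fun N R C v => ∃ P, Q P N R C v) :=
  FO.congr (fun _ _ _ _ => db_ex_piece) ((h _).or ((h _).or ((h _).or (h _))))

theorem db_allP {Q : Piece → ℕ → (ℕ → List ℕ → Prop) → (List ℕ → Prop) → (ℕ → ℕ) → Prop}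
    (h : ∀ P, FO (Q P)) : FO (fun N R C v => ∀ P, Q P N R C v) :=
  FO.congr (fun _ _ _ _ => db_all_piece) ((h _).and ((h _).and ((h _).and (h _))))

theorem db_nexP {P : Piece → ℕ → (ℕ → List ℕ → Prop) → (ℕ → ℕ) → Prop}
    (h : ∀ X, NPd (P X)) : NPd (fun N R v => ∃ X, P X N R v) :=
  NPd.congr (fun _ _ _ => db_ex_piece) ((h _).or ((h _).or ((h _).or (h _))))

theorem db_nallP {P : Piece → ℕ → (ℕ → List ℕ → Prop) → (ℕ → ℕ) → Prop}
    (h : ∀ X, NPd (P X)) : NPd (fun N R v => ∀ X, P X N R v) :=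
  NPd.congr (fun _ _ _ => db_all_piece) ((h _).and ((h _).and ((h _).and (h _))))

/-- Existential quantifier over the squares of the board. -/
theorem db_exS {Q : ℕ → (ℕ → List ℕ → Prop) → (List ℕ → Prop) → (ℕ → ℕ) → Sq → Prop}
    (h : FO (fun N R C v => Q N R C (fun i => v (i + 2)) (sq v 0))) :
    FO (fun N R C v => ∃ z, On N z ∧ Q N R C v z) := by
  have h1 : FO (fun N R C v => On N (sq v 0) ∧ Q N R C (fun i => v (i + 2)) (sq v 0)) := by
    refine FO.and ?_ h
    simpa using FO.on 0 0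
  refine FO.congr ?_ (FO.exSq h1)
  intro N R C v
  rw [ex_on (fun z hz => hz.1)]
  rfl

theorem db_allS {Q : ℕ → (ℕ → List ℕ → Prop) → (List ℕ → Prop) → (ℕ → ℕ) → Sq → Prop}
    (h : FO (fun N R C v => Q N R C (fun i => v (i + 2)) (sq v 0))) :
    FO (fun N R C v => ∀ z, On N z → Q N R C v z) := by
  refine FO.congr ?_ (FO.not (db_exS (Q := fun N R C v z => ¬ Q N R C v z) (FO.not h)))
  intro N R C v
  push Not
  rfl

theorem db_nexS {P : ℕ → (ℕ → List ℕ → Prop) → (ℕ → ℕ) → Sq → Prop}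
    (h : NPd (fun N R v => P N R (fun i => v (i + 2)) (sq v 0))) :
    NPd (fun N R v => ∃ z, On N z ∧ P N R v z) := by
  have h1 : NPd (fun N R v => On N (sq v 0) ∧ P N R (fun i => v (i + 2)) (sq v 0)) := by
    refine NPd.and (NPd.fo ?_) h
    simpa using FO.on 0 0
  refine NPd.congr ?_ (NPd.exSq h1)
  intro N R v
  rw [ex_on (fun z hz => hz.1)]
  rfl

theorem db_nallS {P : ℕ → (ℕ → List ℕ → Prop) → (ℕ → ℕ) → Sq → Prop}
    (h : NPd (fun N R v => P N R (fun i => v (i + 2)) (sq v 0))) :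
    NPd (fun N R v => ∀ z, On N z → P N R v z) := by
  have h1 : NPd (fun N R v => On N (sq v 0) → P N R (fun i => v (i + 2)) (sq v 0)) := by
    refine NPd.imp ?_ h
    simpa using FO.on 0 0
  refine NPd.congr ?_ (NPd.allSq h1)
  intro N R v
  rw [all_on (fun z hz => by
    by_contra hno
    exact hz (fun h => absurd h hno))]
  rfl

theorem db_bd (k i : ℕ) (o : Option Piece) : FO (fun N R _ v => bd N R k (sq v i) = o) := by
  simpa using FO.bd_eq k i 0 o

theorem db_on (i : ℕ) : FO (fun N _ _ v => On N (sq v i)) := by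
  simpa using FO.on i 0

theorem db_ss (k i : ℕ) : FO (fun N R _ v => sset N R k (sq v i)) := by
  simpa using FO.sset_mem k i 0

theorem db_eq (i j : ℕ) : FO (fun _ _ _ v => sq v i = sq v j) := by
  simpa using FO.sq_eq i j 0

theorem db_col (k i : ℕ) (d : Sq) (c : Bool) :
    FO (fun N R _ v => Col (bd N R k) c (sq v i + d)) :=
  db_exP fun P => (FO.bd_eq k i d (some P)).and (FO.prop _)

theorem db_col0 (k i : ℕ) (c : Bool) : FO (fun N R _ v => Col (bd N R k) c (sq v i)) := by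
  simpa using db_col k i 0 c

theorem db_fre (k i j : ℕ) (d : Sq) :
    FO (fun N R _ v => Fre N (bd N R k) (sq v i) (sq v j + d)) := by
  refine (FO.on j d).and ((FO.bd_eq k j d none).or ?_)
  exact FO.congr (fun _ _ _ _ => eq_comm) (FO.sq_eq i j d)

theorem db_fre0 (k i j : ℕ) : FO (fun N R _ v => Fre N (bd N R k) (sq v i) (sq v j)) := by
  simpa using db_fre k i j 0

theorem db_far (i : ℕ) (w : Bool) : FO (fun N _ _ v => (sq v i).2 = far N w) := by
  cases w
  · refine FO.congr ?_ (FO.eq (DT.var (i + 1)) (DT.const 0))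
    intro N R C v
    simp [sq, far]
  · refine FO.congr ?_ (FO.eq (DT.add (DT.var (i + 1)) (DT.const 1)) DT.size)
    intro N R C v
    simp only [sq, far, if_true]
    omega

theorem db_arrive (k i j : ℕ) (P : Piece) :
    FO (fun N R _ v => bd N R k (sq v i) = some (arrive N P (sq v j))) := by
  refine FO.congr ?_ (((db_far j P.white).imp (db_bd k i (some ⟨P.white, true⟩))).and
    ((db_far j P.white).not.imp (db_bd k i (some P))))
  intro N R C v
  unfold arrive
  by_cases h : (sq v j).2 = far N P.white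
  · simp [h]
  · simp [h]

theorem db_arrive_ne (j : ℕ) (P : Piece) :
    FO (fun N _ _ v => arrive N P (sq v j) ≠ P) := by
  refine FO.congr ?_ ((db_far j P.white).and (FO.prop ((⟨P.white, true⟩ : Piece) ≠ P)))
  intro N R C v
  unfold arrive
  by_cases h : (sq v j).2 = far N P.white
  · simp [h]
  · simp [h]

theorem db_val (N : ℕ) (R : ℕ → List ℕ → Prop) (k : ℕ) : Val N (bd N R k) := by
  intro z hz
  by_contra hno
  apply hz
  unfold bd
  rw [if_neg (fun h => hno h.1)]

end tools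


end Pool.Agent.CHK
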