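import Pool.Agent.CHK.PlayA
import Pool.Agent.CHK.DefA
import Pool.Agent.CHK.DefI
import Pool.Agent.CHK.DefT

set_option autoImplicit false

namespace Pool.Agent.CHK

/-! ### The result of a move -/

/-- The content of the square `y` of the board `B'` after the move is right. -/
def dbRes (N : ℕ) (B B' : Board) (s t : Sq) (P : Piece) (S : Sq → Prop) (y : Sq) : Prop :=
  (S y → B' y = none) ∧ (¬ S y → y = t → B' y = some (arrive N P t)) ∧
    (¬ S y → ¬ y = t → y = s → B' y = none) ∧
    (¬ S y → ¬ y = t → ¬ y = s → ∀ Q, B' y = some Q ↔ B y = some Q)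

theorem db_opt {o o' : Option Piece} : (∀ Q, o = some Q ↔ o' = some Q) ↔ o = o' := by
  constructor
  · intro h
    cases o with
    | none =>
      cases o' with
      | none => rfl
      | some P => exact ((h P).mpr rfl)
    | some P => exact ((h P).mp rfl).symm
  · rintro rfl Q
    rfl

theorem dbRes_iff {N : ℕ} {B B' : Board} {s t : Sq} {P : Piece} {S : Sq → Prop}
    (hs : B s = some P) (hB : Val N B) (hB' : Val N B') (hS : ∀ y, S y → On N y)
    (ht : On N t) : B' = res N B s S t ↔ ∀ y, On N y → dbRes N B B' s t P S y := by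
  have key : ∀ y, dbRes N B B' s t P S y ↔ B' y = res N B s S t y := by
    intro y
    unfold dbRes res
    rw [db_opt]
    by_cases h1 : S y
    · simp [h1]
    · by_cases h2 : y = t
      · subst h2
        simp [h1, hs]
      · by_cases h3 : y = s
        · subst h3
          simp [h1, h2]
        · simp [h1, h2, h3]
  constructor
  · intro h y _
    rw [key, h]
  · intro h
    funext y
    by_cases hy : On N y
    · exact (key y).mp (h y hy)
    · have h1 : B' y = none := by
        by_contra hno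
        exact hy (hB' y hno)
      have h2 : B y = none := by
        by_contra hno
        exact hy (hB y hno)
      rw [h1]
      unfold res
      have h3 : y ≠ t := by
        rintro rfl
        exact hy ht
      rw [if_neg (fun h => hy (hS y h)), if_neg h3, h2]
      simp

/-- Variables: `y, t, s`. -/
theorem db_res (P : Piece) {S : ℕ → (ℕ → List ℕ → Prop) → Sq → Prop}
    (hS : FO (fun N R _ v => S N R (sq v 0))) :
    FO (fun N R _ v => dbRes N (bd N R 0) (bd N R 2) (sq v 4) (sq v 2) P (S N R) (sq v 0)) := by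
  unfold dbRes
  refine FO.and (hS.imp (db_bd 2 0 none)) (FO.and ?_ (FO.and ?_ ?_))
  · exact hS.not.imp ((db_eq 0 2).imp (db_arrive 2 0 2 P))
  · exact hS.not.imp ((db_eq 0 2).not.imp ((db_eq 0 4).imp (db_bd 2 0 none)))
  · exact hS.not.imp ((db_eq 0 2).not.imp ((db_eq 0 4).not.imp
      (db_allP fun Q => (db_bd 2 0 (some Q)).iff (db_bd 0 0 (some Q)))))

/-! ### Runs -/

theorem db_run {D : Sq → Prop} (hD : ∀ d, D d → Dg d) (j : ℕ) (hj : j < 7) (c : Bool) :
    NPd (fun N R v => On N (sq v 0) ∧ ∃ L, Run D (Col (bd N R j) c)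
      (Fre N (bd N R j) (sq v 0)) (sq v 0) L (sq v 2) ∧ L.Nodup ∧ ∀ y, y ∈ L ↔ sset N R 9 y) := by
  have hA : FO (fun N R _ v => ∀ z, On N z → (sset N R 7 z ↔ Col (bd N R j) c z)) :=
    db_allS (Q := fun N R _ _ z => sset N R 7 z ↔ Col (bd N R j) c z)
      ((db_ss 7 0).iff (db_col0 j 0 c))
  have hF : FO (fun N R _ v => ∀ z, On N z → (sset N R 8 z ↔ Fre N (bd N R j) (sq v 0) z)) :=
    db_allS (Q := fun N R _ v z => sset N R 8 z ↔ Fre N (bd N R j) (sq v 0) z)
      ((db_ss 8 0).iff (db_fre0 j 2 0))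
  refine NPd.congr ?_ (NPd.so 7 (NPd.so 8 (NPd.and (NPd.and (NPd.fo hA) (NPd.fo hF))
    (npd_run hD))))
  intro N R v
  constructor
  · rintro ⟨h0, L, hL, hn, hy⟩
    obtain ⟨X, hX⟩ := exists_sset (N := N) (Col (bd N R j) c) (fun z hz => by
      obtain ⟨P, hP, -⟩ := hz
      exact db_val N R j z (by rw [hP]; simp)) R 7
    obtain ⟨X', hX'⟩ := exists_sset (N := N) (Fre N (bd N R j) (sq v 0)) (fun z hz => hz.1)
      (Function.update R 7 X) 8
    have e0 : bd N (Function.update (Function.update R 7 X) 8 X') j = bd N R j := by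
      rw [bd_update (by omega), bd_update (by omega)]
    have e7 : sset N (Function.update (Function.update R 7 X) 8 X') 7 = Col (bd N R j) c := by
      rw [sset_update (by omega), hX]
    have e9 : sset N (Function.update (Function.update R 7 X) 8 X') 9 = sset N R 9 := by
      rw [sset_update (by omega), sset_update (by omega)]
    refine ⟨X, X', ⟨?_, ?_⟩, h0, L, ?_, hn, ?_⟩
    · intro z _
      rw [e7, e0]
    · intro z _
      rw [hX', e0]
    · rw [e7, hX']
      exact hL
    · rw [e9]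
      exact hy
  · rintro ⟨X, X', ⟨h7, h8⟩, h0, L, hL, hn, hy⟩
    have e0 : bd N (Function.update (Function.update R 7 X) 8 X') j = bd N R j := by
      rw [bd_update (by omega), bd_update (by omega)]
    have e9 : sset N (Function.update (Function.update R 7 X) 8 X') 9 = sset N R 9 := by
      rw [sset_update (by omega), sset_update (by omega)]
    rw [e0] at h7 h8
    have e7 : sset N (Function.update (Function.update R 7 X) 8 X') 7 = Col (bd N R j) c := by
      funext z
      by_cases hz : On N z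
      · exact propext (h7 z hz)
      · refine propext ⟨fun h => absurd h.1 hz, fun h => ?_⟩
        obtain ⟨P, hP, -⟩ := h
        exact absurd (db_val N R j z (by rw [hP]; simp)) hz
    have e8 : sset N (Function.update (Function.update R 7 X) 8 X') 8 =
        Fre N (bd N R j) (sq v 0) := by
      funext z
      by_cases hz : On N z
      · exact propext (h8 z hz)
      · exact propext ⟨fun h => absurd h.1 hz, fun h => absurd h.1 hz⟩
    rw [e7, e8] at hL
    rw [e9] at hy
    exact ⟨h0, L, hL, hn, hy⟩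

/-- The substitution which exchanges the first two squares. -/
def dbSwap : ℕ → ℕ → (ℕ → ℕ) → ℕ
  | 0 => fun _ v => v 2
  | 1 => fun _ v => v 3
  | 2 => fun _ v => v 0
  | 3 => fun _ v => v 1
  | i + 4 => fun _ v => v (i + 4)

theorem dbSwap_dt (i : ℕ) : DT (dbSwap i) := by
  rcases i with _ | _ | _ | _ | i
  · exact DT.var 2
  · exact DT.var 3
  · exact DT.var 0
  · exact DT.var 1
  · exact DT.var (i + 4)

/-- Captures as definable predicates; variables `t, s`; relation 9 is the captured set. -/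
def dbCap (N : ℕ) (B B' : Board) (P : Piece) (S : Sq → Prop) (s t : Sq) : Prop :=
  (∃ y, On N y ∧ S y) ∧
    (On N s ∧ ∃ L, Run (Dir P) (Col B false) (Fre N B s) s L t ∧ L.Nodup ∧ ∀ y, y ∈ L ↔ S y) ∧
    (arrive N P t ≠ P ∨ ∀ d, Dg d → (Dir P d → Col B false (t + d) → Fre N B s (t + (d + d)) →
      S (t + d))) ∧
    ∀ y, On N y → dbRes N B B' s t P S y

theorem npd_dbCap (P : Piece) : NPd (fun N R v => dbCap N (bd N R 0) (bd N R 2) P (sset N R 9)
    (sq v 2) (sq v 0)) := by
  unfold dbCap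
  refine NPd.and (NPd.fo (db_exS (Q := fun N R _ _ z => sset N R 9 z) (db_ss 9 0)))
    (NPd.and ?_ (NPd.and (NPd.fo ?_) (NPd.fo ?_)))
  · exact NPd.sub dbSwap dbSwap_dt (db_run (D := Dir P) (fun d hd => dir_dg hd) 0 (by omega) false)
  · refine (db_arrive_ne 0 P).or (FO.allDg fun d _ => ?_)
    exact (FO.prop (Dir P d)).imp ((db_col 0 0 d false).imp ((db_fre 0 2 0 (d + d)).imp
      (FO.sset_mem 9 0 d)))
  · exact db_allS (Q := fun N R _ v y => dbRes N (bd N R 0) (bd N R 2) (sq v 2) (sq v 0) P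
      (sset N R 9) y) (db_res P (S := fun N R z => sset N R 9 z) (db_ss 9 0))

theorem db_mem_on {D A F : Sq → Prop} {N : ℕ} (hA : ∀ z, A z → On N z) {L : List Sq} {z z' : Sq}
    (h : Run D A F z L z') : ∀ y ∈ L, On N y := by
  induction L generalizing z with
  | nil => intro y hy; exact absurd hy List.not_mem_nil
  | cons e L ih =>
    obtain ⟨d, -, -, he, -, hr⟩ := h
    intro y hy
    rcases List.mem_cons.mp hy with rfl | hy
    · exact hA _ he
    · exact ih hr y hy

theorem db_end {D A F : Sq → Prop} {L : List Sq} {z z' : Sq}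
    (h : Run D A F z L z') (hL : L ≠ []) : F z' := by
  induction L generalizing z with
  | nil => exact absurd rfl hL
  | cons e L ih =>
    obtain ⟨d, -, -, he, hF, hr⟩ := h
    cases L with
    | nil =>
      have h : e + d = z' := hr
      exact h ▸ hF
    | cons e' L' => exact ih hr (by simp)

theorem db_capture {N : ℕ} {B B' : Board} (hB : Val N B) (hB' : Val N B') {s : Sq} {P : Piece}
    (hP : B s = some P) (hw : P.white = true) :
    Capture N true B s B' ↔ ∃ S : Sq → Prop, (∀ y, S y → On N y) ∧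
      ∃ t, On N t ∧ dbCap N B B' P S s t := by
  have hcol : ∀ z, Col B false z → On N z := by
    rintro z ⟨Q, hQ, -⟩
    exact hB z (by rw [hQ]; simp)
  have hs : On N s := hB s (by rw [hP]; simp)
  rw [capture_iff hB hP, hw]
  simp only [Bool.not_true]
  constructor
  · rintro ⟨L, t, hne, hL, hn, hm, hr⟩
    have hmem : ∀ y, y ∈ L → On N y := db_mem_on hcol hL
    have ht : On N t := (db_end hL hne).1
    refine ⟨(· ∈ L), hmem, t, ht, ?_, ⟨hs, L, hL, hn, fun y => Iff.rfl⟩, ?_, ?_⟩
    · obtain ⟨y, hy⟩ := List.exists_mem_of_ne_nil L hne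
      exact ⟨y, hmem y hy, hy⟩
    · rcases hm with hm | hm
      · exact Or.inl hm
      · right
        intro d _ hd h1 h2
        rw [← add_assoc] at h2
        exact hm d hd h1 h2
    · exact (dbRes_iff hP hB hB' hmem ht).mp hr
  · rintro ⟨S, hS, t, ht, ⟨y, hy, hyS⟩, ⟨-, L, hL, hn, hm⟩, hd, hr⟩
    have hSL : S = (· ∈ L) := by
      funext y
      exact propext (hm y).symm
    subst hSL
    refine ⟨L, t, ?_, hL, hn, ?_, (dbRes_iff hP hB hB' hS ht).mpr hr⟩
    · rintro rfl
      exact List.not_mem_nil hyS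
    · rcases hd with hd | hd
      · exact Or.inl hd
      · right
        intro d h0 h1 h2
        rw [add_assoc] at h2
        exact hd d (dir_dg h0) h0 h1 h2

/-- Simple moves of White and the condition that White has no jump. -/
def dbStep (N : ℕ) (B B' : Board) : Prop :=
  (¬ ∃ z, On N z ∧ ∃ P, (B z = some P ∧ P.white = true) ∧ ∃ d, Dg d ∧ (Dir P d ∧
    Col B false (z + d) ∧ On N (z + (d + d)) ∧ B (z + (d + d)) = none)) ∧
  ∃ z, On N z ∧ ∃ P, (B z = some P ∧ P.white = true) ∧ ∃ z', On N z' ∧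
    ((∃ d, Dg d ∧ (Dir P d ∧ z' = z + d ∧ B z' = none)) ∧
      ∀ y, On N y → dbRes N B B' z z' P (fun _ => False) y)

theorem fo_dbStep : FO (fun N R _ _ => dbStep N (bd N R 0) (bd N R 2)) := by
  unfold dbStep
  refine FO.and (FO.not ?_) ?_
  · refine db_exS (Q := fun N R _ _ z => ∃ P, (bd N R 0 z = some P ∧ P.white = true) ∧ ∃ d, Dg d ∧
      (Dir P d ∧ Col (bd N R 0) false (z + d) ∧ On N (z + (d + d)) ∧
        bd N R 0 (z + (d + d)) = none)) ?_
    refine db_exP fun P => ((db_bd 0 0 (some P)).and (FO.prop _)).and (FO.exDg fun d _ => ?_)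
    exact (FO.prop _).and ((db_col 0 0 d false).and ((FO.on 0 (d + d)).and
      (FO.bd_eq 0 0 (d + d) none)))
  · refine db_exS (Q := fun N R _ _ z => ∃ P, (bd N R 0 z = some P ∧ P.white = true) ∧ ∃ z', On N z' ∧
      ((∃ d, Dg d ∧ (Dir P d ∧ z' = z + d ∧ bd N R 0 z' = none)) ∧
        ∀ y, On N y → dbRes N (bd N R 0) (bd N R 2) z z' P (fun _ => False) y)) ?_
    refine db_exP fun P => ((db_bd 0 0 (some P)).and (FO.prop _)).and ?_
    refine db_exS (Q := fun N R _ v z' => ((∃ d, Dg d ∧ (Dir P d ∧ z' = sq v 0 + d ∧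
      bd N R 0 z' = none)) ∧
        ∀ y, On N y → dbRes N (bd N R 0) (bd N R 2) (sq v 0) z' P (fun _ => False) y)) ?_
    refine FO.and (FO.exDg fun d _ => (FO.prop _).and ((FO.sq_eq 0 2 d).and (db_bd 0 0 none))) ?_
    exact db_allS (Q := fun N R _ v y => dbRes N (bd N R 0) (bd N R 2) (sq v 2) (sq v 0) P
      (fun _ => False) y) (db_res P (S := fun _ _ _ => False) (FO.prop False))

theorem db_jump {N : ℕ} {B : Board} {z : Sq} {P : Piece} (hP : B z = some P)
    (hw : P.white = true) : (∃ z' B₁, Jump N B z z' B₁) ↔ ∃ d, Dg d ∧ (Dir P d ∧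
      Col B false (z + d) ∧ On N (z + (d + d)) ∧ B (z + (d + d)) = none) := by
  constructor
  · rintro ⟨z', B₁, P', Q, d, h1, h2, h3, h4, h5, h6, h7, -⟩
    have e : P' = P := Option.some.inj (h1.symm.trans hP)
    subst e
    refine ⟨d, dir_dg h2, h2, ⟨Q, h3, ?_⟩, ?_, ?_⟩
    · rw [hw] at h4
      exact Bool.eq_false_iff.mpr h4
    · rw [← add_assoc, ← h5]
      exact h6
    · rw [← add_assoc, ← h5]
      exact h7
  · rintro ⟨d, -, h2, ⟨Q, h3, h4⟩, h6, h7⟩
    refine ⟨z + d + d, _, P, Q, d, hP, h2, h3, ?_, rfl, ?_, ?_, rfl⟩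
    · rw [h4, hw]
      simp
    · rw [add_assoc]
      exact h6
    · rw [add_assoc]
      exact h7

theorem db_step {N : ℕ} {B B' : Board} (hB : Val N B) (hB' : Val N B') :
    dbStep N B B' ↔ ((∀ (z : Sq) (P : Piece) (z' : Sq) (B₁ : Board), B z = some P →
      P.white = true → ¬ Jump N B z z' B₁) ∧
      ∃ (z : Sq) (P : Piece) (z' : Sq), B z = some P ∧ P.white = true ∧ Step N B z z' B') := by
  unfold dbStep
  refine and_congr ?_ ?_
  · constructor
    · intro h z P z' B₁ hP hw hj
      exact h ⟨z, hB z (by rw [hP]; simp), P, ⟨hP, hw⟩, (db_jump hP hw).mp ⟨z', B₁, hj⟩⟩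
    · rintro h ⟨z, -, P, ⟨hP, hw⟩, hd⟩
      obtain ⟨z', B₁, hj⟩ := (db_jump (N := N) hP hw).mpr hd
      exact h z P z' B₁ hP hw hj
  · have hres : ∀ {z z' : Sq} {P : Piece}, B z = some P → B z' = none →
        (Function.update (Function.update B z none) z' (some (arrive N P z'))) =
          res N B z (fun _ => False) z' := by
      intro z z' P hP hz'
      funext y
      unfold res
      rw [if_neg not_false, hP]
      by_cases h1 : y = z'
      · subst h1
        simp
      · rw [Function.update_of_ne h1, if_neg h1]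
        by_cases h2 : y = z
        · subst h2
          simp
        · rw [Function.update_of_ne h2, if_neg h2]
    constructor
    · rintro ⟨z, hz, P, ⟨hP, hw⟩, z', hz', ⟨d, -, hd, he, hn⟩, hr⟩
      refine ⟨z, P, z', hP, hw, P, d, hP, hd, he, hz', hn, ?_⟩
      rw [hres hP hn]
      exact (dbRes_iff hP hB hB' (fun _ h => h.elim) hz').mpr hr
    · rintro ⟨z, P, z', hP, hw, P', d, hP', hd, he, hz', hn, hr⟩
      have e : P' = P := Option.some.inj (hP'.symm.trans hP)
      subst e
      refine ⟨z, hB z (by rw [hP]; simp), P', ⟨hP, hw⟩, z', hz', ⟨d, dir_dg hd, hd, he, hn⟩, ?_⟩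
      rw [hres hP hn] at hr
      exact (dbRes_iff hP hB hB' (fun _ h => h.elim) hz').mp hr

/-- The first move: relation 0 is the board before, relation 2 the board after the move. -/
theorem npd_move : NPd (fun N R _ => Move N true true (bd N R 0) (bd N R 2)) := by
  have h1 : NPd (fun N R _ => ∃ z, On N z ∧ ∃ P, (bd N R 0 z = some P ∧ P.white = true) ∧
      ∃ t, On N t ∧ dbCap N (bd N R 0) (bd N R 2) P (sset N R 9) z t) := by
    refine db_nexS (P := fun N R _ z => ∃ P, (bd N R 0 z = some P ∧ P.white = true) ∧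
      ∃ t, On N t ∧ dbCap N (bd N R 0) (bd N R 2) P (sset N R 9) z t) ?_
    refine db_nexP fun P => NPd.and (NPd.fo ((db_bd 0 0 (some P)).and (FO.prop _))) ?_
    exact db_nexS (P := fun N R v t => dbCap N (bd N R 0) (bd N R 2) P (sset N R 9) (sq v 0) t)
      (npd_dbCap P)
  refine NPd.congr ?_ (NPd.or (NPd.so 9 h1) (NPd.fo fo_dbStep))
  intro N R v
  unfold Move
  have hB := db_val N R 0
  have hB' := db_val N R 2
  rw [db_step hB hB']
  refine or_congr ?_ Iff.rfl
  constructor
  · rintro ⟨z, P, hP, hw, hc⟩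
    obtain ⟨S, hS, t, ht, hcap⟩ := (db_capture hB hB' hP hw).mp hc
    obtain ⟨X, hX⟩ := exists_sset (N := N) S hS R 9
    refine ⟨X, z, hB z (by rw [hP]; simp), P, ⟨?_, hw⟩, t, ht, ?_⟩
    · rw [bd_update (by omega)]
      exact hP
    · rw [bd_update (by omega), bd_update (by omega), hX]
      exact hcap
  · rintro ⟨X, z, hz, P, ⟨hP, hw⟩, t, ht, hcap⟩
    rw [bd_update (by omega)] at hP
    rw [bd_update (by omega), bd_update (by omega)] at hcap
    exact ⟨z, P, hP, hw, (db_capture hB hB' hP hw).mpr ⟨_, fun y hy => hy.1, t, ht, hcap⟩⟩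

theorem fo_canCap : FO (fun N R _ _ => CanCap N (bd N R 2)) := by
  have h : FO (fun N R _ _ => ∃ z, On N z ∧ ∃ Q : Piece, ∃ d, Dg d ∧ (bd N R 2 z = some Q ∧
      Q.white = false ∧ Dir Q d ∧ Col (bd N R 2) true (z + d) ∧ On N (z + (d + d)) ∧
        bd N R 2 (z + (d + d)) = none)) := by
    refine db_exS (Q := fun N R _ _ z => ∃ Q : Piece, ∃ d, Dg d ∧ (bd N R 2 z = some Q ∧
      Q.white = false ∧ Dir Q d ∧ Col (bd N R 2) true (z + d) ∧ On N (z + (d + d)) ∧
        bd N R 2 (z + (d + d)) = none)) ?_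
    refine db_exP fun Q => FO.exDg fun d _ => ?_
    exact (db_bd 2 0 (some Q)).and ((FO.prop _).and ((FO.prop _).and ((db_col 2 0 d true).and
      ((FO.on 0 (d + d)).and (FO.bd_eq 2 0 (d + d) none)))))
  refine FO.congr ?_ h
  intro N R C v
  unfold CanCap
  constructor
  · rintro ⟨s, Q, d, h1, h2, h3, h4, h5, h6⟩
    refine ⟨s, db_val N R 2 s (by rw [h1]; simp), Q, d, dir_dg h3, h1, h2, h3, h4, ?_, ?_⟩
    · rw [← add_assoc]
      exact h5
    · rw [← add_assoc]
      exact h6
  · rintro ⟨s, -, Q, d, -, h1, h2, h3, h4, h5, h6⟩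
    rw [← add_assoc] at h5 h6
    exact ⟨s, Q, d, h1, h2, h3, h4, h5, h6⟩

theorem npd_repStep : NPd (fun N R _ => RepStep N (bd N R 2)) := by
  have h0 : NPd (fun N R v => On N (sq v 0) ∧ On N (sq v 2) ∧
      GoodR N (bd N R 2) (sq v 0) (sq v 2) (fun _ => False)) := by
    refine NPd.congr ?_ (NPd.rel_sub 3 (S := fun _ _ _ _ _ => False) (FO.prop False) npd_goodR)
    intro N R v
    rw [bd_update (by omega)]
    have e : sset N (Function.update R 3 (fun l => ∃ a b c, l = [a, b, c] ∧ False)) 3 =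
        fun _ => False := by
      funext z
      simp [sset]
    rw [e]
  have h1 : NPd (fun N R _ => ∀ s, On N s → ∀ t, On N t → ∀ d, Dg d → ∀ Q : Piece,
      ((bd N R 2 s = some Q ∧ Q.white = false ∧ Dir Q d ∧ t = s + d ∧ bd N R 2 t = none) →
        (On N s ∧ On N t ∧ GoodR N (bd N R 2) s t (fun _ => False)))) := by
    refine db_nallS (P := fun N R _ s => ∀ t, On N t → ∀ d, Dg d → ∀ Q : Piece,
      ((bd N R 2 s = some Q ∧ Q.white = false ∧ Dir Q d ∧ t = s + d ∧ bd N R 2 t = none) →
        (On N s ∧ On N t ∧ GoodR N (bd N R 2) s t (fun _ => False)))) ?_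
    refine db_nallS (P := fun N R v t => ∀ d, Dg d → ∀ Q : Piece,
      ((bd N R 2 (sq v 0) = some Q ∧ Q.white = false ∧ Dir Q d ∧ t = sq v 0 + d ∧
        bd N R 2 t = none) →
        (On N (sq v 0) ∧ On N t ∧ GoodR N (bd N R 2) (sq v 0) t (fun _ => False)))) ?_
    refine NPd.allDg fun d _ => db_nallP fun Q => NPd.imp ?_ ?_
    · exact (db_bd 2 2 (some Q)).and ((FO.prop _).and ((FO.prop _).and ((FO.sq_eq 0 2 d).and
        (db_bd 2 0 none))))
    · exact NPd.sub dbSwap dbSwap_dt h0
  refine NPd.congr ?_ h1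
  intro N R v
  unfold RepStep
  constructor
  · rintro h s hs t ht d hd Q ⟨h1, h2, h3, h4, h5⟩
    subst h4
    exact ⟨hs, ht, h s Q d h1 h2 h3 ht h5⟩
  · intro h s Q d h1 h2 h3 h4 h5
    exact (h s (db_val N R 2 s (by rw [h1]; simp)) (s + d) h4 d (dir_dg h3) Q
      ⟨h1, h2, h3, rfl, h5⟩).2.2

end Pool.Agent.CHK
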