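import Pool.Agent.CHK.Play

set_option autoImplicit false

/-! Classes of the replies: the reply is good for one of the two classes of the opposite type. -/

namespace Pool.Agent.CHK

private theorem pc_cls_refl (s : Sq) : Cls s s := ⟨0, 0, by simp, by simp⟩

private theorem pc_cls_step {s z d : Sq} (h : Cls s z) (hd : Dg d) : Cls s (z + d + d) := by
  obtain ⟨i, j, rfl, hij⟩ := h
  obtain ⟨h1, h2⟩ := hd
  obtain ⟨a, b⟩ := d
  simp only at h1 h2
  refine ⟨i + a, j + b, ?_, ?_⟩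
  · ext <;> simp <;> ring
  · rcases h1 with rfl | rfl <;> rcases h2 with rfl | rfl <;>
      (rw [Int.even_iff] at hij ⊢; omega)

private theorem pc_dir_dg {P : Piece} {d : Sq} (h : Dir P d) : Dg d := by
  refine ⟨h.1, ?_⟩
  obtain ⟨w, k⟩ := P
  rcases h.2 with h2 | ⟨_, h2⟩
  · cases w
    · exact Or.inr (by simpa [fwd] using h2)
    · exact Or.inl (by simpa [fwd] using h2)
  · cases w
    · exact Or.inl (by simpa [fwd] using h2)
    · exact Or.inr (by simpa [fwd] using h2)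

private theorem pc_run_mem {P : Piece} {A F : Sq → Prop} {w : Sq} :
    ∀ (L : List Sq) (z t : Sq), Cls w z → Run (Dir P) A F z L t → ∀ e ∈ L,
      ∃ y d, Cls w y ∧ Dg d ∧ e = y + d
  | [], _, _, _, _, e, he => by simp at he
  | e' :: L, z, t, hz, ⟨d, hd, he', _, _, hr⟩, e, he => by
    have hd' := pc_dir_dg hd
    rcases List.mem_cons.1 he with rfl | he
    · exact ⟨z, d, hz, hd', he'⟩
    · refine pc_run_mem L (e' + d) t ?_ hr e he
      rw [he']
      exact pc_cls_step hz hd'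

private theorem pc_opp_cls {s z y : Sq} {k : ℤ} (h : Opp s k z) (h' : Opp s k y) : Cls z y := by
  obtain ⟨i, j, rfl, hij⟩ := h
  obtain ⟨i', j', rfl, hij'⟩ := h'
  refine ⟨i' - i, j' - j, ?_, ?_⟩
  · ext <;> simp <;> ring
  · rw [Int.even_iff]; omega

private theorem pc_cls_opp {s z y : Sq} {k : ℤ} (h : Opp s k z) (h' : Cls z y) : Opp s k y := by
  obtain ⟨i, j, rfl, hij⟩ := h
  obtain ⟨i', j', rfl, hij'⟩ := h'
  refine ⟨i + i', j + j', ?_, ?_⟩
  · ext <;> simp <;> ring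
  · rw [Int.even_iff] at hij'; omega

private theorem pc_cov_opp {N : ℕ} {B : Board} {s t w : Sq} {P : Piece} (hst : Cls s t)
    (h : Cov N P w (BlT B s t)) : Opp s 0 w ∨ Opp s 1 w := by
  obtain ⟨L, t', hr, _, hc⟩ := h
  obtain ⟨y, d, ⟨i, j, hy, hij⟩, ⟨h1, h2⟩, hyd⟩ :=
    pc_run_mem L w t' (pc_cls_refl w) hr t (hc t (Or.inr rfl))
  obtain ⟨i', j', ht, hij'⟩ := hst
  rw [Int.even_iff] at hij hij'
  obtain ⟨a, b⟩ := d
  obtain ⟨w1, w2⟩ := w
  obtain ⟨s1, s2⟩ := s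
  simp only at h1 h2 hy ht
  rw [hy] at hyd
  rw [ht] at hyd
  simp only [Prod.mk_add_mk, Prod.mk.injEq] at hyd
  obtain ⟨e1, e2⟩ := hyd
  -- w1 = s1 + 2 i' - 2 i - a
  have key : ∀ k : ℤ, (i' - i - (a + 1) / 2 + (j' - j - (b + 1) / 2)) % 2 = k →
      Opp (s1, s2) k (w1, w2) := by
    intro k hk
    refine ⟨i' - i - (a + 1) / 2, j' - j - (b + 1) / 2, ?_, hk⟩
    ext
    · simp only
      rcases h1 with rfl | rfl <;> norm_num <;> omega
    · simp only
      rcases h2 with rfl | rfl <;> norm_num <;> omega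
  rcases Int.emod_two_eq_zero_or_one (i' - i - (a + 1) / 2 + (j' - j - (b + 1) / 2)) with h | h
  · exact Or.inl (key 0 h)
  · exact Or.inr (key 1 h)

theorem goodR_iff {N : ℕ} {B : Board} (hB : Val N B) {s t : Sq} (hst : Cls s t)
    (S : Sq → Prop) : GoodR N B s t S ↔ KGd N B s t 0 S ∨ KGd N B s t 1 S := by
  have fwd' : ∀ k : ℤ, ∀ w P, B w = some P → P.white = true → ¬ S w → Cov N P w (BlT B s t) →
      (∀ z, Col B true z → EndOf w (BlT B s t) z → z ≠ w → S z) → Opp s k w →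
      KGd N B s t k S := by
    intro k w P hw hP hS hc h ho
    refine ⟨w, ⟨P, hw, hP, ho, hc⟩, hS, ?_⟩
    rintro z ⟨_, hz, hoz, hd⟩ hne
    exact h z hz ⟨pc_opp_cls ho hoz, hd⟩ hne
  have bwd : ∀ k : ℤ, KGd N B s t k S → GoodR N B s t S := by
    rintro k ⟨w, ⟨P, hw, hP, ho, hc⟩, hS, h⟩
    refine ⟨w, P, hw, hP, hS, hc, ?_⟩
    rintro z hz ⟨hcl, hd⟩ hne
    refine h z ⟨hB z ?_, hz, pc_cls_opp ho hcl, hd⟩ hne
    obtain ⟨Q, hQ, _⟩ := hz
    rw [hQ]; simp
  constructor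
  · rintro ⟨w, P, hw, hP, hS, hc, h⟩
    rcases pc_cov_opp hst hc with ho | ho
    · exact Or.inl (fwd' 0 w P hw hP hS hc h ho)
    · exact Or.inr (fwd' 1 w P hw hP hS hc h ho)
  · rintro (h | h)
    · exact bwd 0 h
    · exact bwd 1 h

theorem gk_fk {N : ℕ} {B : Board} (hB : Val N B) {s t : Sq} {k : ℤ} {w : Sq}
    (h : GK N B s t k w) : FK N B s t k w := by
  obtain ⟨P, hw, hP, ho, L, t', hr, _, hc⟩ := h
  refine ⟨hB w (by rw [hw]; simp), ⟨P, hw, hP⟩, ho, ?_⟩
  have ht : t ∈ L := hc t (Or.inr rfl)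
  cases L with
  | nil => simp at ht
  | cons e L =>
    obtain ⟨d, hd, he, hA, _, _⟩ := hr
    exact ⟨d, pc_dir_dg hd, he ▸ hA⟩

theorem not_kgd {N : ℕ} {B : Board} (hB : Val N B) {s t : Sq} {k : ℤ} (S : Sq → Prop) :
    ¬ KGd N B s t k S ↔ (∀ z, FK N B s t k z → S z) ∨
      ∃ f f', FK N B s t k f ∧ FK N B s t k f' ∧ ¬ S f ∧ ¬ S f' ∧
        (f ≠ f' ∨ ¬ GK N B s t k f) := by
  constructor
  · intro h
    by_cases h1 : ∀ z, FK N B s t k z → S z
    · exact Or.inl h1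
    right
    push Not at h1
    obtain ⟨f, hf, hSf⟩ := h1
    by_cases h2 : ∃ f', FK N B s t k f' ∧ ¬ S f' ∧ f ≠ f'
    · obtain ⟨f', hf', hSf', hne⟩ := h2
      exact ⟨f, f', hf, hf', hSf, hSf', Or.inl hne⟩
    · push Not at h2
      refine ⟨f, f, hf, hf, hSf, hSf, Or.inr fun hg => h ⟨f, hg, hSf, ?_⟩⟩
      intro z hz hne
      by_contra hSz
      exact hne (h2 z hz hSz).symm
  · rintro (h | ⟨f, f', hf, hf', hSf, hSf', h⟩) ⟨w, hw, hSw, hall⟩
    · exact hSw (h w (gk_fk hB hw))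
    · have e1 : f = w := by
        by_contra hne
        exact hSf (hall f hf hne)
      have e2 : f' = w := by
        by_contra hne
        exact hSf' (hall f' hf' hne)
      rcases h with h | h
      · exact h (e1.trans e2.symm)
      · exact h (e1 ▸ hw)

/-- The form used with finite sets. -/
theorem kgd_finset {N : ℕ} {B : Board} (hB : Val N B) {s t : Sq} {k : ℤ} (S : Finset Sq) :
    KGd N B s t k (· ∈ S) ↔ ∃ w ∈ FKs N B s t k, GK N B s t k w ∧ FKs N B s t k \ S = {w} := by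
  have hmem : ∀ z, z ∈ FKs N B s t k ↔ FK N B s t k z := by
    intro z
    unfold FKs box
    simp only [Finset.mem_filter, Finset.mem_product, Finset.mem_Ico]
    constructor
    · exact fun h => h.2
    · intro h
      have hO : On N z := h.1
      exact ⟨⟨⟨hO.1, hO.2.1⟩, hO.2.2.1, hO.2.2.2.1⟩, h⟩
  constructor
  · rintro ⟨w, hw, hS, h⟩
    have hf := gk_fk hB hw
    refine ⟨w, (hmem w).2 hf, hw, ?_⟩
    ext z
    simp only [Finset.mem_sdiff, Finset.mem_singleton, hmem]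
    constructor
    · rintro ⟨hz, hSz⟩
      by_contra hne
      exact hSz (h z hz hne)
    · rintro rfl
      exact ⟨hf, hS⟩
  · rintro ⟨w, _, hw, h⟩
    have hmw : w ∈ FKs N B s t k \ S := by rw [h]; simp
    refine ⟨w, hw, (Finset.mem_sdiff.1 hmw).2, ?_⟩
    intro z hz hne
    by_contra hSz
    have : z ∈ FKs N B s t k \ S := Finset.mem_sdiff.2 ⟨(hmem z).2 hz, hSz⟩
    rw [h] at this
    exact hne (Finset.mem_singleton.1 this)

end Pool.Agent.CHK
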