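import Pool.Agent.CHK.PlayA
import Pool.Agent.CHK.PlayC

set_option autoImplicit false

/-! Captures of a black man. -/

namespace Pool.Agent.CHK

/-- The rows decrease along a run of a black man. -/
theorem pd_row {A F : Sq → Prop} : ∀ {L : List Sq} {z t : Sq}, Run (Dir bman) A F z L t →
    t.2 = z.2 - 2 * L.length ∧ ∀ e ∈ L, t.2 < e.2 ∧ e.2 < z.2
  | [], z, t, h => by
      have h1 : z = t := h
      subst h1
      simp
  | e :: L, z, t, h => by
      obtain ⟨d, hd, he, -, -, hr⟩ := h
      obtain ⟨h1, h2⟩ := pd_row hr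
      have hd2 : d.2 = -1 := by
        rcases hd.2 with h | ⟨h, -⟩
        · simpa [fwd] using h
        · simp at h
      have he2 : e.2 = z.2 - 1 := by rw [he]; simp [hd2]; ring
      have hed : (e + d).2 = z.2 - 2 := by simp [he2, hd2]; ring
      rw [hed] at h1 h2
      have hlen : (0 : ℤ) ≤ (L.length : ℤ) := by positivity
      refine ⟨by rw [h1]; push_cast [List.length_cons]; ring, fun f hf => ?_⟩
      rcases List.mem_cons.1 hf with rfl | hf
      · constructor
        · omega
        · omega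
      · have := h2 f hf
        omega

theorem pd_nodup {A F : Sq → Prop} : ∀ {L : List Sq} {z t : Sq}, Run (Dir bman) A F z L t →
    L.Nodup
  | [], _, _, _ => List.nodup_nil
  | e :: L, z, t, h => by
      obtain ⟨d, hd, he, -, -, hr⟩ := h
      refine List.nodup_cons.2 ⟨fun hm => ?_, pd_nodup hr⟩
      have h1 := ((pd_row hr).2 e hm).2
      have hd2 : d.2 = -1 := by
        rcases hd.2 with h | ⟨h, -⟩
        · simpa [fwd] using h
        · simp at h
      simp [hd2] at h1

set_option linter.unusedVariables false in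
theorem repCap_man {N : ℕ} {B : Board} (hB : Val N B) {s : Sq} (hs : B s = some bman) :
    RepCap N B s bman ↔ ∀ L t, ManRun N B s L t →
      KGd N B s t 0 (· ∈ L) ∨ KGd N B s t 1 (· ∈ L) := by
  have key : ∀ t, arrive N bman t ≠ bman ↔ t.2 = 0 := by
    intro t
    unfold arrive far
    by_cases h : t.2 = 0 <;> simp [h]
  have hd2 : ∀ d : Sq, Dir bman d → d.2 = -1 := by
    intro d hd
    rcases hd.2 with h | ⟨h, -⟩
    · simpa [fwd] using h
    · simp at h
  constructor
  · rintro h L t ⟨hne, hr, he⟩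
    refine (goodR_iff hB (Run.cls (fun d => dir_dg) hr) _).1 (h L t hne hr (pd_nodup hr) ?_)
    rcases he with he | he
    · exact Or.inl ((key t).2 he)
    · exact Or.inr fun d hd h1 h2 => absurd h2 (he d hd h1)
  · intro h L t hne hr _ he
    refine (goodR_iff hB (Run.cls (fun d => dir_dg) hr) _).2 (h L t ⟨hne, hr, ?_⟩)
    rcases he with he | he
    · exact Or.inl ((key t).1 he)
    · refine Or.inr fun d hd h1 h2 => ?_
      have h3 := ((pd_row hr).2 _ (he d hd h1 h2)).1
      simp [hd2 d hd] at h3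

theorem pd_cut {A F P M Y : Sq → Prop} {t : Sq}
    (hY : ∀ z d, Y z → Dir bman d → A (z + d) → F (z + d + d) → ¬ M (z + d) →
      (∀ y, P y → y.2 = (z + d).2 → y = z + d) → Y (z + d + d)) :
    ∀ {L : List Sq} {z : Sq}, Run (Dir bman) A F z L t → Y z →
      (∀ y, P y → y.2 < z.2 → y ∈ L) → (∀ e ∈ L, ¬ M e) → Y t
  | [], z, h, hz, _, _ => by
      have h1 : z = t := h
      rwa [← h1]
  | e :: L, z, h, hz, hP, hM => by
      obtain ⟨d, hd, he, hA, hF, hr⟩ := h
      have hd2 : d.2 = -1 := by
        rcases hd.2 with h | ⟨h, -⟩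
        · simpa [fwd] using h
        · simp at h
      have hrow := (pd_row hr).2
      have he2 : e.2 = z.2 - 1 := by rw [he]; simp [hd2]; ring
      have hed : (e + d).2 = z.2 - 2 := by simp [he2, hd2]; ring
      refine pd_cut hY hr ?_ ?_ fun f hf => hM f (List.mem_cons_of_mem _ hf)
      · rw [he]
        refine hY z d hz hd (he ▸ hA) (he ▸ hF) (he ▸ hM e List.mem_cons_self) ?_
        intro y hy hyr
        rw [← he] at hyr ⊢
        rcases List.mem_cons.1 (hP y hy (by omega)) with h1 | h1
        · exact h1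
        · have := (hrow y h1).2
          omega
      · intro y hy hyr
        rcases List.mem_cons.1 (hP y hy (by omega)) with h1 | h1
        · rw [h1] at hyr
          omega
        · exact h1

theorem man_cut {A F P M : Sq → Prop} {s t : Sq} (hP : ∀ z, P z → ∃ i : ℤ, z.2 = s.2 + 2 * i + 1) :
    (∃ L, L ≠ [] ∧ Run (Dir bman) A F s L t ∧ (∀ z, P z → z ∈ L) ∧ ∀ z ∈ L, ¬ M z) ↔
      ∀ Y : Sq → Prop, Y s →
        (∀ z d, Y z → Dir bman d → A (z + d) → F (z + d + d) → ¬ M (z + d) →
          (∀ y, P y → y.2 = (z + d).2 → y = z + d) → Y (z + d + d)) →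
        Y t ∧ t ≠ s ∧ ∀ z, P z → t.2 < z.2 ∧ z.2 < s.2 := by
  constructor
  · rintro ⟨L, hne, hr, hPL, hML⟩ Y hYs hY
    obtain ⟨h1, h2⟩ := pd_row hr
    refine ⟨pd_cut hY hr hYs (fun y hy _ => hPL y hy) hML, ?_, fun z hz => h2 z (hPL z hz)⟩
    rintro rfl
    have : (0 : ℤ) < (L.length : ℤ) := by
      have := List.length_pos_iff.2 hne
      exact_mod_cast this
    omega
  · intro h
    have hs0 : ∃ L, Run (Dir bman) A F s L s ∧ (∀ e ∈ L, ¬ M e) ∧
        ∀ y, P y → s.2 < y.2 → y.2 < s.2 → y ∈ L := by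
      refine ⟨[], rfl, by simp, fun y _ h1 h2 => ?_⟩
      omega
    obtain ⟨⟨L, hr, hM, hPL⟩, hts, hPt⟩ := h (fun z => ∃ L, Run (Dir bman) A F s L z ∧
      (∀ e ∈ L, ¬ M e) ∧ ∀ y, P y → z.2 < y.2 → y.2 < s.2 → y ∈ L) hs0 (by
        rintro z d ⟨L, hr, hM, hPL⟩ hd hA hF hMz hPz
        have hd2 : d.2 = -1 := by
          rcases hd.2 with h | ⟨h, -⟩
          · simpa [fwd] using h
          · simp at h
        refine ⟨L ++ [z + d], run_append.2 ⟨z, hr, d, hd, rfl, hA, hF, rfl⟩, ?_, ?_⟩
        · intro e he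
          rcases List.mem_append.1 he with he | he
          · exact hM e he
          · rw [List.mem_singleton.1 he]
            exact hMz
        · intro y hy h1 h2
          have h3 : (z + d + d).2 = z.2 - 2 := by simp [hd2]; ring
          have h4 : (z + d).2 = z.2 - 1 := by simp [hd2]; ring
          obtain ⟨i, hi⟩ := hP y hy
          have h5 := (pd_row hr).1
          by_cases h6 : z.2 < y.2
          · exact List.mem_append_left _ (hPL y hy h6 h2)
          · refine List.mem_append_right _ (List.mem_singleton.2 (hPz y hy ?_))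
            omega)
    refine ⟨L, ?_, hr, fun z hz => hPL z hz (hPt z hz).1 (hPt z hz).2, hM⟩
    rintro rfl
    exact hts (show s = t from hr).symm

end Pool.Agent.CHK
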