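import Pool.Agent.CHK.PlayC
import Pool.Agent.CHK.PlayD
import Pool.Agent.CHK.DefI

set_option autoImplicit false

/-! Replies of men are definable. -/

namespace Pool.Agent.CHK

/-! ### First-order formulas for the notions of the game -/

theorem dfc_col (c : Bool) (i : ℕ) (d : Sq) :
    FO (fun N R _ v => Col (bd N R 2) c (sq v i + d)) := by
  refine FO.congr (Q' := fun N R _ v => bd N R 2 (sq v i + d) = some ⟨c, false⟩ ∨
    bd N R 2 (sq v i + d) = some ⟨c, true⟩) ?_ (FO.or (FO.bd_eq 2 i d _) (FO.bd_eq 2 i d _))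
  intro N R C v
  constructor
  · rintro ⟨⟨w, g⟩, h1, h2⟩
    simp only at h2
    subst h2
    cases g
    · exact Or.inl h1
    · exact Or.inr h1
  · rintro (h | h)
    · exact ⟨_, h, rfl⟩
    · exact ⟨_, h, rfl⟩

theorem dfc_fre (i j : ℕ) (d : Sq) :
    FO (fun N R _ v => Fre N (bd N R 2) (sq v i) (sq v j + d)) := by
  refine FO.congr (Q' := fun N R _ v => On N (sq v j + d) ∧ (bd N R 2 (sq v j + d) = none ∨
    sq v i = sq v j + d)) ?_
    (FO.and (FO.on j d) (FO.or (FO.bd_eq 2 j d none) (FO.sq_eq i j d)))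
  intro N R C v
  unfold Fre
  rw [eq_comm (a := sq v i)]

theorem dfc_blT (i j l : ℕ) (d : Sq) :
    FO (fun N R _ v => BlT (bd N R 2) (sq v i) (sq v j) (sq v l + d)) := by
  refine FO.congr (Q' := fun N R _ v => (Col (bd N R 2) false (sq v l + d) ∧
    ¬ sq v i = sq v l + d) ∨ sq v j = sq v l + d) ?_
    (FO.or (FO.and (dfc_col false l d) (FO.not (FO.sq_eq i l d))) (FO.sq_eq j l d))
  intro N R C v
  unfold BlT
  rw [eq_comm (a := sq v i), eq_comm (a := sq v j)]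

theorem dfc_fk (k : ℤ) (i j l : ℕ) :
    FO (fun N R _ v => FK N (bd N R 2) (sq v i) (sq v j) k (sq v l)) := by
  refine FO.congr (Q' := fun N R _ v => On N (sq v l + 0) ∧ Col (bd N R 2) true (sq v l + 0) ∧
    Opp (sq v i) k (sq v l + 0) ∧ ∃ d, Dg d ∧ BlT (bd N R 2) (sq v i) (sq v j) (sq v l + d)) ?_
    (FO.and (FO.on l 0) (FO.and (dfc_col true l 0) (FO.and (FO.opp i l 0 k)
      (FO.exDg fun d _ => dfc_blT i j l d))))
  intro N R C v
  simp only [add_zero, FK]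

theorem dfc_mend (i j : ℕ) : FO (fun N R _ v => MEnd N (bd N R 2) (sq v i) (sq v j)) := by
  refine FO.congr (Q' := fun N R _ v => v (j + 1) = 0 ∨ ∀ d, Dg d → Dir bman d →
    Col (bd N R 2) true (sq v j + d) → ¬ Fre N (bd N R 2) (sq v i) (sq v j + (d + d))) ?_
    (FO.or (FO.eq (DT.var (j + 1)) (DT.const 0)) (FO.allDg fun d _ =>
      FO.imp (FO.prop _) (FO.imp (dfc_col true j d) (FO.not (dfc_fre i j (d + d))))))
  intro N R C v
  unfold MEnd
  have h1 : (sq v j).2 = 0 ↔ v (j + 1) = 0 := by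
    show ((v (j + 1) : ℕ) : ℤ) = 0 ↔ _
    omega
  rw [h1]
  refine or_congr Iff.rfl ?_
  constructor
  · intro h d _ hd hc
    rw [← add_assoc]
    exact h d hd hc
  · intro h d hd hc
    rw [add_assoc]
    refine h d ⟨hd.1, ?_⟩ hd hc
    rcases hd.2 with h2 | h2
    · right
      exact h2
    · exact absurd h2.1 (by simp)

/-! ### The certificate for the nonexistence of a run -/

/-- The prescribed squares. -/
def dfcP (b0 b1 : Bool) (N : ℕ) (B : Board) (s t z : Sq) : Prop :=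
  (b0 = true ∧ FK N B s t 0 z) ∨ (b1 = true ∧ FK N B s t 1 z)

/-- The forbidden squares. -/
def dfcM (b0 b1 : Bool) (f f' g g' z : Sq) : Prop :=
  (b0 = false ∧ (z = f ∨ z = f')) ∨ (b1 = false ∧ (z = g ∨ z = g'))

/-- The certificate. -/
def dfcY (N : ℕ) (B : Board) (s t : Sq) (P M Y : Sq → Prop) : Prop :=
  Y s ∧ (∀ z, Y z → ∀ d, Dir bman d → Col B true (z + d) → Fre N B s (z + (d + d)) →
    ¬ M (z + d) → (∀ y, P y → y.2 = (z + d).2 → y = z + d) → Y (z + (d + d))) ∧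
    ¬ (Y t ∧ t ≠ s ∧ ∀ z, P z → t.2 < z.2 ∧ z.2 < s.2)

theorem dfc_cut {N : ℕ} {B : Board} {s t : Sq} (hs : On N s) {P M : Sq → Prop}
    (hP : ∀ z, P z → ∃ i : ℤ, z.2 = s.2 + 2 * i + 1) :
    (¬ ∃ L, L ≠ [] ∧ Run (Dir bman) (Col B true) (Fre N B s) s L t ∧ (∀ z, P z → z ∈ L) ∧
      ∀ z ∈ L, ¬ M z) ↔ ∃ Y : Sq → Prop, (∀ z, Y z → On N z) ∧ dfcY N B s t P M Y := by
  rw [man_cut hP]
  constructor
  · intro h
    push Not at h
    obtain ⟨Y, h1, h2, h3⟩ := h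
    refine ⟨fun z => Y z ∧ On N z, fun z hz => hz.2, ⟨h1, hs⟩, ?_, ?_⟩
    · intro z hz d hd hc hf hm hp
      rw [← add_assoc] at hf ⊢
      exact ⟨h2 z d hz.1 hd hc hf hm hp, hf.1⟩
    · rintro ⟨h4, h5, h6⟩
      obtain ⟨z, hz, h7⟩ := h3 h4.1 h5
      exact absurd (h6 z hz).2 (not_lt.2 (h7 (h6 z hz).1))
  · rintro ⟨Y, _, h1, h2, h3⟩ h
    refine h3 (h Y h1 ?_)
    intro z d hz hd hc hf hm hp
    rw [add_assoc] at hf ⊢
    exact h2 z hz d hd hc hf hm hp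

/-- Quantifiers over sets of squares. -/
theorem dfc_exSet {P : ℕ → Board → (Sq → Prop) → (ℕ → ℕ) → Prop}
    (hP : FO (fun N R _ v => P N (bd N R 2) (sset N R 3) v)) :
    NPd (fun N R v => ∃ Y : Sq → Prop, (∀ z, Y z → On N z) ∧ P N (bd N R 2) Y v) := by
  refine NPd.congr (P' := fun N R v => ∃ X : List ℕ → Prop,
    P N (bd N (Function.update R 3 X) 2) (sset N (Function.update R 3 X) 3) v) ?_
    (NPd.so 3 (NPd.fo hP))
  intro N R v
  constructor
  · rintro ⟨Y, h1, h2⟩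
    obtain ⟨X, hX⟩ := exists_sset Y h1 R 3
    refine ⟨X, ?_⟩
    rw [hX, bd_update (by norm_num)]
    exact h2
  · rintro ⟨X, h⟩
    rw [bd_update (by norm_num)] at h
    exact ⟨_, fun z hz => hz.1, h⟩

theorem dfc_fo (b0 b1 : Bool) : FO (fun N R _ v => dfcY N (bd N R 2) (sq v 0) (sq v 2)
    (dfcP b0 b1 N (bd N R 2) (sq v 0) (sq v 2))
    (dfcM b0 b1 (sq v 4) (sq v 6) (sq v 8) (sq v 10)) (sset N R 3)) := by
  have hP : ∀ i j l, FO (fun N R _ v => dfcP b0 b1 N (bd N R 2) (sq v i) (sq v j) (sq v l)) :=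
    fun i j l => FO.or (FO.and (FO.prop _) (dfc_fk 0 i j l)) (FO.and (FO.prop _) (dfc_fk 1 i j l))
  have hPon : ∀ {N : ℕ} {B : Board} {s t z : Sq}, dfcP b0 b1 N B s t z → On N z := by
    rintro N B s t z (⟨_, h⟩ | ⟨_, h⟩)
    · exact h.1
    · exact h.1
  have e1 : FO (fun N R _ v => sset N R 3 (sq v 0)) := by
    have := FO.sset_mem 3 0 0
    simpa only [add_zero] using this
  have hrow : ∀ i j (d : Sq), FO (fun _ _ _ v => (sq v i).2 = (sq v j + d).2) :=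
    fun i j d => sodc_eq (sodcIT_snd0 i) (sodcIT_snd j d)
  have hM : ∀ (l : ℕ) (d : Sq) (a b c e : ℕ), FO (fun _ _ _ v =>
      dfcM b0 b1 (sq v a) (sq v b) (sq v c) (sq v e) (sq v l + d)) := by
    intro l d a b c e
    refine FO.congr (Q' := fun N R _ v => (b0 = false ∧ (sq v a = sq v l + d ∨
      sq v b = sq v l + d)) ∨ (b1 = false ∧ (sq v c = sq v l + d ∨ sq v e = sq v l + d))) ?_
      (FO.or (FO.and (FO.prop _) (FO.or (FO.sq_eq a l d) (FO.sq_eq b l d)))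
        (FO.and (FO.prop _) (FO.or (FO.sq_eq c l d) (FO.sq_eq e l d))))
    intro N R C v
    unfold dfcM
    simp only [eq_comm]
  -- the inner quantifier over `y`: variables `y, z, s, t, ...`
  have e2 : ∀ d : Sq, FO (fun N R _ v => ∀ y, dfcP b0 b1 N (bd N R 2) (sq v 2) (sq v 4) y →
      y.2 = (sq v 0 + d).2 → y = sq v 0 + d) := by
    intro d
    refine FO.congr (Q' := fun N R C v => ∀ x y : ℕ, x < N → y < N →
      (fun N R (_ : List ℕ → Prop) v => dfcP b0 b1 N (bd N R 2) (sq v 4) (sq v 6) (sq v 0) →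
        (sq v 0).2 = (sq v 2 + d).2 → sq v 0 = sq v 2 + d) N R C (cns x (cns y v))) ?_
      (FO.allSq (FO.imp (hP 4 6 0) (FO.imp (hrow 0 2 d) (FO.sq_eq 0 2 d))))
    intro N R C v
    rw [all_on (N := N)]
    · rfl
    · intro z hz
      by_contra hc
      exact hz fun h => absurd (hPon h) hc
  have e3 : FO (fun N R _ v => ∀ z, sset N R 3 z → ∀ d, Dir bman d →
      Col (bd N R 2) true (z + d) → Fre N (bd N R 2) (sq v 0) (z + (d + d)) →
      ¬ dfcM b0 b1 (sq v 4) (sq v 6) (sq v 8) (sq v 10) (z + d) →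
      (∀ y, dfcP b0 b1 N (bd N R 2) (sq v 0) (sq v 2) y → y.2 = (z + d).2 → y = z + d) →
      sset N R 3 (z + (d + d))) := by
    refine FO.congr (Q' := fun N R C v => ∀ x y : ℕ, x < N → y < N →
      (fun N R (_ : List ℕ → Prop) v => sset N R 3 (sq v 0) → ∀ d, Dg d → Dir bman d →
        Col (bd N R 2) true (sq v 0 + d) → Fre N (bd N R 2) (sq v 2) (sq v 0 + (d + d)) →
        ¬ dfcM b0 b1 (sq v 6) (sq v 8) (sq v 10) (sq v 12) (sq v 0 + d) →
        (∀ y, dfcP b0 b1 N (bd N R 2) (sq v 2) (sq v 4) y → y.2 = (sq v 0 + d).2 →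
          y = sq v 0 + d) →
        sset N R 3 (sq v 0 + (d + d))) N R C (cns x (cns y v))) ?_
      (FO.allSq (FO.imp e1 (FO.allDg fun d _ => FO.imp (FO.prop _) (FO.imp (dfc_col true 0 d)
        (FO.imp (dfc_fre 2 0 (d + d)) (FO.imp (FO.not (hM 0 d 6 8 10 12)) (FO.imp (e2 d)
          (FO.sset_mem 3 0 (d + d)))))))))
    intro N R C v
    rw [all_on (N := N)]
    · constructor
      · intro h x y hx hy hz d _ hd
        exact h x y hx hy hz d hd
      · intro h x y hx hy hz d hd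
        refine h x y hx hy hz d ⟨hd.1, ?_⟩ hd
        rcases hd.2 with h2 | h2
        · right
          exact h2
        · exact absurd h2.1 (by simp)
    · intro z hz
      by_contra hc
      exact hz fun h => absurd h.1 hc
  have e4 : FO (fun N R _ v => ∀ z, dfcP b0 b1 N (bd N R 2) (sq v 0) (sq v 2) z →
      (sq v 2).2 < z.2 ∧ z.2 < (sq v 0).2) := by
    refine FO.congr (Q' := fun N R C v => ∀ x y : ℕ, x < N → y < N →
      (fun N R (_ : List ℕ → Prop) v => dfcP b0 b1 N (bd N R 2) (sq v 2) (sq v 4) (sq v 0) →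
        (sq v 4).2 < (sq v 0).2 ∧ (sq v 0).2 < (sq v 2).2) N R C (cns x (cns y v))) ?_
      (FO.allSq (FO.imp (hP 2 4 0) (FO.and (sodc_lt (sodcIT_snd0 4) (sodcIT_snd0 0))
        (sodc_lt (sodcIT_snd0 0) (sodcIT_snd0 2)))))
    intro N R C v
    rw [all_on (N := N)]
    · rfl
    · intro z hz
      by_contra hc
      exact hz fun h => absurd (hPon h) hc
  have e5 : FO (fun N R _ v => sset N R 3 (sq v 2)) := by
    have := FO.sset_mem 3 2 0
    simpa only [add_zero] using this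
  have e6 : FO (fun _ _ _ v => sq v 2 = sq v 0) := by
    have := FO.sq_eq 2 0 0
    simpa only [add_zero] using this
  exact FO.and e1 (FO.and e3 (FO.not (FO.and e5 (FO.and (FO.not e6) e4))))

/-! ### Replies of men -/

/-- The hypotheses on the squares. -/
def dfcH (b0 b1 : Bool) (N : ℕ) (B : Board) (s t f f' g g' : Sq) : Prop :=
  B s = some bman ∧ MEnd N B s t ∧ On N s ∧ On N t ∧ (b0 = false → FK N B s t 0 f ∧ FK N B s t 0 f') ∧
    (b1 = false → FK N B s t 1 g ∧ FK N B s t 1 g')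

/-- The conclusion. -/
def dfcC (b0 b1 : Bool) (N : ℕ) (B : Board) (s t f f' g g' : Sq) : Prop :=
  (b0 = false ∧ f = f' ∧ On N s ∧ On N t ∧ GK N B s t 0 f) ∨
    (b1 = false ∧ g = g' ∧ On N s ∧ On N t ∧ GK N B s t 1 g) ∨
    ∃ Y : Sq → Prop, (∀ z, Y z → On N z) ∧
      dfcY N B s t (dfcP b0 b1 N B s t) (dfcM b0 b1 f f' g g') Y

theorem dfc_row {b0 b1 : Bool} {N : ℕ} {B : Board} {s t : Sq} (z : Sq)
    (h : dfcP b0 b1 N B s t z) : ∃ i : ℤ, z.2 = s.2 + 2 * i + 1 := by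
  rcases h with ⟨_, h⟩ | ⟨_, h⟩
  · obtain ⟨_, _, ⟨i, j, rfl, _⟩, _⟩ := h
    exact ⟨j, rfl⟩
  · obtain ⟨_, _, ⟨i, j, rfl, _⟩, _⟩ := h
    exact ⟨j, rfl⟩

theorem dfc_run_end {D A F : Sq → Prop} : ∀ {L : List Sq} {z t : Sq}, L ≠ [] →
    Run D A F z L t → F t := by
  intro L
  induction L with
  | nil => intro z t h; exact absurd rfl h
  | cons e L ih =>
    rintro z t _ ⟨d, _, _, _, h4, h5⟩
    rcases L with _ | ⟨e', L⟩
    · have h6 : e + d = t := h5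
      rw [← h6]
      exact h4
    · exact ih (by simp) h5

theorem dfc_mp {N : ℕ} {B : Board} (hB : Val N B)
    (h : ∀ s, B s = some bman → RepCap N B s bman) (b0 b1 : Bool) (s t f f' g g' : Sq)
    (hH : dfcH b0 b1 N B s t f f' g g') : dfcC b0 b1 N B s t f f' g g' := by
  obtain ⟨h1, h2, h3, h4, h5, h6⟩ := hH
  unfold dfcC
  rw [← dfc_cut h3 dfc_row]
  by_contra hc
  push Not at hc
  obtain ⟨c1, c2, L, c3, c4, c5, c6⟩ := hc
  have hM : ManRun N B s L t := ⟨c3, c4, h2⟩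
  rcases (repCap_man hB h1).1 (h s h1) L t hM with hk | hk
  · refine absurd hk ((not_kgd hB _).2 ?_)
    cases b0 with
    | true => exact Or.inl fun z hz => c5 z (Or.inl ⟨rfl, hz⟩)
    | false =>
      refine Or.inr ⟨f, f', (h5 rfl).1, (h5 rfl).2, ?_, ?_, ?_⟩
      · intro hf
        exact c6 f hf (Or.inl ⟨rfl, Or.inl rfl⟩)
      · intro hf
        exact c6 f' hf (Or.inl ⟨rfl, Or.inr rfl⟩)
      · by_cases hff : f = f'
        · exact Or.inr (c1 rfl hff h3 h4)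
        · exact Or.inl hff
  · refine absurd hk ((not_kgd hB _).2 ?_)
    cases b1 with
    | true => exact Or.inl fun z hz => c5 z (Or.inr ⟨rfl, hz⟩)
    | false =>
      refine Or.inr ⟨g, g', (h6 rfl).1, (h6 rfl).2, ?_, ?_, ?_⟩
      · intro hf
        exact c6 g hf (Or.inr ⟨rfl, Or.inl rfl⟩)
      · intro hf
        exact c6 g' hf (Or.inr ⟨rfl, Or.inr rfl⟩)
      · by_cases hff : g = g'
        · exact Or.inr (c2 rfl hff h3 h4)
        · exact Or.inl hff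

/-- The failure of one class in terms of two squares. -/
theorem dfc_fail {N : ℕ} {B : Board} (hB : Val N B) {s t : Sq} (hs : On N s) {k : ℤ}
    {S : Sq → Prop} (h : ¬ KGd N B s t k S) : ∃ (b : Bool) (f f' : Sq), On N f ∧ On N f' ∧
      (b = false → FK N B s t k f ∧ FK N B s t k f') ∧ (b = true → ∀ z, FK N B s t k z → S z) ∧
      (b = false → ¬ S f ∧ ¬ S f' ∧ (f ≠ f' ∨ ¬ GK N B s t k f)) := by
  rcases (not_kgd hB S).1 h with h1 | ⟨f, f', h1, h2, h3, h4, h5⟩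
  · exact ⟨true, s, s, hs, hs, by simp, fun _ => h1, by simp⟩
  · exact ⟨false, f, f', h1.1, h2.1, fun _ => ⟨h1, h2⟩, by simp, fun _ => ⟨h3, h4, h5⟩⟩

theorem dfc_mpr {N : ℕ} {B : Board} (hB : Val N B)
    (h : ∀ (b0 b1 : Bool) (s t f f' g g' : Sq), On N s → On N t → On N f → On N f' → On N g →
      On N g' → dfcH b0 b1 N B s t f f' g g' → dfcC b0 b1 N B s t f f' g g') :
    ∀ s, B s = some bman → RepCap N B s bman := by
  intro s hs
  have hson : On N s := hB s (by rw [hs]; simp)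
  rw [repCap_man hB hs]
  intro L t hM
  have hton : On N t := (dfc_run_end hM.1 hM.2.1).1
  by_contra hc
  push Not at hc
  obtain ⟨b0, f, f', f1, f2, f3, f4, f5⟩ := dfc_fail hB hson hc.1
  obtain ⟨b1, g, g', g1, g2, g3, g4, g5⟩ := dfc_fail hB hson hc.2
  rcases h b0 b1 s t f f' g g' hson hton f1 f2 g1 g2 ⟨hs, hM.2.2, hson, hton, f3, g3⟩ with
    ⟨h1, h2, _, _, h3⟩ | ⟨h1, h2, _, _, h3⟩ | h1
  · rcases (f5 h1).2.2 with h4 | h4
    · exact h4 h2
    · exact h4 h3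
  · rcases (g5 h1).2.2 with h4 | h4
    · exact h4 h2
    · exact h4 h3
  · rw [← dfc_cut hson dfc_row] at h1
    refine h1 ⟨L, hM.1, hM.2.1, ?_, ?_⟩
    · rintro z (⟨hb, hz⟩ | ⟨hb, hz⟩)
      · exact f4 hb z hz
      · exact g4 hb z hz
    · rintro z hz (⟨hb, rfl | rfl⟩ | ⟨hb, rfl | rfl⟩)
      · exact (f5 hb).1 hz
      · exact (f5 hb).2.1 hz
      · exact (g5 hb).1 hz
      · exact (g5 hb).2.1 hz

/-- The substitution which moves the square number 8 to the place number 4. -/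
def dfcS : ℕ → ℕ → (ℕ → ℕ) → ℕ
  | 4 => fun _ v => v 8
  | 5 => fun _ v => v 9
  | i => fun _ v => v i

theorem dfcS_dt (i : ℕ) : DT (dfcS i) := by
  unfold dfcS
  split
  · exact DT.var 8
  · exact DT.var 9
  · exact DT.var _

theorem dfc_body (b0 b1 : Bool) : NPd (fun N R v =>
    dfcH b0 b1 N (bd N R 2) (sq v 0) (sq v 2) (sq v 4) (sq v 6) (sq v 8) (sq v 10) →
    dfcC b0 b1 N (bd N R 2) (sq v 0) (sq v 2) (sq v 4) (sq v 6) (sq v 8) (sq v 10)) := by
  have hon : ∀ i, FO (fun N _ _ v => On N (sq v i)) := by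
    intro i
    have := FO.on i 0
    simpa only [add_zero] using this
  have heq : ∀ i j, FO (fun _ _ _ v => sq v i = sq v j) := by
    intro i j
    have := FO.sq_eq i j 0
    simpa only [add_zero] using this
  have hb : FO (fun N R _ v => bd N R 2 (sq v 0) = some bman) := by
    have := FO.bd_eq 2 0 0 (some bman)
    simpa only [add_zero] using this
  refine NPd.imp ?_ (NPd.or ?_ (NPd.or ?_ ?_))
  · exact FO.and hb (FO.and (dfc_mend 0 2) (FO.and (hon 0) (FO.and (hon 2) (FO.and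
      (FO.imp (FO.prop _) (FO.and (dfc_fk 0 0 2 4) (dfc_fk 0 0 2 6)))
      (FO.imp (FO.prop _) (FO.and (dfc_fk 1 0 2 8) (dfc_fk 1 0 2 10)))))))
  · exact NPd.and (NPd.fo (FO.prop _)) (NPd.and (NPd.fo (heq 4 6)) (npd_gk 0))
  · refine NPd.and (NPd.fo (FO.prop _)) (NPd.and (NPd.fo (heq 8 10)) ?_)
    exact NPd.sub dfcS dfcS_dt (npd_gk 1)
  · exact dfc_exSet (P := fun N B Y v => dfcY N B (sq v 0) (sq v 2)
      (dfcP b0 b1 N B (sq v 0) (sq v 2)) (dfcM b0 b1 (sq v 4) (sq v 6) (sq v 8) (sq v 10)) Y)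
      (dfc_fo b0 b1)

theorem dfc_all (b0 b1 : Bool) : NPd (fun N R _ => ∀ a1 a2 : ℕ, a1 < N → a2 < N →
    ∀ b1' b2 : ℕ, b1' < N → b2 < N → ∀ c1 c2 : ℕ, c1 < N → c2 < N → ∀ d1 d2 : ℕ, d1 < N → d2 < N →
    ∀ e1 e2 : ℕ, e1 < N → e2 < N → ∀ f1 f2 : ℕ, f1 < N → f2 < N →
    (dfcH b0 b1 N (bd N R 2) (f1, f2) (e1, e2) (d1, d2) (c1, c2) (b1', b2) (a1, a2) →
      dfcC b0 b1 N (bd N R 2) (f1, f2) (e1, e2) (d1, d2) (c1, c2) (b1', b2) (a1, a2))) :=
  NPd.allSq (NPd.allSq (NPd.allSq (NPd.allSq (NPd.allSq (NPd.allSq (dfc_body b0 b1))))))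

/-! ### Module DC: replies of men -/

theorem npd_repMan :
    NPd (fun N R _ => ∀ s, (bd N R 2) s = some bman → RepCap N (bd N R 2) s bman) := by
  refine NPd.congr ?_ (NPd.and (NPd.and (dfc_all false false) (dfc_all false true))
    (NPd.and (dfc_all true false) (dfc_all true true)))
  intro N R v
  constructor
  · intro h
    have hmp := dfc_mp (val_bd N R 2) h
    refine ⟨⟨?_, ?_⟩, ?_, ?_⟩
    all_goals
      intro _ _ _ _ _ _ _ _ _ _ _ _ _ _ _ _ _ _ _ _ _ _ _ _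
      exact hmp _ _ _ _ _ _ _ _
  · rintro ⟨⟨h1, h2⟩, h3, h4⟩
    refine dfc_mpr (val_bd N R 2) ?_
    intro b0 b1 s t f f' g g' os ot of of' og og'
    obtain ⟨f1, f2, hf1, hf2, rfl⟩ := sodc_on_nat os
    obtain ⟨e1, e2, he1, he2, rfl⟩ := sodc_on_nat ot
    obtain ⟨d1, d2, hd1, hd2, rfl⟩ := sodc_on_nat of
    obtain ⟨c1, c2, hc1, hc2, rfl⟩ := sodc_on_nat of'
    obtain ⟨b1', b2, hb1, hb2, rfl⟩ := sodc_on_nat og
    obtain ⟨a1, a2, ha1, ha2, rfl⟩ := sodc_on_nat og'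
    cases b0 <;> cases b1
    · exact h1 a1 a2 ha1 ha2 b1' b2 hb1 hb2 c1 c2 hc1 hc2 d1 d2 hd1 hd2 e1 e2 he1 he2 f1 f2 hf1 hf2
    · exact h2 a1 a2 ha1 ha2 b1' b2 hb1 hb2 c1 c2 hc1 hc2 d1 d2 hd1 hd2 e1 e2 he1 he2 f1 f2 hf1 hf2
    · exact h3 a1 a2 ha1 ha2 b1' b2 hb1 hb2 c1 c2 hc1 hc2 d1 d2 hd1 hd2 e1 e2 he1 he2 f1 f2 hf1 hf2
    · exact h4 a1 a2 ha1 ha2 b1' b2 hb1 hb2 c1 c2 hc1 hc2 d1 d2 hd1 hd2 e1 e2 he1 he2 f1 f2 hf1 hf2

end Pool.Agent.CHK
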