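import Pool.Agent.CHK.Gr

set_option autoImplicit false

/-! Finite multigraphs: basic facts. -/

namespace Pool.Agent.CHK

variable {α β : Type} [DecidableEq α] [DecidableEq β]

theorem chi_self (u x : α) : chi u u x = 0 := by
  unfold chi
  exact CharTwo.add_self_eq_zero _

theorem chi_comm (u v x : α) : chi u v x = chi v u x := by
  unfold chi
  exact add_comm _ _

theorem chi_add_chi (u v w x : α) : chi u v x + chi v w x = chi u w x := by
  unfold chi
  have h := CharTwo.add_self_eq_zero (if x = v then (1 : ZMod 2) else 0)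
  linear_combination h

theorem chi_zero {u v x : α} (h : x ≠ u) (h' : x ≠ v) : chi u v x = 0 := by
  unfold chi
  rw [if_neg h, if_neg h', add_zero]

theorem chi_left {u v : α} (h : u ≠ v) : chi u v u ≠ 0 := by
  unfold chi
  rw [if_pos rfl, if_neg h, add_zero]
  exact one_ne_zero

theorem MG.bdy_empty (G : MG α β) (v : α) : G.bdy ∅ v = 0 := by
  unfold MG.bdy
  exact Finset.sum_empty

theorem MG.bdy_singleton (G : MG α β) (e : β) (v : α) : G.bdy {e} v = chi (G.p e) (G.q e) v := by
  unfold MG.bdy chi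
  rw [Finset.sum_singleton]
  simp only [eq_comm]

theorem MG.bdy_union (G : MG α β) {S T : Finset β} (h : Disjoint S T) (v : α) :
    G.bdy (S ∪ T) v = G.bdy S v + G.bdy T v := by
  unfold MG.bdy
  exact Finset.sum_union h

theorem MG.bdy_sdiff (G : MG α β) {S T : Finset β} (h : T ⊆ S) (v : α) :
    G.bdy (S \ T) v = G.bdy S v + G.bdy T v := by
  have h1 := G.bdy_union (Finset.sdiff_disjoint : Disjoint (S \ T) T) v
  rw [Finset.sdiff_union_of_subset h] at h1
  have h2 := CharTwo.add_self_eq_zero (G.bdy T v)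
  linear_combination -h1 - h2

theorem MG.bdy_symmDiff (G : MG α β) (S T : Finset β) (v : α) :
    G.bdy (symmDiff S T) v = G.bdy S v + G.bdy T v := by
  have e1 : symmDiff S T = (S \ (S ∩ T)) ∪ (T \ (S ∩ T)) := by
    ext x
    simp only [Finset.mem_symmDiff, Finset.mem_union, Finset.mem_sdiff, Finset.mem_inter]
    tauto
  have hd : Disjoint (S \ (S ∩ T)) (T \ (S ∩ T)) := by
    rw [Finset.disjoint_left]
    intro x hx hx'
    simp only [Finset.mem_sdiff, Finset.mem_inter] at hx hx'
    tauto
  rw [e1, G.bdy_union hd, G.bdy_sdiff Finset.inter_subset_left,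
    G.bdy_sdiff Finset.inter_subset_right]
  have h2 := CharTwo.add_self_eq_zero (G.bdy (S ∩ T) v)
  linear_combination h2

theorem MG.bdy_card (G : MG α β) {S : Finset β} (h : G.NL S) (v : α) :
    G.bdy S v = ((G.star S v).card : ZMod 2) := by
  unfold MG.bdy MG.star
  rw [Finset.card_filter, Nat.cast_sum]
  refine Finset.sum_congr rfl fun e he => ?_
  have h1 := h e he
  by_cases hp : G.p e = v
  · have hq : G.q e ≠ v := fun hq => h1 (hp.trans hq.symm)
    simp [hp, hq]
  · by_cases hq : G.q e = v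
    · simp [hp, hq]
    · simp [hp, hq]

theorem MG.Adj.symm {G : MG α β} {S : Finset β} {u v : α} (h : G.Adj S u v) : G.Adj S v u := by
  obtain ⟨e, he, h | h⟩ := h
  · exact ⟨e, he, Or.inr ⟨h.2, h.1⟩⟩
  · exact ⟨e, he, Or.inl ⟨h.2, h.1⟩⟩

theorem MG.Con.symm {G : MG α β} {S : Finset β} {u v : α} (h : G.Con S u v) : G.Con S v u := by
  have h0 : ∀ w, Relation.ReflTransGen (G.Adj S) u w → Relation.ReflTransGen (G.Adj S) w u := by
    intro w hw
    induction hw with
    | refl => exact Relation.ReflTransGen.refl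
    | tail _ hs ih => exact Relation.ReflTransGen.head hs.symm ih
  exact h0 v h

theorem MG.Con.refl {G : MG α β} {S : Finset β} (u : α) : G.Con S u u :=
  Relation.ReflTransGen.refl

theorem MG.Con.trans {G : MG α β} {S : Finset β} {u v w : α} (h : G.Con S u v)
    (h' : G.Con S v w) : G.Con S u w := Relation.ReflTransGen.trans h h'

theorem MG.Con.mono {G : MG α β} {S T : Finset β} (hST : S ⊆ T) {u v : α} (h : G.Con S u v) :
    G.Con T u v := by
  have h0 : ∀ w, Relation.ReflTransGen (G.Adj S) u w → Relation.ReflTransGen (G.Adj T) u w := by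
    intro w hw
    induction hw with
    | refl => exact Relation.ReflTransGen.refl
    | tail _ hs ih =>
      obtain ⟨e, he, h⟩ := hs
      exact Relation.ReflTransGen.tail ih ⟨e, hST he, h⟩
  exact h0 v h

theorem MG.Con.edge {G : MG α β} {S : Finset β} {e : β} (he : e ∈ S) :
    G.Con S (G.p e) (G.q e) :=
  Relation.ReflTransGen.single ⟨e, he, Or.inl ⟨rfl, rfl⟩⟩

/-- A set which no edge leaves. -/
theorem MG.Con.closed {G : MG α β} {S : Finset β} {Y : α → Prop}
    (hY : ∀ e ∈ S, Y (G.p e) ↔ Y (G.q e)) {u v : α} (h : G.Con S u v) : Y u ↔ Y v := by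
  have h0 : ∀ w, Relation.ReflTransGen (G.Adj S) u w → (Y u ↔ Y w) := by
    intro w hw
    induction hw with
    | refl => exact Iff.rfl
    | tail _ hs ih =>
      obtain ⟨e, he, ⟨h1, h2⟩ | ⟨h1, h2⟩⟩ := hs
      · rw [← h1] at ih
        rw [← h2]
        exact ih.trans (hY e he)
      · rw [← h1] at ih
        rw [← h2]
        exact ih.trans (hY e he).symm
  exact h0 v h

theorem MG.sum_bdy (G : MG α β) {S : Finset β} {Y : Finset α}
    (hY : ∀ e ∈ S, G.p e ∈ Y ↔ G.q e ∈ Y) : ∑ v ∈ Y, G.bdy S v = 0 := by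
  unfold MG.bdy
  rw [Finset.sum_comm]
  refine Finset.sum_eq_zero fun e he => ?_
  rw [Finset.sum_add_distrib, Finset.sum_ite_eq, Finset.sum_ite_eq]
  by_cases h : G.p e ∈ Y
  · rw [if_pos h, if_pos ((hY e he).1 h)]
    exact CharTwo.add_self_eq_zero _
  · rw [if_neg h, if_neg (fun h' => h ((hY e he).2 h')), add_zero]

theorem MG.comp_sub (G : MG α β) (S : Finset β) (s : α) : G.comp S s ⊆ S := by
  classical
  unfold MG.comp
  exact Finset.filter_subset _ _

theorem MG.mem_comp (G : MG α β) {S : Finset β} {s : α} {e : β} :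
    e ∈ G.comp S s ↔ e ∈ S ∧ G.Con S s (G.p e) := by
  classical
  unfold MG.comp
  exact Finset.mem_filter

theorem MG.con_comp (G : MG α β) {S : Finset β} {s v : α} (h : G.Con S s v) :
    G.Con (G.comp S s) s v := by
  have h0 : ∀ w, Relation.ReflTransGen (G.Adj S) s w → G.Con (G.comp S s) s w := by
    intro w hw
    induction hw with
    | refl => exact MG.Con.refl _
    | tail hb hs ih =>
      obtain ⟨e, he, ⟨h1, h2⟩ | ⟨h1, h2⟩⟩ := hs
      · refine ih.trans (Relation.ReflTransGen.single ⟨e, ?_, Or.inl ⟨h1, h2⟩⟩)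
        rw [G.mem_comp]
        exact ⟨he, h1.symm ▸ hb⟩
      · refine ih.trans (Relation.ReflTransGen.single ⟨e, ?_, Or.inr ⟨h1, h2⟩⟩)
        rw [G.mem_comp]
        refine ⟨he, ?_⟩
        have h3 : G.Con S s (G.q e) := h1.symm ▸ hb
        exact h3.trans (MG.Con.edge he).symm
  exact h0 v h

open Classical in
theorem MG.bdy_comp (G : MG α β) (S : Finset β) (s v : α) :
    G.bdy (G.comp S s) v = if G.Con S s v then G.bdy S v else 0 := by
  split_ifs with h
  · unfold MG.bdy
    refine Finset.sum_subset (G.comp_sub S s) fun e he hc => ?_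
    have hp : G.p e ≠ v := fun hp => hc (G.mem_comp.2 ⟨he, hp.symm ▸ h⟩)
    have hq : G.q e ≠ v := fun hq =>
      hc (G.mem_comp.2 ⟨he, (show G.Con S s (G.q e) from hq.symm ▸ h).trans
        (MG.Con.edge he).symm⟩)
    rw [if_neg hp, if_neg hq, add_zero]
  · unfold MG.bdy
    refine Finset.sum_eq_zero fun e he => ?_
    rw [G.mem_comp] at he
    have hp : G.p e ≠ v := fun hp => h (hp ▸ he.2)
    have hq : G.q e ≠ v := fun hq => h (hq ▸ he.2.trans (MG.Con.edge he.1))
    rw [if_neg hp, if_neg hq, add_zero]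

open Classical in
/-- In a component the sum of the parities is zero. -/
theorem MG.odd_pair (G : MG α β) {S : Finset β} {u : α} (h : G.bdy S u ≠ 0) :
    ∃ v, v ≠ u ∧ G.bdy S v ≠ 0 ∧ G.Con S u v := by
  by_contra hn
  push Not at hn
  set Y : Finset α := ((S.image G.p ∪ S.image G.q) ∪ {u}).filter fun v => G.Con S u v with hYd
  have hY : ∀ e ∈ S, G.p e ∈ Y ↔ G.q e ∈ Y := by
    intro e he
    have h1 : G.p e ∈ (S.image G.p ∪ S.image G.q) ∪ {u} :=
      Finset.mem_union_left _ (Finset.mem_union_left _ (Finset.mem_image_of_mem _ he))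
    have h2 : G.q e ∈ (S.image G.p ∪ S.image G.q) ∪ {u} :=
      Finset.mem_union_left _ (Finset.mem_union_right _ (Finset.mem_image_of_mem _ he))
    rw [hYd, Finset.mem_filter, Finset.mem_filter]
    exact ⟨fun h => ⟨h2, h.2.trans (MG.Con.edge he)⟩,
      fun h => ⟨h1, h.2.trans (MG.Con.edge he).symm⟩⟩
  have h1 := G.sum_bdy hY
  have hu : u ∈ Y := by
    rw [hYd, Finset.mem_filter]
    exact ⟨Finset.mem_union_right _ (Finset.mem_singleton_self _), MG.Con.refl _⟩
  have h2 : ∑ v ∈ Y, G.bdy S v = G.bdy S u := by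
    refine Finset.sum_eq_single_of_mem u hu fun v hv hvu => ?_
    rw [hYd, Finset.mem_filter] at hv
    by_contra h3
    exact hn v hvu h3 hv.2
  exact h (h2 ▸ h1)

theorem MG.con_of_chi (G : MG α β) {S : Finset β} {s t : α} (h : ∀ v, G.bdy S v = chi s t v) :
    G.Con S s t := by
  by_cases hst : s = t
  · rw [hst]
    exact MG.Con.refl _
  · obtain ⟨v, hv, hb, hc⟩ := G.odd_pair (u := s) (by rw [h]; exact chi_left hst)
    have hvt : v = t := by
      by_contra hvt
      exact hb ((h v).trans (chi_zero hv hvt))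
    exact hvt ▸ hc

/-- The component of an edge set with the parities of a path. -/
theorem MG.comp_chi (G : MG α β) {P : Finset β} {u v : α} (h : ∀ x, G.bdy P x = chi u v x) :
    (∀ x, G.bdy (G.comp P u) x = chi u v x) ∧ G.Con (G.comp P u) u v ∧
      ∀ e ∈ G.comp P u, G.Con (G.comp P u) u (G.p e) := by
  have hc := G.con_of_chi h
  refine ⟨fun x => ?_, G.con_comp hc, fun e he => G.con_comp (G.mem_comp.1 he).2⟩
  classical
  rw [G.bdy_comp]
  split_ifs with hx
  · exact h x
  · refine (chi_zero ?_ ?_).symm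
    · rintro rfl
      exact hx (MG.Con.refl _)
    · rintro rfl
      exact hx hc

theorem MG.Adj.chi {G : MG α β} {S : Finset β} {u v : α} (h : G.Adj S u v) :
    ∃ e ∈ S, (∀ x, G.bdy {e} x = chi u v x) ∧ ∀ y, (G.p e = y ∨ G.q e = y) → y = u ∨ y = v := by
  obtain ⟨e, he, ⟨h1, h2⟩ | ⟨h1, h2⟩⟩ := h
  · refine ⟨e, he, fun x => ?_, fun y hy => ?_⟩
    · rw [G.bdy_singleton, h1, h2]
    · rcases hy with hy | hy
      · exact Or.inl (hy.symm.trans h1)
      · exact Or.inr (hy.symm.trans h2)
  · refine ⟨e, he, fun x => ?_, fun y hy => ?_⟩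
    · rw [G.bdy_singleton, h1, h2, chi_comm]
    · rcases hy with hy | hy
      · exact Or.inr (hy.symm.trans h2)
      · exact Or.inl (hy.symm.trans h1)

theorem symmDiff_singleton_sub {S P : Finset β} {e : β} (hP : P ⊆ S) (he : e ∈ S) :
    symmDiff {e} P ⊆ S := by
  intro x hx
  rw [Finset.mem_symmDiff, Finset.mem_singleton] at hx
  rcases hx with hx | hx
  · rw [hx.1]; exact he
  · exact hP hx.1

/-- A path as an edge set: minimal connection of `u` and `v`. -/
theorem MG.Con.path {G : MG α β} {S : Finset β} {u v : α} (h : G.Con S u v) :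
    ∃ P ⊆ S, (∀ x, G.bdy P x = chi u v x) ∧ G.Con P u v ∧ ∀ e ∈ P, G.Con P u (G.p e) := by
  have h0 : ∀ w, Relation.ReflTransGen (G.Adj S) w v →
      ∃ P ⊆ S, ∀ x, G.bdy P x = CHK.chi w v x := by
    intro w hw
    induction hw using Relation.ReflTransGen.head_induction_on with
    | refl => exact ⟨∅, Finset.empty_subset _, fun x => by rw [G.bdy_empty, chi_self]⟩
    | head hs _ ih =>
      obtain ⟨P, hP, hb⟩ := ih
      obtain ⟨e, he, hc, -⟩ := hs.chi
      exact ⟨symmDiff {e} P, symmDiff_singleton_sub hP he, fun x => by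
        rw [G.bdy_symmDiff, hc, hb, chi_add_chi]⟩
  obtain ⟨P, hP, hb⟩ := h0 u h
  have h1 := G.comp_chi hb
  exact ⟨G.comp P u, (G.comp_sub P u).trans hP, h1.1, h1.2.1, h1.2.2⟩

/-- A path from `u` to the set `K` which meets `K` only at its end. -/
theorem MG.Con.path_to {G : MG α β} {S : Finset β} {u v : α} {K : α → Prop} (h : G.Con S u v)
    (hv : K v) : ∃ x, K x ∧ ∃ P ⊆ S, (∀ y, G.bdy P y = chi u x y) ∧
      (∀ e ∈ P, ¬ (K (G.p e) ∧ K (G.q e))) ∧ (∀ e ∈ P, ∀ y, (G.p e = y ∨ G.q e = y) → K y → y = x) ∧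
      ∀ e ∈ P, G.Con P u (G.p e) := by
  have h0 : ∀ w, Relation.ReflTransGen (G.Adj S) w v → ∃ x, K x ∧ ∃ P ⊆ S,
      (∀ y, G.bdy P y = CHK.chi w x y) ∧ (∀ e ∈ P, ¬ (K (G.p e) ∧ K (G.q e))) ∧
      (∀ e ∈ P, ∀ y, (G.p e = y ∨ G.q e = y) → K y → y = x) := by
    intro w hw
    induction hw using Relation.ReflTransGen.head_induction_on with
    | refl =>
      exact ⟨v, hv, ∅, Finset.empty_subset _, fun x => by rw [G.bdy_empty, chi_self],
        fun e he => absurd he (Finset.notMem_empty _), fun e he => absurd he (Finset.notMem_empty _)⟩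
    | @head a c hs _ ih =>
      by_cases ha : K a
      · exact ⟨a, ha, ∅, Finset.empty_subset _, fun x => by rw [G.bdy_empty, chi_self],
          fun e he => absurd he (Finset.notMem_empty _),
          fun e he => absurd he (Finset.notMem_empty _)⟩
      obtain ⟨e, he, hc, hends⟩ := hs.chi
      have hne : ¬ (K (G.p e) ∧ K (G.q e)) := by
        rintro ⟨h1, h2⟩
        rcases hends _ (Or.inl rfl) with h3 | h3
        · exact ha (h3 ▸ h1)
        · rcases hends _ (Or.inr rfl) with h4 | h4
          · exact ha (h4 ▸ h2)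
          · -- both ends are c, then bdy {e} a = 0
            obtain ⟨e', he', h5⟩ := hs
            have h6 := hc a
            rw [G.bdy_singleton, h3, h4, chi_self] at h6
            by_cases hac : a = c
            · exact ha (by rw [hac, ← h3]; exact h1)
            · exact chi_left hac h6.symm
      by_cases hcK : K c
      · refine ⟨c, hcK, {e}, by simpa using he, hc, ?_, ?_⟩
        · intro e' he'
          rw [Finset.mem_singleton] at he'
          rw [he']; exact hne
        · intro e' he' y hy hKy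
          rw [Finset.mem_singleton] at he'
          rw [he'] at hy
          rcases hends y hy with h1 | h1
          · exact absurd (h1 ▸ hKy) ha
          · exact h1
      · obtain ⟨x, hx, P, hP, hb, hP1, hP2⟩ := ih
        refine ⟨x, hx, symmDiff {e} P, symmDiff_singleton_sub hP he, fun y => by
          rw [G.bdy_symmDiff, hc, hb, chi_add_chi], ?_, ?_⟩
        · intro e' he'
          rw [Finset.mem_symmDiff, Finset.mem_singleton] at he'
          rcases he' with he' | he'
          · rw [he'.1]; exact hne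
          · exact hP1 e' he'.1
        · intro e' he' y hy hKy
          rw [Finset.mem_symmDiff, Finset.mem_singleton] at he'
          rcases he' with he' | he'
          · rw [he'.1] at hy
            rcases hends y hy with h1 | h1
            · exact absurd (h1 ▸ hKy) ha
            · exact absurd (h1 ▸ hKy) hcK
          · exact hP2 e' he'.1 y hy hKy
  obtain ⟨x, hx, P, hP, hb, hP1, hP2⟩ := h0 u h
  have h1 := G.comp_chi hb
  exact ⟨x, hx, G.comp P u, (G.comp_sub P u).trans hP, h1.1,
    fun e he => hP1 e (G.comp_sub P u he), fun e he => hP2 e (G.comp_sub P u he), h1.2.2⟩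

/-- The component of `t` of a set with the right parities is a reply. -/
theorem MG.rep_comp (G : MG α β) {E E' : Finset β} {s t : α} (hE : E' ⊆ E) {S : Finset β}
    (hS : S ⊆ E') (hb : ∀ v, G.bdy S v = chi s t v) (hR : G.star E t ⊆ S) :
    G.Rep E' s t (G.star E t) (G.comp S t) := by
  have hb' : ∀ v, G.bdy S v = chi t s v := fun v => by rw [hb, chi_comm]
  have h1 := G.comp_chi hb'
  refine ⟨(G.comp_sub S t).trans hS, fun v => by rw [h1.1, chi_comm], fun e he => ?_, h1.2.2⟩
  rw [G.mem_comp]
  refine ⟨hR he, ?_⟩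
  unfold MG.star at he
  rw [Finset.mem_filter] at he
  rcases he.2 with hp | hq
  · rw [hp]; exact MG.Con.refl _
  · have h2 : G.Con S (G.p e) (G.q e) := MG.Con.edge (hR (by
      unfold MG.star; rw [Finset.mem_filter]; exact ⟨he.1, Or.inr hq⟩))
    rw [hq] at h2
    exact h2.symm

end Pool.Agent.CHK
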