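import Pool.Agent.CHK.Fs
import Pool.Agent.CHK.SodC
import Pool.Agent.CHK.GrA

set_option autoImplicit false

/-! First-order definability of the graph of a black king. -/

namespace Pool.Agent.CHK

theorem fog_val (N : ℕ) (R : ℕ → List ℕ → Prop) (k : ℕ) : Val N (bd N R k) := by
  intro z hz
  by_contra h
  apply hz
  unfold bd
  rw [if_neg]
  rintro ⟨h1, -⟩
  exact h h1

theorem mem_box {N : ℕ} {z : Sq} : z ∈ box N ↔ 0 ≤ z.1 ∧ z.1 < N ∧ 0 ≤ z.2 ∧ z.2 < N := by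
  unfold box
  rw [Finset.mem_product, Finset.mem_Ico, Finset.mem_Ico]
  tauto

theorem on_box {N : ℕ} {z : Sq} (h : On N z) : z ∈ box N :=
  mem_box.2 ⟨h.1, h.2.1, h.2.2.1, h.2.2.2.1⟩

theorem mem_fs {N : ℕ} {R : ℕ → List ℕ → Prop} {k : ℕ} {z : Sq} :
    z ∈ fs N R k ↔ sset N R k z := by
  classical
  unfold fs
  rw [Finset.mem_filter]
  exact ⟨fun h => h.2, fun h => ⟨on_box h.1, h⟩⟩

theorem fs_on {N : ℕ} {R : ℕ → List ℕ → Prop} {k : ℕ} {z : Sq} (h : z ∈ fs N R k) : On N z :=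
  (mem_fs.1 h).1

theorem fs_update {N : ℕ} {R : ℕ → List ℕ → Prop} {k j : ℕ} (h : j ≠ k) (X : List ℕ → Prop) :
    fs N (Function.update R k X) j = fs N R j := by
  ext z
  rw [mem_fs, mem_fs, sset_update h]

/-- A finite set of squares of the board is described by a relation. -/
theorem exists_fs {N : ℕ} (A : Finset Sq) (hA : ∀ z ∈ A, On N z)
    (R : ℕ → List ℕ → Prop) (k : ℕ) :
    ∃ X : List ℕ → Prop, fs N (Function.update R k X) k = A := by
  obtain ⟨X, hX⟩ := exists_sset (fun z => z ∈ A) hA R k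
  refine ⟨X, ?_⟩
  ext z
  rw [mem_fs, hX]

theorem fog_mem_Ed {N : ℕ} {R : ℕ → List ℕ → Prop} {k : ℕ} {s e : Sq} :
    e ∈ Ed N (bd N R k) s ↔
      IsE (Col (bd N R k) true) (Ver N (bd N R k) s) s e := by
  classical
  unfold Ed
  rw [Finset.mem_filter]
  refine ⟨fun h => h.2, fun h => ⟨on_box ?_, h⟩⟩
  obtain ⟨⟨P, hP, -⟩, -⟩ := h
  exact fog_val N R k e (by rw [hP]; simp)

theorem fog_Ed_on {N : ℕ} {R : ℕ → List ℕ → Prop} {k : ℕ} {s e : Sq}
    (h : e ∈ Ed N (bd N R k) s) : On N e ∧ On N ((gr s).p e) ∧ On N ((gr s).q e) := by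
  have h' := fog_mem_Ed.1 h
  refine ⟨?_, h'.2.1.2.1, h'.2.2.2.1⟩
  obtain ⟨⟨P, hP, -⟩, -⟩ := h'
  exact fog_val N R k e (by rw [hP]; simp)

theorem fog_dl_dg (s e : Sq) : Dg (dl s e) := by
  unfold dl Dg
  split_ifs <;> simp

theorem fog_neg_dg {d : Sq} (h : Dg d) : Dg (-d) := by
  unfold Dg at *
  rcases h with ⟨h1 | h1, h2 | h2⟩ <;> simp [h1, h2]

/-! ### First-order formulas -/

theorem FO.dl {Q : Sq → ℕ → (ℕ → List ℕ → Prop) → (List ℕ → Prop) → (ℕ → ℕ) → Prop}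
    (j i : ℕ) (c : Sq) (h : ∀ d, FO (Q d)) :
    FO (fun N R C v => Q (dl (sq v j) (sq v i + c)) N R C v) := by
  refine FO.congr (fun N R C v => ?_)
    (FO.or (FO.and (FO.cls j i (c + (1, 1))) (h (1, 1)))
      (FO.and (FO.not (FO.cls j i (c + (1, 1)))) (h (1, -1))))
  rw [← add_assoc]
  unfold CHK.dl
  split_ifs with h1
  · simp [h1]
  · simp [h1]

theorem FO.pe {A : ℕ → (ℕ → List ℕ → Prop) → (List ℕ → Prop) → (ℕ → ℕ) → Sq → Prop}
    (j i : ℕ) (c : Sq) (h : ∀ c, FO (fun N R C v => A N R C v (sq v i + c))) :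
    FO (fun N R C v => A N R C v ((gr (sq v j)).p (sq v i + c))) :=
  FO.dl (Q := fun d N R C v => A N R C v (sq v i + c + d)) j i c
    (fun d => by simpa only [add_assoc] using h (c + d))

theorem FO.qe {A : ℕ → (ℕ → List ℕ → Prop) → (List ℕ → Prop) → (ℕ → ℕ) → Sq → Prop}
    (j i : ℕ) (c : Sq) (h : ∀ c, FO (fun N R C v => A N R C v (sq v i + c))) :
    FO (fun N R C v => A N R C v ((gr (sq v j)).q (sq v i + c))) :=
  FO.dl (Q := fun d N R C v => A N R C v (sq v i + c - d)) j i c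
    (fun d => by simpa only [add_sub_assoc] using h (c - d))

theorem FO.eq_sq (i j : ℕ) (c : Sq) : FO (fun _ _ _ v => sq v i + c = sq v j) :=
  FO.congr (fun _ _ _ _ => eq_comm) (FO.sq_eq j i c)

theorem FO.col (k i : ℕ) (c : Sq) : FO (fun N R _ v => Col (bd N R k) true (sq v i + c)) := by
  refine FO.congr (fun N R C v => ?_)
    (FO.or (FO.bd_eq k i c (some ⟨true, true⟩)) (FO.bd_eq k i c (some ⟨true, false⟩)))
  constructor
  · rintro ⟨⟨a, b⟩, h1, h2⟩
    simp only at h2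
    subst h2
    cases b
    · exact Or.inr h1
    · exact Or.inl h1
  · rintro (h | h)
    · exact ⟨_, h, rfl⟩
    · exact ⟨_, h, rfl⟩

theorem FO.fre (k j i : ℕ) (c : Sq) :
    FO (fun N R _ v => Fre N (bd N R k) (sq v j) (sq v i + c)) :=
  FO.and (FO.on i c) (FO.or (FO.bd_eq k i c none) (FO.eq_sq i j c))

theorem FO.ver (k j i : ℕ) (c : Sq) :
    FO (fun N R _ v => Ver N (bd N R k) (sq v j) (sq v i + c)) :=
  FO.and (FO.cls j i c) (FO.fre k j i c)

theorem FO.mem_fs (k i : ℕ) (c : Sq) : FO (fun N R _ v => sq v i + c ∈ fs N R k) :=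
  FO.congr (fun _ _ _ _ => CHK.mem_fs) (FO.sset_mem k i c)

theorem FO.mem_Ed (k j i : ℕ) (c : Sq) :
    FO (fun N R _ v => sq v i + c ∈ Ed N (bd N R k) (sq v j)) := by
  refine FO.congr (fun _ _ _ _ => fog_mem_Ed) ?_
  refine FO.and (FO.col k i c) (FO.and ?_ ?_)
  · exact FO.pe (A := fun N R C v z => Ver N (bd N R k) (sq v j) z) j i c
      (fun c => FO.ver k j i c)
  · exact FO.qe (A := fun N R C v z => Ver N (bd N R k) (sq v j) z) j i c
      (fun c => FO.ver k j i c)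

theorem FO.pe_eq (j t i : ℕ) (c : Sq) :
    FO (fun _ _ _ v => (gr (sq v j)).p (sq v i + c) = sq v t) :=
  FO.pe (A := fun N R C v z => z = sq v t) j i c (fun c => FO.eq_sq i t c)

theorem FO.qe_eq (j t i : ℕ) (c : Sq) :
    FO (fun _ _ _ v => (gr (sq v j)).q (sq v i + c) = sq v t) :=
  FO.qe (A := fun N R C v z => z = sq v t) j i c (fun c => FO.eq_sq i t c)

theorem FO.pe_fs (k j i : ℕ) (c : Sq) :
    FO (fun N R _ v => (gr (sq v j)).p (sq v i + c) ∈ fs N R k) :=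
  FO.pe (A := fun N R C v z => z ∈ fs N R k) j i c (fun c => FO.mem_fs k i c)

theorem FO.qe_fs (k j i : ℕ) (c : Sq) :
    FO (fun N R _ v => (gr (sq v j)).q (sq v i + c) ∈ fs N R k) :=
  FO.qe (A := fun N R C v z => z ∈ fs N R k) j i c (fun c => FO.mem_fs k i c)

theorem FO.mem_star (k j t i : ℕ) (c : Sq) :
    FO (fun N R _ v => sq v i + c ∈ (gr (sq v j)).star (Ed N (bd N R k) (sq v j)) (sq v t)) := by
  refine FO.congr (fun _ _ _ _ => Finset.mem_filter) ?_
  exact FO.and (FO.mem_Ed k j i c) (FO.or (FO.pe_eq j t i c) (FO.qe_eq j t i c))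

/-! ### Quantifiers over sets of squares -/

theorem FO.allE {A P : ℕ → (ℕ → List ℕ → Prop) → (List ℕ → Prop) → (ℕ → ℕ) → Sq → Prop}
    (hon : ∀ N R C v z, A N R C v z → On N z)
    (hA : FO (fun N R C w => A N R C (fun i => w (i + 2)) (sq w 0 + 0)))
    (hP : FO (fun N R C w => P N R C (fun i => w (i + 2)) (sq w 0 + 0))) :
    FO (fun N R C v => ∀ z, A N R C v z → P N R C v z) := by
  refine FO.congr (fun N R C v => ?_) (FO.allSq (FO.imp hA hP))
  rw [all_on (N := N) (A := fun z => A N R C v z → P N R C v z)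
    (fun z h => hon N R C v z (by by_contra h'; exact h (fun h'' => absurd h'' h')))]
  simp only [add_zero]
  rfl

theorem FO.exE {A P : ℕ → (ℕ → List ℕ → Prop) → (List ℕ → Prop) → (ℕ → ℕ) → Sq → Prop}
    (hon : ∀ N R C v z, A N R C v z → On N z)
    (hA : FO (fun N R C w => A N R C (fun i => w (i + 2)) (sq w 0 + 0)))
    (hP : FO (fun N R C w => P N R C (fun i => w (i + 2)) (sq w 0 + 0))) :
    FO (fun N R C v => ∃ z, A N R C v z ∧ P N R C v z) := by
  refine FO.congr (fun N R C v => ?_) (FO.exSq (FO.and hA hP))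
  rw [ex_on (N := N) (A := fun z => A N R C v z ∧ P N R C v z) (fun z h => hon N R C v z h.1)]
  simp only [add_zero]
  rfl

theorem NPd.allE {A P : ℕ → (ℕ → List ℕ → Prop) → (ℕ → ℕ) → Sq → Prop}
    (hon : ∀ N R v z, A N R v z → On N z)
    (hA : FO (fun N R _ w => A N R (fun i => w (i + 2)) (sq w 0 + 0)))
    (hP : NPd (fun N R w => P N R (fun i => w (i + 2)) (sq w 0 + 0))) :
    NPd (fun N R v => ∀ z, A N R v z → P N R v z) := by
  refine NPd.congr (fun N R v => ?_) (NPd.allSq (NPd.imp hA hP))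
  rw [all_on (N := N) (A := fun z => A N R v z → P N R v z)
    (fun z h => hon N R v z (by by_contra h'; exact h (fun h'' => absurd h'' h')))]
  simp only [add_zero]
  rfl

theorem NPd.exE {A P : ℕ → (ℕ → List ℕ → Prop) → (ℕ → ℕ) → Sq → Prop}
    (hon : ∀ N R v z, A N R v z → On N z)
    (hA : FO (fun N R _ w => A N R (fun i => w (i + 2)) (sq w 0 + 0)))
    (hP : NPd (fun N R w => P N R (fun i => w (i + 2)) (sq w 0 + 0))) :
    NPd (fun N R v => ∃ z, A N R v z ∧ P N R v z) := by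
  refine NPd.congr (fun N R v => ?_) (NPd.exSq (NPd.and (NPd.fo hA) hP))
  rw [ex_on (N := N) (A := fun z => A N R v z ∧ P N R v z) (fun z h => hon N R v z h.1)]
  simp only [add_zero]
  rfl

/-! ### Parities -/

/-- The sum over the four diagonal directions. -/
def s4 (g : Sq → ZMod 2) : ZMod 2 := g (1, 1) + g (1, -1) + g (-1, 1) + g (-1, -1)

/-- Definable functions with values in `ZMod 2`. -/
def FZ (φ : ℕ → (ℕ → List ℕ → Prop) → (List ℕ → Prop) → (ℕ → ℕ) → ZMod 2) : Prop :=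
  FO (fun N R C v => φ N R C v ≠ 0)

theorem FZ.congr {φ ψ : ℕ → (ℕ → List ℕ → Prop) → (List ℕ → Prop) → (ℕ → ℕ) → ZMod 2}
    (h : ∀ N R C v, φ N R C v = ψ N R C v) (hψ : FZ ψ) : FZ φ :=
  FO.congr (fun N R C v => by rw [h N R C v]) hψ

theorem FZ.add {φ ψ : ℕ → (ℕ → List ℕ → Prop) → (List ℕ → Prop) → (ℕ → ℕ) → ZMod 2}
    (hφ : FZ φ) (hψ : FZ ψ) : FZ (fun N R C v => φ N R C v + ψ N R C v) := by
  have key : ∀ a b : ZMod 2, a + b ≠ 0 ↔ (a ≠ 0 ∧ ¬ b ≠ 0) ∨ (¬ a ≠ 0 ∧ b ≠ 0) := by decide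
  exact FO.congr (fun N R C v => key _ _)
    (FO.or (FO.and hφ (FO.not hψ)) (FO.and (FO.not hφ) hψ))

theorem FZ.ite {Q : ℕ → (ℕ → List ℕ → Prop) → (List ℕ → Prop) → (ℕ → ℕ) → Prop}
    {φ : ℕ → (ℕ → List ℕ → Prop) → (List ℕ → Prop) → (ℕ → ℕ) → ZMod 2}
    [∀ N R C v, Decidable (Q N R C v)] (hQ : FO Q) (hφ : FZ φ) :
    FZ (fun N R C v => if Q N R C v then φ N R C v else 0) := by
  refine FO.congr (fun N R C v => ?_) (FO.and hQ hφ)
  by_cases h : Q N R C v
  · simp [h]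
  · simp [h]

theorem FZ.one : FZ (fun _ _ _ _ => 1) :=
  FO.congr (fun _ _ _ _ => by simp) (FO.prop True)

theorem FZ.ind {Q : ℕ → (ℕ → List ℕ → Prop) → (List ℕ → Prop) → (ℕ → ℕ) → Prop}
    [∀ N R C v, Decidable (Q N R C v)] (hQ : FO Q) :
    FZ (fun N R C v => if Q N R C v then 1 else 0) := FZ.ite hQ FZ.one

theorem FZ.s4 {g : Sq → ℕ → (ℕ → List ℕ → Prop) → (List ℕ → Prop) → (ℕ → ℕ) → ZMod 2}
    (h : ∀ d, FZ (g d)) : FZ (fun N R C v => s4 (fun d => g d N R C v)) :=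
  FZ.add (FZ.add (FZ.add (h _) (h _)) (h _)) (h _)

theorem sum_at {S : Finset Sq} {f : Sq → ZMod 2} {z : Sq}
    (h : ∀ e ∈ S, f e ≠ 0 → ∃ d, Dg d ∧ e = z + d) :
    ∑ e ∈ S, f e = s4 (fun d => if z + d ∈ S then f (z + d) else 0) := by
  classical
  have h1 : s4 (fun d => if z + d ∈ S then f (z + d) else 0) =
      ∑ d ∈ ({(1, 1), (1, -1), (-1, 1), (-1, -1)} : Finset Sq),
        if z + d ∈ S then f (z + d) else 0 := by
    rw [Finset.sum_insert (by decide), Finset.sum_insert (by decide),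
      Finset.sum_insert (by decide), Finset.sum_singleton]
    unfold CHK.s4
    ring
  rw [h1, ← Finset.sum_filter]
  symm
  refine Finset.sum_of_injOn (fun d => z + d) ?_ ?_ ?_ ?_
  · intro a _ b _ hab
    exact add_left_cancel hab
  · intro d hd
    exact (Finset.mem_filter.1 hd).2
  · intro e he hne
    by_contra hf
    obtain ⟨d, hd, rfl⟩ := h e he hf
    apply hne
    refine ⟨d, ?_, rfl⟩
    rw [Finset.mem_coe, Finset.mem_filter]
    refine ⟨?_, he⟩
    obtain ⟨a, b⟩ := d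
    unfold Dg at hd
    simp only at hd
    rcases hd with ⟨rfl | rfl, rfl | rfl⟩ <;> simp
  · intro d _
    rfl

/-- The ends of an edge are its neighbours. -/
theorem end_add {s e v : Sq} (h : (gr s).p e = v ∨ (gr s).q e = v) : ∃ d, Dg d ∧ e = v + d := by
  rcases h with h | h
  · exact ⟨-dl s e, fog_neg_dg (fog_dl_dg s e), by rw [← h]; simp [gr]⟩
  · exact ⟨dl s e, fog_dl_dg s e, by rw [← h]; simp [gr]⟩

theorem bdy_s4 (s v : Sq) (S : Finset Sq) :
    (gr s).bdy S v = s4 (fun d => if v + d ∈ S then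
      ((if (gr s).p (v + d) = v then 1 else 0) + if (gr s).q (v + d) = v then 1 else 0) else 0) := by
  refine sum_at (f := fun e => (if (gr s).p e = v then 1 else 0) +
    if (gr s).q e = v then 1 else 0) (fun e _ hne => ?_)
  apply end_add (s := s)
  by_contra h
  rw [not_or] at h
  simp [h.1, h.2] at hne

/-- Definability of the parity at `sq v i` of a definable set of edges. -/
theorem FZ.bdy {S : ℕ → (ℕ → List ℕ → Prop) → (List ℕ → Prop) → (ℕ → ℕ) → Finset Sq} (j i : ℕ)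
    (hS : ∀ c, FO (fun N R C v => sq v i + c ∈ S N R C v)) :
    FZ (fun N R C v => (gr (sq v j)).bdy (S N R C v) (sq v i)) := by
  refine FZ.congr (fun N R C v => bdy_s4 _ _ _) ?_
  refine FZ.s4 (g := fun d N R C v => if sq v i + d ∈ S N R C v then
      ((if (gr (sq v j)).p (sq v i + d) = sq v i then 1 else 0) +
        if (gr (sq v j)).q (sq v i + d) = sq v i then 1 else 0) else 0) (fun d => ?_)
  exact FZ.ite (hS d) (FZ.add (FZ.ind (FO.pe_eq j i i d)) (FZ.ind (FO.qe_eq j i i d)))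

theorem FZ.chi (a b i : ℕ) : FZ (fun _ _ _ v => chi (sq v a) (sq v b) (sq v i)) := by
  refine FZ.add (FZ.ind ?_) (FZ.ind ?_)
  · simpa using FO.eq_sq i a 0
  · simpa using FO.eq_sq i b 0

theorem sum_bdy_swap (s : Sq) (S Y : Finset Sq) :
    ∑ v ∈ Y, (gr s).bdy S v =
      ∑ e ∈ S, ((if (gr s).p e ∈ Y then 1 else 0) + if (gr s).q e ∈ Y then 1 else 0) := by
  unfold MG.bdy
  rw [Finset.sum_comm]
  refine Finset.sum_congr rfl (fun e _ => ?_)
  rw [Finset.sum_add_distrib, Finset.sum_ite_eq, Finset.sum_ite_eq]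

theorem sum_chi (s t : Sq) (Y : Finset Sq) :
    ∑ v ∈ Y, chi s t v = (if s ∈ Y then 1 else 0) + if t ∈ Y then 1 else 0 := by
  unfold chi
  rw [Finset.sum_add_distrib, Finset.sum_ite_eq', Finset.sum_ite_eq']

end Pool.Agent.CHK
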