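import Pool.Agent.CHK.GrA

set_option autoImplicit false

namespace Pool.Agent.CHK

variable {α β : Type} [DecidableEq α] [DecidableEq β]

/-! ### Module GB: joins -/

omit [DecidableEq β] in
private theorem grB_con_finite (G : MG α β) (Q : Finset β) (u : α) :
    {v | G.Con Q u v}.Finite := by
  refine Set.Finite.subset (Finset.finite_toSet
    (insert u (Q.image G.p ∪ Q.image G.q))) fun v hv => ?_
  rw [Set.mem_ofPred_eq, MG.Con, Relation.ReflTransGen.cases_tail_iff] at hv
  rw [Finset.coe_insert, Finset.coe_union, Finset.coe_image, Finset.coe_image]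
  rcases hv with h | ⟨w, _, e, he, h | h⟩
  · exact Or.inl h
  · exact Or.inr (Or.inr ⟨e, he, h.2⟩)
  · exact Or.inr (Or.inl ⟨e, he, h.2⟩)

private theorem grB_two (x : ZMod 2) (h : x ≠ 0) : x = 1 := by
  revert x; decide

private theorem grB_add_self (x : ZMod 2) : x + x = 0 := by
  revert x; decide

private theorem grB_aux (G : MG α β) (Q : Finset β) : ∀ (n : ℕ) (θ : α → ZMod 2)
    (hθ : {v | θ v ≠ 0}.Finite), hθ.toFinset.card = n →
    (∀ Y : Finset α, (∀ e ∈ Q, G.p e ∈ Y ↔ G.q e ∈ Y) → ∑ v ∈ Y, θ v = 0) →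
    ∃ M ⊆ Q, ∀ v, G.bdy M v = θ v := by
  intro n
  induction n using Nat.strong_induction_on with
  | _ n ih =>
    intro θ hθ hn hY
    by_cases h0 : ∀ v, θ v = 0
    · exact ⟨∅, Finset.empty_subset _, fun v => by rw [h0 v]; simp [MG.bdy]⟩
    push Not at h0
    obtain ⟨u, hu⟩ := h0
    have hfin := grB_con_finite G Q u
    have hmem : ∀ v, v ∈ hfin.toFinset ↔ G.Con Q u v := fun v => by
      rw [Set.Finite.mem_toFinset]; rfl
    have hsum := hY hfin.toFinset (by
      intro e he
      rw [hmem, hmem]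
      exact ⟨fun h => h.trans (MG.Con.edge he), fun h => h.trans (MG.Con.edge he).symm⟩)
    obtain ⟨u', hu'u, hu', hcon⟩ : ∃ u', u' ≠ u ∧ θ u' ≠ 0 ∧ G.Con Q u u' := by
      by_contra hc
      push Not at hc
      have huY : u ∈ hfin.toFinset := (hmem u).2 Relation.ReflTransGen.refl
      rw [Finset.sum_eq_single_of_mem u huY] at hsum
      · exact hu hsum
      · intro b hb hbu
        by_contra h
        exact hc b hbu h ((hmem b).1 hb)
    obtain ⟨P, hPQ, hP, -, -⟩ := hcon.path
    have hu1 := grB_two _ hu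
    have hu1' := grB_two _ hu'
    have hchi_u : chi u u' u = 1 := by simp [chi, hu'u.symm]
    have hchi_u' : chi u u' u' = 1 := by simp [chi, hu'u]
    have hchi_o : ∀ v, v ≠ u → v ≠ u' → chi u u' v = 0 := fun v h1 h2 => by simp [chi, h1, h2]
    have hsub : {v | θ v + chi u u' v ≠ 0} ⊆ {v | θ v ≠ 0} \ {u} := by
      intro v hv
      rw [Set.mem_ofPred_eq] at hv
      have hvu : v ≠ u := by
        rintro rfl
        rw [hu1, hchi_u] at hv
        exact hv (by decide)
      refine ⟨?_, hvu⟩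
      rw [Set.mem_ofPred_eq]
      intro h0
      by_cases hvu' : v = u'
      · rw [hvu'] at h0
        exact hu' h0
      · rw [h0, hchi_o v hvu hvu'] at hv
        exact hv (by decide)
    have hfin' : {v | θ v + chi u u' v ≠ 0}.Finite := (hθ.subset Set.sdiff_subset).subset hsub
    have hlt : hfin'.toFinset.card < n := by
      rw [← hn]
      refine Finset.card_lt_card ⟨?_, ?_⟩
      · intro v hv
        rw [Set.Finite.mem_toFinset] at hv ⊢
        exact (hsub hv).1
      · intro h
        have h1 := h ((Set.Finite.mem_toFinset hθ).2 hu)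
        rw [Set.Finite.mem_toFinset] at h1
        exact (hsub h1).2 rfl
    obtain ⟨M, hM, hMb⟩ := ih _ hlt (fun v => θ v + chi u u' v) hfin' rfl (by
      intro Y hYc
      rw [Finset.sum_add_distrib, hY Y hYc, zero_add]
      rw [← G.sum_bdy (S := P) (Y := Y) fun e he => hYc e (hPQ he)]
      exact Finset.sum_congr rfl fun v _ => (hP v).symm)
    refine ⟨symmDiff M P, ?_, fun v => ?_⟩
    · intro e he
      rw [Finset.mem_symmDiff] at he
      rcases he with h | h
      · exact hM h.1
      · exact hPQ h.1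
    · rw [G.bdy_symmDiff, hMb, hP, add_assoc, grB_add_self, add_zero]

theorem MG.join_iff (G : MG α β) (Q : Finset β) (θ : α → ZMod 2) (hθ : {v | θ v ≠ 0}.Finite) :
    (∃ M ⊆ Q, ∀ v, G.bdy M v = θ v) ↔
      ∀ Y : Finset α, (∀ e ∈ Q, G.p e ∈ Y ↔ G.q e ∈ Y) → ∑ v ∈ Y, θ v = 0 := by
  constructor
  · rintro ⟨M, hM, hb⟩ Y hY
    rw [← G.sum_bdy (S := M) (Y := Y) fun e he => hY e (hM he)]
    exact Finset.sum_congr rfl fun v _ => (hb v).symm
  · exact grB_aux G Q _ θ hθ rfl

end Pool.Agent.CHK
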