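import Pool.Agent.CHK.GrA
import Pool.Agent.CHK.GrB

set_option autoImplicit false

/-! The two-hub theorem. -/

namespace Pool.Agent.CHK

variable {α β : Type} [DecidableEq α] [DecidableEq β]

private theorem gc_two (x : ZMod 2) : x + x = 0 := CharTwo.add_self_eq_zero x

private theorem gc_bdy_empty (G : MG α β) (v : α) : G.bdy ∅ v = 0 := by
  simp [MG.bdy]

private theorem gc_bdy_single (G : MG α β) (e : β) (v : α) :
    G.bdy {e} v = chi (G.p e) (G.q e) v := by
  simp only [MG.bdy, chi, Finset.sum_singleton, eq_comm (a := v)]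

private theorem gc_chi_self (x v : α) : chi x x v = 0 := gc_two _

private theorem gc_chi_comm (x y v : α) : chi x y v = chi y x v := add_comm _ _

private theorem gc_chi_add (x y z v : α) : chi x y v + chi y z v = chi x z v := by
  unfold chi
  have := gc_two (if v = y then (1 : ZMod 2) else 0)
  linear_combination this

private theorem gc_ends (G : MG α β) {S : Finset β} {x : α} {e : β} (he : e ∈ S)
    (h : G.Con S x (G.p e)) : G.Con S x (G.q e) := h.trans (MG.Con.edge he)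

/-- In a connected part `K` one can join `x` and `x'` without cutting `x` off all terminals. -/
theorem MG.keep (G : MG α β) {M : Finset β} {T : α → Prop} {x x' a : α} (hx : G.Con M x x')
    (ha : G.Con M x a) (hT : T a) (hodd : ∀ v, G.Con M x v → G.bdy M v ≠ 0 → T v) :
    ∃ P ⊆ M, (∀ v, G.bdy P v = chi x x' v) ∧ (∀ e ∈ P, G.Con M x (G.p e)) ∧
      ∃ b, T b ∧ G.Con (M \ P) x b := by
  obtain ⟨P₀, hP₀, hb₀, hc₀, he₀⟩ := hx.path
  have he₀' : ∀ e ∈ P₀, G.Con M x (G.p e) := fun e he => (he₀ e he).mono hP₀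
  by_cases hTx : T x
  · exact ⟨P₀, hP₀, hb₀, he₀', x, hTx, Relation.ReflTransGen.refl⟩
  by_cases hxx : x = x'
  · subst hxx
    refine ⟨∅, Finset.empty_subset _, fun v => ?_, fun e he => absurd he (Finset.notMem_empty e),
      a, hT, ?_⟩
    · rw [gc_bdy_empty, gc_chi_self]
    · rw [Finset.sdiff_empty]
      exact ha
  have hMx : G.bdy M x = 0 := by
    by_contra hne
    exact hTx (hodd x Relation.ReflTransGen.refl hne)
  by_cases hca : G.Con (M \ P₀) x a
  · exact ⟨P₀, hP₀, hb₀, he₀', a, hT, hca⟩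
  have hodd1 : G.bdy (M \ P₀) x ≠ 0 := by
    rw [G.bdy_sdiff hP₀, hMx, hb₀, zero_add]
    unfold chi
    rw [if_pos rfl, if_neg hxx]
    decide
  obtain ⟨v, hvx, hbv, hcv⟩ := G.odd_pair hodd1
  by_cases hvx' : v = x'
  · subst hvx'
    obtain ⟨P₁, hP₁, hb₁, hc₁, he₁⟩ := hcv.path
    obtain ⟨x₁, hK, P₂, hP₂, hb₂, hnk, hend, hcon₂⟩ :=
      (ha.symm).path_to (K := fun y => G.Con P₀ x y) Relation.ReflTransGen.refl
    have h20 : ∀ e ∈ P₂, e ∉ P₀ := by
      intro e he he'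
      exact hnk e he ⟨he₀ e he', gc_ends G he' (he₀ e he')⟩
    have h21 : ∀ e ∈ P₂, e ∉ P₁ := by
      intro e he he'
      refine hca ?_
      have h1 : G.Con (M \ P₀) x (G.p e) := (he₁ e he').mono hP₁
      have h2 : G.Con (M \ P₀) a (G.p e) := (hcon₂ e he).mono fun f hf =>
        Finset.mem_sdiff.2 ⟨hP₂ hf, h20 f hf⟩
      exact h1.trans h2.symm
    refine ⟨P₁, fun e he => (Finset.mem_sdiff.1 (hP₁ he)).1, hb₁, fun e he =>
      (he₁ e he).mono fun f hf => (Finset.mem_sdiff.1 (hP₁ hf)).1, a, hT, ?_⟩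
    have h3 : G.Con (M \ P₁) x x₁ := MG.Con.mono (fun e he => Finset.mem_sdiff.2
      ⟨hP₀ he, fun he' => (Finset.mem_sdiff.1 (hP₁ he')).2 he⟩) hK
    have h4 : G.Con (M \ P₁) a x₁ := (G.con_of_chi hb₂).mono fun e he => Finset.mem_sdiff.2
      ⟨hP₂ he, h21 e he⟩
    exact h3.trans h4.symm
  · refine ⟨P₀, hP₀, hb₀, he₀', v, hodd v (hcv.mono Finset.sdiff_subset) ?_, hcv⟩
    rw [G.bdy_sdiff hP₀, hb₀] at hbv
    unfold chi at hbv
    rw [if_neg hvx, if_neg hvx', add_zero, add_zero] at hbv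
    exact hbv

open Classical in
/-- One step of the two-hub theorem. -/
private theorem gc_step (G : MG α β) {Q : Finset β} {θ : α → ZMod 2} {TA TB : α → Prop}
    (hθ : ∀ v, θ v ≠ 0 → TA v ∨ TB v)
    (hno : ∀ M ⊆ Q, (∀ v, G.bdy M v = θ v) → ∀ a b, TA a → TB b → ¬ G.Con M a b)
    {e : β} {M' : Finset β} (hM' : M' ⊆ Q) (hb' : ∀ v, G.bdy M' v = θ v) (he : e ∈ M')
    {x y : α} (hxy : (G.p e = x ∧ G.q e = y) ∨ (G.p e = y ∧ G.q e = x))
    (hN : ∃ M ⊆ Q, (∀ v, G.bdy M v = θ v) ∧ ∃ a, TA a ∧ G.Con M a x) :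
    ∃ M ⊆ Q, (∀ v, G.bdy M v = θ v) ∧ ∃ a, TA a ∧ G.Con M a y := by
  obtain ⟨M, hM, hb, a, hTa, hax⟩ := hN
  have hedge : ∀ S : Finset β, e ∈ S → G.Con S x y := by
    intro S hS
    rcases hxy with ⟨h1, h2⟩ | ⟨h1, h2⟩
    · rw [← h1, ← h2]
      exact MG.Con.edge hS
    · rw [← h1, ← h2]
      exact (MG.Con.edge hS).symm
  have hsing : ∀ v, G.bdy {e} v = chi x y v := by
    intro v
    rw [gc_bdy_single]
    rcases hxy with ⟨h1, h2⟩ | ⟨h1, h2⟩
    · rw [h1, h2]
    · rw [h1, h2, gc_chi_comm]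
  by_cases heM : e ∈ M
  · exact ⟨M, hM, hb, a, hTa, hax.trans (hedge M heM)⟩
  have heQ : e ∈ Q := hM' he
  -- a second connection of the ends of `e`
  have hD : G.Con (symmDiff M M' \ {e}) y x := by
    refine G.con_of_chi fun v => ?_
    rw [G.bdy_sdiff (Finset.singleton_subset_iff.2 (Finset.mem_symmDiff.2 (Or.inr ⟨he, heM⟩))),
      G.bdy_symmDiff, hb, hb', gc_two, zero_add, hsing, gc_chi_comm]
  have hcon : G.Con (Q \ {e}) y x := by
    refine hD.mono fun f hf => ?_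
    obtain ⟨h1, h2⟩ := Finset.mem_sdiff.1 hf
    refine Finset.mem_sdiff.2 ⟨?_, h2⟩
    rcases Finset.mem_symmDiff.1 h1 with h | h
    · exact hM h.1
    · exact hM' h.1
  obtain ⟨x', hK, P, hP, hbP, hnk, hend, hcP⟩ :=
    hcon.path_to (K := fun z => G.Con M x z) Relation.ReflTransGen.refl
  obtain ⟨P₁, hP₁, hb₁, hc₁, b, hTb, hxb⟩ := G.keep (T := TA) hK hax.symm hTa (fun v hv hne => by
    rw [hb v] at hne
    rcases hθ v hne with h | h
    · exact h
    · exact absurd (hax.trans hv) (hno M hM hb a v hTa h))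
  have hePP : e ∉ P := fun h => (Finset.mem_sdiff.1 (hP h)).2 (Finset.mem_singleton_self e)
  have heP₁ : e ∉ P₁ := fun h => heM (hP₁ h)
  have hPP₁ : ∀ f ∈ P₁, f ∉ P := fun f hf hf' =>
    hnk f hf' ⟨hc₁ f hf, gc_ends G (hP₁ hf) (hc₁ f hf)⟩
  have hd1 : Disjoint P P₁ := Finset.disjoint_left.2 fun f hf hf' => hPP₁ f hf' hf
  have hd2 : Disjoint ({e} : Finset β) (P ∪ P₁) := by
    rw [Finset.disjoint_singleton_left, Finset.mem_union]
    rintro (h | h)
    · exact hePP h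
    · exact heP₁ h
  have hW : ∀ v, G.bdy ({e} ∪ (P ∪ P₁)) v = 0 := by
    intro v
    rw [G.bdy_union hd2, G.bdy_union hd1, hsing, hbP, hb₁, ← add_assoc, gc_chi_add, gc_two]
  have hM'' : symmDiff M ({e} ∪ (P ∪ P₁)) ⊆ Q := by
    intro f hf
    rcases Finset.mem_symmDiff.1 hf with h | h
    · exact hM h.1
    · rcases Finset.mem_union.1 h.1 with h1 | h1
      · rw [Finset.mem_singleton.1 h1]
        exact heQ
      · rcases Finset.mem_union.1 h1 with h2 | h2
        · exact (Finset.mem_sdiff.1 (hP h2)).1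
        · exact hM (hP₁ h2)
  have heM'' : e ∈ symmDiff M ({e} ∪ (P ∪ P₁)) :=
    Finset.mem_symmDiff.2 (Or.inr ⟨Finset.mem_union_left _ (Finset.mem_singleton_self e), heM⟩)
  have hxb'' : G.Con (symmDiff M ({e} ∪ (P ∪ P₁))) x b := by
    refine (G.con_comp hxb).mono fun f hf => ?_
    have hf1 : f ∈ M \ P₁ := G.comp_sub _ _ hf
    obtain ⟨hfM, hfP₁⟩ := Finset.mem_sdiff.1 hf1
    have hf2 : G.Con (M \ P₁) x (G.p f) := by
      unfold MG.comp at hf
      exact (Finset.mem_filter.1 hf).2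
    have hf3 : G.Con M x (G.p f) := hf2.mono Finset.sdiff_subset
    refine Finset.mem_symmDiff.2 (Or.inl ⟨hfM, ?_⟩)
    intro h
    rcases Finset.mem_union.1 h with h1 | h1
    · rw [Finset.mem_singleton.1 h1] at hfM
      exact heM hfM
    · rcases Finset.mem_union.1 h1 with h2 | h2
      · exact hnk f h2 ⟨hf3, gc_ends G hfM hf3⟩
      · exact hfP₁ h2
  refine ⟨_, hM'', fun v => ?_, b, hTb, hxb''.symm.trans (hedge _ heM'')⟩
  rw [G.bdy_symmDiff, hb, hW, add_zero]

open Classical in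
theorem MG.hub (G : MG α β) (Q : Finset β) (θ : α → ZMod 2) (TA TB : α → Prop)
    (hθ : ∀ v, θ v ≠ 0 → TA v ∨ TB v)
    (h : ∃ a b, TA a ∧ TB b ∧
      G.Con (Q.filter fun e => ∃ M ⊆ Q, (∀ v, G.bdy M v = θ v) ∧ e ∈ M) a b)
    (hM : ∃ M ⊆ Q, ∀ v, G.bdy M v = θ v) :
    ∃ M ⊆ Q, (∀ v, G.bdy M v = θ v) ∧ ∃ a b, TA a ∧ TB b ∧ G.Con M a b := by
  by_contra hcon
  have hno : ∀ M ⊆ Q, (∀ v, G.bdy M v = θ v) → ∀ a b, TA a → TB b → ¬ G.Con M a b :=
    fun M h1 h2 a b h3 h4 h5 => hcon ⟨M, h1, h2, a, b, h3, h4, h5⟩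
  obtain ⟨a, b, hTa, hTb, hab⟩ := h
  have hcl := hab.closed (Y := fun v => ∃ M ⊆ Q, (∀ v, G.bdy M v = θ v) ∧ ∃ a, TA a ∧ G.Con M a v)
    (fun e he => by
      obtain ⟨_, M', h1, h2, h3⟩ := Finset.mem_filter.1 he
      exact ⟨gc_step G hθ hno h1 h2 h3 (Or.inl ⟨rfl, rfl⟩),
        gc_step G hθ hno h1 h2 h3 (Or.inr ⟨rfl, rfl⟩)⟩)
  obtain ⟨M, h1, h2⟩ := hM
  obtain ⟨M₁, h3, h4, a', h5, h6⟩ := hcl.1 ⟨M, h1, h2, a, hTa, Relation.ReflTransGen.refl⟩
  exact hno M₁ h3 h4 a' b h5 hTb h6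

/-- Certificates for the nonexistence. -/
theorem MG.hub_cert (G : MG α β) (Q : Finset β) (θ : α → ZMod 2) (hf : {v | θ v ≠ 0}.Finite)
    (TA TB : Finset α) (hθ : ∀ v, θ v ≠ 0 → v ∈ TA ∨ v ∈ TB) :
    (¬ ∃ M ⊆ Q, (∀ v, G.bdy M v = θ v) ∧ ∃ a b, a ∈ TA ∧ b ∈ TB ∧ G.Con M a b) ↔
      (∃ Y : Finset α, (∀ e ∈ Q, G.p e ∈ Y ↔ G.q e ∈ Y) ∧ ∑ v ∈ Y, θ v ≠ 0) ∨
      ∃ M₀ ⊆ Q, (∀ v, G.bdy M₀ v = θ v) ∧ ∃ Z : Finset α, (∀ a ∈ TA, a ∈ Z) ∧
        (∀ b ∈ TB, b ∉ Z) ∧ ∀ e ∈ Q, (G.p e ∈ Z ↔ G.q e ∈ Z) ∨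
          (e ∉ M₀ ∧ ∃ Y : Finset α, ∀ e' ∈ Q, (G.p e' ∈ Y ↔ G.q e' ∈ Y) ↔ e' ≠ e) := by
  classical
  constructor
  · intro hno
    by_cases hj : ∃ M ⊆ Q, ∀ v, G.bdy M v = θ v
    · obtain ⟨M₀, hM₀, hb₀⟩ := hj
      refine Or.inr ⟨M₀, hM₀, hb₀, ?_⟩
      set U : Finset β := Q.filter fun e => ∃ M ⊆ Q, (∀ v, G.bdy M v = θ v) ∧ e ∈ M with hU
      have hsep : ∀ a ∈ TA, ∀ b ∈ TB, ¬ G.Con U a b := by
        intro a ha b hb hab
        obtain ⟨M, h1, h2, a', b', h3, h4, h5⟩ := G.hub Q θ (fun v => v ∈ TA) (fun v => v ∈ TB) hθ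
          ⟨a, b, ha, hb, hab⟩ ⟨M₀, hM₀, hb₀⟩
        exact hno ⟨M, h1, h2, a', b', h3, h4, h5⟩
      refine ⟨(TA ∪ (Q.image G.p ∪ Q.image G.q)).filter fun v => ∃ a ∈ TA, G.Con U a v,
        fun a ha => Finset.mem_filter.2 ⟨Finset.mem_union_left _ ha, a, ha,
          Relation.ReflTransGen.refl⟩, fun b hb hb' => ?_, fun e he => ?_⟩
      · obtain ⟨_, a, ha, hab⟩ := Finset.mem_filter.1 hb'
        exact hsep a ha b hb hab
      · have hp : G.p e ∈ TA ∪ (Q.image G.p ∪ Q.image G.q) := Finset.mem_union_right _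
          (Finset.mem_union_left _ (Finset.mem_image_of_mem _ he))
        have hq : G.q e ∈ TA ∪ (Q.image G.p ∪ Q.image G.q) := Finset.mem_union_right _
          (Finset.mem_union_right _ (Finset.mem_image_of_mem _ he))
        by_cases heU : e ∈ U
        · left
          constructor
          · intro h
            obtain ⟨_, a, ha, hab⟩ := Finset.mem_filter.1 h
            exact Finset.mem_filter.2 ⟨hq, a, ha, hab.trans (MG.Con.edge heU)⟩
          · intro h
            obtain ⟨_, a, ha, hab⟩ := Finset.mem_filter.1 h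
            exact Finset.mem_filter.2 ⟨hp, a, ha, hab.trans (MG.Con.edge heU).symm⟩
        · right
          have heM₀ : e ∉ M₀ := fun h => heU (Finset.mem_filter.2 ⟨he, M₀, hM₀, hb₀, h⟩)
          refine ⟨heM₀, (Q.image G.p ∪ Q.image G.q).filter fun v => G.Con (Q \ {e}) (G.p e) v,
            fun e' he' => ?_⟩
          have hp' : G.p e' ∈ Q.image G.p ∪ Q.image G.q :=
            Finset.mem_union_left _ (Finset.mem_image_of_mem _ he')
          have hq' : G.q e' ∈ Q.image G.p ∪ Q.image G.q :=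
            Finset.mem_union_right _ (Finset.mem_image_of_mem _ he')
          constructor
          · rintro hiff rfl
            have h1 := hiff.1 (Finset.mem_filter.2 ⟨hp', Relation.ReflTransGen.refl⟩)
            obtain ⟨P, hP, hbP, _⟩ := (Finset.mem_filter.1 h1).2.path
            have hePP : e' ∉ P := fun h =>
              (Finset.mem_sdiff.1 (hP h)).2 (Finset.mem_singleton_self e')
            refine heU (Finset.mem_filter.2 ⟨he', symmDiff M₀ ({e'} ∪ P), ?_, fun v => ?_, ?_⟩)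
            · intro f hf
              rcases Finset.mem_symmDiff.1 hf with h | h
              · exact hM₀ h.1
              · rcases Finset.mem_union.1 h.1 with h2 | h2
                · rw [Finset.mem_singleton.1 h2]
                  exact he'
                · exact (Finset.mem_sdiff.1 (hP h2)).1
            · rw [G.bdy_symmDiff, G.bdy_union (Finset.disjoint_singleton_left.2 hePP),
                gc_bdy_single, hbP, gc_two, add_zero, hb₀]
            · exact Finset.mem_symmDiff.2 (Or.inr ⟨Finset.mem_union_left _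
                (Finset.mem_singleton_self e'), heM₀⟩)
          · intro hne
            have hed : e' ∈ Q \ {e} := Finset.mem_sdiff.2 ⟨he', by simpa using hne⟩
            constructor
            · intro h
              exact Finset.mem_filter.2 ⟨hq', (Finset.mem_filter.1 h).2.trans (MG.Con.edge hed)⟩
            · intro h
              exact Finset.mem_filter.2 ⟨hp',
                (Finset.mem_filter.1 h).2.trans (MG.Con.edge hed).symm⟩
    · left
      rw [G.join_iff Q θ hf] at hj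
      push Not at hj
      exact hj
  · rintro (⟨Y, hY, hs⟩ | ⟨M₀, hM₀, hb₀, Z, hZA, hZB, hZ⟩) ⟨M, hM, hb, a, b, ha, hb', hab⟩
    · refine hs ?_
      have := G.sum_bdy (S := M) (Y := Y) fun e he => hY e (hM he)
      rw [← this]
      exact Finset.sum_congr rfl fun v _ => (hb v).symm
    · have hcl := hab.closed (Y := fun v => v ∈ Z) (fun e he => by
        rcases hZ e (hM he) with h | ⟨h1, Y, hY⟩
        · exact h
        · exfalso
          have hleave : ¬ (G.p e ∈ Y ↔ G.q e ∈ Y) := fun h => (hY e (hM he)).1 h rfl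
          have hD : ∀ f ∈ symmDiff M M₀ \ {e}, G.p f ∈ Y ↔ G.q f ∈ Y := by
            intro f hf
            obtain ⟨h2, h3⟩ := Finset.mem_sdiff.1 hf
            have hfQ : f ∈ Q := by
              rcases Finset.mem_symmDiff.1 h2 with h | h
              · exact hM h.1
              · exact hM₀ h.1
            exact (hY f hfQ).2 (by simpa using h3)
          have hs := G.sum_bdy hD
          have hs2 : ∑ v ∈ Y, G.bdy (symmDiff M M₀ \ {e}) v =
              ∑ v ∈ Y, chi (G.p e) (G.q e) v := by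
            refine Finset.sum_congr rfl fun v _ => ?_
            rw [G.bdy_sdiff (Finset.singleton_subset_iff.2
              (Finset.mem_symmDiff.2 (Or.inl ⟨he, h1⟩))), G.bdy_symmDiff, hb, hb₀, gc_two,
              zero_add, gc_bdy_single]
          rw [hs2] at hs
          unfold chi at hs
          rw [Finset.sum_add_distrib, Finset.sum_ite_eq', Finset.sum_ite_eq'] at hs
          by_cases hp : G.p e ∈ Y <;> by_cases hq : G.q e ∈ Y
          · exact hleave ⟨fun _ => hq, fun _ => hp⟩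
          · rw [if_pos hp, if_neg hq] at hs
            exact absurd hs (by decide)
          · rw [if_neg hp, if_pos hq] at hs
            exact absurd hs (by decide)
          · exact hleave ⟨fun h => absurd h hp, fun h => absurd h hq⟩)
      exact hZB b hb' (hcl.1 (hZA a ha))

end Pool.Agent.CHK
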