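import Pool.Agent.CHK.GrA
import Pool.Agent.CHK.GrB
import Pool.Agent.CHK.GrC

set_option autoImplicit false

/-! Certificates for the nonexistence of replies. -/

namespace Pool.Agent.CHK

variable {α β : Type} [DecidableEq α] [DecidableEq β]

theorem MG.gg_bdy_ne (G : MG α β) {S : Finset β} {v : α} (h : G.bdy S v ≠ 0) : G.EndD S v := by
  by_contra hn
  apply h
  unfold MG.bdy
  refine Finset.sum_eq_zero fun e he => ?_
  have h1 : G.p e ≠ v := fun h => hn ⟨e, he, Or.inl h⟩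
  have h2 : G.q e ≠ v := fun h => hn ⟨e, he, Or.inr h⟩
  rw [if_neg h1, if_neg h2, add_zero]

/-- The ends of the edges of a set. -/
def MG.ggEnds (G : MG α β) (S : Finset β) : Finset α := S.image G.p ∪ S.image G.q

theorem MG.mem_ggEnds (G : MG α β) {S : Finset β} {v : α} : v ∈ G.ggEnds S ↔ G.EndD S v := by
  simp only [MG.ggEnds, MG.EndD, Finset.mem_union, Finset.mem_image]
  constructor
  · rintro (⟨e, he, h⟩ | ⟨e, he, h⟩)
    · exact ⟨e, he, Or.inl h⟩
    · exact ⟨e, he, Or.inr h⟩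
  · rintro ⟨e, he, h | h⟩
    · exact Or.inl ⟨e, he, h⟩
    · exact Or.inr ⟨e, he, h⟩

theorem gg_chi_ne {s t v : α} (h : chi s t v ≠ 0) : v = s ∨ v = t := by
  by_contra hn
  push Not at hn
  apply h
  unfold chi
  rw [if_neg hn.1, if_neg hn.2, add_zero]

theorem MG.gg_theta (G : MG α β) {s t : α} {R : Finset β} {v : α}
    (h : chi s t v + G.bdy R v ≠ 0) : v = s ∨ v = t ∨ G.EndD R v := by
  by_cases h1 : chi s t v = 0
  · rw [h1, zero_add] at h
    exact Or.inr (Or.inr (G.gg_bdy_ne h))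
  · rcases gg_chi_ne h1 with h | h
    · exact Or.inl h
    · exact Or.inr (Or.inl h)

theorem MG.gg_finite (G : MG α β) (s t : α) (R : Finset β) :
    {v | chi s t v + G.bdy R v ≠ 0}.Finite := by
  refine Set.Finite.subset (Finset.finite_toSet ({s, t} ∪ G.ggEnds R)) ?_
  intro v hv
  rw [Finset.mem_coe, Finset.mem_union, MG.mem_ggEnds]
  rcases G.gg_theta hv with h | h | h
  · left; simp [h]
  · left; simp [h]
  · exact Or.inr h

theorem gg_two (a b : ZMod 2) : a + b + b = a := by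
  rw [add_assoc, CharTwo.add_self_eq_zero, add_zero]

theorem MG.gg_av_iff (G : MG α β) (E : Finset β) (s t : α) (R : Finset β) :
    G.Av E s t R ↔ R ⊆ E ∧ ∃ M ⊆ E \ R, ∀ v, G.bdy M v = chi s t v + G.bdy R v := by
  constructor
  · rintro ⟨S, hS, hb, hR⟩
    refine ⟨hR.trans hS, S \ R, Finset.sdiff_subset_sdiff hS (Finset.Subset.refl R), ?_⟩
    intro v
    rw [G.bdy_sdiff hR, hb]
  · rintro ⟨hR, M, hM, hb⟩
    refine ⟨M ∪ R, Finset.union_subset (hM.trans Finset.sdiff_subset) hR, ?_,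
      Finset.subset_union_right⟩
    intro v
    have hd : Disjoint M R := (Finset.disjoint_sdiff (s := R) (t := E)).symm.mono_left hM
    rw [G.bdy_union hd, hb, gg_two]

theorem MG.not_av_iff (G : MG α β) (E : Finset β) (s t : α) (R : Finset β) :
    ¬ G.Av E s t R ↔ ¬ R ⊆ E ∨ ∃ Y : Finset α, (∀ e ∈ E \ R, G.p e ∈ Y ↔ G.q e ∈ Y) ∧
      ∑ v ∈ Y, (chi s t v + G.bdy R v) ≠ 0 := by
  rw [G.gg_av_iff, not_and_or, G.join_iff (E \ R) (fun v => chi s t v + G.bdy R v)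
    (G.gg_finite s t R)]
  push Not
  rfl

theorem MG.gg_walk (G : MG α β) {S M R D : Finset β} {TA : α → Prop}
    (hS : ∀ e ∈ S, e ∈ M ∨ e ∈ R ∨ e ∈ D) (hA : ∀ a, G.EndD R a → TA a)
    {u v : α} (h : G.Con S u v) (hu : TA u) :
    (∃ a b, TA a ∧ G.EndD D b ∧ G.Con M a b) ∨ ∃ a, TA a ∧ G.Con M a v := by
  induction h with
  | refl => exact Or.inr ⟨u, hu, Relation.ReflTransGen.refl⟩
  | tail h1 h2 ih =>
    rename_i x y
    rcases ih with ih | ⟨a, ha, hax⟩
    · exact Or.inl ih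
    · obtain ⟨e, he, hxy⟩ := h2
      have hex : ∀ Z : Finset β, e ∈ Z → G.EndD Z x ∧ G.EndD Z y := by
        intro Z hZ
        rcases hxy with ⟨h3, h4⟩ | ⟨h3, h4⟩
        · exact ⟨⟨e, hZ, Or.inl h3⟩, ⟨e, hZ, Or.inr h4⟩⟩
        · exact ⟨⟨e, hZ, Or.inr h3⟩, ⟨e, hZ, Or.inl h4⟩⟩
      rcases hS e he with h | h | h
      · exact Or.inr ⟨a, ha, hax.tail ⟨e, h, hxy⟩⟩
      · exact Or.inr ⟨y, hA y (hex R h).2, Relation.ReflTransGen.refl⟩
      · exact Or.inl ⟨a, x, ha, (hex D h).1, hax⟩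

theorem MG.gg_hb_iff (G : MG α β) {E E' : Finset β} {s t : α} (hE : E' ⊆ E) {D : Finset β}
    (hR : (G.star E t).Nonempty) (hD : D.Nonempty)
    (hDc : ∀ d ∈ D, ∀ d' ∈ D, G.Con D (G.p d) (G.p d')) :
    G.Hb E' s t (G.star E t) D ↔ (G.star E t ∪ D ⊆ E') ∧
      ∃ M ⊆ E' \ (G.star E t ∪ D),
        (∀ v, G.bdy M v = chi s t v + G.bdy (G.star E t ∪ D) v) ∧
        ∃ a b, a ∈ insert s (G.ggEnds (G.star E t)) ∧ b ∈ G.ggEnds D ∧ G.Con M a b := by
  have htR : G.EndD (G.star E t) t := by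
    obtain ⟨e, he⟩ := hR
    exact ⟨e, he, (Finset.mem_filter.1 he).2⟩
  constructor
  · rintro ⟨S, hS, hDS⟩
    have hRD : G.star E t ∪ D ⊆ S := Finset.union_subset hS.pre hDS
    refine ⟨hRD.trans hS.sub, S \ (G.star E t ∪ D),
      Finset.sdiff_subset_sdiff hS.sub (Finset.Subset.refl _), ?_, ?_⟩
    · intro v
      rw [G.bdy_sdiff hRD, hS.bd]
    · obtain ⟨d, hd⟩ := hD
      have hcon := hS.con d (hDS hd)
      have hcases : ∀ e ∈ S, e ∈ S \ (G.star E t ∪ D) ∨ e ∈ G.star E t ∨ e ∈ D := by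
        intro e he
        by_cases h1 : e ∈ G.star E t
        · exact Or.inr (Or.inl h1)
        · by_cases h2 : e ∈ D
          · exact Or.inr (Or.inr h2)
          · left
            rw [Finset.mem_sdiff, Finset.mem_union]
            exact ⟨he, by tauto⟩
      rcases G.gg_walk (TA := fun a => a ∈ insert s (G.ggEnds (G.star E t))) hcases
        (fun a ha => Finset.mem_insert_of_mem (G.mem_ggEnds.2 ha)) hcon
        (Finset.mem_insert_of_mem (G.mem_ggEnds.2 htR)) with ⟨a, b, ha, hb, hab⟩ | ⟨a, ha, hab⟩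
      · exact ⟨a, b, ha, G.mem_ggEnds.2 hb, hab⟩
      · exact ⟨a, G.p d, ha, G.mem_ggEnds.2 ⟨d, hd, Or.inl rfl⟩, hab⟩
  · rintro ⟨hRD, M, hM, hb, a, b, ha, hbD, hab⟩
    have hdis : Disjoint M (G.star E t ∪ D) :=
      (Finset.disjoint_sdiff (s := G.star E t ∪ D) (t := E')).symm.mono_left hM
    set S' := M ∪ (G.star E t ∪ D) with hS'
    have hS'E : S' ⊆ E' := Finset.union_subset (hM.trans Finset.sdiff_subset) hRD
    have hbd : ∀ v, G.bdy S' v = chi s t v := by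
      intro v
      rw [hS', G.bdy_union hdis, hb, gg_two]
    have hRS : G.star E t ⊆ S' := Finset.subset_union_left.trans Finset.subset_union_right
    have hDS : D ⊆ S' := Finset.subset_union_right.trans Finset.subset_union_right
    have hMS : M ⊆ S' := Finset.subset_union_left
    have hrep := G.rep_comp hE hS'E hbd hRS
    refine ⟨_, hrep, ?_⟩
    -- `t` is connected to `a`
    have hta : G.Con S' t a := by
      rcases Finset.mem_insert.1 ha with rfl | ha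
      · exact (G.con_of_chi hbd).symm
      · obtain ⟨e, he, hea⟩ := G.mem_ggEnds.1 ha
        have hes : e ∈ S' := hRS he
        have hpq := MG.Con.edge (G := G) hes
        rcases (Finset.mem_filter.1 he).2 with h | h <;> rcases hea with h' | h'
        · rw [← h, ← h']
          exact Relation.ReflTransGen.refl
        · rw [← h, ← h']
          exact hpq
        · rw [← h, ← h']
          exact hpq.symm
        · rw [← h, ← h']
          exact Relation.ReflTransGen.refl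
    have htb : G.Con S' t b := hta.trans (hab.mono hMS)
    obtain ⟨d₀, hd₀, hd₀b⟩ := G.mem_ggEnds.1 hbD
    have htd : G.Con S' t (G.p d₀) := by
      rcases hd₀b with h | h
      · rw [h]; exact htb
      · refine htb.trans ?_
        rw [← h]
        exact (MG.Con.edge (G := G) (hDS hd₀)).symm
    intro d hd
    simp only [MG.comp, Finset.mem_filter]
    exact ⟨hDS hd, htd.trans ((hDc d₀ hd₀ d hd).mono hDS)⟩

theorem MG.not_hb_iff (G : MG α β) {E E' : Finset β} {s t : α} (hE : E' ⊆ E) {D : Finset β}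
    (hR : (G.star E t).Nonempty) (hD : D.Nonempty)
    (hDc : ∀ d ∈ D, ∀ d' ∈ D, G.Con D (G.p d) (G.p d')) :
    ¬ G.Hb E' s t (G.star E t) D ↔ ¬ (G.star E t ∪ D ⊆ E') ∨
      (∃ Y : Finset α, (∀ e ∈ E' \ (G.star E t ∪ D), G.p e ∈ Y ↔ G.q e ∈ Y) ∧
        ∑ v ∈ Y, (chi s t v + G.bdy (G.star E t ∪ D) v) ≠ 0) ∨
      ∃ M₀ ⊆ E' \ (G.star E t ∪ D),
        (∀ v, G.bdy M₀ v = chi s t v + G.bdy (G.star E t ∪ D) v) ∧
        ∃ Z : Finset α, s ∈ Z ∧ (∀ a, G.EndD (G.star E t) a → a ∈ Z) ∧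
          (∀ b, G.EndD D b → b ∉ Z) ∧
          ∀ e ∈ E' \ (G.star E t ∪ D), (G.p e ∈ Z ↔ G.q e ∈ Z) ∨
            (e ∉ M₀ ∧ ∃ Y : Finset α, ∀ e' ∈ E' \ (G.star E t ∪ D),
              (G.p e' ∈ Y ↔ G.q e' ∈ Y) ↔ e' ≠ e) := by
  have htR : G.EndD (G.star E t) t := by
    obtain ⟨e, he⟩ := hR
    exact ⟨e, he, (Finset.mem_filter.1 he).2⟩
  have hθ : ∀ v, chi s t v + G.bdy (G.star E t ∪ D) v ≠ 0 →
      v ∈ insert s (G.ggEnds (G.star E t)) ∨ v ∈ G.ggEnds D := by
    intro v hv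
    rcases G.gg_theta hv with rfl | rfl | ⟨e, he, h⟩
    · exact Or.inl (Finset.mem_insert_self _ _)
    · exact Or.inl (Finset.mem_insert_of_mem (G.mem_ggEnds.2 htR))
    · rcases Finset.mem_union.1 he with he | he
      · exact Or.inl (Finset.mem_insert_of_mem (G.mem_ggEnds.2 ⟨e, he, h⟩))
      · exact Or.inr (G.mem_ggEnds.2 ⟨e, he, h⟩)
  rw [G.gg_hb_iff hE hR hD hDc, not_and_or,
    G.hub_cert (E' \ (G.star E t ∪ D)) (fun v => chi s t v + G.bdy (G.star E t ∪ D) v)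
      (G.gg_finite s t _) (insert s (G.ggEnds (G.star E t))) (G.ggEnds D) hθ]
  constructor
  · rintro (h | h | ⟨M₀, hM, hb, Z, h1, h2, h3⟩)
    · exact Or.inl h
    · exact Or.inr (Or.inl h)
    · exact Or.inr (Or.inr ⟨M₀, hM, hb, Z, h1 s (Finset.mem_insert_self _ _),
        fun a ha => h1 a (Finset.mem_insert_of_mem (G.mem_ggEnds.2 ha)),
        fun b hb => h2 b (G.mem_ggEnds.2 hb), h3⟩)
  · rintro (h | h | ⟨M₀, hM, hb, Z, h0, h1, h2, h3⟩)
    · exact Or.inl h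
    · exact Or.inr (Or.inl h)
    · refine Or.inr (Or.inr ⟨M₀, hM, hb, Z, ?_, fun b hb => h2 b (G.mem_ggEnds.1 hb), h3⟩)
      intro a ha
      rcases Finset.mem_insert.1 ha with rfl | ha
      · exact h0
      · exact h1 a (G.mem_ggEnds.1 ha)

end Pool.Agent.CHK
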