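import Mathlib
import Pool.Agent.CHK.FoG
import Pool.Agent.CHK.DefA
import Pool.Agent.CHK.GrG

set_option autoImplicit false

/-! Definability of the parity condition. -/

namespace Pool.Agent.CHK

theorem dd_z {A : ℕ → (ℕ → List ℕ → Prop) → (List ℕ → Prop) → (ℕ → ℕ) → Sq → Prop} {i : ℕ}
    (h : FO (fun N R C v => A N R C v (sq v i + 0))) : FO (fun N R C v => A N R C v (sq v i)) :=
  FO.congr (fun _ _ _ _ => by rw [add_zero]) h

theorem dd_fs (k i : ℕ) : FO (fun N R _ v => sq v i ∈ fs N R k) :=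
  dd_z (A := fun N R _ _ z => z ∈ fs N R k) (FO.mem_fs k i 0)

theorem dd_star (k j t i : ℕ) :
    FO (fun N R _ v => sq v i ∈ (gr (sq v j)).star (Ed N (bd N R k) (sq v j)) (sq v t)) :=
  dd_z (A := fun N R _ v z => z ∈ (gr (sq v j)).star (Ed N (bd N R k) (sq v j)) (sq v t))
    (FO.mem_star k j t i 0)

/-- The conditions on the parameters. -/
theorem dd_pre : FO (fun N R _ v => On N (sq v 0) ∧ Cls (sq v 0) (sq v 2) ∧
    Fre N (bd N R 2) (sq v 0) (sq v 2) ∧ fs N R 3 ⊆ Ed N (bd N R 2) (sq v 0)) := by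
  refine FO.and (da_on 0) (FO.and ?_ (FO.and ?_ ?_))
  · exact dd_z (A := fun _ _ _ v z => Cls (sq v 0) z) (FO.cls 0 2 0)
  · exact dd_z (A := fun N R _ v z => Fre N (bd N R 2) (sq v 0) z) (FO.fre 2 0 2 0)
  · refine FO.congr ?_ (da_allS (A := fun N R _ v z => z ∈ fs N R 3 →
      z ∈ Ed N (bd N R 2) (sq v 0)) (FO.imp (dd_fs 3 0) ?_))
    · intro N R C v
      exact ⟨fun h z _ hz => h hz, fun h z hz => h z (fs_on hz) hz⟩
    · exact dd_z (A := fun N R _ v z => z ∈ Ed N (bd N R 2) (sq v 2)) (FO.mem_Ed 2 2 0 0)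

theorem dd_zero {N : ℕ} {s t v : Sq} (hs : On N s) (ht : On N t)
    {S : Finset Sq} (hS : ∀ e ∈ S, On N ((gr s).p e) ∧ On N ((gr s).q e)) (hv : ¬ On N v) :
    (gr s).bdy S v = 0 ∧ chi s t v = 0 := by
  constructor
  · unfold MG.bdy
    refine Finset.sum_eq_zero fun e he => ?_
    rw [if_neg, if_neg, add_zero]
    · intro h; exact hv (h ▸ (hS e he).2)
    · intro h; exact hv (h ▸ (hS e he).1)
  · unfold chi
    rw [if_neg, if_neg, add_zero]
    · intro h; exact hv (h ▸ ht)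
    · intro h; exact hv (h ▸ hs)

theorem npd_av : NPd (fun N R v => On N (sq v 0) ∧ Cls (sq v 0) (sq v 2) ∧
    Fre N (bd N R 2) (sq v 0) (sq v 2) ∧ fs N R 3 ⊆ Ed N (bd N R 2) (sq v 0) ∧
    (gr (sq v 0)).Av (fs N R 3) (sq v 0) (sq v 2)
      ((gr (sq v 0)).star (Ed N (bd N R 2) (sq v 0)) (sq v 2))) := by
  have h1 : NPd (fun N R v => (∀ z, On N z → z ∈ fs N R 7 → z ∈ fs N R 3) ∧
      (∀ z, On N z → ¬ ((gr (sq v 0)).bdy (fs N R 7) z + chi (sq v 0) (sq v 2) z ≠ 0)) ∧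
      ∀ z, On N z → z ∈ (gr (sq v 0)).star (Ed N (bd N R 2) (sq v 0)) (sq v 2) →
        z ∈ fs N R 7) := by
    refine NPd.fo (FO.and (da_allS (FO.imp (dd_fs 7 0) (dd_fs 3 0))) (FO.and (da_allS (FO.not ?_))
      (da_allS (FO.imp (dd_star 2 2 4 0) (dd_fs 7 0)))))
    exact FZ.add (FZ.bdy (S := fun N R _ _ => fs N R 7) 2 0 fun c => FO.mem_fs 7 0 c)
      (FZ.chi 2 4 0)
  refine NPd.congr ?_ (NPd.and (NPd.fo dd_pre) (NPd.so 7 h1))
  intro N R v
  have key : ∀ a b : ZMod 2, ¬ (a + b ≠ 0) ↔ a = b := by decide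
  constructor
  · rintro ⟨a1, a2, a3, a4, S, hS, hb, hR⟩
    obtain ⟨X, hX⟩ := exists_fs S (fun z hz => fs_on (hS hz)) R 7
    refine ⟨⟨a1, a2, a3, a4⟩, X, ?_, ?_, ?_⟩
    · intro z _ hz
      rw [hX] at hz
      rw [fs_update (by norm_num)]
      exact hS hz
    · intro z _
      rw [key, hX]
      exact hb z
    · intro z _ hz
      rw [bd_update (by norm_num)] at hz
      rw [hX]
      exact hR hz
  · rintro ⟨⟨a1, a2, a3, a4⟩, X, b1, b2, b3⟩
    have c1 : fs N (Function.update R 7 X) 7 ⊆ fs N R 3 := by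
      intro z hz
      have := b1 z (fs_on hz) hz
      rwa [fs_update (by norm_num)] at this
    refine ⟨a1, a2, a3, a4, fs N (Function.update R 7 X) 7, c1, ?_, ?_⟩
    · intro z
      by_cases hz : On N z
      · exact (key _ _).1 (b2 z hz)
      · have h2 := dd_zero (s := sq v 0) (t := sq v 2) a1 a3.1
          (S := fs N (Function.update R 7 X) 7)
          (fun e he => (fog_Ed_on (a4 (c1 he))).2) hz
        rw [h2.1, h2.2]
    · intro z hz
      have hz' := (Finset.mem_filter.1 hz).1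
      refine b3 z (fog_Ed_on hz').1 ?_
      rw [bd_update (by norm_num)]
      exact hz

theorem npd_not_av : NPd (fun N R v => On N (sq v 0) ∧ Cls (sq v 0) (sq v 2) ∧
    Fre N (bd N R 2) (sq v 0) (sq v 2) ∧ fs N R 3 ⊆ Ed N (bd N R 2) (sq v 0) ∧
    ¬ (gr (sq v 0)).Av (fs N R 3) (sq v 0) (sq v 2)
      ((gr (sq v 0)).star (Ed N (bd N R 2) (sq v 0)) (sq v 2))) := by
  classical
  have h0 : FO (fun N R _ v => ¬ ∀ z, On N z →
      z ∈ (gr (sq v 0)).star (Ed N (bd N R 2) (sq v 0)) (sq v 2) → z ∈ fs N R 3) :=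
    FO.not (da_allS (FO.imp (dd_star 2 2 4 0) (dd_fs 3 0)))
  have h1 : NPd (fun N R v => (∀ z, On N z → z ∈ fs N R 3 →
      ¬ z ∈ (gr (sq v 0)).star (Ed N (bd N R 2) (sq v 0)) (sq v 2) →
        ((gr (sq v 0)).p z ∈ fs N R 7 ↔ (gr (sq v 0)).q z ∈ fs N R 7)) ∧
      (((if sq v 0 ∈ fs N R 7 then (1 : ZMod 2) else 0) + if sq v 2 ∈ fs N R 7 then 1 else 0) +
        s4 fun d => if sq v 2 + d ∈ (gr (sq v 0)).star (Ed N (bd N R 2) (sq v 0)) (sq v 2) then
          ((if (gr (sq v 0)).p (sq v 2 + d) ∈ fs N R 7 then 1 else 0) +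
            if (gr (sq v 0)).q (sq v 2 + d) ∈ fs N R 7 then 1 else 0) else 0) ≠ 0) := by
    refine NPd.fo (FO.and (da_allS (FO.imp (dd_fs 3 0) (FO.imp (FO.not (dd_star 2 2 4 0))
      (FO.iff ?_ ?_)))) ?_)
    · exact FO.congr (fun _ _ _ v => by rw [add_zero]; exact Iff.rfl) (FO.pe_fs 7 2 0 0)
    · exact FO.congr (fun _ _ _ v => by rw [add_zero]; exact Iff.rfl) (FO.qe_fs 7 2 0 0)
    · refine FZ.add (FZ.add (FZ.ind (dd_fs 7 0)) (FZ.ind (dd_fs 7 2))) ?_
      refine FZ.s4 (g := fun d N R C v =>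
        if sq v 2 + d ∈ (gr (sq v 0)).star (Ed N (bd N R 2) (sq v 0)) (sq v 2) then
          ((if (gr (sq v 0)).p (sq v 2 + d) ∈ fs N R 7 then 1 else 0) +
            if (gr (sq v 0)).q (sq v 2 + d) ∈ fs N R 7 then 1 else 0) else 0) (fun d => ?_)
      exact FZ.ite (FO.mem_star 2 0 2 2 d) (FZ.add (FZ.ind (FO.pe_fs 7 0 2 d))
        (FZ.ind (FO.qe_fs 7 0 2 d)))
  refine NPd.congr ?_ (NPd.and (NPd.fo dd_pre) (NPd.or (NPd.fo h0) (NPd.so 7 h1)))
  intro N R v
  have hsum : ∀ Y : Finset Sq, (∀ z ∈ Y, On N z) → ∑ z ∈ Y, (chi (sq v 0) (sq v 2) z +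
      (gr (sq v 0)).bdy ((gr (sq v 0)).star (Ed N (bd N R 2) (sq v 0)) (sq v 2)) z) =
      ((if sq v 0 ∈ Y then (1 : ZMod 2) else 0) + if sq v 2 ∈ Y then 1 else 0) +
        s4 fun d => if sq v 2 + d ∈ (gr (sq v 0)).star (Ed N (bd N R 2) (sq v 0)) (sq v 2) then
          ((if (gr (sq v 0)).p (sq v 2 + d) ∈ Y then 1 else 0) +
            if (gr (sq v 0)).q (sq v 2 + d) ∈ Y then 1 else 0) else 0 := by
    intro Y _
    rw [Finset.sum_add_distrib, sum_chi, sum_bdy_swap]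
    congr 1
    exact sum_at (f := fun e => (if (gr (sq v 0)).p e ∈ Y then (1 : ZMod 2) else 0) +
      if (gr (sq v 0)).q e ∈ Y then 1 else 0) fun e he _ => end_add (Finset.mem_filter.1 he).2
  constructor
  · rintro ⟨a1, a2, a3, a4, h⟩
    refine ⟨⟨a1, a2, a3, a4⟩, ?_⟩
    rw [MG.not_av_iff] at h
    rcases h with h | ⟨Y, hY, hs⟩
    · left
      intro h2
      apply h
      intro z hz
      exact h2 z (fog_Ed_on (Finset.mem_filter.1 hz).1).1 hz
    · right
      obtain ⟨X, hX⟩ := exists_fs (Y.filter (On N)) (fun z hz => (Finset.mem_filter.1 hz).2) R 7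
      refine ⟨X, ?_, ?_⟩
      · intro z _ hz hz'
        rw [fs_update (by norm_num)] at hz
        rw [bd_update (by norm_num)] at hz'
        have ho := fog_Ed_on (a4 hz)
        rw [hX, Finset.mem_filter, Finset.mem_filter]
        have := hY z (Finset.mem_sdiff.2 ⟨hz, hz'⟩)
        constructor
        · rintro ⟨h1, -⟩; exact ⟨this.1 h1, ho.2.2⟩
        · rintro ⟨h1, -⟩; exact ⟨this.2 h1, ho.2.1⟩
      · rw [bd_update (by norm_num), hX, ← hsum _ (fun z hz => (Finset.mem_filter.1 hz).2)]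
        rw [Finset.sum_filter_of_ne]
        · exact hs
        · intro z _ hne
          by_contra hz
          have h2 := dd_zero (s := sq v 0) (t := sq v 2) a1 a3.1
            (S := (gr (sq v 0)).star (Ed N (bd N R 2) (sq v 0)) (sq v 2))
            (fun e he => (fog_Ed_on (Finset.mem_filter.1 he).1).2) hz
          rw [h2.1, h2.2, add_zero] at hne
          exact hne rfl
  · rintro ⟨⟨a1, a2, a3, a4⟩, h⟩
    refine ⟨a1, a2, a3, a4, ?_⟩
    rw [MG.not_av_iff]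
    rcases h with h | ⟨X, h2, h3⟩
    · left
      intro h2
      apply h
      intro z _ hz
      exact h2 hz
    · right
      refine ⟨fs N (Function.update R 7 X) 7, ?_, ?_⟩
      · intro z hz
        rw [Finset.mem_sdiff] at hz
        refine h2 z (fs_on hz.1) ?_ ?_
        · rw [fs_update (by norm_num)]; exact hz.1
        · rw [bd_update (by norm_num)]; exact hz.2
      · rw [hsum _ (fun z hz => fs_on hz)]
        rw [bd_update (by norm_num)] at h3
        exact h3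

end Pool.Agent.CHK
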