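import Pool.Agent.CHK.FoG
import Pool.Agent.CHK.GrG

set_option autoImplicit false

/-! Nonexistence of replies containing prescribed edges is definable. -/

namespace Pool.Agent.CHK

/-- The remaining edges. -/
noncomputable def qset (N : ℕ) (R : ℕ → List ℕ → Prop) (s t : Sq) : Finset Sq :=
  fs N R 3 \ ((gr s).star (Ed N (bd N R 2) s) t ∪ fs N R 4)

theorem qset_update {N : ℕ} {R : ℕ → List ℕ → Prop} {k : ℕ} (h2 : 2 ≠ k) (h3 : 3 ≠ k)
    (h4 : 4 ≠ k) (X : List ℕ → Prop) (s t : Sq) :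
    qset N (Function.update R k X) s t = qset N R s t := by
  unfold qset
  rw [fs_update h3, fs_update h4, bd_update h2]

theorem qset_on {N : ℕ} {R : ℕ → List ℕ → Prop} {s t z : Sq} (h : z ∈ qset N R s t) : On N z :=
  fs_on (Finset.mem_sdiff.1 h).1

theorem FO.mem_qset (a b i : ℕ) (c : Sq) :
    FO (fun N R _ v => sq v i + c ∈ qset N R (sq v a) (sq v b)) := by
  refine FO.congr (fun N R C v => ?_) (FO.and (FO.mem_fs 3 i c)
    (FO.not (FO.or (FO.mem_star 2 a b i c) (FO.mem_fs 4 i c))))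
  unfold qset
  rw [Finset.mem_sdiff, Finset.mem_union]

/-- No edge leaves the set number `k`. -/
def Clo (N : ℕ) (R : ℕ → List ℕ → Prop) (s t : Sq) (k : ℕ) : Prop :=
  ∀ e, e ∈ qset N R s t → ((gr s).p e ∈ fs N R k ↔ (gr s).q e ∈ fs N R k)

theorem FO.clo (a b k : ℕ) : FO (fun N R _ v => Clo N R (sq v a) (sq v b) k) := by
  refine FO.allE (A := fun N R C v z => z ∈ qset N R (sq v a) (sq v b))
    (P := fun N R C v z => ((gr (sq v a)).p z ∈ fs N R k ↔ (gr (sq v a)).q z ∈ fs N R k))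
    (fun N R C v z h => qset_on h) ?_ ?_
  · exact FO.mem_qset (a + 2) (b + 2) 0 0
  · exact FO.iff (FO.pe_fs k (a + 2) 0 0) (FO.qe_fs k (a + 2) 0 0)

/-- The sum over `Y` of the parities which are missing. -/
noncomputable def zsum (s t u : Sq) (A D Y : Finset Sq) : ZMod 2 :=
  ((if s ∈ Y then 1 else 0) + (if t ∈ Y then 1 else 0)) +
    (s4 (fun d => if t + d ∈ A then
      ((if (gr s).p (t + d) ∈ Y then 1 else 0) + if (gr s).q (t + d) ∈ Y then 1 else 0) else 0) +
    s4 (fun d => if u + d ∈ D \ A then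
      ((if (gr s).p (u + d) ∈ Y then 1 else 0) + if (gr s).q (u + d) ∈ Y then 1 else 0) else 0))

theorem zsum_eq {s t u : Sq} {A D : Finset Sq}
    (hA : ∀ e ∈ A, (gr s).p e = t ∨ (gr s).q e = t)
    (hD : ∀ e ∈ D, (gr s).p e = u ∨ (gr s).q e = u) (Y : Finset Sq) :
    ∑ v ∈ Y, (chi s t v + (gr s).bdy (A ∪ D) v) = zsum s t u A D Y := by
  rw [Finset.sum_add_distrib, sum_chi, sum_bdy_swap, ← Finset.union_sdiff_self_eq_union,
    Finset.sum_union Finset.disjoint_sdiff]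
  unfold zsum
  rw [sum_at (z := t) (fun e he _ => end_add (hA e he)),
    sum_at (z := u) (fun e he _ => end_add (hD e (Finset.mem_sdiff.1 he).1))]

theorem FZ.zsum : FZ (fun N R _ v => zsum (sq v 0) (sq v 2) (sq v 4)
    ((gr (sq v 0)).star (Ed N (bd N R 2) (sq v 0)) (sq v 2)) (fs N R 4) (fs N R 7)) := by
  refine FZ.add (FZ.add (FZ.ind ?_) (FZ.ind ?_)) (FZ.add ?_ ?_)
  · simpa using FO.mem_fs 7 0 0
  · simpa using FO.mem_fs 7 2 0
  · refine FZ.s4 (g := fun d N R C v => if sq v 2 + d ∈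
      (gr (sq v 0)).star (Ed N (bd N R 2) (sq v 0)) (sq v 2) then
      ((if (gr (sq v 0)).p (sq v 2 + d) ∈ fs N R 7 then 1 else 0) +
        if (gr (sq v 0)).q (sq v 2 + d) ∈ fs N R 7 then 1 else 0) else 0) (fun d => ?_)
    exact FZ.ite (FO.mem_star 2 0 2 2 d)
      (FZ.add (FZ.ind (FO.pe_fs 7 0 2 d)) (FZ.ind (FO.qe_fs 7 0 2 d)))
  · refine FZ.s4 (g := fun d N R C v => if sq v 4 + d ∈ fs N R 4 \
      (gr (sq v 0)).star (Ed N (bd N R 2) (sq v 0)) (sq v 2) then
      ((if (gr (sq v 0)).p (sq v 4 + d) ∈ fs N R 7 then 1 else 0) +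
        if (gr (sq v 0)).q (sq v 4 + d) ∈ fs N R 7 then 1 else 0) else 0) (fun d => ?_)
    refine FZ.ite (FO.congr (fun N R C v => Finset.mem_sdiff)
      (FO.and (FO.mem_fs 4 4 d) (FO.not (FO.mem_star 2 0 2 4 d))))
      (FZ.add (FZ.ind (FO.pe_fs 7 0 4 d)) (FZ.ind (FO.qe_fs 7 0 4 d)))

/-- The parities of set number 5. -/
def Bal (N : ℕ) (R : ℕ → List ℕ → Prop) (s t : Sq) : Prop :=
  ∀ z, On N z → ¬ (gr s).bdy (fs N R 5) z + (chi s t z +
    (gr s).bdy ((gr s).star (Ed N (bd N R 2) s) t ∪ fs N R 4) z) ≠ 0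

theorem FO.bal : FO (fun N R _ v => Bal N R (sq v 0) (sq v 2)) := by
  refine FO.allE (A := fun N R C v z => On N z)
    (P := fun N R C v z => ¬ (gr (sq v 0)).bdy (fs N R 5) z + (chi (sq v 0) (sq v 2) z +
      (gr (sq v 0)).bdy ((gr (sq v 0)).star (Ed N (bd N R 2) (sq v 0)) (sq v 2) ∪ fs N R 4) z) ≠ 0)
    (fun N R C v z h => h) (FO.on 0 0) ?_
  refine FO.not ?_
  have h1 : FZ (fun N R _ w => (gr (sq w 2)).bdy (fs N R 5) (sq w 0) +
      (chi (sq w 2) (sq w 4) (sq w 0) + (gr (sq w 2)).bdy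
        ((gr (sq w 2)).star (Ed N (bd N R 2) (sq w 2)) (sq w 4) ∪ fs N R 4) (sq w 0))) := by
    refine FZ.add (FZ.bdy 2 0 (fun c => FO.mem_fs 5 0 c)) (FZ.add (FZ.chi 2 4 0)
      (FZ.bdy 2 0 (fun c => ?_)))
    exact FO.congr (fun N R C v => Finset.mem_union) (FO.or (FO.mem_star 2 2 4 0 c)
      (FO.mem_fs 4 0 c))
  refine FO.congr (fun N R C w => ?_) h1
  rw [add_zero]
  rfl

/-- The set number 7 separates exactly the edge `z`. -/
def Bri (N : ℕ) (R : ℕ → List ℕ → Prop) (s t z : Sq) : Prop :=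
  ∀ e, e ∈ qset N R s t → (((gr s).p e ∈ fs N R 7 ↔ (gr s).q e ∈ fs N R 7) ↔ e ≠ z)

theorem FO.bri : FO (fun N R _ w => Bri N R (sq w 2) (sq w 4) (sq w 0 + 0)) := by
  refine FO.allE (A := fun N R C v z => z ∈ qset N R (sq v 2) (sq v 4))
    (P := fun N R C v z => ((gr (sq v 2)).p z ∈ fs N R 7 ↔ (gr (sq v 2)).q z ∈ fs N R 7) ↔
      z ≠ sq v 0 + 0)
    (fun N R C v z h => qset_on h) ?_ ?_
  · exact FO.mem_qset 4 6 0 0
  · refine FO.iff (FO.iff (FO.pe_fs 7 4 0 0) (FO.qe_fs 7 4 0 0)) (FO.not ?_)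
    refine FO.congr (fun N R C w => ?_) (FO.eq_sq 0 2 0)
    rw [add_zero, add_zero]
    rfl

/-- The certificate for the third alternative. -/
def Cer (N : ℕ) (R : ℕ → List ℕ → Prop) (s t : Sq) : Prop :=
  ((∀ e, e ∈ fs N R 5 → e ∈ qset N R s t) ∧ Bal N R s t ∧ s ∈ fs N R 6 ∧
    (∀ e, e ∈ (gr s).star (Ed N (bd N R 2) s) t → (gr s).p e ∈ fs N R 6 ∧ (gr s).q e ∈ fs N R 6) ∧
    (∀ e, e ∈ fs N R 4 → (gr s).p e ∉ fs N R 6 ∧ (gr s).q e ∉ fs N R 6)) ∧
  ∀ e, e ∈ qset N R s t → ((gr s).p e ∈ fs N R 6 ↔ (gr s).q e ∈ fs N R 6) ∨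
    (e ∉ fs N R 5 ∧ ∃ X, Bri N (Function.update R 7 X) s t e)

theorem NPd.cer : NPd (fun N R v => Cer N R (sq v 0) (sq v 2)) := by
  refine NPd.and (NPd.fo (FO.and ?_ (FO.and FO.bal (FO.and ?_ (FO.and ?_ ?_))))) ?_
  · exact FO.allE (A := fun N R C v z => z ∈ fs N R 5)
      (P := fun N R C v z => z ∈ qset N R (sq v 0) (sq v 2)) (fun N R C v z h => fs_on h)
      (FO.mem_fs 5 0 0) (FO.mem_qset 2 4 0 0)
  · simpa using FO.mem_fs 6 0 0
  · exact FO.allE (A := fun N R C v z =>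
        z ∈ (gr (sq v 0)).star (Ed N (bd N R 2) (sq v 0)) (sq v 2))
      (P := fun N R C v z => (gr (sq v 0)).p z ∈ fs N R 6 ∧ (gr (sq v 0)).q z ∈ fs N R 6)
      (fun N R C v z h => (fog_Ed_on (Finset.mem_filter.1 h).1).1)
      (FO.mem_star 2 2 4 0 0) (FO.and (FO.pe_fs 6 2 0 0) (FO.qe_fs 6 2 0 0))
  · exact FO.allE (A := fun N R C v z => z ∈ fs N R 4)
      (P := fun N R C v z => (gr (sq v 0)).p z ∉ fs N R 6 ∧ (gr (sq v 0)).q z ∉ fs N R 6)
      (fun N R C v z h => fs_on h)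
      (FO.mem_fs 4 0 0) (FO.and (FO.not (FO.pe_fs 6 2 0 0)) (FO.not (FO.qe_fs 6 2 0 0)))
  · refine NPd.allE (A := fun N R v z => z ∈ qset N R (sq v 0) (sq v 2))
      (P := fun N R v z => ((gr (sq v 0)).p z ∈ fs N R 6 ↔ (gr (sq v 0)).q z ∈ fs N R 6) ∨
        (z ∉ fs N R 5 ∧ ∃ X, Bri N (Function.update R 7 X) (sq v 0) (sq v 2) z))
      (fun N R v z h => qset_on h) (FO.mem_qset 2 4 0 0) ?_
    refine NPd.or (NPd.fo (FO.iff (FO.pe_fs 6 2 0 0) (FO.qe_fs 6 2 0 0)))
      (NPd.and (NPd.fo (FO.not (FO.mem_fs 5 0 0))) ?_)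
    exact NPd.so 7 (P := fun N R w => Bri N R (sq w 2) (sq w 4) (sq w 0 + 0)) (NPd.fo FO.bri)

theorem bdy_out {N : ℕ} {R : ℕ → List ℕ → Prop} {k : ℕ} {s z : Sq} {S : Finset Sq}
    (hS : ∀ e ∈ S, e ∈ Ed N (bd N R k) s) (hz : ¬ On N z) : (gr s).bdy S z = 0 := by
  unfold MG.bdy
  refine Finset.sum_eq_zero (fun e he => ?_)
  have h := fog_Ed_on (hS e he)
  rw [if_neg, if_neg, add_zero]
  · rintro rfl
    exact hz h.2.2
  · rintro rfl
    exact hz h.2.1

theorem chi_out {N : ℕ} {s t z : Sq} (hs : On N s) (ht : On N t) (hz : ¬ On N z) :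
    chi s t z = 0 := by
  unfold chi
  rw [if_neg, if_neg, add_zero]
  · rintro rfl
    exact hz ht
  · rintro rfl
    exact hz hs

/-- Only the squares of the board matter. -/
theorem exists_fs_iff {N : ℕ} {R : ℕ → List ℕ → Prop} {k : ℕ} {s : Sq} (Y : Finset Sq)
    (R' : ℕ → List ℕ → Prop) (j : ℕ) :
    ∃ X : List ℕ → Prop, (∀ z, On N z → (z ∈ fs N (Function.update R' j X) j ↔ z ∈ Y)) ∧
      ∀ e ∈ Ed N (bd N R k) s,
        ((gr s).p e ∈ fs N (Function.update R' j X) j ↔ (gr s).p e ∈ Y) ∧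
        ((gr s).q e ∈ fs N (Function.update R' j X) j ↔ (gr s).q e ∈ Y) := by
  classical
  obtain ⟨X, hX⟩ := exists_fs (Y.filter (On N)) (fun z hz => (Finset.mem_filter.1 hz).2) R' j
  have h1 : ∀ z, On N z → (z ∈ fs N (Function.update R' j X) j ↔ z ∈ Y) := by
    intro z hz
    rw [hX, Finset.mem_filter]
    exact ⟨fun h => h.1, fun h => ⟨h, hz⟩⟩
  exact ⟨X, h1, fun e he => ⟨h1 _ (fog_Ed_on he).2.1, h1 _ (fog_Ed_on he).2.2⟩⟩

theorem not_hb_def {N : ℕ} {R : ℕ → List ℕ → Prop} {s t u : Sq} (hs : On N s) (ht : On N t)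
    (h3 : ∀ z, z ∈ fs N R 3 → z ∈ Ed N (bd N R 2) s) (h4 : (fs N R 4).Nonempty)
    (h4' : ∀ z, z ∈ fs N R 4 → z ∈ (gr s).star (Ed N (bd N R 2) s) u)
    (hR : ((gr s).star (Ed N (bd N R 2) s) t).Nonempty) :
    ¬ (gr s).Hb (fs N R 3) s t ((gr s).star (Ed N (bd N R 2) s) t) (fs N R 4) ↔
      (∃ z, (z ∈ (gr s).star (Ed N (bd N R 2) s) t ∨ z ∈ fs N R 4) ∧ z ∉ fs N R 3) ∨
      (∃ X, Clo N (Function.update R 7 X) s t 7 ∧
        zsum s t u ((gr s).star (Ed N (bd N (Function.update R 7 X) 2) s) t)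
        (fs N (Function.update R 7 X) 4) (fs N (Function.update R 7 X) 7) ≠ 0) ∨
      ∃ X, ∃ X', Cer N (Function.update (Function.update R 5 X) 6 X') s t := by
  have hDu : ∀ e ∈ fs N R 4, (gr s).p e = u ∨ (gr s).q e = u :=
    fun e he => (Finset.mem_filter.1 (h4' e he)).2
  have hDE : ∀ e ∈ fs N R 4, e ∈ Ed N (bd N R 2) s :=
    fun e he => (Finset.mem_filter.1 (h4' e he)).1
  have hRt : ∀ e ∈ (gr s).star (Ed N (bd N R 2) s) t, (gr s).p e = t ∨ (gr s).q e = t :=
    fun e he => (Finset.mem_filter.1 he).2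
  have hUE : ∀ e ∈ (gr s).star (Ed N (bd N R 2) s) t ∪ fs N R 4, e ∈ Ed N (bd N R 2) s := by
    intro e he
    rcases Finset.mem_union.1 he with he | he
    · exact (Finset.mem_filter.1 he).1
    · exact hDE e he
  have hQE : ∀ e ∈ qset N R s t, e ∈ Ed N (bd N R 2) s :=
    fun e he => h3 e (Finset.mem_sdiff.1 he).1
  have hcon : ∀ d ∈ fs N R 4, (gr s).Con (fs N R 4) (gr s |>.p d) u := by
    intro d hd
    rcases hDu d hd with h | h
    · rw [h]
      exact Relation.ReflTransGen.refl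
    · rw [← h]
      exact MG.Con.edge hd
  rw [MG.not_hb_iff (gr s) (E := Ed N (bd N R 2) s) (fun z hz => h3 z hz) hR h4
    (fun d hd d' hd' => (hcon d hd).trans (MG.Con.symm (hcon d' hd')))]
  refine or_congr ?_ (or_congr ?_ ?_)
  · rw [Finset.not_subset]
    refine exists_congr (fun z => ?_)
    rw [Finset.mem_union]
  · constructor
    · rintro ⟨Y, hY, hsum⟩
      obtain ⟨X, hX, hX'⟩ := exists_fs_iff (N := N) (R := R) (k := 2) (s := s) Y R 7
      refine ⟨X, ?_, ?_⟩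
      · intro e he
        rw [qset_update (by decide) (by decide) (by decide)] at he
        rw [(hX' e (hQE e he)).1, (hX' e (hQE e he)).2]
        exact hY e he
      · rw [bd_update (by decide), fs_update (by decide), ← zsum_eq hRt hDu]
        intro h0
        apply hsum
        rw [← h0]
        refine Finset.sum_congr_of_eq_on_inter ?_ ?_ ?_
        · intro z hz hz'
          have : ¬ On N z := fun h => hz' ((hX z h).2 hz)
          rw [chi_out hs ht this, bdy_out hUE this, add_zero]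
        · intro z hz hz'
          exact absurd ((hX z (fs_on hz)).1 hz) hz'
        · intro z _ _
          rfl
    · rintro ⟨X, hclo, hsum⟩
      refine ⟨fs N (Function.update R 7 X) 7, ?_, ?_⟩
      · intro e he
        refine hclo e ?_
        rw [qset_update (by decide) (by decide) (by decide)]
        exact he
      · rw [bd_update (by decide), fs_update (by decide)] at hsum
        rw [zsum_eq hRt hDu]
        exact hsum
  · have e0 : ∀ X X' : List ℕ → Prop,
        qset N (Function.update (Function.update R 5 X) 6 X') s t = qset N R s t := by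
      intro X X'
      rw [qset_update (by decide) (by decide) (by decide),
        qset_update (by decide) (by decide) (by decide)]
    have e1 : ∀ X X' : List ℕ → Prop,
        bd N (Function.update (Function.update R 5 X) 6 X') 2 = bd N R 2 := by
      intro X X'
      rw [bd_update (by decide), bd_update (by decide)]
    have e2 : ∀ X X' : List ℕ → Prop,
        fs N (Function.update (Function.update R 5 X) 6 X') 4 = fs N R 4 := by
      intro X X'
      rw [fs_update (by decide), fs_update (by decide)]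
    have e3 : ∀ X X' : List ℕ → Prop,
        fs N (Function.update (Function.update R 5 X) 6 X') 5 = fs N (Function.update R 5 X) 5 := by
      intro X X'
      rw [fs_update (by decide)]
    have key : ∀ a b : ZMod 2, a = b ↔ ¬ a + b ≠ 0 := by decide
    constructor
    · rintro ⟨M, hM, hb, Z, hsZ, hRZ, hDZ, hcut⟩
      have hME : ∀ e ∈ M, e ∈ qset N R s t := fun e he => hM he
      obtain ⟨X, hX⟩ := exists_fs M (fun z hz => qset_on (hME z hz)) R 5
      obtain ⟨X', hX1, hX2⟩ := exists_fs_iff (N := N) (R := R) (k := 2) (s := s) Z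
        (Function.update R 5 X) 6
      refine ⟨X, X', ⟨?_, ?_, ?_, ?_, ?_⟩, ?_⟩
      · intro e he
        rw [e3, hX] at he
        rw [e0]
        exact hME e he
      · intro z hz
        rw [e3, hX, e1, e2, ← key]
        exact hb z
      · exact (hX1 s hs).2 hsZ
      · intro e he
        rw [e1] at he
        have he' := (Finset.mem_filter.1 he).1
        rw [(hX2 e he').1, (hX2 e he').2]
        exact ⟨hRZ _ ⟨e, he, Or.inl rfl⟩, hRZ _ ⟨e, he, Or.inr rfl⟩⟩
      · intro e he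
        rw [e2] at he
        have he' := hDE e he
        rw [(hX2 e he').1, (hX2 e he').2]
        exact ⟨hDZ _ ⟨e, he, Or.inl rfl⟩, hDZ _ ⟨e, he, Or.inr rfl⟩⟩
      · intro e he
        rw [e0] at he
        have he' := hQE e he
        rw [(hX2 e he').1, (hX2 e he').2, e3, hX]
        refine (hcut e he).imp id ?_
        rintro ⟨heM, Y, hY⟩
        refine ⟨heM, ?_⟩
        obtain ⟨X'', hY1, hY2⟩ := exists_fs_iff (N := N) (R := R) (k := 2) (s := s) Y
          (Function.update (Function.update R 5 X) 6 X') 7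
        refine ⟨X'', ?_⟩
        intro e' he'
        rw [qset_update (by decide) (by decide) (by decide), e0] at he'
        rw [(hY2 e' (hQE e' he')).1, (hY2 e' (hQE e' he')).2]
        exact hY e' he'
    · rintro ⟨X, X', ⟨h5, hbal, hs6, hR6, hD6⟩, hcut⟩
      rw [e3] at h5
      refine ⟨fs N (Function.update R 5 X) 5, ?_, ?_, fs N (Function.update
        (Function.update R 5 X) 6 X') 6, hs6, ?_, ?_, ?_⟩
      · intro e he
        have := h5 e he
        rw [e0] at this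
        exact this
      · intro z
        by_cases hz : On N z
        · have := hbal z hz
          rw [e3, e1, e2, ← key] at this
          exact this
        · have hM0 : ∀ e ∈ fs N (Function.update R 5 X) 5, e ∈ Ed N (bd N R 2) s := by
            intro e he
            have := h5 e he
            rw [e0] at this
            exact hQE e this
          rw [chi_out hs ht hz, bdy_out hUE hz, bdy_out hM0 hz, add_zero]
      · rintro a ⟨e, he, ha⟩
        have := hR6 e (by rw [e1]; exact he)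
        rcases ha with rfl | rfl
        · exact this.1
        · exact this.2
      · rintro a ⟨e, he, ha⟩
        have := hD6 e (by rw [e2]; exact he)
        rcases ha with rfl | rfl
        · exact this.1
        · exact this.2
      · intro e he
        have he0 : e ∈ qset N R s t := he
        have := hcut e (by rw [e0]; exact he0)
        rw [e3] at this
        refine this.imp id ?_
        rintro ⟨h5', X'', hX''⟩
        refine ⟨h5', fs N (Function.update (Function.update (Function.update R 5 X) 6 X') 7 X'') 7,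
          ?_⟩
        intro e' he'
        refine hX'' e' ?_
        rw [qset_update (by decide) (by decide) (by decide), e0]
        exact he'

theorem npd_not_hb : NPd (fun N R v => On N (sq v 0) ∧ Cls (sq v 0) (sq v 2) ∧
    Fre N (bd N R 2) (sq v 0) (sq v 2) ∧ fs N R 3 ⊆ Ed N (bd N R 2) (sq v 0) ∧
    (fs N R 4).Nonempty ∧
    fs N R 4 ⊆ (gr (sq v 0)).star (Ed N (bd N R 2) (sq v 0)) (sq v 4) ∧
    ((gr (sq v 0)).star (Ed N (bd N R 2) (sq v 0)) (sq v 2)).Nonempty ∧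
    ¬ (gr (sq v 0)).Hb (fs N R 3) (sq v 0) (sq v 2)
      ((gr (sq v 0)).star (Ed N (bd N R 2) (sq v 0)) (sq v 2)) (fs N R 4)) := by
  have hfo : FO (fun N R _ v => On N (sq v 0) ∧ Cls (sq v 0) (sq v 2) ∧
      Fre N (bd N R 2) (sq v 0) (sq v 2) ∧
      (∀ z, z ∈ fs N R 3 → z ∈ Ed N (bd N R 2) (sq v 0)) ∧
      (∃ z, z ∈ fs N R 4 ∧ True) ∧
      (∀ z, z ∈ fs N R 4 → z ∈ (gr (sq v 0)).star (Ed N (bd N R 2) (sq v 0)) (sq v 4)) ∧
      (∃ z, z ∈ (gr (sq v 0)).star (Ed N (bd N R 2) (sq v 0)) (sq v 2) ∧ True)) := by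
    refine FO.and ?_ (FO.and ?_ (FO.and ?_ (FO.and ?_ (FO.and ?_ (FO.and ?_ ?_)))))
    · simpa using FO.on 0 0
    · simpa using FO.cls 0 2 0
    · simpa using FO.fre 2 0 2 0
    · exact FO.allE (A := fun N R C v z => z ∈ fs N R 3)
        (P := fun N R C v z => z ∈ Ed N (bd N R 2) (sq v 0)) (fun N R C v z h => fs_on h)
        (FO.mem_fs 3 0 0) (FO.mem_Ed 2 2 0 0)
    · exact FO.exE (A := fun N R C v z => z ∈ fs N R 4)
        (P := fun N R C v z => True) (fun N R C v z h => fs_on h)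
        (FO.mem_fs 4 0 0) (FO.prop True)
    · exact FO.allE (A := fun N R C v z => z ∈ fs N R 4)
        (P := fun N R C v z => z ∈ (gr (sq v 0)).star (Ed N (bd N R 2) (sq v 0)) (sq v 4))
        (fun N R C v z h => fs_on h)
        (FO.mem_fs 4 0 0) (FO.mem_star 2 2 6 0 0)
    · exact FO.exE (A := fun N R C v z =>
          z ∈ (gr (sq v 0)).star (Ed N (bd N R 2) (sq v 0)) (sq v 2))
        (P := fun N R C v z => True)
        (fun N R C v z h => (fog_Ed_on (Finset.mem_filter.1 h).1).1)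
        (FO.mem_star 2 2 4 0 0) (FO.prop True)
  have h1 : FO (fun N R _ v => ∃ z, (z ∈ (gr (sq v 0)).star (Ed N (bd N R 2) (sq v 0)) (sq v 2) ∨
      z ∈ fs N R 4) ∧ z ∉ fs N R 3) := by
    refine FO.exE (A := fun N R C v z =>
          z ∈ (gr (sq v 0)).star (Ed N (bd N R 2) (sq v 0)) (sq v 2) ∨ z ∈ fs N R 4)
        (P := fun N R C v z => z ∉ fs N R 3) ?_
        (FO.or (FO.mem_star 2 2 4 0 0) (FO.mem_fs 4 0 0)) (FO.not (FO.mem_fs 3 0 0))
    rintro N R C v z (h | h)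
    · exact (fog_Ed_on (Finset.mem_filter.1 h).1).1
    · exact fs_on h
  have h2 : NPd (fun N R v => ∃ X, Clo N (Function.update R 7 X) (sq v 0) (sq v 2) 7 ∧
      zsum (sq v 0) (sq v 2) (sq v 4)
        ((gr (sq v 0)).star (Ed N (bd N (Function.update R 7 X) 2) (sq v 0)) (sq v 2))
        (fs N (Function.update R 7 X) 4) (fs N (Function.update R 7 X) 7) ≠ 0) :=
    NPd.so 7 (P := fun N R v => Clo N R (sq v 0) (sq v 2) 7 ∧ zsum (sq v 0) (sq v 2) (sq v 4)
      ((gr (sq v 0)).star (Ed N (bd N R 2) (sq v 0)) (sq v 2)) (fs N R 4) (fs N R 7) ≠ 0)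
      (NPd.fo (FO.and (FO.clo 0 2 7) FZ.zsum))
  have h3 : NPd (fun N R v => ∃ X, ∃ X',
      Cer N (Function.update (Function.update R 5 X) 6 X') (sq v 0) (sq v 2)) :=
    NPd.so 5 (P := fun N R v => ∃ X', Cer N (Function.update R 6 X') (sq v 0) (sq v 2))
      (NPd.so 6 (P := fun N R v => Cer N R (sq v 0) (sq v 2)) NPd.cer)
  refine NPd.congr (fun N R v => ?_) (NPd.and (NPd.fo hfo) (NPd.or (NPd.fo h1) (NPd.or h2 h3)))
  constructor
  · rintro ⟨a1, a2, a3, a4, a5, a6, a7, a8⟩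
    refine ⟨⟨a1, a2, a3, fun z hz => a4 hz, ?_, fun z hz => a6 hz, ?_⟩, ?_⟩
    · obtain ⟨z, hz⟩ := a5
      exact ⟨z, hz, trivial⟩
    · obtain ⟨z, hz⟩ := a7
      exact ⟨z, hz, trivial⟩
    · exact (not_hb_def a1 a3.1 (fun z hz => a4 hz) a5 (fun z hz => a6 hz) a7).1 a8
  · rintro ⟨⟨a1, a2, a3, a4, ⟨z, hz, -⟩, a6, ⟨y, hy, -⟩⟩, a8⟩
    refine ⟨a1, a2, a3, fun z hz => a4 z hz, ⟨z, hz⟩, fun z hz => a6 z hz, ⟨y, hy⟩, ?_⟩
    exact (not_hb_def a1 a3.1 (fun z hz => a4 z hz) ⟨z, hz⟩ (fun z hz => a6 z hz) ⟨y, hy⟩).2 a8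

end Pool.Agent.CHK
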