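import Pool.Agent.CHK.Play

set_option autoImplicit false

/-! Finite sets of squares described by relations. -/

namespace Pool.Agent.CHK

open Classical in
/-- The finite set described by relation number `k`. -/
noncomputable def fs (N : ℕ) (R : ℕ → List ℕ → Prop) (k : ℕ) : Finset Sq :=
  (box N).filter (sset N R k)

end Pool.Agent.CHK
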