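import Pool.Agent.CHK.PlayA

set_option autoImplicit false

/-! Parities of a covering capture. -/

namespace Pool.Agent.CHK

theorem qa_type {D A F : Sq → Prop} (hD : ∀ d, D d → Dg d) : ∀ {L : List Sq} {z t : Sq},
    Run D A F z L t → ∀ e ∈ L, ∃ i j : ℤ, e = (z.1 + 2 * i + 1, z.2 + 2 * j + 1)
  | [], _, _, _, e, he => by simp at he
  | e :: L, z, t, h, f, hf => by
      obtain ⟨d, hd, he, -, -, hr⟩ := h
      obtain ⟨h1, h2⟩ := hD d hd
      rcases List.mem_cons.1 hf with rfl | hf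
      · refine ⟨(d.1 - 1) / 2, (d.2 - 1) / 2, ?_⟩
        rw [he]
        refine Prod.ext ?_ ?_
        · rcases h1 with h1 | h1 <;> simp [h1]
          ring
        · rcases h2 with h2 | h2 <;> simp [h2]
          ring
      · obtain ⟨i, j, hij⟩ := qa_type hD hr f hf
        refine ⟨i + d.1, j + d.2, ?_⟩
        rw [hij, he]
        refine Prod.ext ?_ ?_
        · simp only [Prod.fst_add]
          ring
        · simp only [Prod.snd_add]
          ring

theorem cov_type {N : ℕ} {P : Piece} {w : Sq} {β : Sq → Prop} (h : Cov N P w β) {y : Sq}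
    (hy : β y) : ∃ i j : ℤ, y = (w.1 + 2 * i + 1, w.2 + 2 * j + 1) := by
  obtain ⟨L, t, hr, -, hL⟩ := h
  exact qa_type (fun d hd => dir_dg hd) hr y (hL y hy)

theorem qa_xf1 (a b : Prop) : Xor (Xor a b) (Xor False False) = Xor a b := by
  by_cases h1 : a <;> by_cases h2 : b <;> simp [h1, h2]

theorem qa_xf2 (a b : Prop) : Xor (Xor False False) (Xor a b) = Xor a b := by
  by_cases h1 : a <;> by_cases h2 : b <;> simp [h1, h2]

theorem qa_xc (a b : Prop) : Xor a b = Xor b a := by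
  by_cases h1 : a <;> by_cases h2 : b <;> simp [h1, h2]

/-- The diagonal neighbours of `z + d` in the class of `z`. -/
theorem qa_one {z y d : Sq} (hd : Dg d) (hy : Cls z y) :
    oddN (fun x => x = z + d) y ↔ Xor (y = z) (y = z + d + d) := by
  obtain ⟨i, j, rfl, k, hk⟩ := hy
  obtain ⟨z1, z2⟩ := z
  obtain ⟨d1, d2⟩ := d
  obtain ⟨h1, h2⟩ := hd
  simp only at h1 h2
  unfold oddN
  have e : ∀ a b : ℤ, (((z1 + 2 * i, z2 + 2 * j) + (a, b) : Sq) = (z1, z2) + (d1, d2)) ↔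
      (2 * i + a = d1 ∧ 2 * j + b = d2) := by
    intro a b
    simp only [Prod.mk_add_mk, Prod.mk.injEq]
    omega
  have e1 : (((z1 + 2 * i, z2 + 2 * j) : Sq) = (z1, z2)) ↔ (i = 0 ∧ j = 0) := by
    simp only [Prod.mk.injEq]
    omega
  have e2 : (((z1 + 2 * i, z2 + 2 * j) : Sq) = (z1, z2) + (d1, d2) + (d1, d2)) ↔
      (i = d1 ∧ j = d2) := by
    simp only [Prod.mk_add_mk, Prod.mk.injEq]
    omega
  simp only [e, e1, e2]
  rcases h1 with rfl | rfl <;> rcases h2 with rfl | rfl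
  · have f1 : (2 * i + 1 = 1 ∧ 2 * j + 1 = 1) ↔ (i = 0 ∧ j = 0) := by omega
    have f2 : (2 * i + -1 = 1 ∧ 2 * j + -1 = 1) ↔ (i = 1 ∧ j = 1) := by omega
    have f3 : ¬ (2 * i + 1 = 1 ∧ 2 * j + -1 = 1) := by omega
    have f4 : ¬ (2 * i + -1 = 1 ∧ 2 * j + 1 = 1) := by omega
    rw [f1, f2, eq_false f3, eq_false f4, qa_xf1]
  · have f1 : ¬ (2 * i + 1 = 1 ∧ 2 * j + 1 = -1) := by omega
    have f2 : ¬ (2 * i + -1 = 1 ∧ 2 * j + -1 = -1) := by omega
    have f3 : (2 * i + 1 = 1 ∧ 2 * j + -1 = -1) ↔ (i = 0 ∧ j = 0) := by omega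
    have f4 : (2 * i + -1 = 1 ∧ 2 * j + 1 = -1) ↔ (i = 1 ∧ j = -1) := by omega
    rw [eq_false f1, eq_false f2, f3, f4, qa_xf2]
  · have f1 : ¬ (2 * i + 1 = -1 ∧ 2 * j + 1 = 1) := by omega
    have f2 : ¬ (2 * i + -1 = -1 ∧ 2 * j + -1 = 1) := by omega
    have f3 : (2 * i + 1 = -1 ∧ 2 * j + -1 = 1) ↔ (i = -1 ∧ j = 1) := by omega
    have f4 : (2 * i + -1 = -1 ∧ 2 * j + 1 = 1) ↔ (i = 0 ∧ j = 0) := by omega
    rw [eq_false f1, eq_false f2, f3, f4, qa_xf2, qa_xc]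
  · have f1 : (2 * i + 1 = -1 ∧ 2 * j + 1 = -1) ↔ (i = -1 ∧ j = -1) := by omega
    have f2 : (2 * i + -1 = -1 ∧ 2 * j + -1 = -1) ↔ (i = 0 ∧ j = 0) := by omega
    have f3 : ¬ (2 * i + 1 = -1 ∧ 2 * j + -1 = -1) := by omega
    have f4 : ¬ (2 * i + -1 = -1 ∧ 2 * j + 1 = -1) := by omega
    rw [f1, f2, eq_false f3, eq_false f4, qa_xf1, qa_xc]

theorem qa_xor (a b c d : Prop) : Xor (Xor a b) (Xor c d) = Xor (Xor a c) (Xor b d) := by
  by_cases h1 : a <;> by_cases h2 : b <;> by_cases h3 : c <;> by_cases h4 : d <;>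
    simp [h1, h2, h3, h4]

theorem qa_odd {D A F : Sq → Prop} (hD : ∀ d, D d → Dg d) : ∀ {L : List Sq} {z t : Sq},
    Run D A F z L t → L.Nodup → ∀ y, Cls z y → (oddN (· ∈ L) y ↔ Xor (y = z) (y = t))
  | [], z, t, h, _, y, _ => by
      have h1 : z = t := h
      subst h1
      simp [oddN]
  | e :: L, z, t, h, hn, y, hy => by
      obtain ⟨d, hd, he, -, -, hr⟩ := h
      obtain ⟨hn1, hn2⟩ := List.nodup_cons.1 hn
      have hc : Cls (z + d + d) y := by
        refine Cls.trans' (Cls.symm' ?_) hy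
        exact Run.cls (A := fun _ => True) (F := fun _ => True) (L := [z + d]) hD
          ⟨d, hd, rfl, trivial, trivial, rfl⟩
      have h1 := qa_odd hD hr hn2 y (by rw [he]; exact hc)
      have h2 := qa_one (hD d hd) hy
      rw [← he] at h2
      have h3 : ∀ x, (x ∈ e :: L ↔ Xor (x = e) (x ∈ L)) := by
        intro x
        rw [List.mem_cons]
        constructor
        · rintro (rfl | h)
          · exact Or.inl ⟨rfl, hn1⟩
          · exact Or.inr ⟨h, fun h' => hn1 (h' ▸ h)⟩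
        · rintro (⟨h, -⟩ | ⟨h, -⟩)
          · exact Or.inl h
          · exact Or.inr h
      have h4 : oddN (· ∈ e :: L) y ↔ Xor (oddN (fun x => x = e) y) (oddN (· ∈ L) y) := by
        unfold oddN
        simp only [h3]
        rw [qa_xor (y + (1, 1) = e), qa_xor (y + (1, -1) = e), qa_xor]
      rw [h4, h2, h1, he]
      generalize (y = z) = p1
      generalize (y = z + d + d) = p2
      generalize (y = t) = p3
      by_cases a1 : p1 <;> by_cases a2 : p2 <;> by_cases a3 : p3 <;> simp [a1, a2, a3]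

theorem cov_odd {N : ℕ} {P : Piece} {w : Sq} {β : Sq → Prop} (h : Cov N P w β) :
    ∃ w', ∀ z, Cls w z → (oddN β z ↔ Xor (z = w) (z = w')) := by
  obtain ⟨L, t, hr, hn, hL⟩ := h
  refine ⟨t, fun z hz => ?_⟩
  have h1 : ∀ y, β y ↔ y ∈ L := fun y => ⟨hL y, fun h => (Run.mem hr h).1⟩
  rw [← qa_odd (fun d hd => dir_dg hd) hr hn z hz]
  unfold oddN
  simp only [h1]

end Pool.Agent.CHK
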