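import Pool.Agent.CHK.Play

set_option autoImplicit false

/-! Module QB: a finite set of squares with few odd neighbours is a full array. -/

namespace Pool.Agent.CHK

namespace GeoB

/-- Odd squares in index coordinates. -/
def O (A : ℤ → ℤ → Prop) (i j : ℤ) : Prop :=
  Xor (Xor (A (i + 1) (j + 1)) (A i j)) (Xor (A (i + 1) j) (A i (j + 1)))

theorem card4 {p1 p2 p3 p4 : ℤ × ℤ} (h12 : p1 ≠ p2) (h13 : p1 ≠ p3) (h14 : p1 ≠ p4)
    (h23 : p2 ≠ p3) (h24 : p2 ≠ p4) (h34 : p3 ≠ p4) :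
    ({p1, p2, p3, p4} : Finset (ℤ × ℤ)).card = 4 := by
  rw [Finset.card_insert_of_notMem (by simp [h12, h13, h14]),
    Finset.card_insert_of_notMem (by simp [h23, h24]),
    Finset.card_insert_of_notMem (by simp [h34]), Finset.card_singleton]

theorem core (A : ℤ → ℤ → Prop) (hf : {p : ℤ × ℤ | A p.1 p.2}.Finite) (hne : ∃ i j, A i j)
    (hodd : ∀ k : ℤ, k = 0 ∨ k = 1 → ∃ w w' : ℤ × ℤ, ∀ i j, (i + j) % 2 = k → O A i j →
      (i, j) = w ∨ (i, j) = w') :
    ∃ x X y Y : ℤ, x ≤ X ∧ y ≤ Y ∧ (∀ i j, A i j ↔ x ≤ i ∧ i ≤ X ∧ y ≤ j ∧ j ≤ Y) ∧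
      ¬ (Even (X - x + 1) ∧ Even (Y - y + 1)) := by
  obtain ⟨i₀, j₀, hij⟩ := hne
  have hne' : ({p : ℤ × ℤ | A p.1 p.2}).Nonempty := ⟨(i₀, j₀), hij⟩
  -- rightmost and leftmost columns
  obtain ⟨⟨X, jX⟩, hX, hXm⟩ := Set.exists_max_image _ Prod.fst hf hne'
  obtain ⟨⟨x, jx⟩, hx, hxm⟩ := Set.exists_min_image _ Prod.fst hf hne'
  simp only [Set.mem_ofPred_eq] at hX hXm hx hxm
  have hXm' : ∀ i j, A i j → i ≤ X := fun i j h => hXm (i, j) h
  have hxm' : ∀ i j, A i j → x ≤ i := fun i j h => hxm (i, j) h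
  -- lowest and highest squares of a column
  have hcol : ∀ i, (∃ j, A i j) → ∃ a b, A i a ∧ A i b ∧ ∀ j, A i j → a ≤ j ∧ j ≤ b := by
    rintro i ⟨j, hj⟩
    have hfi : ({p : ℤ × ℤ | A p.1 p.2 ∧ p.1 = i}).Finite := hf.subset (fun p hp => hp.1)
    have hni : ({p : ℤ × ℤ | A p.1 p.2 ∧ p.1 = i}).Nonempty := ⟨(i, j), hj, rfl⟩
    obtain ⟨⟨i1, a⟩, ha, ham⟩ := Set.exists_min_image _ Prod.snd hfi hni
    obtain ⟨⟨i2, b⟩, hb, hbm⟩ := Set.exists_max_image _ Prod.snd hfi hni
    obtain ⟨ha, rfl⟩ := ha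
    obtain ⟨hb, hb2⟩ := hb
    simp only at hb hb2 ha
    subst hb2
    exact ⟨a, b, ha, hb, fun j hj => ⟨ham (i2, j) ⟨hj, rfl⟩, hbm (i2, j) ⟨hj, rfl⟩⟩⟩
  obtain ⟨y, Y, hy, hY, hyY⟩ := hcol X ⟨jX, hX⟩
  obtain ⟨y', Y', hy', hY', hyY'⟩ := hcol x ⟨jx, hx⟩
  have hxX : x ≤ X := hxm' _ _ hX
  have h1 : y ≤ Y := (hyY _ hY).1
  have h1' : y' ≤ Y' := (hyY' _ hY').1
  have nX : ∀ i j, X < i → ¬ A i j := fun i j h h' => by have := hXm' i j h'; omega
  have nx : ∀ i j, i < x → ¬ A i j := fun i j h h' => by have := hxm' i j h'; omega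
  have nY : ∀ j, Y < j → ¬ A X j := fun j h h' => by have := (hyY j h').2; omega
  have ny : ∀ j, j < y → ¬ A X j := fun j h h' => by have := (hyY j h').1; omega
  have nY' : ∀ j, Y' < j → ¬ A x j := fun j h h' => by have := (hyY' j h').2; omega
  have ny' : ∀ j, j < y' → ¬ A x j := fun j h h' => by have := (hyY' j h').1; omega
  -- four odd squares
  have o1 : O A X (y - 1) := by
    have e1 := nX (X + 1) (y - 1 + 1) (by omega)
    have e2 := ny (y - 1) (by omega)
    have e3 := nX (X + 1) (y - 1) (by omega)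
    have e4 : A X (y - 1 + 1) := by rwa [sub_add_cancel]
    simp only [O, Xor, e1, e2, e3, e4]; tauto
  have o2 : O A X Y := by
    have e1 := nX (X + 1) (Y + 1) (by omega)
    have e2 := nX (X + 1) Y (by omega)
    have e3 := nY (Y + 1) (by omega)
    simp only [O, Xor, e1, e2, e3, hY]; tauto
  have o3 : O A (x - 1) (y' - 1) := by
    have e1 : A (x - 1 + 1) (y' - 1 + 1) := by rwa [sub_add_cancel, sub_add_cancel]
    have e2 := nx (x - 1) (y' - 1) (by omega)
    have e3 : ¬ A (x - 1 + 1) (y' - 1) := by rw [sub_add_cancel]; exact ny' _ (by omega)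
    have e4 := nx (x - 1) (y' - 1 + 1) (by omega)
    simp only [O, Xor, e1, e2, e3, e4]; tauto
  have o4 : O A (x - 1) Y' := by
    have e1 : ¬ A (x - 1 + 1) (Y' + 1) := by rw [sub_add_cancel]; exact nY' _ (by omega)
    have e2 := nx (x - 1) Y' (by omega)
    have e3 : A (x - 1 + 1) Y' := by rwa [sub_add_cancel]
    have e4 := nx (x - 1) (Y' + 1) (by omega)
    simp only [O, Xor, e1, e2, e3, e4]; tauto
  obtain ⟨w0, w0', hw0⟩ := hodd 0 (Or.inl rfl)
  obtain ⟨w1, w1', hw1⟩ := hodd 1 (Or.inr rfl)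
  have hw : ∀ i j, O A i j → (i, j) ∈ ({w0, w0', w1, w1'} : Finset (ℤ × ℤ)) := by
    intro i j h
    simp only [Finset.mem_insert, Finset.mem_singleton]
    rcases Int.emod_two_eq (i + j) with hk | hk
    · rcases hw0 i j hk h with h | h <;> simp [h]
    · rcases hw1 i j hk h with h | h <;> simp [h]
  have hc4 : ({(X, y - 1), (X, Y), (x - 1, y' - 1), (x - 1, Y')} : Finset (ℤ × ℤ)).card = 4 := by
    apply card4 <;> simp only [ne_eq, Prod.mk.injEq, not_and] <;> omega
  have hall : ∀ i j, O A i j → (i, j) = (X, y - 1) ∨ (i, j) = (X, Y) ∨ (i, j) = (x - 1, y' - 1) ∨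
      (i, j) = (x - 1, Y') := by
    intro i j h
    have hsub : ({(X, y - 1), (X, Y), (x - 1, y' - 1), (x - 1, Y')} : Finset (ℤ × ℤ)) ⊆
        {w0, w0', w1, w1'} := by
      intro p hp
      simp only [Finset.mem_insert, Finset.mem_singleton] at hp
      rcases hp with rfl | rfl | rfl | rfl
      · exact hw _ _ o1
      · exact hw _ _ o2
      · exact hw _ _ o3
      · exact hw _ _ o4
    have heq := Finset.eq_of_subset_of_card_le hsub (by
      rw [hc4]; exact (Finset.card_le_four))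
    have := hw i j h
    rw [← heq] at this
    simpa only [Finset.mem_insert, Finset.mem_singleton] using this
  -- consecutive columns are equal
  have hbd : ∃ M : ℤ, ∀ i j, A i j → j ≤ M := by
    obtain ⟨⟨i2, b⟩, hb, hbm⟩ := Set.exists_max_image _ Prod.snd hf hne'
    exact ⟨b, fun i j h => hbm (i, j) h⟩
  obtain ⟨M, hM⟩ := hbd
  have hstep : ∀ i, x ≤ i → i < X → ∀ j, A i j ↔ A (i + 1) j := by
    intro i hi1 hi2
    have hno : ∀ j, ¬ O A i j := by
      intro j h
      rcases hall i j h with h | h | h | h <;> simp only [Prod.mk.injEq] at h <;> omega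
    by_contra hcon
    push Not at hcon
    obtain ⟨j, hj⟩ := hcon
    have hind : ∀ n : ℕ, ¬ (A i (j + n) ↔ A (i + 1) (j + n)) := by
      intro n
      induction n with
      | zero => simpa using (by tauto : ¬ (A i j ↔ A (i + 1) j))
      | succ n ih =>
        have h2 := hno (j + n)
        simp only [O, Xor] at h2
        have e : j + ((n + 1 : ℕ) : ℤ) = j + n + 1 := by push_cast; ring
        rw [e]
        tauto
    have h2 := hind (M + 1 - j).toNat
    have e1 : ¬ A i (j + ((M + 1 - j).toNat : ℤ)) := fun h => by have := hM _ _ h; omega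
    have e2 : ¬ A (i + 1) (j + ((M + 1 - j).toNat : ℤ)) := fun h => by have := hM _ _ h; omega
    tauto
  have hcols : ∀ n : ℕ, x ≤ X - n → ∀ j, A (X - n) j ↔ A X j := by
    intro n
    induction n with
    | zero => intro _ j; simp
    | succ n ih =>
      intro h j
      have e : X - ((n + 1 : ℕ) : ℤ) + 1 = X - n := by push_cast; ring
      have h2 := hstep (X - ((n + 1 : ℕ) : ℤ)) h (by push_cast; omega) j
      rw [e] at h2
      rw [h2]
      exact ih (by push_cast at h; omega) j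
  have hint : ∀ n : ℕ, y + n ≤ Y → A X (y + n) := by
    intro n
    induction n with
    | zero => intro _; simpa using hy
    | succ n ih =>
      intro h
      have h3 : A X (y + n) := ih (by push_cast at h; omega)
      have h4 : ¬ O A X (y + n) := by
        intro h5
        rcases hall _ _ h5 with h | h | h | h <;> simp only [Prod.mk.injEq] at h <;>
          push_cast at * <;> omega
      have e : y + ((n + 1 : ℕ) : ℤ) = y + n + 1 := by push_cast; ring
      rw [e]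
      by_contra h6
      apply h4
      have e1 := nX (X + 1) (y + n + 1) (by omega)
      have e2 := nX (X + 1) (y + n) (by omega)
      simp only [O, Xor, e1, e2, h6, h3]; tauto
  have hA : ∀ i j, A i j ↔ x ≤ i ∧ i ≤ X ∧ y ≤ j ∧ j ≤ Y := by
    intro i j
    constructor
    · intro h
      have a1 := hxm' i j h
      have a2 := hXm' i j h
      have h2 := (hcols (X - i).toNat (by omega) j)
      have e : X - ((X - i).toNat : ℤ) = i := by omega
      rw [e] at h2
      exact ⟨a1, a2, hyY j (h2.1 h)⟩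
    · rintro ⟨a1, a2, a3, a4⟩
      have h2 := (hcols (X - i).toNat (by omega) j)
      have e : X - ((X - i).toNat : ℤ) = i := by omega
      rw [e] at h2
      rw [h2]
      have h3 := hint (j - y).toNat (by omega)
      have e : y + ((j - y).toNat : ℤ) = j := by omega
      rwa [e] at h3
  refine ⟨x, X, y, Y, hxX, h1, hA, ?_⟩
  rintro ⟨ev1, ev2⟩
  have hy2 : y' = y ∧ Y' = Y := by
    have b1 := (hA x y').1 hy'
    have b2 := (hA x Y').1 hY'
    have b3 := hyY' y ((hA x y).2 ⟨le_refl _, hxX, le_refl _, h1⟩)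
    have b4 := hyY' Y ((hA x Y).2 ⟨le_refl _, hxX, h1, le_refl _⟩)
    omega
  obtain ⟨rfl, rfl⟩ := hy2
  obtain ⟨c, hc⟩ := ev1
  obtain ⟨c', hc'⟩ := ev2
  obtain ⟨w, w', hww⟩ := hodd ((X + Y') % 2) (by omega)
  have hsub : ({(X, y' - 1), (X, Y'), (x - 1, y' - 1), (x - 1, Y')} : Finset (ℤ × ℤ)) ⊆
      {w, w'} := by
    intro p hp
    simp only [Finset.mem_insert, Finset.mem_singleton] at hp ⊢
    rcases hp with rfl | rfl | rfl | rfl
    · exact hww _ _ (by omega) o1
    · exact hww _ _ (by omega) o2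
    · exact hww _ _ (by omega) o3
    · exact hww _ _ (by omega) o4
  have h5 := Finset.card_le_card hsub
  rw [hc4] at h5
  have h6 : ({w, w'} : Finset (ℤ × ℤ)).card ≤ 2 := Finset.card_le_two
  omega

end GeoB

theorem array {β : Sq → Prop} (hf : {z | β z}.Finite) (s : Sq) (hne : ∃ z, β z)
    (hty : ∀ z, β z → ∃ i j : ℤ, z = (s.1 + 2 * i, s.2 + 2 * j))
    (hodd : ∀ k : ℤ, k = 0 ∨ k = 1 → ∃ w w', ∀ z, Opp s k z → oddN β z → z = w ∨ z = w') :
    ∃ (x₀ y₀ : ℤ) (m n : ℕ), 0 < m ∧ 0 < n ∧ ¬ (Even m ∧ Even n) ∧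
      ∀ z, β z ↔ ∃ i j : ℕ, i < m ∧ j < n ∧ z = (x₀ + 2 * i, y₀ + 2 * j) := by
  have hfA : {p : ℤ × ℤ | β (s.1 + 2 * p.1, s.2 + 2 * p.2)}.Finite := by
    refine Set.Finite.preimage (f := fun p : ℤ × ℤ => (s.1 + 2 * p.1, s.2 + 2 * p.2)) ?_ hf
    rintro ⟨a, b⟩ - ⟨c, d⟩ - h
    simp only [Prod.mk.injEq] at h ⊢
    omega
  have hneA : ∃ i j : ℤ, β (s.1 + 2 * i, s.2 + 2 * j) := by
    obtain ⟨z, hz⟩ := hne
    obtain ⟨i, j, rfl⟩ := hty z hz
    exact ⟨i, j, hz⟩
  obtain ⟨x, X, y, Y, hx, hy, hA, hev⟩ := GeoB.core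
    (fun i j => β (s.1 + 2 * i, s.2 + 2 * j)) hfA hneA (by
      intro k hk
      obtain ⟨w, w', hw⟩ := hodd k hk
      refine ⟨((w.1 - s.1 - 1) / 2, (w.2 - s.2 - 1) / 2),
        ((w'.1 - s.1 - 1) / 2, (w'.2 - s.2 - 1) / 2), ?_⟩
      intro i j hij hO
      have h := hw (s.1 + 2 * i + 1, s.2 + 2 * j + 1) ⟨i, j, rfl, hij⟩ (by
        have e1 : ((s.1 + 2 * i + 1, s.2 + 2 * j + 1) : Sq) + (1, 1) =
            (s.1 + 2 * (i + 1), s.2 + 2 * (j + 1)) := by
          ext <;> simp <;> ring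
        have e2 : ((s.1 + 2 * i + 1, s.2 + 2 * j + 1) : Sq) + (-1, -1) =
            (s.1 + 2 * i, s.2 + 2 * j) := by
          ext <;> simp
        have e3 : ((s.1 + 2 * i + 1, s.2 + 2 * j + 1) : Sq) + (1, -1) =
            (s.1 + 2 * (i + 1), s.2 + 2 * j) := by
          ext <;> simp; ring
        have e4 : ((s.1 + 2 * i + 1, s.2 + 2 * j + 1) : Sq) + (-1, 1) =
            (s.1 + 2 * i, s.2 + 2 * (j + 1)) := by
          ext <;> simp; ring
        simp only [oddN, e1, e2, e3, e4]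
        exact hO)
      rcases h with h | h
      · left; rw [← h]; ext <;> simp only [] <;> omega
      · right; rw [← h]; ext <;> simp only [] <;> omega)
  refine ⟨s.1 + 2 * x, s.2 + 2 * y, (X - x + 1).toNat, (Y - y + 1).toNat, by omega, by omega,
    ?_, ?_⟩
  · rintro ⟨h1, h2⟩
    apply hev
    constructor
    · obtain ⟨c, hc⟩ := h1; exact ⟨c, by omega⟩
    · obtain ⟨c, hc⟩ := h2; exact ⟨c, by omega⟩
  · intro z
    constructor
    · intro h
      obtain ⟨i, j, rfl⟩ := hty z h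
      have := (hA i j).1 h
      refine ⟨(i - x).toNat, (j - y).toNat, by omega, by omega, ?_⟩
      ext <;> simp only [] <;> omega
    · rintro ⟨i, j, hi, hj, rfl⟩
      have h := (hA (x + i) (y + j)).2 ⟨by omega, by omega, by omega, by omega⟩
      have e : ((s.1 + 2 * x + 2 * (i : ℤ), s.2 + 2 * y + 2 * (j : ℤ)) : Sq) =
          (s.1 + 2 * (x + i), s.2 + 2 * (y + j)) := by
        ext <;> simp only [] <;> ring
      rw [e]; exact h

end Pool.Agent.CHK
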