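import Pool.Agent.CHK.GeoC4

set_option autoImplicit false

/-! Module QC: the local geometry around the array. -/

namespace Pool.Agent.CHK

namespace GeoC

variable {W F β : Sq → Prop} {s t v a : Sq}

theorem dl_eq {s e d : Sq} (hd : Dg d) (h : Cls s (e + d)) : dl s e = d ∨ dl s e = -d := by
  obtain ⟨i, j, h1, c, hc⟩ := h
  have h11 : e.1 + d.1 = s.1 + 2 * i := congrArg Prod.fst h1
  have h12 : e.2 + d.2 = s.2 + 2 * j := congrArg Prod.snd h1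
  unfold dl
  split_ifs with hcl
  · obtain ⟨i', j', h2, c', hc'⟩ := hcl
    have h21 : e.1 + 1 = s.1 + 2 * i' := congrArg Prod.fst h2
    have h22 : e.2 + 1 = s.2 + 2 * j' := congrArg Prod.snd h2
    rcases dg_cases hd with rfl | rfl | rfl | rfl
    · exact Or.inl rfl
    · exfalso; simp only [] at h11 h12; omega
    · exfalso; simp only [] at h11 h12; omega
    · exact Or.inr rfl
  · rcases dg_cases hd with rfl | rfl | rfl | rfl
    · exact absurd ⟨i, j, h1, c, hc⟩ hcl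
    · exact Or.inl rfl
    · exact Or.inr rfl
    · exfalso
      apply hcl
      simp only [] at h11 h12
      refine ⟨i + 1, j + 1, ?_, c + 1, by omega⟩
      ext
      · show e.1 + 1 = s.1 + 2 * (i + 1)
        omega
      · show e.2 + 1 = s.2 + 2 * (j + 1)
        omega

theorem dl_dg' (s e : Sq) : Dg (dl s e) := by
  unfold dl
  split_ifs
  · exact ⟨Or.inl rfl, Or.inl rfl⟩
  · exact ⟨Or.inl rfl, Or.inr rfl⟩

theorem dg_neg {d : Sq} (h : Dg d) : Dg (-d) := by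
  rcases dg_cases h with rfl | rfl | rfl | rfl <;> constructor <;> simp

theorem is_iff (hFc : ∀ z, F z → Cls s z) (e : Sq) : IsE W F s e ↔ IsP W F e := by
  constructor
  · rintro ⟨h1, h2, h3⟩
    exact ⟨h1, dl s e, dl_dg' s e, h2, h3⟩
  · rintro ⟨h1, d, hd, h2, h3⟩
    rcases dl_eq hd (hFc _ h2) with h | h
    · exact ⟨h1, by rwa [h], by rwa [h]⟩
    · refine ⟨h1, ?_, ?_⟩
      · rw [h, ← sub_eq_add_neg]; exact h3
      · rw [h, sub_neg_eq_add]; exact h2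

theorem at_iff (hFc : ∀ z, F z → Cls s z) (v e : Sq) : AtV W F s v e ↔ AtP W F v e := by
  constructor
  · rintro ⟨⟨h1, h2, h3⟩, h4 | h4⟩
    · refine ⟨h1, by rwa [← h4], -dl s e, dg_neg (dl_dg' s e), by rw [← h4]; abel, ?_⟩
      have : v + -dl s e + -dl s e = e - dl s e := by rw [← h4]; abel
      rwa [this]
    · refine ⟨h1, by rwa [← h4], dl s e, dl_dg' s e, by rw [← h4]; abel, ?_⟩
      have : v + dl s e + dl s e = e + dl s e := by rw [← h4]; abel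
      rwa [this]
  · rintro ⟨h1, h2, d, hd, he, h3⟩
    have e1 : e + d = v + d + d := by rw [he]
    have e2 : e - d = v := by rw [he]; abel
    have e3 : F (e + d) := by rwa [e1]
    rcases dl_eq hd (hFc _ e3) with h | h
    · exact ⟨⟨h1, by rwa [h], by rw [h, e2]; exact h2⟩, Or.inr (by rw [h, e2])⟩
    · refine ⟨⟨h1, ?_, ?_⟩, Or.inl ?_⟩
      · rw [h, ← sub_eq_add_neg, e2]; exact h2
      · rw [h, sub_neg_eq_add]; exact e3
      · rw [h, ← sub_eq_add_neg, e2]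

theorem opp_cls1 {s z y : Sq} {k : ℤ} (h : Opp s k z) (h' : Opp s k y) : Cls z y := by
  obtain ⟨i, j, rfl, hk⟩ := h
  obtain ⟨i', j', rfl, hk'⟩ := h'
  refine ⟨i' - i, j' - j, ?_, (i' - i + (j' - j)) / 2, by omega⟩
  ext
  · show s.1 + 2 * i' + 1 = s.1 + 2 * i + 1 + 2 * (i' - i)
    ring
  · show s.2 + 2 * j' + 1 = s.2 + 2 * j + 1 + 2 * (j' - j)
    ring

theorem cls_opp1 {s z y : Sq} {k : ℤ} (h : Opp s k z) (h' : Cls z y) : Opp s k y := by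
  obtain ⟨i, j, rfl, hk⟩ := h
  obtain ⟨i', j', rfl, c, hc⟩ := h'
  refine ⟨i + i', j + j', ?_, by omega⟩
  ext
  · show s.1 + 2 * i + 1 + 2 * i' = s.1 + 2 * (i + i') + 1
    ring
  · show s.2 + 2 * j + 1 + 2 * j' = s.2 + 2 * (j + j') + 1
    ring

theorem opp_ne {s z y : Sq} {k k' : ℤ} (hk : k ≠ k') (h : Opp s k z) (h' : Opp s k' y) :
    ¬ Cls z y := by
  intro hc
  obtain ⟨i, j, h1, hk1⟩ := cls_opp1 h hc
  obtain ⟨i', j', h2, hk2⟩ := h'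
  rw [h1, Prod.mk.injEq] at h2
  omega

end GeoC

open GeoC in
theorem geo {W F β : Sq → Prop} {s t v : Sq} (hWF : ∀ z, W z → ¬ F z) (hβF : ∀ z, β z → ¬ F z)
    (hβW : ∀ z, β z → ¬ W z) (hFc : ∀ z, F z → Cls s z) (hs : F s) (ht : F t) (hv : F v)
    (hvt : v ≠ t)
    {x₀ y₀ : ℤ} {m n : ℕ} (hm : 0 < m) (hn : 0 < n) (hmn : ¬ (Even m ∧ Even n))
    (harr : ∀ z, (β z ∨ z = t) ↔ ∃ i j : ℕ, i < m ∧ j < n ∧ z = (x₀ + 2 * i, y₀ + 2 * j))
    (hvar : ∀ k : ℤ, k = 0 ∨ k = 1 → ∃ a, FA W β s t k a ∧ IsE W F s a ∧ ¬ AtV W F s t a)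
    (hcap : ∀ k : ℤ, k = 0 ∨ k = 1 → ∀ f, FA W β s t k f → IsE W F s f)
    (hend : (v ≠ s → oddN (AtV W F s v) v) ∧ (v = s → ¬ oddN (AtV W F s v) v ∧
      ∃ e, AtV W F s v e))
    (hgood : ∃ κ : ℤ, (κ = 0 ∨ κ = 1) ∧ ∃ w w', Opp s κ w ∧ W w ∧ ¬ AtV W F s v w ∧
      ∀ z, Opp s κ z → (oddN (fun y => β y ∨ y = v) z ↔ Xor (z = w) (z = w'))) :
    (∃ k : ℤ, (k = 0 ∨ k = 1) ∧ ∃ a, FA W β s t k a ∧ ∃ u, u ≠ s ∧ u ≠ t ∧ AtV W F s u a ∧
      ∀ e, AtV W F s u e → e = a) ∨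
    (∃ k : ℤ, (k = 0 ∨ k = 1) ∧ ∃ a, FA W β s t k a ∧ ¬ AtV W F s t a ∧
      (∀ f, FA W β s t k f → f = a ∨ AtV W F s t f) ∧ ∃ u c, u ≠ t ∧ a ≠ c ∧ AtV W F s u a ∧
        AtV W F s u c ∧
        ((u = s ∧ ∀ e, AtV W F s u e → e = a ∨ e = c) ∨
          (u ≠ s ∧ ∃ g, AtV W F s t g ∧ AtV W F s u g ∧ g ≠ a ∧ g ≠ c ∧
            ∀ e, AtV W F s u e → e = a ∨ e = c ∨ e = g))) ∨
    ∃ a d, FA W β s t 0 a ∧ FA W β s t 1 d ∧ ¬ AtV W F s t a ∧ ¬ AtV W F s t d ∧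
      (∀ f, FA W β s t 0 f → f = a ∨ AtV W F s t f) ∧
      (∀ f, FA W β s t 1 f → f = d ∨ AtV W F s t f) ∧
      ∃ u, AtV W F s u a ∧ AtV W F s u d := by
  have hAt : ∀ u e, AtV W F s u e ↔ AtP W F u e := at_iff hFc
  have hIs : ∀ e, IsE W F s e ↔ IsP W F e := is_iff hFc
  have hfun : ∀ u, AtV W F s u = AtP W F u := fun u => funext fun e => propext (hAt u e)
  simp only [hfun, hIs] at hvar hcap hend hgood ⊢
  -- squares next to the array have the opposite type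
  have htype : ∀ f, Adj β t f → ∃ k : ℤ, (k = 0 ∨ k = 1) ∧ Opp s k f := by
    rintro f ⟨d, hd, hb⟩
    obtain ⟨i, j, -, -, he⟩ := (harr _).1 hb
    obtain ⟨p, q, -, -, he'⟩ := (harr t).1 (Or.inr rfl)
    obtain ⟨x, y, hx, c, hc⟩ := hFc t ht
    rw [he', Prod.mk.injEq] at hx
    have h1 : f.1 + d.1 = x₀ + 2 * i := congrArg Prod.fst he
    have h2 : f.2 + d.2 = y₀ + 2 * j := congrArg Prod.snd he
    refine ⟨((f.1 - s.1 - 1) / 2 + (f.2 - s.2 - 1) / 2) % 2, by omega,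
      (f.1 - s.1 - 1) / 2, (f.2 - s.2 - 1) / 2, ?_, rfl⟩
    obtain ⟨hd1, hd2⟩ := hd
    ext
    · show f.1 = s.1 + 2 * ((f.1 - s.1 - 1) / 2) + 1
      rcases hd1 with hd1 | hd1 <;> omega
    · show f.2 = s.2 + 2 * ((f.2 - s.2 - 1) / 2) + 1
      rcases hd2 with hd2 | hd2 <;> omega
  have harr' : ∀ z, (β z ∨ z = t) ↔ ∃ i j : ℤ, (0 ≤ i ∧ i < (m : ℤ) ∧ 0 ≤ j ∧ j < (n : ℤ)) ∧
      z = (x₀ + 2 * i, y₀ + 2 * j) := by
    intro z
    rw [harr z]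
    constructor
    · rintro ⟨i, j, hi, hj, he⟩
      exact ⟨i, j, ⟨by omega, by omega, by omega, by omega⟩, he⟩
    · rintro ⟨i, j, ⟨h1, h2, h3, h4⟩, he⟩
      refine ⟨i.toNat, j.toNat, by omega, by omega, ?_⟩
      rw [he, Int.toNat_of_nonneg h1, Int.toNat_of_nonneg h3]
  have hcap' : ∀ f, W f → Adj β t f → IsP W F f := by
    intro f hf hadj
    obtain ⟨k, hk, ho⟩ := htype f hadj
    exact hcap k hk f ⟨hf, ho, hadj⟩
  obtain ⟨κ, hκ, w, w', hw1, hw2, hw3, hw4⟩ := hgood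
  obtain ⟨a, ⟨hWa, hoa, hadja⟩, hisa, hata⟩ := hvar κ hκ
  obtain ⟨d, ⟨hWd, hod, hadjd⟩, hisd, hatd⟩ := hvar (1 - κ) (by omega)
  have hyp : Hyp W F β s t v a := by
    refine ⟨hβF, hFc, ht, hv, hvt, hisa, ⟨d, opp_ne (by omega) hoa hod, hWd, hadjd, hisd, hatd⟩,
      hcap', hend.1, fun h => (hend.2 h).1, w, w', opp_cls1 hoa hw1, hw2, hw3,
      fun z hz => hw4 z (cls_opp1 hoa hz)⟩
  have hcon := std' (by omega) (by omega) (by
      rintro ⟨h1, h2⟩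
      exact hmn ⟨by rw [Nat.even_iff]; omega, by rw [Nat.even_iff]; omega⟩) hyp harr'
    (var_corner (by omega) (by omega) hβF hFc ht harr' hisa hadja hata)
  rcases hcon with ⟨u, h1, h2, h3, h4⟩ | ⟨hU, ⟨u, c, h1, h2, h3, h4, h5⟩ |
    ⟨d', h1, h2, h3, h4, h5, u, h6, h7⟩⟩
  · exact Or.inl ⟨κ, hκ, a, ⟨hWa, hoa, hadja⟩, u, h1, h2, h3, h4⟩
  · exact Or.inr (Or.inl ⟨κ, hκ, a, ⟨hWa, hoa, hadja⟩, hata,
      fun f hf => hU f hf.1 (opp_cls1 hoa hf.2.1) hf.2.2, u, c, h1, h2, h3, h4, h5⟩)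
  · right; right
    have hod' : Opp s (1 - κ) d' := by
      obtain ⟨k, hk, ho⟩ := htype d' h3
      rcases eq_or_ne k κ with rfl | hne
      · exact absurd (opp_cls1 hoa ho) h1
      · have : k = 1 - κ := by omega
        rwa [← this]
    have hUa : ∀ f, FA W β s t κ f → f = a ∨ AtP W F t f :=
      fun f hf => hU f hf.1 (opp_cls1 hoa hf.2.1) hf.2.2
    have hUd : ∀ f, FA W β s t (1 - κ) f → f = d' ∨ AtP W F t f :=
      fun f hf => h5 f hf.1 (opp_ne (by omega) hoa hf.2.1) hf.2.2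
    rcases hκ with rfl | rfl
    · exact ⟨a, d', ⟨hWa, hoa, hadja⟩, ⟨h2, hod', h3⟩, hata, h4, hUa, hUd, u, h6, h7⟩
    · exact ⟨d', a, ⟨h2, hod', h3⟩, ⟨hWa, hoa, hadja⟩, h4, hata, hUd, hUa, u, h7, h6⟩

end Pool.Agent.CHK
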