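import Pool.Agent.CHK.GrA

set_option autoImplicit false
set_option linter.unusedSectionVars false
set_option linter.unusedVariables false

namespace Pool.Agent.CHK

variable {α β : Type} [DecidableEq α] [DecidableEq β]

/-! ### Module GD: trails and edge sets (Euler) -/

theorem MG.gd_walk_mono (G : MG α β) {E E' : Finset β} (hE : E ⊆ E') :
    ∀ {L : List β} {s t : α}, G.Walk E s L t → G.Walk E' s L t
  | [], _, _, h => h
  | _ :: _, _, _, h =>
    ⟨hE h.1, h.2.imp (fun h1 => ⟨h1.1, G.gd_walk_mono hE h1.2⟩)
      (fun h1 => ⟨h1.1, G.gd_walk_mono hE h1.2⟩)⟩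

theorem MG.gd_walk_append (G : MG α β) {E : Finset β} :
    ∀ {L L' : List β} {s x t : α}, G.Walk E s L x → G.Walk E x L' t → G.Walk E s (L ++ L') t
  | [], _, _, _, _, h, h' => by
    have h : _ = _ := h
    subst h
    exact h'
  | _ :: _, _, _, _, _, h, h' =>
    ⟨h.1, h.2.imp (fun h1 => ⟨h1.1, G.gd_walk_append h1.2 h'⟩)
      (fun h1 => ⟨h1.1, G.gd_walk_append h1.2 h'⟩)⟩

theorem MG.gd_walk_mem (G : MG α β) {E : Finset β} :
    ∀ {L : List β} {s t : α}, G.Walk E s L t → ∀ e ∈ L, e ∈ E
  | [], _, _, _, e, he => absurd he List.not_mem_nil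
  | a :: L, _, _, h, e, he => by
    rcases List.mem_cons.mp he with rfl | he
    · exact h.1
    · rcases h.2 with h1 | h1
      · exact G.gd_walk_mem h1.2 e he
      · exact G.gd_walk_mem h1.2 e he

/-- The ends of a walk are connected, and all edges are connected to the start. -/
theorem MG.gd_walk_con (G : MG α β) {E : Finset β} :
    ∀ {L : List β} {s t : α}, G.Walk E s L t →
      G.Con L.toFinset s t ∧ ∀ e ∈ L, G.Con L.toFinset s (G.p e)
  | [], s, t, h => by
    have h : s = t := h
    subst h
    exact ⟨Relation.ReflTransGen.refl, fun e he => absurd he List.not_mem_nil⟩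
  | a :: L, s, t, h => by
    have hsub : L.toFinset ⊆ (a :: L).toFinset := by
      intro x hx
      simp only [List.mem_toFinset] at hx ⊢
      exact List.mem_cons_of_mem _ hx
    have ha : a ∈ (a :: L).toFinset := by simp
    rcases h.2 with h1 | h1
    · obtain ⟨hc, he⟩ := G.gd_walk_con h1.2
      have h0 : G.Con (a :: L).toFinset s (G.q a) := by
        have := MG.Con.edge (G := G) ha
        rwa [h1.1] at this
      refine ⟨h0.trans (hc.mono hsub), ?_⟩
      intro e hm
      rcases List.mem_cons.mp hm with rfl | hm
      · rw [h1.1]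
        exact Relation.ReflTransGen.refl
      · exact h0.trans ((he e hm).mono hsub)
    · obtain ⟨hc, he⟩ := G.gd_walk_con h1.2
      have h0 : G.Con (a :: L).toFinset s (G.p a) := by
        have := (MG.Con.edge (G := G) ha).symm
        rwa [h1.1] at this
      refine ⟨h0.trans (hc.mono hsub), ?_⟩
      intro e hm
      rcases List.mem_cons.mp hm with rfl | hm
      · exact h0
      · exact h0.trans ((he e hm).mono hsub)

theorem MG.gd_bdy_insert (G : MG α β) {S : Finset β} {e : β} (he : e ∉ S) (v : α) :
    G.bdy (insert e S) v =
      ((if G.p e = v then 1 else 0) + if G.q e = v then 1 else 0) + G.bdy S v := by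
  unfold MG.bdy
  rw [Finset.sum_insert he]

theorem gd_two (x : ZMod 2) : x + x = 0 := CharTwo.add_self_eq_zero x

theorem gd_if (u v : α) : (if u = v then (1 : ZMod 2) else 0) = if v = u then 1 else 0 := by
  by_cases h : u = v
  · rw [if_pos h, if_pos h.symm]
  · rw [if_neg h, if_neg (fun h' => h h'.symm)]

theorem MG.gd_walk_bdy (G : MG α β) {E : Finset β} :
    ∀ {L : List β} {s t : α}, G.Walk E s L t → L.Nodup → ∀ v, G.bdy L.toFinset v = chi s t v
  | [], s, t, h, _, v => by
    have h : s = t := h
    subst h
    simp [MG.bdy, chi, gd_two]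
  | a :: L, s, t, h, hn, v => by
    have hn' := List.nodup_cons.mp hn
    have ha : a ∉ L.toFinset := by simpa using hn'.1
    rw [List.toFinset_cons, G.gd_bdy_insert ha]
    rcases h.2 with h1 | h1
    · rw [G.gd_walk_bdy h1.2 hn'.2 v, h1.1]
      unfold chi
      rw [gd_if s v, gd_if (G.q a) v]
      have := gd_two (if v = G.q a then (1 : ZMod 2) else 0)
      linear_combination this
    · rw [G.gd_walk_bdy h1.2 hn'.2 v, h1.1]
      unfold chi
      rw [gd_if s v, gd_if (G.p a) v]
      have := gd_two (if v = G.p a then (1 : ZMod 2) else 0)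
      linear_combination this

theorem MG.rep_of_mt (G : MG α β) {E : Finset β} (hl : G.NL E) {s t : α} {L : List β}
    (h : G.MT E s L t) : G.Rep E s t (G.star E t) L.toFinset := by
  obtain ⟨hw, hn, hm⟩ := h
  have hc := G.gd_walk_con hw
  refine ⟨?_, G.gd_walk_bdy hw hn, ?_, ?_⟩
  · intro e he
    exact G.gd_walk_mem hw e (List.mem_toFinset.mp he)
  · intro e he
    exact List.mem_toFinset.mpr (hm e he)
  · intro e he
    exact hc.1.symm.trans (hc.2 e (List.mem_toFinset.mp he))

theorem gd_chi_self (s v : α) : chi s s v = 0 := by
  unfold chi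
  exact gd_two _

theorem gd_chi_zero {s t : α} (h : ∀ v, chi s t v = 0) : s = t := by
  by_contra hne
  have h1 := h s
  unfold chi at h1
  rw [if_pos rfl, if_neg hne, add_zero] at h1
  exact one_ne_zero h1

open Classical in
/-- Euler trails. -/
theorem MG.gd_euler (G : MG α β) : ∀ (n : ℕ) (S : Finset β) (s t : α), S.card = n →
    (∀ v, G.bdy S v = chi s t v) → (∀ e ∈ S, G.Con S s (G.p e)) →
    ∃ L, G.Walk S s L t ∧ L.Nodup ∧ L.toFinset = S := by
  intro n
  induction n using Nat.strong_induction_on with
  | _ n ih =>
    intro S s t hcard hb hcon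
    by_cases hS : S = ∅
    · subst hS
      have h0 : s = t := by
        apply gd_chi_zero
        intro v
        rw [← hb v]
        simp [MG.bdy]
      exact ⟨[], h0, List.nodup_nil, rfl⟩
    · -- an edge at `s`
      obtain ⟨f, hf⟩ := Finset.nonempty_iff_ne_empty.mpr hS
      have hedge : ∃ e ∈ S, ∃ u, (G.p e = s ∧ G.q e = u) ∨ (G.q e = s ∧ G.p e = u) := by
        rcases Relation.ReflTransGen.cases_head (hcon f hf) with h | ⟨c, ⟨e, he, h⟩, -⟩
        · exact ⟨f, hf, G.q f, Or.inl ⟨h.symm, rfl⟩⟩
        · exact ⟨e, he, c, h⟩
      obtain ⟨e, heS, u, hu⟩ := hedge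
      set S' := S.erase e with hS'
      have heS' : e ∉ S' := Finset.notMem_erase e S
      have hins : insert e S' = S := Finset.insert_erase heS
      have hsub' : S' ⊆ S := Finset.erase_subset e S
      have hb' : ∀ v, G.bdy S' v = chi u t v := by
        intro v
        have h1 := hb v
        rw [← hins, G.gd_bdy_insert heS'] at h1
        unfold chi at h1 ⊢
        rcases hu with hu | hu
        · rw [hu.1, hu.2, gd_if s v, gd_if u v] at h1
          have h2 := gd_two (if v = s then (1 : ZMod 2) else 0)
          have h3 := gd_two (if v = u then (1 : ZMod 2) else 0)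
          linear_combination h1 - h3
        · rw [hu.1, hu.2, gd_if s v, gd_if u v] at h1
          have h2 := gd_two (if v = s then (1 : ZMod 2) else 0)
          have h3 := gd_two (if v = u then (1 : ZMod 2) else 0)
          linear_combination h1 - h3
      have hut : G.Con S' u t := G.con_of_chi hb'
      set C := G.comp S' u with hC
      have hCS' : C ⊆ S' := G.comp_sub S' u
      have hbC : ∀ v, G.bdy C v = chi u t v := by
        intro v
        rw [hC, G.bdy_comp S' u v]
        by_cases hv : G.Con S' u v
        · rw [if_pos hv, hb' v]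
        · rw [if_neg hv]
          unfold chi
          have n1 : v ≠ u := by
            rintro rfl
            exact hv Relation.ReflTransGen.refl
          have n2 : v ≠ t := by
            rintro rfl
            exact hv hut
          rw [if_neg n1, if_neg n2, add_zero]
      have hconC : ∀ g ∈ C, G.Con C u (G.p g) := by
        intro g hg
        apply G.con_comp
        rw [hC, MG.comp, Finset.mem_filter] at hg
        exact hg.2
      set R := S' \ C with hR
      have hbR : ∀ v, G.bdy R v = chi s s v := by
        intro v
        rw [hR, G.bdy_sdiff hCS', hb' v, hbC v, gd_two, gd_chi_self]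
      have hnR : ∀ g ∈ R, ¬ G.Con S' u (G.p g) := by
        intro g hg h
        rw [hR, Finset.mem_sdiff] at hg
        apply hg.2
        rw [hC, MG.comp, Finset.mem_filter]
        exact ⟨hg.1, h⟩
      have hconR : ∀ g ∈ R, G.Con R s (G.p g) := by
        have hclosed : ∀ g ∈ S, (G.Con R s (G.p g) ∨ G.Con S' u (G.p g)) ↔
            (G.Con R s (G.q g) ∨ G.Con S' u (G.q g)) := by
          intro g hg
          by_cases hge : g = e
          · subst hge
            rcases hu with hu | hu
            · rw [hu.1, hu.2]
              exact ⟨fun _ => Or.inr Relation.ReflTransGen.refl,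
                fun _ => Or.inl Relation.ReflTransGen.refl⟩
            · rw [hu.1, hu.2]
              exact ⟨fun _ => Or.inl Relation.ReflTransGen.refl,
                fun _ => Or.inr Relation.ReflTransGen.refl⟩
          · have hgS' : g ∈ S' := Finset.mem_erase.mpr ⟨hge, hg⟩
            have hgc : G.Con S' (G.p g) (G.q g) := MG.Con.edge (G := G) hgS'
            by_cases hgC : G.Con S' u (G.p g)
            · exact ⟨fun _ => Or.inr (hgC.trans hgc), fun _ => Or.inr hgC⟩
            · have hgR : g ∈ R := by
                rw [hR, Finset.mem_sdiff]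
                refine ⟨hgS', fun h => hgC ?_⟩
                rw [hC, MG.comp, Finset.mem_filter] at h
                exact h.2
              have hgr : G.Con R (G.p g) (G.q g) := MG.Con.edge (G := G) hgR
              constructor
              · rintro (h | h)
                · exact Or.inl (h.trans hgr)
                · exact absurd h hgC
              · rintro (h | h)
                · exact Or.inl (h.trans hgr.symm)
                · exact absurd (h.trans hgc.symm) hgC
        intro g hg
        have hgS : g ∈ S := hsub' (Finset.sdiff_subset hg)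
        have h1 := (MG.Con.closed (G := G)
          (Y := fun v => G.Con R s v ∨ G.Con S' u v) hclosed (hcon g hgS)).mp
            (Or.inl Relation.ReflTransGen.refl)
        rcases h1 with h1 | h1
        · exact h1
        · exact absurd h1 (hnR g hg)
      have hcardS' : S'.card < n := by
        rw [← hcard]
        exact Finset.card_erase_lt_of_mem heS
      obtain ⟨L1, hw1, hn1, hL1⟩ := ih C.card
        (lt_of_le_of_lt (Finset.card_le_card hCS') hcardS') C u t rfl hbC hconC
      obtain ⟨L0, hw0, hn0, hL0⟩ := ih R.card
        (lt_of_le_of_lt (Finset.card_le_card Finset.sdiff_subset) hcardS') R s s rfl hbR hconR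
      have hRS : R ⊆ S := Finset.sdiff_subset.trans hsub'
      have hCS : C ⊆ S := hCS'.trans hsub'
      have hmid : G.Walk S s (e :: L1) t := by
        refine ⟨heS, ?_⟩
        rcases hu with hu | hu
        · left
          refine ⟨hu.1, ?_⟩
          rw [hu.2]
          exact G.gd_walk_mono hCS hw1
        · right
          refine ⟨hu.1, ?_⟩
          rw [hu.2]
          exact G.gd_walk_mono hCS hw1
      refine ⟨L0 ++ e :: L1, G.gd_walk_append (G.gd_walk_mono hRS hw0) hmid, ?_, ?_⟩
      · rw [List.nodup_append]
        refine ⟨hn0, ?_, ?_⟩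
        · rw [List.nodup_cons]
          refine ⟨fun h => ?_, hn1⟩
          have : e ∈ C := hL1 ▸ List.mem_toFinset.mpr h
          exact heS' (hCS' this)
        · intro a ha b hb' hab
          subst hab
          have haR : a ∈ R := hL0 ▸ List.mem_toFinset.mpr ha
          rcases List.mem_cons.mp hb' with rfl | hb'
          · exact heS' (Finset.sdiff_subset haR)
          · have haC : a ∈ C := hL1 ▸ List.mem_toFinset.mpr hb'
            exact (Finset.mem_sdiff.mp haR).2 haC
      · rw [List.toFinset_append, List.toFinset_cons, hL0, hL1, ← hins]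
        ext x
        simp only [Finset.mem_union, Finset.mem_insert, hR, Finset.mem_sdiff]
        constructor
        · rintro (h | h | h)
          · exact Or.inr h.1
          · exact Or.inl h
          · exact Or.inr (hCS' h)
        · rintro (h | h)
          · exact Or.inr (Or.inl h)
          · by_cases hx : x ∈ C
            · exact Or.inr (Or.inr hx)
            · exact Or.inl ⟨h, hx⟩

theorem MG.mt_of_rep (G : MG α β) {E : Finset β} (hl : G.NL E) {s t : α} {S : Finset β}
    (h : G.Rep E s t (G.star E t) S) : ∃ L, G.MT E s L t ∧ L.toFinset = S := by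
  have hst : G.Con S s t := G.con_of_chi h.bd
  obtain ⟨L, hw, hn, hL⟩ := G.gd_euler S.card S s t rfl h.bd
    (fun e he => hst.trans (h.con e he))
  refine ⟨L, ⟨G.gd_walk_mono h.sub hw, hn, fun e he => ?_⟩, hL⟩
  have : e ∈ S := h.pre he
  rw [← hL] at this
  exact List.mem_toFinset.mp this

end Pool.Agent.CHK
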