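import Pool.Agent.CHK.GrA

set_option autoImplicit false
set_option linter.unusedSectionVars false

namespace Pool.Agent.CHK

variable {α β : Type} [DecidableEq α] [DecidableEq β]

/-! ### Module GE (file GrE.lean; uses GA): unique ends -/

theorem MG.ge_walk_mem (G : MG α β) {E : Finset β} {L : List β} {s t : α}
    (h : G.Walk E s L t) : ∀ e ∈ L, e ∈ E := by
  induction L generalizing s with
  | nil => intro e he; exact absurd he List.not_mem_nil
  | cons a L ih =>
    obtain ⟨ha, h1 | h1⟩ := h
    · intro e he
      rcases List.mem_cons.mp he with rfl | he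
      · exact ha
      · exact ih h1.2 e he
    · intro e he
      rcases List.mem_cons.mp he with rfl | he
      · exact ha
      · exact ih h1.2 e he

theorem MG.ge_walk_mono (G : MG α β) {E E' : Finset β} (hE : E ⊆ E') {L : List β} {s t : α}
    (h : G.Walk E s L t) : G.Walk E' s L t := by
  induction L generalizing s with
  | nil => exact h
  | cons a L ih =>
    obtain ⟨ha, h1 | h1⟩ := h
    · exact ⟨hE ha, Or.inl ⟨h1.1, ih h1.2⟩⟩
    · exact ⟨hE ha, Or.inr ⟨h1.1, ih h1.2⟩⟩

theorem MG.ge_walk_append (G : MG α β) {E : Finset β} {L L' : List β} {s x t : α}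
    (h : G.Walk E s L x) (h' : G.Walk E x L' t) : G.Walk E s (L ++ L') t := by
  induction L generalizing s with
  | nil =>
    have : s = x := h
    subst this
    exact h'
  | cons a L ih =>
    obtain ⟨ha, h1 | h1⟩ := h
    · exact ⟨ha, Or.inl ⟨h1.1, ih h1.2⟩⟩
    · exact ⟨ha, Or.inr ⟨h1.1, ih h1.2⟩⟩

theorem MG.ge_walk_con (G : MG α β) {E : Finset β} {L : List β} {s t : α}
    (h : G.Walk E s L t) : G.Con E s t := by
  induction L generalizing s with
  | nil =>
    have : s = t := h
    subst this
    exact Relation.ReflTransGen.refl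
  | cons a L ih =>
    obtain ⟨ha, h1 | h1⟩ := h
    · exact Relation.ReflTransGen.head ⟨a, ha, Or.inl ⟨h1.1, rfl⟩⟩ (ih h1.2)
    · exact Relation.ReflTransGen.head ⟨a, ha, Or.inr ⟨h1.1, rfl⟩⟩ (ih h1.2)

/-- The ends of the edges of a walk are connected to its start. -/
theorem MG.ge_walk_con_mem (G : MG α β) {E : Finset β} {L : List β} {s t : α}
    (h : G.Walk E s L t) : ∀ e ∈ L, G.Con E s (G.p e) := by
  induction L generalizing s with
  | nil => intro e he; exact absurd he List.not_mem_nil
  | cons a L ih =>
    obtain ⟨ha, h1 | h1⟩ := h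
    · intro e he
      rcases List.mem_cons.mp he with rfl | he
      · rw [h1.1]; exact Relation.ReflTransGen.refl
      · exact Relation.ReflTransGen.head ⟨a, ha, Or.inl ⟨h1.1, rfl⟩⟩ (ih h1.2 e he)
    · intro e he
      rcases List.mem_cons.mp he with rfl | he
      · exact Relation.ReflTransGen.single ⟨e, ha, Or.inr ⟨h1.1, rfl⟩⟩
      · exact Relation.ReflTransGen.head ⟨a, ha, Or.inr ⟨h1.1, rfl⟩⟩ (ih h1.2 e he)

/-- The parities of a trail. -/
theorem MG.ge_walk_bdy (G : MG α β) {E : Finset β} {L : List β} {s t : α}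
    (h : G.Walk E s L t) (hL : L.Nodup) (v : α) : G.bdy L.toFinset v = chi s t v := by
  induction L generalizing s with
  | nil =>
    have : s = t := h
    subst this
    simp only [List.toFinset_nil, MG.bdy, Finset.sum_empty, chi]
    exact (CharTwo.add_self_eq_zero _).symm
  | cons a L ih =>
    have hna : a ∉ L.toFinset := by
      rw [List.mem_toFinset]
      exact (List.nodup_cons.mp hL).1
    have hL' := (List.nodup_cons.mp hL).2
    have key : ∀ s', G.Walk E s' L t →
        G.bdy (insert a L.toFinset) v =
          ((if G.p a = v then 1 else 0) + if G.q a = v then 1 else 0) + chi s' t v := by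
      intro s' hs'
      rw [MG.bdy, Finset.sum_insert hna, ← ih hs' hL', MG.bdy]
    rw [List.toFinset_cons]
    obtain ⟨_, h1 | h1⟩ := h
    · rw [key _ h1.2, h1.1]
      simp only [chi]
      have e1 : (if s = v then (1 : ZMod 2) else 0) = if v = s then 1 else 0 := by
        simp only [eq_comm]
      have e2 : (if G.q a = v then (1 : ZMod 2) else 0) = if v = G.q a then 1 else 0 := by
        simp only [eq_comm]
      rw [e1, e2]
      have := CharTwo.add_self_eq_zero (if v = G.q a then (1 : ZMod 2) else 0)
      linear_combination this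
    · rw [key _ h1.2, h1.1]
      simp only [chi]
      have e1 : (if s = v then (1 : ZMod 2) else 0) = if v = s then 1 else 0 := by
        simp only [eq_comm]
      have e2 : (if G.p a = v then (1 : ZMod 2) else 0) = if v = G.p a then 1 else 0 := by
        simp only [eq_comm]
      rw [e1, e2]
      have := CharTwo.add_self_eq_zero (if v = G.p a then (1 : ZMod 2) else 0)
      linear_combination this

/-- Maximal trails exist. -/
theorem MG.ge_exists_mt (G : MG α β) (E : Finset β) (s : α) : ∃ L t, G.MT E s L t := by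
  induction hn : E.card generalizing E s with
  | zero =>
    have hE : E = ∅ := Finset.card_eq_zero.mp hn
    refine ⟨[], s, rfl, List.nodup_nil, ?_⟩
    intro e he
    rw [hE, MG.star, Finset.filter_empty] at he
    exact absurd he (Finset.notMem_empty e)
  | succ n ih =>
    by_cases hst : G.star E s = ∅
    · refine ⟨[], s, rfl, List.nodup_nil, ?_⟩
      intro e he
      rw [hst] at he
      exact absurd he (Finset.notMem_empty e)
    · obtain ⟨e, he⟩ := Finset.nonempty_iff_ne_empty.mpr hst
      rw [MG.star, Finset.mem_filter] at he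
      have hcard : (E.erase e).card = n := by
        rw [Finset.card_erase_of_mem he.1, hn]
        rfl
      have key : ∀ s', (∀ L t, G.Walk E s' L t → G.Walk E s (e :: L) t) →
          ∃ L t, G.MT E s L t := by
        intro s' hs'
        obtain ⟨L, t, hL, hnd, hmax⟩ := ih (E.erase e) s' hcard
        refine ⟨e :: L, t, hs' L t (G.ge_walk_mono (Finset.erase_subset _ _) hL), ?_, ?_⟩
        · rw [List.nodup_cons]
          refine ⟨fun heL => ?_, hnd⟩
          exact absurd (G.ge_walk_mem hL e heL) (Finset.notMem_erase e E)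
        · intro e' he'
          by_cases hee : e' = e
          · rw [hee]; exact List.mem_cons_self
          · apply List.mem_cons_of_mem
            apply hmax
            rw [MG.star, Finset.mem_filter] at he' ⊢
            exact ⟨Finset.mem_erase.mpr ⟨hee, he'.1⟩, he'.2⟩
      rcases he.2 with h1 | h1
      · exact key (G.q e) fun L t h => ⟨he.1, Or.inl ⟨h1, h⟩⟩
      · exact key (G.p e) fun L t h => ⟨he.1, Or.inr ⟨h1, h⟩⟩

/-- The last visit of a walk to a set of vertices. -/
theorem MG.ge_split (G : MG α β) {E : Finset β} (Y : α → Prop) {L : List β} {s t : α}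
    (h : G.Walk E s L t) :
    (¬ Y s ∧ ¬ Y t ∧ ∀ e ∈ L, ¬ Y (G.p e) ∧ ¬ Y (G.q e)) ∨
    ∃ x S₁ S₂, L = S₁ ++ S₂ ∧ G.Walk E s S₁ x ∧ G.Walk E x S₂ t ∧ Y x ∧
      (∀ e ∈ S₂, ∀ v, (G.p e = v ∨ G.q e = v) → Y v → v = x) ∧ (Y t → t = x) := by
  induction L generalizing s with
  | nil =>
    have hst : s = t := h
    subst hst
    by_cases hY : Y s
    · right
      exact ⟨s, [], [], rfl, rfl, rfl, hY, fun e he => absurd he List.not_mem_nil, fun _ => rfl⟩
    · left
      exact ⟨hY, hY, fun e he => absurd he List.not_mem_nil⟩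
  | cons a L ih =>
    obtain ⟨ha, h1⟩ := h
    have key : ∀ s', G.Walk E s' L t →
        (∀ M v, G.Walk E s' M v → G.Walk E s (a :: M) v) →
        (∀ v, (G.p a = v ∨ G.q a = v) → v = s ∨ v = s') →
        (¬ Y s ∧ ¬ Y t ∧ ∀ e ∈ a :: L, ¬ Y (G.p e) ∧ ¬ Y (G.q e)) ∨
        ∃ x S₁ S₂, a :: L = S₁ ++ S₂ ∧ G.Walk E s S₁ x ∧ G.Walk E x S₂ t ∧ Y x ∧
          (∀ e ∈ S₂, ∀ v, (G.p e = v ∨ G.q e = v) → Y v → v = x) ∧ (Y t → t = x) := by
      intro s' hs' hcons hends
      rcases ih hs' with ⟨h2, h3, h4⟩ | ⟨x, S₁, S₂, h2, h3, h4, h5, h6, h7⟩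
      · by_cases hY : Y s
        · right
          refine ⟨s, [], a :: L, rfl, rfl, hcons L t hs', hY, ?_, fun ht => absurd ht h3⟩
          intro e he v hv hYv
          rcases List.mem_cons.mp he with rfl | he
          · rcases hends v hv with h8 | h8
            · exact h8
            · rw [h8] at hYv
              exact absurd hYv h2
          · rcases hv with h8 | h8
            · rw [← h8] at hYv
              exact absurd hYv (h4 e he).1
            · rw [← h8] at hYv
              exact absurd hYv (h4 e he).2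
        · left
          refine ⟨hY, h3, ?_⟩
          intro e he
          rcases List.mem_cons.mp he with rfl | he
          · constructor
            · rcases hends (G.p e) (Or.inl rfl) with h8 | h8
              · rw [h8]; exact hY
              · rw [h8]; exact h2
            · rcases hends (G.q e) (Or.inr rfl) with h8 | h8
              · rw [h8]; exact hY
              · rw [h8]; exact h2
          · exact h4 e he
      · right
        refine ⟨x, a :: S₁, S₂, by rw [h2]; rfl, hcons S₁ x h3, h4, h5, h6, h7⟩
    rcases h1 with h1 | h1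
    · refine key (G.q a) h1.2 (fun M v hM => ⟨ha, Or.inl ⟨h1.1, hM⟩⟩) ?_
      rintro v (rfl | rfl)
      · exact Or.inl h1.1
      · exact Or.inr rfl
    · refine key (G.p a) h1.2 (fun M v hM => ⟨ha, Or.inr ⟨h1.1, hM⟩⟩) ?_
      rintro v (rfl | rfl)
      · exact Or.inr rfl
      · exact Or.inl h1.1

theorem MG.ge_mem_comp (G : MG α β) {S : Finset β} {s : α} {e : β} :
    e ∈ G.comp S s ↔ e ∈ S ∧ G.Con S s (G.p e) := by
  classical
  rw [MG.comp, Finset.mem_filter]

theorem MG.ge_comp_congr (G : MG α β) {S : Finset β} {s s' : α} (h : G.Con S s s') :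
    G.comp S s = G.comp S s' := by
  ext e
  rw [G.ge_mem_comp, G.ge_mem_comp]
  constructor
  · rintro ⟨h1, h2⟩
    exact ⟨h1, h.symm.trans h2⟩
  · rintro ⟨h1, h2⟩
    exact ⟨h1, h.trans h2⟩

/-- If an edge of `S` is at `v` and `v` is connected to `s`, then the edge is in the component. -/
theorem MG.ge_star_comp (G : MG α β) {S : Finset β} {s v : α} (h : G.Con S s v) {e : β}
    (he : e ∈ G.star S v) : e ∈ G.comp S s := by
  rw [MG.star, Finset.mem_filter] at he
  rw [G.ge_mem_comp]
  refine ⟨he.1, ?_⟩
  rcases he.2 with h1 | h1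
  · rw [h1]; exact h
  · refine h.trans ?_
    exact Relation.ReflTransGen.single ⟨e, he.1, Or.inr ⟨h1, rfl⟩⟩

theorem MG.ge_main (G : MG α β) (n : ℕ) : ∀ (E : Finset β), E.card = n → ∀ (s t : α),
    (∀ L v, G.MT E s L v → v = t) → ∀ z, G.bdy (G.comp E s) z = chi s t z := by
  induction n using Nat.strong_induction_on with
  | _ n ih =>
  intro E hn s t h z
  by_contra hz
  obtain ⟨L, t', hL⟩ := G.ge_exists_mt E s
  have ht' := h L t' hL
  subst ht'
  obtain ⟨hw, hnd, hmax⟩ := hL
  have hLsub : L.toFinset ⊆ G.comp E s := by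
    intro e he
    rw [List.mem_toFinset] at he
    rw [G.ge_mem_comp]
    exact ⟨G.ge_walk_mem hw e he, G.ge_walk_con_mem hw e he⟩
  set D : Finset β := G.comp E s \ L.toFinset with hD
  have hDE : D ⊆ E := Finset.sdiff_subset.trans (G.comp_sub E s)
  have hbD : ∀ v, G.bdy D v = G.bdy (G.comp E s) v + chi s t' v := by
    intro v
    rw [hD, G.bdy_sdiff hLsub, G.ge_walk_bdy hw hnd]
  have hDz : G.bdy D z ≠ 0 := by
    rw [hbD z]
    intro h0
    exact hz (CharTwo.add_eq_zero.mp h0)
  -- there is an edge of `D` at `z`
  obtain ⟨e₀, he₀, he₀z⟩ : ∃ e ∈ D, G.p e = z ∨ G.q e = z := by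
    by_contra hcon
    push Not at hcon
    apply hDz
    rw [MG.bdy]
    apply Finset.sum_eq_zero
    intro e he
    rw [if_neg (hcon e he).1, if_neg (hcon e he).2, add_zero]
  have hsz : G.Con (G.comp E s) s z := by
    have h1 : e₀ ∈ G.comp E s := (Finset.mem_sdiff.mp he₀).1
    have h2 := (G.ge_mem_comp.mp h1).2
    have h3 := G.con_comp h2
    rcases he₀z with h4 | h4
    · rw [← h4]; exact h3
    · rw [← h4]
      exact h3.trans (MG.Con.edge h1)
  -- `L` is not empty
  have hDcard : D.card < n := by
    rw [← hn]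
    apply Finset.card_lt_card
    refine ⟨hDE, fun hED => ?_⟩
    have hLnil : L = [] := by
      rcases L with _ | ⟨a, L'⟩
      · rfl
      · exfalso
        have h1 : a ∈ E := G.ge_walk_mem hw a List.mem_cons_self
        have h2 := hED h1
        rw [hD, Finset.mem_sdiff] at h2
        apply h2.2
        rw [List.mem_toFinset]
        exact List.mem_cons_self
    subst hLnil
    have hst : s = t' := hw
    subst hst
    -- no edge at `s`, so `comp E s` is empty
    have hcl : ∀ e ∈ G.comp E s, G.p e = s ↔ G.q e = s := by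
      intro e he
      have heE := (G.ge_mem_comp.mp he).1
      constructor
      · intro h1
        exact absurd (hmax e (by rw [MG.star, Finset.mem_filter]; exact ⟨heE, Or.inl h1⟩))
          List.not_mem_nil
      · intro h1
        exact absurd (hmax e (by rw [MG.star, Finset.mem_filter]; exact ⟨heE, Or.inr h1⟩))
          List.not_mem_nil
    have h1 : z = s := (MG.Con.closed (Y := fun v => v = s) hcl hsz).mp rfl
    have heE := hDE he₀
    have h2 : e₀ ∈ G.star E s := by
      rw [MG.star, Finset.mem_filter, ← h1]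
      exact ⟨heE, he₀z⟩
    exact absurd (hmax e₀ h2) List.not_mem_nil
  -- the last visit
  rcases G.ge_split (fun v => G.Con D z v) hw with ⟨h1, h2, h3⟩ |
      ⟨x, S₁, S₂, h2, h3, h4, h5, h6, h7⟩
  · apply h1
    have hcl : ∀ e ∈ G.comp E s, G.Con D z (G.p e) ↔ G.Con D z (G.q e) := by
      intro e he
      by_cases heL : e ∈ L
      · exact iff_of_false (h3 e heL).1 (h3 e heL).2
      · have heD : e ∈ D := by
          rw [hD, Finset.mem_sdiff, List.mem_toFinset]
          exact ⟨he, heL⟩
        constructor
        · intro h4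
          exact h4.trans (MG.Con.edge heD)
        · intro h4
          exact h4.trans (MG.Con.edge heD).symm
    exact (MG.Con.closed (Y := fun v => G.Con D z v) hcl hsz).mpr Relation.ReflTransGen.refl
  · -- the induction hypothesis for `D` and `x`
    have h8 : ¬ ∀ T v, G.MT D x T v → v = x := by
      intro hall
      have h9 := ih D.card hDcard D rfl x x hall z
      have hzz : G.Con D z z := Relation.ReflTransGen.refl
      rw [← G.ge_comp_congr h5, G.bdy_comp, if_pos hzz] at h9
      apply hDz
      rw [h9, chi]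
      exact CharTwo.add_self_eq_zero _
    push Not at h8
    obtain ⟨T, y, hT, hyx⟩ := h8
    obtain ⟨hTw, hTnd, hTmax⟩ := hT
    have hzy : G.Con D z y := h5.trans (G.ge_walk_con hTw)
    have hMT : G.MT E s (S₁ ++ T) y := by
      refine ⟨G.ge_walk_append h3 (G.ge_walk_mono hDE hTw), ?_, ?_⟩
      · rw [List.nodup_append]
        rw [h2, List.nodup_append] at hnd
        refine ⟨hnd.1, hTnd, ?_⟩
        intro a ha b hb hab
        subst hab
        have h9 := G.ge_walk_mem hTw a hb
        rw [hD, Finset.mem_sdiff, List.mem_toFinset, h2] at h9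
        exact h9.2 (List.mem_append_left _ ha)
      · intro e he
        have hcon : G.Con E s y :=
          (G.ge_walk_con h3).trans ((G.ge_walk_con hTw).mono hDE)
        have hec : e ∈ G.comp E s := G.ge_star_comp hcon he
        rw [MG.star, Finset.mem_filter] at he
        by_cases heL : e ∈ L
        · rw [h2, List.mem_append] at heL
          rcases heL with h9 | h9
          · exact List.mem_append_left _ h9
          · exact absurd (h6 e h9 y he.2 hzy) hyx
        · apply List.mem_append_right
          apply hTmax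
          rw [MG.star, Finset.mem_filter, hD, Finset.mem_sdiff, List.mem_toFinset]
          exact ⟨⟨hec, heL⟩, he.2⟩
    have hyt : y = t' := h _ _ hMT
    rw [hyt] at hyx hzy
    exact hyx (h7 hzy)

theorem MG.unique_end (G : MG α β) {E : Finset β} (hl : G.NL E) {s t : α}
    (h : ∀ L v, G.MT E s L v → v = t) :
    G.Rep E s t (G.star E t) (G.comp E s) := by
  have _ := hl
  obtain ⟨L, t', hL⟩ := G.ge_exists_mt E s
  have ht' := h L t' hL
  subst ht'
  have hst : G.Con E s t' := G.ge_walk_con hL.1
  refine ⟨G.comp_sub E s, G.ge_main E.card E rfl s t' h, ?_, ?_⟩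
  · intro e he
    exact G.ge_star_comp hst he
  · intro e he
    have h1 := G.con_comp (G.ge_mem_comp.mp he).2
    have h2 := G.con_comp hst
    exact h2.symm.trans h1

end Pool.Agent.CHK
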