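import Pool.Agent.CHK.GrA

set_option autoImplicit false
set_option linter.unusedSectionVars false

namespace Pool.Agent.CHK

variable {α β : Type} [DecidableEq α] [DecidableEq β]

/-! ### Module GF: one class -/

theorem MG.av_iff (G : MG α β) {E E' : Finset β} {s t : α} (hE : E' ⊆ E) :
    G.Av E' s t (G.star E t) ↔ ∃ S, G.Rep E' s t (G.star E t) S := by
  constructor
  · rintro ⟨S, hS, hb, hR⟩
    exact ⟨G.comp S t, G.rep_comp hE hS hb hR⟩
  · rintro ⟨S, hS⟩
    exact ⟨S, hS.sub, hS.bd, hS.pre⟩

theorem MG.rep_sdiff (G : MG α β) {E s t} {R S D : Finset β} :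
    G.Rep (E \ D) s t R S ↔ G.Rep E s t R S ∧ Disjoint D S := by
  constructor
  · intro h
    have h1 := Finset.subset_sdiff.mp h.sub
    exact ⟨⟨h1.1, h.bd, h.pre, h.con⟩, h1.2.symm⟩
  · rintro ⟨h, hd⟩
    exact ⟨Finset.subset_sdiff.mpr ⟨h.sub, hd.symm⟩, h.bd, h.pre, h.con⟩

/-- Avoidable sets in terms of replies. -/
theorem MG.gf_av (G : MG α β) {E E' : Finset β} {s t : α} (hE : E' ⊆ E) (D : Finset β) :
    G.Av (E' \ D) s t (G.star E t) ↔
      ∃ S, G.Rep E' s t (G.star E t) S ∧ Disjoint D S := by
  rw [G.av_iff (Finset.sdiff_subset.trans hE)]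
  simp only [G.rep_sdiff]

theorem MG.sc_iff (G : MG α β) {E E' : Finset β} {s t : α} (hE : E' ⊆ E) (F : Finset β)
    (Good : β → Prop) :
    (∀ S, G.Rep E' s t (G.star E t) S → ∃ w ∈ F, Good w ∧ F \ S = {w}) ↔
      G.SC E' s t (G.star E t) F Good := by
  constructor
  · intro h
    by_cases hav : G.Av E' s t (G.star E t)
    · right
      refine ⟨?_, ?_, ?_⟩
      · intro f hf f' hf' hne h1
        obtain ⟨S, hS, hd⟩ := (G.gf_av hE {f, f'}).mp h1
        obtain ⟨w, -, -, hw⟩ := h S hS
        have hfS : f ∉ S := Finset.disjoint_left.mp hd (by simp)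
        have hfS' : f' ∉ S := Finset.disjoint_left.mp hd (by simp)
        have e1 : f ∈ F \ S := Finset.mem_sdiff.mpr ⟨hf, hfS⟩
        have e2 : f' ∈ F \ S := Finset.mem_sdiff.mpr ⟨hf', hfS'⟩
        rw [hw, Finset.mem_singleton] at e1 e2
        exact hne (e1.trans e2.symm)
      · intro f hf
        by_cases h1 : G.Av (E' \ {f}) s t (G.star E t)
        · left
          obtain ⟨S, hS, hd⟩ := (G.gf_av hE {f}).mp h1
          obtain ⟨w, -, hg, hw⟩ := h S hS
          have hfS : f ∉ S := Finset.disjoint_left.mp hd (by simp)
          have e1 : f ∈ F \ S := Finset.mem_sdiff.mpr ⟨hf, hfS⟩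
          rw [hw, Finset.mem_singleton] at e1
          rw [e1]
          exact hg
        · exact Or.inr h1
      · obtain ⟨S, hS⟩ := (G.av_iff hE).mp hav
        obtain ⟨w, hwF, -, hw⟩ := h S hS
        have hwS : w ∉ S := by
          have : w ∈ F \ S := by rw [hw]; exact Finset.mem_singleton_self w
          exact (Finset.mem_sdiff.mp this).2
        refine ⟨w, hwF, (G.gf_av hE {w}).mpr ⟨S, hS, by simpa using hwS⟩, ?_⟩
        by_cases h1 : ∃ w' ∈ F, w' ≠ w ∧ G.Av (E' \ {w'}) s t (G.star E t)
        · exact Or.inl h1
        · right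
          rintro ⟨S1, hS1, hw1⟩
          obtain ⟨w', hwF', -, hw'⟩ := h S1 hS1
          have hwS' : w' ∉ S1 := by
            have : w' ∈ F \ S1 := by rw [hw']; exact Finset.mem_singleton_self w'
            exact (Finset.mem_sdiff.mp this).2
          apply h1
          refine ⟨w', hwF', ?_, (G.gf_av hE {w'}).mpr ⟨S1, hS1, by simpa using hwS'⟩⟩
          rintro rfl
          exact hwS' (hw1 (Finset.mem_singleton_self _))
    · exact Or.inl hav
  · rintro (h | ⟨ha, hb, w, hwF, hw, hc⟩) S hS
    · exact absurd ((G.av_iff hE).mpr ⟨S, hS⟩) h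
    · have key : ∃ f ∈ F, f ∉ S := by
        by_contra hno
        push Not at hno
        have hwS : w ∈ S := hno w hwF
        rcases hc with ⟨w', hwF', hne, hw'⟩ | hc
        · have hwS' : w' ∈ S := hno w' hwF'
          obtain ⟨S1, hS1, hb1, hR1⟩ := hw
          obtain ⟨S2, hS2, hb2, hR2⟩ := hw'
          have hw1 : w ∉ S1 := fun h => (Finset.mem_sdiff.mp (hS1 h)).2 (by simp)
          have hw2 : w' ∉ S2 := fun h => (Finset.mem_sdiff.mp (hS2 h)).2 (by simp)
          have hS1' : S1 ⊆ E' := hS1.trans Finset.sdiff_subset
          have hS2' : S2 ⊆ E' := hS2.trans Finset.sdiff_subset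
          have hw21 : w' ∈ S1 := by
            by_contra hno1
            apply ha w hwF w' hwF' (Ne.symm hne)
            refine ⟨S1, ?_, hb1, hR1⟩
            intro x hx
            rw [Finset.mem_sdiff]
            refine ⟨hS1' hx, ?_⟩
            intro hx'
            rcases Finset.mem_insert.mp hx' with rfl | hx'
            · exact hw1 hx
            · rw [Finset.mem_singleton] at hx'
              subst hx'
              exact hno1 hx
          have hw12 : w ∈ S2 := by
            by_contra hno1
            apply ha w hwF w' hwF' (Ne.symm hne)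
            refine ⟨S2, ?_, hb2, hR2⟩
            intro x hx
            rw [Finset.mem_sdiff]
            refine ⟨hS2' hx, ?_⟩
            intro hx'
            rcases Finset.mem_insert.mp hx' with rfl | hx'
            · exact hno1 hx
            · rw [Finset.mem_singleton] at hx'
              subst hx'
              exact hw2 hx
          apply ha w hwF w' hwF' (Ne.symm hne)
          refine ⟨symmDiff (symmDiff S S1) S2, ?_, ?_, ?_⟩
          · intro x hx
            rw [Finset.mem_sdiff]
            constructor
            · rw [Finset.mem_symmDiff, Finset.mem_symmDiff] at hx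
              rcases hx with ⟨(⟨hx, -⟩ | ⟨hx, -⟩), -⟩ | ⟨hx, -⟩
              · exact hS.sub hx
              · exact hS1' hx
              · exact hS2' hx
            · intro hx'
              rw [Finset.mem_symmDiff, Finset.mem_symmDiff] at hx
              rcases Finset.mem_insert.mp hx' with rfl | hx'
              · tauto
              · rw [Finset.mem_singleton] at hx'
                subst hx'
                tauto
          · intro v
            rw [G.bdy_symmDiff, G.bdy_symmDiff, hS.bd v, hb1 v, hb2 v,
              CharTwo.add_self_eq_zero, zero_add]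
          · intro x hx
            have h0 := hS.pre hx
            have h1 := hR1 hx
            have h2 := hR2 hx
            rw [Finset.mem_symmDiff, Finset.mem_symmDiff]
            tauto
        · exact hc ⟨S, hS, Finset.singleton_subset_iff.mpr hwS⟩
      obtain ⟨f, hfF, hfS⟩ := key
      refine ⟨f, hfF, ?_, ?_⟩
      · rcases hb f hfF with h1 | h1
        · exact h1
        · exact absurd ((G.gf_av hE {f}).mpr ⟨S, hS, by simpa using hfS⟩) h1
      · ext x
        rw [Finset.mem_sdiff, Finset.mem_singleton]
        constructor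
        · rintro ⟨hxF, hxS⟩
          by_contra hne
          apply ha x hxF f hfF hne
          refine (G.gf_av hE {x, f}).mpr ⟨S, hS, ?_⟩
          rw [Finset.disjoint_left]
          intro y hy
          rcases Finset.mem_insert.mp hy with rfl | hy
          · exact hxS
          · rw [Finset.mem_singleton] at hy
            subst hy
            exact hfS
        · rintro rfl
          exact ⟨hfF, hfS⟩

end Pool.Agent.CHK
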