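import Pool.Agent.CHK.Play

set_option autoImplicit false

/-! Captures and runs. -/

namespace Pool.Agent.CHK

/-! ### Runs -/

theorem run_append {D A F : Sq → Prop} {z z' : Sq} {L L' : List Sq} :
    Run D A F z (L ++ L') z' ↔ ∃ y, Run D A F z L y ∧ Run D A F y L' z' := by
  induction L generalizing z with
  | nil =>
    constructor
    · intro h
      exact ⟨z, rfl, h⟩
    · rintro ⟨y, h1, h2⟩
      have h3 : z = y := h1
      rw [List.nil_append, h3]
      exact h2
  | cons e L ih =>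
    constructor
    · rintro ⟨d, hd, he, hA, hF, h⟩
      obtain ⟨y, h1, h2⟩ := ih.1 h
      exact ⟨y, ⟨d, hd, he, hA, hF, h1⟩, h2⟩
    · rintro ⟨y, ⟨d, hd, he, hA, hF, h1⟩, h2⟩
      exact ⟨d, hd, he, hA, hF, ih.2 ⟨y, h1, h2⟩⟩

theorem Run.mem {D A F : Sq → Prop} {z z' : Sq} {L : List Sq} (h : Run D A F z L z') {e : Sq}
    (he : e ∈ L) : A e ∧ ∃ d, D d ∧ (e - d = z ∨ F (e - d)) ∧ F (e + d) := by
  induction L generalizing z with
  | nil => exact absurd he List.not_mem_nil
  | cons x L ih =>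
    obtain ⟨d, hd, hx, hA, hF, h1⟩ := h
    rcases List.mem_cons.1 he with rfl | he'
    · exact ⟨hA, d, hd, Or.inl (by rw [hx]; exact add_sub_cancel_right z d), hF⟩
    · obtain ⟨h2, d', hd', h3, h4⟩ := ih h1 he'
      refine ⟨h2, d', hd', Or.inr ?_, h4⟩
      rcases h3 with h3 | h3
      · rw [h3]; exact hF
      · exact h3

theorem Run.mono {D A F D' A' F' : Sq → Prop} (hD : ∀ d, D d → D' d) {z z' : Sq} {L : List Sq}
    (hA : ∀ e ∈ L, A e → A' e) (hF : ∀ y, F y → F' y) (h : Run D A F z L z') :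
    Run D' A' F' z L z' := by
  induction L generalizing z with
  | nil => exact h
  | cons x L ih =>
    obtain ⟨d, hd, hx, hA1, hF1, h1⟩ := h
    exact ⟨d, hD d hd, hx, hA x List.mem_cons_self hA1, hF _ hF1,
      ih (fun e he => hA e (List.mem_cons_of_mem _ he)) h1⟩

/-! ### Classes -/

theorem dir_dg {P : Piece} {d : Sq} (h : Dir P d) : Dg d := by
  refine ⟨h.1, ?_⟩
  have hf : fwd P.white = 1 ∨ fwd P.white = -1 := by
    unfold fwd
    split_ifs
    · exact Or.inl rfl
    · exact Or.inr rfl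
  rcases h.2 with h2 | h2
  · rw [h2]; exact hf
  · rw [h2.2]
    rcases hf with hf | hf
    · right; rw [hf]
    · left; rw [hf]; norm_num

theorem Cls.refl' (s : Sq) : Cls s s := ⟨0, 0, by simp, by simp⟩

theorem Cls.symm' {s z : Sq} (h : Cls s z) : Cls z s := by
  obtain ⟨i, j, rfl, h⟩ := h
  refine ⟨-i, -j, ?_, ?_⟩
  · apply Prod.ext
    · change s.1 = s.1 + 2 * i + 2 * -i
      ring
    · change s.2 = s.2 + 2 * j + 2 * -j
      ring
  · rw [Int.even_iff] at h ⊢
    omega

theorem Cls.trans' {s z y : Sq} (h : Cls s z) (h' : Cls z y) : Cls s y := by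
  obtain ⟨i, j, rfl, h⟩ := h
  obtain ⟨i', j', rfl, h'⟩ := h'
  refine ⟨i + i', j + j', ?_, ?_⟩
  · apply Prod.ext
    · change s.1 + 2 * i + 2 * i' = s.1 + 2 * (i + i')
      ring
    · change s.2 + 2 * j + 2 * j' = s.2 + 2 * (j + j')
      ring
  · rw [Int.even_iff] at h h' ⊢
    omega

theorem pa_cls_step {z d : Sq} (hd : Dg d) : Cls z (z + d + d) := by
  obtain ⟨a, b⟩ := d
  refine ⟨a, b, ?_, ?_⟩
  · apply Prod.ext
    · change z.1 + a + a = z.1 + 2 * a
      ring
    · change z.2 + b + b = z.2 + 2 * b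
      ring
  · rw [Int.even_iff]
    have h1 : a = 1 ∨ a = -1 := hd.1
    have h2 : b = 1 ∨ b = -1 := hd.2
    omega

theorem Run.cls {D A F : Sq → Prop} (hD : ∀ d, D d → Dg d) {z z' : Sq} {L : List Sq}
    (h : Run D A F z L z') : Cls z z' := by
  induction L generalizing z with
  | nil =>
    have h1 : z = z' := h
    rw [h1]
    exact Cls.refl' _
  | cons x L ih =>
    obtain ⟨d, hd, hx, -, -, h1⟩ := h
    refine Cls.trans' (z := x + d) ?_ (ih h1)
    rw [hx]
    exact pa_cls_step (hD d hd)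

/-- All landing squares are in the class of the start. -/
theorem Run.withCls {D A F : Sq → Prop} (hD : ∀ d, D d → Dg d) {s z z' : Sq} {L : List Sq}
    (hz : Cls s z) (h : Run D A F z L z') : Run D A (fun y => F y ∧ Cls s y) z L z' := by
  induction L generalizing z with
  | nil => exact h
  | cons x L ih =>
    obtain ⟨d, hd, hx, hA, hF, h1⟩ := h
    have h2 : Cls s (x + d) := by
      refine Cls.trans' hz ?_
      rw [hx]
      exact pa_cls_step (hD d hd)
    exact ⟨d, hd, hx, hA, ⟨hF, h2⟩, ih h2 h1⟩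

/-- The opposite type consists of the two classes 0 and 1. -/
theorem cls_add {s z d : Sq} (h : Cls s z) (hd : Dg d) : Opp s 0 (z + d) ∨ Opp s 1 (z + d) := by
  obtain ⟨i, j, rfl, -⟩ := h
  obtain ⟨a, b⟩ := d
  have h1 : a = 1 ∨ a = -1 := hd.1
  have h2 : b = 1 ∨ b = -1 := hd.2
  have h3 : ∀ k : ℤ, (i + (a - 1) / 2 + (j + (b - 1) / 2)) % 2 = k →
      Opp s k ((s.1 + 2 * i, s.2 + 2 * j) + (a, b)) := by
    intro k hk
    refine ⟨i + (a - 1) / 2, j + (b - 1) / 2, ?_, hk⟩
    apply Prod.ext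
    · change s.1 + 2 * i + a = s.1 + 2 * (i + (a - 1) / 2) + 1
      omega
    · change s.2 + 2 * j + b = s.2 + 2 * (j + (b - 1) / 2) + 1
      omega
  rcases Int.emod_two_eq_zero_or_one (i + (a - 1) / 2 + (j + (b - 1) / 2)) with h4 | h4
  · exact Or.inl (h3 0 h4)
  · exact Or.inr (h3 1 h4)

theorem opp_cls {s z y : Sq} {k : ℤ} (h : Opp s k z) (h' : Opp s k y) : Cls z y := by
  obtain ⟨i, j, rfl, h⟩ := h
  obtain ⟨i', j', rfl, h'⟩ := h'
  refine ⟨i' - i, j' - j, ?_, ?_⟩
  · apply Prod.ext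
    · change s.1 + 2 * i' + 1 = s.1 + 2 * i + 1 + 2 * (i' - i)
      ring
    · change s.2 + 2 * j' + 1 = s.2 + 2 * j + 1 + 2 * (j' - j)
      ring
  · rw [Int.even_iff]
    omega

theorem cls_opp {s z y : Sq} {k : ℤ} (h : Opp s k z) (h' : Cls z y) : Opp s k y := by
  obtain ⟨i, j, rfl, h⟩ := h
  obtain ⟨i', j', rfl, h'⟩ := h'
  refine ⟨i + i', j + j', ?_, ?_⟩
  · apply Prod.ext
    · change s.1 + 2 * i + 1 + 2 * i' = s.1 + 2 * (i + i') + 1
      ring
    · change s.2 + 2 * j + 1 + 2 * j' = s.2 + 2 * (j + j') + 1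
      ring
  · rw [Int.even_iff] at h'
    omega

/-- The neighbours of a square are not in its class. -/
theorem pa_not_cls_add {s d : Sq} (hd : Dg d) : ¬ Cls s (s + d) := by
  rintro ⟨i, j, h, -⟩
  have h1 : s.1 + d.1 = s.1 + 2 * i := congrArg Prod.fst h
  have h2 := hd.1
  omega

theorem pa_add_dg_ne {s d : Sq} (hd : Dg d) : s + d ≠ s := by
  intro h
  have h1 : s.1 + d.1 = s.1 := congrArg Prod.fst h
  have h2 := hd.1
  omega

theorem pa_add_dg_dg_ne {s d : Sq} (hd : Dg d) : s + d + d ≠ s := by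
  intro h
  have h1 : s.1 + d.1 + d.1 = s.1 := congrArg Prod.fst h
  have h2 := hd.1
  omega

/-! ### One jump -/

/-- The board after a jump. -/
def paJb (N : ℕ) (B : Board) (P : Piece) (z d : Sq) : Board :=
  Function.update (Function.update (Function.update B z none) (z + d) none) (z + d + d)
    (some (arrive N P (z + d + d)))

theorem pa_jump_iff {N : ℕ} {B : Board} {z z' : Sq} {P : Piece} (hP : B z = some P) (B' : Board) :
    Jump N B z z' B' ↔ ∃ d, Dir P d ∧ Col B (!P.white) (z + d) ∧ z' = z + d + d ∧ On N z' ∧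
      B z' = none ∧ B' = paJb N B P z d := by
  constructor
  · rintro ⟨P', Q, d, h1, h2, h3, h4, h5, h6, h7, h8⟩
    have h9 : P' = P := Option.some.inj (h1.symm.trans hP)
    subst h9
    refine ⟨d, h2, ⟨Q, h3, ?_⟩, h5, h6, h7, ?_⟩
    · cases h10 : Q.white <;> cases h11 : P'.white <;> simp_all
    · rw [h8, h5]; rfl
  · rintro ⟨d, h2, ⟨Q, h3, h4⟩, h5, h6, h7, h8⟩
    refine ⟨P, Q, d, hP, h2, h3, ?_, h5, h6, h7, ?_⟩
    · rw [h4]; cases P.white <;> simp
    · rw [h8, h5]; rfl

theorem pa_jb_end (N : ℕ) (B : Board) (P : Piece) (z d : Sq) :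
    paJb N B P z d (z + d + d) = some (arrive N P (z + d + d)) := by
  unfold paJb
  exact Function.update_self _ _ _

theorem pa_jb_mid {N : ℕ} {B : Board} {P : Piece} {z d : Sq} (hd : Dg d) :
    paJb N B P z d (z + d) = none := by
  unfold paJb
  rw [Function.update_of_ne, Function.update_self]
  exact (pa_add_dg_ne hd).symm

theorem pa_jb_start {N : ℕ} {B : Board} {P : Piece} {z d : Sq} (hd : Dg d) :
    paJb N B P z d z = none := by
  unfold paJb
  rw [Function.update_of_ne (pa_add_dg_dg_ne hd).symm, Function.update_of_ne (pa_add_dg_ne hd).symm,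
    Function.update_self]

theorem pa_jb_other {N : ℕ} {B : Board} {P : Piece} {z d y : Sq} (h1 : y ≠ z) (h2 : y ≠ z + d)
    (h3 : y ≠ z + d + d) : paJb N B P z d y = B y := by
  unfold paJb
  rw [Function.update_of_ne h3, Function.update_of_ne h2, Function.update_of_ne h1]

/-- The set-up of one jump. -/
structure PaJS (N : ℕ) (B : Board) (P : Piece) (s d : Sq) : Prop where
  val : Val N B
  pc : B s = some P
  dir : Dir P d
  mid : Col B (!P.white) (s + d)
  on : On N (s + d + d)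
  emp : B (s + d + d) = none

theorem pa_arrive_white (N : ℕ) (P : Piece) (z : Sq) : (arrive N P z).white = P.white := by
  unfold arrive
  split_ifs <;> rfl

theorem pa_col_ne {B : Board} {P : Piece} {s y : Sq} (hP : B s = some P)
    (hy : Col B (!P.white) y) : y ≠ s := by
  rintro rfl
  obtain ⟨Q, h1, h2⟩ := hy
  have h3 : Q = P := Option.some.inj (h1.symm.trans hP)
  rw [h3] at h2
  cases h4 : P.white <;> simp [h4] at h2

theorem PaJS.val' {N : ℕ} {B : Board} {P : Piece} {s d : Sq} (h : PaJS N B P s d) :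
    Val N (paJb N B P s d) := by
  intro y hy
  by_cases h3 : y = s + d + d
  · rw [h3]; exact h.on
  by_cases h2 : y = s + d
  · rw [h2, pa_jb_mid (dir_dg h.dir)] at hy
    exact absurd rfl hy
  by_cases h1 : y = s
  · rw [h1, pa_jb_start (dir_dg h.dir)] at hy
    exact absurd rfl hy
  rw [pa_jb_other h1 h2 h3] at hy
  exact h.val y hy

theorem PaJS.col {N : ℕ} {B : Board} {P : Piece} {s d : Sq} (h : PaJS N B P s d) (x : Sq) :
    Col (paJb N B P s d) (!P.white) x ↔ Col B (!P.white) x ∧ x ≠ s + d := by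
  have hd := dir_dg h.dir
  by_cases h3 : x = s + d + d
  · constructor
    · rintro ⟨Q, h4, h5⟩
      rw [h3, pa_jb_end] at h4
      have h6 := Option.some.inj h4
      rw [← h6, pa_arrive_white] at h5
      cases h7 : P.white <;> simp [h7] at h5
    · rintro ⟨⟨Q, h4, -⟩, -⟩
      rw [h3, h.emp] at h4
      exact absurd h4 (by simp)
  by_cases h2 : x = s + d
  · constructor
    · rintro ⟨Q, h4, h5⟩
      rw [h2, pa_jb_mid hd] at h4
      exact absurd h4 (by simp)
    · rintro ⟨-, h4⟩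
      exact absurd h2 h4
  by_cases h1 : x = s
  · constructor
    · rintro ⟨Q, h4, h5⟩
      rw [h1, pa_jb_start hd] at h4
      exact absurd h4 (by simp)
    · rintro ⟨h4, -⟩
      exact absurd h1 (pa_col_ne h.pc h4)
  · unfold Col
    rw [pa_jb_other h1 h2 h3]
    exact ⟨fun h4 => ⟨h4, h2⟩, fun h4 => h4.1⟩

theorem PaJS.fre {N : ℕ} {B : Board} {P : Piece} {s d : Sq} (h : PaJS N B P s d) {y : Sq}
    (hy : Cls s y) : Fre N (paJb N B P s d) (s + d + d) y ↔ Fre N B s y := by
  have hd := dir_dg h.dir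
  unfold Fre
  refine and_congr_right fun _ => ?_
  by_cases h3 : y = s + d + d
  · exact ⟨fun _ => Or.inl (by rw [h3]; exact h.emp), fun _ => Or.inr h3⟩
  have h2 : y ≠ s + d := fun h2 => pa_not_cls_add hd (h2 ▸ hy)
  by_cases h1 : y = s
  · exact ⟨fun _ => Or.inr h1, fun _ => Or.inl (by rw [h1, pa_jb_start hd])⟩
  rw [pa_jb_other h1 h2 h3]
  constructor
  · rintro (h4 | h4)
    · exact Or.inl h4
    · exact absurd h4 h3
  · rintro (h4 | h4)
    · exact Or.inl h4
    · exact absurd h4 h1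

theorem PaJS.res {N : ℕ} {B : Board} {P : Piece} {s d : Sq} (h : PaJS N B P s d)
    (ha : arrive N P (s + d + d) = P) {L : List Sq} {t : Sq} (ht : t ≠ s + d) :
    CHK.res N (paJb N B P s d) (s + d + d) (· ∈ L) t = CHK.res N B s (· ∈ (s + d) :: L) t := by
  have hd := dir_dg h.dir
  funext y
  unfold CHK.res
  by_cases hL : y ∈ L
  · rw [if_pos hL, if_pos (List.mem_cons_of_mem _ hL)]
  rw [if_neg hL]
  by_cases h2 : y = s + d
  · rw [if_pos (show y ∈ (s + d) :: L by rw [h2]; exact List.mem_cons_self)]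
    rw [if_neg (show ¬ y = t by rw [h2]; exact fun h4 => ht h4.symm)]
    split_ifs with h3
    · rfl
    · rw [h2, pa_jb_mid hd]
  rw [if_neg (show ¬ y ∈ (s + d) :: L by
    rw [List.mem_cons]
    rintro (h4 | h4)
    · exact h2 h4
    · exact hL h4)]
  by_cases h4 : y = t
  · rw [if_pos h4, if_pos h4, pa_jb_end, h.pc, ha]
  rw [if_neg h4, if_neg h4]
  by_cases h1 : y = s
  · rw [if_pos h1]
    split_ifs with h3
    · rfl
    · rw [h1, pa_jb_start hd]
  rw [if_neg h1]
  by_cases h3 : y = s + d + d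
  · rw [if_pos h3, h3, h.emp]
  rw [if_neg h3, pa_jb_other h1 h2 h3]

theorem PaJS.res_one {N : ℕ} {B : Board} {P : Piece} {s d : Sq} (h : PaJS N B P s d) :
    paJb N B P s d = CHK.res N B s (· ∈ [s + d]) (s + d + d) := by
  have hd := dir_dg h.dir
  funext y
  unfold CHK.res
  by_cases h2 : y = s + d
  · rw [if_pos (show y ∈ [s + d] by rw [h2]; exact List.mem_cons_self), h2, pa_jb_mid hd]
  rw [if_neg (show ¬ y ∈ [s + d] by rw [List.mem_singleton]; exact h2)]
  by_cases h3 : y = s + d + d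
  · rw [if_pos h3, h3, pa_jb_end, h.pc]
    rfl
  rw [if_neg h3]
  by_cases h1 : y = s
  · rw [if_pos h1, h1, pa_jb_start hd]
  rw [if_neg h1, pa_jb_other h1 h2 h3]

/-- A piece which moves on has not been promoted. -/
theorem pa_arrive_of_dir {N : ℕ} {P : Piece} {z d : Sq} (hd : Dir P d) (hz : On N (z + d + d)) :
    arrive N P z = P := by
  unfold arrive
  split_ifs with h
  · rcases P with ⟨w, k⟩
    cases k
    · exfalso
      have h1 : d.2 = fwd w := by
        rcases hd.2 with h1 | h1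
        · exact h1
        · exact absurd h1.1 (by simp)
      have h2 : z.2 = far N w := h
      obtain ⟨-, -, h3, h4, -⟩ := hz
      have h3' : 0 ≤ z.2 + d.2 + d.2 := h3
      have h4' : z.2 + d.2 + d.2 < N := h4
      cases w
      · have e1 : fwd false = -1 := rfl
        have e2 : far N false = 0 := rfl
        omega
      · have e1 : fwd true = 1 := rfl
        have e2 : far N true = (N : ℤ) - 1 := rfl
        omega
    · rfl
  · rfl

/-- The final condition. -/
def PaFin (N : ℕ) (B : Board) (P : Piece) (s : Sq) (L : List Sq) (t : Sq) : Prop :=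
  arrive N P t ≠ P ∨
    ∀ d, Dir P d → Col B (!P.white) (t + d) → Fre N B s (t + d + d) → t + d ∈ L

theorem PaJS.fin1 {N : ℕ} {B : Board} {P : Piece} {s d : Sq} (h : PaJS N B P s d) {L : List Sq}
    {t : Sq} (ht : Cls s t) :
    PaFin N (paJb N B P s d) P (s + d + d) L t ↔ PaFin N B P s ((s + d) :: L) t := by
  unfold PaFin
  refine or_congr_right ?_
  constructor
  · intro h1 d' hd' hc hf
    by_cases h2 : t + d' = s + d
    · rw [h2]; exact List.mem_cons_self
    · refine List.mem_cons_of_mem _ (h1 d' hd' ((h.col _).2 ⟨hc, h2⟩) ?_)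
      exact (h.fre (ht.trans' (pa_cls_step (dir_dg hd')))).2 hf
  · intro h1 d' hd' hc hf
    obtain ⟨h2, h3⟩ := (h.col _).1 hc
    have h4 := h1 d' hd' h2 ((h.fre (ht.trans' (pa_cls_step (dir_dg hd')))).1 hf)
    rcases List.mem_cons.1 h4 with h5 | h5
    · exact absurd h5 h3
    · exact h5

theorem PaJS.fin1_nil {N : ℕ} {B : Board} {P : Piece} {s d : Sq} (h : PaJS N B P s d) :
    (paJb N B P s d (s + d + d) ≠ B s ∨
      ∀ z'' B'', ¬ Jump N (paJb N B P s d) (s + d + d) z'' B'') ↔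
      PaFin N (paJb N B P s d) P (s + d + d) [] (s + d + d) := by
  unfold PaFin
  rw [pa_jb_end, h.pc]
  by_cases ha : arrive N P (s + d + d) = P
  · have e1 : ¬ (some (arrive N P (s + d + d)) ≠ some P) := fun h1 => h1 (by rw [ha])
    have e2 : ¬ (arrive N P (s + d + d) ≠ P) := fun h1 => h1 ha
    rw [or_iff_right e1, or_iff_right e2]
    have hp : paJb N B P s d (s + d + d) = some P := by rw [pa_jb_end, ha]
    constructor
    · intro h1 d' hd' hc hf
      exfalso
      have h2 : s + d + d + d' + d' ≠ s + d + d := pa_add_dg_dg_ne (dir_dg hd')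
      refine h1 (s + d + d + d' + d') _ ((pa_jump_iff hp _).2 ⟨d', hd', hc, rfl, hf.1, ?_, rfl⟩)
      rcases hf.2 with h3 | h3
      · exact h3
      · exact absurd h3 h2
    · intro h1 z'' B'' hJ
      obtain ⟨d', h2, h3, h4, h5, h6, -⟩ := (pa_jump_iff hp _).1 hJ
      rw [h4] at h5 h6
      exact absurd (h1 d' h2 h3 ⟨h5, Or.inl h6⟩) List.not_mem_nil
  · have e1 : some (arrive N P (s + d + d)) ≠ some P := fun h1 => ha (Option.some.inj h1)
    exact ⟨fun _ => Or.inl ha, fun _ => Or.inl e1⟩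

theorem pa_run_shift {N : ℕ} {B : Board} {P : Piece} {s d : Sq} (h : PaJS N B P s d) {L : List Sq}
    {t : Sq} : Run (Dir P) (Col (paJb N B P s d) (!P.white)) (Fre N (paJb N B P s d) (s + d + d))
      (s + d + d) L t ↔ Run (Dir P) (Col B (!P.white)) (Fre N B s) (s + d + d) L t ∧
        s + d ∉ L := by
  have hc : Cls s (s + d + d) := pa_cls_step (dir_dg h.dir)
  constructor
  · intro h1
    refine ⟨?_, fun h2 => ((h.col _).1 (h1.mem h2).1).2 rfl⟩
    refine Run.mono (fun _ h => h) (fun e _ he => ((h.col e).1 he).1) ?_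
      (Run.withCls (fun _ h => dir_dg h) hc h1)
    exact fun y hy => (h.fre hy.2).1 hy.1
  · rintro ⟨h1, h2⟩
    refine Run.mono (fun _ h => h)
      (fun e he he' => (h.col e).2 ⟨he', fun h3 => h2 (h3 ▸ he)⟩) ?_
      (Run.withCls (fun _ h => dir_dg h) hc h1)
    exact fun y hy => (h.fre hy.2).2 hy.1

theorem pa_capture_run {N : ℕ} {b : Bool} {B B' : Board} {s : Sq} (h : Capture N b B s B') :
    b = true → ∀ P, Val N B → B s = some P →
      ∃ L t, L ≠ [] ∧ Run (Dir P) (Col B (!P.white)) (Fre N B s) s L t ∧ L.Nodup ∧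
        PaFin N B P s L t ∧ B' = res N B s (· ∈ L) t := by
  induction h with
  | @last B B' z z' hJ h' =>
    intro hb P hB hP
    obtain ⟨d, h1, h2, h3, h4, h5, h6⟩ := (pa_jump_iff hP _).1 hJ
    subst h3
    have hs : PaJS N B P z d := ⟨hB, hP, h1, h2, h4, h5⟩
    refine ⟨[z + d], z + d + d, by simp, ⟨d, h1, rfl, h2, ⟨h4, Or.inl h5⟩, rfl⟩, by simp, ?_, ?_⟩
    · rw [← hs.fin1 (pa_cls_step (dir_dg h1)), ← hs.fin1_nil, ← h6]
      rcases h' with h' | h'
      · exact Or.inl h'.2
      · exact Or.inr h'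
    · rw [h6, hs.res_one]
  | @next B B₁ B' z z' hJ h' _ ih =>
    intro hb P hB hP
    obtain ⟨d, h1, h2, h3, h4, h5, h6⟩ := (pa_jump_iff hP _).1 hJ
    subst h3
    have hs : PaJS N B P z d := ⟨hB, hP, h1, h2, h4, h5⟩
    have ha : B₁ (z + d + d) = B z := by
      by_contra hne
      exact h' ⟨hb, hne⟩
    have ha' : arrive N P (z + d + d) = P := by
      rw [h6, pa_jb_end, hP] at ha
      exact Option.some.inj ha
    subst h6
    obtain ⟨L, t, hL, hR, hN, hF, hB'⟩ := ih hb P hs.val' (ha.trans hP)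
    obtain ⟨hR1, hR2⟩ := (pa_run_shift hs).1 hR
    have hct : Cls z t := (pa_cls_step (dir_dg h1)).trans' (hR1.cls (fun _ h => dir_dg h))
    refine ⟨(z + d) :: L, t, by simp, ⟨d, h1, rfl, h2, ⟨h4, Or.inl h5⟩, hR1⟩,
      List.nodup_cons.2 ⟨hR2, hN⟩, (hs.fin1 hct).1 hF, ?_⟩
    rw [hB', hs.res ha']
    rintro rfl
    exact pa_not_cls_add (dir_dg h1) hct

theorem pa_run_capture {N : ℕ} {P : Piece} (L : List Sq) : ∀ (B : Board) (s t : Sq), Val N B →
    B s = some P → L ≠ [] → Run (Dir P) (Col B (!P.white)) (Fre N B s) s L t → L.Nodup →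
      PaFin N B P s L t → Capture N true B s (res N B s (· ∈ L) t) := by
  induction L with
  | nil =>
    intro B s t _ _ h
    exact absurd rfl h
  | cons e L ih =>
    rintro B s t hB hP - ⟨d, h1, rfl, h2, h3, hR⟩ hN hF
    have hd := dir_dg h1
    have h4 : B (s + d + d) = none := by
      rcases h3.2 with h | h
      · exact h
      · exact absurd h (pa_add_dg_dg_ne hd)
    have hs : PaJS N B P s d := ⟨hB, hP, h1, h2, h3.1, h4⟩
    have hJ : Jump N B s (s + d + d) (paJb N B P s d) :=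
      (pa_jump_iff hP _).2 ⟨d, h1, h2, rfl, h3.1, h4, rfl⟩
    rcases L with _ | ⟨e', L⟩
    · have h5 : s + d + d = t := hR
      subst h5
      rw [← hs.res_one]
      refine Capture.last hJ ?_
      have h6 := hs.fin1_nil.2 ((hs.fin1 (pa_cls_step hd)).2 hF)
      rcases h6 with h6 | h6
      · exact Or.inl ⟨rfl, h6⟩
      · exact Or.inr h6
    · have ha : arrive N P (s + d + d) = P := by
        obtain ⟨d', h5, h6, -, h7, -⟩ := hR
        rw [h6] at h7
        exact pa_arrive_of_dir h5 h7.1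
      obtain ⟨hN1, hN2⟩ := List.nodup_cons.1 hN
      have hct : Cls s t := (pa_cls_step hd).trans' (hR.cls (fun _ h => dir_dg h))
      have hp : paJb N B P s d (s + d + d) = some P := by rw [pa_jb_end, ha]
      refine Capture.next hJ (fun h => h.2 (by rw [hp, hP])) ?_
      rw [← hs.res ha (by rintro rfl; exact pa_not_cls_add hd hct)]
      exact ih _ _ _ hs.val' hp (by simp) ((pa_run_shift hs).2 ⟨hR, hN1⟩) hN2 ((hs.fin1 hct).2 hF)

/-- Complete captures are runs. -/
theorem capture_iff {N : ℕ} {B : Board} {s : Sq} {P : Piece} (hB : Val N B) (hP : B s = some P)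
    (B' : Board) : Capture N true B s B' ↔
      ∃ L t, L ≠ [] ∧ Run (Dir P) (Col B (!P.white)) (Fre N B s) s L t ∧ L.Nodup ∧
        (arrive N P t ≠ P ∨
          ∀ d, Dir P d → Col B (!P.white) (t + d) → Fre N B s (t + d + d) → t + d ∈ L) ∧
        B' = res N B s (· ∈ L) t := by
  constructor
  · intro h
    exact pa_capture_run h rfl P hB hP
  · rintro ⟨L, t, hL, hR, hN, hF, rfl⟩
    exact pa_run_capture L B s t hB hP hL hR hN hF

end Pool.Agent.CHK
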