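import Pool.Agent.CHK.Play
import Pool.Agent.CHK.PlayA
import Pool.Agent.CHK.GrA
import Pool.Agent.CHK.GrD

set_option autoImplicit false

/-! Captures of a black king: the graph. -/

namespace Pool.Agent.CHK

theorem gr_p (s e : Sq) : (gr s).p e = e + dl s e := rfl

theorem gr_q (s e : Sq) : (gr s).q e = e - dl s e := rfl

theorem dl_dg (s e : Sq) : Dg (dl s e) := by
  unfold dl Dg
  split <;> simp

theorem pe_neg {d : Sq} (hd : Dg d) : Dg (-d) := by
  obtain ⟨d1, d2⟩ := d
  simp only [Dg, Prod.neg_mk] at *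
  omega

/-- The direction of the edge between `v` and `v + d + d`. -/
theorem pe_dl {s e v d : Sq} (hv : Cls s v) (hd : Dg d) (he : e = v + d) :
    dl s e = d ∨ dl s e = -d := by
  unfold dl
  obtain ⟨i, j, hij, hp⟩ := hv
  obtain ⟨d1, d2⟩ := d
  obtain ⟨s1, s2⟩ := s
  subst he hij
  simp only [Dg] at hd
  rw [Int.even_iff] at hp
  split
  · next h =>
    obtain ⟨i', j', hij', hp'⟩ := h
    rw [Int.even_iff] at hp'
    simp only [Prod.mk_add_mk, Prod.mk.injEq, Prod.neg_mk] at *
    omega
  · next h =>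
    by_cases hdd : d1 = d2
    · exfalso
      apply h
      subst hdd
      rcases hd.1 with rfl | rfl
      · refine ⟨i + 1, j + 1, ?_, ?_⟩
        · simp only [Prod.mk_add_mk, Prod.mk.injEq]; omega
        · rw [Int.even_iff]; omega
      · refine ⟨i, j, ?_, ?_⟩
        · simp only [Prod.mk_add_mk, Prod.mk.injEq]; omega
        · rw [Int.even_iff]; omega
    · simp only [Prod.mk.injEq, Prod.neg_mk]
      omega

/-- For an edge the two ends are the two neighbours in the class of `s`. -/
theorem end_iff {s e v d : Sq} (hv : Cls s v) (hd : Dg d) (he : e = v + d) :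
    (e + dl s e = v ∨ e - dl s e = v) ∧ (e + dl s e = v + d + d ∨ e - dl s e = v + d + d) := by
  rcases pe_dl hv hd he with h | h
  · rw [h, he]
    exact ⟨Or.inr (add_sub_cancel_right v d), Or.inl rfl⟩
  · rw [h, he]
    exact ⟨Or.inl (add_neg_cancel_right v d), Or.inr (sub_neg_eq_add (v + d) d)⟩

theorem pe_mem_box {N : ℕ} {z : Sq} (h : On N z) : z ∈ box N := by
  obtain ⟨h1, h2, h3, h4, -⟩ := h
  unfold box
  rw [Finset.mem_product, Finset.mem_Ico, Finset.mem_Ico]
  exact ⟨⟨h1, h2⟩, h3, h4⟩

theorem pe_on {N : ℕ} {B : Board} (hB : Val N B) {c : Bool} {z : Sq} (h : Col B c z) : On N z := by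
  obtain ⟨P, hP, -⟩ := h
  exact hB z (by rw [hP]; simp)

theorem mem_Ed {N : ℕ} {B : Board} (hB : Val N B) {s e : Sq} :
    e ∈ Ed N B s ↔ IsE (Col B true) (Ver N B s) s e := by
  classical
  unfold Ed
  rw [Finset.mem_filter]
  exact ⟨fun h => h.2, fun h => ⟨pe_mem_box (pe_on hB h.1), h⟩⟩

theorem mem_star_Ed {N : ℕ} {B : Board} (hB : Val N B) {s v e : Sq} :
    e ∈ (gr s).star (Ed N B s) v ↔ AtV (Col B true) (Ver N B s) s v e := by
  unfold MG.star AtV
  rw [Finset.mem_filter, mem_Ed hB, gr_p, gr_q]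

theorem mem_FKs {N : ℕ} {B : Board} {s t : Sq} {k : ℤ} {z : Sq} :
    z ∈ FKs N B s t k ↔ FK N B s t k z := by
  classical
  unfold FKs
  rw [Finset.mem_filter]
  exact ⟨fun h => h.2, fun h => ⟨pe_mem_box h.1, h⟩⟩

theorem pe_ne (s e : Sq) : (gr s).p e ≠ (gr s).q e := by
  rw [gr_p, gr_q]
  intro h
  have h1 := dl_dg s e
  generalize dl s e = d at h h1
  obtain ⟨d1, d2⟩ := d
  obtain ⟨e1, e2⟩ := e
  simp only [Dg] at h1
  simp only [Prod.mk_add_mk, Prod.mk_sub_mk, Prod.mk.injEq] at h
  omega

theorem nl_Ed {N : ℕ} {B : Board} {s : Sq} : (gr s).NL (Ed N B s) := fun e _ => pe_ne s e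

theorem run_walk {N : ℕ} {B : Board} (hB : Val N B) {s z t : Sq} (hz : Ver N B s z)
    {L : List Sq} : Run Dg (Col B true) (Fre N B s) z L t ↔ (gr s).Walk (Ed N B s) z L t := by
  induction L generalizing z with
  | nil => exact Iff.rfl
  | cons e L ih =>
    constructor
    · rintro ⟨d, hd, he, hA, hF, hr⟩
      have hcl : Cls s (e + d) := by
        have h1 : Run Dg (fun _ => True) (fun _ => True) z [e] (e + d) :=
          ⟨d, hd, he, trivial, trivial, rfl⟩
        exact hz.1.trans' (Run.cls (fun _ h => h) h1)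
      have hv : Ver N B s (e + d) := ⟨hcl, hF⟩
      have hw := (ih hv).1 hr
      have hz2 : e - d = z := by rw [he]; exact add_sub_cancel_right z d
      rcases pe_dl hz.1 hd he with h | h
      · refine ⟨(mem_Ed hB).2 ⟨hA, ?_, ?_⟩, Or.inr ⟨?_, ?_⟩⟩
        · rw [h]; exact hv
        · rw [h, hz2]; exact hz
        · rw [gr_q, h, hz2]
        · rw [gr_p, h]; exact hw
      · refine ⟨(mem_Ed hB).2 ⟨hA, ?_, ?_⟩, Or.inl ⟨?_, ?_⟩⟩
        · rw [h, ← sub_eq_add_neg, hz2]; exact hz
        · rw [h, sub_neg_eq_add]; exact hv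
        · rw [gr_p, h, ← sub_eq_add_neg, hz2]
        · rw [gr_q, h, sub_neg_eq_add]; exact hw
    · rintro ⟨he, h⟩
      obtain ⟨hA, hF1, hF2⟩ := (mem_Ed hB).1 he
      rcases h with ⟨h1, h2⟩ | ⟨h1, h2⟩
      · rw [gr_p] at h1
        rw [gr_q] at h2
        refine ⟨-dl s e, ?_, ?_, hA, ?_, ?_⟩
        · exact pe_neg (dl_dg s e)
        · rw [← h1, add_neg_cancel_right]
        · rw [← sub_eq_add_neg]; exact hF2.2
        · rw [← sub_eq_add_neg]; exact (ih hF2).2 h2
      · rw [gr_q] at h1
        rw [gr_p] at h2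
        refine ⟨dl s e, dl_dg s e, ?_, hA, hF1.2, (ih hF1).2 h2⟩
        rw [← h1, sub_add_cancel]

theorem pe_dir {d : Sq} : Dir bking d ↔ Dg d := by
  obtain ⟨d1, d2⟩ := d
  simp only [Dir, Dg, fwd]
  simp
  omega

theorem pe_arrive (N : ℕ) (t : Sq) : arrive N bking t = bking := by
  unfold arrive
  split <;> rfl

theorem pe_fre_end {N : ℕ} {B : Board} {s : Sq} {L : List Sq} :
    ∀ {z t : Sq}, L ≠ [] → Run Dg (Col B true) (Fre N B s) z L t → Fre N B s t := by
  induction L with
  | nil => intro z t h; exact absurd rfl h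
  | cons e L ih =>
    intro z t _ h
    obtain ⟨d, hd, he, hA, hF, hr⟩ := h
    cases L with
    | nil =>
      have : e + d = t := hr
      rw [← this]; exact hF
    | cons e' L' => exact ih (by simp) hr

theorem repCap_king {N : ℕ} {B : Board} (hB : Val N B) {s : Sq} (hs : B s = some bking) :
    RepCap N B s bking ↔ (((gr s).star (Ed N B s) s).Nonempty → ∀ t, Ver N B s t →
      ∀ S, (gr s).Rep (Ed N B s) s t ((gr s).star (Ed N B s) t) S → GoodR N B s t (· ∈ S)) := by
  have hvs : Ver N B s s := ⟨Cls.refl' s, hB s (by rw [hs]; simp), Or.inr rfl⟩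
  have hD : Dir bking = Dg := funext fun d => propext pe_dir
  have hend : ∀ {t : Sq} {L : List Sq}, Ver N B s t →
      ((∀ d, Dg d → Col B true (t + d) → Fre N B s (t + d + d) → t + d ∈ L) ↔
        ∀ e ∈ (gr s).star (Ed N B s) t, e ∈ L) := by
    intro t L ht
    constructor
    · intro h e he
      obtain ⟨⟨hA, hF1, hF2⟩, h3⟩ := (mem_star_Ed hB).1 he
      rcases h3 with h3 | h3
      · have he' : e = t + -dl s e := by rw [← h3, add_neg_cancel_right]
        rw [he']
        refine h _ ?_ ?_ ?_
        · exact pe_neg (dl_dg s e)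
        · rw [← he']; exact hA
        · rw [← he', ← sub_eq_add_neg]; exact hF2.2
      · have he' : e = t + dl s e := by rw [← h3, sub_add_cancel]
        rw [he']
        refine h _ (dl_dg s e) ?_ ?_
        · rw [← he']; exact hA
        · rw [← he']; exact hF1.2
    · intro h d hd hA hF
      apply h
      rw [mem_star_Ed hB]
      have hcl : Cls s (t + d + d) := by
        have h1 : Run Dg (fun _ => True) (fun _ => True) t [t + d] (t + d + d) :=
          ⟨d, hd, rfl, trivial, trivial, rfl⟩
        exact ht.1.trans' (Run.cls (fun _ h => h) h1)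
      have hv : Ver N B s (t + d + d) := ⟨hcl, hF⟩
      rcases pe_dl ht.1 hd rfl with h3 | h3
      · unfold AtV IsE
        rw [h3, add_sub_cancel_right]
        exact ⟨⟨hA, hv, ht⟩, Or.inr rfl⟩
      · unfold AtV IsE
        rw [h3, add_neg_cancel_right, sub_neg_eq_add]
        exact ⟨⟨hA, ht, hv⟩, Or.inl rfl⟩
  constructor
  · intro h hne t ht S hS
    obtain ⟨L, hL, hLS⟩ := (gr s).mt_of_rep nl_Ed hS
    have hLne : L ≠ [] := by
      rintro rfl
      obtain ⟨e, he⟩ := hne
      have h1 : s = t := hL.1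
      rw [← h1] at hL
      have := hL.2.2 e he
      simp at this
    have hG := h L t hLne (by rw [hD]; exact (run_walk hB hvs).2 hL.1) hL.2.1
      (Or.inr (by rw [hD]; exact (hend ht).2 hL.2.2))
    have : (fun x => x ∈ S) = (fun x => x ∈ L) := by
      funext x
      rw [← hLS, List.mem_toFinset]
    rw [this]
    exact hG
  · intro h L t hne hr hnd hend'
    rw [hD] at hr hend'
    rw [pe_arrive] at hend'
    have ht : Ver N B s t := ⟨Run.cls (fun _ h => h) hr, pe_fre_end hne hr⟩
    have hw := (run_walk hB hvs).1 hr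
    have hMT : (gr s).MT (Ed N B s) s L t := by
      refine ⟨hw, hnd, ?_⟩
      rcases hend' with h1 | h1
      · exact absurd rfl h1
      · exact (hend ht).1 h1
    have hR := (gr s).rep_of_mt nl_Ed hMT
    have hst : ((gr s).star (Ed N B s) s).Nonempty := by
      cases L with
      | nil => exact absurd rfl hne
      | cons e L' =>
        refine ⟨e, ?_⟩
        unfold MG.star
        rw [Finset.mem_filter]
        refine ⟨hw.1, ?_⟩
        rcases hw.2 with h1 | h1
        · exact Or.inl h1.1
        · exact Or.inr h1.1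
    have hG := h hst t ht _ hR
    have : (fun x => x ∈ L) = (fun x => x ∈ L.toFinset) := by
      funext x
      rw [List.mem_toFinset]
    rw [this]
    exact hG

theorem pe_star_card {s v : Sq} (hv : Cls s v) (S : Finset Sq) :
    (gr s).star S v = ({v + (1, 1), v + (-1, -1), v + (1, -1), v + (-1, 1)} : Finset Sq).filter
      (· ∈ S) := by
  ext e
  unfold MG.star
  rw [Finset.mem_filter, Finset.mem_filter, gr_p, gr_q]
  simp only [Finset.mem_insert, Finset.mem_singleton]
  constructor
  · rintro ⟨h1, h2⟩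
    refine ⟨?_, h1⟩
    have h3 := dl_dg s e
    generalize dl s e = d at h2 h3
    obtain ⟨d1, d2⟩ := d
    obtain ⟨e1, e2⟩ := e
    obtain ⟨v1, v2⟩ := v
    simp only [Dg] at h3
    simp only [Prod.mk_add_mk, Prod.mk_sub_mk, Prod.mk.injEq] at *
    omega
  · rintro ⟨h1, h2⟩
    refine ⟨h2, ?_⟩
    rcases h1 with h | h | h | h
    · exact (end_iff hv (by simp [Dg]) h).1
    · exact (end_iff hv (by simp [Dg]) h).1
    · exact (end_iff hv (by simp [Dg]) h).1
    · exact (end_iff hv (by simp [Dg]) h).1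

theorem pe_bdy {s v : Sq} (hv : Cls s v) (S : Finset Sq) :
    (gr s).bdy S v = ((if v + (1, 1) ∈ S then 1 else 0) + (if v + (-1, -1) ∈ S then 1 else 0)) +
      ((if v + (1, -1) ∈ S then 1 else 0) + (if v + (-1, 1) ∈ S then 1 else 0)) := by
  rw [(gr s).bdy_card (fun e _ => pe_ne s e), pe_star_card hv, Finset.card_filter]
  rw [Finset.sum_insert, Finset.sum_insert, Finset.sum_insert, Finset.sum_singleton]
  · push_cast
    ring
  · rw [Finset.mem_singleton]
    intro h
    have h1 := congrArg Prod.fst h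
    simp only [Prod.fst_add] at h1
    omega
  · rw [Finset.mem_insert, Finset.mem_singleton]
    rintro (h | h)
    · have h1 := congrArg Prod.fst h
      simp only [Prod.fst_add] at h1
      omega
    · have h1 := congrArg Prod.snd h
      simp only [Prod.snd_add] at h1
      omega
  · rw [Finset.mem_insert, Finset.mem_insert, Finset.mem_singleton]
    rintro (h | h | h)
    · have h1 := congrArg Prod.fst h
      simp only [Prod.fst_add] at h1
      omega
    · have h1 := congrArg Prod.snd h
      simp only [Prod.snd_add] at h1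
      omega
    · have h1 := congrArg Prod.fst h
      simp only [Prod.fst_add] at h1
      omega

theorem pe_logic (a b c d x y : Prop) [Decidable a] [Decidable b] [Decidable c] [Decidable d]
    [Decidable x] [Decidable y] :
    (((if a then 1 else 0) + (if b then 1 else 0)) + ((if c then 1 else 0) + (if d then 1 else 0)) =
      (if x then (1 : ZMod 2) else 0) + (if y then 1 else 0)) ↔
      (Xor (Xor a b) (Xor c d) ↔ Xor x y) := by
  by_cases a <;> by_cases b <;> by_cases c <;> by_cases d <;> by_cases x <;> by_cases y <;>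
    simp_all [Xor] <;> decide

/-- Parities in terms of the four neighbours. -/
theorem bdy_iff {N : ℕ} {B : Board} (hB : Val N B) {s t : Sq} (hs : Ver N B s s)
    (ht : Ver N B s t) {S : Finset Sq} (hS : S ⊆ Ed N B s) :
    (∀ v, (gr s).bdy S v = chi s t v) ↔
      ∀ v, On N v → Cls s v → (oddN (· ∈ S) v ↔ Xor (v = s) (v = t)) := by
  have key : ∀ v, Cls s v → ((gr s).bdy S v = chi s t v ↔
      (oddN (· ∈ S) v ↔ Xor (v = s) (v = t))) := by
    intro v hv
    rw [pe_bdy hv]
    unfold chi oddN
    exact pe_logic _ _ _ _ _ _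
  constructor
  · intro h v _ hv
    exact (key v hv).1 (h v)
  · intro h v
    by_cases hv : Cls s v ∧ On N v
    · exact (key v hv.1).2 (h v hv.2 hv.1)
    · have h1 : v ≠ s := by
        rintro rfl
        exact hv ⟨hs.1, hs.2.1⟩
      have h2 : v ≠ t := by
        rintro rfl
        exact hv ⟨ht.1, ht.2.1⟩
      have h3 : (gr s).star S v = ∅ := by
        rw [Finset.eq_empty_iff_forall_notMem]
        intro e he
        unfold MG.star at he
        rw [Finset.mem_filter, gr_p, gr_q] at he
        obtain ⟨-, hF1, hF2⟩ := (mem_Ed hB).1 (hS he.1)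
        rcases he.2 with h4 | h4
        · rw [h4] at hF1; exact hv ⟨hF1.1, hF1.2.1⟩
        · rw [h4] at hF2; exact hv ⟨hF2.1, hF2.2.1⟩
      rw [(gr s).bdy_card (fun e _ => pe_ne s e), h3]
      unfold chi
      rw [if_neg h1, if_neg h2]
      simp

end Pool.Agent.CHK
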