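import Pool.Agent.CHK.PlayC
import Pool.Agent.CHK.PlayE
import Pool.Agent.CHK.GrF

set_option autoImplicit false

/-! Soundness of the certificate. -/

namespace Pool.Agent.CHK

/-- The criterion for one class implies that the replies are good for this class. -/
theorem kgd_of_sck {N : ℕ} {B : Board} (hB : Val N B) {s t : Sq} {k : ℤ} {E : Finset Sq}
    (hE : E ⊆ Ed N B s) (h : SCk N B s t k E) {S : Finset Sq}
    (hS : (gr s).Rep E s t ((gr s).star (Ed N B s) t) S) : KGd N B s t k (· ∈ S) :=
  (kgd_finset hB S).2 ((MG.sc_iff (gr s) hE _ _).2 h S hS)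

theorem kgd_of_tyn {N : ℕ} {B : Board} (hB : Val N B) {s t : Sq} {k : ℤ} (h : TyN N B s t k)
    {S : Finset Sq} (hS : (gr s).Rep (Ed N B s) s t ((gr s).star (Ed N B s) t) S) :
    KGd N B s t k (· ∈ S) ∨ KGd N B s t (1 - k) (· ∈ S) := by
  obtain ⟨a, ha, hg, hb, hf⟩ := h
  have haS : a ∉ S := fun h => hb ⟨S, hS, by simpa using h⟩
  by_cases hc : ∀ f ∈ FKs N B s t k, f ≠ a → f ∈ S
  · exact Or.inl ⟨a, hg, haS, fun z hz hza => hc z (mem_FKs.2 hz) hza⟩
  · push Not at hc
    obtain ⟨f, hfF, hfa, hfS⟩ := hc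
    refine Or.inr (kgd_of_sck hB Finset.sdiff_subset (hf f hfF hfa) ?_)
    exact (MG.rep_sdiff (gr s)).2 ⟨hS, by simpa using hfS⟩

theorem kgd_of_par {N : ℕ} {B : Board} (hB : Val N B) {s t : Sq} {k : ℤ} (h : Par N B s t k)
    {S : Finset Sq} (hS : (gr s).Rep (Ed N B s) s t ((gr s).star (Ed N B s) t) S) :
    KGd N B s t k (· ∈ S) ∨ KGd N B s t (1 - k) (· ∈ S) := by
  obtain ⟨a, ha, hg, hat, hF, u, c, hut, hac, hau, hcu, hor, hsc⟩ := h
  by_cases haS : a ∈ S
  · right
    refine kgd_of_sck hB Finset.sdiff_subset hsc ?_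
    refine (MG.rep_sdiff (gr s)).2 ⟨hS, ?_⟩
    rw [Finset.disjoint_singleton_left]
    intro hcS
    have hnl : (gr s).NL S := fun e he => nl_Ed e (hS.sub he)
    have hb := hS.bd u
    rw [(gr s).bdy_card hnl u] at hb
    have hmem : ∀ e, e ∈ (gr s).star S u ↔ e ∈ S ∧ e ∈ (gr s).star (Ed N B s) u := by
      intro e
      simp only [MG.star, Finset.mem_filter]
      constructor
      · rintro ⟨h1, h2⟩
        exact ⟨h1, hS.sub h1, h2⟩
      · rintro ⟨h1, _, h2⟩
        exact ⟨h1, h2⟩
    rcases hor with ⟨hus, hall⟩ | ⟨hus, g, hgt, hgu, hga, hgc, hall⟩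
    · have hst : (gr s).star S u = {a, c} := by
        ext e
        rw [hmem]
        simp only [Finset.mem_insert, Finset.mem_singleton]
        constructor
        · rintro ⟨_, h2⟩
          exact hall e h2
        · rintro (rfl | rfl)
          · exact ⟨haS, hau⟩
          · exact ⟨hcS, hcu⟩
      rw [hst, Finset.card_pair hac] at hb
      simp only [chi, hus, if_true, if_neg (hus ▸ hut)] at hb
      revert hb
      decide
    · have hst : (gr s).star S u = {a, c, g} := by
        ext e
        rw [hmem]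
        simp only [Finset.mem_insert, Finset.mem_singleton]
        constructor
        · rintro ⟨_, h2⟩
          exact hall e h2
        · rintro (rfl | rfl | rfl)
          · exact ⟨haS, hau⟩
          · exact ⟨hcS, hcu⟩
          · exact ⟨hS.pre hgt, hgu⟩
      rw [hst, Finset.card_eq_three.2 ⟨a, c, g, hac, hga.symm, hgc.symm, rfl⟩] at hb
      simp only [chi, if_neg hus, if_neg hut] at hb
      revert hb
      decide
  · left
    refine ⟨a, hg, haS, fun z hz hza => ?_⟩
    rcases hF z (mem_FKs.2 hz) with h | h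
    · exact absurd h hza
    · exact hS.pre h

theorem kgd_of_shr {N : ℕ} {B : Board} {s t : Sq} (h : Shr N B s t)
    {S : Finset Sq} (hS : (gr s).Rep (Ed N B s) s t ((gr s).star (Ed N B s) t) S) :
    KGd N B s t 0 (· ∈ S) ∨ KGd N B s t 1 (· ∈ S) := by
  obtain ⟨a, ha, d, hd, hga, hgd, hat, hdt, hFa, hFd, u, hau, hdu, hD⟩ := h
  by_cases haS : a ∈ S
  · by_cases hdS : d ∈ S
    · exfalso
      have hsub : (gr s).star S u ⊆ (gr s).star (Ed N B s) u := by
        intro e he
        simp only [MG.star, Finset.mem_filter] at he ⊢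
        exact ⟨hS.sub he.1, he.2⟩
      have haD : a ∈ (gr s).star S u := by
        simp only [MG.star, Finset.mem_filter] at hau ⊢
        exact ⟨haS, hau.2⟩
      have hdD : d ∈ (gr s).star S u := by
        simp only [MG.star, Finset.mem_filter] at hdu ⊢
        exact ⟨hdS, hdu.2⟩
      refine hD _ hsub haD hdD ⟨S, (MG.rep_sdiff (gr s)).2 ⟨hS, ?_⟩, fun e he => ?_⟩
      · rw [Finset.disjoint_left]
        intro e he heS
        rw [Finset.mem_sdiff] at he
        apply he.2
        have := he.1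
        simp only [MG.star, Finset.mem_filter] at this ⊢
        exact ⟨heS, this.2⟩
      · simp only [MG.star, Finset.mem_filter] at he
        exact he.1
    · right
      refine ⟨d, hgd, hdS, fun z hz hzd => ?_⟩
      rcases hFd z (mem_FKs.2 hz) with h | h
      · exact absurd h hzd
      · exact hS.pre h
  · left
    refine ⟨a, hga, haS, fun z hz hza => ?_⟩
    rcases hFa z (mem_FKs.2 hz) with h | h
    · exact absurd h hza
    · exact hS.pre h

theorem chk_sound {N : ℕ} {B : Board} (hB : Val N B) {s t : Sq} (hs : B s = some bking)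
    (ht : Ver N B s t) (h : Chk N B s t) {S : Finset Sq}
    (hS : (gr s).Rep (Ed N B s) s t ((gr s).star (Ed N B s) t) S) :
    KGd N B s t 0 (· ∈ S) ∨ KGd N B s t 1 (· ∈ S) := by
  rcases h with h | h | h | h | h | h | h
  · exact Or.inl (kgd_of_sck hB (Finset.Subset.refl _) h hS)
  · exact Or.inr (kgd_of_sck hB (Finset.Subset.refl _) h hS)
  · simpa using kgd_of_tyn hB h hS
  · simpa using (kgd_of_tyn hB h hS).symm
  · simpa using kgd_of_par hB h hS
  · simpa using (kgd_of_par hB h hS).symm
  · exact kgd_of_shr h hS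

end Pool.Agent.CHK
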