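import Pool.Agent.CHK.PlayA
import Pool.Agent.CHK.PlayC
import Pool.Agent.CHK.PlayE
import Pool.Agent.CHK.PlayF
import Pool.Agent.CHK.GrD
import Pool.Agent.CHK.GrE
import Pool.Agent.CHK.GrF
import Pool.Agent.CHK.GeoA
import Pool.Agent.CHK.GeoB
import Pool.Agent.CHK.GeoC

set_option autoImplicit false

/-! Completeness of the certificate. -/

namespace Pool.Agent.CHK

section QD

variable {N : ℕ} {B : Board} {s t : Sq}

/-- A set of edges for which every reply is good for the class `k`. -/
private lemma qd_sc (hB : Val N B) {E : Finset Sq} (hE : E ⊆ Ed N B s) {k : ℤ}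
    (h : ∀ S, (gr s).Rep E s t ((gr s).star (Ed N B s) t) S → KGd N B s t k (· ∈ S)) :
    SCk N B s t k E := by
  refine (MG.sc_iff (gr s) hE _ _).1 fun S hS => ?_
  obtain ⟨w, h1, h2, h3⟩ := (kgd_finset hB S).1 (h S hS)
  exact ⟨w, h1, h2, h3⟩

private lemma qd_FA (hB : Val N B) {k : ℤ} {z : Sq} :
    FA (Col B true) (fun y => Col B false y ∧ y ≠ s) s t k z ↔ z ∈ FKs N B s t k := by
  rw [mem_FKs]
  constructor
  · rintro ⟨h1, h2, d, hd, h3⟩
    refine ⟨?_, h1, h2, d, hd, h3⟩
    obtain ⟨P, hP, _⟩ := h1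
    exact hB z (by rw [hP]; simp)
  · rintro ⟨_, h1, h2, d, hd, h3⟩
    exact ⟨h1, h2, d, hd, h3⟩

/-- A good reply misses exactly one element. -/
private lemma qd_miss (hB : Val N B) {k : ℤ} {S : Finset Sq} (h : KGd N B s t k (· ∈ S)) :
    ∃ w ∈ FKs N B s t k, GK N B s t k w ∧ w ∉ S ∧ ∀ f ∈ FKs N B s t k, f ∉ S → f = w := by
  obtain ⟨w, h1, h2, h3⟩ := (kgd_finset hB S).1 h
  refine ⟨w, h1, h2, ?_, ?_⟩
  · have : w ∈ FKs N B s t k \ S := by rw [h3]; exact Finset.mem_singleton_self _
    exact (Finset.mem_sdiff.1 this).2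
  · intro f hf hfS
    have : f ∈ FKs N B s t k \ S := Finset.mem_sdiff.2 ⟨hf, hfS⟩
    rw [h3] at this
    exact Finset.mem_singleton.1 this

private lemma qd_star (G : MG Sq Sq) {E S : Finset Sq} (hS : S ⊆ E) {v : Sq} :
    G.star S v = (G.star E v).filter (· ∈ S) := by
  ext e
  simp only [MG.star, Finset.mem_filter]
  constructor
  · rintro ⟨h1, h2⟩; exact ⟨⟨hS h1, h2⟩, h1⟩
  · rintro ⟨⟨_, h2⟩, h1⟩; exact ⟨h1, h2⟩

/-- All replies are in the component of `s`. -/
private lemma qd_comp (G : MG Sq Sq) {E S R : Finset Sq} {s t : Sq} (h : G.Rep E s t R S) :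
    S ⊆ G.comp E s := by
  classical
  intro e he
  have h1 := MG.con_of_chi G h.bd
  have h2 := h.con e he
  unfold MG.comp
  rw [Finset.mem_filter]
  exact ⟨h.sub he, (h1.trans h2).mono h.sub⟩

/-- the end of a walk is a vertex -/
private lemma qd_walk_end {F : Sq → Prop} {E : Finset Sq} (G : MG Sq Sq)
    (hE : ∀ e ∈ E, F (G.p e) ∧ F (G.q e)) : ∀ (L : List Sq) (u v : Sq), F u → G.Walk E u L v → F v
  | [], u, v, hu, h => by
    have : u = v := h
    rwa [← this]
  | e :: L, u, v, _, h => by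
    obtain ⟨he, h1 | h1⟩ := h
    · exact qd_walk_end G hE L _ v (hE e he).2 h1.2
    · exact qd_walk_end G hE L _ v (hE e he).1 h1.2

theorem chk_complete {N : ℕ} {B : Board} (hB : Val N B) {s : Sq} (hs : B s = some bking)
    (hne : ((gr s).star (Ed N B s) s).Nonempty)
    (h : ∀ t, Ver N B s t → ∀ S, (gr s).Rep (Ed N B s) s t ((gr s).star (Ed N B s) t) S →
      KGd N B s t 0 (· ∈ S) ∨ KGd N B s t 1 (· ∈ S)) {t : Sq} (ht : Ver N B s t) :
    Chk N B s t := by
  classical
  by_contra hchk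
  unfold Chk at hchk
  push Not at hchk
  obtain ⟨nS0, nS1, nT0, nT1, nP0, nP1, nSh⟩ := hchk
  set G := gr s with hG
  set E := Ed N B s with hEd
  set R := G.star E t with hR
  -- uniform statements
  have nS : ∀ k : ℤ, k = 0 ∨ k = 1 → ¬ SCk N B s t k E := by
    rintro k (rfl | rfl)
    · exact nS0
    · exact nS1
  have nS' : ∀ k : ℤ, k = 0 ∨ k = 1 → ¬ SCk N B s t (1 - k) E := by
    rintro k (rfl | rfl)
    · simpa using nS1
    · simpa using nS0
  have nT : ∀ k : ℤ, k = 0 ∨ k = 1 → ¬ TyN N B s t k := by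
    rintro k (rfl | rfl)
    · exact nT0
    · exact nT1
  have nP : ∀ k : ℤ, k = 0 ∨ k = 1 → ¬ Par N B s t k := by
    rintro k (rfl | rfl)
    · exact nP0
    · exact nP1
  have hor : ∀ k : ℤ, k = 0 ∨ k = 1 → ∀ S, G.Rep E s t R S → ¬ KGd N B s t k (· ∈ S) →
      KGd N B s t (1 - k) (· ∈ S) := by
    rintro k (rfl | rfl) S hS hn
    · rcases h t ht S hS with h1 | h1
      · exact absurd h1 hn
      · simpa using h1
    · rcases h t ht S hS with h1 | h1
      · simpa using h1
      · exact absurd h1 hn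
  -- never good for `k`
  have never : ∀ k : ℤ, k = 0 ∨ k = 1 →
      ¬ ∀ S, G.Rep E s t R S → ¬ KGd N B s t k (· ∈ S) := by
    intro k hk hn
    exact nS' k hk (qd_sc hB (Finset.Subset.refl _) fun S hS => hor k hk S hS (hn S hS))
  -- replies in a smaller edge set
  have hsd : ∀ {D S : Finset Sq}, G.Rep (E \ D) s t R S → G.Rep E s t R S ∧ Disjoint D S :=
    fun {D S} hS => (MG.rep_sdiff G).1 hS
  have tyn : ∀ k : ℤ, k = 0 ∨ k = 1 → ∀ a ∈ FKs N B s t k, GK N B s t k a →
      ¬ ∀ S, G.Rep E s t R S → a ∉ S := by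
    intro k hk a ha hGa hn
    apply nT k hk
    refine ⟨a, ha, hGa, ?_, ?_⟩
    · rintro ⟨S, hS, haS⟩
      exact hn S hS (haS (Finset.mem_singleton_self _))
    · intro f hf hfa
      refine qd_sc hB Finset.sdiff_subset fun S hS => ?_
      obtain ⟨h1, h2⟩ := hsd hS
      refine hor k hk S h1 fun hk' => ?_
      obtain ⟨w, _, _, _, hw⟩ := qd_miss hB hk'
      have e1 := hw a ha (hn S h1)
      have e2 := hw f hf (Finset.disjoint_left.1 h2 (Finset.mem_singleton_self _))
      exact hfa (e2.trans e1.symm)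
  -- (B)
  have hnl : G.NL E := nl_Ed
  obtain ⟨v, L, hL, hvt⟩ : ∃ v L, G.MT E s L v ∧ v ≠ t := by
    by_contra hcon
    push Not at hcon
    have hrep := MG.unique_end G hnl (s := s) (t := t) fun L v hL => hcon v L hL
    have key : ∀ k : ℤ, k = 0 ∨ k = 1 → ¬ KGd N B s t k (· ∈ G.comp E s) := by
      intro k hk hg
      obtain ⟨w, hw1, hw2, hw3, _⟩ := qd_miss hB hg
      exact tyn k hk w hw1 hw2 fun S hS hwS => hw3 (qd_comp G hS hwS)
    rcases h t ht _ hrep with h1 | h1
    · exact key 0 (Or.inl rfl) h1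
    · exact key 1 (Or.inr rfl) h1
  have hS' := MG.rep_of_mt G hnl hL
  set S' := L.toFinset with hS'def
  -- vertices
  have hEdg : ∀ e ∈ E, Ver N B s (G.p e) ∧ Ver N B s (G.q e) := by
    intro e he
    have := (mem_Ed hB).1 he
    rw [hG, gr_p, gr_q]
    exact this.2
  have hsV : Ver N B s s := by
    refine ⟨Cls.refl' s, hB s (by rw [hs]; simp), Or.inr rfl⟩
  have hvV : Ver N B s v := qd_walk_end G hEdg L s v hsV hL.1
  -- (C1)
  have hC1 : ∀ k : ℤ, k = 0 ∨ k = 1 → ∀ f ∈ FKs N B s t k, ∃ S, G.Rep E s t R S ∧ f ∈ S := by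
    intro k hk f hf
    by_contra hcon
    push Not at hcon
    by_cases hGf : GK N B s t k f
    · exact tyn k hk f hf hGf hcon
    · refine never k hk fun S hS hg => ?_
      obtain ⟨w, _, hw2, _, hw4⟩ := qd_miss hB hg
      rw [hw4 f hf (hcon S hS)] at hGf
      exact hGf hw2
  -- (C2)
  have hC2 : ∀ k : ℤ, k = 0 ∨ k = 1 → ∃ a ∈ FKs N B s t k, a ∉ R := by
    intro k hk
    by_contra hcon
    push Not at hcon
    refine never k hk fun S hS hg => ?_
    obtain ⟨w, hw1, _, hw3, _⟩ := qd_miss hB hg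
    exact hw3 (hS.pre (hcon w hw1))
  -- (C3)
  have hC3 : ∀ k : ℤ, k = 0 ∨ k = 1 → ∃ w, GK N B s t k w := by
    intro k hk
    by_contra hcon
    push Not at hcon
    refine never k hk fun S hS hg => ?_
    obtain ⟨w, _, hw2, _, _⟩ := qd_miss hB hg
    exact hcon w hw2
  -- membership in the stars
  have hst : ∀ u e : Sq, e ∈ G.star E u ↔ AtV (Col B true) (Ver N B s) s u e :=
    fun u e => mem_star_Ed hB
  -- the array
  have harr : ∃ (x₀ y₀ : ℤ) (m n : ℕ), 0 < m ∧ 0 < n ∧ ¬ (Even m ∧ Even n) ∧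
      ∀ z, BlT B s t z ↔ ∃ i j : ℕ, i < m ∧ j < n ∧ z = (x₀ + 2 * i, y₀ + 2 * j) := by
    apply array (β := BlT B s t)
    · have hfin : {z : Sq | On N z}.Finite := by
        refine (Finset.finite_toSet (box N)).subset ?_
        intro z hz
        obtain ⟨h1, h2, h3, h4, _⟩ := hz
        simp only [box, Finset.coe_product, Set.mem_prod, Finset.coe_Ico, Set.mem_Ico]
        exact ⟨⟨h1, h2⟩, h3, h4⟩
      refine hfin.subset ?_
      rintro z (⟨⟨P, hP, _⟩, _⟩ | rfl)
      · exact hB z (by rw [hP]; simp)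
      · exact ht.2.1
    · exact ⟨t, Or.inr rfl⟩
    · intro z hz
      obtain ⟨w, P, hP, hPw, ⟨i, j, hw, _⟩, hcov⟩ := hC3 0 (Or.inl rfl)
      obtain ⟨i', j', hz'⟩ := cov_type hcov hz
      refine ⟨i + i' + 1, j + j' + 1, ?_⟩
      rw [hz', hw]
      ext <;> simp <;> ring
    · intro k hk
      obtain ⟨w, P, hP, hPw, hopp, hcov⟩ := hC3 k hk
      obtain ⟨w', hw'⟩ := cov_odd hcov
      refine ⟨w, w', fun z hz hodd => ?_⟩
      have := (hw' z (opp_cls hopp hz)).1 hodd
      rcases this with ⟨h1, _⟩ | ⟨h1, _⟩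
      · exact Or.inl h1
      · exact Or.inr h1
  obtain ⟨x₀, y₀, m, n, hm, hn, hmn, harr⟩ := harr
  -- parity at `v`
  have hpar : ∀ u, On N u → Cls s u → (oddN (· ∈ S') u ↔ Xor (u = s) (u = v)) :=
    (bdy_iff hB hsV hvV hS'.sub).1 hS'.bd
  have hoddv : oddN (· ∈ S') v ↔ oddN (AtV (Col B true) (Ver N B s) s v) v := by
    have key : ∀ d : Sq, Dg d → (v + d ∈ S' ↔ AtV (Col B true) (Ver N B s) s v (v + d)) := by
      intro d hd
      rw [← hst]
      constructor
      · intro h1
        rw [hst]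
        have h2 := hS'.sub h1
        exact ⟨(mem_Ed hB).1 h2, (end_iff hvV.1 hd rfl).1⟩
      · intro h1
        exact hS'.pre h1
    unfold oddN
    beta_reduce
    rw [key (1, 1) ⟨Or.inl rfl, Or.inl rfl⟩, key (-1, -1) ⟨Or.inr rfl, Or.inr rfl⟩,
      key (1, -1) ⟨Or.inl rfl, Or.inr rfl⟩, key (-1, 1) ⟨Or.inr rfl, Or.inl rfl⟩]
  have hparv := hpar v hvV.2.1 hvV.1
  have hgeo := geo (W := Col B true) (F := Ver N B s) (β := fun y => Col B false y ∧ y ≠ s)
    (s := s) (t := t) (v := v)
    (by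
      rintro z ⟨P, hP, hPw⟩ ⟨_, _, h1 | h1⟩
      · rw [hP] at h1; exact absurd h1 (by simp)
      · rw [h1, hs] at hP
        have : P = bking := (Option.some.inj hP).symm
        rw [this] at hPw
        exact absurd hPw (by simp))
    (by
      rintro z ⟨⟨P, hP, _⟩, hzs⟩ ⟨_, _, h1 | h1⟩
      · rw [hP] at h1; exact absurd h1 (by simp)
      · exact hzs h1)
    (by
      rintro z ⟨⟨P, hP, hPw⟩, _⟩ ⟨P', hP', hPw'⟩
      rw [hP] at hP'
      have : P = P' := Option.some.inj hP'
      rw [this, hPw'] at hPw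
      exact absurd hPw (by simp))
    (fun z hz => hz.1) hsV ht hvV hvt hm hn hmn harr
    (by
      intro k hk
      obtain ⟨a, ha, haR⟩ := hC2 k hk
      refine ⟨a, (qd_FA hB).2 ha, ?_, fun h1 => haR ((hst t a).2 h1)⟩
      obtain ⟨S, hS, haS⟩ := hC1 k hk a ha
      exact (mem_Ed hB).1 (hS.sub haS))
    (by
      intro k hk f hf
      obtain ⟨S, hS, haS⟩ := hC1 k hk f ((qd_FA hB).1 hf)
      exact (mem_Ed hB).1 (hS.sub haS))
    (by
      constructor
      · intro hvs
        rw [← hoddv, hparv]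
        exact Or.inr ⟨rfl, hvs⟩
      · intro hvs
        constructor
        · rw [← hoddv, hparv]
          rintro (⟨_, h1⟩ | ⟨_, h1⟩)
          · exact h1 rfl
          · exact h1 hvs
        · obtain ⟨e, he⟩ := hne
          exact ⟨e, by rw [hvs]; exact (hst s e).1 he⟩)
    (by
      have key : ∀ κ : ℤ, κ = 0 ∨ κ = 1 → KGd N B s v κ (· ∈ S') →
          ∃ κ : ℤ, (κ = 0 ∨ κ = 1) ∧ ∃ w w', Opp s κ w ∧ Col B true w ∧
            ¬ AtV (Col B true) (Ver N B s) s v w ∧
            ∀ z, Opp s κ z → (oddN (fun y => (Col B false y ∧ y ≠ s) ∨ y = v) z ↔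
              Xor (z = w) (z = w')) := by
        rintro κ hκ ⟨w, ⟨P, hP, hPw, hopp, hcov⟩, hwS, _⟩
        obtain ⟨w', hw'⟩ := cov_odd hcov
        refine ⟨κ, hκ, w, w', hopp, ⟨P, hP, hPw⟩, fun h1 => hwS (hS'.pre ((hst v w).2 h1)), ?_⟩
        intro z hz
        exact hw' z (opp_cls hopp hz)
      rcases h v hvV S' hS' with h1 | h1
      · exact key 0 (Or.inl rfl) h1
      · exact key 1 (Or.inr rfl) h1)
  -- parities of replies at `t`
  have hcard : ∀ S, G.Rep E s t R S → ∀ u, ((G.star S u).card : ZMod 2) = chi s t u := by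
    intro S hS u
    rw [← MG.bdy_card G (fun e he => hnl e (hS.sub he)) u, hS.bd]
  rcases hgeo with ⟨k, hk, a, ha, u, hus, hut, hau, huni⟩ |
    ⟨k, hk, a, ha, hat, hall, u, c, hut, hac, hau, hcu, hcase⟩ |
    ⟨a, d, ha, hd, hat, hdt, halla, halld, u, hau, hdu⟩
  · -- first alternative
    obtain ⟨S, hS, haS⟩ := hC1 k hk a ((qd_FA hB).1 ha)
    have h1 : G.star S u = {a} := by
      ext e
      rw [qd_star G hS.sub, Finset.mem_filter, Finset.mem_singleton, hst]
      constructor
      · rintro ⟨h1, _⟩; exact huni e h1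
      · rintro rfl; exact ⟨hau, haS⟩
    have h2 := hcard S hS u
    rw [h1, Finset.card_singleton] at h2
    simp [chi, hus, hut] at h2
  · -- second alternative
    have haF := (qd_FA hB).1 ha
    have hallF : ∀ f ∈ FKs N B s t k, f = a ∨ f ∈ R := by
      intro f hf
      rcases hall f ((qd_FA hB).2 hf) with h1 | h1
      · exact Or.inl h1
      · exact Or.inr ((hst t f).2 h1)
    by_cases hGa : GK N B s t k a
    · apply nP k hk
      have hsc : SCk N B s t (1 - k) (E \ {c}) := by
        refine qd_sc hB Finset.sdiff_subset fun S hS => ?_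
        obtain ⟨h1, h2⟩ := hsd hS
        have hcS : c ∉ S := Finset.disjoint_left.1 h2 (Finset.mem_singleton_self _)
        have haS : a ∈ S := by
          by_contra haS
          have h3 := hcard S h1 u
          rcases hcase with ⟨hus, hue⟩ | ⟨hus, g, hgt, hgu, hga, hgc, hue⟩
          · have h4 : G.star S u = ∅ := by
              ext e
              rw [qd_star G h1.sub, Finset.mem_filter, hst]
              constructor
              · rintro ⟨h5, h6⟩
                rcases hue e h5 with rfl | rfl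
                · exact absurd h6 haS
                · exact absurd h6 hcS
              · intro h5; exact absurd h5 (Finset.notMem_empty _)
            rw [h4, hus] at h3
            rw [hus] at hut
            simp [chi, hut] at h3
          · have h4 : G.star S u = {g} := by
              ext e
              rw [qd_star G h1.sub, Finset.mem_filter, hst, Finset.mem_singleton]
              constructor
              · rintro ⟨h5, h6⟩
                rcases hue e h5 with rfl | rfl | rfl
                · exact absurd h6 haS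
                · exact absurd h6 hcS
                · rfl
              · rintro rfl
                exact ⟨hgu, h1.pre ((hst t e).2 hgt)⟩
            rw [h4, Finset.card_singleton] at h3
            simp [chi, hus, hut] at h3
        refine hor k hk S h1 fun hg => ?_
        obtain ⟨w, hw1, _, hw3, _⟩ := qd_miss hB hg
        rcases hallF w hw1 with rfl | h5
        · exact hw3 haS
        · exact hw3 (h1.pre h5)
      refine ⟨a, haF, hGa, fun h1 => hat ((hst t a).1 h1), hallF, u, c, hut, hac,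
        (hst u a).2 hau, (hst u c).2 hcu, ?_, hsc⟩
      rcases hcase with ⟨hus, hue⟩ | ⟨hus, g, hgt, hgu, hga, hgc, hue⟩
      · exact Or.inl ⟨hus, fun e he => hue e ((hst u e).1 he)⟩
      · exact Or.inr ⟨hus, g, (hst t g).2 hgt, (hst u g).2 hgu, hga, hgc,
          fun e he => hue e ((hst u e).1 he)⟩
    · refine never k hk fun S hS hg => ?_
      obtain ⟨w, hw1, hw2, hw3, _⟩ := qd_miss hB hg
      rcases hallF w hw1 with rfl | h5
      · exact hGa hw2
      · exact hw3 (hS.pre h5)
  · -- third alternative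
    have haF := (qd_FA hB).1 ha
    have hdF := (qd_FA hB).1 hd
    have hallA : ∀ f ∈ FKs N B s t 0, f = a ∨ f ∈ R := by
      intro f hf
      rcases halla f ((qd_FA hB).2 hf) with h1 | h1
      · exact Or.inl h1
      · exact Or.inr ((hst t f).2 h1)
    have hallD : ∀ f ∈ FKs N B s t 1, f = d ∨ f ∈ R := by
      intro f hf
      rcases halld f ((qd_FA hB).2 hf) with h1 | h1
      · exact Or.inl h1
      · exact Or.inr ((hst t f).2 h1)
    have hGa : GK N B s t 0 a := by
      by_contra hGa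
      refine never 0 (Or.inl rfl) fun S hS hg => ?_
      obtain ⟨w, hw1, hw2, hw3, _⟩ := qd_miss hB hg
      rcases hallA w hw1 with rfl | h5
      · exact hGa hw2
      · exact hw3 (hS.pre h5)
    have hGd : GK N B s t 1 d := by
      by_contra hGd
      refine never 1 (Or.inr rfl) fun S hS hg => ?_
      obtain ⟨w, hw1, hw2, hw3, _⟩ := qd_miss hB hg
      rcases hallD w hw1 with rfl | h5
      · exact hGd hw2
      · exact hw3 (hS.pre h5)
    apply nSh
    refine ⟨a, haF, d, hdF, hGa, hGd, fun h1 => hat ((hst t a).1 h1),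
      fun h1 => hdt ((hst t d).1 h1), hallA, hallD, u, (hst u a).2 hau, (hst u d).2 hdu, ?_⟩
    rintro D hD haD hdD ⟨S, hS, hDS⟩
    obtain ⟨h1, _⟩ := hsd hS
    rcases h t ht S h1 with hg | hg
    · obtain ⟨w, hw1, _, hw3, _⟩ := qd_miss hB hg
      rcases hallA w hw1 with rfl | h5
      · exact hw3 (hDS haD)
      · exact hw3 (h1.pre h5)
    · obtain ⟨w, hw1, _, hw3, _⟩ := qd_miss hB hg
      rcases hallD w hw1 with rfl | h5
      · exact hw3 (hDS hdD)
      · exact hw3 (h1.pre h5)

/-- The replies of a black king. -/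
theorem repCap_king_iff {N : ℕ} {B : Board} (hB : Val N B) {s : Sq} (hs : B s = some bking) :
    RepCap N B s bking ↔
      (((gr s).star (Ed N B s) s).Nonempty → ∀ t, Ver N B s t → Chk N B s t) := by
  rw [repCap_king hB hs]
  constructor
  · intro h hne t ht
    refine chk_complete hB hs hne (fun t' ht' S hS => ?_) ht
    exact (goodR_iff hB ht'.1 _).1 (h hne t' ht' S hS)
  · intro h hne t ht S hS
    exact (goodR_iff hB ht.1 _).2 (chk_sound hB hs ht (h hne t ht) hS)

end QD

end Pool.Agent.CHK
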