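import Pool.Agent.CHK.DefT
import Pool.Agent.CHK.DefI
import Pool.Agent.CHK.DefD
import Pool.Agent.CHK.DefE
import Pool.Agent.CHK.GeoD
import Pool.Agent.CHK.Fs

set_option autoImplicit false

namespace Pool.Agent.CHK

/-! ### Tools -/

theorem df_mem_box {N : ℕ} {z : Sq} (h : On N z) : z ∈ box N := by
  obtain ⟨h1, h2, h3, h4, -⟩ := h
  unfold box
  rw [Finset.mem_product, Finset.mem_Ico, Finset.mem_Ico]
  exact ⟨⟨h1, h2⟩, h3, h4⟩

theorem df_mem_fs {N : ℕ} {R : ℕ → List ℕ → Prop} {k : ℕ} {z : Sq} :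
    z ∈ fs N R k ↔ sset N R k z := by
  classical
  unfold fs
  rw [Finset.mem_filter]
  exact ⟨fun h => h.2, fun h => ⟨df_mem_box h.1, h⟩⟩

theorem df_sub (l : List ℕ) {P : ℕ → (ℕ → List ℕ → Prop) → (ℕ → ℕ) → Prop} (h : NPd P) :
    NPd (fun N R v => P N R (fun n => v (l.getD (n / 2) 0 + n % 2))) :=
  NPd.sub (fun n _ v => v (l.getD (n / 2) 0 + n % 2)) (fun _ => DT.var _) h

/-- A definable finite set instead of relation number `k`. -/
theorem df_fset (k : ℕ) {A : ℕ → (ℕ → List ℕ → Prop) → (ℕ → ℕ) → Sq → Prop}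
    {Φ : ℕ → (ℕ → List ℕ → Prop) → (ℕ → ℕ) → Finset Sq → Prop}
    (hA : FO (fun N R _ v => A N R (fun i => v (i + 2)) (sq v 0)))
    (hAi : ∀ N R v X, A N (Function.update R k X) v = A N R v)
    (hΦ : NPd (fun N R v => Φ N R v (fs N R k)))
    (hΦi : ∀ N R v X E, Φ N (Function.update R k X) v E ↔ Φ N R v E)
    {F : ℕ → (ℕ → List ℕ → Prop) → (ℕ → ℕ) → Finset Sq}
    (hF : ∀ N R v z, z ∈ F N R v ↔ On N z ∧ A N R v z) :
    NPd (fun N R v => Φ N R v (F N R v)) := by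
  have h1 : FO (fun N R _ v => ∀ z, On N z → (sset N R k z ↔ A N R v z)) :=
    db_allS (Q := fun N R _ v z => sset N R k z ↔ A N R v z) ((db_ss k 0).iff hA)
  refine NPd.congr ?_ (NPd.so k (NPd.and (NPd.fo h1) hΦ))
  intro N R v
  constructor
  · intro h
    obtain ⟨X, hX⟩ := exists_sset (N := N) (fun z => On N z ∧ A N R v z) (fun z hz => hz.1) R k
    refine ⟨X, ?_, ?_⟩
    · intro z hz
      rw [hX, hAi]
      exact ⟨fun h => h.2, fun h => ⟨hz, h⟩⟩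
    · rw [hΦi]
      have e : fs N (Function.update R k X) k = F N R v := by
        ext z
        rw [df_mem_fs, hX, hF]
      rw [e]
      exact h
  · rintro ⟨X, h, h'⟩
    rw [hΦi] at h'
    have e : fs N (Function.update R k X) k = F N R v := by
      ext z
      rw [df_mem_fs, hF]
      constructor
      · intro hz
        have h2 := (h z hz.1).mp hz
        rw [hAi] at h2
        exact ⟨hz.1, h2⟩
      · rintro ⟨hz, h2⟩
        apply (h z hz).mpr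
        rw [hAi]
        exact h2
    rw [e] at h'
    exact h'

/-! ### First-order parts -/

theorem df_isE_iff {W F : Sq → Prop} {s e : Sq} : IsE W F s e ↔
    W e ∧ ((Cls s (e + (1, 1)) ∧ F (e + (1, 1)) ∧ F (e + (-1, -1))) ∨
      (¬ Cls s (e + (1, 1)) ∧ F (e + (1, -1)) ∧ F (e + (-1, 1)))) := by
  unfold IsE dl
  have e1 : e - (1, 1) = e + (-1, -1) := by
    rw [sub_eq_add_neg]
    rfl
  have e2 : e - (1, -1) = e + (-1, 1) := by
    rw [sub_eq_add_neg]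
    rfl
  by_cases h : Cls s (e + (1, 1))
  · simp only [if_pos h, e1]
    tauto
  · simp only [if_neg h, e2]
    tauto

theorem df_atV_iff {W F : Sq → Prop} {s v e : Sq} : AtV W F s v e ↔
    W e ∧ ((Cls s (e + (1, 1)) ∧ (F (e + (1, 1)) ∧ F (e + (-1, -1))) ∧
        (v = e + (1, 1) ∨ v = e + (-1, -1))) ∨
      (¬ Cls s (e + (1, 1)) ∧ (F (e + (1, -1)) ∧ F (e + (-1, 1))) ∧
        (v = e + (1, -1) ∨ v = e + (-1, 1)))) := by
  unfold AtV
  rw [df_isE_iff]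
  unfold dl
  have e1 : e - (1, 1) = e + (-1, -1) := by
    rw [sub_eq_add_neg]
    rfl
  have e2 : e - (1, -1) = e + (-1, 1) := by
    rw [sub_eq_add_neg]
    rfl
  by_cases h : Cls s (e + (1, 1))
  · simp only [if_pos h, e1, eq_comm (a := v)]
    tauto
  · simp only [if_neg h, e2, eq_comm (a := v)]
    tauto

theorem df_cls0 (i j : ℕ) : FO (fun _ _ _ v => Cls (sq v i) (sq v j)) := by
  simpa using FO.cls i j 0

theorem fo_ver (i j : ℕ) (d : Sq) :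
    FO (fun N R _ v => Ver N (bd N R 2) (sq v i) (sq v j + d)) :=
  (FO.cls i j d).and (db_fre 2 i j d)

theorem fo_isE (i j : ℕ) : FO (fun N R _ v => IsE (Col (bd N R 2) true)
    (Ver N (bd N R 2) (sq v i)) (sq v i) (sq v j)) := by
  refine FO.congr (fun N R C v => df_isE_iff) ?_
  exact (db_col0 2 j true).and (((FO.cls i j (1, 1)).and ((fo_ver i j (1, 1)).and
    (fo_ver i j (-1, -1)))).or ((FO.cls i j (1, 1)).not.and ((fo_ver i j (1, -1)).and
    (fo_ver i j (-1, 1)))))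

/-- `sq v j` is an edge at `sq v l` for the king on `sq v i`. -/
theorem fo_atV (i l j : ℕ) : FO (fun N R _ v => AtV (Col (bd N R 2) true)
    (Ver N (bd N R 2) (sq v i)) (sq v i) (sq v l) (sq v j)) := by
  refine FO.congr (fun N R C v => df_atV_iff) ?_
  exact (db_col0 2 j true).and (((FO.cls i j (1, 1)).and (((fo_ver i j (1, 1)).and
    (fo_ver i j (-1, -1))).and ((FO.sq_eq l j (1, 1)).or (FO.sq_eq l j (-1, -1))))).or
    ((FO.cls i j (1, 1)).not.and (((fo_ver i j (1, -1)).and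
    (fo_ver i j (-1, 1))).and ((FO.sq_eq l j (1, -1)).or (FO.sq_eq l j (-1, 1))))))

theorem fo_memEd (i j : ℕ) : FO (fun N R _ v => sq v j ∈ Ed N (bd N R 2) (sq v i)) :=
  FO.congr (fun N R _ _ => mem_Ed (db_val N R 2)) (fo_isE i j)

theorem fo_memStar (i l j : ℕ) : FO (fun N R _ v =>
    sq v j ∈ (gr (sq v i)).star (Ed N (bd N R 2) (sq v i)) (sq v l)) :=
  FO.congr (fun N R _ _ => mem_star_Ed (db_val N R 2)) (fo_atV i l j)

theorem fo_FK (i l j : ℕ) (k : ℤ) : FO (fun N R _ v =>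
    sq v j ∈ FKs N (bd N R 2) (sq v i) (sq v l) k) := by
  refine FO.congr (fun N R _ _ => mem_FKs) ?_
  refine (db_on j).and ((db_col0 2 j true).and (FO.and ?_ (FO.exDg fun d _ => FO.or ?_ ?_)))
  · simpa using FO.opp i j 0 k
  · refine (db_col 2 j d false).and (FO.not ?_)
    exact FO.congr (fun _ _ _ _ => eq_comm) (FO.sq_eq i j d)
  · exact FO.congr (fun _ _ _ _ => eq_comm) (FO.sq_eq l j d)

theorem df_on_Ed {N : ℕ} {B : Board} (hB : Val N B) {s e : Sq} (h : e ∈ Ed N B s) : On N e := by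
  obtain ⟨⟨P, hP, -⟩, -⟩ := (mem_Ed hB).mp h
  exact hB e (by rw [hP]; simp)

theorem df_star_sub {N : ℕ} {B : Board} {s u e : Sq} (h : e ∈ (gr s).star (Ed N B s) u) :
    e ∈ Ed N B s := (Finset.mem_filter.mp h).1

theorem df_on_star {N : ℕ} {B : Board} (hB : Val N B) {s u e : Sq}
    (h : e ∈ (gr s).star (Ed N B s) u) : On N e ∧ On N u := by
  refine ⟨df_on_Ed hB (df_star_sub h), ?_⟩
  obtain ⟨⟨-, h1, h2⟩, h3 | h3⟩ := (mem_star_Ed hB).mp h
  · rw [← h3]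
    exact h1.2.1
  · rw [← h3]
    exact h2.2.1

theorem df_on_FKs {N : ℕ} {B : Board} {s t : Sq} {k : ℤ} {z : Sq} (h : z ∈ FKs N B s t k) :
    On N z := (mem_FKs.mp h).1

theorem df_s_notMem {N : ℕ} {B : Board} (hB : Val N B) {s : Sq} : s ∉ Ed N B s := by
  intro h
  obtain ⟨-, h1, -⟩ := (mem_Ed hB).mp h
  obtain ⟨⟨i, j, h2, -⟩, -⟩ := h1
  have h3 := congrArg Prod.fst h2
  have h4 : (dl s s).1 = 1 := by
    unfold dl
    split_ifs <;> rfl
  rw [Prod.fst_add, h4] at h3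
  simp only at h3
  omega

theorem fo_starNe (i l : ℕ) : FO (fun N R _ v =>
    ((gr (sq v i)).star (Ed N (bd N R 2) (sq v i)) (sq v l)).Nonempty) := by
  have h := db_exS (Q := fun N R _ v e =>
    e ∈ (gr (sq v i)).star (Ed N (bd N R 2) (sq v i)) (sq v l)) (fo_memStar (i + 2) (l + 2) 0)
  refine FO.congr ?_ h
  intro N R C v
  constructor
  · rintro ⟨e, he⟩
    exact ⟨e, (df_on_star (db_val N R 2) he).1, he⟩
  · rintro ⟨e, -, he⟩
    exact ⟨e, he⟩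

theorem fo_fsEd (i : ℕ) : FO (fun N R _ v => fs N R 3 ⊆ Ed N (bd N R 2) (sq v i)) := by
  have h := db_allS (Q := fun N R _ v e => sset N R 3 e → e ∈ Ed N (bd N R 2) (sq v i))
    ((db_ss 3 0).imp (fo_memEd (i + 2) 0))
  refine FO.congr ?_ h
  intro N R C v
  constructor
  · intro h e _ he
    exact h (df_mem_fs.mpr he)
  · intro h e he
    have he := df_mem_fs.mp he
    exact h e he.1 he

/-! ### The three graph predicates -/

/-- `Av` with the side conditions. -/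
def AvP (N : ℕ) (B : Board) (s t : Sq) (E : Finset Sq) : Prop :=
  On N s ∧ Cls s t ∧ Fre N B s t ∧ E ⊆ Ed N B s ∧
    (gr s).Av E s t ((gr s).star (Ed N B s) t)

/-- The negation of `Av` with the side conditions. -/
def NavP (N : ℕ) (B : Board) (s t : Sq) (E : Finset Sq) : Prop :=
  On N s ∧ Cls s t ∧ Fre N B s t ∧ E ⊆ Ed N B s ∧
    ¬ (gr s).Av E s t ((gr s).star (Ed N B s) t)

/-- The negation of `Hb` with the side conditions. -/
def NhbP (N : ℕ) (B : Board) (s t u : Sq) (E D : Finset Sq) : Prop :=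
  On N s ∧ Cls s t ∧ Fre N B s t ∧ E ⊆ Ed N B s ∧ D.Nonempty ∧
    D ⊆ (gr s).star (Ed N B s) u ∧ ((gr s).star (Ed N B s) t).Nonempty ∧
    ¬ (gr s).Hb E s t ((gr s).star (Ed N B s) t) D

/-- The renaming of relation 3 into relation 5. -/
def dfRen : ℕ → ℕ
  | 3 => 5
  | i => i

theorem df_av5 : NPd (fun N R v => AvP N (bd N R 2) (sq v 0) (sq v 2) (fs N R 5)) :=
  NPd.ren dfRen npd_av

theorem df_nav5 : NPd (fun N R v => NavP N (bd N R 2) (sq v 0) (sq v 2) (fs N R 5)) :=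
  NPd.ren dfRen npd_not_av

theorem df_nhb4 : NPd (fun N R v => NhbP N (bd N R 2) (sq v 0) (sq v 2) (sq v 4)
    (fs N R 3) (fs N R 4)) := npd_not_hb

theorem df_bd2 {N : ℕ} {R : ℕ → List ℕ → Prop} {k : ℕ} (h : 2 ≠ k) (X : List ℕ → Prop) :
    bd N (Function.update R k X) 2 = bd N R 2 := bd_update h X

theorem df_fs_update {N : ℕ} {R : ℕ → List ℕ → Prop} {k j : ℕ} (h : j ≠ k)
    (X : List ℕ → Prop) : fs N (Function.update R k X) j = fs N R j := by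
  ext z
  rw [df_mem_fs, df_mem_fs, sset_update h]

theorem df_avM : NPd (fun N R v => AvP N (bd N R 2) (sq v 0) (sq v 2)
    (fs N R 3 \ {sq v 4, sq v 6})) := by
  refine df_fset 5 (A := fun N R v z => sset N R 3 z ∧ ¬ z = sq v 4 ∧ ¬ z = sq v 6)
    (Φ := fun N R v E => AvP N (bd N R 2) (sq v 0) (sq v 2) E)
    ((db_ss 3 0).and ((db_eq 0 6).not.and (db_eq 0 8).not)) ?_ df_av5 ?_
    (F := fun N R v => fs N R 3 \ {sq v 4, sq v 6}) ?_
  · intro N R v X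
    simp only [sset_update (show (3 : ℕ) ≠ 5 by omega)]
  · intro N R v X E
    rw [df_bd2 (by omega)]
  · intro N R v z
    simp only [Finset.mem_sdiff, df_mem_fs, Finset.mem_insert, Finset.mem_singleton, not_or]
    exact ⟨fun h => ⟨h.1.1, h⟩, fun h => h.2⟩

theorem df_navM : NPd (fun N R v => NavP N (bd N R 2) (sq v 0) (sq v 2)
    (fs N R 3 \ {sq v 4, sq v 6})) := by
  refine df_fset 5 (A := fun N R v z => sset N R 3 z ∧ ¬ z = sq v 4 ∧ ¬ z = sq v 6)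
    (Φ := fun N R v E => NavP N (bd N R 2) (sq v 0) (sq v 2) E)
    ((db_ss 3 0).and ((db_eq 0 6).not.and (db_eq 0 8).not)) ?_ df_nav5 ?_
    (F := fun N R v => fs N R 3 \ {sq v 4, sq v 6}) ?_
  · intro N R v X
    simp only [sset_update (show (3 : ℕ) ≠ 5 by omega)]
  · intro N R v X E
    rw [df_bd2 (by omega)]
  · intro N R v z
    simp only [Finset.mem_sdiff, df_mem_fs, Finset.mem_insert, Finset.mem_singleton, not_or]
    exact ⟨fun h => ⟨h.1.1, h⟩, fun h => h.2⟩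

/-- The singleton of a square of the board. -/
theorem df_nhbS : NPd (fun N R v => On N (sq v 4) ∧
    NhbP N (bd N R 2) (sq v 0) (sq v 2) (sq v 6) (fs N R 3) {sq v 4}) := by
  have h : NPd (fun N R v => NhbP N (bd N R 2) (sq v 0) (sq v 2) (sq v 6) (fs N R 3)
      (fs N R 4)) := df_sub [0, 2, 6] df_nhb4
  have h1 : NPd (fun N R v => NhbP N (bd N R 2) (sq v 0) (sq v 2) (sq v 6) (fs N R 3)
      (({sq v 4} : Finset Sq).filter (fun z => z ∈ box N ∧ Even (z.1 + z.2)))) := by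
    refine df_fset 4 (A := fun N R v z => z = sq v 4)
      (Φ := fun N R v D => NhbP N (bd N R 2) (sq v 0) (sq v 2) (sq v 6) (fs N R 3) D)
      (db_eq 0 6) ?_ h ?_
      (F := fun N R v => ({sq v 4} : Finset Sq).filter (fun z => z ∈ box N ∧ Even (z.1 + z.2))) ?_
    · intro N R v X
      rfl
    · intro N R v X E
      rw [df_bd2 (by omega), df_fs_update (by omega)]
    · intro N R v z
      rw [Finset.mem_filter, Finset.mem_singleton, and_comm]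
      refine and_congr_left fun _ => ?_
      unfold box On
      rw [Finset.mem_product, Finset.mem_Ico, Finset.mem_Ico]
      tauto
  refine NPd.congr ?_ (NPd.and (NPd.fo (db_on 4)) h1)
  intro N R v
  refine and_congr_right fun hon => ?_
  have e : (({sq v 4} : Finset Sq).filter (fun z => z ∈ box N ∧ Even (z.1 + z.2))) = {sq v 4} := by
    apply Finset.filter_true_of_mem
    intro z hz
    rw [Finset.mem_singleton] at hz
    subst hz
    exact ⟨df_mem_box hon, hon.2.2.2.2⟩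
  rw [e]

/-! ### The one-class criterion -/

/-- Side conditions. -/
def SideP (N : ℕ) (B : Board) (s t : Sq) (E : Finset Sq) : Prop :=
  On N s ∧ Cls s t ∧ Fre N B s t ∧ ((gr s).star (Ed N B s) t).Nonempty ∧ E ⊆ Ed N B s

theorem fo_side : FO (fun N R _ v => SideP N (bd N R 2) (sq v 0) (sq v 2) (fs N R 3)) :=
  (db_on 0).and (FO.and (by simpa using FO.cls 0 2 0) ((db_fre0 2 0 2).and
    ((fo_starNe 0 2).and (fo_fsEd 0))))

theorem df_sck_iff {N : ℕ} {B : Board} (hB : Val N B) {s t : Sq} {k : ℤ} {E : Finset Sq}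
    (h : SideP N B s t E) : SCk N B s t k E ↔
      NavP N B s t (E \ {s, s}) ∨
      ((∀ f, On N f → ∀ f', On N f' → (f ∈ FKs N B s t k ∧ f' ∈ FKs N B s t k ∧ ¬ f = f') →
          NavP N B s t (E \ {f, f'})) ∧
        (∀ f, On N f → f ∈ FKs N B s t k →
          ((On N s ∧ On N t ∧ GK N B s t k f) ∨ NavP N B s t (E \ {f, f}))) ∧
        ∃ w, On N w ∧ (w ∈ FKs N B s t k ∧ AvP N B s t (E \ {w, w}) ∧
          ((∃ w', On N w' ∧ ((w' ∈ FKs N B s t k ∧ ¬ w' = w) ∧ AvP N B s t (E \ {w', w'}))) ∨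
            ¬ w ∈ E ∨ ∃ u, On N u ∧ (On N w ∧ NhbP N B s t u E {w})))) := by
  obtain ⟨h1, h2, h3, h4, h5⟩ := h
  have eD : ∀ x : Sq, ({x, x} : Finset Sq) = {x} := fun x => Finset.pair_eq_singleton x
  have hav : ∀ D : Finset Sq, AvP N B s t (E \ D) ↔
      (gr s).Av (E \ D) s t ((gr s).star (Ed N B s) t) := fun D =>
    ⟨fun h => h.2.2.2.2, fun h => ⟨h1, h2, h3, Finset.sdiff_subset.trans h5, h⟩⟩
  have hnav : ∀ D : Finset Sq, NavP N B s t (E \ D) ↔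
      ¬ (gr s).Av (E \ D) s t ((gr s).star (Ed N B s) t) := fun D =>
    ⟨fun h => h.2.2.2.2, fun h => ⟨h1, h2, h3, Finset.sdiff_subset.trans h5, h⟩⟩
  have hEs : E \ {s} = E := by
    ext z
    rw [Finset.mem_sdiff, Finset.mem_singleton]
    refine ⟨fun h => h.1, fun h => ⟨h, ?_⟩⟩
    rintro rfl
    exact df_s_notMem hB (h5 h)
  have hnav0 : NavP N B s t E ↔ ¬ (gr s).Av E s t ((gr s).star (Ed N B s) t) :=
    ⟨fun h => h.2.2.2.2, fun h => ⟨h1, h2, h3, h5, h⟩⟩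
  have hnhb : ∀ w, (¬ (gr s).Hb E s t ((gr s).star (Ed N B s) t) {w}) ↔
      (¬ w ∈ E ∨ ∃ u, On N u ∧ (On N w ∧ NhbP N B s t u E {w})) := by
    intro w
    constructor
    · intro h
      by_cases hw : w ∈ E
      · right
        have hE := h5 hw
        have h6 : w ∈ (gr s).star (Ed N B s) (w + dl s w) := by
          rw [mem_star_Ed hB]
          exact ⟨(mem_Ed hB).mp hE, Or.inl rfl⟩
        refine ⟨w + dl s w, (df_on_star hB h6).2, (df_on_star hB h6).1, h1, h2, h3, h5,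
          Finset.singleton_nonempty w, ?_, h4, h⟩
        exact Finset.singleton_subset_iff.mpr h6
      · exact Or.inl hw
    · rintro (h | ⟨u, -, -, h⟩)
      · rintro ⟨S, hS, hw⟩
        exact h (hS.sub (hw (Finset.mem_singleton_self w)))
      · exact h.2.2.2.2.2.2.2
  unfold SCk MG.SC
  simp only [eD, hEs, hav, hnav, hnav0, ← hnhb]
  refine or_congr Iff.rfl (and_congr ?_ (and_congr ?_ ?_))
  · constructor
    · rintro h f _ f' _ ⟨hf, hf', hne⟩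
      exact h f hf f' hf' hne
    · intro h f hf f' hf' hne
      exact h f (df_on_FKs hf) f' (df_on_FKs hf') ⟨hf, hf', hne⟩
  · constructor
    · intro h f _ hf
      rcases h f hf with h6 | h6
      · exact Or.inl ⟨h1, h3.1, h6⟩
      · exact Or.inr h6
    · intro h f hf
      rcases h f (df_on_FKs hf) hf with h6 | h6
      · exact Or.inl h6.2.2
      · exact Or.inr h6
  · constructor
    · rintro ⟨w, hw, h6, h7⟩
      refine ⟨w, df_on_FKs hw, hw, h6, ?_⟩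
      rcases h7 with ⟨w', hw', hne, h7⟩ | h7
      · exact Or.inl ⟨w', df_on_FKs hw', ⟨hw', hne⟩, h7⟩
      · exact Or.inr h7
    · rintro ⟨w, -, hw, h6, h7⟩
      refine ⟨w, hw, h6, ?_⟩
      rcases h7 with ⟨w', -, ⟨hw', hne⟩, h7⟩ | h7
      · exact Or.inl ⟨w', hw', hne, h7⟩
      · exact Or.inr h7

/-- Relation 3 is a set `E` of edges. -/
theorem df_sck (k : ℤ) : NPd (fun N R v => SideP N (bd N R 2) (sq v 0) (sq v 2) (fs N R 3) ∧
    SCk N (bd N R 2) (sq v 0) (sq v 2) k (fs N R 3)) := by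
  have c0 : NPd (fun N R v => NavP N (bd N R 2) (sq v 0) (sq v 2)
      (fs N R 3 \ {sq v 0, sq v 0})) := df_sub [0, 2, 0, 0] df_navM
  have c1 : NPd (fun N R v => ∀ f, On N f → ∀ f', On N f' →
      (f ∈ FKs N (bd N R 2) (sq v 0) (sq v 2) k ∧ f' ∈ FKs N (bd N R 2) (sq v 0) (sq v 2) k ∧
        ¬ f = f') → NavP N (bd N R 2) (sq v 0) (sq v 2) (fs N R 3 \ {f, f'})) := by
    refine db_nallS (P := fun N R v f => ∀ f', On N f' →
      (f ∈ FKs N (bd N R 2) (sq v 0) (sq v 2) k ∧ f' ∈ FKs N (bd N R 2) (sq v 0) (sq v 2) k ∧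
        ¬ f = f') → NavP N (bd N R 2) (sq v 0) (sq v 2) (fs N R 3 \ {f, f'})) ?_
    refine db_nallS (P := fun N R v f' =>
      (sq v 0 ∈ FKs N (bd N R 2) (sq v 2) (sq v 4) k ∧ f' ∈ FKs N (bd N R 2) (sq v 2) (sq v 4) k ∧
        ¬ sq v 0 = f') → NavP N (bd N R 2) (sq v 2) (sq v 4) (fs N R 3 \ {sq v 0, f'})) ?_
    exact NPd.imp ((fo_FK 4 6 2 k).and ((fo_FK 4 6 0 k).and (db_eq 2 0).not))
      (df_sub [4, 6, 2, 0] df_navM)
  have c2 : NPd (fun N R v => ∀ f, On N f → f ∈ FKs N (bd N R 2) (sq v 0) (sq v 2) k →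
      ((On N (sq v 0) ∧ On N (sq v 2) ∧ GK N (bd N R 2) (sq v 0) (sq v 2) k f) ∨
        NavP N (bd N R 2) (sq v 0) (sq v 2) (fs N R 3 \ {f, f}))) := by
    refine db_nallS (P := fun N R v f => f ∈ FKs N (bd N R 2) (sq v 0) (sq v 2) k →
      ((On N (sq v 0) ∧ On N (sq v 2) ∧ GK N (bd N R 2) (sq v 0) (sq v 2) k f) ∨
        NavP N (bd N R 2) (sq v 0) (sq v 2) (fs N R 3 \ {f, f}))) ?_
    exact NPd.imp (fo_FK 2 4 0 k) (NPd.or (df_sub [2, 4, 0] (npd_gk k))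
      (df_sub [2, 4, 0, 0] df_navM))
  have c3 : NPd (fun N R v => ∃ w, On N w ∧ (w ∈ FKs N (bd N R 2) (sq v 0) (sq v 2) k ∧
      AvP N (bd N R 2) (sq v 0) (sq v 2) (fs N R 3 \ {w, w}) ∧
      ((∃ w', On N w' ∧ ((w' ∈ FKs N (bd N R 2) (sq v 0) (sq v 2) k ∧ ¬ w' = w) ∧
        AvP N (bd N R 2) (sq v 0) (sq v 2) (fs N R 3 \ {w', w'}))) ∨
        ¬ w ∈ fs N R 3 ∨ ∃ u, On N u ∧ (On N w ∧
          NhbP N (bd N R 2) (sq v 0) (sq v 2) u (fs N R 3) {w})))) := by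
    refine db_nexS (P := fun N R v w => (w ∈ FKs N (bd N R 2) (sq v 0) (sq v 2) k ∧
      AvP N (bd N R 2) (sq v 0) (sq v 2) (fs N R 3 \ {w, w}) ∧
      ((∃ w', On N w' ∧ ((w' ∈ FKs N (bd N R 2) (sq v 0) (sq v 2) k ∧ ¬ w' = w) ∧
        AvP N (bd N R 2) (sq v 0) (sq v 2) (fs N R 3 \ {w', w'}))) ∨
        ¬ w ∈ fs N R 3 ∨ ∃ u, On N u ∧ (On N w ∧
          NhbP N (bd N R 2) (sq v 0) (sq v 2) u (fs N R 3) {w})))) ?_
    refine NPd.and (NPd.fo (fo_FK 2 4 0 k)) (NPd.and (df_sub [2, 4, 0, 0] df_avM)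
      (NPd.or ?_ (NPd.or (NPd.fo ?_) ?_)))
    · refine db_nexS (P := fun N R v w' =>
        ((w' ∈ FKs N (bd N R 2) (sq v 2) (sq v 4) k ∧ ¬ w' = sq v 0) ∧
          AvP N (bd N R 2) (sq v 2) (sq v 4) (fs N R 3 \ {w', w'}))) ?_
      exact NPd.and (NPd.fo ((fo_FK 4 6 0 k).and (db_eq 0 2).not)) (df_sub [4, 6, 0, 0] df_avM)
    · refine FO.not (FO.congr (fun N R C v => df_mem_fs) (db_ss 3 0))
    · refine db_nexS (P := fun N R v u => (On N (sq v 0) ∧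
          NhbP N (bd N R 2) (sq v 2) (sq v 4) u (fs N R 3) {sq v 0})) ?_
      exact df_sub [4, 6, 2, 0] df_nhbS
  refine NPd.congr ?_ (NPd.and (NPd.fo fo_side) (NPd.or c0 (NPd.and c1 (NPd.and c2 c3))))
  intro N R v
  exact and_congr_right fun h => df_sck_iff (db_val N R 2) h

/-- Relation 3 is a set `E` of edges. -/
theorem npd_sck (k : ℤ) : NPd (fun N R v => Val N (bd N R 2) ∧ On N (sq v 0) ∧
    Cls (sq v 0) (sq v 2) ∧ Fre N (bd N R 2) (sq v 0) (sq v 2) ∧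
    ((gr (sq v 0)).star (Ed N (bd N R 2) (sq v 0)) (sq v 2)).Nonempty ∧
    fs N R 3 ⊆ Ed N (bd N R 2) (sq v 0) ∧
    SCk N (bd N R 2) (sq v 0) (sq v 2) k (fs N R 3)) := by
  refine NPd.congr ?_ (df_sck k)
  intro N R v
  unfold SideP
  have := db_val N R 2
  tauto

/-! ### The certificate -/

/-- Side conditions without edges. -/
def Side0 (N : ℕ) (B : Board) (s t : Sq) : Prop :=
  On N s ∧ Cls s t ∧ Fre N B s t ∧ ((gr s).star (Ed N B s) t).Nonempty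

theorem fo_side0 : FO (fun N R _ v => Side0 N (bd N R 2) (sq v 0) (sq v 2)) :=
  (db_on 0).and (FO.and (by simpa using FO.cls 0 2 0) ((db_fre0 2 0 2).and (fo_starNe 0 2)))

theorem df_scE (k : ℤ) : NPd (fun N R v =>
    SideP N (bd N R 2) (sq v 0) (sq v 2) (Ed N (bd N R 2) (sq v 0) \ {sq v 4}) ∧
    SCk N (bd N R 2) (sq v 0) (sq v 2) k (Ed N (bd N R 2) (sq v 0) \ {sq v 4})) := by
  refine df_fset 3 (A := fun N R v z => z ∈ Ed N (bd N R 2) (sq v 0) ∧ ¬ z = sq v 4)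
    (Φ := fun N R v E => SideP N (bd N R 2) (sq v 0) (sq v 2) E ∧
      SCk N (bd N R 2) (sq v 0) (sq v 2) k E)
    ((fo_memEd 2 0).and (db_eq 0 6).not) ?_ (df_sck k) ?_
    (F := fun N R v => Ed N (bd N R 2) (sq v 0) \ {sq v 4}) ?_
  · intro N R v X
    rw [df_bd2 (by omega)]
  · intro N R v X E
    rw [df_bd2 (by omega)]
  · intro N R v z
    simp only [Finset.mem_sdiff, Finset.mem_singleton]
    exact ⟨fun h => ⟨df_on_Ed (db_val N R 2) h.1, h⟩, fun h => h.2⟩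

theorem df_nhbE : NPd (fun N R v => On N (sq v 4) ∧
    NhbP N (bd N R 2) (sq v 0) (sq v 2) (sq v 6) (Ed N (bd N R 2) (sq v 0)) {sq v 4}) := by
  refine df_fset 3 (A := fun N R v z => z ∈ Ed N (bd N R 2) (sq v 0))
    (Φ := fun N R v E => On N (sq v 4) ∧
      NhbP N (bd N R 2) (sq v 0) (sq v 2) (sq v 6) E {sq v 4})
    (fo_memEd 2 0) ?_ df_nhbS ?_
    (F := fun N R v => Ed N (bd N R 2) (sq v 0)) ?_
  · intro N R v X
    rw [df_bd2 (by omega)]
  · intro N R v X E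
    rw [df_bd2 (by omega)]
  · intro N R v z
    exact ⟨fun h => ⟨df_on_Ed (db_val N R 2) h, h⟩, fun h => h.2⟩

/-- The subset of the star of `u` given by four squares. -/
noncomputable def dfD (N : ℕ) (B : Board) (s u a d e e' : Sq) : Finset Sq :=
  ((gr s).star (Ed N B s) u).filter (fun z => z = a ∨ z = d ∨ z = e ∨ z = e')

theorem df_nhbD : NPd (fun N R v =>
    NhbP N (bd N R 2) (sq v 0) (sq v 2) (sq v 4)
      (Ed N (bd N R 2) (sq v 0) \ ((gr (sq v 0)).star (Ed N (bd N R 2) (sq v 0)) (sq v 4) \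
        dfD N (bd N R 2) (sq v 0) (sq v 4) (sq v 6) (sq v 8) (sq v 10) (sq v 12)))
      (dfD N (bd N R 2) (sq v 0) (sq v 4) (sq v 6) (sq v 8) (sq v 10) (sq v 12))) := by
  have h4 : NPd (fun N R v => NhbP N (bd N R 2) (sq v 0) (sq v 2) (sq v 4) (fs N R 3)
      (dfD N (bd N R 2) (sq v 0) (sq v 4) (sq v 6) (sq v 8) (sq v 10) (sq v 12))) := by
    refine df_fset 4 (A := fun N R v z =>
        z ∈ (gr (sq v 0)).star (Ed N (bd N R 2) (sq v 0)) (sq v 4) ∧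
          (z = sq v 6 ∨ z = sq v 8 ∨ z = sq v 10 ∨ z = sq v 12))
      (Φ := fun N R v D => NhbP N (bd N R 2) (sq v 0) (sq v 2) (sq v 4) (fs N R 3) D)
      ((fo_memStar 2 6 0).and ((db_eq 0 8).or ((db_eq 0 10).or ((db_eq 0 12).or (db_eq 0 14)))))
      ?_ df_nhb4 ?_
      (F := fun N R v => dfD N (bd N R 2) (sq v 0) (sq v 4) (sq v 6) (sq v 8) (sq v 10)
        (sq v 12)) ?_
    · intro N R v X
      rw [df_bd2 (by omega)]
    · intro N R v X E
      rw [df_bd2 (by omega), df_fs_update (by omega)]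
    · intro N R v z
      unfold dfD
      rw [Finset.mem_filter]
      exact ⟨fun h => ⟨(df_on_star (db_val N R 2) h.1).1, h⟩, fun h => h.2⟩
  refine df_fset 3 (A := fun N R v z => z ∈ Ed N (bd N R 2) (sq v 0) ∧
      ¬ (z ∈ (gr (sq v 0)).star (Ed N (bd N R 2) (sq v 0)) (sq v 4) ∧
        ¬ (z ∈ (gr (sq v 0)).star (Ed N (bd N R 2) (sq v 0)) (sq v 4) ∧
          (z = sq v 6 ∨ z = sq v 8 ∨ z = sq v 10 ∨ z = sq v 12))))
    (Φ := fun N R v E => NhbP N (bd N R 2) (sq v 0) (sq v 2) (sq v 4) E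
      (dfD N (bd N R 2) (sq v 0) (sq v 4) (sq v 6) (sq v 8) (sq v 10) (sq v 12)))
    ((fo_memEd 2 0).and (FO.not ((fo_memStar 2 6 0).and (FO.not ((fo_memStar 2 6 0).and
      ((db_eq 0 8).or ((db_eq 0 10).or ((db_eq 0 12).or (db_eq 0 14)))))))))
    ?_ h4 ?_
    (F := fun N R v => (Ed N (bd N R 2) (sq v 0) \
      ((gr (sq v 0)).star (Ed N (bd N R 2) (sq v 0)) (sq v 4) \
        dfD N (bd N R 2) (sq v 0) (sq v 4) (sq v 6) (sq v 8) (sq v 10) (sq v 12)))) ?_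
  · intro N R v X
    rw [df_bd2 (by omega)]
  · intro N R v X E
    rw [df_bd2 (by omega)]
  · intro N R v z
    unfold dfD
    rw [Finset.mem_sdiff, Finset.mem_sdiff, Finset.mem_filter]
    exact ⟨fun h => ⟨df_on_Ed (db_val N R 2) h.1, h⟩, fun h => h.2⟩

/-! #### Type N -/

theorem df_tyN_iff {N : ℕ} {B : Board} (hB : Val N B) {s t : Sq} {k : ℤ}
    (h : Side0 N B s t) : TyN N B s t k ↔
      ∃ a, On N a ∧ (a ∈ FKs N B s t k ∧ (On N s ∧ On N t ∧ GK N B s t k a) ∧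
        (¬ a ∈ Ed N B s ∨ ∃ u, On N u ∧ (On N a ∧ NhbP N B s t u (Ed N B s) {a})) ∧
        ∀ f, On N f → (f ∈ FKs N B s t k ∧ ¬ f = a) →
          (SideP N B s t (Ed N B s \ {f}) ∧ SCk N B s t (1 - k) (Ed N B s \ {f}))) := by
  obtain ⟨h1, h2, h3, h4⟩ := h
  have hnhb : ∀ w, (¬ (gr s).Hb (Ed N B s) s t ((gr s).star (Ed N B s) t) {w}) ↔
      (¬ w ∈ Ed N B s ∨ ∃ u, On N u ∧ (On N w ∧ NhbP N B s t u (Ed N B s) {w})) := by
    intro w
    constructor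
    · intro h
      by_cases hw : w ∈ Ed N B s
      · right
        have h6 : w ∈ (gr s).star (Ed N B s) (w + dl s w) := by
          rw [mem_star_Ed hB]
          exact ⟨(mem_Ed hB).mp hw, Or.inl rfl⟩
        refine ⟨w + dl s w, (df_on_star hB h6).2, (df_on_star hB h6).1, h1, h2, h3,
          Finset.Subset.refl _, Finset.singleton_nonempty w, ?_, h4, h⟩
        exact Finset.singleton_subset_iff.mpr h6
      · exact Or.inl hw
    · rintro (h | ⟨u, -, -, h⟩)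
      · rintro ⟨S, hS, hw⟩
        exact h (hS.sub (hw (Finset.mem_singleton_self w)))
      · exact h.2.2.2.2.2.2.2
  unfold TyN
  simp only [hnhb]
  constructor
  · rintro ⟨a, ha, hg, hn, hf⟩
    exact ⟨a, df_on_FKs ha, ha, ⟨h1, h3.1, hg⟩, hn, fun f _ hff =>
      ⟨⟨h1, h2, h3, h4, Finset.sdiff_subset⟩, hf f hff.1 hff.2⟩⟩
  · rintro ⟨a, -, ha, hg, hn, hf⟩
    exact ⟨a, ha, hg.2.2, hn, fun f hff hne => (hf f (df_on_FKs hff) ⟨hff, hne⟩).2⟩

theorem df_tyN (k : ℤ) : NPd (fun N R v => Side0 N (bd N R 2) (sq v 0) (sq v 2) ∧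
    TyN N (bd N R 2) (sq v 0) (sq v 2) k) := by
  have h1 : NPd (fun N R v => ∃ a, On N a ∧ (a ∈ FKs N (bd N R 2) (sq v 0) (sq v 2) k ∧
      (On N (sq v 0) ∧ On N (sq v 2) ∧ GK N (bd N R 2) (sq v 0) (sq v 2) k a) ∧
        (¬ a ∈ Ed N (bd N R 2) (sq v 0) ∨ ∃ u, On N u ∧ (On N a ∧
          NhbP N (bd N R 2) (sq v 0) (sq v 2) u (Ed N (bd N R 2) (sq v 0)) {a})) ∧
        ∀ f, On N f → (f ∈ FKs N (bd N R 2) (sq v 0) (sq v 2) k ∧ ¬ f = a) →
          (SideP N (bd N R 2) (sq v 0) (sq v 2) (Ed N (bd N R 2) (sq v 0) \ {f}) ∧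
            SCk N (bd N R 2) (sq v 0) (sq v 2) (1 - k) (Ed N (bd N R 2) (sq v 0) \ {f})))) := by
    refine db_nexS (P := fun N R v a => (a ∈ FKs N (bd N R 2) (sq v 0) (sq v 2) k ∧
      (On N (sq v 0) ∧ On N (sq v 2) ∧ GK N (bd N R 2) (sq v 0) (sq v 2) k a) ∧
        (¬ a ∈ Ed N (bd N R 2) (sq v 0) ∨ ∃ u, On N u ∧ (On N a ∧
          NhbP N (bd N R 2) (sq v 0) (sq v 2) u (Ed N (bd N R 2) (sq v 0)) {a})) ∧
        ∀ f, On N f → (f ∈ FKs N (bd N R 2) (sq v 0) (sq v 2) k ∧ ¬ f = a) →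
          (SideP N (bd N R 2) (sq v 0) (sq v 2) (Ed N (bd N R 2) (sq v 0) \ {f}) ∧
            SCk N (bd N R 2) (sq v 0) (sq v 2) (1 - k)
              (Ed N (bd N R 2) (sq v 0) \ {f})))) ?_
    refine NPd.and (NPd.fo (fo_FK 2 4 0 k)) (NPd.and (df_sub [2, 4, 0] (npd_gk k))
      (NPd.and (NPd.or (NPd.fo (fo_memEd 2 0).not) ?_) ?_))
    · refine db_nexS (P := fun N R v u => (On N (sq v 0) ∧
          NhbP N (bd N R 2) (sq v 2) (sq v 4) u (Ed N (bd N R 2) (sq v 2)) {sq v 0})) ?_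
      exact df_sub [4, 6, 2, 0] df_nhbE
    · refine db_nallS (P := fun N R v f =>
        (f ∈ FKs N (bd N R 2) (sq v 2) (sq v 4) k ∧ ¬ f = sq v 0) →
          (SideP N (bd N R 2) (sq v 2) (sq v 4) (Ed N (bd N R 2) (sq v 2) \ {f}) ∧
            SCk N (bd N R 2) (sq v 2) (sq v 4) (1 - k)
              (Ed N (bd N R 2) (sq v 2) \ {f}))) ?_
      exact NPd.imp ((fo_FK 4 6 0 k).and (db_eq 0 2).not) (df_sub [4, 6, 0] (df_scE (1 - k)))
  refine NPd.congr ?_ (NPd.and (NPd.fo fo_side0) h1)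
  intro N R v
  exact and_congr_right fun h => df_tyN_iff (db_val N R 2) h

/-! #### The parity criterion -/

theorem df_par_iff {N : ℕ} {B : Board} (hB : Val N B) {s t : Sq} {k : ℤ}
    (h : Side0 N B s t) : Par N B s t k ↔
      ∃ a, On N a ∧ (a ∈ FKs N B s t k ∧ (On N s ∧ On N t ∧ GK N B s t k a) ∧
        (¬ a ∈ (gr s).star (Ed N B s) t ∧
          ∀ f, On N f → f ∈ FKs N B s t k → (f = a ∨ f ∈ (gr s).star (Ed N B s) t)) ∧
        ∃ u, On N u ∧ ∃ c, On N c ∧ ((¬ u = t ∧ ¬ a = c ∧ a ∈ (gr s).star (Ed N B s) u ∧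
          c ∈ (gr s).star (Ed N B s) u ∧
          ((u = s ∧ ∀ e, On N e → e ∈ (gr s).star (Ed N B s) u → (e = a ∨ e = c)) ∨
            (¬ u = s ∧ ∃ g, On N g ∧ (g ∈ (gr s).star (Ed N B s) t ∧
              g ∈ (gr s).star (Ed N B s) u ∧ ¬ g = a ∧ ¬ g = c ∧
              ∀ e, On N e → e ∈ (gr s).star (Ed N B s) u → (e = a ∨ e = c ∨ e = g))))) ∧
          (SideP N B s t (Ed N B s \ {c}) ∧ SCk N B s t (1 - k) (Ed N B s \ {c})))) := by
  obtain ⟨h1, h2, h3, h4⟩ := h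
  have hon : ∀ {u e : Sq}, e ∈ (gr s).star (Ed N B s) u → On N e := fun h => (df_on_star hB h).1
  unfold Par
  constructor
  · rintro ⟨a, ha, hg, hn, hf, u, c, hu, hac, hau, hcu, hc, hsc⟩
    refine ⟨a, df_on_FKs ha, ha, ⟨h1, h3.1, hg⟩, ⟨hn, fun f _ hff => hf f hff⟩, u,
      (df_on_star hB hau).2, ?_⟩
    refine ⟨c, hon hcu, ⟨hu, hac, hau, hcu, ?_⟩, ⟨h1, h2, h3, h4, Finset.sdiff_subset⟩, hsc⟩
    rcases hc with ⟨hus, hc⟩ | ⟨hus, g, hgt, hgu, hga, hgc, hc⟩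
    · exact Or.inl ⟨hus, fun e _ he => hc e he⟩
    · exact Or.inr ⟨hus, g, hon hgt, hgt, hgu, hga, hgc, fun e _ he => hc e he⟩
  · rintro ⟨a, -, ha, hg, ⟨hn, hf⟩, u, -, c, -, ⟨hu, hac, hau, hcu, hc⟩, -, hsc⟩
    refine ⟨a, ha, hg.2.2, hn, fun f hff => hf f (df_on_FKs hff) hff, u, c, hu, hac, hau, hcu,
      ?_, hsc⟩
    rcases hc with ⟨hus, hc⟩ | ⟨hus, g, -, hgt, hgu, hga, hgc, hc⟩
    · exact Or.inl ⟨hus, fun e he => hc e (hon he) he⟩
    · exact Or.inr ⟨hus, g, hgt, hgu, hga, hgc, fun e he => hc e (hon he) he⟩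

theorem df_par (k : ℤ) : NPd (fun N R v => Side0 N (bd N R 2) (sq v 0) (sq v 2) ∧
    Par N (bd N R 2) (sq v 0) (sq v 2) k) := by
  -- variables `c, u, a, s, t`
  have g1 : FO (fun N R _ v => ∀ e, On N e →
      e ∈ (gr (sq v 6)).star (Ed N (bd N R 2) (sq v 6)) (sq v 2) → (e = sq v 4 ∨ e = sq v 0)) :=
    db_allS (Q := fun N R _ v e =>
      e ∈ (gr (sq v 6)).star (Ed N (bd N R 2) (sq v 6)) (sq v 2) → (e = sq v 4 ∨ e = sq v 0))
      ((fo_memStar 8 4 0).imp ((db_eq 0 6).or (db_eq 0 2)))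
  have g2 : FO (fun N R _ v => ∃ g, On N g ∧
      (g ∈ (gr (sq v 6)).star (Ed N (bd N R 2) (sq v 6)) (sq v 8) ∧
        g ∈ (gr (sq v 6)).star (Ed N (bd N R 2) (sq v 6)) (sq v 2) ∧ ¬ g = sq v 4 ∧
        ¬ g = sq v 0 ∧ ∀ e, On N e →
          e ∈ (gr (sq v 6)).star (Ed N (bd N R 2) (sq v 6)) (sq v 2) →
            (e = sq v 4 ∨ e = sq v 0 ∨ e = g))) := by
    refine db_exS (Q := fun N R _ v g =>
      (g ∈ (gr (sq v 6)).star (Ed N (bd N R 2) (sq v 6)) (sq v 8) ∧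
        g ∈ (gr (sq v 6)).star (Ed N (bd N R 2) (sq v 6)) (sq v 2) ∧ ¬ g = sq v 4 ∧
        ¬ g = sq v 0 ∧ ∀ e, On N e →
          e ∈ (gr (sq v 6)).star (Ed N (bd N R 2) (sq v 6)) (sq v 2) →
            (e = sq v 4 ∨ e = sq v 0 ∨ e = g))) ?_
    refine (fo_memStar 8 10 0).and ((fo_memStar 8 4 0).and ((db_eq 0 6).not.and
      ((db_eq 0 2).not.and ?_)))
    exact db_allS (Q := fun N R _ v e =>
      e ∈ (gr (sq v 8)).star (Ed N (bd N R 2) (sq v 8)) (sq v 4) →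
        (e = sq v 6 ∨ e = sq v 2 ∨ e = sq v 0))
      ((fo_memStar 10 6 0).imp ((db_eq 0 8).or ((db_eq 0 4).or (db_eq 0 2))))
  have g3 : FO (fun N R _ v => (¬ sq v 2 = sq v 8 ∧ ¬ sq v 4 = sq v 0 ∧
      sq v 4 ∈ (gr (sq v 6)).star (Ed N (bd N R 2) (sq v 6)) (sq v 2) ∧
      sq v 0 ∈ (gr (sq v 6)).star (Ed N (bd N R 2) (sq v 6)) (sq v 2) ∧
      ((sq v 2 = sq v 6 ∧ ∀ e, On N e →
        e ∈ (gr (sq v 6)).star (Ed N (bd N R 2) (sq v 6)) (sq v 2) →
          (e = sq v 4 ∨ e = sq v 0)) ∨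
        (¬ sq v 2 = sq v 6 ∧ ∃ g, On N g ∧
      (g ∈ (gr (sq v 6)).star (Ed N (bd N R 2) (sq v 6)) (sq v 8) ∧
        g ∈ (gr (sq v 6)).star (Ed N (bd N R 2) (sq v 6)) (sq v 2) ∧ ¬ g = sq v 4 ∧
        ¬ g = sq v 0 ∧ ∀ e, On N e →
          e ∈ (gr (sq v 6)).star (Ed N (bd N R 2) (sq v 6)) (sq v 2) →
            (e = sq v 4 ∨ e = sq v 0 ∨ e = g)))))) :=
    (db_eq 2 8).not.and ((db_eq 4 0).not.and ((fo_memStar 6 2 4).and
      ((fo_memStar 6 2 0).and (((db_eq 2 6).and g1).or ((db_eq 2 6).not.and g2)))))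
  have h1 : NPd (fun N R v => ∃ a, On N a ∧ (a ∈ FKs N (bd N R 2) (sq v 0) (sq v 2) k ∧
      (On N (sq v 0) ∧ On N (sq v 2) ∧ GK N (bd N R 2) (sq v 0) (sq v 2) k a) ∧
        (¬ a ∈ (gr (sq v 0)).star (Ed N (bd N R 2) (sq v 0)) (sq v 2) ∧
          ∀ f, On N f → f ∈ FKs N (bd N R 2) (sq v 0) (sq v 2) k →
            (f = a ∨ f ∈ (gr (sq v 0)).star (Ed N (bd N R 2) (sq v 0)) (sq v 2))) ∧
        ∃ u, On N u ∧ ∃ c, On N c ∧ ((¬ u = sq v 2 ∧ ¬ a = c ∧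
          a ∈ (gr (sq v 0)).star (Ed N (bd N R 2) (sq v 0)) u ∧
          c ∈ (gr (sq v 0)).star (Ed N (bd N R 2) (sq v 0)) u ∧
          ((u = sq v 0 ∧ ∀ e, On N e →
            e ∈ (gr (sq v 0)).star (Ed N (bd N R 2) (sq v 0)) u → (e = a ∨ e = c)) ∨
            (¬ u = sq v 0 ∧ ∃ g, On N g ∧
              (g ∈ (gr (sq v 0)).star (Ed N (bd N R 2) (sq v 0)) (sq v 2) ∧
              g ∈ (gr (sq v 0)).star (Ed N (bd N R 2) (sq v 0)) u ∧ ¬ g = a ∧ ¬ g = c ∧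
              ∀ e, On N e → e ∈ (gr (sq v 0)).star (Ed N (bd N R 2) (sq v 0)) u →
                (e = a ∨ e = c ∨ e = g))))) ∧
          (SideP N (bd N R 2) (sq v 0) (sq v 2) (Ed N (bd N R 2) (sq v 0) \ {c}) ∧
            SCk N (bd N R 2) (sq v 0) (sq v 2) (1 - k) (Ed N (bd N R 2) (sq v 0) \ {c}))))) := by
    refine db_nexS (P := fun N R v a => (a ∈ FKs N (bd N R 2) (sq v 0) (sq v 2) k ∧
      (On N (sq v 0) ∧ On N (sq v 2) ∧ GK N (bd N R 2) (sq v 0) (sq v 2) k a) ∧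
        (¬ a ∈ (gr (sq v 0)).star (Ed N (bd N R 2) (sq v 0)) (sq v 2) ∧
          ∀ f, On N f → f ∈ FKs N (bd N R 2) (sq v 0) (sq v 2) k →
            (f = a ∨ f ∈ (gr (sq v 0)).star (Ed N (bd N R 2) (sq v 0)) (sq v 2))) ∧
        ∃ u, On N u ∧ ∃ c, On N c ∧ ((¬ u = sq v 2 ∧ ¬ a = c ∧
          a ∈ (gr (sq v 0)).star (Ed N (bd N R 2) (sq v 0)) u ∧
          c ∈ (gr (sq v 0)).star (Ed N (bd N R 2) (sq v 0)) u ∧
          ((u = sq v 0 ∧ ∀ e, On N e →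
            e ∈ (gr (sq v 0)).star (Ed N (bd N R 2) (sq v 0)) u → (e = a ∨ e = c)) ∨
            (¬ u = sq v 0 ∧ ∃ g, On N g ∧
              (g ∈ (gr (sq v 0)).star (Ed N (bd N R 2) (sq v 0)) (sq v 2) ∧
              g ∈ (gr (sq v 0)).star (Ed N (bd N R 2) (sq v 0)) u ∧ ¬ g = a ∧ ¬ g = c ∧
              ∀ e, On N e → e ∈ (gr (sq v 0)).star (Ed N (bd N R 2) (sq v 0)) u →
                (e = a ∨ e = c ∨ e = g))))) ∧
          (SideP N (bd N R 2) (sq v 0) (sq v 2) (Ed N (bd N R 2) (sq v 0) \ {c}) ∧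
            SCk N (bd N R 2) (sq v 0) (sq v 2) (1 - k)
              (Ed N (bd N R 2) (sq v 0) \ {c}))))) ?_
    refine NPd.and (NPd.fo (fo_FK 2 4 0 k)) (NPd.and (df_sub [2, 4, 0] (npd_gk k))
      (NPd.and (NPd.fo ((fo_memStar 2 4 0).not.and ?_)) ?_))
    · exact db_allS (Q := fun N R _ v f => f ∈ FKs N (bd N R 2) (sq v 2) (sq v 4) k →
            (f = sq v 0 ∨ f ∈ (gr (sq v 2)).star (Ed N (bd N R 2) (sq v 2)) (sq v 4)))
        ((fo_FK 4 6 0 k).imp ((db_eq 0 2).or (fo_memStar 4 6 0)))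
    · refine db_nexS (P := fun N R v u => ∃ c, On N c ∧ ((¬ u = sq v 4 ∧ ¬ sq v 0 = c ∧
          sq v 0 ∈ (gr (sq v 2)).star (Ed N (bd N R 2) (sq v 2)) u ∧
          c ∈ (gr (sq v 2)).star (Ed N (bd N R 2) (sq v 2)) u ∧
          ((u = sq v 2 ∧ ∀ e, On N e →
            e ∈ (gr (sq v 2)).star (Ed N (bd N R 2) (sq v 2)) u → (e = sq v 0 ∨ e = c)) ∨
            (¬ u = sq v 2 ∧ ∃ g, On N g ∧
              (g ∈ (gr (sq v 2)).star (Ed N (bd N R 2) (sq v 2)) (sq v 4) ∧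
              g ∈ (gr (sq v 2)).star (Ed N (bd N R 2) (sq v 2)) u ∧ ¬ g = sq v 0 ∧ ¬ g = c ∧
              ∀ e, On N e → e ∈ (gr (sq v 2)).star (Ed N (bd N R 2) (sq v 2)) u →
                (e = sq v 0 ∨ e = c ∨ e = g))))) ∧
          (SideP N (bd N R 2) (sq v 2) (sq v 4) (Ed N (bd N R 2) (sq v 2) \ {c}) ∧
            SCk N (bd N R 2) (sq v 2) (sq v 4) (1 - k)
              (Ed N (bd N R 2) (sq v 2) \ {c})))) ?_
      refine db_nexS (P := fun N R v c => ((¬ sq v 0 = sq v 6 ∧ ¬ sq v 2 = c ∧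
          sq v 2 ∈ (gr (sq v 4)).star (Ed N (bd N R 2) (sq v 4)) (sq v 0) ∧
          c ∈ (gr (sq v 4)).star (Ed N (bd N R 2) (sq v 4)) (sq v 0) ∧
          ((sq v 0 = sq v 4 ∧ ∀ e, On N e →
            e ∈ (gr (sq v 4)).star (Ed N (bd N R 2) (sq v 4)) (sq v 0) →
              (e = sq v 2 ∨ e = c)) ∨
            (¬ sq v 0 = sq v 4 ∧ ∃ g, On N g ∧
              (g ∈ (gr (sq v 4)).star (Ed N (bd N R 2) (sq v 4)) (sq v 6) ∧
              g ∈ (gr (sq v 4)).star (Ed N (bd N R 2) (sq v 4)) (sq v 0) ∧ ¬ g = sq v 2 ∧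
              ¬ g = c ∧ ∀ e, On N e →
                e ∈ (gr (sq v 4)).star (Ed N (bd N R 2) (sq v 4)) (sq v 0) →
                (e = sq v 2 ∨ e = c ∨ e = g))))) ∧
          (SideP N (bd N R 2) (sq v 4) (sq v 6) (Ed N (bd N R 2) (sq v 4) \ {c}) ∧
            SCk N (bd N R 2) (sq v 4) (sq v 6) (1 - k)
              (Ed N (bd N R 2) (sq v 4) \ {c})))) ?_
      exact NPd.and (NPd.fo g3) (df_sub [6, 8, 0] (df_scE (1 - k)))
  refine NPd.congr ?_ (NPd.and (NPd.fo fo_side0) h1)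
  intro N R v
  exact and_congr_right fun h => df_par_iff (db_val N R 2) h

/-! #### The criterion for two edges with a common end -/

theorem df_star_card {N : ℕ} {B : Board} (hB : Val N B) (s u : Sq) :
    ((gr s).star (Ed N B s) u).card ≤ 4 := by
  have h : (gr s).star (Ed N B s) u ⊆
      {u + (1, 1), u + (-1, -1), u + (1, -1), u + (-1, 1)} := by
    intro e he
    obtain ⟨-, h⟩ := (mem_star_Ed hB).mp he
    have h1 : dl s e = (1, 1) ∨ dl s e = (1, -1) := by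
      unfold dl
      split_ifs
      · exact Or.inl rfl
      · exact Or.inr rfl
    simp only [Finset.mem_insert, Finset.mem_singleton]
    rcases h1 with h1 | h1 <;> rw [h1] at h <;> rcases h with h | h <;> rw [← h]
    · right; left
      ext <;> simp
    · left
      ext <;> simp
    · right; right; right
      ext <;> simp
    · right; right; left
      ext <;> simp
  refine (Finset.card_le_card h).trans ?_
  exact Finset.card_le_four

theorem df_dfD {N : ℕ} {B : Board} (hB : Val N B) {s u a d : Sq} (had : a ≠ d) {D : Finset Sq}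
    (hD : D ⊆ (gr s).star (Ed N B s) u) (ha : a ∈ D) (hd : d ∈ D) :
    ∃ e e', On N e ∧ On N e' ∧ D = dfD N B s u a d e e' := by
  have hon : ∀ {e : Sq}, e ∈ D → On N e := fun h => (df_on_star hB (hD h)).1
  have hc : D.card ≤ 4 := (Finset.card_le_card hD).trans (df_star_card hB s u)
  have hsub : ({a, d} : Finset Sq) ⊆ D := by
    intro x hx
    rcases Finset.mem_insert.mp hx with rfl | hx
    · exact ha
    · rw [Finset.mem_singleton] at hx
      subst hx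
      exact hd
  have hc2 : (D \ {a, d}).card ≤ 2 := by
    rw [Finset.card_sdiff_of_subset hsub, Finset.card_pair had]
    omega
  have key : ∃ e e', e ∈ D ∧ e' ∈ D ∧ ∀ x ∈ D \ {a, d}, x = e ∨ x = e' := by
    have h3 : (D \ {a, d}).card = 0 ∨ (D \ {a, d}).card = 1 ∨ (D \ {a, d}).card = 2 := by omega
    rcases h3 with h3 | h3 | h3
    · rw [Finset.card_eq_zero] at h3
      refine ⟨a, a, ha, ha, ?_⟩
      intro x hx
      rw [h3] at hx
      exact absurd hx (Finset.notMem_empty x)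
    · obtain ⟨e, he⟩ := Finset.card_eq_one.mp h3
      have h4 : e ∈ D \ {a, d} := by
        rw [he]
        exact Finset.mem_singleton_self e
      refine ⟨e, e, (Finset.mem_sdiff.mp h4).1, (Finset.mem_sdiff.mp h4).1, ?_⟩
      intro x hx
      rw [he, Finset.mem_singleton] at hx
      exact Or.inl hx
    · obtain ⟨e, e', -, he⟩ := Finset.card_eq_two.mp h3
      have h4 : e ∈ D \ {a, d} := by
        rw [he]
        simp
      have h5 : e' ∈ D \ {a, d} := by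
        rw [he]
        simp
      refine ⟨e, e', (Finset.mem_sdiff.mp h4).1, (Finset.mem_sdiff.mp h5).1, ?_⟩
      intro x hx
      rw [he, Finset.mem_insert, Finset.mem_singleton] at hx
      exact hx
  obtain ⟨e, e', he, he', hx⟩ := key
  refine ⟨e, e', hon he, hon he', ?_⟩
  ext x
  unfold dfD
  rw [Finset.mem_filter]
  constructor
  · intro h
    refine ⟨hD h, ?_⟩
    by_cases h1 : x = a
    · exact Or.inl h1
    · by_cases h2 : x = d
      · exact Or.inr (Or.inl h2)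
      · have h3 : x ∈ D \ {a, d} := by
          rw [Finset.mem_sdiff, Finset.mem_insert, Finset.mem_singleton]
          exact ⟨h, fun h4 => h4.elim h1 h2⟩
        rcases hx x h3 with h4 | h4
        · exact Or.inr (Or.inr (Or.inl h4))
        · exact Or.inr (Or.inr (Or.inr h4))
  · rintro ⟨-, rfl | rfl | rfl | rfl⟩
    · exact ha
    · exact hd
    · exact he
    · exact he'

theorem df_opp_ne {s z y : Sq} (h : Opp s 0 z) (h' : Opp s 1 y) : z ≠ y := by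
  rintro rfl
  obtain ⟨i, j, e, h1⟩ := h
  obtain ⟨i', j', e', h2⟩ := h'
  rw [e] at e'
  have h3 := congrArg Prod.fst e'
  have h4 := congrArg Prod.snd e'
  simp only at h3 h4
  omega

theorem df_shr_iff {N : ℕ} {B : Board} (hB : Val N B) {s t : Sq}
    (h : Side0 N B s t) : Shr N B s t ↔
      ∃ a, On N a ∧ ∃ d, On N d ∧ ((a ∈ FKs N B s t 0 ∧ d ∈ FKs N B s t 1 ∧
        ¬ a ∈ (gr s).star (Ed N B s) t ∧ ¬ d ∈ (gr s).star (Ed N B s) t ∧
        (∀ f, On N f → f ∈ FKs N B s t 0 → (f = a ∨ f ∈ (gr s).star (Ed N B s) t)) ∧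
        (∀ f, On N f → f ∈ FKs N B s t 1 → (f = d ∨ f ∈ (gr s).star (Ed N B s) t))) ∧
        (On N s ∧ On N t ∧ GK N B s t 0 a) ∧ (On N s ∧ On N t ∧ GK N B s t 1 d) ∧
        ∃ u, On N u ∧ ((a ∈ (gr s).star (Ed N B s) u ∧ d ∈ (gr s).star (Ed N B s) u) ∧
          ∀ e, On N e → ∀ e', On N e' →
            NhbP N B s t u (Ed N B s \ ((gr s).star (Ed N B s) u \ dfD N B s u a d e e'))
              (dfD N B s u a d e e'))) := by
  obtain ⟨h1, h2, h3, h4⟩ := h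
  unfold Shr
  constructor
  · rintro ⟨a, ha, d, hd, hga, hgd, hna, hnd, hfa, hfd, u, hau, hdu, hD⟩
    refine ⟨a, df_on_FKs ha, d, df_on_FKs hd, ⟨ha, hd, hna, hnd, fun f _ => hfa f,
      fun f _ => hfd f⟩, ⟨h1, h3.1, hga⟩, ⟨h1, h3.1, hgd⟩, u, (df_on_star hB hau).2, ⟨hau, hdu⟩, ?_⟩
    intro e _ e' _
    have hsub : dfD N B s u a d e e' ⊆ (gr s).star (Ed N B s) u := Finset.filter_subset _ _
    have haD : a ∈ dfD N B s u a d e e' := Finset.mem_filter.mpr ⟨hau, Or.inl rfl⟩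
    have hdD : d ∈ dfD N B s u a d e e' := Finset.mem_filter.mpr ⟨hdu, Or.inr (Or.inl rfl)⟩
    exact ⟨h1, h2, h3, Finset.sdiff_subset, ⟨a, haD⟩, hsub, h4, hD _ hsub haD hdD⟩
  · rintro ⟨a, -, d, -, ⟨ha, hd, hna, hnd, hfa, hfd⟩, hga, hgd, u, -, ⟨hau, hdu⟩, hD⟩
    refine ⟨a, ha, d, hd, hga.2.2, hgd.2.2, hna, hnd, fun f hf => hfa f (df_on_FKs hf) hf,
      fun f hf => hfd f (df_on_FKs hf) hf, u, hau, hdu, ?_⟩
    intro D hDs haD hdD
    have had : a ≠ d := df_opp_ne (mem_FKs.mp ha).2.2.1 (mem_FKs.mp hd).2.2.1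
    obtain ⟨e, e', he, he', hDe⟩ := df_dfD hB had hDs haD hdD
    have h5 := (hD e he e' he').2.2.2.2.2.2.2
    rw [← hDe] at h5
    exact h5

theorem df_shr : NPd (fun N R v => Side0 N (bd N R 2) (sq v 0) (sq v 2) ∧
    Shr N (bd N R 2) (sq v 0) (sq v 2)) := by
  -- variables `d, a, s, t`
  have g1 : FO (fun N R _ v => ∀ f, On N f → f ∈ FKs N (bd N R 2) (sq v 4) (sq v 6) 0 →
      (f = sq v 2 ∨ f ∈ (gr (sq v 4)).star (Ed N (bd N R 2) (sq v 4)) (sq v 6))) :=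
    db_allS (Q := fun N R _ v f => f ∈ FKs N (bd N R 2) (sq v 4) (sq v 6) 0 →
      (f = sq v 2 ∨ f ∈ (gr (sq v 4)).star (Ed N (bd N R 2) (sq v 4)) (sq v 6)))
      ((fo_FK 6 8 0 0).imp ((db_eq 0 4).or (fo_memStar 6 8 0)))
  have g2 : FO (fun N R _ v => ∀ f, On N f → f ∈ FKs N (bd N R 2) (sq v 4) (sq v 6) 1 →
      (f = sq v 0 ∨ f ∈ (gr (sq v 4)).star (Ed N (bd N R 2) (sq v 4)) (sq v 6))) :=
    db_allS (Q := fun N R _ v f => f ∈ FKs N (bd N R 2) (sq v 4) (sq v 6) 1 →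
      (f = sq v 0 ∨ f ∈ (gr (sq v 4)).star (Ed N (bd N R 2) (sq v 4)) (sq v 6)))
      ((fo_FK 6 8 0 1).imp ((db_eq 0 2).or (fo_memStar 6 8 0)))
  have g3 : FO (fun N R _ v => (sq v 2 ∈ FKs N (bd N R 2) (sq v 4) (sq v 6) 0 ∧
      sq v 0 ∈ FKs N (bd N R 2) (sq v 4) (sq v 6) 1 ∧
      ¬ sq v 2 ∈ (gr (sq v 4)).star (Ed N (bd N R 2) (sq v 4)) (sq v 6) ∧
      ¬ sq v 0 ∈ (gr (sq v 4)).star (Ed N (bd N R 2) (sq v 4)) (sq v 6) ∧
      (∀ f, On N f → f ∈ FKs N (bd N R 2) (sq v 4) (sq v 6) 0 →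
        (f = sq v 2 ∨ f ∈ (gr (sq v 4)).star (Ed N (bd N R 2) (sq v 4)) (sq v 6))) ∧
      (∀ f, On N f → f ∈ FKs N (bd N R 2) (sq v 4) (sq v 6) 1 →
        (f = sq v 0 ∨ f ∈ (gr (sq v 4)).star (Ed N (bd N R 2) (sq v 4)) (sq v 6))))) :=
    (fo_FK 4 6 2 0).and ((fo_FK 4 6 0 1).and ((fo_memStar 4 6 2).not.and
      ((fo_memStar 4 6 0).not.and (g1.and g2))))
  have h1 : NPd (fun N R v => ∃ a, On N a ∧ ∃ d, On N d ∧
      ((a ∈ FKs N (bd N R 2) (sq v 0) (sq v 2) 0 ∧ d ∈ FKs N (bd N R 2) (sq v 0) (sq v 2) 1 ∧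
        ¬ a ∈ (gr (sq v 0)).star (Ed N (bd N R 2) (sq v 0)) (sq v 2) ∧
        ¬ d ∈ (gr (sq v 0)).star (Ed N (bd N R 2) (sq v 0)) (sq v 2) ∧
        (∀ f, On N f → f ∈ FKs N (bd N R 2) (sq v 0) (sq v 2) 0 →
          (f = a ∨ f ∈ (gr (sq v 0)).star (Ed N (bd N R 2) (sq v 0)) (sq v 2))) ∧
        (∀ f, On N f → f ∈ FKs N (bd N R 2) (sq v 0) (sq v 2) 1 →
          (f = d ∨ f ∈ (gr (sq v 0)).star (Ed N (bd N R 2) (sq v 0)) (sq v 2)))) ∧
        (On N (sq v 0) ∧ On N (sq v 2) ∧ GK N (bd N R 2) (sq v 0) (sq v 2) 0 a) ∧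
        (On N (sq v 0) ∧ On N (sq v 2) ∧ GK N (bd N R 2) (sq v 0) (sq v 2) 1 d) ∧
        ∃ u, On N u ∧ ((a ∈ (gr (sq v 0)).star (Ed N (bd N R 2) (sq v 0)) u ∧
          d ∈ (gr (sq v 0)).star (Ed N (bd N R 2) (sq v 0)) u) ∧
          ∀ e, On N e → ∀ e', On N e' →
            NhbP N (bd N R 2) (sq v 0) (sq v 2) u (Ed N (bd N R 2) (sq v 0) \
              ((gr (sq v 0)).star (Ed N (bd N R 2) (sq v 0)) u \
                dfD N (bd N R 2) (sq v 0) u a d e e'))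
              (dfD N (bd N R 2) (sq v 0) u a d e e')))) := by
    refine db_nexS (P := fun N R v a => ∃ d, On N d ∧
      ((a ∈ FKs N (bd N R 2) (sq v 0) (sq v 2) 0 ∧ d ∈ FKs N (bd N R 2) (sq v 0) (sq v 2) 1 ∧
        ¬ a ∈ (gr (sq v 0)).star (Ed N (bd N R 2) (sq v 0)) (sq v 2) ∧
        ¬ d ∈ (gr (sq v 0)).star (Ed N (bd N R 2) (sq v 0)) (sq v 2) ∧
        (∀ f, On N f → f ∈ FKs N (bd N R 2) (sq v 0) (sq v 2) 0 →
          (f = a ∨ f ∈ (gr (sq v 0)).star (Ed N (bd N R 2) (sq v 0)) (sq v 2))) ∧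
        (∀ f, On N f → f ∈ FKs N (bd N R 2) (sq v 0) (sq v 2) 1 →
          (f = d ∨ f ∈ (gr (sq v 0)).star (Ed N (bd N R 2) (sq v 0)) (sq v 2)))) ∧
        (On N (sq v 0) ∧ On N (sq v 2) ∧ GK N (bd N R 2) (sq v 0) (sq v 2) 0 a) ∧
        (On N (sq v 0) ∧ On N (sq v 2) ∧ GK N (bd N R 2) (sq v 0) (sq v 2) 1 d) ∧
        ∃ u, On N u ∧ ((a ∈ (gr (sq v 0)).star (Ed N (bd N R 2) (sq v 0)) u ∧
          d ∈ (gr (sq v 0)).star (Ed N (bd N R 2) (sq v 0)) u) ∧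
          ∀ e, On N e → ∀ e', On N e' →
            NhbP N (bd N R 2) (sq v 0) (sq v 2) u (Ed N (bd N R 2) (sq v 0) \
              ((gr (sq v 0)).star (Ed N (bd N R 2) (sq v 0)) u \
                dfD N (bd N R 2) (sq v 0) u a d e e'))
              (dfD N (bd N R 2) (sq v 0) u a d e e')))) ?_
    refine db_nexS (P := fun N R v d =>
      ((sq v 0 ∈ FKs N (bd N R 2) (sq v 2) (sq v 4) 0 ∧ d ∈ FKs N (bd N R 2) (sq v 2) (sq v 4) 1 ∧
        ¬ sq v 0 ∈ (gr (sq v 2)).star (Ed N (bd N R 2) (sq v 2)) (sq v 4) ∧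
        ¬ d ∈ (gr (sq v 2)).star (Ed N (bd N R 2) (sq v 2)) (sq v 4) ∧
        (∀ f, On N f → f ∈ FKs N (bd N R 2) (sq v 2) (sq v 4) 0 →
          (f = sq v 0 ∨ f ∈ (gr (sq v 2)).star (Ed N (bd N R 2) (sq v 2)) (sq v 4))) ∧
        (∀ f, On N f → f ∈ FKs N (bd N R 2) (sq v 2) (sq v 4) 1 →
          (f = d ∨ f ∈ (gr (sq v 2)).star (Ed N (bd N R 2) (sq v 2)) (sq v 4)))) ∧
        (On N (sq v 2) ∧ On N (sq v 4) ∧ GK N (bd N R 2) (sq v 2) (sq v 4) 0 (sq v 0)) ∧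
        (On N (sq v 2) ∧ On N (sq v 4) ∧ GK N (bd N R 2) (sq v 2) (sq v 4) 1 d) ∧
        ∃ u, On N u ∧ ((sq v 0 ∈ (gr (sq v 2)).star (Ed N (bd N R 2) (sq v 2)) u ∧
          d ∈ (gr (sq v 2)).star (Ed N (bd N R 2) (sq v 2)) u) ∧
          ∀ e, On N e → ∀ e', On N e' →
            NhbP N (bd N R 2) (sq v 2) (sq v 4) u (Ed N (bd N R 2) (sq v 2) \
              ((gr (sq v 2)).star (Ed N (bd N R 2) (sq v 2)) u \
                dfD N (bd N R 2) (sq v 2) u (sq v 0) d e e'))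
              (dfD N (bd N R 2) (sq v 2) u (sq v 0) d e e')))) ?_
    refine NPd.and (NPd.fo g3) (NPd.and (df_sub [4, 6, 2] (npd_gk 0))
      (NPd.and (df_sub [4, 6, 0] (npd_gk 1)) ?_))
    refine db_nexS (P := fun N R v u =>
        ((sq v 2 ∈ (gr (sq v 4)).star (Ed N (bd N R 2) (sq v 4)) u ∧
          sq v 0 ∈ (gr (sq v 4)).star (Ed N (bd N R 2) (sq v 4)) u) ∧
          ∀ e, On N e → ∀ e', On N e' →
            NhbP N (bd N R 2) (sq v 4) (sq v 6) u (Ed N (bd N R 2) (sq v 4) \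
              ((gr (sq v 4)).star (Ed N (bd N R 2) (sq v 4)) u \
                dfD N (bd N R 2) (sq v 4) u (sq v 2) (sq v 0) e e'))
              (dfD N (bd N R 2) (sq v 4) u (sq v 2) (sq v 0) e e'))) ?_
    refine NPd.and (NPd.fo ((fo_memStar 6 0 4).and (fo_memStar 6 0 2))) ?_
    refine db_nallS (P := fun N R v e => ∀ e', On N e' →
            NhbP N (bd N R 2) (sq v 6) (sq v 8) (sq v 0) (Ed N (bd N R 2) (sq v 6) \
              ((gr (sq v 6)).star (Ed N (bd N R 2) (sq v 6)) (sq v 0) \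
                dfD N (bd N R 2) (sq v 6) (sq v 0) (sq v 4) (sq v 2) e e'))
              (dfD N (bd N R 2) (sq v 6) (sq v 0) (sq v 4) (sq v 2) e e')) ?_
    refine db_nallS (P := fun N R v e' =>
            NhbP N (bd N R 2) (sq v 8) (sq v 10) (sq v 2) (Ed N (bd N R 2) (sq v 8) \
              ((gr (sq v 8)).star (Ed N (bd N R 2) (sq v 8)) (sq v 2) \
                dfD N (bd N R 2) (sq v 8) (sq v 2) (sq v 6) (sq v 4) (sq v 0) e'))
              (dfD N (bd N R 2) (sq v 8) (sq v 2) (sq v 6) (sq v 4) (sq v 0) e')) ?_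
    exact df_sub [10, 12, 4, 8, 6, 2, 0] df_nhbD
  refine NPd.congr ?_ (NPd.and (NPd.fo fo_side0) h1)
  intro N R v
  exact and_congr_right fun h => df_shr_iff (db_val N R 2) h

/-! #### All together -/

theorem df_sckE (k : ℤ) : NPd (fun N R v => Side0 N (bd N R 2) (sq v 0) (sq v 2) ∧
    SCk N (bd N R 2) (sq v 0) (sq v 2) k (Ed N (bd N R 2) (sq v 0))) := by
  refine NPd.congr ?_ (df_sub [0, 2, 0] (df_scE k))
  intro N R v
  have e1 : Ed N (bd N R 2) (sq v 0) \ {sq v 0} = Ed N (bd N R 2) (sq v 0) := by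
    ext z
    rw [Finset.mem_sdiff, Finset.mem_singleton]
    refine ⟨fun h => h.1, fun h => ⟨h, ?_⟩⟩
    rintro rfl
    exact df_s_notMem (db_val N R 2) h
  change _ ↔ SideP N (bd N R 2) (sq v 0) (sq v 2) (Ed N (bd N R 2) (sq v 0) \ {sq v 0}) ∧
    SCk N (bd N R 2) (sq v 0) (sq v 2) k (Ed N (bd N R 2) (sq v 0) \ {sq v 0})
  rw [e1]
  refine and_congr_left fun _ => ?_
  exact ⟨fun h => ⟨h.1, h.2.1, h.2.2.1, h.2.2.2, Finset.Subset.refl _⟩,
    fun h => ⟨h.1, h.2.1, h.2.2.1, h.2.2.2.1⟩⟩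

theorem npd_chk : NPd (fun N R v => On N (sq v 0) ∧ Cls (sq v 0) (sq v 2) ∧
    Fre N (bd N R 2) (sq v 0) (sq v 2) ∧
    ((gr (sq v 0)).star (Ed N (bd N R 2) (sq v 0)) (sq v 2)).Nonempty ∧
    Chk N (bd N R 2) (sq v 0) (sq v 2)) := by
  refine NPd.congr ?_ (NPd.or (df_sckE 0) (NPd.or (df_sckE 1) (NPd.or (df_tyN 0)
    (NPd.or (df_tyN 1) (NPd.or (df_par 0) (NPd.or (df_par 1) df_shr))))))
  intro N R v
  unfold Chk
  have : (On N (sq v 0) ∧ Cls (sq v 0) (sq v 2) ∧ Fre N (bd N R 2) (sq v 0) (sq v 2) ∧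
      ((gr (sq v 0)).star (Ed N (bd N R 2) (sq v 0)) (sq v 2)).Nonempty) ↔
      Side0 N (bd N R 2) (sq v 0) (sq v 2) := Iff.rfl
  tauto

theorem npd_repKing : NPd (fun N R _ => ∀ s, (bd N R 2) s = some bking →
    RepCap N (bd N R 2) s bking) := by
  have h1 : NPd (fun N R _ => ∀ s, On N s → (bd N R 2 s = some bking ∧
      ((gr s).star (Ed N (bd N R 2) s) s).Nonempty) → ∀ t, On N t →
      ((Cls s t ∧ Fre N (bd N R 2) s t) ∧ ((gr s).star (Ed N (bd N R 2) s) t).Nonempty) →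
      (On N s ∧ Cls s t ∧ Fre N (bd N R 2) s t ∧
        ((gr s).star (Ed N (bd N R 2) s) t).Nonempty ∧ Chk N (bd N R 2) s t)) := by
    refine db_nallS (P := fun N R _ s => (bd N R 2 s = some bking ∧
      ((gr s).star (Ed N (bd N R 2) s) s).Nonempty) → ∀ t, On N t →
      ((Cls s t ∧ Fre N (bd N R 2) s t) ∧ ((gr s).star (Ed N (bd N R 2) s) t).Nonempty) →
      (On N s ∧ Cls s t ∧ Fre N (bd N R 2) s t ∧
        ((gr s).star (Ed N (bd N R 2) s) t).Nonempty ∧ Chk N (bd N R 2) s t)) ?_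
    refine NPd.imp ((db_bd 2 0 (some bking)).and (fo_starNe 0 0)) ?_
    refine db_nallS (P := fun N R v t => ((Cls (sq v 0) t ∧ Fre N (bd N R 2) (sq v 0) t) ∧
      ((gr (sq v 0)).star (Ed N (bd N R 2) (sq v 0)) t).Nonempty) →
      (On N (sq v 0) ∧ Cls (sq v 0) t ∧ Fre N (bd N R 2) (sq v 0) t ∧
        ((gr (sq v 0)).star (Ed N (bd N R 2) (sq v 0)) t).Nonempty ∧
          Chk N (bd N R 2) (sq v 0) t)) ?_
    refine NPd.imp (((df_cls0 2 0).and (db_fre0 2 2 0)).and (fo_starNe 2 0)) ?_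
    exact df_sub [2, 0] npd_chk
  refine NPd.congr ?_ h1
  intro N R v
  have hB := db_val N R 2
  constructor
  · rintro h s hs ⟨hk, hne⟩ t ht ⟨⟨hc, hf⟩, hst⟩
    exact ⟨hs, hc, hf, hst, (repCap_king_iff hB hk).mp (h s hk) hne t ⟨hc, hf⟩⟩
  · intro h s hk
    have hs : On N s := hB s (by rw [hk]; simp)
    rw [repCap_king_iff hB hk]
    intro hne t ht
    by_cases hst : ((gr s).star (Ed N (bd N R 2) s) t).Nonempty
    · exact (h s hs ⟨hk, hne⟩ t ht.2.1 ⟨ht, hst⟩).2.2.2.2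
    · left
      left
      rintro ⟨S, hS, hb, -⟩
      have hts : t ≠ s := by
        rintro rfl
        exact hst hne
      have h2 := hb t
      have h3 : (gr s).bdy S t = 0 := by
        unfold MG.bdy
        apply Finset.sum_eq_zero
        intro e he
        have h4 : e ∉ (gr s).star (Ed N (bd N R 2) s) t := fun h5 => hst ⟨e, h5⟩
        have h5 : ¬ ((gr s).p e = t ∨ (gr s).q e = t) := fun h6 =>
          h4 (Finset.mem_filter.mpr ⟨hS he, h6⟩)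
        rw [not_or] at h5
        rw [if_neg h5.1, if_neg h5.2, add_zero]
      rw [h3] at h2
      unfold chi at h2
      rw [if_neg hts, if_pos rfl, zero_add] at h2
      exact zero_ne_one h2

end Pool.Agent.CHK
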