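import Pool.Agent.CHK.Play
import Pool.Agent.CHK.PlayA

set_option autoImplicit false

/-! Winning captures. -/

namespace Pool.Agent.CHK

/-- Two diagonal directions with both squares in one class are equal or opposite. -/
theorem pb_dg_eq_of_cls {w y d d' : Sq} (hd : Dg d) (hd' : Dg d') (h : Cls w (y + d))
    (h' : Cls w (y + d')) : d = d' ∨ d = -d' := by
  obtain ⟨i, j, e, p⟩ := h
  obtain ⟨i', j', e', p'⟩ := h'
  obtain ⟨y1, y2⟩ := y
  obtain ⟨d1, d2⟩ := d
  obtain ⟨d1', d2'⟩ := d'
  obtain ⟨w1, w2⟩ := w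
  simp only [Prod.mk_add_mk, Prod.mk.injEq, Prod.neg_mk] at *
  simp only [Dg] at hd hd'
  rw [Int.even_iff] at p p'
  omega

theorem pb_not_cls_add {w z d : Sq} (hd : Dg d) (h : Cls w z) : ¬ Cls w (z + d) := by
  rintro ⟨i', j', e', p'⟩
  obtain ⟨i, j, e, p⟩ := h
  obtain ⟨z1, z2⟩ := z
  obtain ⟨d1, d2⟩ := d
  obtain ⟨w1, w2⟩ := w
  simp only [Prod.mk_add_mk, Prod.mk.injEq] at *
  simp only [Dg] at hd
  omega

theorem pb_dg_neg {d : Sq} (hd : Dg d) : Dg (-d) := by
  obtain ⟨d1, d2⟩ := d
  simp only [Dg, Prod.neg_mk] at *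
  omega

theorem pb_cls_add_add {w z d : Sq} (hd : Dg d) (h : Cls w z) : Cls w (z + d + d) := by
  obtain ⟨i, j, e, p⟩ := h
  obtain ⟨z1, z2⟩ := z
  obtain ⟨d1, d2⟩ := d
  obtain ⟨w1, w2⟩ := w
  simp only [Prod.mk.injEq] at e
  simp only [Dg] at hd
  refine ⟨i + d1, j + d2, ?_, ?_⟩
  · simp only [Prod.mk_add_mk, Prod.mk.injEq]
    omega
  · rw [Int.even_iff] at *
    omega

theorem pb_run_strong {D A F : Sq → Prop} (hD : ∀ d, D d → Dg d) {w : Sq} {L : List Sq} :
    ∀ {z t : Sq}, Cls w z → Run D A F z L t →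
      Run D A (fun y => F y ∧ Cls w y ∧ ∃ d, Dg d ∧ A (y + d)) z L t := by
  induction L with
  | nil => intro z t _ h; exact h
  | cons e L ih =>
    intro z t hz h
    obtain ⟨d, hd, he, hA, hF, hr⟩ := h
    have hc : Cls w (e + d) := by rw [he]; exact pb_cls_add_add (hD d hd) hz
    refine ⟨d, hd, he, hA, ⟨hF, hc, -d, pb_dg_neg (hD d hd), ?_⟩, ih hc hr⟩
    rw [add_neg_cancel_right]; exact hA

theorem pb_run_end {D A F : Sq → Prop} {L : List Sq} :
    ∀ {z t : Sq}, L ≠ [] → Run D A F z L t → F t := by
  induction L with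
  | nil => intro z t h; exact absurd rfl h
  | cons e L ih =>
    intro z t _ h
    obtain ⟨d, hd, he, hA, hF, hr⟩ := h
    cases L with
    | nil =>
      have : e + d = t := hr
      rw [← this]; exact hF
    | cons e' L' => exact ih (by simp) hr

/-- The jumped squares are not in the class of the start. -/
theorem pb_cov_not_cls {N : ℕ} {P : Piece} {w : Sq} {β : Sq → Prop} (h : Cov N P w β) {y : Sq}
    (hy : β y) : ¬ Cls w y := by
  obtain ⟨L, t, hr, -, hall⟩ := h
  have hr' := pb_run_strong (fun d hd => dir_dg hd) (Cls.refl' w) hr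
  obtain ⟨-, d, hd, h1, h2⟩ := hr'.mem (hall y hy)
  have hc : Cls w (y + d) := h2.2.1
  intro hcy
  exact pb_not_cls_add (dir_dg hd) hcy hc

theorem win_iff {N : ℕ} {B : Board} (hB : Val N B) (hb : ∃ z, Col B false z) :
    Win N B ↔ ∃ w P, B w = some P ∧ P.white = true ∧ Cov N P w (Col B false) ∧
      ∀ z, EndOf w (Col B false) z → z ≠ w → B z = none := by
  constructor
  · rintro ⟨B', hM, hC⟩
    rcases hM with ⟨w, P, hP, hw, hcap⟩ | ⟨-, z, P, z', hP, hw, P', d, hP', hd, hz', hon, he, hB'⟩
    · obtain ⟨L, t, hne, hr, hnd, -, rfl⟩ := (capture_iff hB hP B').1 hcap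
      have ht := pb_run_end hne hr
      rw [hw] at hr
      have hr0 : Run (Dir P) (Col B false) (Fre N B w) w L t := hr
      have hall : ∀ y, Col B false y → y ∈ L := by
        intro y ⟨Q, hQ, hQw⟩
        by_contra hy
        have hyt : y ≠ t := by
          rintro rfl
          rcases ht.2 with h | h
          · rw [h] at hQ; cases hQ
          · rw [h, hP] at hQ
            cases hQ
            rw [hw] at hQw; cases hQw
        have hyw : y ≠ w := by
          rintro rfl
          rw [hP] at hQ
          cases hQ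
          rw [hw] at hQw; cases hQw
        have hres : res N B w (· ∈ L) t y = some Q := by
          unfold res
          rw [if_neg hy, if_neg hyt, if_neg hyw]; exact hQ
        exact hC y Q hres hQw
      refine ⟨w, P, hP, hw, ⟨L, t, ?_, hnd, hall⟩, ?_⟩
      · exact hr0.mono (fun _ h => h) (fun _ _ h => h) (fun _ h => h.1)
      · rintro z ⟨hcz, d, hd, hβ⟩ hzw
        have hr' := pb_run_strong (fun d hd => dir_dg hd) (Cls.refl' w) hr0
        obtain ⟨-, d', hd', h1, h2⟩ := hr'.mem (hall _ hβ)
        have hz : z = (z + d) + (-d) := by rw [add_neg_cancel_right]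
        have hcz' : Cls w ((z + d) + (-d)) := by rw [← hz]; exact hcz
        rcases pb_dg_eq_of_cls (pb_dg_neg hd) (dir_dg hd') hcz' h2.2.1 with h | h
        · have : Fre N B w z := by
            have h3 := h2.1
            rw [← h, ← hz] at h3
            exact h3
          rcases this.2 with h4 | h4
          · exact h4
          · exact absurd h4 hzw
        · have hzz : z + d - d' = z := by
            rw [sub_eq_add_neg, ← h, ← hz]
          rw [hzz] at h1
          rcases h1 with h1 | h1
          · exact absurd h1 hzw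
          · rcases h1.1.2 with h4 | h4
            · exact h4
            · exact absurd h4 hzw
    · exfalso
      obtain ⟨y, Q, hQ, hQw⟩ := hb
      have hPP : P' = P := by rw [hP] at hP'; cases hP'; rfl
      subst hPP
      have hyz' : y ≠ z' := by rintro rfl; rw [he] at hQ; cases hQ
      have hyz : y ≠ z := by
        rintro rfl; rw [hP] at hQ; cases hQ; rw [hw] at hQw; cases hQw
      have : B' y = some Q := by
        rw [hB', Function.update_of_ne hyz', Function.update_of_ne hyz]; exact hQ
      exact hC y Q this hQw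
  · rintro ⟨w, P, hP, hw, ⟨L, t, hr, hnd, hall⟩, hend⟩
    have hne : L ≠ [] := by
      rintro rfl
      obtain ⟨z, hz⟩ := hb
      simpa using hall z hz
    have hr' := pb_run_strong (fun d hd => dir_dg hd) (Cls.refl' w) hr
    have hr2 : Run (Dir P) (Col B (!P.white)) (Fre N B w) w L t := by
      rw [hw]
      refine hr'.mono (fun _ h => h) (fun _ _ h => h) ?_
      rintro y ⟨hon, hc, d, hd, hβ⟩
      refine ⟨hon, ?_⟩
      by_cases hyw : y = w
      · exact Or.inr hyw
      · exact Or.inl (hend y ⟨hc, d, hd, hβ⟩ hyw)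
    refine ⟨res N B w (· ∈ L) t, Or.inl ⟨w, P, hP, hw, ?_⟩, ?_⟩
    · rw [capture_iff hB hP]
      refine ⟨L, t, hne, hr2, hnd, Or.inr ?_, rfl⟩
      intro d _ hd _
      rw [hw] at hd
      exact hall _ hd
    · intro y P' hy hw'
      unfold res at hy
      by_cases hyL : y ∈ L
      · rw [if_pos hyL] at hy; cases hy
      · rw [if_neg hyL] at hy
        by_cases hyt : y = t
        · rw [if_pos hyt, hP] at hy
          simp only [Option.map_some, Option.some.injEq] at hy
          rw [← hy] at hw'
          unfold arrive at hw'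
          split at hw'
          · simp [hw] at hw'
          · simp [hw] at hw'
        · rw [if_neg hyt] at hy
          by_cases hyw : y = w
          · rw [if_pos hyw] at hy; cases hy
          · rw [if_neg hyw] at hy
            exact hyL (hall y ⟨P', hy, hw'⟩)

theorem pb_arrive_white (N : ℕ) (Q : Piece) (t : Sq) : (arrive N Q t).white = Q.white := by
  unfold arrive
  split <;> rfl

theorem win_res {N : ℕ} {B : Board} (hB : Val N B) {s t : Sq} {Q : Piece} (hs : B s = some Q)
    (hQ : Q.white = false) (ht : Fre N B s t) {S : Sq → Prop} (hS : ∀ y, S y → Col B true y) :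
    Win N (res N B s S t) ↔ GoodR N B s t S := by
  have hSs : ¬ S s := by
    intro h
    obtain ⟨P, hP, hPw⟩ := hS s h
    rw [hs] at hP
    cases hP
    rw [hQ] at hPw; cases hPw
  have hSt : ¬ S t := by
    intro h
    rcases ht.2 with h1 | h1
    · obtain ⟨P, hP, hPw⟩ := hS t h
      rw [h1] at hP; cases hP
    · rw [h1] at h; exact hSs h
  have e1 : ∀ y, S y → res N B s S t y = none := by
    intro y hy
    unfold res; rw [if_pos hy]
  have e2 : res N B s S t t = some (arrive N Q t) := by
    unfold res; rw [if_neg hSt, if_pos rfl, hs]; rfl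
  have e3 : s ≠ t → res N B s S t s = none := by
    intro h
    unfold res; rw [if_neg hSs, if_neg h, if_pos rfl]
  have e4 : ∀ y, ¬ S y → y ≠ t → y ≠ s → res N B s S t y = B y := by
    intro y h1 h2 h3
    unfold res; rw [if_neg h1, if_neg h2, if_neg h3]
  have hval : Val N (res N B s S t) := by
    intro z hz
    by_cases h1 : S z
    · exact absurd (e1 z h1) hz
    by_cases h2 : z = t
    · rw [h2]; exact ht.1
    by_cases h3 : z = s
    · rw [h3] at hz h2; exact absurd (e3 h2) hz
    rw [e4 z h1 h2 h3] at hz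
    exact hB z hz
  have hcol : Col (res N B s S t) false = BlT B s t := by
    funext y
    apply propext
    constructor
    · rintro ⟨P, hP, hPw⟩
      by_cases h1 : S y
      · rw [e1 y h1] at hP; cases hP
      by_cases h2 : y = t
      · exact Or.inr h2
      by_cases h3 : y = s
      · rw [h3] at hP h2; rw [e3 h2] at hP; cases hP
      rw [e4 y h1 h2 h3] at hP
      exact Or.inl ⟨⟨P, hP, hPw⟩, h3⟩
    · rintro (⟨⟨P, hP, hPw⟩, h3⟩ | rfl)
      · by_cases h2 : y = t
        · rw [h2]
          exact ⟨_, e2, by rw [pb_arrive_white]; exact hQ⟩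
        · have h1 : ¬ S y := by
            intro h
            obtain ⟨P', hP', hPw'⟩ := hS y h
            rw [hP] at hP'
            cases hP'
            rw [hPw] at hPw'; cases hPw'
          exact ⟨P, by rw [e4 y h1 h2 h3]; exact hP, hPw⟩
      · exact ⟨_, e2, by rw [pb_arrive_white]; exact hQ⟩
  have hwt : ∀ w P, B w = some P → P.white = true → w ≠ t := by
    rintro w P hP hw rfl
    rcases ht.2 with h1 | h1
    · rw [h1] at hP; cases hP
    · rw [h1, hs] at hP; cases hP; rw [hQ] at hw; cases hw
  have hws : ∀ w P, B w = some P → P.white = true → w ≠ s := by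
    rintro w P hP hw rfl
    rw [hs] at hP; cases hP; rw [hQ] at hw; cases hw
  rw [win_iff hval (by rw [hcol]; exact ⟨t, Or.inr rfl⟩), hcol]
  unfold GoodR
  constructor
  · rintro ⟨w, P, hP, hw, hcov, hend⟩
    have h1 : ¬ S w := by
      intro h; rw [e1 w h] at hP; cases hP
    have h2 : w ≠ t := by
      rintro rfl
      rw [e2] at hP
      cases hP
      rw [pb_arrive_white, hQ] at hw; cases hw
    have h3 : w ≠ s := by
      rintro rfl
      rw [e3 h2] at hP; cases hP
    rw [e4 w h1 h2 h3] at hP
    refine ⟨w, P, hP, hw, h1, hcov, ?_⟩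
    rintro z ⟨P', hP', hw'⟩ hz hzw
    by_contra hSz
    have h4 := hend z hz hzw
    rw [e4 z hSz (hwt z P' hP' hw') (hws z P' hP' hw'), hP'] at h4
    cases h4
  · rintro ⟨w, P, hP, hw, h1, hcov, hend⟩
    refine ⟨w, P, ?_, hw, hcov, ?_⟩
    · rw [e4 w h1 (hwt w P hP hw) (hws w P hP hw)]; exact hP
    · intro z hz hzw
      by_cases hSz : S z
      · exact e1 z hSz
      by_cases h2 : z = t
      · exact absurd hz.1 (pb_cov_not_cls hcov (Or.inr h2))
      by_cases h3 : z = s
      · rw [h3] at h2 ⊢; exact e3 h2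
      rw [e4 z hSz h2 h3]
      cases hBz : B z with
      | none => rfl
      | some P' =>
        exfalso
        cases hP'w : P'.white with
        | true => exact hSz (hend z ⟨P', hBz, hP'w⟩ hz hzw)
        | false => exact pb_cov_not_cls hcov (Or.inl ⟨⟨P', hBz, hP'w⟩, h3⟩) hz.1

theorem pb_step_board {N : ℕ} {B : Board} {s z' : Sq} {Q : Piece} (hs : B s = some Q)  :
    Function.update (Function.update B s none) z' (some (arrive N Q z')) =
      res N B s (fun _ => False) z' := by
  funext y
  unfold res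
  rw [if_neg not_false]
  by_cases h : y = z'
  · rw [h, Function.update_self, if_pos rfl, hs]; rfl
  · rw [Function.update_of_ne h, if_neg h]
    by_cases h2 : y = s
    · rw [h2, Function.update_self, if_pos rfl]
    · rw [Function.update_of_ne h2, if_neg h2]

theorem allRep_iff {N : ℕ} {B : Board} (hB : Val N B) :
    AllRep N B ↔ (∀ s Q, B s = some Q → Q.white = false → RepCap N B s Q) ∧
      (CanCap N B ∨ RepStep N B) := by
  have hmem : ∀ {Q : Piece} {s t : Sq} {L : List Sq},
      Run (Dir Q) (Col B true) (Fre N B s) s L t → ∀ y, y ∈ L → Col B true y :=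
    fun hr y hy => (hr.mem hy).1
  constructor
  · intro h
    refine ⟨?_, ?_⟩
    · intro s Q hs hQ L t hne hr hnd hend
      have hcap : Capture N true B s (res N B s (· ∈ L) t) := by
        rw [capture_iff hB hs]
        refine ⟨L, t, hne, ?_, hnd, ?_, rfl⟩
        · rw [hQ]; exact hr
        · rw [hQ]; exact hend
      have hW := h _ (Or.inl ⟨s, Q, hs, hQ, hcap⟩)
      exact (win_res hB hs hQ (pb_run_end hne hr) (hmem hr)).1 hW
    · by_cases hc : CanCap N B
      · exact Or.inl hc
      · refine Or.inr ?_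
        intro s Q d hs hQ hd hon hnone
        have hstep : Step N B s (s + d) (res N B s (fun _ => False) (s + d)) :=
          ⟨Q, d, hs, hd, rfl, hon, hnone, (pb_step_board hs).symm⟩
        have hW := h _ (Or.inr ⟨?_, s, Q, s + d, hs, hQ, hstep⟩)
        · exact (win_res hB hs hQ ⟨hon, Or.inl hnone⟩ (fun _ h => h.elim)).1 hW
        · rintro z P z' B₁ hz hP ⟨P', Q', d', hP', hd', hQ', hne, rfl, hon', hnone', -⟩
          apply hc
          rw [hz] at hP'
          cases hP'
          refine ⟨z, P, d', hz, hP, hd', ⟨Q', hQ', ?_⟩, hon', hnone'⟩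
          rw [hP] at hne
          simpa using hne
  · rintro ⟨h1, h2⟩ B' hM
    rcases hM with ⟨s, Q, hs, hQ, hcap⟩ | ⟨hno, s, Q, z', hs, hQ, P, d, hP, hd, rfl, hon, hnone, hB'⟩
    · obtain ⟨L, t, hne, hr, hnd, hend, rfl⟩ := (capture_iff hB hs B').1 hcap
      rw [hQ] at hr hend
      exact (win_res hB hs hQ (pb_run_end hne hr) (hmem hr)).2 (h1 s Q hs hQ L t hne hr hnd hend)
    · rw [hs] at hP
      cases hP
      rw [hB', pb_step_board hs]
      refine (win_res hB hs hQ ⟨hon, Or.inl hnone⟩ (fun _ h => h.elim)).2 ?_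
      rcases h2 with ⟨z, P, d', hz, hP, hd', ⟨Q', hQ', hQw⟩, hon', hnone'⟩ | h2
      · exact absurd ⟨P, Q', d', hz, hd', hQ', by rw [hQw, hP]; simp, rfl, hon', hnone', rfl⟩
          (hno z P (z + d' + d') _ hz hP)
      · exact h2 s Q d hs hQ hd hon hnone

end Pool.Agent.CHK
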