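import Pool.Agent.CHK.SodC
import Pool.Agent.CHK.PlayB
import Pool.Agent.CHK.DefI
import Pool.Agent.CHK.DefB
import Pool.Agent.CHK.DefC
import Pool.Agent.CHK.DefF

set_option autoImplicit false

/-! # Assembly: all replies, mate in 2 -/

namespace Pool.Agent.CHK

theorem dg_jump_val {N : ℕ} {B B' : Board} {z z' : Sq} (hB : Val N B) (h : Jump N B z z' B') :
    Val N B' := by
  obtain ⟨P, Q, d, hP, -, hQ, -, hz', hon, -, rfl⟩ := h
  intro y hy
  by_cases h1 : y = z'
  · rw [h1]; exact hon
  rw [Function.update_of_ne h1] at hy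
  by_cases h2 : y = z + d
  · rw [h2, Function.update_self] at hy
    exact absurd rfl hy
  rw [Function.update_of_ne h2] at hy
  by_cases h3 : y = z
  · rw [h3, Function.update_self] at hy
    exact absurd rfl hy
  rw [Function.update_of_ne h3] at hy
  exact hB y hy

theorem dg_capture_val {N : ℕ} {stop : Bool} {B B' : Board} {z : Sq}
    (h : Capture N stop B z B') : Val N B → Val N B' := by
  induction h with
  | last h _ => exact fun hB => dg_jump_val hB h
  | next h _ _ ih => exact fun hB => ih (dg_jump_val hB h)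

theorem dg_step_val {N : ℕ} {B B' : Board} {z z' : Sq} (hB : Val N B) (h : Step N B z z' B') :
    Val N B' := by
  obtain ⟨P, d, -, -, -, hon, -, rfl⟩ := h
  intro y hy
  by_cases h1 : y = z'
  · rw [h1]; exact hon
  rw [Function.update_of_ne h1] at hy
  by_cases h3 : y = z
  · rw [h3, Function.update_self] at hy
    exact absurd rfl hy
  rw [Function.update_of_ne h3] at hy
  exact hB y hy

theorem dg_move_val {N : ℕ} {stop c : Bool} {B B' : Board} (hB : Val N B)
    (h : Move N stop c B B') : Val N B' := by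
  rcases h with ⟨z, P, -, -, h⟩ | ⟨-, z, P, z', -, -, h⟩
  · exact dg_capture_val h hB
  · exact dg_step_val hB h

theorem npd_allRep : NPd (fun N R _ => AllRep N (bd N R 2)) := by
  refine NPd.congr (P' := fun N R _ =>
    ((∀ s, (bd N R 2) s = some bman → RepCap N (bd N R 2) s bman) ∧
      (∀ s, (bd N R 2) s = some bking → RepCap N (bd N R 2) s bking)) ∧
      (CanCap N (bd N R 2) ∨ RepStep N (bd N R 2))) ?_
    (NPd.and (NPd.and npd_repMan npd_repKing) (NPd.or (NPd.fo fo_canCap) npd_repStep))
  intro N R v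
  rw [allRep_iff (val_bd N R 2)]
  refine and_congr_left fun _ => ⟨fun h => ⟨fun s hs => ?_, fun s hs => ?_⟩, fun h s Q hs hQ => ?_⟩
  · exact h s bman hs rfl
  · exact h s bking hs rfl
  · obtain ⟨w, k⟩ := Q
    obtain rfl : w = false := hQ
    cases k
    · exact h.1 s hs
    · exact h.2 s hs

theorem npd_mate : NPd (fun N R _ => MateIn2 N true true (bd N R 0)) := by
  refine NPd.congr (P' := fun N R v => ∃ X : List ℕ → Prop,
    (fun N R (_ : ℕ → ℕ) => Move N true true (bd N R 0) (bd N R 2) ∧ AllRep N (bd N R 2)) N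
      (Function.update R 2 X) v) ?_ (NPd.so 2 (NPd.and npd_move npd_allRep))
  intro N R v
  constructor
  swap
  · rintro ⟨X, h1, h2⟩
    rw [bd_update (by norm_num)] at h1
    exact ⟨_, h1, h2⟩
  · rintro ⟨B₁, h1, h2⟩
    obtain ⟨X, hX⟩ := exists_bd B₁ (dg_move_val (val_bd N R 0) h1) R 2
    refine ⟨X, ?_, ?_⟩
    · show Move N true true (bd N (Function.update R 2 X) 0) (bd N (Function.update R 2 X) 2)
      rw [bd_update (by norm_num), hX]
      exact h1
    · show AllRep N (bd N (Function.update R 2 X) 2)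
      rw [hX]
      exact h2

end Pool.Agent.CHK
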