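import Mathlib

set_option autoImplicit false

/-! Generalised checkers (American checkers on an `N` by `N` board) and mate in 2. -/

namespace Pool.Agent.CHK

/-- Squares: column and row. -/
abbrev Sq := ℤ × ℤ

/-- A piece: `white` tells whose it is, `king` whether it is a king or a man. -/
structure Piece where
  white : Bool
  king : Bool
deriving DecidableEq

/-- A placement of pieces on squares. -/
abbrev Board := Sq → Option Piece

/-- `z` is a dark square of the `N` by `N` board. -/
def On (N : ℕ) (z : Sq) : Prop := 0 ≤ z.1 ∧ z.1 < N ∧ 0 ≤ z.2 ∧ z.2 < N ∧ Even (z.1 + z.2)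

/-- The forward direction: White moves up, Black moves down. -/
def fwd (white : Bool) : ℤ := if white then 1 else -1

/-- The far row. -/
def far (N : ℕ) (white : Bool) : ℤ := if white then (N : ℤ) - 1 else 0

/-- The diagonal directions in which the piece moves and jumps. -/
def Dir (P : Piece) (d : Sq) : Prop :=
  (d.1 = 1 ∨ d.1 = -1) ∧ (d.2 = fwd P.white ∨ P.king = true ∧ d.2 = -fwd P.white)

/-- The piece which arrives at `z`: a man which reaches the far row becomes a king. -/
def arrive (N : ℕ) (P : Piece) (z : Sq) : Piece :=
  if z.2 = far N P.white then ⟨P.white, true⟩ else P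

/-- A move of the piece on `z` to the diagonally adjacent empty square `z'`. -/
def Step (N : ℕ) (B : Board) (z z' : Sq) (B' : Board) : Prop :=
  ∃ (P : Piece) (d : Sq), B z = some P ∧ Dir P d ∧ z' = z + d ∧ On N z' ∧ B z' = none ∧
    B' = Function.update (Function.update B z none) z' (some (arrive N P z'))

/-- A jump of the piece on `z` over an adjacent opposing piece to the empty square `z'`. -/
def Jump (N : ℕ) (B : Board) (z z' : Sq) (B' : Board) : Prop :=
  ∃ (P Q : Piece) (d : Sq), B z = some P ∧ Dir P d ∧ B (z + d) = some Q ∧ Q.white ≠ P.white ∧
    z' = z + d + d ∧ On N z' ∧ B z' = none ∧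
    B' = Function.update (Function.update (Function.update B z none) (z + d) none) z'
      (some (arrive N P z'))

/-- `Capture N stop B z B'`: a complete capture sequence of the piece on `z` leads from `B` to
`B'`. It ends when no further jump is available and, if `stop` is true (the American rule), also
when a man has become a king. -/
inductive Capture (N : ℕ) (stop : Bool) : Board → Sq → Board → Prop
  | last {B B' : Board} {z z' : Sq} (h : Jump N B z z' B')
      (h' : (stop = true ∧ B' z' ≠ B z) ∨ ∀ z'' B'', ¬ Jump N B' z' z'' B'') :
      Capture N stop B z B'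
  | next {B B₁ B' : Board} {z z' : Sq} (h : Jump N B z z' B₁)
      (h' : ¬ (stop = true ∧ B₁ z' ≠ B z)) (h'' : Capture N stop B₁ z' B') :
      Capture N stop B z B'

/-- A legal move of the side `c` (`true` is White) from `B` to `B'`: a complete capture sequence,
or a simple move if no jump is available. -/
def Move (N : ℕ) (stop : Bool) (c : Bool) (B B' : Board) : Prop :=
  (∃ (z : Sq) (P : Piece), B z = some P ∧ P.white = c ∧ Capture N stop B z B') ∨
    ((∀ (z : Sq) (P : Piece) (z' : Sq) (B₁ : Board), B z = some P → P.white = c →
      ¬ Jump N B z z' B₁) ∧
      ∃ (z : Sq) (P : Piece) (z' : Sq), B z = some P ∧ P.white = c ∧ Step N B z z' B')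

/-- The side `c` has no pieces. -/
def Cleared (c : Bool) (B : Board) : Prop := ∀ (z : Sq) (P : Piece), B z = some P → P.white ≠ c

/-- Mate in 2: the side `c` has a move such that after every legal reply of the opponent it has a
winning move, that is a move after which the opponent has no pieces. -/
def MateIn2 (N : ℕ) (stop : Bool) (c : Bool) (B : Board) : Prop :=
  ∃ B₁, Move N stop c B B₁ ∧ ∀ B₂, Move N stop (!c) B₁ B₂ →
    ∃ B₃, Move N stop c B₂ B₃ ∧ Cleared (!c) B₃

/-- An instance: the size of the board, the side to move and the placement of the pieces. -/
structure Pos where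
  N : ℕ
  side : Bool
  board : Board
  valid : ∀ z, board z ≠ none → On N z

/-- The code of the content of a square. -/
def cell : Option Piece → List Bool
  | none => [false, false, false]
  | some P => [true, P.white, P.king]

/-- The code of an instance: `1^N 0`, the side to move, and three letters for every square of the
board, row by row. -/
def encPos (p : Pos) : List Bool :=
  List.replicate p.N true ++ false :: p.side ::
    (List.range p.N).flatMap fun (y : ℕ) =>
      (List.range p.N).flatMap fun (x : ℕ) => cell (p.board ((x : ℤ), (y : ℤ)))

end Pool.Agent.CHK
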