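import Pool.Agent.CHK.Plan
import Pool.Agent.CHK.Comb

set_option autoImplicit false

/-! One half of the drawing. -/

namespace Pool.Agent.CHK

theorem bs_nonneg (m i : ℕ) : 0 ≤ bs m i := by
  unfold bs; positivity

theorem bs_le {m i j : ℕ} (h : i ≤ j) : bs m i ≤ bs m j := by
  unfold bs
  have h' : (i : ℤ) ≤ j := by exact_mod_cast h
  have hm : (0 : ℤ) ≤ 2 * (m : ℤ) + 4 := by positivity
  exact mul_le_mul_of_nonneg_left h' hm

theorem lev_inj {m i j k k' : ℕ} (hk : k < 4 * m + 8) (hk' : k' < 4 * m + 8)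
    (h : sv m i k = sv m j k') : i = j ∧ k = k' := by
  have h1 := lev_sv m i k hk.le
  have h2 := lev_sv m j k' hk'.le
  rw [h, h2] at h1
  unfold bs at h1
  have h3 : (4 * m + 8) * j + k' = (4 * m + 8) * i + k := by
    have : ((4 * m + 8) * j + k' : ℤ) = (4 * m + 8) * i + k := by linarith
    exact_mod_cast this
  have h4 : i = j := by
    have e1 : ((4 * m + 8) * j + k') / (4 * m + 8) = j := by
      rw [Nat.mul_add_div (by omega), Nat.div_eq_of_lt hk', Nat.add_zero]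
    have e2 : ((4 * m + 8) * i + k) / (4 * m + 8) = i := by
      rw [Nat.mul_add_div (by omega), Nat.div_eq_of_lt hk, Nat.add_zero]
    rw [← e1, ← e2, h3]
  subst h4
  exact ⟨rfl, by omega⟩

theorem half_pos {m : ℕ} {r : ℕ → ℕ → Bool} (hr : ∀ c s, r c s = true → s < m * m) {e : Edge}
    (he : e ∈ Half m r) : e.lo.1 ≤ e.lo.2 ∧ e.hi.1 ≤ e.hi.2 ∧
      e.lo.1 + e.hi.1 < e.lo.2 + e.hi.2 ∧ 0 ≤ e.lo.2 ∧ e.hi.2 ≤ bs m m ∧
      -2 * (m : ℤ) * m ≤ e.lo.1 := by
  rcases he with ⟨i, hi, he⟩ | ⟨c, he⟩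
  · obtain ⟨k, hk, rfl⟩ := (mem_side m i e).1 he
    rw [se_lo, se_hi m i k hk]
    obtain ⟨a1, a2, a3⟩ := sv_range m i k hk.le
    obtain ⟨b1, b2, b3⟩ := sv_range m i (k + 1) hk
    have h0 := bs_nonneg m i
    have h1 : bs m (i + 1) ≤ bs m m := bs_le hi
    have h2 : (0 : ℤ) ≤ 2 * (m : ℤ) * m := by positivity
    refine ⟨a2, b2, ?_, by linarith, by linarith, by linarith⟩
    rcases Nat.eq_zero_or_pos k with h | h
    · have := sv_diag m i (k + 1) (by omega) (by omega)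
      linarith
    · have := sv_diag m i k h hk
      linarith
  · have h1 := comb_pos (hr c) he (z := e.lo) (Or.inl rfl)
    have h2 := comb_pos (hr c) he (z := e.hi) (Or.inr rfl)
    obtain ⟨a1, a2, a3, a4⟩ := h1
    obtain ⟨b1, b2, b3, b4⟩ := h2
    exact ⟨a1.le, b1.le, by linarith, by linarith, b3.le, a4⟩

theorem half_up {m : ℕ} {r : ℕ → ℕ → Bool} (hr : ∀ c s, r c s = true → s < m * m) {e : Edge}
    (he : e ∈ Half m r) {i k : ℕ} (hi : i < m) (hk : k < 4 * m + 8) (h : e.lo = sv m i k) :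
    e = se m i k ∨ ∃ c s, r c s = true ∧ s / m = i ∧ e = (ca m s, cb m s, true) := by
  rcases he with ⟨j, hj, he⟩ | ⟨c, he⟩
  · obtain ⟨k', hk', rfl⟩ := (mem_side m j e).1 he
    rw [se_lo] at h
    obtain ⟨rfl, rfl⟩ := lev_inj hk' hk h
    exact Or.inl rfl
  · obtain ⟨s, hs, h1, h2⟩ := comb_side (hr c) he hi hk.le (Or.inl h)
    exact Or.inr ⟨c, s, hs, h1, comb_up (hr c) he hs (h.trans h2)⟩

theorem half_comb {m : ℕ} {r : ℕ → ℕ → Bool} (hp : Planar r)
    (hr : ∀ c s, r c s = true → s < m * m) {e e' : Edge} (he : e ∈ Half m r) {c : ℕ}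
    (he' : e' ∈ Comb m (r c)) {z : V} (hz : Inc z e) (hz' : Inc z e') :
    e ∈ Comb m (r c) ∨ ∃ s, r c s = true ∧ e ∈ Side m (s / m) := by
  rcases he with ⟨i, hi, he⟩ | ⟨c', he⟩
  · obtain ⟨k, hk, rfl⟩ := (mem_side m i e).1 he
    right
    rcases hz with hz | hz
    · rw [se_lo] at hz
      subst hz
      obtain ⟨s, hs, h1, -⟩ := comb_side (hr c) he' hi hk.le hz'
      exact ⟨s, hs, by rw [h1]; exact he⟩
    · rw [se_hi m i k hk] at hz
      subst hz
      obtain ⟨s, hs, h1, -⟩ := comb_side (hr c) he' hi hk hz'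
      exact ⟨s, hs, by rw [h1]; exact he⟩
  · left
    by_cases h : c' = c
    · rw [← h]; exact he
    · exact (comb_comb hp hr h he he' hz hz').elim

theorem half_stub {m : ℕ} {r : ℕ → ℕ → Bool} (hp : Planar r)
    (hr : ∀ c s, r c s = true → s < m * m) {e : Edge} (he : e ∈ Half m r) {c s : ℕ}
    (hs : r c s = true) : e.lo ≠ (ca m s, cb m s + 1) := by
  intro h
  rcases he with ⟨i, hi, he⟩ | ⟨c', he⟩
  · obtain ⟨k, hk, rfl⟩ := (mem_side m i e).1 he
    rw [se_lo] at h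
    have h1 := (side_at m i k s hi hk.le (hr c s hs)).2.1
    rw [h] at h1
    have := h1 (by simp)
    simp at this
  · by_cases hc : c' = c
    · subst hc
      exact comb_stub (hr c') he hs h
    · exact comb_comb hp hr hc he (comb_leg (hr c) hs).1 (z := (ca m s, cb m s + 1)) (Or.inl h)
        (Or.inr (by simp [Edge.hi]))

/-- Different pieces of one half have no common edge. -/
theorem half_disj {m : ℕ} {r : ℕ → ℕ → Bool} (hp : Planar r)
    (hr : ∀ c s, r c s = true → s < m * m) {e : Edge} :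
    (∀ i j, e ∈ Side m i → e ∈ Side m j → i = j) ∧
      (∀ i c, i < m → e ∈ Side m i → e ∉ Comb m (r c)) ∧
      ∀ c c', e ∈ Comb m (r c) → e ∈ Comb m (r c') → c = c' := by
  refine ⟨?_, ?_, ?_⟩
  · intro i j h1 h2
    obtain ⟨k, hk, h3⟩ := (mem_side m i e).1 h1
    obtain ⟨k', hk', h4⟩ := (mem_side m j e).1 h2
    have h5 : sv m i k = sv m j k' := by
      rw [← se_lo, ← se_lo, ← h3, ← h4]
    exact (lev_inj hk hk' h5).1
  · intro i c hi h1 h2
    obtain ⟨k, hk, rfl⟩ := (mem_side m i e).1 h1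
    obtain ⟨s, hs, -, h3⟩ := comb_side (hr c) h2 hi hk.le (Or.inl (se_lo m i k))
    obtain ⟨t, ht, -, h4⟩ := comb_side (hr c) h2 hi (k := k + 1) hk (Or.inr (se_hi m i k hk))
    have h5 := lev_sv m i k hk.le
    have h6 := lev_sv m i (k + 1) hk
    rw [h3] at h5
    rw [h4] at h6
    obtain ⟨a, ha⟩ := ca_even m s
    obtain ⟨b, hb⟩ := ca_even m t
    simp only [lev, corner, cb, ha, hb] at h5 h6
    push_cast at h6
    omega
  · intro c c' h1 h2
    by_contra h
    exact comb_comb hp hr h h1 h2 (z := e.lo) (Or.inl rfl) (Or.inl rfl)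

end Pool.Agent.CHK
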