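import Pool.Agent.CHK.Side
import Pool.Agent.CHK.Comb
import Pool.Agent.CHK.Half

set_option autoImplicit false

/-! The edges of the whole drawing. -/

namespace Pool.Agent.CHK

theorem ea_bs_nonneg (m i : ℕ) : 0 ≤ bs m i := by
  unfold bs; positivity

theorem ea_bs_inj {m i j : ℕ} (h : bs m i = bs m j) : i = j := by
  unfold bs at h
  have h2 : (2 * (m : ℤ) + 4) ≠ 0 := by positivity
  have := mul_left_cancel₀ h2 h
  exact_mod_cast this

theorem ea_ca_nonneg (m s : ℕ) : 0 ≤ ca m s := by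
  unfold ca; positivity

theorem ea_mem_E (l : Lay) (e : Edge) :
    e ∈ l.E ↔ e ∈ Half l.m l.pos ∨ mirror e ∈ Half l.m l.neg ∨ e ∈ Extra l.m := by
  change ((∃ i < l.m, e ∈ Side l.m i ∨ mirror e ∈ Side l.m i) ∨
      (∃ c, e ∈ Comb l.m (l.pos c) ∨ mirror e ∈ Comb l.m (l.neg c)) ∨ e ∈ Extra l.m) ↔
    ((∃ i < l.m, e ∈ Side l.m i) ∨ ∃ c, e ∈ Comb l.m (l.pos c)) ∨
      ((∃ i < l.m, mirror e ∈ Side l.m i) ∨ ∃ c, mirror e ∈ Comb l.m (l.neg c)) ∨ e ∈ Extra l.m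
  constructor
  · rintro (⟨i, hi, h | h⟩ | ⟨c, h | h⟩ | h)
    · exact Or.inl (Or.inl ⟨i, hi, h⟩)
    · exact Or.inr (Or.inl (Or.inl ⟨i, hi, h⟩))
    · exact Or.inl (Or.inr ⟨c, h⟩)
    · exact Or.inr (Or.inl (Or.inr ⟨c, h⟩))
    · exact Or.inr (Or.inr h)
  · rintro ((⟨i, hi, h⟩ | ⟨c, h⟩) | (⟨i, hi, h⟩ | ⟨c, h⟩) | h)
    · exact Or.inl ⟨i, hi, Or.inl h⟩
    · exact Or.inr (Or.inl ⟨c, Or.inl h⟩)
    · exact Or.inl ⟨i, hi, Or.inr h⟩
    · exact Or.inr (Or.inl ⟨c, Or.inr h⟩)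
    · exact Or.inr (Or.inr h)

theorem ea_lo_mk (p q : ℤ) (b : Bool) : Edge.lo (p, q, b) = (p, q) := rfl

theorem ea_hi_true (p q : ℤ) : Edge.hi (p, q, true) = (p, q + 1) := rfl

theorem ea_hi_false (p q : ℤ) : Edge.hi (p, q, false) = (p + 1, q) := rfl

theorem ea_mirror_mk (p q : ℤ) (b : Bool) : mirror (p, q, b) = (q, p, !b) := rfl

theorem ea_half_low {m : ℕ} {r : ℕ → ℕ → Bool} (hr : ∀ c s, r c s = true → s < m * m) {e : Edge}
    (he : e ∈ Half m r) : 0 ≤ e.lo.1 ∨ 4 ≤ e.lo.2 := by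
  rcases he with ⟨i, hi, h⟩ | ⟨c, h⟩
  · left
    obtain ⟨k, hk, rfl⟩ := (mem_side m i e).1 h
    rw [se_lo]
    exact le_trans (ea_bs_nonneg m i) (sv_range m i k hk.le).1
  · right
    exact (comb_pos (hr c) h (Or.inl rfl)).2.1

/-- The position of the edges of one half. -/
theorem ea_half_co {m : ℕ} {r : ℕ → ℕ → Bool} (hr : ∀ c s, r c s = true → s < m * m) {p q : ℤ}
    {b : Bool} (he : (p, q, b) ∈ Half m r) :
    p ≤ q ∧ (b = false → p + 1 ≤ q) ∧ 0 ≤ q ∧ q ≤ bs m m ∧ (b = true → q + 1 ≤ bs m m) ∧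
      -2 * (m : ℤ) * m ≤ p ∧ (0 ≤ p ∨ 4 ≤ q) := by
  obtain ⟨h1, h2, h3, h4, h5, h6⟩ := half_pos hr he
  have h7 := ea_half_low hr he
  cases b
  · simp only [ea_lo_mk, ea_hi_false] at *
    refine ⟨h1, fun _ => h2, h4, h5, by simp, h6, h7⟩
  · simp only [ea_lo_mk, ea_hi_true] at *
    refine ⟨h1, by simp, h4, by omega, fun _ => h5, h6, h7⟩

theorem ea_pos_slt (l : Lay) : ∀ c s, l.pos c s = true → s < l.m * l.m := fun c s h =>
  (l.pos_lt c s h).2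

theorem ea_neg_slt (l : Lay) : ∀ c s, l.neg c s = true → s < l.m * l.m := fun c s h =>
  (l.neg_lt c s h).2

/-- The position of the edges of the drawing: three cases. -/
theorem ea_E_co (l : Lay) {p q : ℤ} {b : Bool} (he : (p, q, b) ∈ l.E) :
    ((p, q, b) ∈ Half l.m l.pos ∧ p ≤ q ∧ (b = false → p + 1 ≤ q) ∧ 0 ≤ q ∧ q ≤ bs l.m l.m ∧
      (b = true → q + 1 ≤ bs l.m l.m) ∧ -2 * (l.m : ℤ) * l.m ≤ p ∧ (0 ≤ p ∨ 4 ≤ q)) ∨
    ((q, p, !b) ∈ Half l.m l.neg ∧ q ≤ p ∧ (b = true → q + 1 ≤ p) ∧ 0 ≤ p ∧ p ≤ bs l.m l.m ∧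
      (b = false → p + 1 ≤ bs l.m l.m) ∧ -2 * (l.m : ℤ) * l.m ≤ q ∧ (0 ≤ q ∨ 4 ≤ p)) ∨
    ((p = -1 ∧ q = 0 ∧ b = false) ∨ (p = 0 ∧ q = -1 ∧ b = true) ∨ (p = 0 ∧ q = -2) ∨
      (p = bs l.m l.m ∧ q = bs l.m l.m)) := by
  rcases (ea_mem_E l _).1 he with h | h | h
  · exact Or.inl ⟨h, ea_half_co (ea_pos_slt l) h⟩
  · rw [ea_mirror_mk] at h
    refine Or.inr (Or.inl ⟨h, ?_⟩)
    obtain ⟨h1, h2, h3, h4, h5, h6, h7⟩ := ea_half_co (ea_neg_slt l) h
    exact ⟨h1, fun hb => h2 (by simp [hb]), h3, h4, fun hb => h5 (by simp [hb]), h6, h7⟩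
  · refine Or.inr (Or.inr ?_)
    simp only [Extra, Set.mem_insert_iff, Set.mem_singleton_iff, Prod.mk.injEq] at h
    tauto

theorem ea_E_cof (l : Lay) {p q : ℤ} (he : (p, q, false) ∈ l.E) :
    (p + 1 ≤ q ∧ 0 ≤ q ∧ q ≤ bs l.m l.m ∧ (0 ≤ p ∨ 4 ≤ q)) ∨
    (q ≤ p ∧ 0 ≤ p ∧ p + 1 ≤ bs l.m l.m ∧ (0 ≤ q ∨ 4 ≤ p)) ∨
    ((p = -1 ∧ q = 0) ∨ (p = 0 ∧ q = -2) ∨ (p = bs l.m l.m ∧ q = bs l.m l.m)) := by
  rcases ea_E_co l he with ⟨-, -, h1, h2, h3, -, -, h4⟩ | ⟨-, h1, -, h2, -, h3, -, h4⟩ | h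
  · exact Or.inl ⟨h1 rfl, h2, h3, h4⟩
  · exact Or.inr (Or.inl ⟨h1, h2, h3 rfl, h4⟩)
  · refine Or.inr (Or.inr ?_)
    simp only [reduceCtorEq, and_false, false_or] at h
    tauto

theorem ea_E_cot (l : Lay) {p q : ℤ} (he : (p, q, true) ∈ l.E) :
    (p ≤ q ∧ 0 ≤ q ∧ q + 1 ≤ bs l.m l.m ∧ (0 ≤ p ∨ 4 ≤ q)) ∨
    (q + 1 ≤ p ∧ 0 ≤ p ∧ p ≤ bs l.m l.m ∧ (0 ≤ q ∨ 4 ≤ p)) ∨
    ((p = 0 ∧ q = -1) ∨ (p = 0 ∧ q = -2) ∨ (p = bs l.m l.m ∧ q = bs l.m l.m)) := by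
  rcases ea_E_co l he with ⟨-, h1, -, h2, -, h3, -, h4⟩ | ⟨-, -, h1, h2, h3, -, -, h4⟩ | h
  · exact Or.inl ⟨h1, h2, h3 rfl, h4⟩
  · exact Or.inr (Or.inl ⟨h1 rfl, h2, h3, h4⟩)
  · refine Or.inr (Or.inr ?_)
    simp only [reduceCtorEq, and_false, false_or] at h
    tauto

theorem E_bnd (l : Lay) : Bnd l.m {e | e ∈ l.E ∨ e = (1, -2, true) ∨ e = (1, -3, true)} := by
  rintro ⟨p, q, b⟩ he
  have hl : 2 * (l.m : ℤ) * l.m + 4 * l.m + 10 ≤ 10 * ((len l.m : ℤ) + 1) := by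
    have h0 : (len l.m : ℤ) = l.m + 1 + 2 * (l.m * (l.m * l.m)) := by
      simp [len]
    have h1 : (l.m : ℤ) * l.m ≤ l.m * (l.m * l.m) := by
      rcases Nat.eq_zero_or_pos l.m with h | h
      · simp [h]
      · have : (1 : ℤ) ≤ l.m := by exact_mod_cast h
        nlinarith [mul_nonneg (mul_nonneg (Int.natCast_nonneg l.m) (Int.natCast_nonneg l.m))
          (sub_nonneg.2 this)]
    rw [h0]
    nlinarith [Int.natCast_nonneg l.m, mul_nonneg (Int.natCast_nonneg l.m) (Int.natCast_nonneg l.m)]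
  have hb : bs l.m l.m = 2 * (l.m : ℤ) * l.m + 4 * l.m := by unfold bs; ring
  have hn : (0 : ℤ) ≤ 2 * (l.m : ℤ) * l.m := by positivity
  have hn2 : (0 : ℤ) ≤ l.m := by positivity
  rw [abs_le, abs_le]
  show (-(10 * ((len l.m : ℤ) + 1)) ≤ p ∧ p ≤ 10 * ((len l.m : ℤ) + 1)) ∧
    -(10 * ((len l.m : ℤ) + 1)) ≤ q ∧ q ≤ 10 * ((len l.m : ℤ) + 1)
  generalize hL : 10 * ((len l.m : ℤ) + 1) = L at *
  generalize hM : 2 * (l.m : ℤ) * l.m = M at *
  rcases he with he | he | he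
  · rcases ea_E_co l he with h | h | h
    · obtain ⟨-, h1, -, h3, h4, -, h6, -⟩ := h
      have : -2 * (l.m : ℤ) * l.m = -M := by rw [← hM]; ring
      omega
    · obtain ⟨-, h1, -, h3, h4, -, h6, -⟩ := h
      have : -2 * (l.m : ℤ) * l.m = -M := by rw [← hM]; ring
      omega
    · omega
  · simp only [Prod.mk.injEq] at he
    omega
  · simp only [Prod.mk.injEq] at he
    omega

theorem E_low (l : Lay) {e : Edge} (he : e ∈ l.E) :
    e.lo ≠ (1, -3) ∧ e.lo ≠ (1, -2) ∧ e.lo ≠ (1, -1) ∧ e.hi ≠ (1, -3) ∧ e.hi ≠ (1, -1) ∧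
      e.hi ≠ (-1, 0) ∧ (e.lo = (-1, 0) → e = (-1, 0, false)) := by
  obtain ⟨p, q, b⟩ := e
  have hb := ea_bs_nonneg l.m l.m
  cases b
  · have h := ea_E_cof l he
    simp only [ea_lo_mk, ea_hi_false, Ne, Prod.mk.injEq, and_true]
    clear he
    refine ⟨?_, ?_, ?_, ?_, ?_, ?_, fun h => h⟩ <;> omega
  · have h := ea_E_cot l he
    simp only [ea_lo_mk, ea_hi_true, Ne, Prod.mk.injEq, reduceCtorEq, and_false]
    clear he
    refine ⟨?_, ?_, ?_, ?_, ?_, ?_, ?_⟩ <;> omega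

theorem E_extra (l : Lay) {e : Edge} (he : e ∈ Extra l.m) : e ∈ l.E :=
  (ea_mem_E l e).2 (Or.inr (Or.inr he))

theorem ea_ne_corner_diag {m s : ℕ} {x : ℤ} {b : Bool} {e : Edge} (h : e = (ca m s, cb m s, b)) :
    e.lo ≠ (x, x) := by
  subst h
  rw [ea_lo_mk]
  intro h
  simp only [Prod.mk.injEq, cb] at h
  omega

theorem E_base (l : Lay) {e : Edge} (he : e ∈ l.E) {i : ℕ} (hi : i < l.m)
    (h : e.lo = (bs l.m i, bs l.m i)) : e = se l.m i 0 ∨ mirror e = se l.m i 0 := by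
  obtain ⟨p, q, b⟩ := e
  have hb := ea_bs_nonneg l.m i
  rw [ea_lo_mk] at h
  rcases ea_E_co l he with ⟨h1, -⟩ | ⟨h1, -⟩ | h1
  · rcases half_up (ea_pos_slt l) h1 hi (by omega : 0 < 4 * l.m + 8)
      (by rw [ea_lo_mk, h, sv_zero]) with h2 | ⟨c, s, -, -, h2⟩
    · exact Or.inl h2
    · exact absurd (by rw [ea_lo_mk, h]) (ea_ne_corner_diag h2 (x := bs l.m i))
  · have h' : ((q, p) : V) = (bs l.m i, bs l.m i) := by
      simp only [Prod.mk.injEq] at h ⊢; exact ⟨h.2, h.1⟩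
    rcases half_up (ea_neg_slt l) h1 hi (by omega : 0 < 4 * l.m + 8)
      (by rw [ea_lo_mk, h', sv_zero]) with h2 | ⟨c, s, -, -, h2⟩
    · exact Or.inr h2
    · exact absurd (by rw [ea_lo_mk, h']) (ea_ne_corner_diag h2 (x := bs l.m i))
  · exfalso
    simp only [Prod.mk.injEq] at h
    rcases h1 with h1 | h1 | h1 | h1
    · omega
    · omega
    · omega
    · have := ea_bs_inj (h.1.symm.trans h1.1)
      omega

theorem E_top (l : Lay) {e : Edge} (he : e ∈ l.E) :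
    (e.lo = (bs l.m l.m, bs l.m l.m) → e = (bs l.m l.m, bs l.m l.m, false) ∨
      e = (bs l.m l.m, bs l.m l.m, true)) ∧
    e.lo ≠ (bs l.m l.m + 1, bs l.m l.m) ∧ e.lo ≠ (bs l.m l.m, bs l.m l.m + 1) ∧
    (e.hi = (bs l.m l.m + 1, bs l.m l.m) → e = (bs l.m l.m, bs l.m l.m, false)) := by
  obtain ⟨p, q, b⟩ := e
  have hb := ea_bs_nonneg l.m l.m
  cases b
  · have h := ea_E_cof l he
    simp only [ea_lo_mk, ea_hi_false, Ne, Prod.mk.injEq, and_true]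
    clear he
    refine ⟨fun h => Or.inl h, ?_, ?_, ?_⟩ <;> omega
  · have h := ea_E_cot l he
    simp only [ea_lo_mk, ea_hi_true, Ne, Prod.mk.injEq, reduceCtorEq, and_false, and_true]
    clear he
    refine ⟨fun h => Or.inr h, ?_, ?_, ?_⟩ <;> omega

theorem E_left (l : Lay) {e : Edge} (he : e ∈ l.E) {i k : ℕ} (hi : i < l.m) (hk : 0 < k)
    (hk' : k < 4 * l.m + 8) (h : e.lo = sv l.m i k) :
    e = se l.m i k ∨ ∃ c s, l.pos c s = true ∧ s / l.m = i ∧ e = (ca l.m s, cb l.m s, true) := by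
  obtain ⟨p, q, b⟩ := e
  have hb := ea_bs_nonneg l.m i
  have hd := sv_diag l.m i k hk hk'
  have hr := (sv_range l.m i k hk'.le).1
  rw [← h, ea_lo_mk] at hd hr
  rcases ea_E_co l he with ⟨h1, -⟩ | ⟨h1, h2, -⟩ | h1
  · exact half_up (ea_pos_slt l) h1 hi hk' h
  · exfalso; simp only at hd; omega
  · exfalso; simp only at hd hr; omega

theorem E_right (l : Lay) {e : Edge} (he : e ∈ l.E) {i k : ℕ} (hi : i < l.m) (hk : 0 < k)
    (hk' : k < 4 * l.m + 8) (h : e.lo = (sv l.m i k).swap) :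
    mirror e = se l.m i k ∨
      ∃ c s, l.neg c s = true ∧ s / l.m = i ∧ mirror e = (ca l.m s, cb l.m s, true) := by
  obtain ⟨p, q, b⟩ := e
  have hb := ea_bs_nonneg l.m i
  have hd := sv_diag l.m i k hk hk'
  have hr := (sv_range l.m i k hk'.le).1
  have h' : ((q, p) : V) = sv l.m i k := by
    rw [ea_lo_mk] at h
    have := congrArg Prod.swap h
    simpa using this
  rw [← h'] at hd hr
  rcases ea_E_co l he with ⟨h1, h2, -⟩ | ⟨h1, -⟩ | h1
  · exfalso; simp only at hd; omega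
  · exact half_up (ea_neg_slt l) h1 hi hk' (by rw [ea_lo_mk]; exact h')
  · exfalso; simp only at hd hr; omega

theorem E_stub (l : Lay) {e : Edge} (he : e ∈ l.E) (c s : ℕ) :
    (l.pos c s = true → e.lo ≠ (ca l.m s, cb l.m s + 1)) ∧
      (l.neg c s = true → e.lo ≠ (cb l.m s + 1, ca l.m s)) := by
  obtain ⟨p, q, b⟩ := e
  have hb := ea_ca_nonneg l.m s
  constructor
  · intro hs h
    rcases ea_E_co l he with ⟨h1, -⟩ | ⟨h1, h2, -⟩ | h1
    · exact half_stub l.pos_planar (ea_pos_slt l) h1 hs h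
    · simp only [ea_lo_mk, Prod.mk.injEq, cb] at h
      omega
    · simp only [ea_lo_mk, Prod.mk.injEq, cb] at h
      omega
  · intro hs h
    rcases ea_E_co l he with ⟨h1, h2, -⟩ | ⟨h1, -⟩ | h1
    · simp only [ea_lo_mk, Prod.mk.injEq, cb] at h
      omega
    · refine half_stub l.neg_planar (ea_neg_slt l) h1 hs ?_
      simp only [ea_lo_mk, Prod.mk.injEq] at h ⊢
      exact ⟨h.2, h.1⟩
    · simp only [ea_lo_mk, Prod.mk.injEq, cb] at h
      omega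

theorem ea_inc_mirror {z : V} {e : Edge} (h : Inc z e) : Inc z.swap (mirror e) := by
  obtain ⟨p, q, b⟩ := e
  obtain ⟨x, y⟩ := z
  cases b
  · simp only [Inc, ea_mirror_mk, ea_lo_mk, ea_hi_false, Bool.not_false, ea_hi_true, Prod.mk.injEq,
      Prod.swap_prod_mk] at *
    tauto
  · simp only [Inc, ea_mirror_mk, ea_lo_mk, ea_hi_false, Bool.not_true, ea_hi_true, Prod.mk.injEq,
      Prod.swap_prod_mk] at *
    tauto

theorem ea_half_inc {m : ℕ} {r : ℕ → ℕ → Bool} (hr : ∀ c s, r c s = true → s < m * m) {e : Edge}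
    (he : e ∈ Half m r) {z : V} (hz : Inc z e) : z.1 ≤ z.2 := by
  obtain ⟨h1, h2, -⟩ := half_pos hr he
  rcases hz with rfl | rfl
  · exact h1
  · exact h2

theorem ea_extra_inc {m : ℕ} {e : Edge} (he : e ∈ Extra m) {z : V} (hz : Inc z e) :
    (z.1 < 4 ∧ z.2 < 4) ∨ (bs m m ≤ z.1 ∧ bs m m ≤ z.2) := by
  simp only [Extra, Set.mem_insert_iff, Set.mem_singleton_iff] at he
  obtain ⟨x, y⟩ := z
  rcases he with rfl | rfl | rfl | rfl | rfl | rfl
  all_goals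
    simp only [Inc, ea_lo_mk, ea_hi_false, ea_hi_true, Prod.mk.injEq] at *
    omega

theorem E_comb_pos (l : Lay) {e e' : Edge} (he : e ∈ l.E) {c : ℕ} (he' : e' ∈ Comb l.m (l.pos c))
    {z : V} (hz : Inc z e) (hz' : Inc z e') :
    e ∈ Comb l.m (l.pos c) ∨ ∃ s, l.pos c s = true ∧ e ∈ Side l.m (s / l.m) := by
  obtain ⟨h1, h2, h3, -⟩ := comb_pos (ea_pos_slt l c) he' hz'
  rcases (ea_mem_E l e).1 he with h | h | h
  · exact half_comb l.pos_planar (ea_pos_slt l) h he' hz hz'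
  · have := ea_half_inc (ea_neg_slt l) h (ea_inc_mirror hz)
    simp only [Prod.fst_swap, Prod.snd_swap] at this
    omega
  · have := ea_extra_inc h hz
    omega

theorem ea_mirror_mirror (e : Edge) : mirror (mirror e) = e := by
  obtain ⟨p, q, b⟩ := e
  simp [mirror]

theorem E_comb_neg (l : Lay) {e e' : Edge} (he : e ∈ l.E) {c : ℕ}
    (he' : mirror e' ∈ Comb l.m (l.neg c)) {z : V} (hz : Inc z e) (hz' : Inc z e') :
    mirror e ∈ Comb l.m (l.neg c) ∨ ∃ s, l.neg c s = true ∧ mirror e ∈ Side l.m (s / l.m) := by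
  obtain ⟨h1, h2, h3, -⟩ := comb_pos (ea_neg_slt l c) he' (ea_inc_mirror hz')
  simp only [Prod.fst_swap, Prod.snd_swap] at h1 h2 h3
  rcases (ea_mem_E l e).1 he with h | h | h
  · have := ea_half_inc (ea_pos_slt l) h hz
    omega
  · exact half_comb l.neg_planar (ea_neg_slt l) h he' (ea_inc_mirror hz) (ea_inc_mirror hz')
  · have := ea_extra_inc h hz
    omega

theorem ea_extra_co {m : ℕ} {p q : ℤ} {b : Bool} (h : (p, q, b) ∈ Extra m) :
    (p = -1 ∧ q = 0 ∧ b = false) ∨ (p = 0 ∧ q = -1 ∧ b = true) ∨ (p = 0 ∧ q = -2) ∨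
      (p = bs m m ∧ q = bs m m) := by
  simp only [Extra, Set.mem_insert_iff, Set.mem_singleton_iff, Prod.mk.injEq] at h
  tauto

theorem ea_half_extra {m : ℕ} {r : ℕ → ℕ → Bool} (hr : ∀ c s, r c s = true → s < m * m) {e : Edge}
    (he : e ∈ Half m r) : e ∉ Extra m ∧ mirror e ∉ Extra m := by
  obtain ⟨p, q, b⟩ := e
  obtain ⟨h1, h2, h3, h4, h5, -, h7⟩ := ea_half_co hr he
  have hb := ea_bs_nonneg m m
  clear he
  constructor
  · intro h
    have h := ea_extra_co h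
    cases b
    · have h2 := h2 rfl
      clear h5
      simp only [and_true, reduceCtorEq, and_false, false_or] at h
      omega
    · have h5 := h5 rfl
      clear h2
      simp only [and_true, reduceCtorEq, and_false, false_or] at h
      omega
  · intro h
    have h := ea_extra_co (p := q) (q := p) h
    cases b
    · have h2 := h2 rfl
      clear h5
      simp only [and_true, reduceCtorEq, and_false, false_or, Bool.not_false] at h
      omega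
    · have h5 := h5 rfl
      clear h2
      simp only [and_true, reduceCtorEq, and_false, false_or, Bool.not_true] at h
      omega

/-- The parts of the drawing are edge-disjoint: above the diagonal, below it, extra edges. -/
theorem E_disj (l : Lay) {e : Edge} :
    (e ∈ Half l.m l.pos → mirror e ∉ Half l.m l.neg) ∧
      (e ∈ Extra l.m → e ∉ Half l.m l.pos ∧ mirror e ∉ Half l.m l.neg) := by
  constructor
  · intro h1 h2
    obtain ⟨p, q, b⟩ := e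
    have h3 := ea_half_co (ea_pos_slt l) h1
    have h4 := ea_half_co (ea_neg_slt l) (p := q) (q := p) h2
    cases b
    · obtain ⟨-, h5, -⟩ := h3
      have := h5 rfl
      have := h4.1
      omega
    · obtain ⟨-, h5, -⟩ := h4
      have := h5 rfl
      have := h3.1
      omega
  · intro h
    refine ⟨fun h1 => (ea_half_extra (ea_pos_slt l) h1).1 h, fun h1 => ?_⟩
    have := (ea_half_extra (ea_neg_slt l) h1).2
    rw [ea_mirror_mirror] at this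
    exact this h

end Pool.Agent.CHK
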