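import Pool.Agent.CHK.JumpW

set_option autoImplicit false

/-! Winning captures of a white king: covering walks. -/

namespace Pool.Agent.CHK

private theorem kg_ne (e : Edge) : e.hi ≠ e.lo := by
  intro h
  unfold Edge.hi Edge.lo at h
  split_ifs at h
  · have := congrArg Prod.snd h
    simp only at this
    omega
  · have := congrArg Prod.fst h
    simp only at this
    omega

private theorem kg_mem {F : Set Edge} {U : Set V} : ∀ {L : List Edge} {z z' : V},
    Walk F U z L z' → ∀ e ∈ L, e ∈ F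
  | [], _, _, _ => by simp
  | a :: L, z, z', h => by
    intro e he
    obtain ⟨h1, h2⟩ := h
    rcases List.mem_cons.1 he with rfl | he
    · exact h1
    · rcases h2 with ⟨_, _, h2⟩ | ⟨_, _, h2⟩
      · exact kg_mem h2 e he
      · exact kg_mem h2 e he

private theorem kg_conv {F F' : Set Edge} {U : Set V} : ∀ {L : List Edge} {z z' : V},
    Walk F U z L z' → (∀ e ∈ L, e ∈ F') → Walk F' U z L z'
  | [], _, _, h, _ => h
  | a :: L, z, z', h, hL => by
    obtain ⟨h1, h2⟩ := h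
    refine ⟨hL a (by simp), ?_⟩
    rcases h2 with ⟨h3, h4, h2⟩ | ⟨h3, h4, h2⟩
    · exact Or.inl ⟨h3, h4, kg_conv h2 fun e he => hL e (List.mem_cons_of_mem _ he)⟩
    · exact Or.inr ⟨h3, h4, kg_conv h2 fun e he => hL e (List.mem_cons_of_mem _ he)⟩

private theorem kg_set {U : Set V} {z w : V} (hw : w ∉ U) : insert w (U \ {z}) \ {w} = U \ {z} := by
  ext x
  simp only [Set.mem_sdiff, Set.mem_insert_iff, Set.mem_singleton_iff]
  constructor
  · rintro ⟨h1 | h1, h2⟩
    · exact absurd h1 h2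
    · exact h1
  · rintro ⟨h1, h2⟩
    refine ⟨Or.inr ⟨h1, h2⟩, ?_⟩
    rintro rfl
    exact hw h1

/-- One step: the jump of a king over the edge `e` from `z` to `w`. -/
private theorem kg_jump {m : ℕ} {B : Board} {F G : Set Edge} {U : Set V} (h : Fits m B F G U)
    (hF : Bnd m F) {z : V} (hz : z ∈ U) (hP : B (vsq m z) = some ⟨true, true⟩) (y : Sq)
    (B' : Board) :
    Jump (size m) B (vsq m z) y B' ↔
      ∃ e ∈ F, ∃ w, ((e.lo = z ∧ w = e.hi) ∨ (e.hi = z ∧ w = e.lo)) ∧ w ∉ U ∧ y = vsq m w ∧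
        B' = aft m B z {e} w := by
  rw [jump_white h hF hz hP y B']
  constructor
  · rintro (⟨e, he, h1, h2, h3, h4⟩ | ⟨_, e, he, h1, h2, h3, h4⟩)
    · exact ⟨e, he, e.hi, Or.inl ⟨h1, rfl⟩, h2, h3, h4⟩
    · exact ⟨e, he, e.lo, Or.inr ⟨h1, rfl⟩, h2, h3, h4⟩
  · rintro ⟨e, he, w, ⟨h1, rfl⟩ | ⟨h1, rfl⟩, h2, h3, h4⟩
    · exact Or.inl ⟨e, he, h1, h2, h3, h4⟩
    · exact Or.inr ⟨rfl, e, he, h1, h2, h3, h4⟩

private theorem kg_cons {F : Set Edge} {U : Set V} {e : Edge} {z w z' : V} {L : List Edge}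
    (he : e ∈ F) (h1 : (e.lo = z ∧ w = e.hi) ∨ (e.hi = z ∧ w = e.lo)) (hw : w ∉ U)
    (hL : Walk F U w L z') : Walk F U z (e :: L) z' := by
  refine ⟨he, ?_⟩
  rcases h1 with ⟨h1, rfl⟩ | ⟨h1, rfl⟩
  · exact Or.inl ⟨h1, hw, hL⟩
  · exact Or.inr ⟨h1, hw, hL⟩

private theorem kg_bnd {m : ℕ} {F : Set Edge} (hF : Bnd m F) (S : Set Edge) : Bnd m (F \ S) :=
  fun e he => hF e he.1

private theorem kg_nec {m : ℕ} {stop : Bool} {B B' : Board} {x : Sq}
    (hC : Capture (size m) stop B x B') : ∀ {F G : Set Edge} {U : Set V} {z : V},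
    Fits m B F G U → Bnd m F → z ∈ U → x = vsq m z → B (vsq m z) = some ⟨true, true⟩ →
    Cleared false B' → ∃ L z', Walk F (U \ {z}) z L z' ∧ L.Nodup ∧ ∀ e ∈ F, e ∈ L := by
  induction hC with
  | @last B B' x y h h' =>
    intro F G U z hFit hF hz hx hP hB
    subst hx
    obtain ⟨e, he, w, h1, h2, rfl, rfl⟩ := (kg_jump hFit hF hz hP y B').1 h
    have hfit := fits_aft hFit hz (L := {e}) (Set.singleton_subset_iff.2 he) (z' := w) (Or.inl h2)
    refine ⟨[e], w, kg_cons he h1 (fun hh => h2 hh.1) rfl, by simp, ?_⟩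
    intro e' he'
    by_contra hne
    have hne' : e' ≠ e := by simpa using hne
    have := hfit.black e' ⟨he', hne'⟩
    exact hB _ _ this rfl
  | @next B B₁ B' x y h h' h'' ih =>
    intro F G U z hFit hF hz hx hP hB
    subst hx
    obtain ⟨e, he, w, h1, h2, rfl, rfl⟩ := (kg_jump hFit hF hz hP y B₁).1 h
    have hfit := fits_aft hFit hz (L := {e}) (Set.singleton_subset_iff.2 he) (z' := w) (Or.inl h2)
    obtain ⟨L, z', hW, hN, hL⟩ := ih hfit (kg_bnd hF _) (Set.mem_insert _ _) rfl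
      (by rw [aft_vsq]; exact hP) hB
    rw [kg_set h2] at hW
    have hmem := kg_mem hW
    refine ⟨e :: L, z', kg_cons he h1 (fun hh => h2 hh.1) (kg_conv hW fun a ha => (hmem a ha).1),
      ?_, ?_⟩
    · rw [List.nodup_cons]
      exact ⟨fun hh => (hmem e hh).2 rfl, hN⟩
    · intro a ha
      by_cases hae : a = e
      · rw [hae]
        exact List.mem_cons_self
      · exact List.mem_cons_of_mem _ (hL a ⟨ha, hae⟩)

theorem king_nec {m : ℕ} {stop : Bool} {B B' : Board} {F G : Set Edge} {U : Set V}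
    (h : Fits m B F G U) (hF : Bnd m F) {z : V} (hz : z ∈ U)
    (hP : B (vsq m z) = some ⟨true, true⟩) (hC : Capture (size m) stop B (vsq m z) B')
    (hB : Cleared false B') :
    ∃ L z', Walk F (U \ {z}) z L z' ∧ L.Nodup ∧ ∀ e ∈ F, e ∈ L :=
  kg_nec hC h hF hz rfl hP hB

theorem king_suf {m : ℕ} {stop : Bool} {B : Board} {F G : Set Edge} {U : Set V}
    (h : Fits m B F G U) (hF : Bnd m F) {z : V} (hz : z ∈ U)
    (hP : B (vsq m z) = some ⟨true, true⟩) {L : List Edge} {z' : V} (hL : L ≠ [])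
    (hW : Walk F (U \ {z}) z L z') (hN : L.Nodup) (hc : ∀ e ∈ F, e ∈ L) :
    ∃ B', Capture (size m) stop B (vsq m z) B' ∧ Cleared false B' := by
  induction L generalizing B F U z with
  | nil => exact absurd rfl hL
  | cons e L ih =>
    obtain ⟨he, hW⟩ := hW
    have hw : ∃ w, ((e.lo = z ∧ w = e.hi) ∨ (e.hi = z ∧ w = e.lo)) ∧ w ∉ U ∧
        Walk F (U \ {z}) w L z' := by
      rcases hW with ⟨h1, h2, h3⟩ | ⟨h1, h2, h3⟩
      · refine ⟨e.hi, Or.inl ⟨h1, rfl⟩, fun hh => h2 ⟨hh, ?_⟩, h3⟩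
        rw [Set.mem_singleton_iff, ← h1]
        exact kg_ne e
      · refine ⟨e.lo, Or.inr ⟨h1, rfl⟩, fun hh => h2 ⟨hh, ?_⟩, h3⟩
        rw [Set.mem_singleton_iff, ← h1]
        exact (kg_ne e).symm
    obtain ⟨w, h1, h2, h3⟩ := hw
    have hj := (kg_jump h hF hz hP (vsq m w) (aft m B z {e} w)).2 ⟨e, he, w, h1, h2, rfl, rfl⟩
    have hfit := fits_aft h hz (L := {e}) (Set.singleton_subset_iff.2 he) (z' := w) (Or.inl h2)
    have hP' : aft m B z {e} w (vsq m w) = some ⟨true, true⟩ := by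
      rw [aft_vsq]
      exact hP
    obtain ⟨hN1, hN2⟩ := List.nodup_cons.1 hN
    by_cases hLn : L = []
    · subst hLn
      have hF1 : ∀ a, a ∉ F \ {e} := by
        rintro a ⟨ha, hae⟩
        have := hc a ha
        exact hae (by simpa using this)
      refine ⟨_, Capture.last hj (Or.inr ?_), ?_⟩
      · intro z'' B'' hJ
        obtain ⟨a, ha, _⟩ := (kg_jump hfit (kg_bnd hF _) (Set.mem_insert _ _) hP' z'' B'').1 hJ
        exact hF1 a ha
      · intro y P hy
        rcases hfit.only y P hy with ⟨a, ha, rfl⟩ | ⟨a, ha | ha, rfl⟩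
        · obtain ⟨Q, hQ, hQ'⟩ := hfit.occ a ha
          rw [hQ] at hy
          cases hy
          rw [hQ']
          decide
        · exact absurd ha (hF1 a)
        · obtain ⟨Q, hQ, hQ'⟩ := hfit.fill a ha
          rw [hQ] at hy
          cases hy
          rw [hQ']
          decide
    · have hmem := kg_mem h3
      obtain ⟨B', hC, hB'⟩ := ih hfit (kg_bnd hF _) (Set.mem_insert _ _) hP' hLn
        (by
          rw [kg_set h2]
          exact kg_conv h3 fun a ha => ⟨hmem a ha, fun hae => hN1 (by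
            rw [Set.mem_singleton_iff] at hae
            rw [← hae]
            exact ha)⟩) hN2
        (by
          rintro a ⟨ha, hae⟩
          rcases List.mem_cons.1 (hc a ha) with rfl | hh
          · exact absurd rfl hae
          · exact hh)
      refine ⟨B', Capture.next hj ?_ hC, hB'⟩
      rintro ⟨_, hne⟩
      exact hne (by rw [hP', hP])

end Pool.Agent.CHK
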