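import Pool.Agent.CHK.JumpW
import Pool.Agent.CHK.Walk

set_option autoImplicit false

/-! Captures of a white man. -/

namespace Pool.Agent.CHK

private lemma man_none {m : ℕ} {B : Board} {F G : Set Edge} {U : Set V} (h : Fits m B F G U)
    {w : V} (hw : w ∉ U) : B (vsq m w) = none := by
  cases hB : B (vsq m w) with
  | none => rfl
  | some P =>
    exfalso
    rcases h.only _ _ hB with ⟨z, hz, h1⟩ | ⟨e, _, h1⟩
    · exact hw (vsq_inj h1 ▸ hz)
    · exact vsq_ne_esq h1

private lemma man_bnd {m : ℕ} {F : Set Edge} (hF : Bnd m F) (S : Set Edge) : Bnd m (F \ S) :=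
  fun e he => hF e he.1

private lemma man_set (e : Edge) (L : List Edge) :
    ({e} ∪ {a | a ∈ L} : Set Edge) = {a | a ∈ e :: L} := by
  ext a
  simp [List.mem_cons]

theorem man_nec {m : ℕ} {stop : Bool} {B B' : Board} {F G : Set Edge} {U : Set V}
    (h : Fits m B F G U) (hF : Bnd m F) {z : V} (hz : z ∈ U)
    (hP : B (vsq m z) = some ⟨true, false⟩) (hC : Capture (size m) stop B (vsq m z) B') :
    ∃ L z', L ≠ [] ∧ UpWalk F U z L z' ∧ (∀ e ∈ F, e.lo = z' → e.hi ∈ U) ∧
      B' = aft m B z {e | e ∈ L} z' := by
  generalize hx : vsq m z = x at hC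
  induction hC generalizing z F U with
  | @last B B' y y' hj h' =>
    subst hx
    rcases (jump_white h hF hz hP y' B').1 hj with ⟨e, he, hlo, hhi, hy, hB'⟩ | ⟨hk, _⟩
    · subst hy hB'
      refine ⟨[e], e.hi, by simp, ?_, ?_, ?_⟩
      · simp only [UpWalk]
        exact ⟨he, hlo, hhi, trivial⟩
      · intro a ha hlo'
        by_contra hn
        have hl := lev_hi a
        rw [hlo'] at hl
        have hl' := lev_hi e
        rcases h' with ⟨_, hne⟩ | hno
        · exact hne aft_vsq
        · refine hno (vsq m a.hi) (aft m (aft m B z {e} e.hi) e.hi {a} a.hi) ?_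
          refine (jump_white (fits_aft h hz (Set.singleton_subset_iff.2 he) (Or.inl hhi))
            (man_bnd hF _) (Set.mem_insert _ _) (aft_vsq.trans hP) _ _).2
            (Or.inl ⟨a, ⟨ha, ?_⟩, hlo', ?_, rfl, rfl⟩)
          · intro h1
            rw [Set.mem_singleton_iff] at h1
            rw [h1] at hl
            omega
          · rintro (h1 | h1)
            · rw [h1] at hl
              omega
            · exact hn h1.1
      · congr 1
        ext a
        simp
    · simp at hk
  | @next B B₁ B' y y' hj h' h'' ih =>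
    subst hx
    rcases (jump_white h hF hz hP y' B₁).1 hj with ⟨e, he, hlo, hhi, hy, hB'⟩ | ⟨hk, _⟩
    · subst hy hB'
      have hl' := lev_hi e
      obtain ⟨L, z', hL, hW, hmax, hB2⟩ := ih
        (fits_aft h hz (Set.singleton_subset_iff.2 he) (Or.inl hhi)) (man_bnd hF _)
        (Set.mem_insert _ _) (aft_vsq.trans hP) rfl
      have hz' := hW.lev_eq
      refine ⟨e :: L, z', by simp, ?_, ?_, ?_⟩
      · simp only [UpWalk]
        refine ⟨he, hlo, hhi, hW.conv (fun a ha => (hW.mem ha).1) ?_⟩
        intro a ha hn hU
        have h1 := (hW.lev_mem ha).1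
        have h2 := lev_hi a
        apply hn
        right
        refine ⟨hU, fun h3 => ?_⟩
        rw [Set.mem_singleton_iff] at h3
        rw [h3, ← hlo] at h2
        omega
      · intro a ha hlo'
        have hl := lev_hi a
        rw [hlo'] at hl
        have hne : a ∉ ({e} : Set Edge) := by
          intro h1
          rw [Set.mem_singleton_iff] at h1
          rw [h1] at hl
          omega
        rcases hmax a ⟨ha, hne⟩ hlo' with h1 | h1
        · rw [h1] at hl
          omega
        · exact h1.1
      · rw [hB2, aft_aft (Or.inr (man_none h hhi)), man_set]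
    · simp at hk

theorem man_suf {m : ℕ} {stop : Bool} {B : Board} {F G : Set Edge} {U : Set V}
    (h : Fits m B F G U) (hF : Bnd m F) {z : V} (hz : z ∈ U)
    (hP : B (vsq m z) = some ⟨true, false⟩) {L : List Edge} {z' : V} (hL : L ≠ [])
    (hW : UpWalk F U z L z') (hm : ∀ e ∈ F, e.lo = z' → e.hi ∈ U) :
    Capture (size m) stop B (vsq m z) (aft m B z {e | e ∈ L} z') := by
  induction L generalizing z F U B with
  | nil => exact absurd rfl hL
  | cons e L ih =>
    simp only [UpWalk] at hW
    obtain ⟨he, hlo, hhi, hW⟩ := hW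
    have hl' := lev_hi e
    have hj : Jump (size m) B (vsq m z) (vsq m e.hi) (aft m B z {e} e.hi) :=
      (jump_white h hF hz hP _ _).2 (Or.inl ⟨e, he, hlo, hhi, rfl, rfl⟩)
    have hfit := fits_aft h hz (Set.singleton_subset_iff.2 he) (Or.inl hhi)
    have hP' : aft m B z {e} e.hi (vsq m e.hi) = some ⟨true, false⟩ := aft_vsq.trans hP
    have hbnd : Bnd m (F \ {e}) := man_bnd hF _
    by_cases hL' : L = []
    · subst hL'
      simp only [UpWalk] at hW
      subst hW
      have h0 : ({a | a ∈ [e]} : Set Edge) = {e} := by
        ext a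
        simp
      rw [h0]
      refine Capture.last hj (Or.inr ?_)
      intro y'' B'' hj'
      rcases (jump_white hfit hbnd (Set.mem_insert _ _) hP' y'' B'').1 hj' with
        ⟨a, ha, hlo', hhi', _, _⟩ | ⟨hk, _⟩
      · have h1 := hm a ha.1 hlo'
        have hl := lev_hi a
        rw [hlo'] at hl
        apply hhi'
        right
        refine ⟨h1, fun h3 => ?_⟩
        rw [Set.mem_singleton_iff] at h3
        rw [h3, ← hlo] at hl
        omega
      · simp at hk
    · have hW' : UpWalk (F \ {e}) (insert e.hi (U \ {z})) e.hi L z' := by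
        refine hW.conv ?_ ?_
        · intro a ha
          refine ⟨hW.mem ha, fun h1 => ?_⟩
          rw [Set.mem_singleton_iff] at h1
          have h2 := (hW.lev_mem ha).1
          rw [h1] at h2
          omega
        · intro a ha hn
          have h2 := (hW.lev_mem ha).1
          have hl := lev_hi a
          rintro (h1 | h1)
          · rw [h1] at hl
            omega
          · exact hn h1.1
      have hm' : ∀ a ∈ F \ {e}, a.lo = z' → a.hi ∈ insert e.hi (U \ {z}) := by
        intro a ha hlo'
        right
        refine ⟨hm a ha.1 hlo', fun h3 => ?_⟩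
        rw [Set.mem_singleton_iff] at h3
        have hl := lev_hi a
        have h2 := hW.lev_eq
        rw [h3, hlo', ← hlo] at hl
        omega
      have hc := ih hfit hbnd (Set.mem_insert _ _) hP' hL' hW' hm'
      rw [aft_aft (Or.inr (man_none h hhi)), man_set] at hc
      refine Capture.next hj ?_ hc
      rintro ⟨_, h1⟩
      exact h1 aft_vsq

end Pool.Agent.CHK
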