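import Pool.Agent.CHK.Lat

set_option autoImplicit false

/-! Squares of vertices and edges. -/

namespace Pool.Agent.CHK

theorem sq_v1 (m : ℕ) (z : V) : (vsq m z).1 = 50 * ((len m : ℤ) + 1) + 2 * (z.1 - z.2) := rfl

theorem sq_v2 (m : ℕ) (z : V) : (vsq m z).2 = 50 * ((len m : ℤ) + 1) + 2 * (z.1 + z.2) := rfl

theorem sq_e1 (m : ℕ) (e : Edge) : (esq m e).1 =
    50 * ((len m : ℤ) + 1) + 2 * (e.1 - e.2.1) + (if e.2.2 then -1 else 1) := rfl

theorem sq_e2 (m : ℕ) (e : Edge) : (esq m e).2 =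
    50 * ((len m : ℤ) + 1) + 2 * (e.1 + e.2.1) + 1 := rfl

theorem vsq_inj {m : ℕ} {z z' : V} (h : vsq m z = vsq m z') : z = z' := by
  rw [Prod.ext_iff, sq_v1, sq_v1, sq_v2, sq_v2] at h
  refine Prod.ext ?_ ?_ <;> omega

theorem esq_inj {m : ℕ} {e e' : Edge} (h : esq m e = esq m e') : e = e' := by
  rw [Prod.ext_iff, sq_e1, sq_e1, sq_e2, sq_e2] at h
  obtain ⟨p, q, b⟩ := e
  obtain ⟨p', q', b'⟩ := e'
  simp only at h
  cases b <;> cases b' <;> simp only [Prod.mk.injEq, and_true, reduceIte, Bool.false_eq_true] at h ⊢ <;>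
    omega

theorem vsq_ne_esq {m : ℕ} {z : V} {e : Edge} : vsq m z ≠ esq m e := by
  intro h
  rw [Prod.ext_iff, sq_v1, sq_v2, sq_e1, sq_e2] at h
  omega

theorem on_vsq {m : ℕ} {z : V} (h1 : |z.1| ≤ 10 * ((len m : ℤ) + 1) + 1)
    (h2 : |z.2| ≤ 10 * ((len m : ℤ) + 1) + 1) :
    On (size m) (vsq m z) ∧ 0 < (vsq m z).2 ∧ (vsq m z).2 < (size m : ℤ) - 1 := by
  have hs : (size m : ℤ) = 100 * ((len m : ℤ) + 1) := by unfold size; push_cast; ring
  rw [abs_le] at h1 h2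
  unfold On
  rw [sq_v1, sq_v2, hs, Int.even_iff]
  omega

theorem on_esq {m : ℕ} {e : Edge} (h1 : |e.1| ≤ 10 * ((len m : ℤ) + 1) + 1)
    (h2 : |e.2.1| ≤ 10 * ((len m : ℤ) + 1) + 1) :
    On (size m) (esq m e) ∧ 0 < (esq m e).2 ∧ (esq m e).2 < (size m : ℤ) - 1 := by
  have hs : (size m : ℤ) = 100 * ((len m : ℤ) + 1) := by unfold size; push_cast; ring
  rw [abs_le] at h1 h2
  unfold On
  rw [sq_e1, sq_e2, hs, Int.even_iff]
  split_ifs <;> omega

/-- Which square next to a vertex square is which edge square. -/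
theorem vsq_add {m : ℕ} {z : V} {d : Sq} (h1 : d.1 = 1 ∨ d.1 = -1) (h2 : d.2 = 1 ∨ d.2 = -1) :
    ∃ e : Edge, vsq m z + d = esq m e ∧
      ((d.2 = 1 ∧ e.lo = z ∧ vsq m z + d + d = vsq m e.hi) ∨
        (d.2 = -1 ∧ e.hi = z ∧ vsq m z + d + d = vsq m e.lo)) := by
  obtain ⟨p, q⟩ := z
  obtain ⟨a, b⟩ := d
  simp only at h1 h2
  rcases h1 with rfl | rfl <;> rcases h2 with rfl | rfl
  · refine ⟨(p, q, false), ?_, Or.inl ⟨rfl, rfl, ?_⟩⟩ <;>
      simp only [esq, vsq, Edge.lo, Edge.hi, Prod.mk_add_mk, Prod.mk.injEq, Bool.false_eq_true,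
        reduceIte] <;> omega
  · refine ⟨(p, q - 1, true), ?_, Or.inr ⟨rfl, ?_, ?_⟩⟩ <;>
      simp only [esq, vsq, Edge.lo, Edge.hi, Prod.mk_add_mk, Prod.mk.injEq, reduceIte,
        true_and] <;> omega
  · refine ⟨(p, q, true), ?_, Or.inl ⟨rfl, rfl, ?_⟩⟩ <;>
      simp only [esq, vsq, Edge.lo, Edge.hi, Prod.mk_add_mk, Prod.mk.injEq, reduceIte] <;> omega
  · refine ⟨(p - 1, q, false), ?_, Or.inr ⟨rfl, ?_, ?_⟩⟩ <;>
      simp only [esq, vsq, Edge.lo, Edge.hi, Prod.mk_add_mk, Prod.mk.injEq, Bool.false_eq_true,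
        reduceIte, and_true] <;> omega

/-- The converse. -/
theorem add_of_inc {m : ℕ} {z : V} {e : Edge} :
    (e.lo = z → ∃ d : Sq, (d.1 = 1 ∨ d.1 = -1) ∧ d.2 = 1 ∧ vsq m z + d = esq m e ∧
      vsq m z + d + d = vsq m e.hi) ∧
    (e.hi = z → ∃ d : Sq, (d.1 = 1 ∨ d.1 = -1) ∧ d.2 = -1 ∧ vsq m z + d = esq m e ∧
      vsq m z + d + d = vsq m e.lo) := by
  obtain ⟨p, q, b⟩ := e
  constructor
  · rintro rfl
    cases b
    · refine ⟨(1, 1), Or.inl rfl, rfl, ?_, ?_⟩ <;>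
        simp only [esq, vsq, Edge.lo, Edge.hi, Prod.mk_add_mk, Prod.mk.injEq, Bool.false_eq_true,
          reduceIte] <;> omega
    · refine ⟨(-1, 1), Or.inr rfl, rfl, ?_, ?_⟩ <;>
        simp only [esq, vsq, Edge.lo, Edge.hi, Prod.mk_add_mk, Prod.mk.injEq, reduceIte] <;> omega
  · rintro rfl
    cases b
    · refine ⟨(-1, -1), Or.inr rfl, rfl, ?_, ?_⟩ <;>
        simp only [esq, vsq, Edge.lo, Edge.hi, Prod.mk_add_mk, Prod.mk.injEq, Bool.false_eq_true,
          reduceIte] <;> omega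
    · refine ⟨(1, -1), Or.inl rfl, rfl, ?_, ?_⟩ <;>
        simp only [esq, vsq, Edge.lo, Edge.hi, Prod.mk_add_mk, Prod.mk.injEq, reduceIte] <;> omega

/-- The squares diagonally below an edge square: the lower end, and a square which is neither of a
vertex nor of an edge. -/
theorem esq_add {m : ℕ} {e : Edge} {d : Sq} (h1 : d.1 = 1 ∨ d.1 = -1) (h2 : d.2 = -1) :
    (esq m e + d = vsq m e.lo ∧ esq m e + d + d = esq m (opp e)) ∨
      ((∀ z, esq m e + d ≠ vsq m z) ∧ ∀ e', esq m e + d ≠ esq m e') := by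
  obtain ⟨p, q, b⟩ := e
  obtain ⟨x, y⟩ := d
  simp only at h1 h2
  subst h2
  rcases h1 with rfl | rfl <;> cases b
  · right
    constructor
    · intro z h
      rw [Prod.ext_iff, Prod.fst_add, Prod.snd_add, sq_v1, sq_v2, sq_e1, sq_e2] at h
      simp only [Bool.false_eq_true, reduceIte] at h
      omega
    · intro e' h
      rw [Prod.ext_iff, Prod.fst_add, Prod.snd_add, sq_e1, sq_e2, sq_e1, sq_e2] at h
      simp only [Bool.false_eq_true, reduceIte] at h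
      omega
  · left
    constructor <;>
      simp only [esq, vsq, opp, Edge.lo, Prod.mk_add_mk, Prod.mk.injEq, reduceIte] <;> omega
  · left
    constructor <;>
      simp only [esq, vsq, opp, Edge.lo, Prod.mk_add_mk, Prod.mk.injEq, Bool.false_eq_true,
        reduceIte] <;> omega
  · right
    constructor
    · intro z h
      rw [Prod.ext_iff, Prod.fst_add, Prod.snd_add, sq_v1, sq_v2, sq_e1, sq_e2] at h
      simp only [reduceIte] at h
      omega
    · intro e' h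
      rw [Prod.ext_iff, Prod.fst_add, Prod.snd_add, sq_e1, sq_e2, sq_e1, sq_e2] at h
      simp only [reduceIte] at h
      omega

theorem esq_add_lo {m : ℕ} (e : Edge) : ∃ d : Sq, (d.1 = 1 ∨ d.1 = -1) ∧ d.2 = -1 ∧
    esq m e + d = vsq m e.lo ∧ esq m e + d + d = esq m (opp e) := by
  obtain ⟨p, q, b⟩ := e
  cases b
  · refine ⟨(-1, -1), Or.inr rfl, rfl, ?_⟩
    constructor <;>
      simp only [esq, vsq, opp, Edge.lo, Prod.mk_add_mk, Prod.mk.injEq, Bool.false_eq_true,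
        reduceIte] <;> omega
  · refine ⟨(1, -1), Or.inl rfl, rfl, ?_⟩
    constructor <;>
      simp only [esq, vsq, opp, Edge.lo, Prod.mk_add_mk, Prod.mk.injEq, reduceIte] <;> omega

/-- A square next to an edge square is not an edge square. -/
theorem esq_add_ne {m : ℕ} {e e' : Edge} {d : Sq} (h1 : d.1 = 1 ∨ d.1 = -1)
    (h2 : d.2 = 1 ∨ d.2 = -1) : esq m e + d ≠ esq m e' := by
  intro h
  rw [Prod.ext_iff, Prod.fst_add, Prod.snd_add, sq_e1, sq_e2, sq_e1, sq_e2] at h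
  omega

end Pool.Agent.CHK
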