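import Pool.Agent.CHK.Reply
import Pool.Agent.CHK.Man
import Pool.Agent.CHK.King
import Pool.Agent.CHK.Sq

set_option autoImplicit false

/-! The winning move of White after the reply. -/

namespace Pool.Agent.CHK

theorem fin_king (l : Lay) {T : List Edge} {u : V} (hT : UpWalk l.E ∅ (-1, 0) T u)
    (hu : ∀ e ∈ l.E, e.lo ≠ u) :
    bjmp l.m (aft l.m l.place (-1, 0) {e | e ∈ T} u) (1, -2, true) (vsq l.m (1, -3)) =
      some ⟨true, true⟩ := by
  obtain ⟨_, h1, h2, h3, h4, _⟩ := end_facts hT hu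
  unfold bjmp
  rw [if_neg vsq_ne_esq, if_neg, ]
  · unfold aft
    rw [if_neg, if_neg, if_neg]
    · exact (place_fits l).2.2.2.2.1
    · intro h
      exact absurd (vsq_inj h) (by decide)
    · intro h
      exact h4 (vsq_inj h).symm
    · rintro ⟨e, _, h⟩
      exact vsq_ne_esq h
  · rintro (h | h)
    · exact vsq_ne_esq h
    · exact absurd (vsq_inj h) (by decide)

theorem fin_man (l : Lay) {T : List Edge} {u : V} (hT : UpWalk l.E ∅ (-1, 0) T u)
    (hu : ∀ e ∈ l.E, e.lo ≠ u) :
    bjmp l.m (aft l.m l.place (-1, 0) {e | e ∈ T} u) (1, -2, true) (vsq l.m (1, -1)) =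
      some ⟨true, false⟩ := by
  obtain ⟨_, h1, h2, h3, h4, _⟩ := end_facts hT hu
  unfold bjmp
  rw [if_neg vsq_ne_esq, if_neg, ]
  · unfold aft
    rw [if_neg, if_neg, if_neg]
    · exact (place_fits l).2.2.2.1
    · intro h
      exact absurd (vsq_inj h) (by decide)
    · intro h
      exact h3 (vsq_inj h).symm
    · rintro ⟨e, _, h⟩
      exact vsq_ne_esq h
  · rintro (h | h)
    · exact vsq_ne_esq h
    · exact absurd (vsq_inj h) (by decide)

theorem place_end (l : Lay) {T : List Edge} {u : V} (hT : UpWalk l.E ∅ (-1, 0) T u)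
    (hu : ∀ e ∈ l.E, e.lo ≠ u) :
    bjmp l.m (aft l.m l.place (-1, 0) {e | e ∈ T} u) (1, -2, true) (vsq l.m u) =
      some ⟨true, false⟩ := by
  obtain ⟨_, h1, h2, h3, h4, _⟩ := end_facts hT hu
  unfold bjmp
  rw [if_neg vsq_ne_esq, if_neg, ]
  · rw [aft_vsq]
    exact (place_fits l).2.1
  · rintro (h | h)
    · exact vsq_ne_esq h
    · exact h2 (vsq_inj h)

/-- The winning move after the reply. -/
theorem finish (l : Lay) (stop : Bool) {T : List Edge} {u : V} (hT : UpWalk l.E ∅ (-1, 0) T u)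
    (hu : ∀ e ∈ l.E, e.lo ≠ u) :
    (∃ B, Move (size l.m) stop true
        (bjmp l.m (aft l.m l.place (-1, 0) {e | e ∈ T} u) (1, -2, true)) B ∧ Cleared false B) ↔
      ∃ L z', Walk {e | (e ∈ l.E ∧ e ∉ T) ∨ e = (1, -3, true)} {u, (1, -1)} (1, -3) L z' ∧
        L.Nodup ∧ (1, -3, true) ∈ L ∧ ∀ e ∈ l.E, e ∉ T → e ∈ L := by
  have hf := fits_two hT hu
  have hb := bnd_two l T
  have hk := fin_king l hT hu
  have hm := fin_man l hT hu
  have hend := place_end l hT hu
  obtain ⟨_, h1, h2, h3, h4, h5⟩ := end_facts hT hu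
  set B₂ := bjmp l.m (aft l.m l.place (-1, 0) {e | e ∈ T} u) (1, -2, true) with hB₂
  have hU : U2 u \ {(1, -3)} = {u, (1, -1)} := by
    ext z
    simp only [U2, Set.mem_insert_iff, Set.mem_sdiff, Set.mem_singleton_iff]
    constructor
    · rintro ⟨h | h | h, h'⟩
      · exact Or.inl h
      · exact Or.inr h
      · exact absurd h h'
    · rintro (h | h)
      · exact ⟨Or.inl h, by rw [h]; exact h4⟩
      · refine ⟨Or.inr (Or.inl h), ?_⟩
        rw [h]; decide
  have hkU : ((1, -3) : V) ∈ U2 u := Or.inr (Or.inr rfl)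
  have hF2 : ({e | (e ∈ l.E ∧ e ∉ T) ∨ e = (1, -3, true)} : Set Edge) = F2 l T := rfl
  -- no capture by the man on `u` or on `(1, -1)`
  have hno : ∀ w : V, w ∈ U2 u → w ≠ (1, -3) → ∀ e ∈ F2 l T, e.lo ≠ w := by
    intro w hw hw3 e he h
    rcases he with ⟨h6, _⟩ | h6
    · rcases hw with h7 | h7 | h7
      · exact hu e h6 (h.trans h7)
      · exact (E_low l h6).2.2.1 (h.trans h7)
      · exact hw3 h7
    · subst h6
      exact hw3 h.symm
  constructor
  · rintro ⟨B, hM, hB⟩
    rcases hM with ⟨z, P, hz, hw, hC⟩ | ⟨h, _⟩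
    · rcases hf.only z P hz with ⟨w, hw', rfl⟩ | ⟨e, he | he, rfl⟩
      · by_cases hw3 : w = (1, -3)
        · subst hw3
          obtain ⟨L, z', hW, hN, hc⟩ := king_nec hf hb hkU hk hC hB
          rw [hU] at hW
          exact ⟨L, z', hW, hN, hc _ (Or.inr rfl), fun e he hT' => hc e (Or.inl ⟨he, hT'⟩)⟩
        · exfalso
          have hP : B₂ (vsq l.m w) = some ⟨true, false⟩ := by
            rcases hw' with h7 | h7 | h7
            · rw [h7]; exact hend
            · rw [h7]; exact hm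
            · exact absurd h7 hw3
          obtain ⟨L, z', hL, hW, _⟩ := man_nec hf hb hw' hP hC
          cases L with
          | nil => exact hL rfl
          | cons e L => exact hno w hw' hw3 e hW.1 hW.2.1
      · rw [hf.black e he] at hz
        cases hz
        cases hw
      · exfalso
        cases hC with
        | last h _ => exact jump_fill hf he _ _ h
        | next h _ _ => exact jump_fill hf he _ _ h
    · exfalso
      have h6 : Jump (size l.m) B₂ (vsq l.m (1, -3)) (vsq l.m (1, -2))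
          (aft l.m B₂ (1, -3) {(1, -3, true)} (1, -2)) := by
        rw [jump_white hf hb hkU hk]
        refine Or.inl ⟨(1, -3, true), Or.inr rfl, rfl, ?_, rfl, rfl⟩
        rintro (h7 | h7 | h7)
        · exact h2 h7.symm
        · exact absurd h7 (by decide)
        · exact absurd h7 (by decide)
      exact h _ _ _ _ hk rfl h6
  · rintro ⟨L, z', hW, hN, h6, hc⟩
    rw [hF2, ← hU] at hW
    have hL : L ≠ [] := by
      rintro rfl
      cases h6
    obtain ⟨B', hC, hB'⟩ := king_suf (stop := stop) hf hb hkU hk hL hW hN (by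
      rintro e (⟨h7, h8⟩ | h7)
      · exact hc e h7 h8
      · rw [h7]; exact h6)
    exact ⟨B', Or.inl ⟨_, _, hk, rfl, hC⟩, hB'⟩

end Pool.Agent.CHK
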