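import Pool.Agent.CHK.Lat
import Pool.Agent.CHK.Bfm

set_option autoImplicit false

/-! The checkers position of a layout is given by bounded formulas over the code of the layout. -/

namespace Pool.Agent.CHK

namespace Form

local instance : Add Tm := ⟨Tm.add⟩
local instance : Mul Tm := ⟨Tm.mul⟩
local instance (n : ℕ) : OfNat Tm n := ⟨Tm.const n⟩

theorem ev_add {n : ℕ} {v : ℕ → ℕ} (a b : Tm) : (a + b).eval n v = a.eval n v + b.eval n v := rfl
theorem ev_mul {n : ℕ} {v : ℕ → ℕ} (a b : Tm) : (a * b).eval n v = a.eval n v * b.eval n v := rfl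
theorem ev_one {n : ℕ} {v : ℕ → ℕ} : (1 : Tm).eval n v = 1 := rfl
theorem ev_two {n : ℕ} {v : ℕ → ℕ} : (2 : Tm).eval n v = 2 := rfl
theorem ev_three {n : ℕ} {v : ℕ → ℕ} : (3 : Tm).eval n v = 3 := rfl
theorem ev_four {n : ℕ} {v : ℕ → ℕ} : (4 : Tm).eval n v = 4 := rfl
theorem ev_five {n : ℕ} {v : ℕ → ℕ} : (5 : Tm).eval n v = 5 := rfl
theorem ev_50 {n : ℕ} {v : ℕ → ℕ} : (50 : Tm).eval n v = 50 := rfl
theorem ev_100 {n : ℕ} {v : ℕ → ℕ} : (100 : Tm).eval n v = 100 := rfl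

/-- variables -/
abbrev X (k : ℕ) : Tm := .var k

/-- the variable for the number of variables of the layout -/
abbrev M : Tm := .var 3

/-- the centre of the board -/
def KT : Tm := 50 * (Tm.len + 1)

/-- the size of the board -/
def NT : Tm := 100 * (Tm.len + 1)

/-- `i = s / m` -/
def fSl (s i : Tm) : Fm := (Fm.le (M * i) s).and (.lt s (M * i + M))

/-- there is a slot -/
def exSl (x y : ℕ) (f : Fm) : Fm := .ex x (M * M) (.ex y M ((fSl (X x) (X y)).and f))

theorem ex_sl {m : ℕ} {φ : ℕ → ℕ → Prop} :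
    (∃ s, s < m * m ∧ ∃ i, i < m ∧ (m * i ≤ s ∧ s < m * i + m) ∧ φ s i) ↔
      ∃ s, s < m * m ∧ φ s (s / m) := by
  constructor
  · rintro ⟨s, hs, i, hi, ⟨h1, h2⟩, h3⟩
    have : s / m = i := by
      apply Nat.div_eq_of_lt_le
      · rw [mul_comm]; exact h1
      · rw [Nat.succ_mul, mul_comm]; exact h2
    exact ⟨s, hs, this ▸ h3⟩
  · rintro ⟨s, hs, h3⟩
    have hm : 0 < m := by
      rcases Nat.eq_zero_or_pos m with h | h
      · subst h; omega
      · exact h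
    refine ⟨s, hs, s / m, Nat.div_lt_of_lt_mul hs, ⟨Nat.mul_div_le s m, ?_⟩, h3⟩
    have := Nat.lt_mul_div_succ s hm
    rw [Nat.mul_add, mul_one] at this
    exact this

theorem holds_exSl {w : List Bool} {v : ℕ → ℕ} {x y : ℕ} {f : Fm} (hx : x ≠ 3) (hy : y ≠ 3)
    (hxy : x ≠ y) : (exSl x y f).Holds w v ↔
      ∃ s, s < v 3 * v 3 ∧ f.Holds w (Function.update (Function.update v x s) y (s / v 3)) := by
  rw [exSl, Fm.holds_ex]
  simp only [Fm.holds_ex, fSl, Fm.holds_and, Fm.holds_le, Fm.holds_lt, ev_add, ev_mul, M,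
    Tm.eval_var, Function.update_of_ne (Ne.symm hx), Function.update_of_ne (Ne.symm hy),
    Function.update_of_ne hxy, Function.update_self, X]
  exact ex_sl (φ := fun s i => f.Holds w (Function.update (Function.update v x s) y i))

/-- the row with number `X 10` of the matrix number `d` has a leg in the slot `s` -/
def fR (d : ℕ) (s : Tm) : Fm :=
  .inp (M + 1 + Tm.const d * (M * (M * M)) + X 10 * (M * M) + s)

def fFst (d : ℕ) (s : Tm) : Fm :=
  (fR d s).and (.all 19 (M * M) ((fR d (X 19)).imp (.le s (X 19))))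

def fLst (d : ℕ) (s : Tm) : Fm :=
  (fR d s).and (.all 19 (M * M) ((fR d (X 19)).imp (.le (X 19) s)))

def fNxt (d : ℕ) (s t : Tm) : Fm :=
  (fR d s).and ((fR d t).and ((Fm.lt s t).and
    (.all 19 (M * M) ((fR d (X 19)).imp ((Fm.le (X 19) s).or (.le t (X 19)))))))

def caT (s i : Tm) : Tm := 2 * s + 4 * i

def trL : Tm := caT (X 11) (X 12) + 2 * X 11 + KT

def trR (a : ℕ) : Tm := X a + 2 * X 13 + 2

/-- the comb of the row number `X 10` -/
def fComb (d β a a' : ℕ) : Fm :=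
  exSl 11 12 (exSl 13 14 ((fFst d (X 11)).and ((fLst d (X 13)).and
    ((exSl 15 16 ((fR d (X 15)).and ((Fm.eq (X 6) (.const (1 - β))).and
      ((Fm.eq (X a') (caT (X 15) (X 16) + 4 + KT)).and ((Fm.le trL (trR a)).and
        ((Fm.lt (X a) (caT (X 15) (X 16) + KT)).and
          ((Fm.ne (X 15) (X 11)).imp (Fm.lt trL (trR a))))))))).or
    ((exSl 15 16 ((fR d (X 15)).and ((Fm.eq (X 6) (.const (1 - β))).and
      ((Fm.eq (X a') (caT (X 15) (X 16) + 5 + KT)).and ((Fm.le trL (trR a)).and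
        ((Fm.lt (X a) (caT (X 15) (X 16) + KT)).and
          ((Fm.ne (X 15) (X 13)).imp (Fm.lt trL (trR a))))))))).or
    ((exSl 15 16 ((fR d (X 15)).and ((Fm.eq (X 6) (.const β)).and
      ((Fm.eq (X a) (caT (X 15) (X 16) + KT)).and
        (Fm.eq (X a') (caT (X 15) (X 16) + 4 + KT)))))).or
    (((Fm.eq (X 6) (.const β)).and ((Fm.eq trL (trR a)).and
      ((Fm.le (caT (X 11) (X 12) + 4 + KT) (X a')).and
        (Fm.le (X a') (caT (X 13) (X 14) + 4 + KT))))).or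
    (exSl 15 16 (exSl 17 18 ((fNxt d (X 15) (X 17)).and ((Fm.eq (X 6) (.const β)).and
      ((Fm.eq (trL + 1) (trR a)).and ((Fm.le (caT (X 15) (X 16) + 5 + KT) (X a')).and
        (Fm.lt (X a') (caT (X 17) (X 18) + 4 + KT))))))))))))))) 

/-- natural version of `ca` -/
def can (m s : ℕ) : ℕ := 2 * s + 4 * (s / m)

/-- The meaning of `fComb`. -/
def CombN (R : ℕ → Prop) (m K P Q b β : ℕ) : Prop :=
  ∃ s₁, s₁ < m * m ∧ ∃ s₂, s₂ < m * m ∧ (R s₁ ∧ ∀ u, u < m * m → R u → s₁ ≤ u) ∧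
    (R s₂ ∧ ∀ u, u < m * m → R u → u ≤ s₂) ∧
    ((∃ s, s < m * m ∧ R s ∧ b = 1 - β ∧ Q = can m s + 4 + K ∧
        can m s₁ + 2 * s₁ + K ≤ P + 2 * s₂ + 2 ∧ P < can m s + K ∧
        (s ≠ s₁ → can m s₁ + 2 * s₁ + K < P + 2 * s₂ + 2)) ∨
      (∃ s, s < m * m ∧ R s ∧ b = 1 - β ∧ Q = can m s + 5 + K ∧
        can m s₁ + 2 * s₁ + K ≤ P + 2 * s₂ + 2 ∧ P < can m s + K ∧
        (s ≠ s₂ → can m s₁ + 2 * s₁ + K < P + 2 * s₂ + 2)) ∨
      (∃ s, s < m * m ∧ R s ∧ b = β ∧ P = can m s + K ∧ Q = can m s + 4 + K) ∨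
      (b = β ∧ can m s₁ + 2 * s₁ + K = P + 2 * s₂ + 2 ∧ can m s₁ + 4 + K ≤ Q ∧
        Q ≤ can m s₂ + 4 + K) ∨
      (∃ s, s < m * m ∧ ∃ t, t < m * m ∧ (R s ∧ R t ∧ s < t ∧
        ∀ u, u < m * m → R u → u ≤ s ∨ t ≤ u) ∧ b = β ∧
        can m s₁ + 2 * s₁ + K + 1 = P + 2 * s₂ + 2 ∧ can m s + 5 + K ≤ Q ∧
        Q < can m t + 4 + K))

theorem holds_fComb {w : List Bool} {v : ℕ → ℕ} {d β a a' : ℕ} (h : a = 4 ∧ a' = 5 ∨ a = 5 ∧ a' = 4) :
    (fComb d β a a').Holds w v ↔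
      CombN (fun s => w[v 3 + 1 + d * (v 3 * (v 3 * v 3)) + v 10 * (v 3 * v 3) + s]? = some true)
        (v 3) (50 * (w.length + 1)) (v a) (v a') (v 6) β := by
  have h1 : ∀ x y : ℕ, ∀ f : Fm, ∀ v' : ℕ → ℕ, 11 ≤ x → x < y → ((exSl x y f).Holds w v' ↔
      ∃ s, s < v' 3 * v' 3 ∧ f.Holds w (Function.update (Function.update v' x s) y (s / v' 3))) := by
    intro x y f v' hx hy
    exact holds_exSl (by omega) (by omega) (by omega)
  rcases h with ⟨rfl, rfl⟩ | ⟨rfl, rfl⟩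
  all_goals
    unfold fComb CombN can
    rw [h1 _ _ _ _ (by omega) (by omega)]
    simp only [h1 13 14 _ _ (by omega) (by omega), h1 15 16 _ _ (by omega) (by omega),
      h1 17 18 _ _ (by omega) (by omega), fFst, fLst, fNxt, fR, trL, trR, caT, KT, X, M,
      Fm.holds_and, Fm.holds_or, Fm.holds_all, Fm.holds_imp, Fm.holds_le, Fm.holds_lt,
      Fm.holds_eq, Fm.holds_ne, Fm.holds_inp, ev_add, ev_mul, ev_one, ev_two, ev_four, ev_five,
      ev_50, Tm.eval_var, Tm.eval_const, Tm.eval_len]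
    simp

theorem cast_can (m s : ℕ) : ((can m s : ℕ) : ℤ) = ca m s := by
  simp [can, ca]

theorem comb_iff {m : ℕ} {r : ℕ → Bool} (hr : ∀ s, r s = true → s < m * m) {R : ℕ → Prop}
    (hR : ∀ s, s < m * m → (R s ↔ r s = true)) {K P Q b β : ℕ} (hb : b < 2) (hβ : β < 2) :
    CombN R m K P Q b β ↔ ((P : ℤ) - K, (Q : ℤ) - K, decide (b = β)) ∈ Comb m r := by
  have hh : b = 1 - β ↔ decide (b = β) = false := by
    rw [decide_eq_false_iff_not]
    omega
  have hv : b = β ↔ decide (b = β) = true := by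
    rw [decide_eq_true_iff]
  unfold CombN
  obtain ⟨e, he⟩ : ∃ e, e = decide (b = β) := ⟨_, rfl⟩
  rw [← he] at hh hv ⊢
  rw [Comb, Set.mem_ofPred_eq, hh, hv]
  constructor
  · rintro ⟨s₁, h₁, s₂, h₂, ⟨a₁, a₂⟩, ⟨a₃, a₄⟩, h⟩
    refine ⟨s₁, s₂, ⟨(hR _ h₁).1 a₁, fun t ht => a₂ t (hr t ht) ((hR _ (hr t ht)).2 ht)⟩,
      ⟨(hR _ h₂).1 a₃, fun t ht => a₄ t (hr t ht) ((hR _ (hr t ht)).2 ht)⟩, ?_⟩
    have c1 := cast_can m s₁
    have c2 := cast_can m s₂
    rcases h with ⟨s, h₃, h₄, h₅, h₆, h₇, h₈, h₉⟩ | ⟨s, h₃, h₄, h₅, h₆, h₇, h₈, h₉⟩ |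
      ⟨s, h₃, h₄, h₅, h₆, h₇⟩ | ⟨h₅, h₆, h₇, h₈⟩ | ⟨s, h₃, t, h₃', ⟨h₄, h₄', h₅, h₆⟩, h₇, h₈, h₉, h₁₀⟩
    · have c3 := cast_can m s
      refine ⟨(P : ℤ) - K, Or.inl ⟨s, (hR _ h₃).1 h₄, ?_, ?_, ?_, ?_⟩⟩
      · rw [Prod.mk.injEq, Prod.mk.injEq, cb]
        exact ⟨rfl, by omega, h₅⟩
      · rw [trunk]
        omega
      · omega
      · intro h
        have := h₉ h
        rw [trunk]
        omega
    · have c3 := cast_can m s
      refine ⟨(P : ℤ) - K, Or.inr (Or.inl ⟨s, (hR _ h₃).1 h₄, ?_, ?_, ?_, ?_⟩)⟩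
      · rw [Prod.mk.injEq, Prod.mk.injEq, cb]
        exact ⟨rfl, by omega, h₅⟩
      · rw [trunk]
        omega
      · omega
      · intro h
        have := h₉ h
        rw [trunk]
        omega
    · have c3 := cast_can m s
      refine ⟨0, Or.inr (Or.inr (Or.inl ⟨s, (hR _ h₃).1 h₄, ?_⟩))⟩
      rw [Prod.mk.injEq, Prod.mk.injEq, cb]
      exact ⟨by omega, by omega, h₅⟩
    · refine ⟨(Q : ℤ) - K, Or.inr (Or.inr (Or.inr (Or.inl ⟨?_, ?_, ?_⟩)))⟩
      · rw [Prod.mk.injEq, Prod.mk.injEq, trunk]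
        exact ⟨by omega, rfl, h₅⟩
      · rw [cb]
        omega
      · rw [cb]
        omega
    · have c3 := cast_can m s
      have c4 := cast_can m t
      refine ⟨(Q : ℤ) - K, Or.inr (Or.inr (Or.inr (Or.inr ⟨s, t,
        ⟨(hR _ h₃).1 h₄, (hR _ h₃').1 h₄', h₅,
          fun u hu => h₆ u (hr u hu) ((hR _ (hr u hu)).2 hu)⟩, ?_, ?_, ?_⟩)))⟩
      · rw [Prod.mk.injEq, Prod.mk.injEq, trunk]
        exact ⟨by omega, rfl, h₇⟩
      · rw [cb]
        omega
      · rw [cb]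
        omega
  · rintro ⟨s₁, s₂, ⟨a₁, a₂⟩, ⟨a₃, a₄⟩, x, h⟩
    have c1 := cast_can m s₁
    have c2 := cast_can m s₂
    refine ⟨s₁, hr _ a₁, s₂, hr _ a₃, ⟨(hR _ (hr _ a₁)).2 a₁, fun u hu h => a₂ u ((hR _ hu).1 h)⟩,
      ⟨(hR _ (hr _ a₃)).2 a₃, fun u hu h => a₄ u ((hR _ hu).1 h)⟩, ?_⟩
    rcases h with ⟨s, h₁, h₂, h₃, h₄, h₅⟩ | ⟨s, h₁, h₂, h₃, h₄, h₅⟩ | ⟨s, h₁, h₂⟩ | ⟨h₁, h₂, h₃⟩ |
      ⟨s, t, ⟨h₁, h₂, h₃, h₄⟩, h₅, h₆, h₇⟩
    · have c3 := cast_can m s
      rw [Prod.mk.injEq, Prod.mk.injEq, cb] at h₂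
      rw [trunk] at h₃ h₅
      refine Or.inl ⟨s, hr _ h₁, (hR _ (hr _ h₁)).2 h₁, h₂.2.2, ?_, ?_, ?_, ?_⟩
      · omega
      · omega
      · omega
      · intro h
        have := h₅ h
        omega
    · have c3 := cast_can m s
      rw [Prod.mk.injEq, Prod.mk.injEq, cb] at h₂
      rw [trunk] at h₃ h₅
      refine Or.inr (Or.inl ⟨s, hr _ h₁, (hR _ (hr _ h₁)).2 h₁, h₂.2.2, ?_, ?_, ?_, ?_⟩)
      · omega
      · omega
      · omega
      · intro h
        have := h₅ h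
        omega
    · have c3 := cast_can m s
      rw [Prod.mk.injEq, Prod.mk.injEq, cb] at h₂
      refine Or.inr (Or.inr (Or.inl ⟨s, hr _ h₁, (hR _ (hr _ h₁)).2 h₁, h₂.2.2, ?_, ?_⟩))
      · omega
      · omega
    · rw [Prod.mk.injEq, Prod.mk.injEq, trunk] at h₁
      rw [cb] at h₂ h₃
      refine Or.inr (Or.inr (Or.inr (Or.inl ⟨h₁.2.2, ?_, ?_, ?_⟩)))
      · omega
      · omega
      · omega
    · have c3 := cast_can m s
      have c4 := cast_can m t
      rw [Prod.mk.injEq, Prod.mk.injEq, trunk] at h₅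
      rw [cb] at h₆ h₇
      refine Or.inr (Or.inr (Or.inr (Or.inr ⟨s, hr _ h₁, t, hr _ h₂,
        ⟨(hR _ (hr _ h₁)).2 h₁, (hR _ (hr _ h₂)).2 h₂, h₃,
          fun u hu h => h₄ u ((hR _ hu).1 h)⟩, h₅.2.2, ?_, ?_, ?_⟩)))
      · omega
      · omega
      · omega

/-! ### sides -/

/-- the left side of the variable number `X 9` -/
def fSide (β a a' : ℕ) : Fm :=
  ((Fm.eq (X 6) (.const β)).and ((Fm.eq (X a) ((2 * M + 4) * X 9 + KT)).and
    ((Fm.le ((2 * M + 4) * X 9 + KT) (X a')).and (Fm.lt (X a') ((2 * M + 4) * X 9 + KT + 4))))).or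
  ((Fm.ex 11 M ((Fm.eq (X 6) (.const (1 - β))).and
    ((Fm.eq (X a') ((2 * M + 4) * X 9 + KT + 4 + 2 * X 11)).and
    ((Fm.le ((2 * M + 4) * X 9 + KT + 2 * X 11) (X a)).and
      (Fm.lt (X a) ((2 * M + 4) * X 9 + KT + 2 * X 11 + 2)))))).or
  ((Fm.ex 11 M ((Fm.eq (X 6) (.const β)).and
    ((Fm.eq (X a) ((2 * M + 4) * X 9 + KT + 2 + 2 * X 11)).and
    ((Fm.le ((2 * M + 4) * X 9 + KT + 4 + 2 * X 11) (X a')).and
      (Fm.lt (X a') ((2 * M + 4) * X 9 + KT + 2 * X 11 + 4 + 2)))))).or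
  ((Fm.eq (X 6) (.const (1 - β))).and
    ((Fm.eq (X a') ((2 * M + 4) * X 9 + KT + (2 * M + 4))).and
    ((Fm.le ((2 * M + 4) * X 9 + KT + 2 * M) (X a)).and
      (Fm.lt (X a) ((2 * M + 4) * X 9 + KT + (2 * M + 4))))))))

/-- The meaning of `fSide`. -/
def SideN (m i K P Q b β : ℕ) : Prop :=
  (b = β ∧ P = (2 * m + 4) * i + K ∧ (2 * m + 4) * i + K ≤ Q ∧ Q < (2 * m + 4) * i + K + 4) ∨
  (∃ j, j < m ∧ b = 1 - β ∧ Q = (2 * m + 4) * i + K + 4 + 2 * j ∧ (2 * m + 4) * i + K + 2 * j ≤ P ∧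
    P < (2 * m + 4) * i + K + 2 * j + 2) ∨
  (∃ j, j < m ∧ b = β ∧ P = (2 * m + 4) * i + K + 2 + 2 * j ∧
    (2 * m + 4) * i + K + 4 + 2 * j ≤ Q ∧ Q < (2 * m + 4) * i + K + 2 * j + 4 + 2) ∨
  (b = 1 - β ∧ Q = (2 * m + 4) * i + K + (2 * m + 4) ∧ (2 * m + 4) * i + K + 2 * m ≤ P ∧
    P < (2 * m + 4) * i + K + (2 * m + 4))

theorem holds_fSide {w : List Bool} {v : ℕ → ℕ} {β a a' : ℕ} (h : a = 4 ∧ a' = 5 ∨ a = 5 ∧ a' = 4) :
    (fSide β a a').Holds w v ↔
      SideN (v 3) (v 9) (50 * (w.length + 1)) (v a) (v a') (v 6) β := by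
  rcases h with ⟨rfl, rfl⟩ | ⟨rfl, rfl⟩
  all_goals
    unfold fSide SideN
    simp only [KT, X, M,
      Fm.holds_and, Fm.holds_or, Fm.holds_ex, Fm.holds_le, Fm.holds_lt,
      Fm.holds_eq, ev_add, ev_mul, ev_one, ev_two, ev_four, ev_50, Tm.eval_var, Tm.eval_const,
      Tm.eval_len]
    simp

theorem side_iff {m i K P Q b β : ℕ} (hb : b < 2) (hβ : β < 2) :
    SideN m i K P Q b β ↔ ((P : ℤ) - K, (Q : ℤ) - K, decide (b = β)) ∈ Side m i := by
  have hh : b = 1 - β ↔ decide (b = β) = false := by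
    rw [decide_eq_false_iff_not]
    omega
  have hv : b = β ↔ decide (b = β) = true := by
    rw [decide_eq_true_iff]
  have c1 : (((2 * m + 4) * i : ℕ) : ℤ) = bs m i := by
    rw [bs]; push_cast; ring
  have c2 : bs m (i + 1) = bs m i + (2 * m + 4) := by
    rw [bs, bs]; push_cast; ring
  unfold SideN
  obtain ⟨e, he⟩ : ∃ e, e = decide (b = β) := ⟨_, rfl⟩
  rw [← he] at hh hv ⊢
  rw [Side, Set.mem_ofPred_eq, c2, hh, hv]
  obtain ⟨B, hB⟩ : ∃ B, B = (2 * m + 4) * i := ⟨_, rfl⟩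
  rw [← hB] at c1 ⊢
  rw [← c1]
  constructor
  · rintro (⟨h1, h2, h3, h4⟩ | ⟨j, hj, h1, h2, h3, h4⟩ | ⟨j, hj, h1, h2, h3, h4⟩ | ⟨h1, h2, h3, h4⟩)
    · refine ⟨(Q : ℤ) - K, Or.inl ⟨?_, by omega, by omega⟩⟩
      rw [Prod.mk.injEq, Prod.mk.injEq]
      exact ⟨by omega, by omega, h1⟩
    · refine ⟨(P : ℤ) - K, Or.inr (Or.inl ⟨j, hj, ?_, by omega, by omega⟩)⟩
      rw [Prod.mk.injEq, Prod.mk.injEq]
      exact ⟨by omega, by omega, h1⟩
    · refine ⟨(Q : ℤ) - K, Or.inr (Or.inr (Or.inl ⟨j, hj, ?_, by omega, by omega⟩))⟩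
      rw [Prod.mk.injEq, Prod.mk.injEq]
      exact ⟨by omega, by omega, h1⟩
    · refine ⟨(P : ℤ) - K, Or.inr (Or.inr (Or.inr ⟨?_, by omega, by omega⟩))⟩
      rw [Prod.mk.injEq, Prod.mk.injEq]
      exact ⟨by omega, by omega, h1⟩
  · rintro ⟨x, ⟨h1, h2, h3⟩ | ⟨j, hj, h1, h2, h3⟩ | ⟨j, hj, h1, h2, h3⟩ | ⟨h1, h2, h3⟩⟩
    · rw [Prod.mk.injEq, Prod.mk.injEq] at h1
      exact Or.inl ⟨h1.2.2, by omega, by omega, by omega⟩
    · rw [Prod.mk.injEq, Prod.mk.injEq] at h1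
      exact Or.inr (Or.inl ⟨j, hj, h1.2.2, by omega, by omega, by omega⟩)
    · rw [Prod.mk.injEq, Prod.mk.injEq] at h1
      exact Or.inr (Or.inr (Or.inl ⟨j, hj, h1.2.2, by omega, by omega, by omega⟩))
    · rw [Prod.mk.injEq, Prod.mk.injEq] at h1
      exact Or.inr (Or.inr (Or.inr ⟨h1.2.2, by omega, by omega, by omega⟩))

/-! ### the word -/

theorem flat {α : Type} (g : ℕ → α) (a b : ℕ) :
    (List.range (a * b)).map g =
      (List.range a).flatMap fun y => (List.range b).map fun x => g (y * b + x) := by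
  induction a with
  | zero => simp
  | succ a ih =>
    rw [Nat.succ_mul, List.range_add, List.map_append, ih, List.range_succ, List.flatMap_append]
    simp [Function.comp_def]

theorem rows_eq (g : ℕ → ℕ → Bool) (a b : ℕ) :
    ((List.range a).flatMap fun c => (List.range b).map (g c)) =
      (List.range (a * b)).map fun i => g (i / b) (i % b) := by
  rw [flat]
  congr 1
  funext c
  apply List.map_congr_left
  intro x hx
  rw [List.mem_range] at hx
  rw [mul_comm c b, Nat.mul_add_div (by omega), Nat.mul_add_mod, Nat.div_eq_of_lt hx,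
    Nat.mod_eq_of_lt hx, Nat.add_zero]

theorem encLay_eq (l : Lay) : encLay l = List.replicate l.m true ++ false ::
    ((List.range (l.m * (l.m * l.m))).map (fun i => l.pos (i / (l.m * l.m)) (i % (l.m * l.m))) ++
    (List.range (l.m * (l.m * l.m))).map fun i => l.neg (i / (l.m * l.m)) (i % (l.m * l.m))) := by
  rw [encLay, rows_eq, rows_eq, List.append_assoc, List.cons_append]

theorem encLay_length (l : Lay) : (encLay l).length = len l.m := by
  rw [encLay_eq]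
  simp [len]
  ring

theorem get_lt (l : Lay) {j : ℕ} (h : j < l.m) : (encLay l)[j]? = some true := by
  rw [encLay_eq, List.getElem?_append_left (by simpa using h)]
  simp [h]

theorem get_m (l : Lay) : (encLay l)[l.m]? = some false := by
  rw [encLay_eq, List.getElem?_append_right (by simp)]
  simp

theorem get_pos (l : Lay) {c s : ℕ} (hc : c < l.m) (hs : s < l.m * l.m) :
    (encLay l)[l.m + 1 + 0 * (l.m * (l.m * l.m)) + c * (l.m * l.m) + s]? =
      some (l.pos c s) := by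
  have h1 : c * (l.m * l.m) + s < l.m * (l.m * l.m) := by
    calc c * (l.m * l.m) + s < c * (l.m * l.m) + l.m * l.m := by omega
      _ = (c + 1) * (l.m * l.m) := by ring
      _ ≤ l.m * (l.m * l.m) := Nat.mul_le_mul_right _ hc
  rw [encLay_eq, List.getElem?_append_right (by simp; omega)]
  have h2 : l.m + 1 + 0 * (l.m * (l.m * l.m)) + c * (l.m * l.m) + s -
      (List.replicate l.m true).length = c * (l.m * l.m) + s + 1 := by
    rw [List.length_replicate]
    omega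
  rw [h2, List.getElem?_cons_succ, List.getElem?_append_left (by simpa using h1),
    List.getElem?_map, List.getElem?_range h1, Option.map_some, mul_comm c (l.m * l.m),
    Nat.mul_add_div (by omega), Nat.mul_add_mod, Nat.div_eq_of_lt hs, Nat.mod_eq_of_lt hs,
    Nat.add_zero]

theorem get_neg (l : Lay) {c s : ℕ} (hc : c < l.m) (hs : s < l.m * l.m) :
    (encLay l)[l.m + 1 + 1 * (l.m * (l.m * l.m)) + c * (l.m * l.m) + s]? =
      some (l.neg c s) := by
  have h1 : c * (l.m * l.m) + s < l.m * (l.m * l.m) := by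
    calc c * (l.m * l.m) + s < c * (l.m * l.m) + l.m * l.m := by omega
      _ = (c + 1) * (l.m * l.m) := by ring
      _ ≤ l.m * (l.m * l.m) := Nat.mul_le_mul_right _ hc
  rw [encLay_eq, List.getElem?_append_right (by simp; omega)]
  have h2 : l.m + 1 + 1 * (l.m * (l.m * l.m)) + c * (l.m * l.m) + s -
      (List.replicate l.m true).length = l.m * (l.m * l.m) + (c * (l.m * l.m) + s) + 1 := by
    rw [List.length_replicate]
    omega
  rw [h2, List.getElem?_cons_succ, List.getElem?_append_right (by simp),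
    List.length_map, List.length_range, Nat.add_sub_cancel_left,
    List.getElem?_map, List.getElem?_range h1, Option.map_some, mul_comm c (l.m * l.m),
    Nat.mul_add_div (by omega), Nat.mul_add_mod, Nat.div_eq_of_lt hs, Nat.mod_eq_of_lt hs,
    Nat.add_zero]

/-- `X 3` is the number of variables -/
def fM : Fm := (Fm.inp M).neg.and (.all 7 M (.inp (X 7)))

theorem holds_fM (l : Lay) {v : ℕ → ℕ} : fM.Holds (encLay l) v ↔ v 3 = l.m := by
  simp only [fM, Fm.holds_and, Fm.holds_neg, Fm.holds_inp, Fm.holds_all, M, X, Tm.eval_var,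
    Function.update_self]
  constructor
  · rintro ⟨h1, h2⟩
    rcases lt_trichotomy (v 3) l.m with h | h | h
    · exact absurd (get_lt l h) h1
    · exact h
    · have := h2 _ h
      rw [get_m] at this
      simp at this
  · intro h
    rw [h]
    refine ⟨?_, fun a ha => get_lt l ha⟩
    rw [get_m]
    simp

/-! ### the edges -/

def fX : Fm :=
  ((Fm.eq (X 4 + 1) KT).and ((Fm.eq (X 5) KT).and (Fm.eq (X 6) (.const 0)))).or
  (((Fm.eq (X 4) KT).and ((Fm.eq (X 5 + 1) KT).and (Fm.eq (X 6) (.const 1)))).or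
  (((Fm.eq (X 4) KT).and ((Fm.eq (X 5 + 2) KT).and (Fm.eq (X 6) (.const 1)))).or
  (((Fm.eq (X 4) KT).and ((Fm.eq (X 5 + 2) KT).and (Fm.eq (X 6) (.const 0)))).or
  (((Fm.eq (X 4) ((2 * M + 4) * M + KT)).and ((Fm.eq (X 5) ((2 * M + 4) * M + KT)).and
    (Fm.eq (X 6) (.const 0)))).or
  (((Fm.eq (X 4) ((2 * M + 4) * M + KT)).and ((Fm.eq (X 5) ((2 * M + 4) * M + KT)).and
    (Fm.eq (X 6) (.const 1)))).or
  ((Fm.eq (X 4) (KT + 1)).and ((Fm.eq (X 5 + 2) KT).and (Fm.eq (X 6) (.const 1)))))))))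

theorem holds_fX {w : List Bool} {v : ℕ → ℕ} (hb : v 6 < 2) :
    fX.Holds w v ↔
      (((v 4 : ℤ) - (50 * (w.length + 1) : ℕ), (v 5 : ℤ) - (50 * (w.length + 1) : ℕ),
        decide (v 6 = 1)) ∈ Extra (v 3) ∨
      ((v 4 : ℤ) - (50 * (w.length + 1) : ℕ), (v 5 : ℤ) - (50 * (w.length + 1) : ℕ),
        decide (v 6 = 1)) = ((1, -2, true) : Edge)) := by
  have c1 : (((2 * v 3 + 4) * v 3 : ℕ) : ℤ) = bs (v 3) (v 3) := by
    rw [bs]; push_cast; ring
  have hh : v 6 = 0 ↔ decide (v 6 = 1) = false := by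
    rw [decide_eq_false_iff_not]
    omega
  have hv : v 6 = 1 ↔ decide (v 6 = 1) = true := by
    rw [decide_eq_true_iff]
  obtain ⟨e, he⟩ : ∃ e, e = decide (v 6 = 1) := ⟨_, rfl⟩
  rw [← he] at hh hv ⊢
  simp only [fX, KT, X, M, Fm.holds_and, Fm.holds_or, Fm.holds_eq, ev_add, ev_mul, ev_one, ev_two,
    ev_four, ev_50, Tm.eval_var, Tm.eval_const, Tm.eval_len, hh, hv, Extra, Set.mem_insert_iff,
    Set.mem_singleton_iff, Prod.mk.injEq, ← c1, or_assoc]
  obtain ⟨K, hK⟩ : ∃ K, K = 50 * (w.length + 1) := ⟨_, rfl⟩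
  obtain ⟨B, hB⟩ : ∃ B, B = (2 * v 3 + 4) * v 3 := ⟨_, rfl⟩
  rw [← hK, ← hB]
  constructor
  · rintro (⟨h1, h2, h3⟩ | ⟨h1, h2, h3⟩ | ⟨h1, h2, h3⟩ | ⟨h1, h2, h3⟩ | ⟨h1, h2, h3⟩ |
      ⟨h1, h2, h3⟩ | ⟨h1, h2, h3⟩)
    · exact Or.inl ⟨by omega, by omega, h3⟩
    · exact Or.inr (Or.inl ⟨by omega, by omega, h3⟩)
    · exact Or.inr (Or.inr (Or.inl ⟨by omega, by omega, h3⟩))
    · exact Or.inr (Or.inr (Or.inr (Or.inl ⟨by omega, by omega, h3⟩)))
    · exact Or.inr (Or.inr (Or.inr (Or.inr (Or.inl ⟨by omega, by omega, h3⟩))))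
    · exact Or.inr (Or.inr (Or.inr (Or.inr (Or.inr (Or.inl ⟨by omega, by omega, h3⟩)))))
    · exact Or.inr (Or.inr (Or.inr (Or.inr (Or.inr (Or.inr ⟨by omega, by omega, h3⟩)))))
  · rintro (⟨h1, h2, h3⟩ | ⟨h1, h2, h3⟩ | ⟨h1, h2, h3⟩ | ⟨h1, h2, h3⟩ | ⟨h1, h2, h3⟩ |
      ⟨h1, h2, h3⟩ | ⟨h1, h2, h3⟩)
    · exact Or.inl ⟨by omega, by omega, h3⟩
    · exact Or.inr (Or.inl ⟨by omega, by omega, h3⟩)
    · exact Or.inr (Or.inr (Or.inl ⟨by omega, by omega, h3⟩))
    · exact Or.inr (Or.inr (Or.inr (Or.inl ⟨by omega, by omega, h3⟩)))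
    · exact Or.inr (Or.inr (Or.inr (Or.inr (Or.inl ⟨by omega, by omega, h3⟩))))
    · exact Or.inr (Or.inr (Or.inr (Or.inr (Or.inr (Or.inl ⟨by omega, by omega, h3⟩)))))
    · exact Or.inr (Or.inr (Or.inr (Or.inr (Or.inr (Or.inr ⟨by omega, by omega, h3⟩)))))

def fE : Fm :=
  (Fm.ex 9 M ((fSide 1 4 5).or (fSide 0 5 4))).or
    ((Fm.ex 10 M ((fComb 0 1 4 5).or (fComb 1 0 5 4))).or fX)

theorem comb_ne {m : ℕ} {r : ℕ → Bool} {e : Edge} (he : e ∈ Comb m r) : ∃ s, r s = true := by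
  obtain ⟨s, _, h, _⟩ := he
  exact ⟨s, h.1⟩

theorem holds_fE (l : Lay) {v : ℕ → ℕ} (hm : v 3 = l.m) (hb : v 6 < 2) {e : Edge}
    (he : e = ((v 4 : ℤ) - (50 * (len l.m + 1) : ℕ), (v 5 : ℤ) - (50 * (len l.m + 1) : ℕ),
      decide (v 6 = 1))) :
    fE.Holds (encLay l) v ↔ (e ∈ l.E ∨ e = (1, -2, true)) := by
  have hmir : mirror e = ((v 5 : ℤ) - (50 * (len l.m + 1) : ℕ),
      (v 4 : ℤ) - (50 * (len l.m + 1) : ℕ), decide (v 6 = 0)) := by
    rw [he, mirror]
    refine Prod.ext rfl (Prod.ext rfl ?_)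
    show (!decide (v 6 = 1)) = decide (v 6 = 0)
    rw [← decide_not, decide_eq_decide]
    omega
  have h1 : (Fm.ex 9 M ((fSide 1 4 5).or (fSide 0 5 4))).Holds (encLay l) v ↔
      ∃ i < l.m, e ∈ Side l.m i ∨ mirror e ∈ Side l.m i := by
    rw [Fm.holds_ex, Tm.eval_var, hm]
    refine exists_congr fun i => and_congr_right fun hi => ?_
    rw [Fm.holds_or, holds_fSide (Or.inl ⟨rfl, rfl⟩), holds_fSide (Or.inr ⟨rfl, rfl⟩),
      Function.update_self, Function.update_of_ne (by omega), Function.update_of_ne (by omega),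
      Function.update_of_ne (by omega), Function.update_of_ne (by omega), hm,
      side_iff hb (by omega), side_iff hb (by omega), encLay_length, hmir, he]
  have h2 : (Fm.ex 10 M ((fComb 0 1 4 5).or (fComb 1 0 5 4))).Holds (encLay l) v ↔
      ∃ c, e ∈ Comb l.m (l.pos c) ∨ mirror e ∈ Comb l.m (l.neg c) := by
    rw [Fm.holds_ex, Tm.eval_var, hm]
    have h3 : (∃ c, e ∈ Comb l.m (l.pos c) ∨ mirror e ∈ Comb l.m (l.neg c)) ↔
        ∃ c, c < l.m ∧ (e ∈ Comb l.m (l.pos c) ∨ mirror e ∈ Comb l.m (l.neg c)) := by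
      constructor
      · rintro ⟨c, h | h⟩
        · obtain ⟨s, hs⟩ := comb_ne h
          exact ⟨c, (l.pos_lt c s hs).1, Or.inl h⟩
        · obtain ⟨s, hs⟩ := comb_ne h
          exact ⟨c, (l.neg_lt c s hs).1, Or.inr h⟩
      · rintro ⟨c, _, h⟩
        exact ⟨c, h⟩
    rw [h3]
    refine exists_congr fun c => and_congr_right fun hc => ?_
    rw [Fm.holds_or, holds_fComb (Or.inl ⟨rfl, rfl⟩), holds_fComb (Or.inr ⟨rfl, rfl⟩),
      Function.update_self, Function.update_of_ne (by omega), Function.update_of_ne (by omega),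
      Function.update_of_ne (by omega), Function.update_of_ne (by omega), hm,
      comb_iff (r := l.pos c) (fun s hs => (l.pos_lt c s hs).2) (fun s hs => by
        rw [get_pos l hc hs, Option.some_inj]) hb (by omega),
      comb_iff (r := l.neg c) (fun s hs => (l.neg_lt c s hs).2) (fun s hs => by
        rw [get_neg l hc hs, Option.some_inj]) hb (by omega), encLay_length, hmir, he]
  have h3 := holds_fX (w := encLay l) hb
  rw [encLay_length, hm, ← he] at h3
  rw [fE, Fm.holds_or, Fm.holds_or, h1, h2, h3, Lay.E, Set.mem_ofPred_eq, or_assoc, or_assoc]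

/-! ### the squares: row `X 1`, column `X 2` -/

/-- a black man on the square -/
def fB : Fm := .ex 3 (Tm.len + 1) (fM.and (.ex 4 (2 * KT) (.ex 5 (2 * KT) (.ex 6 2 (fE.and
  ((((Fm.eq (X 6) (.const 0)).and (Fm.eq (X 2 + 2 * X 5) (KT + 2 * X 4 + 1))).or
    ((Fm.eq (X 6) (.const 1)).and (Fm.eq (X 2 + 2 * X 5 + 1) (KT + 2 * X 4)))).and
  (Fm.eq (X 1 + 3 * KT) (2 * X 4 + 2 * X 5 + 1))))))))

theorem holds_fB (l : Lay) {v : ℕ → ℕ} (h1 : v 1 < size l.m) (h2 : v 2 < size l.m) :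
    fB.Holds (encLay l) v ↔
      ∃ e, (e ∈ l.E ∨ e = (1, -2, true)) ∧ (((v 2 : ℕ) : ℤ), ((v 1 : ℕ) : ℤ)) = esq l.m e := by
  have hK : ((50 * (len l.m + 1) : ℕ) : ℤ) = 50 * ((len l.m : ℤ) + 1) := by push_cast; ring
  rw [size] at h1 h2
  simp only [fB, Fm.holds_ex, Fm.holds_and, holds_fM, Fm.holds_or, Fm.holds_eq, KT, X, ev_add,
    ev_mul, ev_one, ev_two, ev_three, ev_50, Tm.eval_var, Tm.eval_const, Tm.eval_len,
    encLay_length, Function.update_self]
  constructor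
  · rintro ⟨m, hm, rfl, P, hP, Q, hQ, b, hb, h3, h4⟩
    rw [holds_fE l (e := ((P : ℤ) - 50 * ((len l.m : ℤ) + 1), (Q : ℤ) - 50 * ((len l.m : ℤ) + 1),
      decide (b = 1))) (by simp) (by simpa using hb) (by simp)] at h3
    simp only [Function.update_apply] at h4
    norm_num at h4
    refine ⟨_, h3, ?_⟩
    rw [esq, vsq, Edge.lo, Prod.mk.injEq]
    obtain ⟨h4, h5⟩ := h4
    rcases h4 with ⟨h6, h7⟩ | ⟨h6, h7⟩
    · simp [h6]
      constructor
      · omega
      · omega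
    · simp [h6]
      constructor
      · omega
      · omega
  · rintro ⟨⟨p, q, c⟩, h3, h4⟩
    rw [esq, vsq, Edge.lo, Prod.mk.injEq] at h4
    obtain ⟨h4, h5⟩ := h4
    simp only at h4 h5
    have hc : (if c = true then (-1 : ℤ) else 1) = -1 ∧ c = true ∨
        (if c = true then (-1 : ℤ) else 1) = 1 ∧ c = false := by
      cases c <;> simp
    refine ⟨l.m, by rw [len]; omega, rfl, (p + 50 * ((len l.m : ℤ) + 1)).toNat, ?_,
      (q + 50 * ((len l.m : ℤ) + 1)).toNat, ?_, if c = true then 1 else 0, ?_, ?_, ?_, ?_⟩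
    · rcases hc with ⟨hc, -⟩ | ⟨hc, -⟩ <;> rw [hc] at h4 <;> omega
    · rcases hc with ⟨hc, -⟩ | ⟨hc, -⟩ <;> rw [hc] at h4 <;> omega
    · split_ifs <;> omega
    · rw [holds_fE l (e := (p, q, c)) (by simp) (by simp; split_ifs <;> omega) ?_]
      · exact h3
      · simp only [Function.update_apply]
        norm_num
        refine ⟨?_, ?_⟩
        · rcases hc with ⟨hc, -⟩ | ⟨hc, -⟩ <;> rw [hc] at h4 <;> omega
        · rcases hc with ⟨hc, -⟩ | ⟨hc, -⟩ <;> rw [hc] at h4 <;> omega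
    · simp only [Function.update_apply]
      norm_num
      rcases hc with ⟨hc, rfl⟩ | ⟨hc, rfl⟩ <;> rw [hc] at h4
      · right
        simp
        omega
      · left
        simp
        omega
    · simp only [Function.update_apply]
      norm_num
      rcases hc with ⟨hc, rfl⟩ | ⟨hc, rfl⟩ <;> rw [hc] at h4
      · omega
      · omega

/-- the square of the white king -/
def fK : Fm := (Fm.eq (X 2) (KT + .const 8)).and (Fm.eq (X 1 + .const 4) KT)

/-- the squares of the white men -/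
def fW : Fm := ((Fm.eq (X 2 + 2) KT).and (Fm.eq (X 1 + 2) KT)).or
  (((Fm.eq (X 2) (KT + .const 6)).and (Fm.eq (X 1 + 2) KT)).or
  (((Fm.eq (X 2) (KT + .const 4)).and (Fm.eq (X 1) KT)).or
  ((Fm.eq (X 2) (KT + .const 9)).and (Fm.eq (X 1 + .const 5) KT))))

theorem holds_fK (l : Lay) {v : ℕ → ℕ} : fK.Holds (encLay l) v ↔
    (((v 2 : ℕ) : ℤ), ((v 1 : ℕ) : ℤ)) = vsq l.m (1, -3) := by
  simp only [fK, Fm.holds_and, Fm.holds_eq, KT, X, ev_add, ev_mul, ev_one, ev_50, Tm.eval_var,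
    Tm.eval_const, Tm.eval_len, encLay_length, vsq, Prod.mk.injEq]
  constructor
  · rintro ⟨h1, h2⟩
    constructor <;> omega
  · rintro ⟨h1, h2⟩
    constructor <;> omega

theorem holds_fW (l : Lay) {v : ℕ → ℕ} : fW.Holds (encLay l) v ↔
    ((((v 2 : ℕ) : ℤ), ((v 1 : ℕ) : ℤ)) = vsq l.m (-1, 0) ∨
      (((v 2 : ℕ) : ℤ), ((v 1 : ℕ) : ℤ)) = vsq l.m (1, -2) ∨
      (((v 2 : ℕ) : ℤ), ((v 1 : ℕ) : ℤ)) = vsq l.m (1, -1) ∨
      (((v 2 : ℕ) : ℤ), ((v 1 : ℕ) : ℤ)) =
        ((vsq l.m (1, -3)).1 + 1, (vsq l.m (1, -3)).2 - 1)) := by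
  simp only [fW, Fm.holds_and, Fm.holds_or, Fm.holds_eq, KT, X, ev_add, ev_mul, ev_one, ev_two,
    ev_50, Tm.eval_var, Tm.eval_const, Tm.eval_len, encLay_length, vsq, Prod.mk.injEq]
  constructor
  · rintro (⟨h1, h2⟩ | ⟨h1, h2⟩ | ⟨h1, h2⟩ | ⟨h1, h2⟩)
    · exact Or.inl ⟨by omega, by omega⟩
    · exact Or.inr (Or.inl ⟨by omega, by omega⟩)
    · exact Or.inr (Or.inr (Or.inl ⟨by omega, by omega⟩))
    · exact Or.inr (Or.inr (Or.inr ⟨by omega, by omega⟩))
  · rintro (⟨h1, h2⟩ | ⟨h1, h2⟩ | ⟨h1, h2⟩ | ⟨h1, h2⟩)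
    · exact Or.inl ⟨by omega, by omega⟩
    · exact Or.inr (Or.inl ⟨by omega, by omega⟩)
    · exact Or.inr (Or.inr (Or.inl ⟨by omega, by omega⟩))
    · exact Or.inr (Or.inr (Or.inr ⟨by omega, by omega⟩))

/-! ### the letters of the code of the position -/

/-- the letter number `X 0` is true -/
def fBe : Fm := (Fm.lt (X 0) NT).or ((Fm.eq (X 0) (NT + 1)).or (.ex 1 NT (.ex 2 NT (
  ((Fm.eq (X 0) (NT + 2 + 3 * (X 1 * NT + X 2) + .const 0)).and (fB.or (fK.or fW))).or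
  (((Fm.eq (X 0) (NT + 2 + 3 * (X 1 * NT + X 2) + .const 1)).and
    (fB.neg.and (fK.or fW))).or
  ((Fm.eq (X 0) (NT + 2 + 3 * (X 1 * NT + X 2) + .const 2)).and (fB.neg.and fK)))))))

theorem uniq {N y x r y' x' r' : ℕ} (hx : x < N) (hx' : x' < N) (hr : r < 3) (hr' : r' < 3)
    (h : 3 * (y * N + x) + r = 3 * (y' * N + x') + r') : y = y' ∧ x = x' ∧ r = r' := by
  have h1 : r = r' := by omega
  have h2 : y * N + x = y' * N + x' := by omega
  have h3 : y = y' := by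
    have h4 : (y * N + x) / N = y := by
      rw [mul_comm, Nat.mul_add_div (by omega), Nat.div_eq_of_lt hx, Nat.add_zero]
    have h5 : (y' * N + x') / N = y' := by
      rw [mul_comm, Nat.mul_add_div (by omega), Nat.div_eq_of_lt hx', Nat.add_zero]
    rw [← h4, ← h5, h2]
  subst h3
  exact ⟨rfl, by omega, h1⟩

/-- a black man -/
def BkP (l : Lay) (x y : ℕ) : Prop :=
  ∃ e, (e ∈ l.E ∨ e = (1, -2, true)) ∧ ((x : ℤ), (y : ℤ)) = esq l.m e

/-- the square of the king -/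
def KgP (l : Lay) (x y : ℕ) : Prop := ((x : ℤ), (y : ℤ)) = vsq l.m (1, -3)

/-- the squares of the white men -/
def MnP (l : Lay) (x y : ℕ) : Prop :=
  ((x : ℤ), (y : ℤ)) = vsq l.m (-1, 0) ∨ ((x : ℤ), (y : ℤ)) = vsq l.m (1, -2) ∨
    ((x : ℤ), (y : ℤ)) = vsq l.m (1, -1) ∨
    ((x : ℤ), (y : ℤ)) = ((vsq l.m (1, -3)).1 + 1, (vsq l.m (1, -3)).2 - 1)

/-- the content of the square -/
theorem holds_letter (l : Lay) {x y r : ℕ} (hx : x < size l.m) (hy : y < size l.m) (hr : r < 3) :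
    fBe.Holds (encLay l) (Function.update 0 0 (size l.m + 2 + (y * (size l.m * 3) + (x * 3 + r))))
      ↔ (r = 0 ∧ (BkP l x y ∨ (KgP l x y ∨ MnP l x y))) ∨
        (r = 1 ∧ (¬ BkP l x y ∧ (KgP l x y ∨ MnP l x y))) ∨
        (r = 2 ∧ (¬ BkP l x y ∧ KgP l x y)) := by
  have hN : 100 * (len l.m + 1) = size l.m := rfl
  have key : ∀ y', y' < size l.m → ∀ x', x' < size l.m →
      ∀ v : ℕ → ℕ, v = Function.update (Function.update (Function.update (0 : ℕ → ℕ) 0
        (size l.m + 2 + (y * (size l.m * 3) + (x * 3 + r)))) 1 y') 2 x' →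
      ((fB.Holds (encLay l) v ↔ BkP l x' y') ∧ (fK.Holds (encLay l) v ↔ KgP l x' y') ∧
      (fW.Holds (encLay l) v ↔ MnP l x' y')) := by
    intro y' hy' x' hx' v hv
    have e1 : v 1 = y' := by
      rw [hv, Function.update_of_ne (by omega), Function.update_self]
    have e2 : v 2 = x' := by rw [hv, Function.update_self]
    have h1 := holds_fB l (v := v) (by rw [e1]; exact hy') (by rw [e2]; exact hx')
    have h2 := holds_fK l (v := v)
    have h3 := holds_fW l (v := v)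
    rw [e1, e2] at h1 h2 h3
    exact ⟨h1, h2, h3⟩
  obtain ⟨N, hN'⟩ : ∃ N, N = size l.m := ⟨_, rfl⟩
  rw [← hN'] at hN key hx hy ⊢
  simp only [fBe, Fm.holds_or, Fm.holds_ex, Fm.holds_and, Fm.holds_lt, Fm.holds_eq, Fm.holds_neg,
    NT, X, ev_add, ev_mul, ev_one, ev_two, ev_three, ev_100, Tm.eval_var, Tm.eval_const,
    Tm.eval_len, encLay_length, Function.update_self, hN]
  constructor
  · rintro (h | h | ⟨y', hy', x', hx', h⟩)
    · omega
    · omega
    · obtain ⟨k1, k2, k3⟩ := key y' hy' x' hx' _ rfl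
      rw [k1, k2, k3] at h
      simp only [Function.update_apply] at h
      norm_num at h
      have e1 : y * (N * 3) = 3 * (y * N) := by ring
      rw [e1] at h
      rcases h with ⟨h4, h5⟩ | ⟨h4, h5⟩ | ⟨h4, h5⟩
      · obtain ⟨rfl, rfl, rfl⟩ := uniq (y := y) (y' := y') (r' := 0) hx hx' hr (by omega)
          (by omega)
        exact Or.inl ⟨rfl, h5⟩
      · obtain ⟨rfl, rfl, rfl⟩ := uniq (y := y) (y' := y') (r' := 1) hx hx' hr (by omega)
          (by omega)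
        exact Or.inr (Or.inl ⟨rfl, h5⟩)
      · obtain ⟨rfl, rfl, rfl⟩ := uniq (y := y) (y' := y') (r' := 2) hx hx' hr (by omega)
          (by omega)
        exact Or.inr (Or.inr ⟨rfl, h5⟩)
  · intro h
    refine Or.inr (Or.inr ⟨y, hy, x, hx, ?_⟩)
    obtain ⟨k1, k2, k3⟩ := key y hy x hx _ rfl
    rw [k1, k2, k3]
    simp only [Function.update_apply]
    norm_num
    have e1 : y * (N * 3) = 3 * (y * N) := by ring
    rw [e1]
    rcases h with ⟨h4, h5⟩ | ⟨h4, h5⟩ | ⟨h4, h5⟩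
    · exact Or.inl ⟨by omega, h5⟩
    · exact Or.inr (Or.inl ⟨by omega, h5⟩)
    · exact Or.inr (Or.inr ⟨by omega, h5⟩)

open Classical in
theorem cell_eq (l : Lay) (x y : ℕ) : cell (l.place ((x : ℤ), (y : ℤ))) =
    [decide (BkP l x y ∨ (KgP l x y ∨ MnP l x y)),
      decide (¬ BkP l x y ∧ (KgP l x y ∨ MnP l x y)), decide (¬ BkP l x y ∧ KgP l x y)] := by
  have h : l.place ((x : ℤ), (y : ℤ)) = if BkP l x y then some ⟨false, false⟩
      else if KgP l x y then some ⟨true, true⟩ else if MnP l x y then some ⟨true, false⟩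
      else none := by
    unfold Lay.place BkP KgP MnP
    split_ifs <;> rfl
  rw [h]
  split_ifs with h1 h2 h3
  · simp [cell, h1]
  · simp [cell, h1, h2]
  · simp [cell, h1, h2, h3]
  · simp [cell, h1, h2, h3]

theorem encPos_eq (p : Pos) : encPos p = List.replicate p.N true ++ false :: p.side ::
    (List.range p.N).flatMap fun (y : ℕ) => (List.range p.N).flatMap fun (x : ℕ) =>
      cell (p.board ((x : ℤ), (y : ℤ))) := by
  first
  | rfl
  | simp [encPos, ← List.map_eq_flatMap, List.flatMap_map]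

theorem enc_eq (l : Lay) (p : Pos) (h1 : p.N = size l.m) (h2 : p.side = true)
    (h3 : p.board = l.place) :
    bfmF (NT + 2 + NT * (NT * 3)) .tt fBe (encLay l) = encPos p := by
  classical
  have hT : (NT + 2 + NT * (NT * 3)).eval (encLay l).length 0 =
      size l.m + 2 + size l.m * (size l.m * 3) := by
    simp only [NT, ev_add, ev_mul, ev_one, ev_two, ev_three, ev_100, Tm.eval_len, encLay_length,
      size]
  have h4 : bfmF (NT + 2 + NT * (NT * 3)) .tt fBe (encLay l) =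
      (List.range (size l.m + 2 + size l.m * (size l.m * 3))).map fun i =>
        decide (fBe.Holds (encLay l) (Function.update 0 0 i)) := by
    rw [bfmF, hT, List.map_eq_flatMap]
    congr 1
    funext i
    rw [if_pos (Fm.holds_tt.2 trivial)]
  rw [h4, List.range_add, List.map_append, List.range_add, List.map_append, List.map_map,
    List.map_map, flat, encPos_eq, h1, h2, h3]
  have hN : 100 * (len l.m + 1) = size l.m := rfl
  have hlow : ∀ i, i < size l.m + 2 → (fBe.Holds (encLay l) (Function.update 0 0 i) ↔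
      (i < size l.m ∨ i = size l.m + 1)) := by
    intro i hi
    simp only [fBe, Fm.holds_or, Fm.holds_ex, Fm.holds_and, Fm.holds_lt, Fm.holds_eq, Fm.holds_neg,
      NT, X, ev_add, ev_mul, ev_one, ev_two, ev_three, ev_100, Tm.eval_var, Tm.eval_const,
      Tm.eval_len, encLay_length, Function.update_self, hN]
    constructor
    · rintro (h | h | ⟨y', hy', x', hx', h⟩)
      · exact Or.inl h
      · exact Or.inr h
      · exfalso
        simp only [Function.update_apply] at h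
        norm_num at h
        rcases h with ⟨h4, h5⟩ | ⟨h4, h5⟩ | ⟨h4, h5⟩ <;> omega
    · rintro (h | h)
      · exact Or.inl h
      · exact Or.inr (Or.inl h)
  have e1 : (List.range (size l.m)).map (fun i =>
      decide (fBe.Holds (encLay l) (Function.update 0 0 i))) = List.replicate (size l.m) true := by
    rw [List.eq_replicate_iff]
    refine ⟨by simp, ?_⟩
    intro b hb
    rw [List.mem_map] at hb
    obtain ⟨i, hi, rfl⟩ := hb
    rw [List.mem_range] at hi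
    rw [decide_eq_true_iff, hlow i (by omega)]
    exact Or.inl hi
  have e2 : (List.range 2).map ((fun i =>
      decide (fBe.Holds (encLay l) (Function.update 0 0 i))) ∘ fun x => size l.m + x) =
      [false, true] := by
    have h5 : decide (fBe.Holds (encLay l) (Function.update 0 0 (size l.m + 0))) = false := by
      rw [decide_eq_false_iff_not, hlow _ (by omega)]
      omega
    have h6 : decide (fBe.Holds (encLay l) (Function.update 0 0 (size l.m + 1))) = true := by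
      rw [decide_eq_true_iff, hlow _ (by omega)]
      omega
    simp only [List.range_succ, List.range_zero, List.nil_append, List.map_append, List.map_cons,
      List.map_nil, Function.comp, h5, h6]
    rfl
  have e3 : ((List.range (size l.m)).flatMap fun y => (List.range (size l.m * 3)).map fun x =>
      ((fun i => decide (fBe.Holds (encLay l) (Function.update 0 0 i))) ∘
        fun x => size l.m + 2 + x) (y * (size l.m * 3) + x)) =
      (List.range (size l.m)).flatMap fun (y : ℕ) => (List.range (size l.m)).flatMap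
        fun (x : ℕ) => cell (l.place ((x : ℤ), (y : ℤ))) := by
    apply List.flatMap_congr
    intro y hy
    rw [List.mem_range] at hy
    rw [flat]
    apply List.flatMap_congr
    intro x hx
    rw [List.mem_range] at hx
    rw [cell_eq]
    have h5 := holds_letter l hx hy (r := 0) (by omega)
    have h6 := holds_letter l hx hy (r := 1) (by omega)
    have h7 := holds_letter l hx hy (r := 2) (by omega)
    norm_num at h5 h6 h7
    simp only [List.range_succ, List.range_zero, List.nil_append, List.map_append, List.map_cons,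
      List.map_nil, Function.comp, Nat.add_zero, h5, h6, h7]
    rfl
  rw [e1, e2, e3]
  simp

end Form

/-- The code of the position of a layout is given by bounded formulas over the code of the
layout. -/
theorem place_form_of (f : Lay → Pos) (hN : ∀ l, (f l).N = size l.m)
    (hs : ∀ l, (f l).side = true) (hb : ∀ l, (f l).board = l.place) :
    ∃ (T : Tm) (al be : Fm), ∀ l : Lay, bfmF T al be (encLay l) = encPos (f l) :=
  ⟨_, _, _, fun l => Form.enc_eq l (f l) (hN l) (hs l) (hb l)⟩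

end Pool.Agent.CHK
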