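import Pool.Agent.CHK.Play

set_option autoImplicit false

/-! Module QC, first part: parities around an array. -/

namespace Pool.Agent.CHK

namespace GeoC

theorem dg_cases {d : Sq} (h : Dg d) :
    d = (1, 1) ∨ d = (1, -1) ∨ d = (-1, 1) ∨ d = (-1, -1) := by
  obtain ⟨h1 | h1, h2 | h2⟩ := h
  · exact Or.inl (Prod.ext h1 h2)
  · exact Or.inr (Or.inl (Prod.ext h1 h2))
  · exact Or.inr (Or.inr (Or.inl (Prod.ext h1 h2)))
  · exact Or.inr (Or.inr (Or.inr (Prod.ext h1 h2)))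

/-- `e` is an edge at `v`, symmetric form. -/
def AtP (W F : Sq → Prop) (v e : Sq) : Prop := W e ∧ F v ∧ ∃ d, Dg d ∧ e = v + d ∧ F (v + d + d)

/-- `e` is an edge, symmetric form. -/
def IsP (W F : Sq → Prop) (e : Sq) : Prop := W e ∧ ∃ d, Dg d ∧ F (e + d) ∧ F (e - d)

/-- `z` is next to the array. -/
def Adj (β : Sq → Prop) (t z : Sq) : Prop := ∃ d, Dg d ∧ (β (z + d) ∨ z + d = t)

theorem xor4 (a1 a2 a3 a4 b1 b2 b3 b4 : Prop) :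
    Xor (Xor (Xor a1 b1) (Xor a2 b2)) (Xor (Xor a3 b3) (Xor a4 b4)) ↔
      Xor (Xor (Xor a1 a2) (Xor a3 a4)) (Xor (Xor b1 b2) (Xor b3 b4)) := by
  rcases Classical.propComplete a1 with rfl | rfl <;>
  rcases Classical.propComplete a2 with rfl | rfl <;>
  rcases Classical.propComplete a3 with rfl | rfl <;>
  rcases Classical.propComplete a4 with rfl | rfl <;>
  rcases Classical.propComplete b1 with rfl | rfl <;>
  rcases Classical.propComplete b2 with rfl | rfl <;>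
  rcases Classical.propComplete b3 with rfl | rfl <;>
  rcases Classical.propComplete b4 with rfl | rfl <;> simp [Xor]

theorem xorprod (a a' b b' : Prop) :
    Xor (Xor (a ∧ b) (a' ∧ b')) (Xor (a ∧ b') (a' ∧ b)) ↔ Xor a a' ∧ Xor b b' := by
  rcases Classical.propComplete a with rfl | rfl <;>
  rcases Classical.propComplete a' with rfl | rfl <;>
  rcases Classical.propComplete b with rfl | rfl <;>
  rcases Classical.propComplete b' with rfl | rfl <;> simp [Xor]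

theorem xcomb {a1 a2 a3 a4 b1 b2 b3 b4 c1 c2 c3 c4 A T V : Prop}
    (hA : Xor (Xor a1 a2) (Xor a3 a4) ↔ A) (hT : Xor (Xor b1 b2) (Xor b3 b4) ↔ T)
    (hV : Xor (Xor c1 c2) (Xor c3 c4) ↔ V) :
    Xor (Xor (Xor (Xor a1 b1) c1) (Xor (Xor a2 b2) c2))
      (Xor (Xor (Xor a3 b3) c3) (Xor (Xor a4 b4) c4)) ↔ Xor (Xor A T) V := by
  rw [xor4 (Xor a1 b1) (Xor a2 b2) (Xor a3 b3) (Xor a4 b4) c1 c2 c3 c4,
    xor4 a1 a2 a3 a4 b1 b2 b3 b4, hA, hT, hV]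

theorem odd_formula {β : Sq → Prop} {m n t1 t2 v1 v2 : ℤ} (hm : 0 < m) (hn : 0 < n)
    (ht : 0 ≤ t1 ∧ t1 < m ∧ 0 ≤ t2 ∧ t2 < n) (hto : (t1 + t2) % 2 = 1)
    (hv : ¬ (0 ≤ v1 ∧ v1 < m ∧ 0 ≤ v2 ∧ v2 < n)) (hvo : (v1 + v2) % 2 = 1)
    (hβ : ∀ i j : ℤ, β (2 * i, 2 * j) ↔
      (0 ≤ i ∧ i < m ∧ 0 ≤ j ∧ j < n) ∧ ¬ (i = t1 ∧ j = t2)) (i j : ℤ) (hij : (i + j) % 2 = 0) :
    oddN (fun y => β y ∨ y = (2 * v1, 2 * v2)) (2 * i - 1, 2 * j - 1) ↔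
      Xor (Xor ((i = 0 ∨ i = m) ∧ (j = 0 ∨ j = n)) ((i = t1 + 1 ∧ j = t2) ∨ (i = t1 ∧ j = t2 + 1)))
        ((i = v1 + 1 ∧ j = v2) ∨ (i = v1 ∧ j = v2 + 1)) := by
  have e1 : ((2 * i - 1, 2 * j - 1) : Sq) + (1, 1) = (2 * i, 2 * j) := by
    ext <;> simp
  have e2 : ((2 * i - 1, 2 * j - 1) : Sq) + (-1, -1) = (2 * (i - 1), 2 * (j - 1)) := by
    ext <;> simp <;> ring
  have e3 : ((2 * i - 1, 2 * j - 1) : Sq) + (1, -1) = (2 * i, 2 * (j - 1)) := by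
    ext <;> simp; ring
  have e4 : ((2 * i - 1, 2 * j - 1) : Sq) + (-1, 1) = (2 * (i - 1), 2 * j) := by
    ext <;> simp; ring
  have hX : ∀ p q : ℤ, (β (2 * p, 2 * q) ∨ ((2 * p, 2 * q) : Sq) = (2 * v1, 2 * v2)) ↔
      Xor (Xor ((0 ≤ p ∧ p < m) ∧ (0 ≤ q ∧ q < n)) (p = t1 ∧ q = t2)) (p = v1 ∧ q = v2) := by
    intro p q
    rw [hβ, Prod.mk.injEq]
    simp only [Xor]
    by_cases h1 : p = t1 ∧ q = t2
    · obtain ⟨rfl, rfl⟩ := h1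
      omega
    · by_cases h2 : p = v1 ∧ q = v2
      · obtain ⟨rfl, rfl⟩ := h2
        omega
      · omega
  simp only [oddN, e1, e2, e3, e4, hX]
  have a1 : Xor (0 ≤ i ∧ i < m) (0 ≤ i - 1 ∧ i - 1 < m) ↔ (i = 0 ∨ i = m) := by
    simp only [Xor]; omega
  have a2 : Xor (0 ≤ j ∧ j < n) (0 ≤ j - 1 ∧ j - 1 < n) ↔ (j = 0 ∨ j = n) := by
    simp only [Xor]; omega
  have a3 : ∀ x y : ℤ, (x + y) % 2 = 1 →
      (Xor (Xor (i = x ∧ j = y) (i - 1 = x ∧ j - 1 = y)) (Xor (i = x ∧ j - 1 = y) (i - 1 = x ∧ j = y)) ↔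
      ((i = x + 1 ∧ j = y) ∨ (i = x ∧ j = y + 1))) := by
    intro x y hxy
    have b1 : ¬ (i = x ∧ j = y) := by omega
    have b2 : ¬ (i - 1 = x ∧ j - 1 = y) := by omega
    simp only [Xor, b1, b2, false_and, not_false_eq_true, or_false, false_or, and_true,
      not_true_eq_false]
    constructor
    · intro h
      rcases h with h | h | h
      · rcases h with ⟨h | h, -⟩ <;> omega
      all_goals omega
    · intro h
      rcases h with ⟨rfl, rfl⟩ | ⟨rfl, rfl⟩ <;> omega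
  exact xcomb ((xorprod _ _ _ _).trans (and_congr a1 a2)) (a3 t1 t2 hto) (a3 v1 v2 hvo)


/-- Values of the parity function. -/
def PF (m n t1 t2 v1 v2 i j : ℤ) : Prop :=
  Xor (Xor ((i = 0 ∨ i = m) ∧ (j = 0 ∨ j = n)) ((i = t1 + 1 ∧ j = t2) ∨ (i = t1 ∧ j = t2 + 1)))
        ((i = v1 + 1 ∧ j = v2) ∨ (i = v1 ∧ j = v2 + 1))

/-- At most two odd squares. -/
def H3 (P : ℤ → ℤ → Prop) : Prop := ∀ i j i' j' i'' j'' : ℤ, (i + j) % 2 = 0 → (i' + j') % 2 = 0 →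
  (i'' + j'') % 2 = 0 → P i j → P i' j' → P i'' j'' →
  (i = i' ∧ j = j') ∨ (i = i'' ∧ j = j'') ∨ (i' = i'' ∧ j' = j'')

theorem pf_t {m n t1 t2 v1 v2 i j : ℤ} (hc : ¬ ((i = 0 ∨ i = m) ∧ (j = 0 ∨ j = n)))
    (ht : (i = t1 + 1 ∧ j = t2) ∨ (i = t1 ∧ j = t2 + 1))
    (hv : ¬ ((i = v1 + 1 ∧ j = v2) ∨ (i = v1 ∧ j = v2 + 1))) : PF m n t1 t2 v1 v2 i j := by
  exact Or.inl ⟨Or.inr ⟨ht, hc⟩, hv⟩

theorem pf_v {m n t1 t2 v1 v2 i j : ℤ} (hc : ¬ ((i = 0 ∨ i = m) ∧ (j = 0 ∨ j = n)))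
    (ht : ¬ ((i = t1 + 1 ∧ j = t2) ∨ (i = t1 ∧ j = t2 + 1)))
    (hv : (i = v1 + 1 ∧ j = v2) ∨ (i = v1 ∧ j = v2 + 1)) : PF m n t1 t2 v1 v2 i j := by
  exact Or.inr ⟨hv, fun h => h.elim (fun h => hc h.1) (fun h => ht h.1)⟩

theorem pf_c {m n t1 t2 v1 v2 i j : ℤ} (hc : (i = 0 ∨ i = m) ∧ (j = 0 ∨ j = n))
    (ht : ¬ ((i = t1 + 1 ∧ j = t2) ∨ (i = t1 ∧ j = t2 + 1)))
    (hv : ¬ ((i = v1 + 1 ∧ j = v2) ∨ (i = v1 ∧ j = v2 + 1))) : PF m n t1 t2 v1 v2 i j := by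
  exact Or.inl ⟨Or.inl ⟨hc, ht⟩, hv⟩

theorem arith_odd {m n t1 t2 v1 v2 : ℤ} (hm : 0 < m) (hn : 0 < n) (hmo : m % 2 = 1)
    (hno : n % 2 = 1) (ht : 0 ≤ t1 ∧ t1 < m ∧ 0 ≤ t2 ∧ t2 < n) (hto : (t1 + t2) % 2 = 1)
    (hv : ¬ (0 ≤ v1 ∧ v1 < m ∧ 0 ≤ v2 ∧ v2 < n)) (hvo : (v1 + v2) % 2 = 1)
    (h3 : H3 (PF m n t1 t2 v1 v2)) : False := by
  by_cases hA : v1 = t1 + 1 ∧ v2 = t2 - 1
  · obtain ⟨rfl, rfl⟩ := hA
    have p1 : PF m n t1 t2 (t1 + 1) (t2 - 1) t1 (t2 + 1) := pf_t (by omega) (by omega) (by omega)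
    have p2 : PF m n t1 t2 (t1 + 1) (t2 - 1) (t1 + 1 + 1) (t2 - 1) :=
      pf_v (by omega) (by omega) (by omega)
    have p3 : PF m n t1 t2 (t1 + 1) (t2 - 1) 0 0 := pf_c (by omega) (by omega) (by omega)
    have := h3 _ _ _ _ _ _ (by omega) (by omega) (by omega) p1 p2 p3
    omega
  by_cases hB : v1 = t1 - 1 ∧ v2 = t2 + 1
  · obtain ⟨rfl, rfl⟩ := hB
    have p1 : PF m n t1 t2 (t1 - 1) (t2 + 1) (t1 + 1) t2 := pf_t (by omega) (by omega) (by omega)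
    have p2 : PF m n t1 t2 (t1 - 1) (t2 + 1) (t1 - 1) (t2 + 1 + 1) :=
      pf_v (by omega) (by omega) (by omega)
    have p3 : PF m n t1 t2 (t1 - 1) (t2 + 1) 0 0 := pf_c (by omega) (by omega) (by omega)
    have := h3 _ _ _ _ _ _ (by omega) (by omega) (by omega) p1 p2 p3
    omega
  have p1 : PF m n t1 t2 v1 v2 (t1 + 1) t2 := pf_t (by omega) (by omega) (by omega)
  have p2 : PF m n t1 t2 v1 v2 t1 (t2 + 1) := pf_t (by omega) (by omega) (by omega)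
  by_cases hC : (v1 + 1 = 0 ∨ v1 + 1 = m) ∧ (v2 = 0 ∨ v2 = n)
  · have p3 : PF m n t1 t2 v1 v2 v1 (v2 + 1) := pf_v (by omega) (by omega) (by omega)
    have := h3 _ _ _ _ _ _ (by omega) (by omega) (by omega) p1 p2 p3
    omega
  · have p3 : PF m n t1 t2 v1 v2 (v1 + 1) v2 := pf_v (by omega) (by omega) (by omega)
    have := h3 _ _ _ _ _ _ (by omega) (by omega) (by omega) p1 p2 p3
    omega

theorem arith_even {m n t1 t2 v1 v2 : ℤ} (hm : 3 ≤ m) (hn : 2 ≤ n) (hmo : m % 2 = 1)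
    (hno : n % 2 = 0) (ht : 0 ≤ t1 ∧ t1 < m ∧ 0 ≤ t2 ∧ t2 < n) (hto : (t1 + t2) % 2 = 1)
    (hv : ¬ (0 ≤ v1 ∧ v1 < m ∧ 0 ≤ v2 ∧ v2 < n)) (hvo : (v1 + v2) % 2 = 1)
    (h3 : H3 (PF m n t1 t2 v1 v2)) :
    t1 = 0 ∧ t2 = n - 1 ∧ ((v1 = 0 ∧ v2 = -1) ∨ (v1 = -1 ∧ v2 = 0)) := by
  by_cases hA : v1 = t1 + 1 ∧ v2 = t2 - 1
  · obtain ⟨rfl, rfl⟩ := hA
    have p1 : PF m n t1 t2 (t1 + 1) (t2 - 1) t1 (t2 + 1) := pf_t (by omega) (by omega) (by omega)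
    have p2 : PF m n t1 t2 (t1 + 1) (t2 - 1) (t1 + 1 + 1) (t2 - 1) :=
      pf_v (by omega) (by omega) (by omega)
    have p3 : PF m n t1 t2 (t1 + 1) (t2 - 1) 0 0 := pf_c (by omega) (by omega) (by omega)
    have := h3 _ _ _ _ _ _ (by omega) (by omega) (by omega) p1 p2 p3
    omega
  by_cases hB : v1 = t1 - 1 ∧ v2 = t2 + 1
  · obtain ⟨rfl, rfl⟩ := hB
    have p1 : PF m n t1 t2 (t1 - 1) (t2 + 1) (t1 + 1) t2 := pf_t (by omega) (by omega) (by omega)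
    have p2 : PF m n t1 t2 (t1 - 1) (t2 + 1) (t1 - 1) (t2 + 1 + 1) :=
      pf_v (by omega) (by omega) (by omega)
    have p3 : PF m n t1 t2 (t1 - 1) (t2 + 1) 0 0 := pf_c (by omega) (by omega) (by omega)
    have := h3 _ _ _ _ _ _ (by omega) (by omega) (by omega) p1 p2 p3
    omega
  have p1 : PF m n t1 t2 v1 v2 (t1 + 1) t2 := pf_t (by omega) (by omega) (by omega)
  by_cases hT : t1 = 0 ∧ t2 = n - 1
  · refine ⟨hT.1, hT.2, ?_⟩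
    obtain ⟨rfl, rfl⟩ := hT
    by_contra hV
    have p2 : PF m n 0 (n - 1) v1 v2 0 0 := pf_c (by omega) (by omega) (by omega)
    by_cases hC : (v1 + 1 = 0 ∨ v1 + 1 = m) ∧ (v2 = 0 ∨ v2 = n)
    · have p3 : PF m n 0 (n - 1) v1 v2 v1 (v2 + 1) := pf_v (by omega) (by omega) (by omega)
      have := h3 _ _ _ _ _ _ (by omega) (by omega) (by omega) p1 p2 p3
      omega
    · have p3 : PF m n 0 (n - 1) v1 v2 (v1 + 1) v2 := pf_v (by omega) (by omega) (by omega)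
      have := h3 _ _ _ _ _ _ (by omega) (by omega) (by omega) p1 p2 p3
      omega
  exfalso
  have p2 : PF m n t1 t2 v1 v2 t1 (t2 + 1) := pf_t (by omega) (by omega) (by omega)
  by_cases hC : (v1 + 1 = 0 ∨ v1 + 1 = m) ∧ (v2 = 0 ∨ v2 = n)
  · have p3 : PF m n t1 t2 v1 v2 v1 (v2 + 1) := pf_v (by omega) (by omega) (by omega)
    have := h3 _ _ _ _ _ _ (by omega) (by omega) (by omega) p1 p2 p3
    omega
  · have p3 : PF m n t1 t2 v1 v2 (v1 + 1) v2 := pf_v (by omega) (by omega) (by omega)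
    have := h3 _ _ _ _ _ _ (by omega) (by omega) (by omega) p1 p2 p3
    omega

end GeoC
end Pool.Agent.CHK
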