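import Pool.Agent.CHK.GeoC1

set_option autoImplicit false

/-! Module QC, second part: the core lemma. -/

namespace Pool.Agent.CHK

namespace GeoC

/-- The hypotheses in a symmetric form; `a` is the variable corner of the class in which the other
end `v` can be used. -/
structure Hyp (W F β : Sq → Prop) (s t v a : Sq) : Prop where
  bf : ∀ z, β z → ¬ F z
  fc : ∀ z, F z → Cls s z
  ft : F t
  fv : F v
  vt : v ≠ t
  isa : IsP W F a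
  other : ∃ d, ¬ Cls a d ∧ W d ∧ Adj β t d ∧ IsP W F d ∧ ¬ AtP W F t d
  cap : ∀ f, W f → Adj β t f → IsP W F f
  e1 : v ≠ s → oddN (AtP W F v) v
  e2 : v = s → ¬ oddN (AtP W F v) v
  good : ∃ w w', Cls a w ∧ W w ∧ ¬ AtP W F v w ∧
    ∀ z, Cls a z → (oddN (fun y => β y ∨ y = v) z ↔ Xor (z = w) (z = w'))

/-- The conclusion in a symmetric form. -/
def Concl (W F β : Sq → Prop) (s t a : Sq) : Prop :=
  (∃ u, u ≠ s ∧ u ≠ t ∧ AtP W F u a ∧ ∀ e, AtP W F u e → e = a) ∨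
  ((∀ f, W f → Cls a f → Adj β t f → f = a ∨ AtP W F t f) ∧
    ((∃ u c, u ≠ t ∧ a ≠ c ∧ AtP W F u a ∧ AtP W F u c ∧
        ((u = s ∧ ∀ e, AtP W F u e → e = a ∨ e = c) ∨
          (u ≠ s ∧ ∃ g, AtP W F t g ∧ AtP W F u g ∧ g ≠ a ∧ g ≠ c ∧
            ∀ e, AtP W F u e → e = a ∨ e = c ∨ e = g))) ∨
     ∃ d, ¬ Cls a d ∧ W d ∧ Adj β t d ∧ ¬ AtP W F t d ∧
       (∀ f, W f → ¬ Cls a f → Adj β t f → f = d ∨ AtP W F t f) ∧
       ∃ u, AtP W F u a ∧ AtP W F u d))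

theorem cls_odd (i j : ℤ) : Cls (-1, -1) (2 * i - 1, 2 * j - 1) ↔ (i + j) % 2 = 0 := by
  constructor
  · rintro ⟨x, y, h, c, hc⟩
    simp only [Prod.mk.injEq] at h
    omega
  · intro h
    exact ⟨i, j, by ext <;> simp <;> ring, (i + j) / 2, by omega⟩

theorem cls_odd' {w : Sq} (h : Cls (-1, -1) w) :
    ∃ i j : ℤ, w = (2 * i - 1, 2 * j - 1) ∧ (i + j) % 2 = 0 := by
  obtain ⟨x, y, h, c, hc⟩ := h
  exact ⟨x, y, by rw [h]; ext <;> simp <;> ring, by omega⟩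

/-- Data in index coordinates. -/
theorem basic {W F β : Sq → Prop} {s t v : Sq} {m n : ℤ} (hm : 0 < m) (hn : 0 < n)
    (h : Hyp W F β s t v (-1, -1)) (h0 : ¬ Cls s (0, 0))
    (harr : ∀ z, (β z ∨ z = t) ↔
      ∃ i j : ℤ, (0 ≤ i ∧ i < m ∧ 0 ≤ j ∧ j < n) ∧ z = (2 * i, 2 * j)) :
    ∃ t1 t2 v1 v2 w1 w2 : ℤ, t = (2 * t1, 2 * t2) ∧ v = (2 * v1, 2 * v2) ∧
      (0 ≤ t1 ∧ t1 < m ∧ 0 ≤ t2 ∧ t2 < n) ∧ (t1 + t2) % 2 = 1 ∧
      ¬ (0 ≤ v1 ∧ v1 < m ∧ 0 ≤ v2 ∧ v2 < n) ∧ (v1 + v2) % 2 = 1 ∧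
      (∀ z, F z → ∃ i j : ℤ, z = (2 * i, 2 * j) ∧ (i + j) % 2 = 1) ∧
      (∀ i j : ℤ, β (2 * i, 2 * j) ↔ (0 ≤ i ∧ i < m ∧ 0 ≤ j ∧ j < n) ∧ ¬ (i = t1 ∧ j = t2)) ∧
      H3 (PF m n t1 t2 v1 v2) ∧ W (2 * w1 - 1, 2 * w2 - 1) ∧
      ¬ AtP W F v (2 * w1 - 1, 2 * w2 - 1) ∧
      ∀ i j i' j' : ℤ, (i + j) % 2 = 0 → (i' + j') % 2 = 0 → PF m n t1 t2 v1 v2 i j →
        PF m n t1 t2 v1 v2 i' j' → ¬ (i = i' ∧ j = j') →
        (w1 = i ∧ w2 = j) ∨ (w1 = i' ∧ w2 = j') := by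
  obtain ⟨t1, t2, htr, ht⟩ := (harr t).1 (Or.inr rfl)
  obtain ⟨x, y, hx, c, hc⟩ := h.fc t h.ft
  rw [ht, Prod.mk.injEq] at hx
  have hs : ∃ p q : ℤ, s = (2 * p, 2 * q) := ⟨t1 - x, t2 - y, by ext <;> simp only [] <;> omega⟩
  obtain ⟨p, q, rfl⟩ := hs
  simp only [] at hx
  have hpq : (p + q) % 2 = 1 := by
    by_contra hcon
    exact h0 ⟨-p, -q, by ext <;> simp, -((p + q) / 2), by omega⟩
  have fF : ∀ z, F z → ∃ i j : ℤ, z = (2 * i, 2 * j) ∧ (i + j) % 2 = 1 := by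
    intro z hz
    obtain ⟨i, j, hij, c', hc'⟩ := h.fc z hz
    exact ⟨p + i, q + j, by rw [hij]; ext <;> simp <;> ring, by omega⟩
  obtain ⟨v1, v2, hv, hvo⟩ := fF v h.fv
  have hto : (t1 + t2) % 2 = 1 := by omega
  have hβ : ∀ i j : ℤ, β (2 * i, 2 * j) ↔
      (0 ≤ i ∧ i < m ∧ 0 ≤ j ∧ j < n) ∧ ¬ (i = t1 ∧ j = t2) := by
    intro i j
    constructor
    · intro hb
      obtain ⟨i', j', hr, he⟩ := (harr _).1 (Or.inl hb)
      rw [Prod.mk.injEq] at he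
      refine ⟨by omega, ?_⟩
      rintro ⟨rfl, rfl⟩
      rw [← ht] at hb
      exact h.bf _ hb h.ft
    · rintro ⟨hr, hne⟩
      rcases (harr (2 * i, 2 * j)).2 ⟨i, j, hr, rfl⟩ with hb | hb
      · exact hb
      · exfalso
        rw [ht, Prod.mk.injEq] at hb
        omega
  have hvr : ¬ (0 ≤ v1 ∧ v1 < m ∧ 0 ≤ v2 ∧ v2 < n) := by
    intro hcon
    rcases (harr v).2 ⟨v1, v2, hcon, hv⟩ with hb | hb
    · exact h.bf _ hb h.fv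
    · exact h.vt hb
  obtain ⟨w, w', hcw, hw, hwv, hgood⟩ := h.good
  obtain ⟨w1, w2, rfl, hwo⟩ := cls_odd' hcw
  have hP : ∀ i j : ℤ, (i + j) % 2 = 0 → (PF m n t1 t2 v1 v2 i j ↔
      Xor (((2 * i - 1, 2 * j - 1) : Sq) = (2 * w1 - 1, 2 * w2 - 1))
        (((2 * i - 1, 2 * j - 1) : Sq) = w')) := by
    intro i j hij
    rw [← hgood _ ((cls_odd i j).2 hij), hv, odd_formula hm hn htr hto hvr hvo hβ i j hij]
    rfl
  have hP2 : ∀ i j : ℤ, (i + j) % 2 = 0 → PF m n t1 t2 v1 v2 i j →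
      (w1 = i ∧ w2 = j) ∨ ((2 * i - 1, 2 * j - 1) : Sq) = w' := by
    intro i j hij hp
    rcases (hP i j hij).1 hp with h1 | h1
    · left
      have := h1.1
      rw [Prod.mk.injEq] at this
      omega
    · right; exact h1.1
  refine ⟨t1, t2, v1, v2, w1, w2, ht, hv, htr, hto, hvr, hvo, fF, hβ, ?_, hw, hwv, ?_⟩
  · intro i j i' j' i'' j'' h1 h2 h3 p1 p2 p3
    have q1 := hP2 i j h1 p1
    have q2 := hP2 i' j' h2 p2
    have q3 := hP2 i'' j'' h3 p3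
    rcases q1 with q1 | q1 <;> rcases q2 with q2 | q2 <;> rcases q3 with q3 | q3
    · omega
    · omega
    · omega
    · have := q2.trans q3.symm; rw [Prod.mk.injEq] at this; omega
    · omega
    · have := q1.trans q3.symm; rw [Prod.mk.injEq] at this; omega
    · have := q1.trans q2.symm; rw [Prod.mk.injEq] at this; omega
    · have := q1.trans q2.symm; rw [Prod.mk.injEq] at this; omega
  · intro i j i' j' h1 h2 p1 p2 hne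
    have q1 := hP2 i j h1 p1
    have q2 := hP2 i' j' h2 p2
    rcases q1 with q1 | q1
    · exact Or.inl q1
    · rcases q2 with q2 | q2
      · exact Or.inr q2
      · have := q1.trans q2.symm; rw [Prod.mk.injEq] at this; omega

theorem core_odd {W F β : Sq → Prop} {s t v : Sq} {m n : ℤ} (hm : 0 < m) (hn : 0 < n)
    (hmo : m % 2 = 1) (hno : n % 2 = 1)
    (h : Hyp W F β s t v (-1, -1)) (h0 : ¬ Cls s (0, 0))
    (harr : ∀ z, (β z ∨ z = t) ↔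
      ∃ i j : ℤ, (0 ≤ i ∧ i < m ∧ 0 ≤ j ∧ j < n) ∧ z = (2 * i, 2 * j)) : False := by
  obtain ⟨t1, t2, v1, v2, w1, w2, ht, hv, htr, hto, hvr, hvo, fF, hβ, h3, -⟩ :=
    basic hm hn h h0 harr
  exact arith_odd hm hn hmo hno htr hto hvr hvo h3

/-- An edge next to the array and not at `t` is a corner. -/
theorem var_corner {W F β : Sq → Prop} {s t : Sq} {m n x₀ y₀ : ℤ} (hm : 0 < m) (hn : 0 < n)
    (hbf : ∀ z, β z → ¬ F z) (hfc : ∀ z, F z → Cls s z) (hft : F t)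
    (harr : ∀ z, (β z ∨ z = t) ↔
      ∃ i j : ℤ, (0 ≤ i ∧ i < m ∧ 0 ≤ j ∧ j < n) ∧ z = (x₀ + 2 * i, y₀ + 2 * j))
    {e : Sq} (he : IsP W F e) (hadj : Adj β t e) (hat : ¬ AtP W F t e) :
    ∃ i j i' j' : ℤ, ((i = 0 ∧ i' = 0) ∨ (i = m ∧ i' = m - 1)) ∧
      ((j = 0 ∧ j' = 0) ∨ (j = n ∧ j' = n - 1)) ∧ e = (x₀ + 2 * i - 1, y₀ + 2 * j - 1) ∧
      ¬ Cls s (x₀ + 2 * i', y₀ + 2 * j') := by
  obtain ⟨hWe, d, hd, hF1, hF2⟩ := he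
  obtain ⟨d', hd', hb⟩ := hadj
  obtain ⟨p, q, hpq, hpe⟩ := (harr _).1 hb
  -- the ends of `e` are not in the array
  have n1 : ¬ ∃ i j : ℤ, (0 ≤ i ∧ i < m ∧ 0 ≤ j ∧ j < n) ∧ e + d = (x₀ + 2 * i, y₀ + 2 * j) := by
    rw [← harr]
    rintro (hb | hb)
    · exact hbf _ hb hF1
    · apply hat
      refine ⟨hWe, hft, -d, ?_, ?_, ?_⟩
      · rcases dg_cases hd with rfl | rfl | rfl | rfl <;> constructor <;> simp
      · rw [← hb]; abel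
      · rw [← hb]
        have : e + d + -d + -d = e - d := by abel
        rwa [this]
  have n2 : ¬ ∃ i j : ℤ, (0 ≤ i ∧ i < m ∧ 0 ≤ j ∧ j < n) ∧ e - d = (x₀ + 2 * i, y₀ + 2 * j) := by
    rw [← harr]
    rintro (hb | hb)
    · exact hbf _ hb hF2
    · apply hat
      refine ⟨hWe, hft, d, hd, ?_, ?_⟩
      · rw [← hb]; abel
      · rw [← hb]
        have : e - d + d + d = e + d := by abel
        rwa [this]
  obtain ⟨i1, j1, h1, c1, hc1⟩ := hfc _ hF1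
  obtain ⟨i2, j2, h2, c2, hc2⟩ := hfc _ hF2
  have n1' : ∀ i j : ℤ, ¬ ((0 ≤ i ∧ i < m ∧ 0 ≤ j ∧ j < n) ∧ e.1 + d.1 = x₀ + 2 * i ∧
      e.2 + d.2 = y₀ + 2 * j) := fun i j hij => n1 ⟨i, j, hij.1, Prod.ext hij.2.1 hij.2.2⟩
  have n2' : ∀ i j : ℤ, ¬ ((0 ≤ i ∧ i < m ∧ 0 ≤ j ∧ j < n) ∧ e.1 - d.1 = x₀ + 2 * i ∧
      e.2 - d.2 = y₀ + 2 * j) := fun i j hij => n2 ⟨i, j, hij.1, Prod.ext hij.2.1 hij.2.2⟩
  have hpe1 : e.1 + d'.1 = x₀ + 2 * p := congrArg Prod.fst hpe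
  have hpe2 : e.2 + d'.2 = y₀ + 2 * q := congrArg Prod.snd hpe
  have h11 : e.1 + d.1 = s.1 + 2 * i1 := congrArg Prod.fst h1
  have h12 : e.2 + d.2 = s.2 + 2 * j1 := congrArg Prod.snd h1
  have hdd : (d'.1 = 1 ∨ d'.1 = -1) ∧ (d'.2 = 1 ∨ d'.2 = -1) := hd'
  have hd2 : (d.1 = 1 ∨ d.1 = -1) ∧ (d.2 = 1 ∨ d.2 = -1) := hd
  have hcase : (d.1 = -d'.1 ∧ d.2 = d'.2) ∨ (d.1 = d'.1 ∧ d.2 = -d'.2) := by
    have e1 : ¬ (d.1 = d'.1 ∧ d.2 = d'.2) := by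
      rintro ⟨g1, g2⟩
      exact n1' p q ⟨hpq, by rw [g1]; exact hpe1, by rw [g2]; exact hpe2⟩
    have e2 : ¬ (d.1 = -d'.1 ∧ d.2 = -d'.2) := by
      rintro ⟨g1, g2⟩
      exact n2' p q ⟨hpq, by rw [g1, sub_neg_eq_add]; exact hpe1,
        by rw [g2, sub_neg_eq_add]; exact hpe2⟩
    clear n1 n2 n1' n2' harr hbf hfc hat hb hF1 hF2 hpq hpe h1 h2 h11 h12 hc1 hc2
    omega
  have key : ¬ (0 ≤ p - d'.1 ∧ p - d'.1 < m) ∧ ¬ (0 ≤ q - d'.2 ∧ q - d'.2 < n) := by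
    rcases hcase with ⟨g1, g2⟩ | ⟨g1, g2⟩
    · constructor
      · intro hr
        exact n1' (p - d'.1) q ⟨⟨hr.1, hr.2, hpq.2.2.1, hpq.2.2.2⟩, by rw [g1]; linarith,
          by rw [g2]; linarith⟩
      · intro hr
        exact n2' p (q - d'.2) ⟨⟨hpq.1, hpq.2.1, hr.1, hr.2⟩, by rw [g1]; linarith,
          by rw [g2]; linarith⟩
    · constructor
      · intro hr
        exact n2' (p - d'.1) q ⟨⟨hr.1, hr.2, hpq.2.2.1, hpq.2.2.2⟩, by rw [g1]; linarith,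
          by rw [g2]; linarith⟩
      · intro hr
        exact n1' p (q - d'.2) ⟨⟨hpq.1, hpq.2.1, hr.1, hr.2⟩, by rw [g1]; linarith,
          by rw [g2]; linarith⟩
  obtain ⟨k1, k2⟩ := key
  obtain ⟨hdd1, hdd2⟩ := hdd
  obtain ⟨hq1, hq2, hq3, hq4⟩ := hpq
  clear n1 n2 n1' n2' harr hbf hfc hat hb hF1 hF2 hpe h1 h2
  refine ⟨(e.1 - x₀ + 1) / 2, (e.2 - y₀ + 1) / 2, p, q, ?_, ?_, ?_, ?_⟩
  · clear k2 hdd2 hd2 hcase h11 h12 hc1 hc2 hpe2 hq3 hq4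
    rcases hdd1 with h1 | h1 <;> rw [h1] at hpe1 k1 <;> omega
  · clear k1 hdd1 hd2 hcase h11 h12 hc1 hc2 hpe1 hq1 hq2
    rcases hdd2 with h1 | h1 <;> rw [h1] at hpe2 k2 <;> omega
  · ext
    · show e.1 = x₀ + 2 * ((e.1 - x₀ + 1) / 2) - 1
      clear k1 k2 hcase hd2 h11 h12 hpe2
      rcases hdd1 with h1 | h1 <;> omega
    · show e.2 = y₀ + 2 * ((e.2 - y₀ + 1) / 2) - 1
      clear k1 k2 hcase hd2 h11 h12 hpe1
      rcases hdd2 with h1 | h1 <;> omega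
  · rintro ⟨i3, j3, h3, c3, hc3⟩
    have h31 : x₀ + 2 * p = s.1 + 2 * i3 := congrArg Prod.fst h3
    have h32 : y₀ + 2 * q = s.2 + 2 * j3 := congrArg Prod.snd h3
    clear k1 k2 hd2 h3
    rcases hcase with ⟨g1, g2⟩ | ⟨g1, g2⟩ <;> rcases hdd1 with h1 | h1 <;>
      rcases hdd2 with h2 | h2 <;> omega

end GeoC

end Pool.Agent.CHK
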