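import Pool.Agent.CHK.GeoC2

set_option autoImplicit false

/-! Module QC, third part: the core lemma for an even side. -/

namespace Pool.Agent.CHK

namespace GeoC

theorem at_dirs {W F : Sq → Prop} {v e : Sq} (h : AtP W F v e) :
    e = v + (1, 1) ∨ e = v + (-1, -1) ∨ e = v + (1, -1) ∨ e = v + (-1, 1) := by
  obtain ⟨-, -, d, hd, he, -⟩ := h
  rcases dg_cases hd with rfl | rfl | rfl | rfl
  · exact Or.inl he
  · exact Or.inr (Or.inr (Or.inl he))
  · exact Or.inr (Or.inr (Or.inr he))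
  · exact Or.inr (Or.inl he)

theorem finish {W F : Sq → Prop} {s t v a : Sq} (hvt : v ≠ t)
    (e1 : v ≠ s → oddN (AtP W F v) v) (e2 : v = s → ¬ oddN (AtP W F v) v)
    (hA : AtP W F v a) (ha : a = v + (1, -1) ∨ a = v + (-1, 1))
    (hne : ∀ e, (e = v + (1, -1) ∨ e = v + (-1, 1)) → AtP W F v e → e = a)
    (hg : AtP W F v (v + (1, 1)) → AtP W F t (v + (1, 1))) :
    (∃ u, u ≠ s ∧ u ≠ t ∧ AtP W F u a ∧ ∀ e, AtP W F u e → e = a) ∨
      ∃ u c, u ≠ t ∧ a ≠ c ∧ AtP W F u a ∧ AtP W F u c ∧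
        ((u = s ∧ ∀ e, AtP W F u e → e = a ∨ e = c) ∨
          (u ≠ s ∧ ∃ g, AtP W F t g ∧ AtP W F u g ∧ g ≠ a ∧ g ≠ c ∧
            ∀ e, AtP W F u e → e = a ∨ e = c ∨ e = g)) := by
  have hx : Xor (AtP W F v (v + (1, -1))) (AtP W F v (v + (-1, 1))) := by
    rcases ha with rfl | rfl
    · left
      refine ⟨hA, fun hB => ?_⟩
      have := hne _ (Or.inr rfl) hB
      simp at this
    · right
      refine ⟨hA, fun hB => ?_⟩
      have := hne _ (Or.inl rfl) hB
      simp at this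
  have n1 : v + (1, 1) ≠ a := by
    rcases ha with rfl | rfl <;> simp
  have n2 : v + (-1, -1) ≠ a := by
    rcases ha with rfl | rfl <;> simp
  have n3 : v + (1, 1) ≠ v + (-1, -1) := by simp
  have hodd : oddN (AtP W F v) v ↔ (AtP W F v (v + (1, 1)) ↔ AtP W F v (v + (-1, -1))) := by
    unfold oddN
    generalize AtP W F v (v + (1, 1)) = p at *
    generalize AtP W F v (v + (-1, -1)) = q at *
    generalize Xor (AtP W F v (v + (1, -1))) (AtP W F v (v + (-1, 1))) = r at *
    simp only [Xor]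
    tauto
  by_cases hs : v = s
  · have h2 := e2 hs
    rw [hodd] at h2
    right
    by_cases hp : AtP W F v (v + (1, 1))
    · refine ⟨v, v + (1, 1), hvt, n1.symm, hA, hp, Or.inl ⟨hs, fun e he => ?_⟩⟩
      rcases at_dirs he with rfl | rfl | rfl | rfl
      · exact Or.inr rfl
      · exact absurd ⟨fun _ => he, fun _ => hp⟩ h2
      · exact Or.inl (hne _ (Or.inl rfl) he)
      · exact Or.inl (hne _ (Or.inr rfl) he)
    · have hq : AtP W F v (v + (-1, -1)) := by tauto
      refine ⟨v, v + (-1, -1), hvt, n2.symm, hA, hq, Or.inl ⟨hs, fun e he => ?_⟩⟩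
      rcases at_dirs he with rfl | rfl | rfl | rfl
      · exact absurd he hp
      · exact Or.inr rfl
      · exact Or.inl (hne _ (Or.inl rfl) he)
      · exact Or.inl (hne _ (Or.inr rfl) he)
  · have h1 := e1 hs
    rw [hodd] at h1
    by_cases hp : AtP W F v (v + (1, 1))
    · right
      have hq : AtP W F v (v + (-1, -1)) := h1.1 hp
      refine ⟨v, v + (-1, -1), hvt, n2.symm, hA, hq,
        Or.inr ⟨hs, v + (1, 1), hg hp, hp, n1, n3, fun e he => ?_⟩⟩
      rcases at_dirs he with rfl | rfl | rfl | rfl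
      · exact Or.inr (Or.inr rfl)
      · exact Or.inr (Or.inl rfl)
      · exact Or.inl (hne _ (Or.inl rfl) he)
      · exact Or.inl (hne _ (Or.inr rfl) he)
    · left
      refine ⟨v, hs, hvt, hA, fun e he => ?_⟩
      rcases at_dirs he with rfl | rfl | rfl | rfl
      · exact absurd he hp
      · exact absurd (h1.2 he) hp
      · exact hne _ (Or.inl rfl) he
      · exact hne _ (Or.inr rfl) he

theorem core_even {W F β : Sq → Prop} {s t v : Sq} {m n : ℤ} (hm : 0 < m) (hn : 0 < n)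
    (hmo : m % 2 = 1) (hno : n % 2 = 0)
    (h : Hyp W F β s t v (-1, -1)) (h0 : ¬ Cls s (0, 0))
    (harr : ∀ z, (β z ∨ z = t) ↔
      ∃ i j : ℤ, (0 ≤ i ∧ i < m ∧ 0 ≤ j ∧ j < n) ∧ z = (2 * i, 2 * j)) :
    Concl W F β s t (-1, -1) := by
  obtain ⟨t1, t2, v1, v2, w1, w2, ht, hv, htr, hto, hvr, hvo, fF, hβ, h3, hw, hwv, hw2⟩ :=
    basic hm hn h h0 harr
  have fno : ∀ i j : ℤ, (i + j) % 2 = 0 → ¬ F (2 * i, 2 * j) := by
    intro i j hij hF
    obtain ⟨i', j', he, ho⟩ := fF _ hF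
    rw [Prod.mk.injEq] at he
    omega
  have bno : ∀ i j : ℤ, (0 ≤ i ∧ i < m ∧ 0 ≤ j ∧ j < n) → ¬ (i = t1 ∧ j = t2) →
      ¬ F (2 * i, 2 * j) := fun i j h1 h2 => h.bf _ ((hβ i j).2 ⟨h1, h2⟩)
  have hcls : ∀ i j : ℤ, (i + j) % 2 = 1 → Cls s (2 * i, 2 * j) := by
    intro i j hij
    obtain ⟨x, y, hx, c, hc⟩ := h.fc t h.ft
    rw [ht, Prod.mk.injEq] at hx
    refine ⟨i - t1 + x, j - t2 + y, ?_, (i - t1 + x + (j - t2 + y)) / 2, by omega⟩
    ext
    · show 2 * i = s.1 + 2 * (i - t1 + x)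
      omega
    · show 2 * j = s.2 + 2 * (j - t2 + y)
      omega
  have harr' : ∀ z, (β z ∨ z = t) ↔
      ∃ i j : ℤ, (0 ≤ i ∧ i < m ∧ 0 ≤ j ∧ j < n) ∧ z = (0 + 2 * i, 0 + 2 * j) := by
    simpa only [zero_add] using harr
  have huniq : ∀ f, W f → Adj β t f → ¬ AtP W F t f → f = (-1, -1) ∨ f = (2 * m - 1, -1) := by
    intro f hf hadj hat
    obtain ⟨i, j, i', j', hi, hj, he, hc⟩ :=
      var_corner hm hn h.bf h.fc h.ft harr' (h.cap f hf hadj) hadj hat
    have hc' : (i' + j') % 2 = 0 := by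
      by_contra hcon
      apply hc
      rw [zero_add, zero_add]
      exact hcls i' j' (by omega)
    have hj0 : j = 0 := by omega
    rcases hi with ⟨hi, -⟩ | ⟨hi, -⟩
    · left; rw [he, hi, hj0]; norm_num
    · right; rw [he, hi, hj0]; norm_num
  have haa : Cls (-1, -1) (-1, -1) := (cls_odd 0 0).2 (by norm_num)
  have had : ¬ Cls (-1, -1) (2 * m - 1, -1) := by
    have := cls_odd m 0
    norm_num at this
    rw [this]; omega
  have hU1 : ∀ f, W f → Cls (-1, -1) f → Adj β t f → f = (-1, -1) ∨ AtP W F t f := by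
    intro f hf hc hadj
    by_contra hcon
    push Not at hcon
    rcases huniq f hf hadj hcon.2 with rfl | rfl
    · exact hcon.1 rfl
    · exact had hc
  have hWa := h.isa.1
  have hF : F (0, -2) ∧ F (-2, 0) := by
    obtain ⟨-, d, hd, g1, g2⟩ := h.isa
    have := fno 0 0 (by norm_num)
    rcases dg_cases hd with rfl | rfl | rfl | rfl <;> norm_num at g1 g2 this
    · exact absurd g1 this
    · exact ⟨g1, g2⟩
    · exact ⟨g2, g1⟩
    · exact absurd g2 this
  obtain ⟨d, hcd, hWd, hadjd, hisd, hatd⟩ := h.other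
  have hd : d = (2 * m - 1, -1) := by
    rcases huniq d hWd hadjd hatd with rfl | rfl
    · exact absurd haa hcd
    · rfl
  subst hd
  by_cases hm1 : m = 1
  · subst hm1
    right
    refine ⟨hU1, Or.inr ⟨_, hcd, hWd, hadjd, hatd, ?_, (0, -2), ?_, ?_⟩⟩
    · intro f hf hc hadj
      by_contra hcon
      push Not at hcon
      rcases huniq f hf hadj hcon.2 with rfl | rfl
      · exact hc haa
      · exact hcon.1 rfl
    · exact ⟨hWa, hF.1, (-1, 1), ⟨Or.inr rfl, Or.inl rfl⟩, by norm_num, by norm_num; exact hF.2⟩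
    · refine ⟨hWd, hF.1, (1, 1), ⟨Or.inl rfl, Or.inl rfl⟩, by norm_num, ?_⟩
      norm_num
      obtain ⟨-, d, hd, g1, g2⟩ := hisd
      have := fno 1 (-1) (by norm_num)
      rcases dg_cases hd with rfl | rfl | rfl | rfl <;> norm_num at g1 g2 this
      · exact g1
      · exact absurd g1 this
      · exact absurd g2 this
      · exact g2
  have hm3 : 3 ≤ m := by omega
  have hn2 : 2 ≤ n := by omega
  obtain ⟨ht1, ht2, hvv⟩ := arith_even hm3 hn2 hmo hno htr hto hvr hvo h3
  -- the finisher is not the square next to `t`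
  have hq : ¬ (w1 = 1 ∧ w2 = n - 1) := by
    rintro ⟨rfl, rfl⟩
    have hadj : Adj β t (2 * 1 - 1, 2 * (n - 1) - 1) := by
      refine ⟨(-1, 1), ⟨Or.inr rfl, Or.inl rfl⟩, Or.inr ?_⟩
      rw [ht, ht1, ht2]
      ext
      · show (2 * 1 - 1 : ℤ) + -1 = 2 * 0
        norm_num
      · show 2 * (n - 1) - 1 + 1 = 2 * (n - 1)
        ring
    obtain ⟨-, d, hd, g1, g2⟩ := h.cap _ hw hadj
    have k1 := fno 1 (n - 1) (by omega)
    have k2 := bno 1 (n - 2) (by omega) (by omega)
    have r1 : ((2 * 1 - 1, 2 * (n - 1) - 1) : Sq) + (1, 1) = (2 * 1, 2 * (n - 1)) := by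
      ext <;> simp
    have r2 : ((2 * 1 - 1, 2 * (n - 1) - 1) : Sq) - (-1, -1) = (2 * 1, 2 * (n - 1)) := by
      ext <;> simp
    have r3 : ((2 * 1 - 1, 2 * (n - 1) - 1) : Sq) + (1, -1) = (2 * 1, 2 * (n - 2)) := by
      ext <;> simp; ring
    have r4 : ((2 * 1 - 1, 2 * (n - 1) - 1) : Sq) - (-1, 1) = (2 * 1, 2 * (n - 2)) := by
      ext <;> simp; ring
    rcases dg_cases hd with rfl | rfl | rfl | rfl
    · rw [r1] at g1; exact k1 g1
    · rw [r3] at g1; exact k2 g1
    · rw [r4] at g2; exact k2 g2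
    · rw [r2] at g2; exact k1 g2
  have p1 : PF m n t1 t2 v1 v2 (t1 + 1) t2 := pf_t (by omega) (by omega) (by omega)
  have hfin : (∃ u, u ≠ s ∧ u ≠ t ∧ AtP W F u (-1, -1) ∧ ∀ e, AtP W F u e → e = (-1, -1)) ∨
      ∃ u c, u ≠ t ∧ (-1, -1) ≠ c ∧ AtP W F u (-1, -1) ∧ AtP W F u c ∧
        ((u = s ∧ ∀ e, AtP W F u e → e = (-1, -1) ∨ e = c) ∨
          (u ≠ s ∧ ∃ g, AtP W F t g ∧ AtP W F u g ∧ g ≠ (-1, -1) ∧ g ≠ c ∧
            ∀ e, AtP W F u e → e = (-1, -1) ∨ e = c ∨ e = g)) := by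
    refine finish h.vt h.e1 h.e2 ?_ ?_ ?_ ?_
    · -- `a` is an edge at `v`
      rcases hvv with ⟨g1, g2⟩ | ⟨g1, g2⟩
      · rw [hv, g1, g2]
        exact ⟨hWa, by norm_num; exact hF.1, (-1, 1), ⟨Or.inr rfl, Or.inl rfl⟩, by norm_num,
          by norm_num; exact hF.2⟩
      · rw [hv, g1, g2]
        exact ⟨hWa, by norm_num; exact hF.2, (1, -1), ⟨Or.inl rfl, Or.inr rfl⟩, by norm_num,
          by norm_num; exact hF.1⟩
    · rcases hvv with ⟨g1, g2⟩ | ⟨g1, g2⟩
      · right; rw [hv, g1, g2]; norm_num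
      · left; rw [hv, g1, g2]; norm_num
    · -- the other one is not
      intro e he hae
      rcases hvv with ⟨g1, g2⟩ | ⟨g1, g2⟩
      · rcases he with rfl | rfl
        · exfalso
          have p2 : PF m n t1 t2 v1 v2 1 (-1) := pf_v (by omega) (by omega) (by omega)
          rcases hw2 _ _ _ _ (by omega) (by norm_num) p1 p2 (by omega) with g | g
          · exact hq (by omega)
          · apply hwv
            rw [g.1, g.2]
            have : v + (1, -1) = (2 * 1 - 1, 2 * -1 - 1) := by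
              rw [hv, g1, g2]; norm_num
            rw [← this]; exact hae
        · rw [hv, g1, g2]; norm_num
      · rcases he with rfl | rfl
        · rw [hv, g1, g2]; norm_num
        · exfalso
          have p2 : PF m n t1 t2 v1 v2 (-1) 1 := pf_v (by omega) (by omega) (by omega)
          rcases hw2 _ _ _ _ (by omega) (by norm_num) p1 p2 (by omega) with g | g
          · exact hq (by omega)
          · apply hwv
            rw [g.1, g.2]
            have : v + (-1, 1) = (2 * -1 - 1, 2 * 1 - 1) := by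
              rw [hv, g1, g2]; norm_num
            rw [← this]; exact hae
    · -- the edge in direction (1,1)
      rintro ⟨hW1, -, d, hd, hd1, hF1⟩
      have hd2 : d = (1, 1) := (add_left_cancel hd1).symm
      subst hd2
      rcases hvv with ⟨g1, g2⟩ | ⟨g1, g2⟩
      · exfalso
        have k2 := bno 1 0 (by omega) (by omega)
        rw [hv, g1, g2] at hF1
        norm_num at hF1 k2
        exact k2 hF1
      · by_cases hn' : n = 2
        · refine ⟨hW1, h.ft, (-1, -1), ⟨Or.inr rfl, Or.inr rfl⟩, ?_, ?_⟩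
          · rw [hv, g1, g2, ht, ht1, ht2, hn']; norm_num
          · rw [ht, ht1, ht2, hn']; norm_num; exact hF.2
        · exfalso
          have k2 := bno 0 1 (by omega) (by omega)
          rw [hv, g1, g2] at hF1
          norm_num at hF1 k2
          exact k2 hF1
  rcases hfin with hfin | hfin
  · exact Or.inl hfin
  · exact Or.inr ⟨hU1, Or.inl hfin⟩

end GeoC

end Pool.Agent.CHK
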