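import Pool.Agent.CHK.GeoC3

set_option autoImplicit false

/-! Module QC, last part: symmetries and the theorem `geo`. -/

namespace Pool.Agent.CHK

namespace GeoC

/-- Symmetries of the set of squares. -/
structure Fr where
  f : Sq → Sq
  g : Sq → Sq
  l : Sq → Sq
  fg : ∀ z, f (g z) = z
  inj : ∀ z z', f z = f z' → z = z'
  add : ∀ z d, f (z + d) = f z + l d
  sub : ∀ z d, f (z - d) = f z - l d
  dg : ∀ d, Dg d → Dg (l d)
  lsurj : ∀ d, Dg d → ∃ d', Dg d' ∧ l d' = d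
  cls : ∀ z z', Cls (f z) (f z') ↔ Cls z z'
  odd : ∀ (X : Sq → Prop) z, oddN (fun y => X (f y)) z ↔ oddN X (f z)

variable {W F β : Sq → Prop} {s t v a : Sq}

theorem Fr.at (φ : Fr) (v e : Sq) :
    AtP (fun z => W (φ.f z)) (fun z => F (φ.f z)) v e ↔ AtP W F (φ.f v) (φ.f e) := by
  constructor
  · rintro ⟨h1, h2, d, hd, he, hF⟩
    refine ⟨h1, h2, φ.l d, φ.dg d hd, by rw [he, φ.add], ?_⟩
    rwa [φ.add, φ.add] at hF
  · rintro ⟨h1, h2, d', hd', he, hF⟩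
    obtain ⟨d, hd, rfl⟩ := φ.lsurj d' hd'
    refine ⟨h1, h2, d, hd, φ.inj _ _ (by rw [he, φ.add]), ?_⟩
    show F (φ.f (v + d + d))
    rwa [φ.add, φ.add]

theorem Fr.is (φ : Fr) (e : Sq) :
    IsP (fun z => W (φ.f z)) (fun z => F (φ.f z)) e ↔ IsP W F (φ.f e) := by
  constructor
  · rintro ⟨h1, d, hd, hF, hF'⟩
    refine ⟨h1, φ.l d, φ.dg d hd, ?_, ?_⟩
    · rwa [φ.add] at hF
    · rwa [φ.sub] at hF'
  · rintro ⟨h1, d', hd', hF, hF'⟩
    obtain ⟨d, hd, rfl⟩ := φ.lsurj d' hd'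
    refine ⟨h1, d, hd, ?_, ?_⟩
    · show F (φ.f (e + d))
      rwa [φ.add]
    · show F (φ.f (e - d))
      rwa [φ.sub]

theorem Fr.adj (φ : Fr) (t z : Sq) :
    Adj (fun z => β (φ.f z)) t z ↔ Adj β (φ.f t) (φ.f z) := by
  constructor
  · rintro ⟨d, hd, h | h⟩
    · exact ⟨φ.l d, φ.dg d hd, Or.inl (by rwa [φ.add] at h)⟩
    · exact ⟨φ.l d, φ.dg d hd, Or.inr (by rw [← φ.add, h])⟩
  · rintro ⟨d', hd', h⟩
    obtain ⟨d, hd, rfl⟩ := φ.lsurj d' hd'
    rw [← φ.add] at h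
    rcases h with h | h
    · exact ⟨d, hd, Or.inl h⟩
    · exact ⟨d, hd, Or.inr (φ.inj _ _ h)⟩

theorem Fr.ff (φ : Fr) (z : Sq) : ∃ z', z = φ.f z' := ⟨φ.g z, (φ.fg z).symm⟩

theorem Fr.hyp (φ : Fr) (h : Hyp W F β (φ.f s) (φ.f t) (φ.f v) (φ.f a)) :
    Hyp (fun z => W (φ.f z)) (fun z => F (φ.f z)) (fun z => β (φ.f z)) s t v a := by
  have hat : ∀ u, AtP (fun z => W (φ.f z)) (fun z => F (φ.f z)) u =
      fun e => AtP W F (φ.f u) (φ.f e) := fun u => funext fun e => propext (φ.at u e)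
  refine ⟨fun z hz => h.bf _ hz, fun z hz => (φ.cls _ _).1 (h.fc _ hz), h.ft, h.fv,
    fun he => h.vt (by rw [he]), (φ.is a).2 h.isa, ?_, ?_, ?_, ?_, ?_⟩
  · obtain ⟨d, h1, h2, h3, h4, h5⟩ := h.other
    obtain ⟨d, rfl⟩ := φ.ff d
    exact ⟨d, fun hc => h1 ((φ.cls _ _).2 hc), h2, (φ.adj _ _).2 h3, (φ.is _).2 h4,
      fun hc => h5 ((φ.at _ _).1 hc)⟩
  · intro f hf hadj
    exact (φ.is _).2 (h.cap _ hf ((φ.adj _ _).1 hadj))
  · intro hvs
    have := h.e1 (fun he => hvs (φ.inj _ _ he))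
    rw [hat]
    exact (φ.odd _ _).2 this
  · intro hvs
    have := h.e2 (by rw [hvs])
    rw [hat]
    exact fun hc => this ((φ.odd _ _).1 hc)
  · obtain ⟨w, w', h1, h2, h3, h4⟩ := h.good
    obtain ⟨w, rfl⟩ := φ.ff w
    obtain ⟨w', rfl⟩ := φ.ff w'
    refine ⟨w, w', (φ.cls _ _).1 h1, h2, fun hc => h3 ((φ.at _ _).1 hc), ?_⟩
    intro z hz
    have h5 := h4 _ ((φ.cls _ _).2 hz)
    have e1 : (φ.f z = φ.f w) = (z = w) :=
      propext ⟨fun h => φ.inj _ _ h, fun h => by rw [h]⟩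
    have e2 : (φ.f z = φ.f w') = (z = w') :=
      propext ⟨fun h => φ.inj _ _ h, fun h => by rw [h]⟩
    rw [e1, e2, ← φ.odd] at h5
    have e3 : (fun y => β (φ.f y) ∨ y = v) = fun y => β (φ.f y) ∨ φ.f y = φ.f v := by
      funext y
      have : (y = v) = (φ.f y = φ.f v) := propext ⟨fun h => by rw [h], fun h => φ.inj _ _ h⟩
      rw [this]
    rw [e3]
    exact h5

theorem Fr.concl (φ : Fr)
    (h : Concl (fun z => W (φ.f z)) (fun z => F (φ.f z)) (fun z => β (φ.f z)) s t a) :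
    Concl W F β (φ.f s) (φ.f t) (φ.f a) := by
  rcases h with ⟨u, h1, h2, h3, h4⟩ | ⟨hU, h⟩
  · refine Or.inl ⟨φ.f u, fun he => h1 (φ.inj _ _ he), fun he => h2 (φ.inj _ _ he),
      (φ.at _ _).1 h3, fun e he => ?_⟩
    obtain ⟨e, rfl⟩ := φ.ff e
    rw [h4 e ((φ.at _ _).2 he)]
  · refine Or.inr ⟨?_, ?_⟩
    · intro f hf hc hadj
      obtain ⟨f, rfl⟩ := φ.ff f
      rcases hU f hf ((φ.cls _ _).1 hc) ((φ.adj _ _).2 hadj) with h | h
      · exact Or.inl (by rw [h])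
      · exact Or.inr ((φ.at _ _).1 h)
    · rcases h with ⟨u, c, h1, h2, h3, h4, h5⟩ | ⟨d, h1, h2, h3, h4, h5, u, h6, h7⟩
      · refine Or.inl ⟨φ.f u, φ.f c, fun he => h1 (φ.inj _ _ he), fun he => h2 (φ.inj _ _ he),
          (φ.at _ _).1 h3, (φ.at _ _).1 h4, ?_⟩
        rcases h5 with ⟨h5, h6⟩ | ⟨h5, g, h6, h7, h8, h9, h10⟩
        · refine Or.inl ⟨by rw [h5], fun e he => ?_⟩
          obtain ⟨e, rfl⟩ := φ.ff e
          rcases h6 e ((φ.at _ _).2 he) with h | h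
          · exact Or.inl (by rw [h])
          · exact Or.inr (by rw [h])
        · refine Or.inr ⟨fun he => h5 (φ.inj _ _ he), φ.f g, (φ.at _ _).1 h6, (φ.at _ _).1 h7,
            fun he => h8 (φ.inj _ _ he), fun he => h9 (φ.inj _ _ he), fun e he => ?_⟩
          obtain ⟨e, rfl⟩ := φ.ff e
          rcases h10 e ((φ.at _ _).2 he) with h | h | h
          · exact Or.inl (by rw [h])
          · exact Or.inr (Or.inl (by rw [h]))
          · exact Or.inr (Or.inr (by rw [h]))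
      · refine Or.inr ⟨φ.f d, fun hc => h1 ((φ.cls _ _).1 hc), h2, (φ.adj _ _).1 h3,
          fun hc => h4 ((φ.at _ _).2 hc), ?_, φ.f u, (φ.at _ _).1 h6, (φ.at _ _).1 h7⟩
        intro f hf hc hadj
        obtain ⟨f, rfl⟩ := φ.ff f
        rcases h5 f hf (fun h => hc ((φ.cls _ _).2 h)) ((φ.adj _ _).2 hadj) with h | h
        · exact Or.inl (by rw [h])
        · exact Or.inr ((φ.at _ _).1 h)

theorem xcomm {p q : Prop} : Xor p q ↔ Xor q p := by
  simp only [Xor]; tauto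

theorem xcongr {p q p' q' : Prop} (h : p ↔ p') (h' : q ↔ q') : Xor p q ↔ Xor p' q' := by
  rw [h, h']

/-- Transposition. -/
def swp : Fr where
  f z := (z.2, z.1)
  g z := (z.2, z.1)
  l z := (z.2, z.1)
  fg z := rfl
  inj z z' h := by
    rw [Prod.mk.injEq] at h
    exact Prod.ext h.2 h.1
  add z d := rfl
  sub z d := rfl
  dg d hd := ⟨hd.2, hd.1⟩
  lsurj d hd := ⟨(d.2, d.1), ⟨hd.2, hd.1⟩, rfl⟩
  cls z z' := by
    constructor
    · rintro ⟨i, j, h, c, hc⟩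
      rw [Prod.mk.injEq] at h
      exact ⟨j, i, Prod.ext h.2 h.1, c, by omega⟩
    · rintro ⟨i, j, h, c, hc⟩
      exact ⟨j, i, by rw [h], c, by omega⟩
  odd X z := by
    unfold oddN
    exact xcongr Iff.rfl xcomm

/-- Reflections. -/
def refl (A B ε η : ℤ) (hε : ε = 1 ∨ ε = -1) (hη : η = 1 ∨ η = -1) : Fr where
  f z := (A + ε * z.1, B + η * z.2)
  g z := (ε * (z.1 - A), η * (z.2 - B))
  l z := (ε * z.1, η * z.2)
  fg z := by
    rcases hε with rfl | rfl <;> rcases hη with rfl | rfl <;> ext <;> simp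
  inj z z' h := by
    rw [Prod.mk.injEq] at h
    rcases hε with rfl | rfl <;> rcases hη with rfl | rfl <;>
      exact Prod.ext (by linarith [h.1]) (by linarith [h.2])
  add z d := by
    ext
    · show A + ε * (z.1 + d.1) = A + ε * z.1 + ε * d.1
      ring
    · show B + η * (z.2 + d.2) = B + η * z.2 + η * d.2
      ring
  sub z d := by
    ext
    · show A + ε * (z.1 - d.1) = A + ε * z.1 - ε * d.1
      ring
    · show B + η * (z.2 - d.2) = B + η * z.2 - η * d.2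
      ring
  dg d hd := by
    obtain ⟨h1, h2⟩ := hd
    constructor
    · show ε * d.1 = 1 ∨ ε * d.1 = -1
      rcases hε with rfl | rfl <;> omega
    · show η * d.2 = 1 ∨ η * d.2 = -1
      rcases hη with rfl | rfl <;> omega
  lsurj d hd := by
    obtain ⟨h1, h2⟩ := hd
    refine ⟨(ε * d.1, η * d.2), ⟨?_, ?_⟩, ?_⟩
    · show ε * d.1 = 1 ∨ ε * d.1 = -1
      rcases hε with rfl | rfl <;> omega
    · show η * d.2 = 1 ∨ η * d.2 = -1
      rcases hη with rfl | rfl <;> omega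
    · rcases hε with rfl | rfl <;> rcases hη with rfl | rfl <;> ext <;> simp
  cls z z' := by
    constructor
    · rintro ⟨i, j, h, c, hc⟩
      rw [Prod.mk.injEq] at h
      refine ⟨ε * i, η * j, ?_, (ε * i + η * j) / 2, ?_⟩
      · rcases hε with rfl | rfl <;> rcases hη with rfl | rfl <;>
          exact Prod.ext (by simp only []; linarith [h.1]) (by simp only []; linarith [h.2])
      · rcases hε with rfl | rfl <;> rcases hη with rfl | rfl <;> omega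
    · rintro ⟨i, j, h, c, hc⟩
      refine ⟨ε * i, η * j, ?_, (ε * i + η * j) / 2, ?_⟩
      · rw [h]
        ext
        · show A + ε * (z.1 + 2 * i) = A + ε * z.1 + 2 * (ε * i)
          ring
        · show B + η * (z.2 + 2 * j) = B + η * z.2 + 2 * (η * j)
          ring
      · rcases hε with rfl | rfl <;> rcases hη with rfl | rfl <;> omega
  odd X z := by
    have e : ∀ d : Sq, ((A + ε * (z + d).1, B + η * (z + d).2) : Sq) =
        (A + ε * z.1, B + η * z.2) + (ε * d.1, η * d.2) := by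
      intro d
      ext
      · show A + ε * (z.1 + d.1) = A + ε * z.1 + ε * d.1
        ring
      · show B + η * (z.2 + d.2) = B + η * z.2 + η * d.2
        ring
    unfold oddN
    simp only [e]
    rcases hε with rfl | rfl <;> rcases hη with rfl | rfl <;> norm_num
    · exact xcomm
    · exact xcomm.trans (xcongr xcomm xcomm)
    · exact xcongr xcomm xcomm

theorem std {m n : ℤ} (hm : 0 < m) (hn : 0 < n) (hmn : ¬ (m % 2 = 0 ∧ n % 2 = 0))
    (h : Hyp W F β s t v (-1, -1)) (h0 : ¬ Cls s (0, 0))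
    (harr : ∀ z, (β z ∨ z = t) ↔
      ∃ i j : ℤ, (0 ≤ i ∧ i < m ∧ 0 ≤ j ∧ j < n) ∧ z = (2 * i, 2 * j)) :
    Concl W F β s t (-1, -1) := by
  rcases Int.emod_two_eq m with hm2 | hm2 <;> rcases Int.emod_two_eq n with hn2 | hn2
  · exact absurd ⟨hm2, hn2⟩ hmn
  · -- transposition
    have key := core_even (W := fun z => W (swp.f z)) (F := fun z => F (swp.f z))
      (β := fun z => β (swp.f z)) (s := (s.2, s.1)) (t := (t.2, t.1)) (v := (v.2, v.1))
      (m := n) (n := m) hn hm hn2 hm2 (swp.hyp h) (fun hc => h0 ((swp.cls (s.2, s.1) (0, 0)).2 hc)) (by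
        intro z
        have h1 := harr (z.2, z.1)
        have e : ((z.2, z.1) = t) = (z = (t.2, t.1)) := by
          apply propext
          constructor
          · intro h; rw [← h]
          · intro h; rw [h]
        rw [e] at h1
        refine h1.trans ?_
        constructor
        · rintro ⟨i, j, hr, he⟩
          rw [Prod.mk.injEq] at he
          exact ⟨j, i, ⟨hr.2.2.1, hr.2.2.2, hr.1, hr.2.1⟩, Prod.ext he.2 he.1⟩
        · rintro ⟨i, j, hr, he⟩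
          exact ⟨j, i, ⟨hr.2.2.1, hr.2.2.2, hr.1, hr.2.1⟩, by rw [he]⟩)
    exact swp.concl key
  · exact core_even hm hn hm2 hn2 h h0 harr
  · exact absurd (core_odd hm hn hm2 hn2 h h0 harr) not_false

theorem rng1 {m i' ε p : ℤ} (hε : ε = 1 ∨ ε = -1) (h1 : ε = 1 → i' = 0)
    (h2 : ε = -1 → i' = m - 1) (hp : 0 ≤ p) (hp' : p < m) :
    0 ≤ ε * (p - i') ∧ ε * (p - i') < m := by
  rcases hε with rfl | rfl
  · have := h1 rfl
    omega
  · have := h2 rfl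
    omega

theorem rng2 {m i' ε p : ℤ} (hε : ε = 1 ∨ ε = -1) (h1 : ε = 1 → i' = 0)
    (h2 : ε = -1 → i' = m - 1) (hp : 0 ≤ p) (hp' : p < m) :
    0 ≤ i' + ε * p ∧ i' + ε * p < m := by
  rcases hε with rfl | rfl
  · have := h1 rfl
    omega
  · have := h2 rfl
    omega

theorem std' {m n x₀ y₀ : ℤ} (hm : 0 < m) (hn : 0 < n) (hmn : ¬ (m % 2 = 0 ∧ n % 2 = 0))
    (h : Hyp W F β s t v a)
    (harr : ∀ z, (β z ∨ z = t) ↔
      ∃ i j : ℤ, (0 ≤ i ∧ i < m ∧ 0 ≤ j ∧ j < n) ∧ z = (x₀ + 2 * i, y₀ + 2 * j))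
    (ha : ∃ i j i' j' : ℤ, ((i = 0 ∧ i' = 0) ∨ (i = m ∧ i' = m - 1)) ∧
      ((j = 0 ∧ j' = 0) ∨ (j = n ∧ j' = n - 1)) ∧ a = (x₀ + 2 * i - 1, y₀ + 2 * j - 1) ∧
      ¬ Cls s (x₀ + 2 * i', y₀ + 2 * j')) : Concl W F β s t a := by
  obtain ⟨i, j, i', j', hi, hj, rfl, hc⟩ := ha
  obtain ⟨ε, hε, hε1, hε2⟩ : ∃ ε : ℤ, (ε = 1 ∨ ε = -1) ∧ (ε = 1 → i' = 0) ∧
      ((ε = -1 → i' = m - 1) ∧ x₀ + 2 * i - 1 = x₀ + 2 * i' + ε * -1) := by
    rcases hi with ⟨rfl, rfl⟩ | ⟨rfl, rfl⟩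
    · exact ⟨1, Or.inl rfl, by simp, by norm_num, by ring⟩
    · exact ⟨-1, Or.inr rfl, by norm_num, by norm_num, by ring⟩
  obtain ⟨η, hη, hη1, hη2⟩ : ∃ η : ℤ, (η = 1 ∨ η = -1) ∧ (η = 1 → j' = 0) ∧
      ((η = -1 → j' = n - 1) ∧ y₀ + 2 * j - 1 = y₀ + 2 * j' + η * -1) := by
    rcases hj with ⟨rfl, rfl⟩ | ⟨rfl, rfl⟩
    · exact ⟨1, Or.inl rfl, by simp, by norm_num, by ring⟩
    · exact ⟨-1, Or.inr rfl, by norm_num, by norm_num, by ring⟩
  let φ := refl (x₀ + 2 * i') (y₀ + 2 * j') ε η hε hη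
  have hfa : ((x₀ + 2 * i - 1, y₀ + 2 * j - 1) : Sq) = φ.f (-1, -1) := by
    rw [hε2.2, hη2.2]; rfl
  have hf0 : ((x₀ + 2 * i', y₀ + 2 * j') : Sq) = φ.f (0, 0) := by
    show _ = ((x₀ + 2 * i' + ε * 0, y₀ + 2 * j' + η * 0) : Sq)
    rw [mul_zero, mul_zero, add_zero, add_zero]
  obtain ⟨s, rfl⟩ := φ.ff s
  obtain ⟨t, rfl⟩ := φ.ff t
  obtain ⟨v, rfl⟩ := φ.ff v
  rw [hfa] at h ⊢
  rw [hf0, φ.cls] at hc
  apply φ.concl
  refine std hm hn hmn (φ.hyp h) hc ?_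
  intro z
  have h1 := harr (φ.f z)
  have e : (φ.f z = φ.f t) = (z = t) := propext ⟨fun h => φ.inj _ _ h, fun h => by rw [h]⟩
  rw [e] at h1
  refine h1.trans ?_
  constructor
  · rintro ⟨p, q, hr, he⟩
    have he' : ((x₀ + 2 * i' + ε * z.1, y₀ + 2 * j' + η * z.2) : Sq) =
      (x₀ + 2 * p, y₀ + 2 * q) := he
    rw [Prod.mk.injEq] at he'
    refine ⟨ε * (p - i'), η * (q - j'), ?_, ?_⟩
    · have r1 := rng1 hε hε1 hε2.1 hr.1 hr.2.1
      have r2 := rng1 hη hη1 hη2.1 hr.2.2.1 hr.2.2.2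
      exact ⟨r1.1, r1.2, r2.1, r2.2⟩
    · rcases hε with rfl | rfl <;> rcases hη with rfl | rfl <;>
        exact Prod.ext (by simp only []; linarith [he'.1]) (by simp only []; linarith [he'.2])
  · rintro ⟨p, q, hr, rfl⟩
    refine ⟨i' + ε * p, j' + η * q, ?_, ?_⟩
    · have r1 := rng2 hε hε1 hε2.1 hr.1 hr.2.1
      have r2 := rng2 hη hη1 hη2.1 hr.2.2.1 hr.2.2.2
      exact ⟨r1.1, r1.2, r2.1, r2.2⟩
    · show ((x₀ + 2 * i' + ε * (2 * p), y₀ + 2 * j' + η * (2 * q)) : Sq) = _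
      ext
      · show x₀ + 2 * i' + ε * (2 * p) = x₀ + 2 * (i' + ε * p)
        ring
      · show y₀ + 2 * j' + η * (2 * q) = y₀ + 2 * (j' + η * q)
        ring

end GeoC

end Pool.Agent.CHK
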