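import Pool.Agent.CHK.Sq

set_option autoImplicit false

/-! Jumps of black men. -/

namespace Pool.Agent.CHK

theorem jumpb_opp_bnd {m : ℕ} {F : Set Edge} (hF : Bnd m F) {e : Edge} (he : e ∈ F) :
    On (size m) (esq m (opp e)) ∧ 0 < (esq m (opp e)).2 ∧
      (esq m (opp e)).2 < (size m : ℤ) - 1 := by
  obtain ⟨h1, h2⟩ := hF e he
  rw [abs_le] at h1 h2
  obtain ⟨p, q, b⟩ := e
  simp only at h1 h2
  cases b
  · have h3 : opp (p, q, false) = (p - 1, q, false) := rfl
    rw [h3]
    exact on_esq (by simp only [abs_le]; constructor <;> omega)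
      (by simp only [abs_le]; constructor <;> omega)
  · have h3 : opp (p, q, true) = (p, q - 1, true) := rfl
    rw [h3]
    exact on_esq (by simp only [abs_le]; constructor <;> omega)
      (by simp only [abs_le]; constructor <;> omega)

theorem jump_black {m : ℕ} {B : Board} {F G : Set Edge} {U : Set V} (h : Fits m B F G U)
    (hF : Bnd m F) {e : Edge} (he : e ∈ F) (y : Sq) (B' : Board) :
    Jump (size m) B (esq m e) y B' ↔
      e.lo ∈ U ∧ opp e ∉ F ∧ opp e ∉ G ∧ y = esq m (opp e) ∧ B' = bjmp m B e := by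
  obtain ⟨hon, hpos, -⟩ := jumpb_opp_bnd hF he
  have harr : arrive (size m) ⟨false, false⟩ (esq m (opp e)) = ⟨false, false⟩ := by
    unfold arrive far
    rw [if_neg]
    intro h1
    simp only [Bool.false_eq_true, reduceIte] at h1
    omega
  have hupd : ∀ d : Sq, esq m e + d = vsq m e.lo → esq m e + d + d = esq m (opp e) →
      Function.update (Function.update (Function.update B (esq m e) none) (esq m e + d) none)
        (esq m (opp e)) (some (arrive (size m) ⟨false, false⟩ (esq m (opp e)))) = bjmp m B e := by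
    intro d h1 h2
    funext x
    rw [harr, h1]
    unfold bjmp
    by_cases hx1 : x = esq m (opp e)
    · rw [if_pos hx1, hx1, Function.update_self]
    · rw [if_neg hx1, Function.update_of_ne hx1]
      by_cases hx2 : x = vsq m e.lo
      · rw [if_pos (Or.inr hx2), hx2, Function.update_self]
      · rw [Function.update_of_ne hx2]
        by_cases hx3 : x = esq m e
        · rw [if_pos (Or.inl hx3), hx3, Function.update_self]
        · rw [Function.update_of_ne hx3, if_neg (by tauto)]
  constructor
  · rintro ⟨P, Q, d, hP, ⟨hd1, hd2⟩, hQ, hne, hy, -, hnone, hB'⟩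
    have hPb := h.black e he
    rw [hP, Option.some.injEq] at hPb
    subst hPb
    have hd : d.2 = -1 := by
      rcases hd2 with h1 | ⟨h1, -⟩
      · exact h1
      · exact absurd h1 (by simp)
    rcases esq_add (m := m) (e := e) hd1 hd with ⟨h1, h2⟩ | ⟨h1, h2⟩
    · rcases h.only _ _ hQ with ⟨z, hz, hz'⟩ | ⟨e', -, he'⟩
      · rw [h1] at hz'
        have hze := vsq_inj hz'
        subst hze
        rw [h2] at hy
        subst hy
        refine ⟨hz, ?_, ?_, rfl, ?_⟩
        · intro h3
          have h4 := h.black _ h3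
          rw [hnone] at h4
          exact absurd h4 (by simp)
        · intro h3
          obtain ⟨P', h4, -⟩ := h.fill _ h3
          rw [hnone] at h4
          exact absurd h4 (by simp)
        · rw [hB']
          exact hupd d h1 h2
      · rw [h1] at he'
        exact absurd he' vsq_ne_esq
    · rcases h.only _ _ hQ with ⟨z, -, hz'⟩ | ⟨e', -, he'⟩
      · exact absurd hz' (h1 z)
      · exact absurd he' (h2 e')
  · rintro ⟨hlo, hoF, hoG, rfl, rfl⟩
    obtain ⟨d, hd1, hd2, h1, h2⟩ := esq_add_lo (m := m) e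
    obtain ⟨Q, hQ, hQw⟩ := h.occ _ hlo
    refine ⟨⟨false, false⟩, Q, d, h.black e he, ⟨hd1, Or.inl hd2⟩, ?_, ?_, h2.symm, hon, ?_,
      (hupd d h1 h2).symm⟩
    · rw [h1]
      exact hQ
    · rw [hQw]
      simp
    · by_contra hc
      obtain ⟨P', hP'⟩ := Option.ne_none_iff_exists'.1 hc
      rcases h.only _ _ hP' with ⟨z, -, hz'⟩ | ⟨e', he', he''⟩
      · exact vsq_ne_esq hz'.symm
      · have := esq_inj he''
        subst this
        tauto

theorem fits_bjmp {m : ℕ} {B : Board} {F G : Set Edge} {U : Set V} (h : Fits m B F G U)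
    {e : Edge} (he : e ∈ F) (h2 : opp e ∉ F) (h3 : opp e ∉ G) :
    Fits m (bjmp m B e) (insert (opp e) (F \ {e})) G (U \ {e.lo}) := by
  refine ⟨?_, ?_, ?_, ?_⟩
  · intro e' he'
    unfold bjmp
    by_cases h4 : e' = opp e
    · rw [if_pos (by rw [h4])]
    · have h5 : e' ∈ F ∧ e' ≠ e := by
        rcases he' with h5 | h5
        · exact absurd h5 h4
        · exact ⟨h5.1, h5.2⟩
      rw [if_neg (fun h6 => h4 (esq_inj h6)), if_neg, h.black e' h5.1]
      rintro (h6 | h6)
      · exact h5.2 (esq_inj h6)
      · exact vsq_ne_esq h6.symm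
  · intro e' he'
    obtain ⟨P, hP, hPw⟩ := h.fill e' he'
    refine ⟨P, ?_, hPw⟩
    unfold bjmp
    rw [if_neg, if_neg, hP]
    · rintro (h6 | h6)
      · have h7 := h.black e he
        rw [← h6, hP, Option.some.injEq] at h7
        rw [h7] at hPw
        exact absurd hPw (by simp)
      · exact vsq_ne_esq h6.symm
    · intro h6
      have := esq_inj h6
      subst this
      exact h3 he'
  · intro z hz
    obtain ⟨P, hP, hPw⟩ := h.occ z hz.1
    refine ⟨P, ?_, hPw⟩
    unfold bjmp
    rw [if_neg vsq_ne_esq, if_neg, hP]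
    rintro (h6 | h6)
    · exact vsq_ne_esq h6
    · exact hz.2 (vsq_inj h6)
  · intro y P hy
    unfold bjmp at hy
    by_cases h4 : y = esq m (opp e)
    · exact Or.inr ⟨opp e, Or.inl (Set.mem_insert _ _), h4⟩
    · rw [if_neg h4] at hy
      by_cases h5 : y = esq m e ∨ y = vsq m e.lo
      · rw [if_pos h5] at hy
        exact absurd hy (by simp)
      · rw [if_neg h5] at hy
        rw [not_or] at h5
        rcases h.only y P hy with ⟨z, hz, hz'⟩ | ⟨e', he' | he', he''⟩
        · refine Or.inl ⟨z, ⟨hz, ?_⟩, hz'⟩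
          intro h6
          rw [Set.mem_singleton_iff] at h6
          subst h6
          exact h5.2 hz'
        · refine Or.inr ⟨e', Or.inl (Set.mem_insert_of_mem _ ⟨he', ?_⟩), he''⟩
          intro h6
          rw [Set.mem_singleton_iff] at h6
          subst h6
          exact h5.1 he''
        · exact Or.inr ⟨e', Or.inr he', he''⟩

end Pool.Agent.CHK
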