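import Pool.Agent.CHK.Sq

set_option autoImplicit false

/-! Jumps of white pieces in positions which fit the grid. -/

namespace Pool.Agent.CHK

private lemma jw_hi_bnd {m : ℕ} {F : Set Edge} (hF : Bnd m F) {e : Edge} (he : e ∈ F) :
    |e.hi.1| ≤ 10 * ((len m : ℤ) + 1) + 1 ∧ |e.hi.2| ≤ 10 * ((len m : ℤ) + 1) + 1 := by
  obtain ⟨h1, h2⟩ := hF e he
  rw [abs_le] at h1 h2
  unfold Edge.hi
  split_ifs
  · constructor <;> rw [abs_le] <;> constructor <;> simp only <;> linarith [h1.1, h1.2, h2.1, h2.2]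
  · constructor <;> rw [abs_le] <;> constructor <;> simp only <;> linarith [h1.1, h1.2, h2.1, h2.2]

private lemma jw_lo_bnd {m : ℕ} {F : Set Edge} (hF : Bnd m F) {e : Edge} (he : e ∈ F) :
    |e.lo.1| ≤ 10 * ((len m : ℤ) + 1) + 1 ∧ |e.lo.2| ≤ 10 * ((len m : ℤ) + 1) + 1 := by
  obtain ⟨h1, h2⟩ := hF e he
  unfold Edge.lo
  constructor
  · simp only
    linarith
  · simp only
    linarith

private lemma jw_arrive {m : ℕ} {P : Piece} (hw : P.white = true) {w : V}
    (h1 : |w.1| ≤ 10 * ((len m : ℤ) + 1) + 1) (h2 : |w.2| ≤ 10 * ((len m : ℤ) + 1) + 1) :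
    arrive (size m) P (vsq m w) = P := by
  have h := (on_vsq h1 h2).2.2
  unfold arrive far
  rw [hw, if_neg]
  simp only [if_true]
  omega

private lemma jw_update {m : ℕ} {B : Board} {z z' : V} {e : Edge} {P : Piece}
    (hP : B (vsq m z) = some P) :
    Function.update (Function.update (Function.update B (vsq m z) none) (esq m e) none)
      (vsq m z') (some P) = aft m B z {e} z' := by
  funext y
  unfold aft
  by_cases h1 : y = esq m e
  · have h2 : y ≠ vsq m z' := fun h => vsq_ne_esq (h.symm.trans h1)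
    rw [if_pos ⟨e, rfl, h1⟩, Function.update_of_ne h2, h1, Function.update_self]
  · have h3 : ¬ ∃ e' ∈ ({e} : Set Edge), y = esq m e' := by
      rintro ⟨e', he', hy⟩
      rw [Set.mem_singleton_iff] at he'
      rw [he'] at hy
      exact h1 hy
    rw [if_neg h3]
    by_cases h2 : y = vsq m z'
    · rw [if_pos h2, h2, Function.update_self, hP]
    · rw [if_neg h2, Function.update_of_ne h2, Function.update_of_ne h1]
      by_cases h4 : y = vsq m z
      · rw [if_pos h4, h4, Function.update_self]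
      · rw [if_neg h4, Function.update_of_ne h4]

private lemma jw_none {m : ℕ} {B : Board} {F G : Set Edge} {U : Set V} (h : Fits m B F G U)
    {w : V} (hw : w ∉ U) : B (vsq m w) = none := by
  rcases hB : B (vsq m w) with _ | Q
  · rfl
  · exfalso
    rcases h.only _ _ hB with ⟨x, hx, hy⟩ | ⟨e, -, hy⟩
    · exact hw (vsq_inj hy ▸ hx)
    · exact vsq_ne_esq hy

private lemma jw_mem {m : ℕ} {B : Board} {F G : Set Edge} {U : Set V} (h : Fits m B F G U)
    {y : Sq} {Q : Piece} (hQ : B y = some Q) (hw : Q.white ≠ true) :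
    ∃ e ∈ F, y = esq m e := by
  rcases h.only _ _ hQ with ⟨x, hx, hy⟩ | ⟨e, he, hy⟩
  · exfalso
    obtain ⟨P, hP, hPw⟩ := h.occ x hx
    rw [← hy, hQ] at hP
    exact hw (Option.some.inj hP ▸ hPw)
  · rcases he with he | he
    · exact ⟨e, he, hy⟩
    · exfalso
      obtain ⟨P, hP, hPw⟩ := h.fill e he
      rw [← hy, hQ] at hP
      exact hw (Option.some.inj hP ▸ hPw)

theorem jump_white {m : ℕ} {B : Board} {F G : Set Edge} {U : Set V} (h : Fits m B F G U)
    (hF : Bnd m F) {z : V} (hz : z ∈ U) {P : Piece} (hP : B (vsq m z) = some P) (y : Sq)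
    (B' : Board) :
    Jump (size m) B (vsq m z) y B' ↔
      (∃ e ∈ F, e.lo = z ∧ e.hi ∉ U ∧ y = vsq m e.hi ∧ B' = aft m B z {e} e.hi) ∨
      (P.king = true ∧ ∃ e ∈ F, e.hi = z ∧ e.lo ∉ U ∧ y = vsq m e.lo ∧
        B' = aft m B z {e} e.lo) := by
  have hPw : P.white = true := by
    obtain ⟨P', hP', hw⟩ := h.occ z hz
    rw [hP] at hP'
    exact Option.some.inj hP' ▸ hw
  constructor
  · rintro ⟨P', Q, d, hP', ⟨hd1, hd2⟩, hQ, hne, hy, hOn, hy0, hB'⟩
    rw [hP] at hP'
    obtain rfl := Option.some.inj hP'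
    rw [hPw] at hne
    rw [hPw] at hd2
    have hd2' : d.2 = 1 ∨ d.2 = -1 := by
      rcases hd2 with h1 | ⟨-, h1⟩
      · left; rw [h1]; rfl
      · right; rw [h1]; rfl
    obtain ⟨e', he', hye⟩ := jw_mem h hQ hne
    obtain ⟨e, hse, hcase⟩ := vsq_add (m := m) (z := z) hd1 hd2'
    have hee : e = e' := esq_inj (hse.symm.trans hye)
    subst hee
    rcases hcase with ⟨-, hlo, hhi⟩ | ⟨hdm, hhi, hlo⟩
    · left
      rw [hhi] at hy
      obtain ⟨b1, b2⟩ := jw_hi_bnd hF he'
      have hnU : e.hi ∉ U := by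
        intro hU
        obtain ⟨R, hR, -⟩ := h.occ _ hU
        rw [← hy, hy0] at hR
        exact absurd hR (by simp)
      refine ⟨e, he', hlo, hnU, hy, ?_⟩
      rw [hB', hse, hy, jw_arrive hPw b1 b2, jw_update hP]
    · right
      have hk : P.king = true := by
        rcases hd2 with h1 | ⟨h1, -⟩
        · exfalso
          have : fwd true = 1 := rfl
          omega
        · exact h1
      rw [hlo] at hy
      obtain ⟨b1, b2⟩ := jw_lo_bnd hF he'
      have hnU : e.lo ∉ U := by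
        intro hU
        obtain ⟨R, hR, -⟩ := h.occ _ hU
        rw [← hy, hy0] at hR
        exact absurd hR (by simp)
      refine ⟨hk, e, he', hhi, hnU, hy, ?_⟩
      rw [hB', hse, hy, jw_arrive hPw b1 b2, jw_update hP]
  · rintro (⟨e, he, hlo, hnU, hy, hB'⟩ | ⟨hk, e, he, hhi, hnU, hy, hB'⟩)
    · obtain ⟨d, hd1, hd2, hse, hsh⟩ := (add_of_inc (m := m) (z := z) (e := e)).1 hlo
      obtain ⟨b1, b2⟩ := jw_hi_bnd hF he
      refine ⟨P, ⟨false, false⟩, d, hP, ⟨hd1, Or.inl ?_⟩, ?_, ?_, ?_, ?_, ?_, ?_⟩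
      · rw [hd2, hPw]; rfl
      · rw [hse]; exact h.black e he
      · rw [hPw]; simp
      · rw [hy, hsh]
      · rw [hy]; exact (on_vsq b1 b2).1
      · rw [hy]; exact jw_none h hnU
      · rw [hB', hse, hy, jw_arrive hPw b1 b2, jw_update hP]
    · obtain ⟨d, hd1, hd2, hse, hsh⟩ := (add_of_inc (m := m) (z := z) (e := e)).2 hhi
      obtain ⟨b1, b2⟩ := jw_lo_bnd hF he
      refine ⟨P, ⟨false, false⟩, d, hP, ⟨hd1, Or.inr ⟨hk, ?_⟩⟩, ?_, ?_, ?_, ?_, ?_, ?_⟩
      · rw [hd2, hPw]; rfl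
      · rw [hse]; exact h.black e he
      · rw [hPw]; simp
      · rw [hy, hsh]
      · rw [hy]; exact (on_vsq b1 b2).1
      · rw [hy]; exact jw_none h hnU
      · rw [hB', hse, hy, jw_arrive hPw b1 b2, jw_update hP]

/-- White pieces on edge squares have no jump. -/
theorem jump_fill {m : ℕ} {B : Board} {F G : Set Edge} {U : Set V} (h : Fits m B F G U)
    {e : Edge} (he : e ∈ G) (y : Sq) (B' : Board) : ¬ Jump (size m) B (esq m e) y B' := by
  rintro ⟨P, Q, d, hP, ⟨hd1, hd2⟩, hQ, hne, -⟩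
  obtain ⟨P', hP', hw⟩ := h.fill e he
  rw [hP] at hP'
  obtain rfl := Option.some.inj hP'
  rw [hw] at hne hd2
  have hd2' : d.2 = 1 ∨ d.2 = -1 := by
    rcases hd2 with h1 | ⟨-, h1⟩
    · left; rw [h1]; rfl
    · right; rw [h1]; rfl
  obtain ⟨e', -, hye⟩ := jw_mem h hQ hne
  exact esq_add_ne hd1 hd2' hye

theorem aft_vsq {m : ℕ} {B : Board} {z z' : V} {L : Set Edge} :
    aft m B z L z' (vsq m z') = B (vsq m z) := by
  unfold aft
  rw [if_neg, if_pos rfl]
  rintro ⟨e, -, hy⟩
  exact vsq_ne_esq hy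

theorem fits_aft {m : ℕ} {B : Board} {F G : Set Edge} {U : Set V} (h : Fits m B F G U)
    {z z' : V} (hz : z ∈ U) {L : Set Edge} (hL : L ⊆ F) (hz' : z' ∉ U ∨ z' = z) :
    Fits m (aft m B z L z') (F \ L) G (insert z' (U \ {z})) := by
  have _ := hz'
  have hedge : ∀ e, e ∉ L → aft m B z L z' (esq m e) = B (esq m e) := by
    intro e he
    unfold aft
    rw [if_neg, if_neg, if_neg]
    · exact fun h => vsq_ne_esq h.symm
    · exact fun h => vsq_ne_esq h.symm
    · rintro ⟨e', he', hy⟩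
      exact he (esq_inj hy ▸ he')
  have hvert : ∀ w, w ≠ z → w ≠ z' → aft m B z L z' (vsq m w) = B (vsq m w) := by
    intro w h1 h2
    unfold aft
    rw [if_neg, if_neg, if_neg]
    · exact fun h => h1 (vsq_inj h)
    · exact fun h => h2 (vsq_inj h)
    · rintro ⟨e', -, hy⟩
      exact vsq_ne_esq hy
  refine ⟨?_, ?_, ?_, ?_⟩
  · rintro e ⟨he, heL⟩
    rw [hedge e heL]
    exact h.black e he
  · intro e he
    have heL : e ∉ L := by
      intro heL
      obtain ⟨P, hP, hw⟩ := h.fill e he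
      rw [h.black e (hL heL)] at hP
      rw [← Option.some.inj hP] at hw
      exact absurd hw (by simp)
    rw [hedge e heL]
    exact h.fill e he
  · intro w hw
    by_cases h1 : w = z'
    · rw [h1, aft_vsq]
      exact h.occ z hz
    · rcases hw with hw | ⟨hwU, hwz⟩
      · exact absurd hw h1
      · rw [hvert w hwz h1]
        exact h.occ w hwU
  · intro y P hy
    unfold aft at hy
    split_ifs at hy with h1 h2 h3
    · left
      exact ⟨z', Set.mem_insert _ _, h2⟩
    · rcases h.only y P hy with ⟨w, hw, hyw⟩ | ⟨e, he, hye⟩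
      · left
        refine ⟨w, Set.mem_insert_of_mem _ ⟨hw, ?_⟩, hyw⟩
        intro hwz
        rw [Set.mem_singleton_iff] at hwz
        rw [hwz] at hyw
        exact h3 hyw
      · right
        refine ⟨e, ?_, hye⟩
        rcases he with he | he
        · exact Or.inl ⟨he, fun heL => h1 ⟨e, heL, hye⟩⟩
        · exact Or.inr he

theorem aft_aft {m : ℕ} {B : Board} {z z' z'' : V} {L L' : Set Edge}
    (h : z' = z ∨ B (vsq m z') = none) :
    aft m (aft m B z L z') z' L' z'' = aft m B z (L ∪ L') z'' := by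
  funext y
  by_cases h1 : ∃ e ∈ L', y = esq m e
  · obtain ⟨e, he, hy⟩ := h1
    unfold aft
    rw [if_pos ⟨e, he, hy⟩, if_pos ⟨e, Or.inr he, hy⟩]
  · by_cases h2 : ∃ e ∈ L, y = esq m e
    · obtain ⟨e, he, hy⟩ := h2
      have e1 : y ≠ vsq m z'' := fun h => vsq_ne_esq (h.symm.trans hy)
      have e2 : y ≠ vsq m z' := fun h => vsq_ne_esq (h.symm.trans hy)
      unfold aft
      rw [if_neg h1, if_neg e1, if_neg e2, if_pos ⟨e, he, hy⟩, if_pos ⟨e, Or.inl he, hy⟩]
    · have h3 : ¬ ∃ e ∈ L ∪ L', y = esq m e := by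
        rintro ⟨e, he | he, hy⟩
        · exact h2 ⟨e, he, hy⟩
        · exact h1 ⟨e, he, hy⟩
      by_cases h4 : y = vsq m z''
      · rw [h4, aft_vsq, aft_vsq, aft_vsq]
      · unfold aft
        rw [if_neg h1, if_neg h4, if_neg h3, if_neg h4, if_neg h2]
        by_cases h5 : y = vsq m z'
        · rw [if_pos h5]
          by_cases h6 : y = vsq m z
          · rw [if_pos h6]
          · rw [if_neg h6]
            rcases h with h | h
            · exact absurd (h ▸ h5) h6
            · rw [h5, h]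
        · rw [if_neg h5, if_neg h5]

end Pool.Agent.CHK
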