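import Pool.Agent.CHK.Lay

set_option autoImplicit false

/-! Walks in the grid, positions which fit the grid, and the combinatorial form of the game. -/

namespace Pool.Agent.CHK

/-- The level of a vertex. -/
def lev (z : V) : ℤ := z.1 + z.2

/-- Walks along edges of `F` from `z` to `z'`; all vertices after the start lie outside `U`. -/
def Walk (F : Set Edge) (U : Set V) : V → List Edge → V → Prop
  | z, [], z' => z = z'
  | z, e :: L, z' => e ∈ F ∧ ((e.lo = z ∧ e.hi ∉ U ∧ Walk F U e.hi L z') ∨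
      (e.hi = z ∧ e.lo ∉ U ∧ Walk F U e.lo L z'))

/-- Walks upwards. -/
def UpWalk (F : Set Edge) (U : Set V) : V → List Edge → V → Prop
  | z, [], z' => z = z'
  | z, e :: L, z' => e ∈ F ∧ e.lo = z ∧ e.hi ∉ U ∧ UpWalk F U e.hi L z'

/-- The board `B` has black men exactly on the squares of the edges of `F`, white pieces exactly on
the squares of the edges of `G` and on the squares of the vertices of `U`. -/
structure Fits (m : ℕ) (B : Board) (F G : Set Edge) (U : Set V) : Prop where
  black : ∀ e ∈ F, B (esq m e) = some ⟨false, false⟩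
  fill : ∀ e ∈ G, ∃ P, B (esq m e) = some P ∧ P.white = true
  occ : ∀ z ∈ U, ∃ P, B (vsq m z) = some P ∧ P.white = true
  only : ∀ y P, B y = some P → (∃ z ∈ U, y = vsq m z) ∨ ∃ e, (e ∈ F ∨ e ∈ G) ∧ y = esq m e

/-- The edges of `F` are well inside the board. -/
def Bnd (m : ℕ) (F : Set Edge) : Prop :=
  ∀ e ∈ F, |e.1| ≤ 10 * ((len m : ℤ) + 1) ∧ |e.2.1| ≤ 10 * ((len m : ℤ) + 1)

open Classical in
/-- The board after the piece on `z` has gone to `z'` and captured the men on the edges of `L`. -/
noncomputable def aft (m : ℕ) (B : Board) (z : V) (L : Set Edge) (z' : V) : Board := fun y =>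
  if ∃ e ∈ L, y = esq m e then none
  else if y = vsq m z' then B (vsq m z) else if y = vsq m z then none else B y

/-- The edge opposite to `e` at the lower end of `e`. -/
def opp (e : Edge) : Edge := if e.2.2 then (e.1, e.2.1 - 1, true) else (e.1 - 1, e.2.1, false)

/-- The board after the black man on `e` has captured the piece on the lower end of `e`. -/
def bjmp (m : ℕ) (B : Board) (e : Edge) : Board := fun y =>
  if y = esq m (opp e) then some ⟨false, false⟩
  else if y = esq m e ∨ y = vsq m e.lo then none else B y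

/-- The combinatorial form of the game: an upward walk `T` and then a walk which covers the other
edges and avoids the end of `T`. -/
def Lay.Good (l : Lay) : Prop :=
  ∃ T u, UpWalk l.E ∅ (-1, 0) T u ∧ (∀ e ∈ l.E, e.lo ≠ u) ∧
    ∃ L z', Walk {e | (e ∈ l.E ∧ e ∉ T) ∨ e = (1, -3, true)} {u, (1, -1)} (1, -3) L z' ∧
      L.Nodup ∧ (1, -3, true) ∈ L ∧ ∀ e ∈ l.E, e ∉ T → e ∈ L

/-- The sides and the combs on one side of the diagonal. -/
def Half (m : ℕ) (r : ℕ → ℕ → Bool) : Set Edge :=
  {e | (∃ i < m, e ∈ Side m i) ∨ ∃ c, e ∈ Comb m (r c)}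

/-- The vertex number `k` of the left side of the variable `i`. -/
def sv (m i k : ℕ) : V :=
  if k ≤ 4 then (bs m i, bs m i + (k : ℤ))
  else if k ≤ 4 * m + 4 then
    (bs m i + 2 * (((k - 4) / 4 : ℕ) : ℤ) + ((min ((k - 4) % 4) 2 : ℕ) : ℤ),
      bs m i + 4 + 2 * (((k - 4) / 4 : ℕ) : ℤ) + (((k - 4) % 4 - 2 : ℕ) : ℤ))
  else (bs m i + 2 * (m : ℤ) + ((k - 4 - 4 * m : ℕ) : ℤ), bs m i + 2 * (m : ℤ) + 4)

/-- The edge number `k` of the left side of the variable `i`. -/
def se (m i k : ℕ) : Edge :=
  ((sv m i k).1, (sv m i k).2, decide (k < 4 ∨ (k < 4 * m + 4 ∧ 2 ≤ (k - 4) % 4)))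

/-- The corner of the slot `s`. -/
def corner (m s : ℕ) : V := (ca m s, cb m s)

/-- `z` is an end of `e`. -/
def Inc (z : V) (e : Edge) : Prop := e.lo = z ∨ e.hi = z

end Pool.Agent.CHK
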