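import Pool.Agent.CHK.Defs

set_option autoImplicit false

/-! Planar monotone satisfiability (linear layouts) and the checkers position of a layout. -/

namespace Pool.Agent.CHK

/-- The legs of the clauses are disjoint and do not cross. -/
def Planar (r : ℕ → ℕ → Bool) : Prop :=
  (∀ c c' s, r c s = true → r c' s = true → c = c') ∧
    ∀ c c' s₁ s₂ s₃ s₄, c ≠ c' → s₁ < s₂ → s₂ < s₃ → s₃ < s₄ → r c s₁ = true → r c' s₂ = true →
      r c s₃ = true → r c' s₄ = false

/-- A linear layout of a planar monotone formula: `m` variables on a line, `m` slots for each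
variable (slot `s` belongs to the variable `s / m`), `pos c s` tells whether the positive clause
`c` has a leg to the slot `s`, `neg c s` the same for the negative clauses on the other side of
the line. -/
structure Lay where
  m : ℕ
  pos : ℕ → ℕ → Bool
  neg : ℕ → ℕ → Bool
  pos_lt : ∀ c s, pos c s = true → c < m ∧ s < m * m
  neg_lt : ∀ c s, neg c s = true → c < m ∧ s < m * m
  pos_planar : Planar pos
  neg_planar : Planar neg

/-- Satisfiability: every positive clause contains a true variable and every negative clause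
contains a false variable (rows without legs are not clauses). -/
def Lay.Sat (l : Lay) : Prop :=
  ∃ v : ℕ → Bool, (∀ c s, l.pos c s = true → ∃ t, l.pos c t = true ∧ v (t / l.m) = true) ∧
    ∀ c s, l.neg c s = true → ∃ t, l.neg c t = true ∧ v (t / l.m) = false

/-- The code of a layout: `1^m 0` and the two incidence matrices. -/
def encLay (l : Lay) : List Bool :=
  List.replicate l.m true ++ false ::
    ((List.range l.m).flatMap fun c => (List.range (l.m * l.m)).map (l.pos c)) ++
    ((List.range l.m).flatMap fun c => (List.range (l.m * l.m)).map (l.neg c))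

/-! ### The drawing -/

/-- Vertices of the grid. -/
abbrev V := ℤ × ℤ

/-- Edges of the grid: `(p, q, false)` joins `(p, q)` and `(p + 1, q)`, `(p, q, true)` joins
`(p, q)` and `(p, q + 1)`. -/
abbrev Edge := ℤ × ℤ × Bool

/-- The lower end. -/
def Edge.lo (e : Edge) : V := (e.1, e.2.1)

/-- The upper end. -/
def Edge.hi (e : Edge) : V := if e.2.2 then (e.1, e.2.1 + 1) else (e.1 + 1, e.2.1)

/-- The reflection which exchanges the two coordinates. -/
def mirror (e : Edge) : Edge := (e.2.1, e.1, !e.2.2)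

/-- First coordinate of the corner of the slot `s`. -/
def ca (m s : ℕ) : ℤ := 2 * (s : ℤ) + 4 * ((s / m : ℕ) : ℤ)

/-- Second coordinate of the corner of the slot `s`. -/
def cb (m s : ℕ) : ℤ := ca m s + 4

/-- The base point of the variable `i`: the vertex `(bs m i, bs m i)`. -/
def bs (m i : ℕ) : ℤ := (2 * (m : ℤ) + 4) * i

/-- The left side of the variable `i`: a staircase from its base point to the next one. -/
def Side (m i : ℕ) : Set Edge := {e | ∃ x : ℤ,
  (e = (bs m i, x, true) ∧ bs m i ≤ x ∧ x < bs m i + 4) ∨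
  (∃ j < m, e = (x, bs m i + 4 + 2 * (j : ℤ), false) ∧ bs m i + 2 * (j : ℤ) ≤ x ∧
    x < bs m i + 2 * (j : ℤ) + 2) ∨
  (∃ j < m, e = (bs m i + 2 * (j : ℤ) + 2, x, true) ∧ bs m i + 4 + 2 * (j : ℤ) ≤ x ∧
    x < bs m i + 6 + 2 * (j : ℤ)) ∨
  (e = (x, bs m (i + 1), false) ∧ bs m i + 2 * (m : ℤ) ≤ x ∧ x < bs m (i + 1))}

/-- First leg of a row. -/
def IsFirst (r : ℕ → Bool) (s : ℕ) : Prop := r s = true ∧ ∀ t, r t = true → s ≤ t

/-- Last leg of a row. -/
def IsLast (r : ℕ → Bool) (s : ℕ) : Prop := r s = true ∧ ∀ t, r t = true → t ≤ s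

/-- Consecutive legs of a row. -/
def IsNext (r : ℕ → Bool) (s t : ℕ) : Prop :=
  r s = true ∧ r t = true ∧ s < t ∧ ∀ u, r u = true → u ≤ s ∨ t ≤ u

/-- The column of the trunk of a row with first leg `s₁` and last leg `s₂`. -/
def trunk (m s₁ s₂ : ℕ) : ℤ := ca m s₁ - 2 * ((s₂ : ℤ) - s₁) - 2

/-- The comb of a row: the closed curve which touches the left sides of the variables exactly at
the corners of the legs. -/
def Comb (m : ℕ) (r : ℕ → Bool) : Set Edge := {e | ∃ s₁ s₂ : ℕ, IsFirst r s₁ ∧ IsLast r s₂ ∧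
  ∃ x : ℤ,
    (∃ s, r s = true ∧ e = (x, cb m s, false) ∧ trunk m s₁ s₂ ≤ x ∧ x < ca m s ∧
      (s ≠ s₁ → trunk m s₁ s₂ < x)) ∨
    (∃ s, r s = true ∧ e = (x, cb m s + 1, false) ∧ trunk m s₁ s₂ ≤ x ∧ x < ca m s ∧
      (s ≠ s₂ → trunk m s₁ s₂ < x)) ∨
    (∃ s, r s = true ∧ e = (ca m s, cb m s, true)) ∨
    (e = (trunk m s₁ s₂, x, true) ∧ cb m s₁ ≤ x ∧ x ≤ cb m s₂) ∨
    (∃ s t, IsNext r s t ∧ e = (trunk m s₁ s₂ + 1, x, true) ∧ cb m s + 1 ≤ x ∧ x < cb m t)}

/-- The edges of the drawing apart from the sides of the variables and the combs. -/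
def Extra (m : ℕ) : Set Edge :=
  {(-1, 0, false), (0, -1, true), (0, -2, true), (0, -2, false), (bs m m, bs m m, false),
    (bs m m, bs m m, true)}

/-- All edges. -/
def Lay.E (l : Lay) : Set Edge := {e |
  (∃ i < l.m, e ∈ Side l.m i ∨ mirror e ∈ Side l.m i) ∨
  (∃ c, e ∈ Comb l.m (l.pos c) ∨ mirror e ∈ Comb l.m (l.neg c)) ∨ e ∈ Extra l.m}

/-! ### The position -/

/-- The length of the code of a layout. -/
def len (m : ℕ) : ℕ := m + 1 + 2 * (m * (m * m))

/-- Size of the board. -/
def size (m : ℕ) : ℕ := 100 * (len m + 1)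

/-- The square of a vertex. -/
def vsq (m : ℕ) (z : V) : Sq :=
  (50 * ((len m : ℤ) + 1) + 2 * (z.1 - z.2), 50 * ((len m : ℤ) + 1) + 2 * (z.1 + z.2))

/-- The square of an edge. -/
def esq (m : ℕ) (e : Edge) : Sq :=
  ((vsq m e.lo).1 + (if e.2.2 then -1 else 1), (vsq m e.lo).2 + 1)

open Classical in
/-- The placement of the pieces: black men on the squares of the edges and on the square of the
edge `(1, -2, true)`, a white king at `(1, -3)`, white men at `(-1, 0)`, `(1, -2)`, `(1, -1)` and
one behind the king. -/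
noncomputable def Lay.place (l : Lay) : Board := fun y =>
  if ∃ e, (e ∈ l.E ∨ e = (1, -2, true)) ∧ y = esq l.m e then some ⟨false, false⟩
  else if y = vsq l.m (1, -3) then some ⟨true, true⟩
  else if y = vsq l.m (-1, 0) ∨ y = vsq l.m (1, -2) ∨ y = vsq l.m (1, -1) ∨
    y = ((vsq l.m (1, -3)).1 + 1, (vsq l.m (1, -3)).2 - 1) then some ⟨true, false⟩
  else none

end Pool.Agent.CHK
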