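import Pool.Agent.CHK.Shape

set_option autoImplicit false

/-! A good play gives a satisfying assignment. -/

namespace Pool.Agent.CHK

theorem nec_comb (l : Lay) {c : ℕ} {e : Edge} (h : e ∈ Comb l.m (l.pos c)) : e ∈ l.E :=
  Or.inr (Or.inl ⟨c, Or.inl h⟩)

theorem nec_comb' (l : Lay) {c : ℕ} {e : Edge} (h : mirror e ∈ Comb l.m (l.neg c)) : e ∈ l.E :=
  Or.inr (Or.inl ⟨c, Or.inr h⟩)

theorem nec_pos (l : Lay) {c : ℕ} {e : Edge} (h : e ∈ Comb l.m (l.pos c)) {z : V}
    (hz : Inc z e) : z.1 < z.2 ∧ 4 ≤ z.2 := by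
  have := comb_pos (fun s hs => (l.pos_lt c s hs).2) h hz
  exact ⟨this.1, this.2.1⟩

theorem nec_neg (l : Lay) {c : ℕ} {e : Edge} (h : mirror e ∈ Comb l.m (l.neg c)) {z : V}
    (hz : Inc z e) : z.2 < z.1 ∧ 4 ≤ z.1 := by
  have := comb_pos (fun s hs => (l.neg_lt c s hs).2) h (ea_inc_mirror hz)
  exact ⟨this.1, this.2.1⟩

theorem nec_inc (e : Edge) : Inc e.lo e := Or.inl rfl

theorem nec_inc' (e : Edge) : Inc e.hi e := Or.inr rfl

theorem sat_of_good (l : Lay) (h : l.Good) : l.Sat := by
  classical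
  obtain ⟨T, u, hT, hu, L, z', hW, hN, hL, hc⟩ := h
  have key : ∀ e e' : Edge, e ∈ l.E → e' ∈ l.E → e ≠ e' → e.hi = u → e'.hi = u →
      lev e.lo = lev e'.lo → u ≠ (1, -3) → False := by
    intro e e' he he' hne h1 h2 h3 h4
    have hx : ∃ e'' ∈ l.E, e'' ∉ T ∧ e''.hi = u := by
      by_cases h : e ∈ T
      · refine ⟨e', he', fun h' => hne (hT.unique h h' h3), h2⟩
      · exact ⟨e, he, h, h1⟩
    obtain ⟨e'', he'', hT'', hhi⟩ := hx
    rcases hW.avoid (hc e'' he'' hT'') (w := u) (Or.inr hhi) with h | h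
    · exact h4 h
    · exact h (by simp)
  rcases shape l hT hu with ⟨c, s, hs, hu'⟩ | ⟨c, s, hs, hu'⟩ | ⟨hsides, hcombs⟩
  · exfalso
    obtain ⟨a1, a2⟩ := comb_leg (fun s hs => (l.pos_lt c s hs).2) hs
    refine key _ _ (nec_comb l a1) (nec_comb l a2) (by simp) ?_ ?_ ?_ ?_
    · rw [hu']; rfl
    · rw [hu']; simp [Edge.hi]
    · simp [lev, Edge.lo]
    · rw [hu']
      have := ca_nonneg l.m s
      intro h
      have h2 := congrArg Prod.snd h
      simp only [cb] at h2
      omega
  · exfalso
    obtain ⟨a1, a2⟩ := comb_leg (fun s hs => (l.neg_lt c s hs).2) hs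
    have b1 : mirror (cb l.m s, ca l.m s, false) ∈ Comb l.m (l.neg c) := a1
    have b2 : mirror (cb l.m s + 1, ca l.m s - 1, true) ∈ Comb l.m (l.neg c) := a2
    refine key _ _ (nec_comb' l b1) (nec_comb' l b2) (by simp) ?_ ?_ ?_ ?_
    · rw [hu']; rfl
    · rw [hu']; simp [Edge.hi]
    · simp [lev, Edge.lo]
    · rw [hu']
      have := ca_nonneg l.m s
      intro h
      have h2 := congrArg Prod.snd h
      simp only at h2
      omega
  · refine ⟨fun i => decide (∃ e ∈ Side l.m i, e ∉ T), ?_, ?_⟩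
    · intro c s hs
      by_contra hcon
      have hall : ∀ t, l.pos c t = true → ∀ e ∈ Side l.m (t / l.m), e ∈ T := by
        intro t ht e he
        by_contra hne
        exact hcon ⟨t, ht, decide_eq_true ⟨e, he, hne⟩⟩
      obtain ⟨a1, -⟩ := comb_leg (fun s hs => (l.pos_lt c s hs).2) hs
      have hnT : (ca l.m s, cb l.m s, true) ∉ T := fun h => (hcombs _ h c).1 a1
      have hin := hc _ (nec_comb l a1) hnT
      refine hW.closed (S := {z | ∃ e ∈ Comb l.m (l.pos c), Inc z e}) ?_ ?_ hin
        ⟨_, a1, nec_inc _⟩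
      · have hcl : ∀ e, ((e ∈ l.E ∧ e ∉ T) ∨ e = (1, -3, true)) → ∀ z, Inc z e →
            (∃ e' ∈ Comb l.m (l.pos c), Inc z e') → e ∈ Comb l.m (l.pos c) := by
          intro e he z hz ⟨e', he', hz'⟩
          rcases he with ⟨he, heT⟩ | rfl
          · rcases E_comb_pos l he he' hz hz' with h | ⟨t, ht, h⟩
            · exact h
            · exact (heT (hall t ht e h)).elim
          · exfalso
            have h4 := (nec_pos l he' hz').2
            rcases hz with hz | hz
            · rw [← hz] at h4; simp [Edge.lo] at h4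
            · rw [← hz] at h4; simp [Edge.hi] at h4
        intro e he
        constructor
        · intro h
          exact ⟨e, hcl e he _ (nec_inc e) h, nec_inc' e⟩
        · intro h
          exact ⟨e, hcl e he _ (nec_inc' e) h, nec_inc e⟩
      · rintro ⟨e', he', hz'⟩
        have := (nec_pos l he' hz').2
        simp at this
    · intro c s hs
      by_contra hcon
      have hall : ∀ t, l.neg c t = true → ∀ e, mirror e ∈ Side l.m (t / l.m) → e ∈ T := by
        intro t ht
        have hlt : t / l.m < l.m := Nat.div_lt_of_lt_mul (l.neg_lt c t ht).2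
        rcases hsides _ hlt with h | h
        · exfalso
          exact hcon ⟨t, ht, decide_eq_false fun ⟨e, h1, h2⟩ => h2 (h e h1)⟩
        · exact h
      obtain ⟨a1, -⟩ := comb_leg (fun s hs => (l.neg_lt c s hs).2) hs
      have b1 : mirror (cb l.m s, ca l.m s, false) ∈ Comb l.m (l.neg c) := a1
      have hnT : (cb l.m s, ca l.m s, false) ∉ T := fun h => (hcombs _ h c).2 b1
      have hin := hc _ (nec_comb' l b1) hnT
      refine hW.closed (S := {z | ∃ e, mirror e ∈ Comb l.m (l.neg c) ∧ Inc z e}) ?_ ?_ hin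
        ⟨_, b1, nec_inc _⟩
      · have hcl : ∀ e, ((e ∈ l.E ∧ e ∉ T) ∨ e = (1, -3, true)) → ∀ z, Inc z e →
            (∃ e', mirror e' ∈ Comb l.m (l.neg c) ∧ Inc z e') →
              mirror e ∈ Comb l.m (l.neg c) := by
          intro e he z hz ⟨e', he', hz'⟩
          rcases he with ⟨he, heT⟩ | rfl
          · rcases E_comb_neg l he he' hz hz' with h | ⟨t, ht, h⟩
            · exact h
            · exact (heT (hall t ht e h)).elim
          · exfalso
            have h4 := (nec_neg l he' hz').2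
            rcases hz with hz | hz
            · rw [← hz] at h4; simp [Edge.lo] at h4
            · rw [← hz] at h4; simp [Edge.hi] at h4
        intro e he
        constructor
        · intro h
          exact ⟨e, hcl e he _ (nec_inc e) h, nec_inc' e⟩
        · intro h
          exact ⟨e, hcl e he _ (nec_inc' e) h, nec_inc e⟩
      · rintro ⟨e', he', hz'⟩
        have := (nec_neg l he' hz').2
        simp at this

end Pool.Agent.CHK
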