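import Pool.Agent.CHK.Place
import Pool.Agent.CHK.JumpB
import Pool.Agent.CHK.JumpW
import Pool.Agent.CHK.Walk
import Pool.Agent.CHK.EdgeF

set_option autoImplicit false

/-! The position after the first move and the forced reply of Black. -/

namespace Pool.Agent.CHK

/-- Black men after the first move. -/
def F1 (l : Lay) (T : List Edge) : Set Edge := {e | e ∈ l.E ∨ e = (1, -2, true)} \ {e | e ∈ T}

/-- White pieces on vertex squares after the first move. -/
def U1 (u : V) : Set V := {u, (1, -2), (1, -1), (1, -3)}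

/-- Black men after the reply. -/
def F2 (l : Lay) (T : List Edge) : Set Edge := {e | (e ∈ l.E ∧ e ∉ T) ∨ e = (1, -3, true)}

/-- White pieces on vertex squares after the reply. -/
def U2 (u : V) : Set V := {u, (1, -1), (1, -3)}

theorem end_facts {l : Lay} {T : List Edge} {u : V} (hT : UpWalk l.E ∅ (-1, 0) T u)
    (hu : ∀ e ∈ l.E, e.lo ≠ u) :
    T ≠ [] ∧ u ≠ (-1, 0) ∧ u ≠ (1, -2) ∧ u ≠ (1, -1) ∧ u ≠ (1, -3) ∧ 0 ≤ lev u := by
  have h1 : u ≠ (-1, 0) := by
    have := hu (-1, 0, false) (E_extra l (by simp [Extra]))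
    intro h
    exact this (by rw [h]; rfl)
  have h2 : T ≠ [] := by
    rintro rfl
    exact h1 hT.symm
  have h3 : 0 ≤ lev u := by
    have := hT.lev_eq
    have h4 : 0 < T.length := List.length_pos_iff.2 h2
    simp only [lev] at *
    omega
  refine ⟨h2, h1, ?_, ?_, ?_, h3⟩
  · rintro rfl
    simp [lev] at h3
  · rintro rfl
    -- the last edge of the walk ends in (1,-1)
    have h4 : ∃ T' e, T = T' ++ [e] := by
      refine ⟨T.dropLast, T.getLast h2, (List.dropLast_append_getLast h2).symm⟩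
    obtain ⟨T', e, rfl⟩ := h4
    obtain ⟨w, _, hw⟩ := upwalk_append.1 hT
    obtain ⟨he, _, _, h5⟩ := hw
    exact (E_low l he).2.2.2.2.1 h5
  · rintro rfl
    simp [lev] at h3

theorem not_mem_T {l : Lay} {T : List Edge} {u : V} (hT : UpWalk l.E ∅ (-1, 0) T u) {e : Edge}
    (he : e.lo = (1, -2)) : e ∉ T := fun h => (E_low l (hT.mem h)).2.1 he

theorem fits_one {l : Lay} {T : List Edge} {u : V} (hT : UpWalk l.E ∅ (-1, 0) T u)
    (hu : ∀ e ∈ l.E, e.lo ≠ u) :
    Fits l.m (aft l.m l.place (-1, 0) {e | e ∈ T} u) (F1 l T) {(1, -4, true)} (U1 u) := by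
  obtain ⟨_, h1, h2, h3, h4, _⟩ := end_facts hT hu
  have h := fits_aft (place_fits l).1 (z := (-1, 0)) (z' := u) (by simp) (L := {e | e ∈ T})
    (fun e he => Or.inl (hT.mem he)) (Or.inl (by simp [h1, h2, h3, h4]))
  have h5 : (insert u (({(-1, 0), (1, -2), (1, -1), (1, -3)} : Set V) \ {(-1, 0)})) = U1 u := by
    ext z
    simp only [U1, Set.mem_insert_iff, Set.mem_sdiff, Set.mem_singleton_iff]
    constructor
    · rintro (h | ⟨h | h | h | h, h'⟩)
      · exact Or.inl h
      · exact absurd h h'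
      · exact Or.inr (Or.inl h)
      · exact Or.inr (Or.inr (Or.inl h))
      · exact Or.inr (Or.inr (Or.inr h))
    · rintro (h | h | h | h)
      · exact Or.inl h
      · refine Or.inr ⟨Or.inr (Or.inl h), ?_⟩
        rw [h]; decide
      · refine Or.inr ⟨Or.inr (Or.inr (Or.inl h)), ?_⟩
        rw [h]; decide
      · refine Or.inr ⟨Or.inr (Or.inr (Or.inr h)), ?_⟩
        rw [h]; decide
  rw [h5] at h
  exact h

theorem bnd_one (l : Lay) (T : List Edge) : Bnd l.m (F1 l T) := fun e he =>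
  E_bnd l e (by
    rcases he.1 with h | h
    · exact Or.inl h
    · exact Or.inr (Or.inl h))

theorem bnd_two (l : Lay) (T : List Edge) : Bnd l.m (F2 l T) := fun e he =>
  E_bnd l e (by
    rcases he with h | h
    · exact Or.inl h.1
    · exact Or.inr (Or.inr h))

theorem mem_F1 {l : Lay} {T : List Edge} {u : V} (hT : UpWalk l.E ∅ (-1, 0) T u) :
    ((1, -2, true) : Edge) ∈ F1 l T := ⟨Or.inr rfl, not_mem_T hT rfl⟩

theorem opp_b : opp (1, -2, true) = (1, -3, true) := rfl

theorem not_F1 (l : Lay) (T : List Edge) : ((1, -3, true) : Edge) ∉ F1 l T := by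
  rintro ⟨h | h, _⟩
  · exact (E_low l h).1 rfl
  · exact absurd h (by decide)

theorem black_edge {l : Lay} {T : List Edge} {u : V} (hu : ∀ e ∈ l.E, e.lo ≠ u) {e : Edge}
    (he : e ∈ F1 l T) (h : e.lo ∈ U1 u) : e = (1, -2, true) := by
  rcases he.1 with h1 | h1
  · exfalso
    rcases h with h | h | h | h
    · exact hu e h1 h
    · exact (E_low l h1).2.1 h
    · exact (E_low l h1).2.2.1 h
    · exact (E_low l h1).1 h
  · exact h1

theorem fits_two {l : Lay} {T : List Edge} {u : V} (hT : UpWalk l.E ∅ (-1, 0) T u)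
    (hu : ∀ e ∈ l.E, e.lo ≠ u) :
    Fits l.m (bjmp l.m (aft l.m l.place (-1, 0) {e | e ∈ T} u) (1, -2, true)) (F2 l T)
      {(1, -4, true)} (U2 u) := by
  obtain ⟨_, h1, h2, h3, h4, _⟩ := end_facts hT hu
  have h := fits_bjmp (fits_one hT hu) (e := (1, -2, true)) (mem_F1 hT)
    (by rw [opp_b]; exact not_F1 l T) (by rw [opp_b]; decide)
  have h5 : insert (opp (1, -2, true)) (F1 l T \ {(1, -2, true)}) = F2 l T := by
    ext e
    simp only [F1, F2, Set.mem_insert_iff, Set.mem_sdiff, Set.mem_singleton_iff, Set.mem_ofPred_eq,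
      opp_b]
    constructor
    · rintro (h | ⟨⟨h | h, h'⟩, h''⟩)
      · exact Or.inr h
      · exact Or.inl ⟨h, h'⟩
      · exact absurd h h''
    · rintro (⟨h, h'⟩ | h)
      · refine Or.inr ⟨⟨Or.inl h, h'⟩, ?_⟩
        rintro rfl
        exact (E_low l h).2.1 rfl
      · exact Or.inl h
  have h6 : U1 u \ {Edge.lo (1, -2, true)} = U2 u := by
    ext z
    have h7 : Edge.lo (1, -2, true) = (1, -2) := rfl
    simp only [U1, U2, h7, Set.mem_insert_iff, Set.mem_sdiff, Set.mem_singleton_iff]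
    constructor
    · rintro ⟨h | h | h | h, h'⟩
      · exact Or.inl h
      · exact absurd h h'
      · exact Or.inr (Or.inl h)
      · exact Or.inr (Or.inr h)
    · rintro (h | h | h)
      · exact ⟨Or.inl h, by rw [h]; exact h2⟩
      · refine ⟨Or.inr (Or.inr (Or.inl h)), ?_⟩
        rw [h]; decide
      · refine ⟨Or.inr (Or.inr (Or.inr h)), ?_⟩
        rw [h]; decide
  rw [h5, h6] at h
  exact h

/-- After the first move the only reply of Black is the capture of the man on `(1, -2)`. -/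
theorem reply (l : Lay) (stop : Bool) {T : List Edge} {u : V} (hT : UpWalk l.E ∅ (-1, 0) T u)
    (hu : ∀ e ∈ l.E, e.lo ≠ u) (B : Board) :
    Move (size l.m) stop false (aft l.m l.place (-1, 0) {e | e ∈ T} u) B ↔
      B = bjmp l.m (aft l.m l.place (-1, 0) {e | e ∈ T} u) (1, -2, true) := by
  have hf := fits_one hT hu
  have hb := bnd_one l T
  have hf2 := fits_two hT hu
  have hb2 := bnd_two l T
  set B₁ := aft l.m l.place (-1, 0) {e | e ∈ T} u with hB₁
  have hjump : Jump (size l.m) B₁ (esq l.m (1, -2, true)) (esq l.m (1, -3, true))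
      (bjmp l.m B₁ (1, -2, true)) := by
    rw [jump_black hf hb (mem_F1 hT)]
    refine ⟨?_, ?_, ?_, rfl, rfl⟩
    · exact Or.inr (Or.inl rfl)
    · rw [opp_b]; exact not_F1 l T
    · rw [opp_b]; decide
  have hno : ∀ y B', ¬ Jump (size l.m) (bjmp l.m B₁ (1, -2, true)) (esq l.m (1, -3, true)) y B' := by
    intro y B' h
    have h3 : ((1, -3, true) : Edge) ∈ F2 l T := Or.inr rfl
    rw [jump_black hf2 hb2 h3] at h
    obtain ⟨_, _, h4, _⟩ := h
    exact h4 (by simp [opp])
  have hblack : ∀ z P, B₁ z = some P → P.white = false → ∃ e ∈ F1 l T, z = esq l.m e := by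
    intro z P hP hw
    rcases hf.only z P hP with ⟨w, hw', rfl⟩ | ⟨e, he | he, rfl⟩
    · obtain ⟨P', hP', hw''⟩ := hf.occ w hw'
      rw [hP] at hP'
      cases hP'
      rw [hw] at hw''
      cases hw''
    · exact ⟨e, he, rfl⟩
    · obtain ⟨P', hP', hw''⟩ := hf.fill e he
      rw [hP] at hP'
      cases hP'
      rw [hw] at hw''
      cases hw''
  have honly : ∀ e ∈ F1 l T, ∀ y B', Jump (size l.m) B₁ (esq l.m e) y B' →
      e = (1, -2, true) ∧ y = esq l.m (1, -3, true) ∧ B' = bjmp l.m B₁ (1, -2, true) := by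
    intro e he y B' h
    rw [jump_black hf hb he] at h
    obtain ⟨h1, _, _, h4, h5⟩ := h
    have h6 := black_edge hu he h1
    subst h6
    exact ⟨rfl, h4, h5⟩
  constructor
  · rintro (⟨z, P, hz, hw, hC⟩ | ⟨h, _⟩)
    · obtain ⟨e, he, rfl⟩ := hblack z P hz hw
      cases hC with
      | last h h' => exact (honly e he _ _ h).2.2
      | next h h' h'' =>
        exfalso
        obtain ⟨_, h5, h6⟩ := honly e he _ _ h
        subst h5 h6
        cases h'' with
        | last h7 _ => exact hno _ _ h7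
        | next h7 _ _ => exact hno _ _ h7
    · exact absurd hjump (h _ _ _ _ (hf.black _ (mem_F1 hT)) rfl)
  · rintro rfl
    exact Or.inl ⟨_, _, hf.black _ (mem_F1 hT), rfl, Capture.last hjump (Or.inr hno)⟩

end Pool.Agent.CHK
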