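import Pool.Agent.CHK.Nec
import Pool.Agent.CHK.CombW

set_option autoImplicit false

/-! A satisfying assignment gives a good play. -/

namespace Pool.Agent.CHK

theorem suf_mirror {F : Set Edge} {z z' : V} {L : List Edge} (h : Walk F ∅ z L z') :
    Walk {e | mirror e ∈ F} ∅ z.swap (L.map mirror) z'.swap := by
  induction L generalizing z with
  | nil =>
    simp only [Walk] at h
    simp only [List.map_nil, Walk, h]
  | cons e L ih =>
    simp only [Walk] at h
    simp only [List.map_cons, Walk, Set.mem_ofPred_eq, ea_mirror_mirror, sh_lo, sh_hi]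
    refine ⟨h.1, ?_⟩
    rcases h.2 with ⟨h1, h2, h3⟩ | ⟨h1, h2, h3⟩
    · exact Or.inl ⟨by rw [h1], by simp, ih h3⟩
    · exact Or.inr ⟨by rw [h1], by simp, ih h3⟩

/-- Inserting a family of closed walks. -/
theorem splice_all {F : Set Edge} {U : Set V} {z z' : V} {L₀ : List Edge}
    (h0 : Walk F U z L₀ z') (hN : L₀.Nodup) (D : ℕ → Set Edge) (k : ℕ)
    (hD : ∀ c < k, (∀ e, e ∉ D c) ∨ ∃ e ∈ L₀, ∃ w, Inc w e ∧
      ∃ C, Walk F U w C w ∧ C.Nodup ∧ ∀ e, e ∈ C ↔ e ∈ D c)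
    (hd0 : ∀ c, ∀ e ∈ D c, e ∉ L₀) (hd : ∀ c c', ∀ e, e ∈ D c → e ∈ D c' → c = c') :
    ∃ L, Walk F U z L z' ∧ L.Nodup ∧ ∀ e, e ∈ L ↔ e ∈ L₀ ∨ ∃ c < k, e ∈ D c := by
  induction k with
  | zero => exact ⟨L₀, h0, hN, by simp⟩
  | succ k ih =>
    obtain ⟨L, h1, h2, h3⟩ := ih fun c hc => hD c (by omega)
    rcases hD k (by omega) with h | ⟨e, he, w, hw, C, hC1, hC2, hC3⟩
    · refine ⟨L, h1, h2, fun e => ?_⟩
      rw [h3]
      constructor
      · rintro (h' | ⟨c, hc, h'⟩)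
        · exact Or.inl h'
        · exact Or.inr ⟨c, by omega, h'⟩
      · rintro (h' | ⟨c, hc, h'⟩)
        · exact Or.inl h'
        · rcases Nat.lt_succ_iff_lt_or_eq.1 hc with hc | rfl
          · exact Or.inr ⟨c, hc, h'⟩
          · exact (h e h').elim
    · have heL : e ∈ L := (h3 e).2 (Or.inl he)
      obtain ⟨L', g1, g2, g3⟩ := h1.splice h2 heL hw hC1 hC2 (by
        intro e' he' hL
        rcases (h3 e').1 hL with h | ⟨c, hc, h⟩
        · exact hd0 k e' ((hC3 e').1 he') h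
        · have := hd c k e' h ((hC3 e').1 he')
          omega)
      refine ⟨L', g1, g2, fun e' => ?_⟩
      rw [g3, h3, hC3]
      constructor
      · rintro ((h' | ⟨c, hc, h'⟩) | h')
        · exact Or.inl h'
        · exact Or.inr ⟨c, by omega, h'⟩
        · exact Or.inr ⟨k, by omega, h'⟩
      · rintro (h' | ⟨c, hc, h'⟩)
        · exact Or.inl (Or.inl h')
        · rcases Nat.lt_succ_iff_lt_or_eq.1 hc with hc | rfl
          · exact Or.inl (Or.inr ⟨c, hc, h'⟩)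
          · exact Or.inr h'

theorem good_of_sat (l : Lay) (h : l.Sat) : l.Good := by
  obtain ⟨v, hpos, hneg⟩ := h
  have hpl : ∀ c s, l.pos c s = true → s < l.m * l.m := fun c s h => (l.pos_lt c s h).2
  have hnl : ∀ c s, l.neg c s = true → s < l.m * l.m := fun c s h => (l.neg_lt c s h).2
  set X := bs l.m l.m with hX
  have hX0 : 0 ≤ X := bs_nonneg l.m l.m
  obtain ⟨L₁, a1, a2⟩ := sides_walk l.m v l.m
  obtain ⟨L₂, b1, b2⟩ := sides_walk l.m (fun i => !v i) l.m
  -- the first move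
  have hT : UpWalk l.E ∅ (-1, 0) ((-1, 0, false) :: (L₂ ++ [(X, X, false)])) (X + 1, X) := by
    simp only [UpWalk]
    refine ⟨E_extra l (by simp [Extra]), rfl, by simp, upwalk_append.2 ⟨(X, X), ?_, ?_⟩⟩
    · have h0 : Edge.hi (-1, 0, false) = (0, 0) := by simp [Edge.hi]
      rw [h0]
      refine b1.conv (fun e he => ?_) (fun _ _ h => h)
      obtain ⟨i, hi, h | h⟩ := (b2 e).1 he
      · exact Or.inl ⟨i, hi, Or.inl h.2⟩
      · exact Or.inl ⟨i, hi, Or.inr h.2⟩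
    · simp only [UpWalk]
      exact ⟨E_extra l (by simp [Extra, hX]), rfl, by simp, rfl⟩
  set T := (-1, 0, false) :: (L₂ ++ [(X, X, false)]) with hTd
  have hmT : ∀ e : Edge, e ∈ T ↔ e = (-1, 0, false) ∨ e ∈ L₂ ∨ e = (X, X, false) := by
    intro e; simp [hTd]
  -- parts of the drawing
  have hHT : ∀ e, e ∈ Half l.m l.pos → e ∈ T → ∃ i < l.m, v i = false ∧ e ∈ Side l.m i := by
    intro e he heT
    have hnE : e ∉ Extra l.m := fun h => ((E_disj l).2 h).1 he
    rcases (hmT e).1 heT with rfl | h | rfl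
    · exact (hnE (by simp [Extra])).elim
    · obtain ⟨i, hi, h | h⟩ := (b2 e).1 h
      · exact ⟨i, hi, by simpa using h.1, h.2⟩
      · exact ((E_disj l).1 he (Or.inl ⟨i, hi, h.2⟩)).elim
    · exact (hnE (by simp [Extra, hX])).elim
  have hHT' : ∀ e, mirror e ∈ Half l.m l.neg → e ∈ T →
      ∃ i < l.m, v i = true ∧ mirror e ∈ Side l.m i := by
    intro e he heT
    have hnE : e ∉ Extra l.m := fun h => ((E_disj l).2 h).2 he
    rcases (hmT e).1 heT with rfl | h | rfl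
    · exact (hnE (by simp [Extra])).elim
    · obtain ⟨i, hi, h | h⟩ := (b2 e).1 h
      · exact ((E_disj l).1 (Or.inl ⟨i, hi, h.2⟩) he).elim
      · exact ⟨i, hi, by simpa using h.1, h.2⟩
    · exact (hnE (by simp [Extra, hX])).elim
  have hu : ∀ e ∈ l.E, e.lo ≠ (X + 1, X) := fun e he => (E_top l he).2.1
  refine ⟨T, (X + 1, X), hT, hu, ?_⟩
  set F' : Set Edge := {e | (e ∈ l.E ∧ e ∉ T) ∨ e = (1, -3, true)} with hF'
  set U : Set V := {(X + 1, X), (1, -1)} with hU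
  have havoid : ∀ e ∈ l.E, e ∉ T → ∀ w, Inc w e → w ∉ U := by
    intro e he heT w hw hwU
    simp only [hU, Set.mem_insert_iff, Set.mem_singleton_iff] at hwU
    have hlow := E_low l he
    rcases hw with hw | hw
    · rcases hwU with h | h
      · exact hu e he (hw.trans h)
      · exact hlow.2.2.1 (hw.trans h)
    · rcases hwU with h | h
      · have := (E_top l he).2.2.2 (hw.trans h)
        exact heT ((hmT e).2 (Or.inr (Or.inr this)))
      · exact hlow.2.2.2.2.1 (hw.trans h)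
  -- edges of the base walk
  have hL1E : ∀ e ∈ L₁, e ∈ l.E ∧ e ∉ T := by
    intro e he
    obtain ⟨i, hi, h | h⟩ := (a2 e).1 he
    · refine ⟨Or.inl ⟨i, hi, Or.inl h.2⟩, fun heT => ?_⟩
      obtain ⟨j, hj, h1, h2⟩ := hHT e (Or.inl ⟨i, hi, h.2⟩) heT
      have := (half_disj l.pos_planar hpl).1 i j h.2 h2
      subst this
      rw [h.1] at h1
      exact absurd h1 (by simp)
    · refine ⟨Or.inl ⟨i, hi, Or.inr h.2⟩, fun heT => ?_⟩
      obtain ⟨j, hj, h1, h2⟩ := hHT' e (Or.inl ⟨i, hi, h.2⟩) heT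
      have := (half_disj l.neg_planar hnl).1 i j h.2 h2
      subst this
      rw [h.1] at h1
      exact absurd h1 (by simp)
  have hL1X : ∀ e ∈ L₁, e ∉ Extra l.m := by
    intro e he hx
    obtain ⟨i, hi, h | h⟩ := (a2 e).1 he
    · exact ((E_disj l).2 hx).1 (Or.inl ⟨i, hi, h.2⟩)
    · exact ((E_disj l).2 hx).2 (Or.inl ⟨i, hi, h.2⟩)
  have hL2X : ∀ e ∈ L₂, e ∉ Extra l.m := by
    intro e he hx
    obtain ⟨i, hi, h | h⟩ := (b2 e).1 he
    · exact ((E_disj l).2 hx).1 (Or.inl ⟨i, hi, h.2⟩)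
    · exact ((E_disj l).2 hx).2 (Or.inl ⟨i, hi, h.2⟩)
  have hexT : ∀ e ∈ Extra l.m, e ≠ (-1, 0, false) → e ≠ (X, X, false) → e ∈ l.E ∧ e ∉ T := by
    intro e he h1 h2
    refine ⟨E_extra l he, fun h => ?_⟩
    rcases (hmT e).1 h with h | h | h
    · exact h1 h
    · exact hL2X e h he
    · exact h2 h
  have x1 : ((0, -2, false) : Edge) ∈ l.E ∧ ((0, -2, false) : Edge) ∉ T :=
    hexT _ (by simp [Extra]) (by simp) (by simp; omega)
  have x2 : ((0, -2, true) : Edge) ∈ l.E ∧ ((0, -2, true) : Edge) ∉ T :=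
    hexT _ (by simp [Extra]) (by simp) (by simp)
  have x3 : ((0, -1, true) : Edge) ∈ l.E ∧ ((0, -1, true) : Edge) ∉ T :=
    hexT _ (by simp [Extra]) (by simp) (by simp)
  have x4 : ((X, X, true) : Edge) ∈ l.E ∧ ((X, X, true) : Edge) ∉ T :=
    hexT _ (by simp [Extra, hX]) (by simp) (by simp)
  have hFe : ∀ e, e ∈ l.E ∧ e ∉ T → e ∈ F' := fun e h => Or.inl h
  set L₀ : List Edge := (1, -3, true) :: (0, -2, false) :: (0, -2, true) :: (0, -1, true) ::
    (L₁ ++ [(X, X, true)]) with hL₀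
  have hm0 : ∀ e : Edge, e ∈ L₀ ↔ e = (1, -3, true) ∨ e = (0, -2, false) ∨ e = (0, -2, true) ∨
      e = (0, -1, true) ∨ e ∈ L₁ ∨ e = (X, X, true) := by
    intro e; simp [hL₀]
  have hW0 : Walk F' U (1, -3) L₀ (X, X + 1) := by
    simp only [hL₀, Walk]
    refine ⟨Or.inr rfl, Or.inl ⟨rfl, ?_, hFe _ x1, Or.inr ⟨rfl, ?_, hFe _ x2,
      Or.inl ⟨rfl, ?_, hFe _ x3, Or.inl ⟨rfl, ?_, ?_⟩⟩⟩⟩⟩
    · simp [Edge.hi, hU]; omega
    · exact havoid _ x1.1 x1.2 _ (nec_inc _)
    · exact havoid _ x2.1 x2.2 _ (nec_inc' _)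
    · exact havoid _ x3.1 x3.2 _ (nec_inc' _)
    · have h0 : Edge.hi (0, -1, true) = (0, 0) := by simp [Edge.hi]
      rw [h0]
      refine walk_append.2 ⟨(X, X), ?_, ?_⟩
      · exact a1.walk.conv (fun e he => hFe _ (hL1E e he))
          (fun e he w hw _ => havoid e (hL1E e he).1 (hL1E e he).2 w hw)
      · simp only [Walk]
        exact ⟨hFe _ x4, Or.inl ⟨rfl, havoid _ x4.1 x4.2 _ (nec_inc' _), rfl⟩⟩
  have hN0 : L₀.Nodup := by
    have h13 : ((1, -3, true) : Edge) ∉ l.E := fun h => (E_low l h).1 rfl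
    have hn : ∀ e ∈ Extra l.m, e ∉ L₁ := fun e he h => hL1X e h he
    simp only [hL₀, List.nodup_cons, List.mem_cons, List.mem_append,
      List.nodup_append, not_or]
    refine ⟨⟨by simp, by simp, by simp, fun h => h13 (hL1E _ h).1, by simp; omega⟩,
      ⟨by simp, by simp, hn _ (by simp [Extra]), by simp⟩,
      ⟨by simp, hn _ (by simp [Extra]), by simp; omega⟩,
      ⟨hn _ (by simp [Extra]), by simp; omega⟩, a1.nodup, by simp, ?_⟩
    intro e he e' he' h
    have he'' : e' = (X, X, true) := by simpa using he'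
    rw [h, he''] at he
    exact hn _ (by simp [Extra, hX]) he
  -- combs
  have hcT : ∀ c, ∀ e ∈ Comb l.m (l.pos c), e ∈ l.E ∧ e ∉ T := by
    intro c e he
    refine ⟨nec_comb l he, fun h => ?_⟩
    obtain ⟨i, hi, -, h2⟩ := hHT e (Or.inr ⟨c, he⟩) h
    exact (half_disj l.pos_planar hpl).2.1 i c hi h2 he
  have hcT' : ∀ c, ∀ e, mirror e ∈ Comb l.m (l.neg c) → e ∈ l.E ∧ e ∉ T := by
    intro c e he
    refine ⟨nec_comb' l he, fun h => ?_⟩
    obtain ⟨i, hi, -, h2⟩ := hHT' e (Or.inr ⟨c, he⟩) h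
    exact (half_disj l.neg_planar hnl).2.1 i c hi h2 he
  have hc0 : ∀ c, ∀ e ∈ Comb l.m (l.pos c), e ∉ L₀ := by
    intro c e he h
    have hx : e ∉ Extra l.m := fun h => ((E_disj l).2 h).1 (Or.inr ⟨c, he⟩)
    rcases (hm0 e).1 h with rfl | rfl | rfl | rfl | h | rfl
    · exact (E_low l (hcT c _ he).1).1 rfl
    · exact hx (by simp [Extra])
    · exact hx (by simp [Extra])
    · exact hx (by simp [Extra])
    · obtain ⟨i, hi, h | h⟩ := (a2 e).1 h
      · exact (half_disj l.pos_planar hpl).2.1 i c hi h.2 he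
      · exact (E_disj l).1 (Or.inr ⟨c, he⟩) (Or.inl ⟨i, hi, h.2⟩)
    · exact hx (by simp [Extra, hX])
  have hc0' : ∀ c, ∀ e, mirror e ∈ Comb l.m (l.neg c) → e ∉ L₀ := by
    intro c e he h
    have hx : e ∉ Extra l.m := fun h => ((E_disj l).2 h).2 (Or.inr ⟨c, he⟩)
    rcases (hm0 e).1 h with rfl | rfl | rfl | rfl | h | rfl
    · exact (E_low l (hcT' c _ he).1).1 rfl
    · exact hx (by simp [Extra])
    · exact hx (by simp [Extra])
    · exact hx (by simp [Extra])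
    · obtain ⟨i, hi, h | h⟩ := (a2 e).1 h
      · exact (E_disj l).1 (Or.inl ⟨i, hi, h.2⟩) (Or.inr ⟨c, he⟩)
      · exact (half_disj l.neg_planar hnl).2.1 i c hi h.2 he
    · exact hx (by simp [Extra, hX])
  have hcorner : ∀ s, s < l.m * l.m → s / l.m < l.m ∧ 4 + 4 * (s % l.m) < 4 * l.m + 8 := by
    intro s hs
    have hm : 0 < l.m := by
      rcases Nat.eq_zero_or_pos l.m with h | h
      · rw [h] at hs; simp at hs
      · exact h
    have := Nat.mod_lt s hm
    exact ⟨Nat.div_lt_of_lt_mul hs, by omega⟩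
  obtain ⟨L₃, g1, g2, g3⟩ := splice_all hW0 hN0 (fun c => Comb l.m (l.pos c)) l.m (by
    intro c hc
    by_cases hr : ∃ s, l.pos c s = true
    · right
      obtain ⟨s, hs⟩ := hr
      obtain ⟨t, ht, hvt⟩ := hpos c s hs
      obtain ⟨h1, h2⟩ := hcorner t (hpl c t ht)
      have hse : se l.m (t / l.m) (4 + 4 * (t % l.m)) ∈ Side l.m (t / l.m) :=
        (mem_side _ _ _).2 ⟨_, h2, rfl⟩
      refine ⟨_, (hm0 _).2 (Or.inr (Or.inr (Or.inr (Or.inr (Or.inl
        ((a2 _).2 ⟨_, h1, Or.inl ⟨hvt, hse⟩⟩)))))), corner l.m t, ?_, ?_⟩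
      · left
        rw [se_lo, sv_corner _ _ (hpl c t ht)]
      · obtain ⟨C, k1, k2, k3⟩ := comb_walk (hpl c) ht
        have k4 : ∀ e, e ∈ C ↔ e ∈ Comb l.m (l.pos c) := fun e => ⟨fun h => k1.mem h, k3 e⟩
        refine ⟨C, k1.conv (fun e he => hFe _ (hcT c e ((k4 e).1 he))) (fun e he w hw _ =>
          havoid e (hcT c e ((k4 e).1 he)).1 (hcT c e ((k4 e).1 he)).2 w hw), k2, k4⟩
    · left
      intro e he
      exact hr (comb_nonempty he)) hc0 (fun c c' e => (half_disj l.pos_planar hpl).2.2 c c')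
  obtain ⟨L₄, k1, k2, k3⟩ := splice_all g1 g2 (fun c => {e | mirror e ∈ Comb l.m (l.neg c)}) l.m
    (by
    intro c hc
    by_cases hr : ∃ s, l.neg c s = true
    · right
      obtain ⟨s, hs⟩ := hr
      obtain ⟨t, ht, hvt⟩ := hneg c s hs
      obtain ⟨h1, h2⟩ := hcorner t (hnl c t ht)
      have hse : mirror (mirror (se l.m (t / l.m) (4 + 4 * (t % l.m)))) ∈ Side l.m (t / l.m) := by
        rw [ea_mirror_mirror]
        exact (mem_side _ _ _).2 ⟨_, h2, rfl⟩
      refine ⟨_, (g3 _).2 (Or.inl ((hm0 _).2 (Or.inr (Or.inr (Or.inr (Or.inr (Or.inl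
        ((a2 _).2 ⟨_, h1, Or.inr ⟨hvt, hse⟩⟩)))))))), (corner l.m t).swap, ?_, ?_⟩
      · left
        rw [sh_lo, se_lo, sv_corner _ _ (hnl c t ht)]
      · obtain ⟨C, k1, k2, k3⟩ := comb_walk (hnl c) ht
        have k4 : ∀ e, e ∈ C.map mirror ↔ mirror e ∈ Comb l.m (l.neg c) := by
          intro e
          rw [List.mem_map]
          constructor
          · rintro ⟨e', he', rfl⟩
            rw [ea_mirror_mirror]
            exact k1.mem he'
          · intro h
            exact ⟨mirror e, k3 _ h, ea_mirror_mirror e⟩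
        refine ⟨C.map mirror, (suf_mirror k1).conv (fun e he => hFe _ (hcT' c e ((k4 e).1 he)))
          (fun e he w hw _ =>
          havoid e (hcT' c e ((k4 e).1 he)).1 (hcT' c e ((k4 e).1 he)).2 w hw), ?_, k4⟩
        refine (List.nodup_map_iff ?_).2 k2
        intro a b hab
        rw [← ea_mirror_mirror a, hab, ea_mirror_mirror]
    · left
      intro e he
      exact hr (comb_nonempty he))
    (by
      intro c e he h
      rcases (g3 e).1 h with h | ⟨c', -, h⟩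
      · exact hc0' c e he h
      · exact (E_disj l).1 (Or.inr ⟨c', h⟩) (Or.inr ⟨c, he⟩))
    (fun c c' e => (half_disj l.neg_planar hnl).2.2 c c')
  refine ⟨L₄, (X, X + 1), k1, k2, (k3 _).2 (Or.inl ((g3 _).2 (Or.inl ((hm0 _).2 (Or.inl rfl))))),
    ?_⟩
  intro e he heT
  rw [k3, g3, hm0]
  rcases he with ⟨i, hi, h | h⟩ | ⟨c, h | h⟩ | h
  · left; left
    right; right; right; right; left
    refine (a2 e).2 ⟨i, hi, Or.inl ⟨?_, h⟩⟩
    by_contra hv
    exact heT ((hmT e).2 (Or.inr (Or.inl ((b2 e).2 ⟨i, hi, Or.inl ⟨by simpa using hv, h⟩⟩))))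
  · left; left
    right; right; right; right; left
    refine (a2 e).2 ⟨i, hi, Or.inr ⟨?_, h⟩⟩
    by_contra hv
    exact heT ((hmT e).2 (Or.inr (Or.inl ((b2 e).2 ⟨i, hi, Or.inr ⟨by simpa using hv, h⟩⟩))))
  · left; right
    obtain ⟨s, hs⟩ := comb_nonempty h
    exact ⟨c, (l.pos_lt c s hs).1, h⟩
  · right
    obtain ⟨s, hs⟩ := comb_nonempty h
    exact ⟨c, (l.neg_lt c s hs).1, h⟩
  · left; left
    simp only [Extra, Set.mem_insert_iff, Set.mem_singleton_iff] at h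
    rcases h with rfl | rfl | rfl | rfl | rfl | rfl
    · exact (heT ((hmT _).2 (Or.inl rfl))).elim
    · simp
    · simp
    · simp
    · exact (heT ((hmT _).2 (Or.inr (Or.inr rfl)))).elim
    · simp [hX]

end Pool.Agent.CHK
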