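import Pool.Agent.CHK.Place
import Pool.Agent.CHK.Reply
import Pool.Agent.CHK.Finish
import Pool.Agent.CHK.Nec
import Pool.Agent.CHK.Suf
import Pool.Agent.CHK.Form

set_option autoImplicit false

/-! The reduction from planar monotone satisfiability to mate in 2. -/

namespace Pool.Agent.CHK

theorem mate_iff_good (l : Lay) (stop : Bool) : MateIn2 (size l.m) stop true l.place ↔ l.Good := by
  constructor
  · rintro ⟨B₁, h₁, h₂⟩
    obtain ⟨T, u, hT, hu, rfl⟩ := (first_move l stop B₁).1 h₁
    have h₃ := h₂ _ ((reply l stop hT hu _).2 rfl)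
    exact ⟨T, u, hT, hu, (finish l stop hT hu).1 h₃⟩
  · rintro ⟨T, u, hT, hu, h⟩
    refine ⟨_, (first_move l stop _).2 ⟨T, u, hT, hu, rfl⟩, ?_⟩
    intro B₂ hB₂
    rw [(reply l stop hT hu B₂).1 hB₂]
    exact (finish l stop hT hu).2 h

/-- The position of a layout. -/
noncomputable def Lay.toPos (l : Lay) : Pos := ⟨size l.m, true, l.place, place_on l⟩

theorem main : ∃ f : Lay → Pos, Nonempty (Turing.TM2ComputableInPolyTime encLay encPos f) ∧
    ∀ (l : Lay) (stop : Bool), MateIn2 (f l).N stop (f l).side (f l).board ↔ l.Sat := by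
  obtain ⟨T, al, be, h⟩ := place_form_of Lay.toPos (fun _ => rfl) (fun _ => rfl) (fun _ => rfl)
  refine ⟨Lay.toPos, bfm_enc encLay encPos Lay.toPos T al be h, fun l stop => ?_⟩
  exact (mate_iff_good l stop).trans ⟨sat_of_good l, good_of_sat l⟩

end Pool.Agent.CHK
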