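import Pool.Agent.CHK.SodC
import Pool.Agent.CHK.Play

set_option autoImplicit false

/-! Turning the board by 180 degrees and exchanging the colours. -/

namespace Pool.Agent.CHK

/-- The square `z` after turning the board. -/
def rsq (N : ℕ) (z : Sq) : Sq := ((N : ℤ) - 1 - z.1, (N : ℤ) - 1 - z.2)

/-- The piece with the other colour. -/
def flp (P : Piece) : Piece := ⟨!P.white, P.king⟩

theorem rsq_rsq (N : ℕ) (z : Sq) : rsq N (rsq N z) = z := by
  apply Prod.ext <;> simp [rsq]

theorem rsq_inj {N : ℕ} {z z' : Sq} (h : rsq N z = rsq N z') : z = z' := by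
  rw [← rsq_rsq N z, h, rsq_rsq]

theorem rsq_eq_iff {N : ℕ} {z z' : Sq} : rsq N z = z' ↔ z = rsq N z' := by
  constructor
  · intro h; rw [← h, rsq_rsq]
  · intro h; rw [h, rsq_rsq]

theorem flp_flp (P : Piece) : flp (flp P) = P := by
  simp [flp]

theorem flp_inj {P Q : Piece} (h : flp P = flp Q) : P = Q := by
  rw [← flp_flp P, h, flp_flp]

theorem rot_apply (N : ℕ) (B : Board) (z : Sq) : rot N B z = (B (rsq N z)).map flp := rfl

theorem rot_rsq (N : ℕ) (B : Board) (z : Sq) : rot N B (rsq N z) = (B z).map flp := by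
  rw [rot_apply, rsq_rsq]

theorem rot_rot (N : ℕ) (B : Board) : rot N (rot N B) = B := by
  funext z
  rw [rot_apply, rot_rsq, Option.map_map]
  have : flp ∘ flp = id := by
    funext P; exact flp_flp P
  rw [this, Option.map_id, id]

theorem rot_update (N : ℕ) (B : Board) (z : Sq) (o : Option Piece) :
    rot N (Function.update B z o) = Function.update (rot N B) (rsq N z) (o.map flp) := by
  funext y
  rw [rot_apply]
  by_cases h : rsq N y = z
  · have h' : y = rsq N z := rsq_eq_iff.1 h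
    rw [h, Function.update_self, h', Function.update_self]
  · have h' : y ≠ rsq N z := fun h' => h (rsq_eq_iff.2 h')
    rw [Function.update_of_ne h, Function.update_of_ne h', rot_apply]

theorem on_rsq {N : ℕ} {z : Sq} : On N (rsq N z) ↔ On N z := by
  unfold On rsq
  simp only
  constructor
  · rintro ⟨h1, h2, h3, h4, h5⟩
    refine ⟨by omega, by omega, by omega, by omega, ?_⟩
    rw [Int.even_iff] at h5 ⊢
    omega
  · rintro ⟨h1, h2, h3, h4, h5⟩
    refine ⟨by omega, by omega, by omega, by omega, ?_⟩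
    rw [Int.even_iff] at h5 ⊢
    omega

theorem rsq_add (N : ℕ) (z d : Sq) : rsq N (z + d) = rsq N z + -d := by
  apply Prod.ext <;> simp [rsq] <;> ring

theorem fwd_not (c : Bool) : fwd (!c) = -fwd c := by
  cases c <;> simp [fwd]

theorem dir_flp {P : Piece} {d : Sq} (h : Dir P d) : Dir (flp P) (-d) := by
  obtain ⟨h1, h2⟩ := h
  refine ⟨?_, ?_⟩
  · rcases h1 with h | h
    · right; simp [h]
    · left; simp [h]
  · simp only [flp, fwd_not, Prod.snd_neg]
    rcases h2 with h | ⟨h, h'⟩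
    · left; rw [h]
    · right; exact ⟨h, by rw [h']⟩

theorem arrive_flp (N : ℕ) (P : Piece) (z : Sq) :
    arrive N (flp P) (rsq N z) = flp (arrive N P z) := by
  unfold arrive
  have key : (rsq N z).2 = far N (flp P).white ↔ z.2 = far N P.white := by
    rcases P with ⟨w, k⟩
    cases w <;> (simp [rsq, flp, far]; try (constructor <;> intro h <;> omega))
  by_cases h : z.2 = far N P.white
  · rw [if_pos h, if_pos (key.2 h)]; rfl
  · rw [if_neg h, if_neg (fun h' => h (key.1 h'))]

theorem rot_some {N : ℕ} {B : Board} {z : Sq} {P : Piece} (h : B z = some P) :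
    rot N B (rsq N z) = some (flp P) := by
  rw [rot_rsq, h]; rfl

theorem rot_none {N : ℕ} {B : Board} {z : Sq} (h : B z = none) :
    rot N B (rsq N z) = none := by
  rw [rot_rsq, h]; rfl

theorem step_rot {N : ℕ} {B B' : Board} {z z' : Sq} (h : Step N B z z' B') :
    Step N (rot N B) (rsq N z) (rsq N z') (rot N B') := by
  obtain ⟨P, d, h1, h2, rfl, h4, h5, rfl⟩ := h
  refine ⟨flp P, -d, rot_some h1, dir_flp h2, rsq_add N z d, on_rsq.2 h4, rot_none h5, ?_⟩
  rw [rot_update, rot_update, arrive_flp]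
  rfl

theorem jump_rot {N : ℕ} {B B' : Board} {z z' : Sq} (h : Jump N B z z' B') :
    Jump N (rot N B) (rsq N z) (rsq N z') (rot N B') := by
  obtain ⟨P, Q, d, h1, h2, h3, h4, rfl, h5, h6, rfl⟩ := h
  refine ⟨flp P, flp Q, -d, rot_some h1, dir_flp h2, ?_, ?_, ?_, on_rsq.2 h5, rot_none h6, ?_⟩
  · rw [← rsq_add]; exact rot_some h3
  · simpa [flp] using h4
  · rw [rsq_add, rsq_add]
  · rw [rot_update, rot_update, rot_update, arrive_flp, rsq_add N z d]
    rfl

theorem jump_rot_iff {N : ℕ} {B B' : Board} {z z' : Sq} :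
    Jump N (rot N B) z z' B' ↔ Jump N B (rsq N z) (rsq N z') (rot N B') := by
  constructor
  · intro h
    have := jump_rot h
    rwa [rot_rot] at this
  · intro h
    have := jump_rot h
    rwa [rsq_rsq, rsq_rsq, rot_rot] at this

theorem rot_ne_iff {N : ℕ} {B B' : Board} {z z' : Sq} :
    rot N B' (rsq N z') ≠ rot N B (rsq N z) ↔ B' z' ≠ B z := by
  rw [rot_rsq, rot_rsq, not_iff_not]
  constructor
  · intro h
    exact Option.map_injective (fun _ _ h => flp_inj h) h
  · intro h; rw [h]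

theorem capture_rot {N : ℕ} {stop : Bool} {B B' : Board} {z : Sq} (h : Capture N stop B z B') :
    Capture N stop (rot N B) (rsq N z) (rot N B') := by
  induction h with
  | last h h' =>
    refine Capture.last (jump_rot h) ?_
    rcases h' with ⟨h1, h2⟩ | h'
    · left; exact ⟨h1, rot_ne_iff.2 h2⟩
    · right
      intro z'' B'' h3
      rw [jump_rot_iff, rsq_rsq] at h3
      exact h' _ _ h3
  | next h h' _ ih =>
    refine Capture.next (jump_rot h) ?_ ih
    rintro ⟨h1, h2⟩
    exact h' ⟨h1, rot_ne_iff.1 h2⟩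

theorem move_rot {N : ℕ} {stop c : Bool} {B B' : Board} (h : Move N stop c B B') :
    Move N stop (!c) (rot N B) (rot N B') := by
  rcases h with ⟨z, P, h1, h2, h3⟩ | ⟨h0, z, P, z', h1, h2, h3⟩
  · left
    exact ⟨rsq N z, flp P, rot_some h1, by simp [flp, h2], capture_rot h3⟩
  · right
    refine ⟨?_, rsq N z, flp P, rsq N z', rot_some h1, by simp [flp, h2], step_rot h3⟩
    intro y Q y' B₁ hy hQ hj
    rw [jump_rot_iff] at hj
    have hy' : B (rsq N y) = some (flp Q) := by
      have := rot_some (N := N) hy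
      rwa [rot_rot] at this
    exact h0 _ _ _ _ hy' (by simp [flp, hQ]) hj

theorem move_rot_iff {N : ℕ} {stop c : Bool} {B B' : Board} :
    Move N stop (!c) (rot N B) B' ↔ Move N stop c B (rot N B') := by
  constructor
  · intro h
    have := move_rot h
    rwa [rot_rot, Bool.not_not] at this
  · intro h
    have := move_rot h
    rwa [rot_rot] at this

theorem cleared_rot {N : ℕ} {c : Bool} {B : Board} (h : Cleared c B) :
    Cleared (!c) (rot N B) := by
  intro z P hz hc
  have h1 : B (rsq N z) = some (flp P) := by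
    have := rot_some (N := N) hz
    rwa [rot_rot] at this
  exact h _ _ h1 (by simp [flp, hc])

theorem mate_rot_aux {N : ℕ} {stop c : Bool} {B : Board} (h : MateIn2 N stop c B) :
    MateIn2 N stop (!c) (rot N B) := by
  obtain ⟨B₁, h1, h2⟩ := h
  refine ⟨rot N B₁, move_rot h1, fun B₂ h3 => ?_⟩
  rw [move_rot_iff] at h3
  obtain ⟨B₃, h4, h5⟩ := h2 _ h3
  refine ⟨rot N B₃, ?_, cleared_rot h5⟩
  have := move_rot h4
  rwa [rot_rot] at this

theorem mate_rot (N : ℕ) (stop : Bool) (B : Board) (hB : Val N B) :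
    MateIn2 N stop false B ↔ MateIn2 N stop true (rot N B) := by
  have _ := hB
  constructor
  · intro h
    exact mate_rot_aux h
  · intro h
    have := mate_rot_aux h
    rwa [rot_rot] at this

/-- The definable relation which describes the turned board. -/
def rotRel (N : ℕ) (R : ℕ → List ℕ → Prop) (a b c : ℕ) : Prop :=
  ∃ x, x < N ∧ ∃ y, y < N ∧ a + x + 1 = N ∧ b + y + 1 = N ∧
    ((c = 0 ∧ R 0 [x, y, 0]) ∨ (c = 1 ∧ ¬ R 0 [x, y, 1]) ∨ (c = 2 ∧ R 0 [x, y, 2]))

theorem rotRel_iff {N : ℕ} {R : ℕ → List ℕ → Prop} {z : Sq} (hz : On N z) {c : ℕ} :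
    rotRel N R z.1.toNat z.2.toNat c ↔
      ((c = 0 ∧ R 0 [(rsq N z).1.toNat, (rsq N z).2.toNat, 0]) ∨
        (c = 1 ∧ ¬ R 0 [(rsq N z).1.toNat, (rsq N z).2.toNat, 1]) ∨
        (c = 2 ∧ R 0 [(rsq N z).1.toNat, (rsq N z).2.toNat, 2])) := by
  obtain ⟨h1, h2, h3, h4, _⟩ := hz
  have e1 : ∀ x : ℕ, z.1.toNat + x + 1 = N ↔ x = (rsq N z).1.toNat := by
    intro x; simp only [rsq]; omega
  have e2 : ∀ y : ℕ, z.2.toNat + y + 1 = N ↔ y = (rsq N z).2.toNat := by
    intro y; simp only [rsq]; omega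
  unfold rotRel
  constructor
  · rintro ⟨x, _, y, _, hx, hy, h⟩
    rw [e1] at hx
    rw [e2] at hy
    rwa [← hx, ← hy]
  · intro h
    refine ⟨(rsq N z).1.toNat, ?_, (rsq N z).2.toNat, ?_, (e1 _).2 rfl, (e2 _).2 rfl, h⟩
    · simp only [rsq]; omega
    · simp only [rsq]; omega

open Classical in
theorem bd_of_rotRel {N : ℕ} {R R' : ℕ → List ℕ → Prop}
    (h : ∀ a b c, R' 0 [a, b, c] ↔ rotRel N R a b c) : bd N R' 0 = rot N (bd N R 0) := by
  funext z
  rw [rot_apply]
  simp only [bd, h]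
  by_cases hz : On N z
  · have hz' : On N (rsq N z) := on_rsq.2 hz
    simp only [rotRel_iff hz]
    by_cases h0 : R 0 [(rsq N z).1.toNat, (rsq N z).2.toNat, 0]
    · simp [h0, hz, hz', flp]
    · simp [h0]
  · have hz' : ¬ On N (rsq N z) := fun h => hz (on_rsq.1 h)
    simp [hz, hz']

theorem bd_rotRel (N : ℕ) (R : ℕ → List ℕ → Prop) :
    bd N (Function.update R 0 (fun l => ∃ a b c, l = [a, b, c] ∧ rotRel N R a b c)) 0 =
      rot N (bd N R 0) := by
  apply bd_of_rotRel
  intro a b c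
  rw [Function.update_self]
  constructor
  · rintro ⟨a', b', c', h, h'⟩
    simp only [List.cons.injEq, and_true] at h
    obtain ⟨rfl, rfl, rfl⟩ := h
    exact h'
  · intro h; exact ⟨a, b, c, rfl, h⟩

theorem fo_rotRel : FO (fun N R _ v => rotRel N R (v 0) (v 1) (v 2)) := by
  unfold rotRel
  have hx : ∀ i, DT (fun _ v => v i) := DT.var
  -- variables: 0 = y, 1 = x, 2 = a, 3 = b, 4 = c
  have h1 : FO (fun (N : ℕ) (_ : ℕ → List ℕ → Prop) (_ : List ℕ → Prop) (v : ℕ → ℕ) =>
      v 2 + v 1 + 1 = N) :=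
    FO.eq (DT.add (DT.add (hx 2) (hx 1)) (DT.const 1)) DT.size
  have h2 : FO (fun (N : ℕ) (_ : ℕ → List ℕ → Prop) (_ : List ℕ → Prop) (v : ℕ → ℕ) =>
      v 3 + v 0 + 1 = N) :=
    FO.eq (DT.add (DT.add (hx 3) (hx 0)) (DT.const 1)) DT.size
  have hr : ∀ c : ℕ, FO (fun (_ : ℕ) (R : ℕ → List ℕ → Prop) (_ : List ℕ → Prop) (v : ℕ → ℕ) =>
      R 0 [v 1, v 0, c]) := by
    intro c
    exact FO.rel 0 [fun _ v => v 1, fun _ v => v 0, fun _ _ => c] (by
      intro t ht
      simp only [List.mem_cons, List.not_mem_nil, or_false] at ht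
      rcases ht with rfl | rfl | rfl
      · exact hx 1
      · exact hx 0
      · exact DT.const c)
  have hc : ∀ c : ℕ, FO (fun (_ : ℕ) (_ : ℕ → List ℕ → Prop) (_ : List ℕ → Prop) (v : ℕ → ℕ) =>
      v 4 = c) := fun c => FO.eq (hx 4) (DT.const c)
  have h3 := FO.ex DT.size (FO.ex DT.size (FO.and h1 (FO.and h2 (FO.or (FO.and (hc 0) (hr 0))
    (FO.or (FO.and (hc 1) (FO.not (hr 1))) (FO.and (hc 2) (hr 2)))))))
  refine FO.congr (fun N R C v => ?_) h3
  rfl

/-- `npd_mate_rot` from `npd_mate`. -/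
theorem npd_mate_rot_of (h : NPd (fun N R _ => MateIn2 N true true (bd N R 0))) :
    NPd (fun N R _ => MateIn2 N true true (rot N (bd N R 0))) := by
  refine NPd.congr (fun N R v => ?_) (NPd.rel_sub 0 fo_rotRel h)
  rw [bd_rotRel]

end Pool.Agent.CHK
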