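import Pool.Agent.CHK.Sod

set_option autoImplicit false

/-! The word of a position. -/

namespace Pool.Agent.CHK

theorem sode_cell_length (o : Option Piece) : (cell o).length = 3 := by
  cases o <;> rfl

theorem sode_flatMap_length {α : Type*} (c : ℕ) (l : List ℕ) (f : ℕ → List α)
    (h : ∀ x, (f x).length = c) : (l.flatMap f).length = l.length * c := by
  induction l with
  | nil => simp
  | cons a l ih => simp [List.flatMap_cons, ih, h, Nat.succ_mul, Nat.add_comm]

/-- Entry `y * c + i` of the concatenation of blocks of length `c`. -/
theorem sode_flatMap_get {α : Type*} (c : ℕ) (f : ℕ → List α) (h : ∀ x, (f x).length = c) :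
    ∀ (n y i : ℕ), y < n → i < c →
      ((List.range n).flatMap f)[y * c + i]? = (f y)[i]? := by
  intro n
  induction n with
  | zero => intro y i hy; omega
  | succ n ih =>
    intro y i hy hi
    rw [List.range_succ, List.flatMap_append]
    have hl : ((List.range n).flatMap f).length = n * c := by
      rw [sode_flatMap_length c _ f h, List.length_range]
    rcases Nat.lt_or_ge y n with hyn | hyn
    · rw [List.getElem?_append_left, ih y i hyn hi]
      rw [hl]
      calc y * c + i < y * c + c := by omega
        _ = (y + 1) * c := by ring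
        _ ≤ n * c := Nat.mul_le_mul_right c hyn
    · have : y = n := by omega
      subst this
      rw [List.getElem?_append_right (by rw [hl]; omega), hl]
      simp

/-- The prefix of the word. -/
theorem sode_word (p : Pos) : encPos p = (List.replicate p.N true ++ [false, p.side]) ++
    (List.range p.N).flatMap fun (y : ℕ) =>
      (List.range p.N).flatMap fun (x : ℕ) => cell (p.board ((x : ℤ), (y : ℤ))) := by
  simp [encPos]

theorem encPos_shape (p : Pos) : (encPos p).length = p.N + 2 + 3 * (p.N * p.N) ∧
    (∀ i < p.N, (encPos p)[i]? = some true) ∧ (encPos p)[p.N]? = some false := by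
  refine ⟨?_, ?_, ?_⟩
  · rw [sode_word, List.length_append, sode_flatMap_length (p.N * 3)]
    · simp
      ring
    · intro y
      rw [sode_flatMap_length 3]
      · simp
      · intro x
        exact sode_cell_length _
  · intro i hi
    unfold encPos
    rw [List.getElem?_append_left (by simpa using hi)]
    simp [hi]
  · unfold encPos
    rw [List.getElem?_append_right (by simp)]
    simp

theorem sode_get (p : Pos) {x y k : ℕ} (hx : x < p.N) (hy : y < p.N) (hk : k < 3) :
    (encPos p)[p.N + 2 + 3 * (y * p.N + x) + k]? = (cell (p.board ((x : ℤ), (y : ℤ))))[k]? := by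
  rw [sode_word, List.getElem?_append_right (by simp; omega)]
  have h1 : p.N + 2 + 3 * (y * p.N + x) + k -
      (List.replicate p.N true ++ [false, p.side]).length = y * (p.N * 3) + (x * 3 + k) := by
    simp only [List.length_append, List.length_replicate, List.length_cons, List.length_nil]
    have : y * (p.N * 3) = 3 * (y * p.N) := by ring
    omega
  rw [h1, sode_flatMap_get (p.N * 3) _ _ _ _ _ hy (by omega),
    sode_flatMap_get 3 _ (fun _ => sode_cell_length _) _ _ _ hx hk]
  intro y
  rw [sode_flatMap_length 3]
  · simp
  · intro x
    exact sode_cell_length _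

theorem sode_rel (p : Pos) {x y k : ℕ} (hx : x < p.N) (hy : y < p.N) (hk : k < 3) :
    wordRel p.N (encPos p) 0 [x, y, k] ↔ (cell (p.board ((x : ℤ), (y : ℤ))))[k]? = some true := by
  simp only [wordRel]
  rw [sode_get p hx hy hk]
  tauto

theorem bd_word (p : Pos) : bd p.N (wordRel p.N (encPos p)) 0 = p.board := by
  classical
  funext z
  obtain ⟨a, b⟩ := z
  unfold bd
  by_cases hon : On p.N (a, b)
  · obtain ⟨h1, h2, h3, h4, h5⟩ := hon
    simp only at h1 h2 h3 h4 h5
    obtain ⟨x, rfl⟩ := Int.eq_ofNat_of_zero_le h1
    obtain ⟨y, rfl⟩ := Int.eq_ofNat_of_zero_le h3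
    have hx : x < p.N := by exact_mod_cast h2
    have hy : y < p.N := by exact_mod_cast h4
    have hon : On p.N ((x : ℤ), (y : ℤ)) := ⟨h1, h2, h3, h4, h5⟩
    simp only [hon, true_and, Int.toNat_natCast]
    have e0 := sode_rel p hx hy (k := 0) (by norm_num)
    have e1 := sode_rel p hx hy (k := 1) (by norm_num)
    have e2 := sode_rel p hx hy (k := 2) (by norm_num)
    rcases hP : p.board ((x : ℤ), (y : ℤ)) with _ | ⟨w, kg⟩
    · rw [hP] at e0
      rw [if_neg]
      rw [e0]
      simp [cell]
    · rw [hP] at e0 e1 e2
      rw [if_pos (by rw [e0]; simp [cell])]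
      have f1 : decide (wordRel p.N (encPos p) 0 [x, y, 1]) = w := by
        cases w
        · exact decide_eq_false (fun h => by simpa [cell] using e1.1 h)
        · exact decide_eq_true (e1.2 (by simp [cell]))
      have f2 : decide (wordRel p.N (encPos p) 0 [x, y, 2]) = kg := by
        cases kg
        · exact decide_eq_false (fun h => by simpa [cell] using e2.1 h)
        · exact decide_eq_true (e2.2 (by simp [cell]))
      rw [f1, f2]
  · rw [if_neg (fun h => hon h.1)]
    by_contra hne
    exact hon (p.valid _ (fun h => hne h.symm))

theorem side_word (p : Pos) : wordRel p.N (encPos p) 1 [] ↔ p.side = true := by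
  simp only [wordRel]
  unfold encPos
  rw [List.getElem?_append_right (by simp)]
  simp

end Pool.Agent.CHK
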