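import Pool.Agent.CHK.Sod
import Pool.Agent.CHK.Bfm

set_option autoImplicit false

/-! Definable predicates are in NP. -/

namespace Pool.Agent.CHK

/-! ### Codes of lists -/

/-- The code of a list. -/
def sodnCode : List ℕ → ℕ
  | [] => 0
  | a :: l => (a + sodnCode l) * (a + sodnCode l) + a + 1

theorem sodnPair_inj {a b a' b' : ℕ} (h : (a + b) * (a + b) + a + 1 = (a' + b') * (a' + b') + a' + 1) :
    a = a' ∧ b = b' := by
  have key : ∀ x y x' y' : ℕ, (x + y) * (x + y) + x + 1 = (x' + y') * (x' + y') + x' + 1 →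
      ¬ x + y < x' + y' := by
    intro x y x' y' h1 h2
    have h3 : (x + y + 1) * (x + y + 1) ≤ (x' + y') * (x' + y') :=
      Nat.mul_le_mul h2 h2
    nlinarith
  have h1 := key a b a' b' h
  have h2 := key a' b' a b h.symm
  have h3 : a + b = a' + b' := by omega
  rw [h3] at h
  omega

theorem sodnCode_inj : ∀ l l' : List ℕ, sodnCode l = sodnCode l' → l = l'
  | [], [], _ => rfl
  | [], a :: l, h => by simp [sodnCode] at h
  | a :: l, [], h => by simp [sodnCode] at h
  | a :: l, a' :: l', h => by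
    have h1 := sodnPair_inj h
    rw [h1.1, sodnCode_inj l l' h1.2]

/-- The term for the code of a list. -/
def sodnCodeTm : List Tm → Tm
  | [] => .const 0
  | a :: l => .add (.add (.mul (.add a (sodnCodeTm l)) (.add a (sodnCodeTm l))) a) (.const 1)

theorem sodnCodeTm_eval (n : ℕ) (v : ℕ → ℕ) : ∀ l : List Tm,
    (sodnCodeTm l).eval n v = sodnCode (l.map (Tm.eval n v))
  | [] => rfl
  | a :: l => by
    simp only [sodnCodeTm, Tm.eval_add, Tm.eval_mul, Tm.eval_const, List.map_cons, sodnCode,
      sodnCodeTm_eval n v l]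

/-! ### Translation of terms and formulas -/

/-- Translation of terms at depth `d`. -/
def sodnTe (d : ℕ) : Te → Tm
  | .var i => if i < d then .var (d - i) else .const 0
  | .const c => .const c
  | .size => .var 0
  | .add a b => .add (sodnTe d a) (sodnTe d b)
  | .mul a b => .mul (sodnTe d a) (sodnTe d b)

/-- The assignments match. -/
def SodnM (N d : ℕ) (u v : ℕ → ℕ) : Prop :=
  u 0 = N ∧ (∀ i < d, u (d - i) = v i) ∧ ∀ i, d ≤ i → v i = 0

theorem SodnM.cns {N d : ℕ} {u v : ℕ → ℕ} (h : SodnM N d u v) (a : ℕ) :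
    SodnM N (d + 1) (Function.update u (d + 1) a) (cns a v) := by
  refine ⟨?_, ?_, ?_⟩
  · rw [Function.update_of_ne (by omega)]
    exact h.1
  · intro i hi
    cases i with
    | zero => rw [Nat.sub_zero, Function.update_self]; rfl
    | succ j =>
      rw [Function.update_of_ne (by omega), show d + 1 - (j + 1) = d - j by omega]
      exact h.2.1 j (by omega)
  · intro i hi
    cases i with
    | zero => omega
    | succ j => exact h.2.2 j (by omega)

theorem sodnTe_eval {N d n : ℕ} {u v : ℕ → ℕ} (h : SodnM N d u v) (t : Te) :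
    (sodnTe d t).eval n u = t.ev N v := by
  induction t with
  | var i =>
    by_cases hi : i < d
    · rw [sodnTe, if_pos hi]
      exact h.2.1 i hi
    · rw [sodnTe, if_neg hi]
      exact (h.2.2 i (by omega)).symm
  | const c => rfl
  | size => exact h.1
  | add a b iha ihb => simp only [sodnTe, Tm.eval_add, Te.ev, iha, ihb]
  | mul a b iha ihb => simp only [sodnTe, Tm.eval_mul, Te.ev, iha, ihb]

theorem sodnTe_map {N d n : ℕ} {u v : ℕ → ℕ} (h : SodnM N d u v) (l : List Te) :
    (l.map (sodnTe d)).map (Tm.eval n u) = l.map (Te.ev N v) := by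
  rw [List.map_map]
  refine List.map_congr_left fun t _ => ?_
  exact sodnTe_eval h t

/-- The relations of the word. -/
def sodnRel : ℕ → List Tm → Fm
  | 0, [x, y, k] => .and (.lt x (.var 0)) (.and (.lt y (.var 0)) (.and (.lt k (.const 3))
      (.inp (.add (.add (.add (.var 0) (.const 2)) (.mul (.const 3) (.add (.mul y (.var 0)) x)))
        k))))
  | 1, [] => .inp (.add (.var 0) (.const 1))
  | _, _ => .ff

/-- Translation of formulas at depth `d`. -/
def sodnFf : ℕ → Ff → Fm
  | d, .lt a b => .lt (sodnTe d a) (sodnTe d b)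
  | d, .rel k l => sodnRel k (l.map (sodnTe d))
  | d, .crt l => .inp (.add (.add (.add (.var 0) (.const 2)) (.mul (.const 3) (.mul (.var 0)
      (.var 0)))) (sodnCodeTm (l.map (sodnTe d))))
  | d, .neg f => .neg (sodnFf d f)
  | d, .and f g => .and (sodnFf d f) (sodnFf d g)
  | d, .ex t f => .ex (d + 1) (sodnTe d t) (sodnFf (d + 1) f)

theorem sodn_get {w c : List Bool} {i : ℕ} (h : i < w.length) :
    (w ++ c)[i]? = w[i]? := List.getElem?_append_left h

theorem sodnRel_holds {N : ℕ} {w c : List Bool} (hw : w.length = N + 2 + 3 * (N * N))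
    {u : ℕ → ℕ} (hu : u 0 = N) (k : ℕ) (l : List Tm) :
    (sodnRel k l).Holds (w ++ c) u ↔ wordRel N w k (l.map (Tm.eval (w ++ c).length u)) := by
  match k, l with
  | 0, [x, y, k] =>
    simp only [sodnRel, Fm.holds_and, Fm.holds_lt, Fm.holds_inp, Tm.eval_add, Tm.eval_mul,
      Tm.eval_const, Tm.eval_var, hu, List.map_cons, List.map_nil, wordRel]
    refine and_congr_right fun h1 => and_congr_right fun h2 => and_congr_right fun h3 => ?_
    rw [sodn_get]
    rw [hw]
    have h4 : Tm.eval (w ++ c).length u y * N + N ≤ N * N := by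
      calc Tm.eval (w ++ c).length u y * N + N = (Tm.eval (w ++ c).length u y + 1) * N := by ring
        _ ≤ N * N := Nat.mul_le_mul_right _ h2
    omega
  | 1, [] =>
    simp only [sodnRel, Fm.holds_inp, Tm.eval_add, Tm.eval_const, Tm.eval_var, hu, List.map_nil,
      wordRel]
    rw [sodn_get]
    omega
  | 0, [] => simp [sodnRel, wordRel]
  | 0, [_] => simp [sodnRel, wordRel]
  | 0, [_, _] => simp [sodnRel, wordRel]
  | 0, _ :: _ :: _ :: _ :: _ => simp [sodnRel, wordRel]
  | 1, _ :: _ => simp [sodnRel, wordRel]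
  | k + 2, _ => simp [sodnRel, wordRel]

theorem sodnFf_holds {N : ℕ} {w c : List Bool} (hw : w.length = N + 2 + 3 * (N * N)) (φ : Ff) :
    ∀ (d : ℕ) (u v : ℕ → ℕ), SodnM N d u v →
      ((sodnFf d φ).Holds (w ++ c) u ↔
        φ.Holds N (wordRel N w) (fun l => (c)[sodnCode l]? = some true) v) := by
  induction φ with
  | lt a b =>
    intro d u v h
    simp only [sodnFf, Fm.holds_lt, Ff.Holds, sodnTe_eval h]
  | rel k l =>
    intro d u v h
    simp only [sodnFf, Ff.Holds]
    rw [sodnRel_holds hw h.1, sodnTe_map h]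
  | crt l =>
    intro d u v h
    simp only [sodnFf, Ff.Holds, Fm.holds_inp, Tm.eval_add, Tm.eval_mul,
      Tm.eval_const, Tm.eval_var, h.1, sodnCodeTm_eval, sodnTe_map h]
    rw [List.getElem?_append_right (by rw [hw]; omega), hw, Nat.add_sub_cancel_left]
  | neg f ih =>
    intro d u v h
    simp only [sodnFf, Ff.Holds, Fm.holds_neg, ih d u v h]
  | and f g ihf ihg =>
    intro d u v h
    simp only [sodnFf, Ff.Holds, Fm.holds_and, ihf d u v h, ihg d u v h]
  | ex t f ih =>
    intro d u v h
    simp only [sodnFf, Ff.Holds, Fm.holds_ex, sodnTe_eval h]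
    exact exists_congr fun a => and_congr_right fun _ => ih _ _ _ (h.cns a)

/-! ### Polynomial bounds -/

theorem sodn_te_bd (t : Te) : ∃ p : Polynomial ℕ, ∀ (N m : ℕ) (v : ℕ → ℕ), N ≤ m →
    (∀ i, v i ≤ m) → t.ev N v ≤ p.eval m := by
  induction t with
  | var i => exact ⟨Polynomial.X, fun N m v _ h => by rw [Polynomial.eval_X]; exact h i⟩
  | const c => exact ⟨Polynomial.C c, fun N m v _ h => by rw [Polynomial.eval_C]; exact le_rfl⟩
  | size => exact ⟨Polynomial.X, fun N m v hN _ => by rw [Polynomial.eval_X]; exact hN⟩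
  | add a b iha ihb =>
    obtain ⟨p, hp⟩ := iha
    obtain ⟨q, hq⟩ := ihb
    refine ⟨p + q, fun N m v hN h => ?_⟩
    rw [Polynomial.eval_add]
    exact Nat.add_le_add (hp N m v hN h) (hq N m v hN h)
  | mul a b iha ihb =>
    obtain ⟨p, hp⟩ := iha
    obtain ⟨q, hq⟩ := ihb
    refine ⟨p * q, fun N m v hN h => ?_⟩
    rw [Polynomial.eval_mul]
    exact Nat.mul_le_mul (hp N m v hN h) (hq N m v hN h)

theorem sodn_code_bd (l : List Te) : ∃ p : Polynomial ℕ, ∀ (N m : ℕ) (v : ℕ → ℕ), N ≤ m →
    (∀ i, v i ≤ m) → sodnCode (l.map (Te.ev N v)) < p.eval m := by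
  induction l with
  | nil => exact ⟨1, fun N m v _ _ => by simp [sodnCode]⟩
  | cons a l ih =>
    obtain ⟨p, hp⟩ := sodn_te_bd a
    obtain ⟨q, hq⟩ := ih
    refine ⟨(p + q) * (p + q) + p + 2, fun N m v hN h => ?_⟩
    have h1 := hp N m v hN h
    have h2 := (hq N m v hN h).le
    simp only [Polynomial.eval_add, Polynomial.eval_mul, Polynomial.eval_ofNat, List.map_cons,
      sodnCode]
    have h3 := Nat.mul_le_mul (Nat.add_le_add h1 h2) (Nat.add_le_add h1 h2)
    omega

theorem sodn_agree (φ : Ff) : ∃ p : Polynomial ℕ, ∀ (N m : ℕ) (v : ℕ → ℕ), N ≤ m →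
    (∀ i, v i ≤ m) → ∀ (R : ℕ → List ℕ → Prop) (C C' : List ℕ → Prop),
      (∀ l, sodnCode l < p.eval m → (C l ↔ C' l)) → (φ.Holds N R C v ↔ φ.Holds N R C' v) := by
  induction φ with
  | lt a b => exact ⟨0, fun N m v _ _ R C C' _ => Iff.rfl⟩
  | rel k l => exact ⟨0, fun N m v _ _ R C C' _ => Iff.rfl⟩
  | crt l =>
    obtain ⟨p, hp⟩ := sodn_code_bd l
    exact ⟨p, fun N m v hN h R C C' hC => hC _ (hp N m v hN h)⟩
  | neg f ih =>
    obtain ⟨p, hp⟩ := ih
    exact ⟨p, fun N m v hN h R C C' hC => not_congr (hp N m v hN h R C C' hC)⟩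
  | and f g ihf ihg =>
    obtain ⟨p, hp⟩ := ihf
    obtain ⟨q, hq⟩ := ihg
    refine ⟨p + q, fun N m v hN h R C C' hC => ?_⟩
    rw [Polynomial.eval_add] at hC
    exact and_congr (hp N m v hN h R C C' fun l hl => hC l (by omega))
      (hq N m v hN h R C C' fun l hl => hC l (by omega))
  | ex t f ih =>
    obtain ⟨p, hp⟩ := sodn_te_bd t
    obtain ⟨q, hq⟩ := ih
    refine ⟨q.comp (Polynomial.X + p), fun N m v hN h R C C' hC => ?_⟩
    rw [Polynomial.eval_comp, Polynomial.eval_add, Polynomial.eval_X] at hC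
    refine exists_congr fun a => and_congr_right fun ha => ?_
    refine hq N (m + p.eval m) (cns a v) (by omega) ?_ R C C' hC
    intro i
    have h1 := hp N m v hN h
    cases i with
    | zero => show a ≤ _; omega
    | succ j => show v j ≤ _; have := h j; omega

/-! ### The verifier -/

/-- The formula of the verifier. -/
def sodnPsi (φ : Ff) : Fm :=
  .ex 0 .len (.and (Fm.all 1 (.var 0) (.inp (.var 1))) (.and (.neg (.inp (.var 0))) (sodnFf 0 φ)))

theorem sodnPsi_holds {N : ℕ} {w c : List Bool} (hw : w.length = N + 2 + 3 * (N * N))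
    (h1 : ∀ i < N, w[i]? = some true) (h2 : w[N]? = some false) (φ : Ff) (u : ℕ → ℕ) :
    (sodnPsi φ).Holds (w ++ c) u ↔
      φ.Holds N (wordRel N w) (fun l => (c)[sodnCode l]? = some true) (fun _ => 0) := by
  have hM : ∀ u : ℕ → ℕ, SodnM N 0 (Function.update u 0 N) (fun _ => 0) := by
    intro u
    exact ⟨Function.update_self _ _ _, fun i hi => absurd hi (by omega), fun _ _ => rfl⟩
  simp only [sodnPsi, Fm.holds_ex, Fm.holds_and, Fm.holds_all, Fm.holds_neg, Fm.holds_inp,
    Tm.eval_var, Tm.eval_len]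
  constructor
  · rintro ⟨a, ha, h3, h4, h5⟩
    have haN : a = N := by
      rcases lt_trichotomy a N with h | h | h
      · exfalso
        apply h4
        rw [Function.update_self, sodn_get (by omega)]
        exact h1 a h
      · exact h
      · exfalso
        have h6 := h3 N (by rw [Function.update_self]; exact h)
        rw [Function.update_self, sodn_get (by omega), h2] at h6
        simp at h6
    subst haN
    exact (sodnFf_holds hw φ 0 _ _ (hM u)).1 h5
  · intro h
    refine ⟨N, ?_, ?_, ?_, (sodnFf_holds hw φ 0 _ _ (hM u)).2 h⟩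
    · rw [List.length_append]
      omega
    · intro i hi
      rw [Function.update_self] at hi
      rw [Function.update_self, sodn_get (by omega)]
      exact h1 i hi
    · rw [Function.update_self, sodn_get (by omega), h2]
      simp

variable {P : ℕ → (ℕ → List ℕ → Prop) → (ℕ → ℕ) → Prop}

theorem np_of_npd (h : NPd P) : ∃ (V : List Bool → Bool) (q : Polynomial ℕ),
    Nonempty (Turing.TM2ComputableInPolyTime (id : List Bool → List Bool) (fun b : Bool => [b]) V) ∧
    ∀ (N : ℕ) (w : List Bool), w.length = N + 2 + 3 * (N * N) → (∀ i < N, w[i]? = some true) →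
      w[N]? = some false →
      (P N (wordRel N w) (fun _ => 0) ↔
        ∃ c : List Bool, c.length ≤ q.eval N ∧ V (w ++ c) = true) := by
  classical
  obtain ⟨Q, ⟨φ, hφ⟩, hQ⟩ := h
  obtain ⟨q, hq⟩ := sodn_agree φ
  refine ⟨fun u => decide ((sodnPsi φ).Holds u (Function.update 0 0 0)), q, ?_, ?_⟩
  · refine bfm_enc id (fun b : Bool => [b]) _ (.const 1) .tt (sodnPsi φ) ?_
    intro u
    simp [bfmF]
  · intro N w hw h1 h2
    rw [hQ]
    simp only [hφ, decide_eq_true_iff]
    constructor
    · rintro ⟨C, hC⟩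
      refine ⟨(List.range (q.eval N)).map fun i => decide (∃ l, sodnCode l = i ∧ C l), ?_, ?_⟩
      · rw [List.length_map, List.length_range]
      · rw [sodnPsi_holds hw h1 h2]
        refine (hq N N (fun _ => 0) le_rfl (fun _ => Nat.zero_le _) _ _ _ ?_).1 hC
        intro l hl
        rw [List.getElem?_map, List.getElem?_range hl]
        simp only [Option.map_some, Option.some.injEq, decide_eq_true_iff]
        constructor
        · intro hl
          exact ⟨l, rfl, hl⟩
        · rintro ⟨l', h3, h4⟩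
          rw [← sodnCode_inj _ _ h3]
          exact h4
    · rintro ⟨c, -, hc⟩
      rw [sodnPsi_holds hw h1 h2] at hc
      exact ⟨_, hc⟩

end Pool.Agent.CHK
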