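import Pool.Agent.CHK.DefG
import Pool.Agent.CHK.Rot
import Pool.Agent.CHK.SodN
import Pool.Agent.CHK.SodE

set_option autoImplicit false

/-! Mate in 2 is in NP. -/

namespace Pool.Agent.CHK

/-- Membership in NP: a polynomial-time verifier `V` and certificates of polynomial length. -/
theorem mate_np : ∃ (V : List Bool → Bool) (q : Polynomial ℕ),
    Nonempty (Turing.TM2ComputableInPolyTime (id : List Bool → List Bool) (fun b : Bool => [b]) V) ∧
    ∀ p : Pos, MateIn2 p.N true p.side p.board ↔
      ∃ c : List Bool, c.length ≤ q.eval p.N ∧ V (encPos p ++ c) = true := by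
  have h1 : NPd (fun N R _ => (R 1 [] ∧ MateIn2 N true true (bd N R 0)) ∨
      (¬ R 1 [] ∧ MateIn2 N true true (rot N (bd N R 0)))) := by
    refine NPd.or (NPd.and (NPd.fo ?_) npd_mate) (NPd.and (NPd.fo ?_) (npd_mate_rot_of npd_mate))
    · exact FO.rel 1 [] (by simp)
    · exact FO.not (FO.rel 1 [] (by simp))
  obtain ⟨V, q, hV, h⟩ := np_of_npd h1
  refine ⟨V, q, hV, fun p => ?_⟩
  obtain ⟨e1, e2, e3⟩ := encPos_shape p
  rw [← h p.N (encPos p) e1 e2 e3, bd_word, side_word]
  cases hs : p.side
  · simpa using mate_rot p.N true p.board (fun z hz => p.valid z hz)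
  · simp

end Pool.Agent.CHK
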