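import Pool.Agent.CHK.Man
import Pool.Agent.CHK.EdgeF

set_option autoImplicit false

/-! The position of a layout and the first move. -/

namespace Pool.Agent.CHK

theorem pl_fill (m : ℕ) :
    ((vsq m (1, -3)).1 + 1, (vsq m (1, -3)).2 - 1) = esq m (1, -4, true) := by
  simp only [vsq, esq, Edge.lo, Prod.mk.injEq, if_true]
  constructor <;> ring

theorem pl_ne (l : Lay) (z : V) :
    ¬ ∃ e, (e ∈ l.E ∨ e = (1, -2, true)) ∧ vsq l.m z = esq l.m e := by
  rintro ⟨e, -, h⟩
  exact vsq_ne_esq h

theorem place_man (l : Lay) {z : V} (hz : z = (-1, 0) ∨ z = (1, -2) ∨ z = (1, -1)) :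
    l.place (vsq l.m z) = some ⟨true, false⟩ := by
  unfold Lay.place
  rw [if_neg (pl_ne l z), if_neg ?_, if_pos ?_]
  · rcases hz with rfl | rfl | rfl
    · exact Or.inl rfl
    · exact Or.inr (Or.inl rfl)
    · exact Or.inr (Or.inr (Or.inl rfl))
  · intro h
    have := vsq_inj h
    rcases hz with rfl | rfl | rfl <;> simp at this

theorem place_king (l : Lay) : l.place (vsq l.m (1, -3)) = some ⟨true, true⟩ := by
  unfold Lay.place
  rw [if_neg (pl_ne l _), if_pos rfl]

theorem place_fill (l : Lay) : l.place (esq l.m (1, -4, true)) = some ⟨true, false⟩ := by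
  unfold Lay.place
  rw [if_neg ?_, if_neg ?_, if_pos ?_]
  · rw [pl_fill]
    exact Or.inr (Or.inr (Or.inr rfl))
  · exact fun h => vsq_ne_esq h.symm
  · rintro ⟨e, he, h⟩
    have h1 := esq_inj h
    subst h1
    rcases he with he | he
    · exact (E_low l he).2.2.2.1 rfl
    · simp at he

theorem place_fits (l : Lay) :
    Fits l.m l.place {e | e ∈ l.E ∨ e = (1, -2, true)} {(1, -4, true)}
      {(-1, 0), (1, -2), (1, -1), (1, -3)} ∧
    l.place (vsq l.m (-1, 0)) = some ⟨true, false⟩ ∧
    l.place (vsq l.m (1, -2)) = some ⟨true, false⟩ ∧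
    l.place (vsq l.m (1, -1)) = some ⟨true, false⟩ ∧
    l.place (vsq l.m (1, -3)) = some ⟨true, true⟩ ∧
    l.place (esq l.m (1, -4, true)) = some ⟨true, false⟩ := by
  have h1 := place_man l (z := (-1, 0)) (Or.inl rfl)
  have h2 := place_man l (z := (1, -2)) (Or.inr (Or.inl rfl))
  have h3 := place_man l (z := (1, -1)) (Or.inr (Or.inr rfl))
  have h4 := place_king l
  have h5 := place_fill l
  refine ⟨⟨?_, ?_, ?_, ?_⟩, h1, h2, h3, h4, h5⟩
  · intro e he
    unfold Lay.place
    rw [if_pos ⟨e, he, rfl⟩]
  · intro e he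
    rw [Set.mem_singleton_iff] at he
    subst he
    exact ⟨_, h5, rfl⟩
  · intro z hz
    simp only [Set.mem_insert_iff, Set.mem_singleton_iff] at hz
    rcases hz with rfl | rfl | rfl | rfl
    · exact ⟨_, h1, rfl⟩
    · exact ⟨_, h2, rfl⟩
    · exact ⟨_, h3, rfl⟩
    · exact ⟨_, h4, rfl⟩
  · intro y P hy
    unfold Lay.place at hy
    split_ifs at hy with c1 c2 c3
    · obtain ⟨e, he, rfl⟩ := c1
      exact Or.inr ⟨e, Or.inl he, rfl⟩
    · exact Or.inl ⟨_, by simp, c2⟩
    · rcases c3 with c3 | c3 | c3 | c3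
      · exact Or.inl ⟨_, by simp, c3⟩
      · exact Or.inl ⟨_, by simp, c3⟩
      · exact Or.inl ⟨_, by simp, c3⟩
      · rw [pl_fill] at c3
        exact Or.inr ⟨_, Or.inr rfl, c3⟩

theorem pl_bnd (l : Lay) : Bnd l.m {e | e ∈ l.E ∨ e = (1, -2, true)} := by
  intro e he
  refine E_bnd l e ?_
  rcases he with he | he
  · exact Or.inl he
  · exact Or.inr (Or.inl he)

theorem place_on (l : Lay) : ∀ z, l.place z ≠ none → On (size l.m) z := by
  intro y hy
  obtain ⟨P, hP⟩ := Option.ne_none_iff_exists'.1 hy
  have hlen : (0 : ℤ) ≤ (len l.m : ℤ) := Int.natCast_nonneg _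
  rcases (place_fits l).1.only y P hP with ⟨z, hz, rfl⟩ | ⟨e, he, rfl⟩
  · simp only [Set.mem_insert_iff, Set.mem_singleton_iff] at hz
    have h : |z.1| ≤ 10 * ((len l.m : ℤ) + 1) + 1 ∧ |z.2| ≤ 10 * ((len l.m : ℤ) + 1) + 1 := by
      rcases hz with rfl | rfl | rfl | rfl <;> constructor <;> rw [abs_le] <;>
        constructor <;> simp only <;> omega
    exact (on_vsq h.1 h.2).1
  · have h : |e.1| ≤ 10 * ((len l.m : ℤ) + 1) + 1 ∧ |e.2.1| ≤ 10 * ((len l.m : ℤ) + 1) + 1 := by
      rcases he with he | he
      · have := pl_bnd l e he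
        exact ⟨this.1.trans (by omega), this.2.trans (by omega)⟩
      · rw [Set.mem_singleton_iff] at he
        subst he
        constructor <;> rw [abs_le] <;> constructor <;> simp only <;> omega
    exact (on_esq h.1 h.2).1

theorem pl_first {N : ℕ} {stop : Bool} {B B' : Board} {z : Sq} (h : Capture N stop B z B') :
    ∃ y B₁, Jump N B z y B₁ := by
  cases h with
  | last h _ => exact ⟨_, _, h⟩
  | next h _ _ => exact ⟨_, _, h⟩

theorem pl_lev (e : Edge) : lev e.hi = lev e.lo + 1 := by
  unfold Edge.hi lev Edge.lo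
  split_ifs <;> simp only <;> ring

theorem pl_up {F F' : Set Edge} {U U' : Set V}
    (hF : ∀ e ∈ F, e.hi ∉ U → -1 ≤ lev e.lo → e ∈ F' ∧ e.hi ∉ U') :
    ∀ (L : List Edge) (z z' : V), -1 ≤ lev z → UpWalk F U z L z' →
      UpWalk F' U' z L z' ∧ -1 + (L.length : ℤ) ≤ lev z' := by
  intro L
  induction L with
  | nil =>
    intro z z' hz h
    have h' : z = z' := h
    subst h'
    exact ⟨rfl, by simpa using hz⟩
  | cons e L ih =>
    intro z z' hz h
    obtain ⟨h1, h2, h3, h4⟩ := h
    have h5 := hF e h1 h3 (by rw [h2]; exact hz)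
    have h6 := pl_lev e
    rw [h2] at h6
    have h7 := ih e.hi z' (by omega) h4
    refine ⟨⟨h5.1, h2, h5.2, h7.1⟩, ?_⟩
    -- levels
    have key : ∀ (L : List Edge) (z z' : V), UpWalk F U z L z' →
        lev z' = lev z + (L.length : ℤ) := by
      intro L
      induction L with
      | nil =>
        intro z z' h
        have h' : z = z' := h
        subst h'
        simp
      | cons e L ih =>
        intro z z' h
        obtain ⟨-, h2, -, h4⟩ := h
        have h6 := pl_lev e
        have h8 := ih _ _ h4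
        rw [h2] at h6
        rw [h8, h6, List.length_cons]
        push_cast
        ring
    have h9 := key _ _ _ h4
    rw [h9, h6, List.length_cons]
    push_cast
    omega

/-- The first move: exactly the captures of the man on `(-1, 0)`. -/
theorem first_move (l : Lay) (stop : Bool) (B : Board) :
    Move (size l.m) stop true l.place B ↔
      ∃ T u, UpWalk l.E ∅ (-1, 0) T u ∧ (∀ e ∈ l.E, e.lo ≠ u) ∧
        B = aft l.m l.place (-1, 0) {e | e ∈ T} u := by
  obtain ⟨hfit, hp1, hp2, hp3, hp4, hp5⟩ := place_fits l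
  have hbnd := pl_bnd l
  have hU : (-1, 0) ∈ ({(-1, 0), (1, -2), (1, -1), (1, -3)} : Set V) := by simp
  have hE0 : ((-1, 0, false) : Edge) ∈ l.E := E_extra l (by simp [Extra])
  -- edges of the drawing do not enter `U` from the levels `≥ -1`
  have hhi : ∀ e ∈ l.E, -1 ≤ lev e.lo → e.hi ∉ ({(-1, 0), (1, -2), (1, -1), (1, -3)} : Set V) := by
    intro e he hl hh
    have h1 := E_low l he
    simp only [Set.mem_insert_iff, Set.mem_singleton_iff] at hh
    rcases hh with hh | hh | hh | hh
    · exact h1.2.2.2.2.2.1 hh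
    · have h2 := pl_lev e
      rw [hh] at h2
      have h3 : lev (1, -2) = -1 := by simp [lev]
      omega
    · exact h1.2.2.2.2.1 hh
    · exact h1.2.2.2.1 hh
  have hl0 : lev (-1, 0) = -1 := by simp [lev]
  constructor
  · rintro (⟨y, P, hP, hw, hC⟩ | ⟨hno, -⟩)
    · obtain ⟨y', B₁, hJ⟩ := pl_first hC
      rcases hfit.only y P hP with ⟨z, hz, rfl⟩ | ⟨e, he, rfl⟩
      · simp only [Set.mem_insert_iff, Set.mem_singleton_iff] at hz
        rcases hz with rfl | rfl | rfl | rfl
        · -- the man on (-1, 0)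
          obtain ⟨L, z', hL, hW, hmax, hB⟩ := man_nec hfit hbnd hU hp1 hC
          have hW' := pl_up (F' := l.E) (U' := ∅) (by
            rintro e (he | rfl) hh hl
            · exact ⟨he, by simp⟩
            · exfalso
              apply hh
              simp [Edge.hi]) L _ _ (by rw [hl0]) hW
          refine ⟨L, z', hW'.1, ?_, hB⟩
          intro e he hez
          have h1 := hmax e (Or.inl he) hez
          have h2 : (1 : ℤ) ≤ (L.length : ℤ) := by
            have := List.length_pos_iff.2 hL
            omega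
          exact hhi e he (by rw [hez]; have := hW'.2; omega) h1
        · exfalso
          rw [jump_white hfit hbnd (by simp) hp2] at hJ
          rcases hJ with ⟨e, he, h1, h2, -⟩ | ⟨h, -⟩
          · rcases he with he | rfl
            · exact (E_low l he).2.1 h1
            · apply h2
              simp [Edge.hi]
          · simp at h
        · exfalso
          rw [jump_white hfit hbnd (by simp) hp3] at hJ
          rcases hJ with ⟨e, he, h1, h2, -⟩ | ⟨h, -⟩
          · rcases he with he | rfl
            · exact (E_low l he).2.2.1 h1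
            · simp [Edge.lo] at h1
          · simp at h
        · exfalso
          rw [jump_white hfit hbnd (by simp) hp4] at hJ
          rcases hJ with ⟨e, he, h1, h2, -⟩ | ⟨-, e, he, h1, -⟩
          · rcases he with he | rfl
            · exact (E_low l he).1 h1
            · simp [Edge.lo] at h1
          · rcases he with he | rfl
            · exact (E_low l he).2.2.2.1 h1
            · simp [Edge.hi] at h1
      · exfalso
        rcases he with he | he
        · rw [hfit.black e he] at hP
          simp only [Option.some.injEq] at hP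
          subst hP
          simp at hw
        · exact jump_fill hfit he _ _ hJ
    · exfalso
      refine hno (vsq l.m (-1, 0)) ⟨true, false⟩ (vsq l.m (0, 0))
        (aft l.m l.place (-1, 0) {(-1, 0, false)} (0, 0)) hp1 rfl ?_
      rw [jump_white hfit hbnd hU hp1]
      left
      refine ⟨(-1, 0, false), Or.inl hE0, rfl, ?_, ?_, ?_⟩
      · exact hhi _ hE0 (by simp [lev, Edge.lo])
      · simp [Edge.hi]
      · simp [Edge.hi]
  · rintro ⟨T, u, hT, hu, rfl⟩
    left
    have hT0 : T ≠ [] := by
      rintro rfl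
      have h' : ((-1, 0) : V) = u := hT
      subst h'
      exact hu _ hE0 rfl
    have hT' := pl_up (F' := {e | e ∈ l.E ∨ e = (1, -2, true)})
      (U' := {(-1, 0), (1, -2), (1, -1), (1, -3)})
      (fun e he _ hl => ⟨Or.inl he, hhi e he hl⟩) T _ _ (by rw [hl0]) hT
    refine ⟨vsq l.m (-1, 0), ⟨true, false⟩, hp1, rfl, ?_⟩
    refine man_suf hfit hbnd hU hp1 hT0 hT'.1 ?_
    rintro e (he | rfl) hez
    · exact absurd hez (hu e he)
    · exfalso
      have h1 : (1 : ℤ) ≤ (T.length : ℤ) := by
        have := List.length_pos_iff.2 hT0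
        omega
      have h2 := hT'.2
      rw [← hez] at h2
      have h3 : lev (Edge.lo (1, -2, true)) = -1 := by simp [lev, Edge.lo]
      omega

end Pool.Agent.CHK
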