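import Pool.Agent.CHK.Lat

set_option autoImplicit false

/-! Different combs have no common vertex. -/

namespace Pool.Agent.CHK

/-- The auxiliary half of `planar_cases`. -/
theorem plan_gap {r : ℕ → ℕ → Bool} (hp : Planar r) {c c' s₁ s₂ t₁ t₂ : ℕ} (hc : c ≠ c')
    (hs₁ : IsFirst (r c) s₁) (hs₂ : IsLast (r c) s₂) (ht₁ : IsFirst (r c') t₁)
    (ht₂ : IsLast (r c') t₂) (h1 : s₁ < t₁) (h2 : t₁ < s₂) :
    ∃ s t, IsNext (r c) s t ∧ s < t₁ ∧ t₂ < t := by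
  have hex : ∃ t, r c t = true ∧ t₁ ≤ t := ⟨s₂, hs₂.1, h2.le⟩
  classical
  obtain ⟨ht, ht'⟩ := Nat.find_spec hex
  set t := Nat.find hex with htdef
  set s := Nat.findGreatest (fun s => r c s = true ∧ s < t₁) t₁ with hsdef
  have hs : r c s = true ∧ s < t₁ :=
    Nat.findGreatest_spec (P := fun s => r c s = true ∧ s < t₁) h1.le ⟨hs₁.1, h1⟩
  have htne : t ≠ t₁ := by
    intro h
    rw [h] at ht
    exact hc (hp.1 c c' t₁ ht ht₁.1)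
  have htlt : t₁ < t := lt_of_le_of_ne ht' (Ne.symm htne)
  refine ⟨s, t, ⟨hs.1, ht, by omega, ?_⟩, hs.2, ?_⟩
  · intro u hu
    by_cases h : u < t₁
    · left
      exact Nat.le_findGreatest h.le ⟨hu, h⟩
    · right
      exact Nat.find_min' hex ⟨hu, by omega⟩
  · by_contra h
    have hne : t ≠ t₂ := by
      intro h'
      rw [h'] at ht
      exact hc (hp.1 c c' t₂ ht ht₂.1)
    have h3 := hp.2 c c' s t₁ t t₂ hc hs.2 htlt (by omega) hs.1 ht₁.1 ht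
    rw [ht₂.1] at h3
    exact Bool.noConfusion h3

theorem planar_cases {r : ℕ → ℕ → Bool} (hp : Planar r) {c c' s₁ s₂ t₁ t₂ : ℕ} (hc : c ≠ c')
    (hs₁ : IsFirst (r c) s₁) (hs₂ : IsLast (r c) s₂) (ht₁ : IsFirst (r c') t₁)
    (ht₂ : IsLast (r c') t₂) :
    s₂ < t₁ ∨ t₂ < s₁ ∨ (∃ s t, IsNext (r c) s t ∧ s < t₁ ∧ t₂ < t) ∨
      ∃ s t, IsNext (r c') s t ∧ s < s₁ ∧ s₂ < t := by
  by_cases h1 : s₂ < t₁
  · exact Or.inl h1
  by_cases h2 : t₂ < s₁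
  · exact Or.inr (Or.inl h2)
  right; right
  have hd : ∀ a b, r c a = true → r c' b = true → a ≠ b := by
    intro a b ha hb h
    rw [h] at ha
    exact hc (hp.1 c c' b ha hb)
  have h3 := hd s₁ t₁ hs₁.1 ht₁.1
  have h4 := hd s₂ t₁ hs₂.1 ht₁.1
  have h5 := hd s₁ t₂ hs₁.1 ht₂.1
  by_cases h6 : s₁ < t₁
  · left
    exact plan_gap hp hc hs₁ hs₂ ht₁ ht₂ h6 (by omega)
  · right
    exact plan_gap hp (Ne.symm hc) ht₁ ht₂ hs₁ hs₂ (by omega) (by omega)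

theorem plan_ca {m s t : ℕ} (h : s ≤ t) : ca m s + 2 * ((t : ℤ) - s) ≤ ca m t := by
  have h1 : s / m ≤ t / m := Nat.div_le_div_right h
  have h2 : ((s / m : ℕ) : ℤ) ≤ ((t / m : ℕ) : ℤ) := by exact_mod_cast h1
  unfold ca
  linarith

/-- The position of the vertices of a comb. -/
theorem plan_vertex {m : ℕ} {r : ℕ → Bool} {e : Edge} (he : e ∈ Comb m r) {z : V}
    (hz : Inc z e) : ∃ s₁ s₂ : ℕ, IsFirst r s₁ ∧ IsLast r s₂ ∧ trunk m s₁ s₂ ≤ z.1 ∧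
      ((∃ s, r s = true ∧ (z.2 = cb m s ∨ z.2 = cb m s + 1)) ∨
        ((z.1 = trunk m s₁ s₂ ∨ z.1 = trunk m s₁ s₂ + 1) ∧ cb m s₁ ≤ z.2 ∧
          z.2 ≤ cb m s₂ + 1)) := by
  obtain ⟨s₁, s₂, h1, h2, x, h⟩ := he
  have h12 : s₁ ≤ s₂ := h1.2 _ h2.1
  refine ⟨s₁, s₂, h1, h2, ?_⟩
  have hz' : (e.1, e.2.1) = z ∨ (if e.2.2 then (e.1, e.2.1 + 1) else (e.1 + 1, e.2.1)) = z := hz
  rcases h with ⟨s, hs, rfl, h3, h4, h5⟩ | ⟨s, hs, rfl, h3, h4, h5⟩ | ⟨s, hs, rfl⟩ |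
    ⟨rfl, h3, h4⟩ | ⟨s, t, hst, rfl, h3, h4⟩
  · rcases hz' with rfl | rfl
    · exact ⟨h3, Or.inl ⟨s, hs, Or.inl rfl⟩⟩
    · refine ⟨?_, Or.inl ⟨s, hs, Or.inl ?_⟩⟩
      · simp
        omega
      · simp
  · rcases hz' with rfl | rfl
    · exact ⟨h3, Or.inl ⟨s, hs, Or.inr rfl⟩⟩
    · refine ⟨?_, Or.inl ⟨s, hs, Or.inr ?_⟩⟩
      · simp
        omega
      · simp
  · have h6 := plan_ca (m := m) (h1.2 s hs)
    have h7 : (s₁ : ℤ) ≤ s := by exact_mod_cast h1.2 s hs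
    have h8 : (s₁ : ℤ) ≤ s₂ := by exact_mod_cast h12
    have h9 : trunk m s₁ s₂ ≤ ca m s := by
      unfold trunk
      linarith
    rcases hz' with rfl | rfl
    · exact ⟨h9, Or.inl ⟨s, hs, Or.inl rfl⟩⟩
    · exact ⟨by simpa using h9, Or.inl ⟨s, hs, Or.inr (by simp)⟩⟩
  · rcases hz' with rfl | rfl
    · exact ⟨le_rfl, Or.inr ⟨Or.inl rfl, h3, by simp; omega⟩⟩
    · exact ⟨by simp, Or.inr ⟨Or.inl (by simp), by simp; omega, by simp; omega⟩⟩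
  · have h6 := plan_ca (m := m) (h1.2 s hst.1)
    have h7 := plan_ca (m := m) (h2.2 t hst.2.1)
    have h8 : (s₁ : ℤ) ≤ s := by exact_mod_cast h1.2 s hst.1
    have h9 : (t : ℤ) ≤ s₂ := by exact_mod_cast h2.2 t hst.2.1
    unfold cb at *
    rcases hz' with rfl | rfl
    · exact ⟨by simp, Or.inr ⟨Or.inr rfl, by simp; linarith, by simp; linarith⟩⟩
    · exact ⟨by simp, Or.inr ⟨Or.inr (by simp), by simp; linarith, by simp; linarith⟩⟩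

/-- The vertices of a comb lie in the rows between its first and its last leg. -/
theorem plan_rows {m : ℕ} {r : ℕ → Bool} {s₁ s₂ : ℕ} (h1 : IsFirst r s₁) (h2 : IsLast r s₂)
    {z : V} (h : (∃ s, r s = true ∧ (z.2 = cb m s ∨ z.2 = cb m s + 1)) ∨
        ((z.1 = trunk m s₁ s₂ ∨ z.1 = trunk m s₁ s₂ + 1) ∧ cb m s₁ ≤ z.2 ∧
          z.2 ≤ cb m s₂ + 1)) : cb m s₁ ≤ z.2 ∧ z.2 ≤ cb m s₂ + 1 := by
  rcases h with ⟨s, hs, h3⟩ | ⟨_, h3⟩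
  · have h6 := plan_ca (m := m) (h1.2 s hs)
    have h7 := plan_ca (m := m) (h2.2 s hs)
    have h8 : (s₁ : ℤ) ≤ s := by exact_mod_cast h1.2 s hs
    have h9 : (s : ℤ) ≤ s₂ := by exact_mod_cast h2.2 s hs
    unfold cb at *
    rcases h3 with h3 | h3 <;> rw [h3] <;> constructor <;> linarith
  · exact h3

theorem plan_cb_lt {m s t : ℕ} (h : s < t) : cb m s + 2 ≤ cb m t := by
  have h1 := plan_ca (m := m) h.le
  have h2 : (s : ℤ) + 1 ≤ t := by exact_mod_cast h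
  unfold cb
  linarith

/-- The case in which the second comb lies in a gap of the first one. -/
theorem plan_comb_gap {m : ℕ} {r r' : ℕ → Bool} {s₁ s₂ t₁ t₂ : ℕ} (hs₁ : IsFirst r s₁)
    (hs₂ : IsLast r s₂) (ht₁ : IsFirst r' t₁) (ht₂ : IsLast r' t₂) {z : V}
    (h : (∃ s, r s = true ∧ (z.2 = cb m s ∨ z.2 = cb m s + 1)) ∨
        ((z.1 = trunk m s₁ s₂ ∨ z.1 = trunk m s₁ s₂ + 1) ∧ cb m s₁ ≤ z.2 ∧
          z.2 ≤ cb m s₂ + 1))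
    (h' : cb m t₁ ≤ z.2 ∧ z.2 ≤ cb m t₂ + 1) (h'' : trunk m t₁ t₂ ≤ z.1) {s t : ℕ}
    (hst : IsNext r s t) (h1 : s < t₁) (h2 : t₂ < t) : False := by
  have h12 : t₁ ≤ t₂ := ht₁.2 _ ht₂.1
  rcases h with ⟨u, hu, h3⟩ | ⟨h3, _⟩
  · rcases hst.2.2.2 u hu with h4 | h4
    · have h5 := plan_cb_lt (m := m) (lt_of_le_of_lt h4 h1)
      omega
    · have h5 := plan_cb_lt (m := m) (lt_of_lt_of_le h2 h4)
      omega
  · have h4 : s₁ ≤ s := hs₁.2 _ hst.1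
    have h5 : t ≤ s₂ := hs₂.2 _ hst.2.1
    have h6 := plan_ca (m := m) (show s₁ ≤ t₁ by omega)
    unfold trunk at *
    omega

theorem comb_comb {m : ℕ} {r : ℕ → ℕ → Bool} (hp : Planar r)
    (hr : ∀ c s, r c s = true → s < m * m) {c c' : ℕ} (hc : c ≠ c') {e e' : Edge}
    (he : e ∈ Comb m (r c)) (he' : e' ∈ Comb m (r c')) {z : V} (hz : Inc z e)
    (hz' : Inc z e') : False := by
  obtain ⟨s₁, s₂, hs₁, hs₂, h1, h2⟩ := plan_vertex he hz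
  obtain ⟨t₁, t₂, ht₁, ht₂, h3, h4⟩ := plan_vertex he' hz'
  have h5 := plan_rows hs₁ hs₂ h2
  have h6 := plan_rows ht₁ ht₂ h4
  rcases planar_cases hp hc hs₁ hs₂ ht₁ ht₂ with h7 | h7 | ⟨s, t, hst, h7, h8⟩ |
    ⟨s, t, hst, h7, h8⟩
  · have := plan_cb_lt (m := m) h7
    omega
  · have := plan_cb_lt (m := m) h7
    omega
  · exact plan_comb_gap hs₁ hs₂ ht₁ ht₂ h2 h6 h3 hst h7 h8
  · exact plan_comb_gap ht₁ ht₂ hs₁ hs₂ h4 h5 h1 hst h7 h8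

end Pool.Agent.CHK
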