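import Pool.Agent.CHK.EdgeF
import Pool.Agent.CHK.Walk

set_option autoImplicit false

/-! Upward walks of the man. -/

namespace Pool.Agent.CHK

theorem sh_lo (e : Edge) : (mirror e).lo = e.lo.swap := by
  obtain ⟨p, q, b⟩ := e
  rfl

theorem sh_hi (e : Edge) : (mirror e).hi = e.hi.swap := by
  obtain ⟨p, q, b⟩ := e
  cases b <;> rfl

theorem sh_side (l : Lay) {i k : ℕ} (hi : i < l.m) (hk : k < 4 * l.m + 8) : se l.m i k ∈ l.E :=
  Or.inl ⟨i, hi, Or.inl ((mem_side l.m i _).2 ⟨k, hk, rfl⟩)⟩

theorem sh_side' (l : Lay) {i k : ℕ} (hi : i < l.m) (hk : k < 4 * l.m + 8) :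
    mirror (se l.m i k) ∈ l.E :=
  Or.inl ⟨i, hi, Or.inr ((mem_side l.m i _).2 ⟨k, hk, ea_mirror_mirror _⟩)⟩

/-- The walk from the vertex number `k` of a left side. -/
theorem sh_left (l : Lay) {u : V} (hu : ∀ e ∈ l.E, e.lo ≠ u) {i : ℕ} (hi : i < l.m) (n : ℕ) :
    ∀ (k : ℕ) (T : List Edge), k + n = 4 * l.m + 8 → 0 < k → UpWalk l.E ∅ (sv l.m i k) T u →
      (∃ c s, l.pos c s = true ∧ u = (ca l.m s, cb l.m s + 1)) ∨
        ∃ T₁ T₂, T = T₁ ++ T₂ ∧ (∀ j, k ≤ j → j < 4 * l.m + 8 → se l.m i j ∈ T₁) ∧
          (∀ e ∈ T₁, e ∈ Side l.m i) ∧ UpWalk l.E ∅ (bs l.m (i + 1), bs l.m (i + 1)) T₂ u := by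
  induction n with
  | zero =>
    intro k T hk h0 hT
    right
    have hk' : k = 4 * l.m + 8 := by omega
    subst hk'
    rw [sv_last] at hT
    exact ⟨[], T, rfl, fun j h1 h2 => by omega, by simp, hT⟩
  | succ n ih =>
    intro k T hk h0 hT
    have hk' : k < 4 * l.m + 8 := by omega
    cases T with
    | nil =>
      simp only [UpWalk] at hT
      exact (hu _ (sh_side l hi hk') (by rw [se_lo]; exact hT)).elim
    | cons e T =>
      simp only [UpWalk] at hT
      obtain ⟨he, hlo, -, hT⟩ := hT
      rcases E_left l he hi h0 hk' hlo with rfl | ⟨c, s, hs, -, rfl⟩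
      · rw [se_hi _ _ _ hk'] at hT
        rcases ih (k + 1) T (by omega) (by omega) hT with h | ⟨T₁, T₂, rfl, h1, h2, h3⟩
        · exact Or.inl h
        · refine Or.inr ⟨se l.m i k :: T₁, T₂, rfl, ?_, ?_, h3⟩
          · intro j hj hj'
            rcases Nat.eq_or_lt_of_le hj with rfl | hj
            · exact List.mem_cons_self ..
            · exact List.mem_cons_of_mem _ (h1 j hj hj')
          · intro e he
            rcases List.mem_cons.1 he with rfl | he
            · exact (mem_side l.m i _).2 ⟨k, hk', rfl⟩
            · exact h2 e he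
      · left
        have hh : Edge.hi (ca l.m s, cb l.m s, true) = (ca l.m s, cb l.m s + 1) := rfl
        rw [hh] at hT
        cases T with
        | nil =>
          simp only [UpWalk] at hT
          exact ⟨c, s, hs, hT.symm⟩
        | cons e' T =>
          simp only [UpWalk] at hT
          exact ((E_stub l hT.1 c s).1 hs hT.2.1).elim

/-- The walk from the vertex number `k` of a right side. -/
theorem sh_right (l : Lay) {u : V} (hu : ∀ e ∈ l.E, e.lo ≠ u) {i : ℕ} (hi : i < l.m) (n : ℕ) :
    ∀ (k : ℕ) (T : List Edge), k + n = 4 * l.m + 8 → 0 < k →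
      UpWalk l.E ∅ (sv l.m i k).swap T u →
      (∃ c s, l.neg c s = true ∧ u = (cb l.m s + 1, ca l.m s)) ∨
        ∃ T₁ T₂, T = T₁ ++ T₂ ∧ (∀ j, k ≤ j → j < 4 * l.m + 8 → mirror (se l.m i j) ∈ T₁) ∧
          (∀ e ∈ T₁, mirror e ∈ Side l.m i) ∧
            UpWalk l.E ∅ (bs l.m (i + 1), bs l.m (i + 1)) T₂ u := by
  induction n with
  | zero =>
    intro k T hk h0 hT
    right
    have hk' : k = 4 * l.m + 8 := by omega
    subst hk'
    rw [sv_last] at hT
    exact ⟨[], T, rfl, fun j h1 h2 => by omega, by simp, hT⟩
  | succ n ih =>
    intro k T hk h0 hT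
    have hk' : k < 4 * l.m + 8 := by omega
    cases T with
    | nil =>
      simp only [UpWalk] at hT
      exact (hu _ (sh_side' l hi hk') (by rw [sh_lo, se_lo]; exact hT)).elim
    | cons e T =>
      simp only [UpWalk] at hT
      obtain ⟨he, hlo, -, hT⟩ := hT
      rcases E_right l he hi h0 hk' hlo with h | ⟨c, s, hs, -, h⟩
      · have he' : e = mirror (se l.m i k) := by rw [← h, ea_mirror_mirror]
        subst he'
        rw [sh_hi, se_hi _ _ _ hk'] at hT
        rcases ih (k + 1) T (by omega) (by omega) hT with h | ⟨T₁, T₂, rfl, h1, h2, h3⟩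
        · exact Or.inl h
        · refine Or.inr ⟨mirror (se l.m i k) :: T₁, T₂, rfl, ?_, ?_, h3⟩
          · intro j hj hj'
            rcases Nat.eq_or_lt_of_le hj with rfl | hj
            · exact List.mem_cons_self ..
            · exact List.mem_cons_of_mem _ (h1 j hj hj')
          · intro e he
            rcases List.mem_cons.1 he with rfl | he
            · rw [ea_mirror_mirror]
              exact (mem_side l.m i _).2 ⟨k, hk', rfl⟩
            · exact h2 e he
      · left
        have he' : e = (cb l.m s, ca l.m s, false) := by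
          rw [← ea_mirror_mirror e, h]; rfl
        subst he'
        have hh : Edge.hi (cb l.m s, ca l.m s, false) = (cb l.m s + 1, ca l.m s) := rfl
        rw [hh] at hT
        cases T with
        | nil =>
          simp only [UpWalk] at hT
          exact ⟨c, s, hs, hT.symm⟩
        | cons e' T =>
          simp only [UpWalk] at hT
          exact ((E_stub l hT.1 c s).2 hs hT.2.1).elim

/-- The walk from the base point number `i`. -/
theorem sh_base (l : Lay) {u : V} (hu : ∀ e ∈ l.E, e.lo ≠ u) (n : ℕ) :
    ∀ (i : ℕ) (T : List Edge), i + n = l.m → UpWalk l.E ∅ (bs l.m i, bs l.m i) T u →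
      (∃ c s, l.pos c s = true ∧ u = (ca l.m s, cb l.m s + 1)) ∨
      (∃ c s, l.neg c s = true ∧ u = (cb l.m s + 1, ca l.m s)) ∨
      ((∀ j, i ≤ j → j < l.m → (∀ e ∈ Side l.m j, e ∈ T) ∨ ∀ e, mirror e ∈ Side l.m j → e ∈ T) ∧
        ∀ e ∈ T, ∀ c, e ∉ Comb l.m (l.pos c) ∧ mirror e ∉ Comb l.m (l.neg c)) := by
  have hpl : ∀ c s, l.pos c s = true → s < l.m * l.m := fun c s h => (l.pos_lt c s h).2
  have hnl : ∀ c s, l.neg c s = true → s < l.m * l.m := fun c s h => (l.neg_lt c s h).2
  induction n with
  | zero =>
    intro i T hi hT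
    have hi' : i = l.m := by omega
    subst hi'
    right; right
    refine ⟨fun j h1 h2 => by omega, ?_⟩
    cases T with
    | nil => simp
    | cons e T =>
      simp only [UpWalk] at hT
      obtain ⟨he, hlo, -, hT⟩ := hT
      have hex : e ∈ Extra l.m := by
        rcases (E_top l he).1 hlo with rfl | rfl
        · simp [Extra]
        · simp [Extra]
      have hT' : T = [] := by
        cases T with
        | nil => rfl
        | cons e' T =>
          exfalso
          simp only [UpWalk] at hT
          rcases (E_top l he).1 hlo with rfl | rfl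
          · exact (E_top l hT.1).2.1 hT.2.1
          · exact (E_top l hT.1).2.2.1 hT.2.1
      subst hT'
      intro e' he' c
      rw [List.mem_singleton] at he'
      subst he'
      have h := (E_disj l).2 hex
      exact ⟨fun h' => h.1 (Or.inr ⟨c, h'⟩), fun h' => h.2 (Or.inr ⟨c, h'⟩)⟩
  | succ n ih =>
    intro i T hi hT
    have hi' : i < l.m := by omega
    cases T with
    | nil =>
      simp only [UpWalk] at hT
      exact (hu _ (sh_side l hi' (k := 0) (by omega)) (by rw [se_lo, sv_zero]; exact hT)).elim
    | cons e T =>
      simp only [UpWalk] at hT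
      obtain ⟨he, hlo, -, hT⟩ := hT
      rcases E_base l he hi' hlo with rfl | h
      · rw [se_hi _ _ _ (by omega)] at hT
        rcases sh_left l hu hi' (4 * l.m + 7) 1 T (by omega) (by omega) hT with
          h | ⟨T₁, T₂, rfl, h1, h2, h3⟩
        · exact Or.inl h
        · rcases ih (i + 1) T₂ (by omega) h3 with h | h | ⟨h4, h5⟩
          · exact Or.inl h
          · exact Or.inr (Or.inl h)
          · right; right
            refine ⟨?_, ?_⟩
            · intro j hj hj'
              rcases Nat.eq_or_lt_of_le hj with rfl | hj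
              · left
                intro e he
                obtain ⟨k, hk, rfl⟩ := (mem_side l.m i e).1 he
                rcases Nat.eq_zero_or_pos k with rfl | hk0
                · exact List.mem_cons_self ..
                · exact List.mem_cons_of_mem _ (List.mem_append_left _ (h1 k hk0 hk))
              · rcases h4 j hj hj' with h | h
                · exact Or.inl fun e he =>
                    List.mem_cons_of_mem _ (List.mem_append_right _ (h e he))
                · exact Or.inr fun e he =>
                    List.mem_cons_of_mem _ (List.mem_append_right _ (h e he))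
            · intro e he c
              have hside : e ∈ Side l.m i → e ∉ Comb l.m (l.pos c) ∧
                  mirror e ∉ Comb l.m (l.neg c) := fun hs =>
                ⟨(half_disj l.pos_planar hpl).2.1 i c hi' hs, fun h' =>
                  (E_disj l).1 (Or.inl ⟨i, hi', hs⟩) (Or.inr ⟨c, h'⟩)⟩
              rcases List.mem_cons.1 he with rfl | he
              · exact hside ((mem_side l.m i _).2 ⟨0, by omega, rfl⟩)
              · rcases List.mem_append.1 he with he | he
                · exact hside (h2 e he)
                · exact h5 e he c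
      · have he' : e = mirror (se l.m i 0) := by rw [← h, ea_mirror_mirror]
        subst he'
        rw [sh_hi, se_hi _ _ _ (by omega)] at hT
        rcases sh_right l hu hi' (4 * l.m + 7) 1 T (by omega) (by omega) hT with
          h | ⟨T₁, T₂, rfl, h1, h2, h3⟩
        · exact Or.inr (Or.inl h)
        · rcases ih (i + 1) T₂ (by omega) h3 with h | h | ⟨h4, h5⟩
          · exact Or.inl h
          · exact Or.inr (Or.inl h)
          · right; right
            refine ⟨?_, ?_⟩
            · intro j hj hj'
              rcases Nat.eq_or_lt_of_le hj with rfl | hj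
              · right
                intro e he
                obtain ⟨k, hk, hk'⟩ := (mem_side l.m i _).1 he
                have he' : e = mirror (se l.m i k) := by rw [← hk', ea_mirror_mirror]
                subst he'
                rcases Nat.eq_zero_or_pos k with rfl | hk0
                · exact List.mem_cons_self ..
                · exact List.mem_cons_of_mem _ (List.mem_append_left _ (h1 k hk0 hk))
              · rcases h4 j hj hj' with h | h
                · exact Or.inl fun e he =>
                    List.mem_cons_of_mem _ (List.mem_append_right _ (h e he))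
                · exact Or.inr fun e he =>
                    List.mem_cons_of_mem _ (List.mem_append_right _ (h e he))
            · intro e he c
              have hside : mirror e ∈ Side l.m i → e ∉ Comb l.m (l.pos c) ∧
                  mirror e ∉ Comb l.m (l.neg c) := fun hs =>
                ⟨fun h' => (E_disj l).1 (Or.inr ⟨c, h'⟩) (Or.inl ⟨i, hi', hs⟩),
                  (half_disj l.neg_planar hnl).2.1 i c hi' hs⟩
              rcases List.mem_cons.1 he with rfl | he
              · refine hside ?_
                rw [ea_mirror_mirror]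
                exact (mem_side l.m i _).2 ⟨0, by omega, rfl⟩
              · rcases List.mem_append.1 he with he | he
                · exact hside (h2 e he)
                · exact h5 e he c

theorem shape (l : Lay) {T : List Edge} {u : V} (hT : UpWalk l.E ∅ (-1, 0) T u)
    (hu : ∀ e ∈ l.E, e.lo ≠ u) :
    (∃ c s, l.pos c s = true ∧ u = (ca l.m s, cb l.m s + 1)) ∨
      (∃ c s, l.neg c s = true ∧ u = (cb l.m s + 1, ca l.m s)) ∨
      ((∀ i < l.m, (∀ e ∈ Side l.m i, e ∈ T) ∨ ∀ e, mirror e ∈ Side l.m i → e ∈ T) ∧
        ∀ e ∈ T, ∀ c, e ∉ Comb l.m (l.pos c) ∧ mirror e ∉ Comb l.m (l.neg c)) := by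
  cases T with
  | nil =>
    simp only [UpWalk] at hT
    exact (hu (-1, 0, false) (E_extra l (by simp [Extra])) hT).elim
  | cons e T =>
    simp only [UpWalk] at hT
    obtain ⟨he, hlo, -, hT⟩ := hT
    have he' := (E_low l he).2.2.2.2.2.2 hlo
    subst he'
    have h0 : Edge.hi (-1, 0, false) = (bs l.m 0, bs l.m 0) := by
      simp [Edge.hi, bs]
    rw [h0] at hT
    rcases sh_base l hu l.m 0 T (by omega) hT with h | h | ⟨h1, h2⟩
    · exact Or.inl h
    · exact Or.inr (Or.inl h)
    · right; right
      refine ⟨?_, ?_⟩
      · intro i hi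
        rcases h1 i (Nat.zero_le i) hi with h | h
        · exact Or.inl fun e he => List.mem_cons_of_mem _ (h e he)
        · exact Or.inr fun e he => List.mem_cons_of_mem _ (h e he)
      · intro e he c
        rcases List.mem_cons.1 he with rfl | he
        · have hex : ((-1, 0, false) : Edge) ∈ Extra l.m := by simp [Extra]
          have h := (E_disj l).2 hex
          exact ⟨fun h' => h.1 (Or.inr ⟨c, h'⟩), fun h' => h.2 (Or.inr ⟨c, h'⟩)⟩
        · exact h2 e he c

end Pool.Agent.CHK
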