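import Pool.Agent.CHK.Lat

set_option autoImplicit false

/-! Module SIDE: the sides of the variables. -/

namespace Pool.Agent.CHK

theorem se_lo (m i k : ℕ) : (se m i k).lo = sv m i k := rfl

private lemma bs_succ (m i : ℕ) : bs m (i + 1) = bs m i + 2 * (m : ℤ) + 4 := by
  unfold bs
  push_cast
  ring

private lemma sv_fst (m i k : ℕ) : (sv m i k).1 =
    if k ≤ 4 then bs m i
    else if k ≤ 4 * m + 4 then
      bs m i + 2 * (((k - 4) / 4 : ℕ) : ℤ) + ((min ((k - 4) % 4) 2 : ℕ) : ℤ)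
    else bs m i + 2 * (m : ℤ) + ((k - 4 - 4 * m : ℕ) : ℤ) := by
  unfold sv
  split_ifs <;> rfl

private lemma sv_snd (m i k : ℕ) : (sv m i k).2 =
    if k ≤ 4 then bs m i + (k : ℤ)
    else if k ≤ 4 * m + 4 then
      bs m i + 4 + 2 * (((k - 4) / 4 : ℕ) : ℤ) + (((k - 4) % 4 - 2 : ℕ) : ℤ)
    else bs m i + 2 * (m : ℤ) + 4 := by
  unfold sv
  split_ifs <;> rfl

/-- The explicit form of the coordinates. -/
private lemma sv_cases (m i k : ℕ) :
    (k ≤ 4 ∧ (sv m i k).1 = bs m i ∧ (sv m i k).2 = bs m i + k) ∨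
    (∃ j r : ℕ, k = 4 + 4 * j + r ∧ r < 4 ∧ 4 < k ∧ k ≤ 4 * m + 4 ∧
      (sv m i k).1 = bs m i + 2 * (j : ℤ) + ((min r 2 : ℕ) : ℤ) ∧
      (sv m i k).2 = bs m i + 4 + 2 * (j : ℤ) + ((r - 2 : ℕ) : ℤ)) ∨
    (4 * m + 4 < k ∧ (sv m i k).1 = bs m i + 2 * (m : ℤ) + ((k - 4 - 4 * m : ℕ) : ℤ) ∧
      (sv m i k).2 = bs m i + 2 * (m : ℤ) + 4) := by
  rw [sv_fst, sv_snd]
  by_cases h1 : k ≤ 4
  · left
    rw [if_pos h1, if_pos h1]
    exact ⟨h1, rfl, rfl⟩
  · by_cases h2 : k ≤ 4 * m + 4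
    · right; left
      refine ⟨(k - 4) / 4, (k - 4) % 4, by omega, by omega, by omega, h2, ?_, ?_⟩
      · rw [if_neg h1, if_pos h2]
      · rw [if_neg h1, if_pos h2]
    · right; right
      refine ⟨by omega, ?_, ?_⟩
      · rw [if_neg h1, if_neg h2]
      · rw [if_neg h1, if_neg h2]

/-- The coordinates in terms of `j` and `r`. -/
private lemma sv_jr (m i j r : ℕ) (hj : 4 * j + r ≤ 4 * m) (hr : r < 4) :
    (sv m i (4 + 4 * j + r)).1 = bs m i + 2 * (j : ℤ) + ((min r 2 : ℕ) : ℤ) ∧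
      (sv m i (4 + 4 * j + r)).2 = bs m i + 4 + 2 * (j : ℤ) + ((r - 2 : ℕ) : ℤ) := by
  rcases sv_cases m i (4 + 4 * j + r) with ⟨h, h1, h2⟩ | ⟨j', r', h, h', h3, h4, h1, h2⟩ |
    ⟨h, h1, h2⟩
  · have : j = 0 := by omega
    have : r = 0 := by omega
    subst j r
    rw [h1, h2]
    constructor <;> simp
  · have : j' = j := by omega
    have : r' = r := by omega
    subst j' r'
    exact ⟨h1, h2⟩
  · omega

private lemma sv_top (m i k : ℕ) (hk : 4 * m + 4 ≤ k) :
    (sv m i k).1 = bs m i + 2 * (m : ℤ) + ((k - 4 - 4 * m : ℕ) : ℤ) ∧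
      (sv m i k).2 = bs m i + 2 * (m : ℤ) + 4 := by
  rcases sv_cases m i k with ⟨h, h1, h2⟩ | ⟨j', r', h, h', h3, h4, h1, h2⟩ | ⟨h, h1, h2⟩
  · have : m = 0 := by omega
    subst m
    have : k = 4 := by omega
    subst k
    rw [h1, h2]
    constructor <;> simp
  · have : r' = 0 := by omega
    subst r'
    have : j' = m := by omega
    subst j'
    rw [h1, h2]
    constructor
    · have : k - 4 - 4 * m = 0 := by omega
      rw [this]
      simp
    · push_cast
      omega
  · exact ⟨h1, h2⟩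

private lemma sv_low (m i k : ℕ) (hk : k ≤ 4) :
    (sv m i k).1 = bs m i ∧ (sv m i k).2 = bs m i + k := by
  rw [sv_fst, sv_snd, if_pos hk, if_pos hk]
  exact ⟨rfl, rfl⟩

/-- The three kinds of edge numbers. -/
private lemma k_cases (m k : ℕ) (hk : k < 4 * m + 8) :
    k < 4 ∨ (∃ j r : ℕ, k = 4 + 4 * j + r ∧ r < 4 ∧ j < m) ∨
      (∃ x : ℕ, k = 4 * m + 4 + x ∧ x < 4) := by
  by_cases h1 : k < 4
  · exact Or.inl h1
  · by_cases h2 : k < 4 * m + 4
    · right; left
      exact ⟨(k - 4) / 4, (k - 4) % 4, by omega, by omega, by omega⟩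
    · right; right
      exact ⟨k - (4 * m + 4), by omega, by omega⟩

private lemma se_low (m i k : ℕ) (hk : k < 4) : se m i k = (bs m i, bs m i + k, true) := by
  obtain ⟨h1, h2⟩ := sv_low m i k (by omega)
  unfold se
  rw [h1, h2]
  simp only [Prod.mk.injEq, decide_eq_true_eq, true_and]
  omega

private lemma se_hor (m i j r : ℕ) (hj : j < m) (hr : r < 2) :
    se m i (4 + 4 * j + r) = (bs m i + 2 * (j : ℤ) + r, bs m i + 4 + 2 * (j : ℤ), false) := by
  obtain ⟨h1, h2⟩ := sv_jr m i j r (by omega) (by omega)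
  unfold se
  rw [h1, h2]
  simp only [Prod.mk.injEq, decide_eq_false_iff_not]
  refine ⟨by omega, by omega, by omega⟩

private lemma se_ver (m i j r : ℕ) (hj : j < m) (hr : 2 ≤ r) (hr' : r < 4) :
    se m i (4 + 4 * j + r) =
      (bs m i + 2 * (j : ℤ) + 2, bs m i + 4 + 2 * (j : ℤ) + (r - 2), true) := by
  obtain ⟨h1, h2⟩ := sv_jr m i j r (by omega) (by omega)
  unfold se
  rw [h1, h2]
  simp only [Prod.mk.injEq, decide_eq_true_eq]
  refine ⟨by omega, by omega, by omega⟩

private lemma se_top (m i x : ℕ) :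
    se m i (4 * m + 4 + x) = (bs m i + 2 * (m : ℤ) + x, bs m i + 2 * (m : ℤ) + 4, false) := by
  obtain ⟨h1, h2⟩ := sv_top m i (4 * m + 4 + x) (by omega)
  unfold se
  rw [h1, h2]
  simp only [Prod.mk.injEq, decide_eq_false_iff_not, true_and]
  refine ⟨by omega, by omega⟩

theorem se_hi (m i k : ℕ) (hk : k < 4 * m + 8) : (se m i k).hi = sv m i (k + 1) := by
  rcases k_cases m k hk with h | ⟨j, r, h, hr, hj⟩ | ⟨x, h, hx⟩
  · rw [se_low m i k h]
    obtain ⟨h1, h2⟩ := sv_low m i (k + 1) (by omega)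
    apply Prod.ext
    · rw [h1]; rfl
    · rw [h2]
      simp only [Edge.hi, if_true]
      push_cast
      ring
  · subst h
    by_cases hr2 : r < 2
    · rw [se_hor m i j r hj hr2]
      obtain ⟨h1, h2⟩ := sv_jr m i j (r + 1) (by omega) (by omega)
      rw [← add_assoc] at h1 h2
      apply Prod.ext
      · rw [h1]
        simp only [Edge.hi, Bool.false_eq_true, if_false]
        omega
      · rw [h2]
        simp only [Edge.hi, Bool.false_eq_true, if_false]
        omega
    · rw [se_ver m i j r hj (by omega) hr]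
      by_cases hr3 : r = 2
      · subst hr3
        obtain ⟨h1, h2⟩ := sv_jr m i j 3 (by omega) (by omega)
        have h3 : 4 + 4 * j + 2 + 1 = 4 + 4 * j + 3 := by omega
        rw [h3]
        apply Prod.ext
        · rw [h1]
          simp only [Edge.hi, if_true]
          omega
        · rw [h2]
          simp only [Edge.hi, if_true]
          omega
      · have hr4 : r = 3 := by omega
        subst hr4
        obtain ⟨h1, h2⟩ := sv_jr m i (j + 1) 0 (by omega) (by omega)
        have h3 : 4 + 4 * j + 3 + 1 = 4 + 4 * (j + 1) + 0 := by omega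
        rw [h3]
        apply Prod.ext
        · rw [h1]
          simp only [Edge.hi, if_true]
          omega
        · rw [h2]
          simp only [Edge.hi, if_true]
          omega
  · subst h
    rw [se_top m i x]
    obtain ⟨h1, h2⟩ := sv_top m i (4 * m + 4 + x + 1) (by omega)
    apply Prod.ext
    · rw [h1]
      simp only [Edge.hi, Bool.false_eq_true, if_false]
      omega
    · rw [h2]
      simp only [Edge.hi, Bool.false_eq_true, if_false]

theorem sv_zero (m i : ℕ) : sv m i 0 = (bs m i, bs m i) := by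
  obtain ⟨h1, h2⟩ := sv_low m i 0 (by omega)
  apply Prod.ext
  · rw [h1]
  · rw [h2]; simp

theorem sv_last (m i : ℕ) : sv m i (4 * m + 8) = (bs m (i + 1), bs m (i + 1)) := by
  obtain ⟨h1, h2⟩ := sv_top m i (4 * m + 8) (by omega)
  rw [bs_succ]
  apply Prod.ext
  · rw [h1]
    dsimp only
    omega
  · rw [h2]

theorem lev_sv (m i k : ℕ) (hk : k ≤ 4 * m + 8) : lev (sv m i k) = 2 * bs m i + k := by
  unfold lev
  rcases sv_cases m i k with ⟨h, h1, h2⟩ | ⟨j', r', h, h', h3, h4, h1, h2⟩ | ⟨h, h1, h2⟩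
  · rw [h1, h2]; ring
  · rw [h1, h2]; omega
  · rw [h1, h2]; omega

theorem mem_side (m i : ℕ) (e : Edge) : e ∈ Side m i ↔ ∃ k < 4 * m + 8, e = se m i k := by
  constructor
  · rintro ⟨x, ⟨rfl, h1, h2⟩ | ⟨j, hj, rfl, h1, h2⟩ | ⟨j, hj, rfl, h1, h2⟩ | ⟨rfl, h1, h2⟩⟩
    · refine ⟨(x - bs m i).toNat, by omega, ?_⟩
      rw [se_low m i _ (by omega)]
      simp only [Prod.mk.injEq, true_and, and_true]
      omega
    · refine ⟨4 + 4 * j + (x - bs m i - 2 * (j : ℤ)).toNat, by omega, ?_⟩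
      rw [se_hor m i j _ hj (by omega)]
      simp only [Prod.mk.injEq, and_true]
      omega
    · refine ⟨4 + 4 * j + (x - bs m i - 4 - 2 * (j : ℤ) + 2).toNat, by omega, ?_⟩
      rw [se_ver m i j _ hj (by omega) (by omega)]
      simp only [Prod.mk.injEq, and_true, true_and]
      omega
    · rw [bs_succ] at h2
      refine ⟨4 * m + 4 + (x - bs m i - 2 * (m : ℤ)).toNat, by omega, ?_⟩
      rw [se_top m i _, bs_succ]
      simp only [Prod.mk.injEq, and_true]
      omega
  · rintro ⟨k, hk, rfl⟩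
    rcases k_cases m k hk with h | ⟨j, r, h, hr, hj⟩ | ⟨x, h, hx⟩
    · rw [se_low m i k h]
      exact ⟨bs m i + k, Or.inl ⟨rfl, by omega, by omega⟩⟩
    · subst h
      by_cases hr2 : r < 2
      · rw [se_hor m i j r hj hr2]
        exact ⟨bs m i + 2 * (j : ℤ) + r, Or.inr (Or.inl ⟨j, hj, rfl, by omega, by omega⟩)⟩
      · rw [se_ver m i j r hj (by omega) hr]
        exact ⟨bs m i + 4 + 2 * (j : ℤ) + (r - 2),
          Or.inr (Or.inr (Or.inl ⟨j, hj, rfl, by omega, by omega⟩))⟩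
    · subst h
      rw [se_top m i x]
      exact ⟨bs m i + 2 * (m : ℤ) + x, Or.inr (Or.inr (Or.inr ⟨by rw [bs_succ], by omega,
        by rw [bs_succ]; omega⟩))⟩

theorem sv_range (m i k : ℕ) (hk : k ≤ 4 * m + 8) : bs m i ≤ (sv m i k).1 ∧
    (sv m i k).1 ≤ (sv m i k).2 ∧ (sv m i k).2 ≤ bs m (i + 1) := by
  rw [bs_succ]
  rcases sv_cases m i k with ⟨h, h1, h2⟩ | ⟨j', r', h, h', h3, h4, h1, h2⟩ | ⟨h, h1, h2⟩
  · rw [h1, h2]; omega
  · rw [h1, h2]; omega
  · rw [h1, h2]; omega

theorem sv_diag (m i k : ℕ) (hk : 0 < k) (hk' : k < 4 * m + 8) :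
    (sv m i k).1 < (sv m i k).2 := by
  rcases sv_cases m i k with ⟨h, h1, h2⟩ | ⟨j', r', h, h', h3, h4, h1, h2⟩ | ⟨h, h1, h2⟩
  · rw [h1, h2]; omega
  · rw [h1, h2]; omega
  · rw [h1, h2]; omega

private lemma ca_eq (m s : ℕ) : ca m s = bs m (s / m) + 2 * ((s % m : ℕ) : ℤ) := by
  unfold ca bs
  have h : (s : ℤ) = (m : ℤ) * ((s / m : ℕ) : ℤ) + ((s % m : ℕ) : ℤ) := by
    exact_mod_cast (Nat.div_add_mod s m).symm
  linear_combination 2 * h

theorem sv_corner (m s : ℕ) (hs : s < m * m) :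
    sv m (s / m) (4 + 4 * (s % m)) = corner m s := by
  have hm : 0 < m := by
    rcases Nat.eq_zero_or_pos m with h | h
    · subst h; simp at hs
    · exact h
  have hr : s % m < m := Nat.mod_lt _ hm
  obtain ⟨h1, h2⟩ := sv_jr m (s / m) (s % m) 0 (by omega) (by omega)
  rw [add_zero] at h1 h2
  unfold corner cb
  rw [ca_eq]
  apply Prod.ext
  · rw [h1]
    simp
  · rw [h2]
    dsimp only
    omega

private lemma bs_le (m i q : ℕ) (h : i < q) : bs m i + 2 * (m : ℤ) + 4 ≤ bs m q := by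
  unfold bs
  have h1 : (i : ℤ) + 1 ≤ q := by exact_mod_cast h
  have h2 : (0 : ℤ) ≤ m := by positivity
  nlinarith

theorem side_at (m i k s : ℕ) (hi : i < m) (hk : k ≤ 4 * m + 8) (hs : s < m * m) :
    (cb m s ≤ (sv m i k).2 → ca m s ≤ (sv m i k).1) ∧
      (cb m s < (sv m i k).2 → ca m s + 2 ≤ (sv m i k).1) ∧
      (sv m i k = corner m s → s / m = i) := by
  have hr : s % m < m := Nat.mod_lt _ (by omega)
  obtain ⟨r1, r2, r3⟩ := sv_range m i k hk
  rw [bs_succ] at r3
  rcases Nat.lt_trichotomy i (s / m) with h | h | h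
  · have h1 := bs_le m i (s / m) h
    unfold cb
    rw [ca_eq]
    refine ⟨by omega, by omega, ?_⟩
    intro h2
    have h3 : (sv m i k).2 = cb m s := by rw [h2]; rfl
    unfold cb at h3
    rw [ca_eq] at h3
    omega
  · refine ⟨?_, ?_, fun _ => h.symm⟩
    · unfold cb
      rw [ca_eq, ← h]
      rcases sv_cases m i k with ⟨g, h1, h2⟩ | ⟨j', r', g, h', h3, h4, h1, h2⟩ | ⟨g, h1, h2⟩
      · rw [h1, h2]; omega
      · rw [h1, h2]; omega
      · rw [h1, h2]; omega
    · unfold cb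
      rw [ca_eq, ← h]
      rcases sv_cases m i k with ⟨g, h1, h2⟩ | ⟨j', r', g, h', h3, h4, h1, h2⟩ | ⟨g, h1, h2⟩
      · rw [h1, h2]; omega
      · rw [h1, h2]; omega
      · rw [h1, h2]; omega
  · have h1 := bs_le m (s / m) i h
    unfold cb
    rw [ca_eq]
    refine ⟨by omega, by omega, ?_⟩
    intro h2
    have h3 : (sv m i k).1 = ca m s := by rw [h2]; rfl
    rw [ca_eq] at h3
    omega

private lemma sd_append {F : Set Edge} {U : Set V} {z z' w : V} {L L' : List Edge}
    (h : UpWalk F U z L w) (h' : UpWalk F U w L' z') : UpWalk F U z (L ++ L') z' := by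
  induction L generalizing z with
  | nil =>
    have : z = w := h
    subst this
    exact h'
  | cons e L ih =>
    obtain ⟨h1, h2, h3, h4⟩ := h
    exact ⟨h1, h2, h3, ih h4⟩

private lemma sd_mirror {z z' : V} {L : List Edge} (h : UpWalk Set.univ ∅ z L z') :
    UpWalk Set.univ ∅ (z.2, z.1) (L.map mirror) (z'.2, z'.1) := by
  induction L generalizing z with
  | nil =>
    have : z = z' := h
    subst this
    exact rfl
  | cons e L ih =>
    obtain ⟨h1, h2, h3, h4⟩ := h
    refine ⟨Set.mem_univ _, ?_, fun h => h, ?_⟩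
    · rw [← h2]; rfl
    · have h5 : (mirror e).hi = (e.hi.2, e.hi.1) := by
        obtain ⟨p, q, b⟩ := e
        cases b <;> rfl
      rw [h5]
      exact ih h4

private lemma sd_side (m i : ℕ) (k : ℕ) (hk : k ≤ 4 * m + 8) :
    UpWalk Set.univ ∅ (sv m i 0) ((List.range k).map (se m i)) (sv m i k) := by
  induction k with
  | zero => exact rfl
  | succ k ih =>
    rw [List.range_succ, List.map_append]
    apply sd_append (ih (by omega))
    refine ⟨Set.mem_univ _, se_lo m i k, fun h => h, ?_⟩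
    rw [se_hi m i k (by omega)]
    exact rfl

private lemma mirror_mirror (e : Edge) : mirror (mirror e) = e := by
  obtain ⟨p, q, b⟩ := e
  cases b <;> rfl

/-- Upward walks along chosen sides from the first to the `n`-th base point. -/
theorem sides_walk (m : ℕ) (w : ℕ → Bool) (n : ℕ) :
    ∃ L, UpWalk Set.univ ∅ (0, 0) L (bs m n, bs m n) ∧
      ∀ e, e ∈ L ↔ ∃ i < n, (w i = true ∧ e ∈ Side m i) ∨ (w i = false ∧ mirror e ∈ Side m i) := by
  induction n with
  | zero =>
    refine ⟨[], ?_, ?_⟩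
    · have : bs m 0 = 0 := by unfold bs; simp
      rw [this]
      exact rfl
    · intro e
      constructor
      · intro h; exact absurd h (List.not_mem_nil)
      · rintro ⟨i, hi, _⟩; omega
  | succ n ih =>
    obtain ⟨L, hL, hm⟩ := ih
    have hs := sd_side m n (4 * m + 8) le_rfl
    rw [sv_zero, sv_last] at hs
    cases hw : w n with
    | true =>
      refine ⟨L ++ (List.range (4 * m + 8)).map (se m n), sd_append hL hs, ?_⟩
      intro e
      rw [List.mem_append, hm, List.mem_map]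
      constructor
      · rintro (⟨i, hi, h⟩ | ⟨k, hk, rfl⟩)
        · exact ⟨i, by omega, h⟩
        · exact ⟨n, by omega, Or.inl ⟨hw, (mem_side m n _).2 ⟨k, List.mem_range.1 hk, rfl⟩⟩⟩
      · rintro ⟨i, hi, h⟩
        rcases Nat.lt_succ_iff_lt_or_eq.1 hi with h1 | h1
        · exact Or.inl ⟨i, h1, h⟩
        · subst h1
          rcases h with ⟨_, h⟩ | ⟨h, _⟩
          · obtain ⟨k, hk, rfl⟩ := (mem_side m i _).1 h
            exact Or.inr ⟨k, List.mem_range.2 hk, rfl⟩
          · rw [hw] at h; exact absurd h (by simp)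
    | false =>
      have hs' := sd_mirror hs
      refine ⟨L ++ ((List.range (4 * m + 8)).map (se m n)).map mirror, sd_append hL hs', ?_⟩
      intro e
      rw [List.mem_append, hm, List.mem_map]
      constructor
      · rintro (⟨i, hi, h⟩ | ⟨e', he', rfl⟩)
        · exact ⟨i, by omega, h⟩
        · rw [List.mem_map] at he'
          obtain ⟨k, hk, rfl⟩ := he'
          refine ⟨n, by omega, Or.inr ⟨hw, ?_⟩⟩
          rw [mirror_mirror]
          exact (mem_side m n _).2 ⟨k, List.mem_range.1 hk, rfl⟩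
      · rintro ⟨i, hi, h⟩
        rcases Nat.lt_succ_iff_lt_or_eq.1 hi with h1 | h1
        · exact Or.inl ⟨i, h1, h⟩
        · subst h1
          rcases h with ⟨h, _⟩ | ⟨_, h⟩
          · rw [hw] at h; exact absurd h (by simp)
          · obtain ⟨k, hk, h2⟩ := (mem_side m i _).1 h
            refine Or.inr ⟨se m i k, List.mem_map.2 ⟨k, List.mem_range.2 hk, rfl⟩, ?_⟩
            rw [← h2, mirror_mirror]

end Pool.Agent.CHK
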