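import Pool.Agent.CHK.Defs

set_option autoImplicit false

/-! Second-order definability over boards: definitions. -/

namespace Pool.Agent.CHK

/-- Terms; `size` is the size of the board. -/
inductive Te : Type
  | var (i : ℕ)
  | const (c : ℕ)
  | size
  | add (a b : Te)
  | mul (a b : Te)

/-- The value of a term. -/
def Te.ev (N : ℕ) (v : ℕ → ℕ) : Te → ℕ
  | .var i => v i
  | .const c => c
  | .size => N
  | .add a b => a.ev N v + b.ev N v
  | .mul a b => a.ev N v * b.ev N v

/-- The assignment with `x` in front. -/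
def cns (x : ℕ) (v : ℕ → ℕ) : ℕ → ℕ
  | 0 => x
  | i + 1 => v i

/-- Formulas: `rel k l`: relation number `k` holds for `l`; `crt l`: the certificate contains `l`;
`ex t f`: there is `x < t` such that `f` holds with `x` as variable number 0. -/
inductive Ff : Type
  | lt (a b : Te)
  | rel (k : ℕ) (l : List Te)
  | crt (l : List Te)
  | neg (f : Ff)
  | and (f g : Ff)
  | ex (t : Te) (f : Ff)

/-- Truth of a formula. -/
def Ff.Holds (N : ℕ) (R : ℕ → List ℕ → Prop) (C : List ℕ → Prop) : Ff → (ℕ → ℕ) → Prop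
  | .lt a b, v => a.ev N v < b.ev N v
  | .rel k l, v => R k (l.map (Te.ev N v))
  | .crt l, v => C (l.map (Te.ev N v))
  | .neg f, v => ¬ f.Holds N R C v
  | .and f g, v => f.Holds N R C v ∧ g.Holds N R C v
  | .ex t f, v => ∃ x, x < t.ev N v ∧ f.Holds N R C (cns x v)

/-- Definable terms. -/
def DT (t : ℕ → (ℕ → ℕ) → ℕ) : Prop := ∃ a : Te, ∀ N v, t N v = a.ev N v

/-- First-order definable predicates (with a certificate). -/
def FO (Q : ℕ → (ℕ → List ℕ → Prop) → (List ℕ → Prop) → (ℕ → ℕ) → Prop) : Prop :=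
  ∃ φ : Ff, ∀ N R C v, Q N R C v ↔ φ.Holds N R C v

/-- Predicates definable with a certificate. -/
def NPd (P : ℕ → (ℕ → List ℕ → Prop) → (ℕ → ℕ) → Prop) : Prop :=
  ∃ Q, FO Q ∧ ∀ N R v, P N R v ↔ ∃ C, Q N R C v

/-- The square with the coordinates `v i`, `v (i + 1)`. -/
def sq (v : ℕ → ℕ) (i : ℕ) : Sq := ((v i : ℤ), (v (i + 1) : ℤ))

open Classical in
/-- The board described by relation number `k`: the three bits of the square `(x, y)` are
`R k [x, y, 0]` (occupied), `R k [x, y, 1]` (white), `R k [x, y, 2]` (king). -/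
noncomputable def bd (N : ℕ) (R : ℕ → List ℕ → Prop) (k : ℕ) : Board := fun z =>
  if On N z ∧ R k [z.1.toNat, z.2.toNat, 0] then
    some ⟨decide (R k [z.1.toNat, z.2.toNat, 1]), decide (R k [z.1.toNat, z.2.toNat, 2])⟩
  else none

/-- The set of squares described by relation number `k`. -/
def sset (N : ℕ) (R : ℕ → List ℕ → Prop) (k : ℕ) (z : Sq) : Prop :=
  On N z ∧ R k [z.1.toNat, z.2.toNat]

/-- The diagonal unit vectors. -/
def Dg (d : Sq) : Prop := (d.1 = 1 ∨ d.1 = -1) ∧ (d.2 = 1 ∨ d.2 = -1)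

/-- `z` is in the class of `s`: the squares which a piece on `s` can reach by jumps. -/
def Cls (s z : Sq) : Prop := ∃ i j : ℤ, z = (s.1 + 2 * i, s.2 + 2 * j) ∧ Even (i + j)

/-- The squares of the type opposite to the type of `s`, class number `k` (0 or 1). -/
def Opp (s : Sq) (k : ℤ) (z : Sq) : Prop :=
  ∃ i j : ℤ, z = (s.1 + 2 * i + 1, s.2 + 2 * j + 1) ∧ (i + j) % 2 = k

/-- The relations read from the word `w`: relation 0 is the board, relation 1 the side. -/
def wordRel (N : ℕ) (w : List Bool) : ℕ → List ℕ → Prop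
  | 0, [x, y, k] => x < N ∧ y < N ∧ k < 3 ∧ w[N + 2 + 3 * (y * N + x) + k]? = some true
  | 1, [] => w[N + 1]? = some true
  | _, _ => False

end Pool.Agent.CHK
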