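import Pool.Agent.CHK.Sod

set_option autoImplicit false

/-! Second-order definability over boards: closure properties of `FO`. -/

namespace Pool.Agent.CHK

/-! ### Substitutions in terms and formulas -/

/-- Substitution of terms for the variables of a term. -/
def Te.sub (τ : ℕ → Te) : Te → Te
  | .var i => τ i
  | .const c => .const c
  | .size => .size
  | .add a b => .add (a.sub τ) (b.sub τ)
  | .mul a b => .mul (a.sub τ) (b.sub τ)

theorem Te.ev_sub (N : ℕ) (v : ℕ → ℕ) (τ : ℕ → Te) (a : Te) :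
    (a.sub τ).ev N v = a.ev N (fun i => (τ i).ev N v) := by
  induction a with
  | var i => rfl
  | const c => rfl
  | size => rfl
  | add a b iha ihb => simp only [Te.sub, Te.ev, iha, ihb]
  | mul a b iha ihb => simp only [Te.sub, Te.ev, iha, ihb]

/-- The term with all variables moved up. -/
def Te.up (a : Te) : Te := a.sub (fun j => .var (j + 1))

theorem Te.ev_up (N x : ℕ) (v : ℕ → ℕ) (a : Te) : a.up.ev N (cns x v) = a.ev N v := by
  unfold Te.up
  rw [Te.ev_sub]
  rfl

/-- The substitution below a quantifier. -/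
def lft (τ : ℕ → Te) : ℕ → Te
  | 0 => .var 0
  | i + 1 => (τ i).up

theorem ev_lft (N x : ℕ) (v : ℕ → ℕ) (τ : ℕ → Te) :
    (fun i => (lft τ i).ev N (cns x v)) = cns x (fun i => (τ i).ev N v) := by
  funext i
  cases i with
  | zero => rfl
  | succ i => exact Te.ev_up N x v (τ i)

/-- Substitution of terms for the variables of a formula. -/
def Ff.sub : (ℕ → Te) → Ff → Ff
  | τ, .lt a b => .lt (a.sub τ) (b.sub τ)
  | τ, .rel k l => .rel k (l.map (Te.sub τ))
  | τ, .crt l => .crt (l.map (Te.sub τ))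
  | τ, .neg f => .neg (f.sub τ)
  | τ, .and f g => .and (f.sub τ) (g.sub τ)
  | τ, .ex t f => .ex (t.sub τ) (f.sub (lft τ))

theorem map_ev_sub (N : ℕ) (v : ℕ → ℕ) (τ : ℕ → Te) (l : List Te) :
    (l.map (Te.sub τ)).map (Te.ev N v) = l.map (Te.ev N (fun i => (τ i).ev N v)) := by
  rw [List.map_map]
  apply List.map_congr_left
  intro a _
  exact Te.ev_sub N v τ a

theorem Ff.holds_sub (N : ℕ) (R : ℕ → List ℕ → Prop) (C : List ℕ → Prop) (f : Ff) :
    ∀ (τ : ℕ → Te) (v : ℕ → ℕ),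
      (f.sub τ).Holds N R C v ↔ f.Holds N R C (fun i => (τ i).ev N v) := by
  induction f with
  | lt a b =>
    intro τ v
    simp only [Ff.sub, Ff.Holds, Te.ev_sub]
  | rel k l =>
    intro τ v
    simp only [Ff.sub, Ff.Holds, map_ev_sub]
  | crt l =>
    intro τ v
    simp only [Ff.sub, Ff.Holds, map_ev_sub]
  | neg f ih =>
    intro τ v
    simp only [Ff.sub, Ff.Holds, ih]
  | and f g ihf ihg =>
    intro τ v
    simp only [Ff.sub, Ff.Holds, ihf, ihg]
  | ex t f ih =>
    intro τ v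
    simp only [Ff.sub, Ff.Holds, ih, Te.ev_sub, ev_lft]

/-- A tag in front of the certificate entries. -/
def Ff.tag : Te → Ff → Ff
  | _, .lt a b => .lt a b
  | _, .rel k l => .rel k l
  | t, .crt l => .crt (t :: l)
  | t, .neg f => .neg (f.tag t)
  | t, .and f g => .and (f.tag t) (g.tag t)
  | t, .ex s f => .ex s (f.tag t.up)

theorem Ff.holds_tag (N : ℕ) (R : ℕ → List ℕ → Prop) (C : List ℕ → Prop) (f : Ff) :
    ∀ (t : Te) (v : ℕ → ℕ),
      (f.tag t).Holds N R C v ↔ f.Holds N R (fun l => C (t.ev N v :: l)) v := by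
  induction f with
  | lt a b =>
    intro t v
    simp only [Ff.tag, Ff.Holds]
  | rel k l =>
    intro t v
    simp only [Ff.tag, Ff.Holds]
  | crt l =>
    intro t v
    simp only [Ff.tag, Ff.Holds, List.map_cons]
  | neg f ih =>
    intro t v
    simp only [Ff.tag, Ff.Holds, ih]
  | and f g ihf ihg =>
    intro t v
    simp only [Ff.tag, Ff.Holds, ihf, ihg]
  | ex s f ih =>
    intro t v
    simp only [Ff.tag, Ff.Holds, ih, Te.ev_up]

/-- Replacement of the atoms `rel` and `crt` by formulas. -/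
def Ff.rep (F : ℕ → List Te → Ff) (G : List Te → Ff) : Ff → Ff
  | .lt a b => .lt a b
  | .rel k l => F k l
  | .crt l => G l
  | .neg f => .neg (f.rep F G)
  | .and f g => .and (f.rep F G) (g.rep F G)
  | .ex s f => .ex s (f.rep F G)

theorem Ff.holds_rep {N : ℕ} {R R' : ℕ → List ℕ → Prop} {C C' : List ℕ → Prop}
    {F : ℕ → List Te → Ff} {G : List Te → Ff}
    (hF : ∀ k l v, (F k l).Holds N R C v ↔ R' k (l.map (Te.ev N v)))
    (hG : ∀ l v, (G l).Holds N R C v ↔ C' (l.map (Te.ev N v))) (f : Ff) :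
    ∀ v : ℕ → ℕ, (f.rep F G).Holds N R C v ↔ f.Holds N R' C' v := by
  induction f with
  | lt a b =>
    intro v
    simp only [Ff.rep, Ff.Holds]
  | rel k l =>
    intro v
    simp only [Ff.rep, Ff.Holds, hF]
  | crt l =>
    intro v
    simp only [Ff.rep, Ff.Holds, hG]
  | neg f ih =>
    intro v
    simp only [Ff.rep, Ff.Holds, ih]
  | and f g ihf ihg =>
    intro v
    simp only [Ff.rep, Ff.Holds, ihf, ihg]
  | ex s f ih =>
    intro v
    simp only [Ff.rep, Ff.Holds, ih]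

/-! ### Definable terms -/

theorem DT.var (i : ℕ) : DT (fun _ v => v i) := ⟨.var i, fun _ _ => rfl⟩

theorem DT.const (c : ℕ) : DT (fun _ _ => c) := ⟨.const c, fun _ _ => rfl⟩

theorem DT.size : DT (fun N _ => N) := ⟨.size, fun _ _ => rfl⟩

theorem DT.add {s t : ℕ → (ℕ → ℕ) → ℕ} (hs : DT s) (ht : DT t) :
    DT (fun N v => s N v + t N v) := by
  obtain ⟨a, ha⟩ := hs
  obtain ⟨b, hb⟩ := ht
  exact ⟨.add a b, fun N v => by simp only [Te.ev, ha, hb]⟩

theorem DT.mul {s t : ℕ → (ℕ → ℕ) → ℕ} (hs : DT s) (ht : DT t) :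
    DT (fun N v => s N v * t N v) := by
  obtain ⟨a, ha⟩ := hs
  obtain ⟨b, hb⟩ := ht
  exact ⟨.mul a b, fun N v => by simp only [Te.ev, ha, hb]⟩

theorem exists_terms (l : List (ℕ → (ℕ → ℕ) → ℕ)) (h : ∀ t ∈ l, DT t) :
    ∃ L : List Te, ∀ N v, (l.map fun t => t N v) = L.map (Te.ev N v) := by
  induction l with
  | nil => exact ⟨[], fun _ _ => rfl⟩
  | cons t l ih =>
    obtain ⟨L, hL⟩ := ih (fun s hs => h s (List.mem_cons_of_mem _ hs))
    obtain ⟨a, ha⟩ := h t List.mem_cons_self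
    exact ⟨a :: L, fun N v => by rw [List.map_cons, List.map_cons, hL, ha]⟩

/-! ### Closure properties -/

variable {Q Q' : ℕ → (ℕ → List ℕ → Prop) → (List ℕ → Prop) → (ℕ → ℕ) → Prop}

theorem FO.congr (h : ∀ N R C v, Q N R C v ↔ Q' N R C v) (hQ : FO Q') : FO Q := by
  obtain ⟨φ, hφ⟩ := hQ
  exact ⟨φ, fun N R C v => (h N R C v).trans (hφ N R C v)⟩

theorem FO.lt {s t : ℕ → (ℕ → ℕ) → ℕ} (hs : DT s) (ht : DT t) :
    FO (fun N _ _ v => s N v < t N v) := by
  obtain ⟨a, ha⟩ := hs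
  obtain ⟨b, hb⟩ := ht
  exact ⟨.lt a b, fun N R C v => by simp only [Ff.Holds, ha, hb]⟩

theorem FO.not (h : FO Q) : FO (fun N R C v => ¬ Q N R C v) := by
  obtain ⟨φ, hφ⟩ := h
  exact ⟨.neg φ, fun N R C v => by simp only [Ff.Holds, hφ]⟩

theorem FO.and (h : FO Q) (h' : FO Q') : FO (fun N R C v => Q N R C v ∧ Q' N R C v) := by
  obtain ⟨φ, hφ⟩ := h
  obtain ⟨ψ, hψ⟩ := h'
  exact ⟨.and φ ψ, fun N R C v => by simp only [Ff.Holds, hφ, hψ]⟩

theorem FO.or (h : FO Q) (h' : FO Q') : FO (fun N R C v => Q N R C v ∨ Q' N R C v) :=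
  FO.congr (fun _ _ _ _ => by
    constructor
    · intro hx hy
      exact hx.elim hy.1 hy.2
    · intro hx
      by_contra hy
      exact hx ⟨fun h1 => hy (Or.inl h1), fun h2 => hy (Or.inr h2)⟩) (h.not.and h'.not).not

theorem FO.imp (h : FO Q) (h' : FO Q') : FO (fun N R C v => Q N R C v → Q' N R C v) :=
  FO.congr (fun _ _ _ _ => by
    constructor
    · intro hx hy
      exact hy.2 (hx hy.1)
    · intro hx h1
      by_contra h2
      exact hx ⟨h1, h2⟩) (h.and h'.not).not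

theorem FO.iff (h : FO Q) (h' : FO Q') : FO (fun N R C v => Q N R C v ↔ Q' N R C v) :=
  FO.congr (fun _ _ _ _ => by
    constructor
    · intro hx
      exact ⟨hx.1, hx.2⟩
    · intro hx
      exact ⟨hx.1, hx.2⟩) ((h.imp h').and (h'.imp h))

theorem FO.le {s t : ℕ → (ℕ → ℕ) → ℕ} (hs : DT s) (ht : DT t) :
    FO (fun N _ _ v => s N v ≤ t N v) :=
  FO.congr (fun _ _ _ _ => not_lt.symm) (FO.lt ht hs).not

theorem FO.eq {s t : ℕ → (ℕ → ℕ) → ℕ} (hs : DT s) (ht : DT t) :
    FO (fun N _ _ v => s N v = t N v) :=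
  FO.congr (fun _ _ _ _ => le_antisymm_iff) ((FO.le hs ht).and (FO.le ht hs))

theorem FO.rel (k : ℕ) (l : List (ℕ → (ℕ → ℕ) → ℕ)) (h : ∀ t ∈ l, DT t) :
    FO (fun N R _ v => R k (l.map fun t => t N v)) := by
  obtain ⟨L, hL⟩ := exists_terms l h
  exact ⟨.rel k L, fun N R C v => by simp only [Ff.Holds, hL]⟩

theorem FO.crt (l : List (ℕ → (ℕ → ℕ) → ℕ)) (h : ∀ t ∈ l, DT t) :
    FO (fun N _ C v => C (l.map fun t => t N v)) := by
  obtain ⟨L, hL⟩ := exists_terms l h
  exact ⟨.crt L, fun N R C v => by simp only [Ff.Holds, hL]⟩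

theorem FO.prop (p : Prop) : FO (fun _ _ _ _ => p) := by
  by_cases hp : p
  · refine FO.congr (fun _ _ _ _ => ?_) (FO.lt (DT.const 0) (DT.const 1))
    exact ⟨fun _ => Nat.zero_lt_one, fun _ => hp⟩
  · refine FO.congr (fun _ _ _ _ => ?_) (FO.lt (DT.const 0) (DT.const 0))
    exact ⟨fun h => absurd h hp, fun h => absurd h (lt_irrefl 0)⟩

theorem FO.ex {t : ℕ → (ℕ → ℕ) → ℕ} (ht : DT t) (h : FO Q) :
    FO (fun N R C v => ∃ x, x < t N v ∧ Q N R C (cns x v)) := by
  obtain ⟨a, ha⟩ := ht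
  obtain ⟨φ, hφ⟩ := h
  exact ⟨.ex a φ, fun N R C v => by simp only [Ff.Holds, hφ, ha]⟩

theorem FO.all {t : ℕ → (ℕ → ℕ) → ℕ} (ht : DT t) (h : FO Q) :
    FO (fun N R C v => ∀ x, x < t N v → Q N R C (cns x v)) :=
  FO.congr (fun _ _ _ _ => by
    constructor
    · rintro hx ⟨x, h1, h2⟩
      exact h2 (hx x h1)
    · intro hx x h1
      by_contra h2
      exact hx ⟨x, h1, h2⟩) (FO.ex ht h.not).not

/-- Substitution of terms for the variables. -/
theorem FO.sub (σ : ℕ → ℕ → (ℕ → ℕ) → ℕ) (hσ : ∀ i, DT (σ i)) (h : FO Q) :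
    FO (fun N R C v => Q N R C (fun i => σ i N v)) := by
  choose τ hτ using hσ
  obtain ⟨φ, hφ⟩ := h
  refine ⟨φ.sub τ, fun N R C v => ?_⟩
  have e : (fun i => σ i N v) = (fun i => (τ i).ev N v) := funext fun i => hτ i N v
  refine Iff.trans ?_ (Ff.holds_sub N R C φ τ v).symm
  rw [← e]
  exact hφ _ _ _ _

/-- A tag in front of all certificate entries. -/
theorem FO.crt_cons {t : ℕ → (ℕ → ℕ) → ℕ} (ht : DT t) (h : FO Q) :
    FO (fun N R C v => Q N R (fun l => C (t N v :: l)) v) := by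
  obtain ⟨a, ha⟩ := ht
  obtain ⟨φ, hφ⟩ := h
  refine ⟨φ.tag a, fun N R C v => ?_⟩
  refine Iff.trans ?_ (Ff.holds_tag N R C φ a v).symm
  rw [← ha]
  exact hφ _ _ _ _

/-- Relation number `k` becomes a part of the certificate. -/
theorem FO.rel_crt (k : ℕ) (h : FO Q) :
    FO (fun N R C v => Q N (Function.update R k (fun l => C (0 :: l))) (fun l => C (1 :: l)) v) := by
  obtain ⟨φ, hφ⟩ := h
  refine ⟨φ.rep (fun j l => if j = k then .crt (.const 0 :: l) else .rel j l)
    (fun l => .crt (.const 1 :: l)), fun N R C v => ?_⟩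
  refine (hφ _ _ _ _).trans (Ff.holds_rep ?_ ?_ φ v).symm
  · intro j l v
    by_cases hj : j = k
    · subst hj
      simp only [if_true, Ff.Holds, Function.update_self, List.map_cons, Te.ev]
    · simp only [if_neg hj, Ff.Holds, Function.update_of_ne hj]
  · intro l v
    simp only [Ff.Holds, List.map_cons, Te.ev]

/-- Renaming of the relations. -/
theorem FO.ren (σ : ℕ → ℕ) (h : FO Q) : FO (fun N R C v => Q N (fun i => R (σ i)) C v) := by
  obtain ⟨φ, hφ⟩ := h
  refine ⟨φ.rep (fun j l => .rel (σ j) l) (fun l => .crt l), fun N R C v => ?_⟩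
  refine (hφ _ _ _ _).trans (Ff.holds_rep ?_ ?_ φ v).symm
  · intro j l v
    simp only [Ff.Holds]
  · intro l v
    simp only [Ff.Holds]

/-- The substitution of three terms. -/
def three (a b c : Te) : ℕ → Te
  | 0 => a
  | 1 => b
  | 2 => c
  | _ + 3 => .const 0

/-- Substitution of a definable ternary relation for relation number `k`. -/
theorem FO.rel_sub (k : ℕ) {S : ℕ → (ℕ → List ℕ → Prop) → ℕ → ℕ → ℕ → Prop}
    (hS : FO (fun N R _ v => S N R (v 0) (v 1) (v 2))) (h : FO Q) :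
    FO (fun N R C v => Q N (Function.update R k (fun l => ∃ a b c, l = [a, b, c] ∧ S N R a b c))
      C v) := by
  obtain ⟨φ, hφ⟩ := h
  obtain ⟨ψ, hψ⟩ := hS
  refine ⟨φ.rep (fun j l => if j = k then
    (match l with
      | [a, b, c] => ψ.sub (three a b c)
      | _ => .lt (.const 0) (.const 0))
    else .rel j l) (fun l => .crt l), fun N R C v => ?_⟩
  refine (hφ _ _ _ _).trans (Ff.holds_rep ?_ ?_ φ v).symm
  · intro j l v
    by_cases hj : j = k
    · subst hj
      simp only [if_true, Function.update_self]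
      match l with
      | [] => simp [Ff.Holds, Te.ev]
      | [a] => simp [Ff.Holds, Te.ev]
      | [a, b] => simp [Ff.Holds, Te.ev]
      | [a, b, c] =>
        simp only [Ff.holds_sub, ← hψ, List.map_cons, List.map_nil, three]
        constructor
        · intro hx
          exact ⟨_, _, _, rfl, hx⟩
        · rintro ⟨x, y, z, hl, hx⟩
          simp only [List.cons.injEq, and_true] at hl
          obtain ⟨h1, h2, h3⟩ := hl
          subst h1 h2 h3
          exact hx
      | a :: b :: c :: d :: l => simp [Ff.Holds, Te.ev]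
    · simp only [if_neg hj, Ff.Holds, Function.update_of_ne hj]
  · intro l v
    simp only [Ff.Holds]

end Pool.Agent.CHK
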