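import Pool.Agent.CHK.SodA

set_option autoImplicit false

/-! Closure properties of `NPd`. -/

namespace Pool.Agent.CHK

variable {P P' : ℕ → (ℕ → List ℕ → Prop) → (ℕ → ℕ) → Prop}

theorem NPd.congr (h : ∀ N R v, P N R v ↔ P' N R v) (hP : NPd P') : NPd P := by
  obtain ⟨Q, hQ, h'⟩ := hP
  exact ⟨Q, hQ, fun N R v => (h N R v).trans (h' N R v)⟩

theorem NPd.fo (h : FO (fun N R _ v => P N R v)) : NPd P :=
  ⟨_, h, fun _ _ _ => ⟨fun hp => ⟨fun _ => True, hp⟩, fun ⟨_, hp⟩ => hp⟩⟩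

/-- The certificate that is `C` on entries with tag `0` and `C'` on entries with tag `1`. -/
def sodbJoin (C C' : List ℕ → Prop) : List ℕ → Prop
  | [] => False
  | 0 :: l => C l
  | _ :: l => C' l

theorem sodbJoin_zero (C C' : List ℕ → Prop) : (fun l => sodbJoin C C' (0 :: l)) = C := rfl

theorem sodbJoin_one (C C' : List ℕ → Prop) : (fun l => sodbJoin C C' (1 :: l)) = C' := rfl

theorem NPd.and (h : NPd P) (h' : NPd P') : NPd (fun N R v => P N R v ∧ P' N R v) := by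
  obtain ⟨Q, hQ, hP⟩ := h
  obtain ⟨Q', hQ', hP'⟩ := h'
  refine ⟨_, (FO.crt_cons (DT.const 0) hQ).and (FO.crt_cons (DT.const 1) hQ'), ?_⟩
  intro N R v
  show P N R v ∧ P' N R v ↔ _
  rw [hP, hP']
  constructor
  · rintro ⟨⟨C, hC⟩, C', hC'⟩
    refine ⟨sodbJoin C C', ?_, ?_⟩
    · exact hC
    · exact hC'
  · rintro ⟨C, h1, h2⟩
    exact ⟨⟨_, h1⟩, _, h2⟩

theorem NPd.or (h : NPd P) (h' : NPd P') : NPd (fun N R v => P N R v ∨ P' N R v) := by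
  obtain ⟨Q, hQ, hP⟩ := h
  obtain ⟨Q', hQ', hP'⟩ := h'
  refine ⟨_, hQ.or hQ', ?_⟩
  intro N R v
  show P N R v ∨ P' N R v ↔ _
  rw [hP, hP']
  constructor
  · rintro (⟨C, hC⟩ | ⟨C, hC⟩)
    · exact ⟨C, Or.inl hC⟩
    · exact ⟨C, Or.inr hC⟩
  · rintro ⟨C, hC | hC⟩
    · exact Or.inl ⟨C, hC⟩
    · exact Or.inr ⟨C, hC⟩

theorem NPd.imp (h : FO (fun N R _ v => P N R v)) (h' : NPd P') :
    NPd (fun N R v => P N R v → P' N R v) :=
  NPd.congr (P' := fun N R v => ¬ P N R v ∨ P' N R v) (fun _ _ _ => by tauto)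
    ((NPd.fo (P := fun N R v => ¬ P N R v) h.not).or h')

theorem NPd.ex {t : ℕ → (ℕ → ℕ) → ℕ} (ht : DT t) (h : NPd P) :
    NPd (fun N R v => ∃ x, x < t N v ∧ P N R (cns x v)) := by
  obtain ⟨Q, hQ, hP⟩ := h
  refine ⟨_, FO.ex ht hQ, ?_⟩
  intro N R v
  constructor
  · rintro ⟨x, hx, hp⟩
    obtain ⟨C, hC⟩ := (hP N R _).1 hp
    exact ⟨C, x, hx, hC⟩
  · rintro ⟨C, x, hx, hC⟩
    exact ⟨x, hx, (hP N R _).2 ⟨C, hC⟩⟩

theorem NPd.all {t : ℕ → (ℕ → ℕ) → ℕ} (ht : DT t) (h : NPd P) :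
    NPd (fun N R v => ∀ x, x < t N v → P N R (cns x v)) := by
  obtain ⟨Q, hQ, hP⟩ := h
  refine ⟨_, FO.all ht (FO.crt_cons (DT.var 0) hQ), ?_⟩
  intro N R v
  constructor
  · intro hp
    choose! C hC using fun x hx => (hP N R (cns x v)).1 (hp x hx)
    refine ⟨fun l => match l with
      | [] => False
      | x :: l => C x l, fun x hx => ?_⟩
    exact hC x hx
  · rintro ⟨C, hC⟩ x hx
    exact (hP N R _).2 ⟨_, hC x hx⟩

theorem NPd.sub (σ : ℕ → ℕ → (ℕ → ℕ) → ℕ) (hσ : ∀ i, DT (σ i)) (h : NPd P) :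
    NPd (fun N R v => P N R (fun i => σ i N v)) := by
  obtain ⟨Q, hQ, hP⟩ := h
  exact ⟨_, FO.sub σ hσ hQ, fun N R v => hP N R _⟩

theorem NPd.ren (σ : ℕ → ℕ) (h : NPd P) : NPd (fun N R v => P N (fun i => R (σ i)) v) := by
  obtain ⟨Q, hQ, hP⟩ := h
  exact ⟨_, FO.ren σ hQ, fun N R v => hP N _ v⟩

theorem NPd.so (k : ℕ) (h : NPd P) :
    NPd (fun N R v => ∃ X : List ℕ → Prop, P N (Function.update R k X) v) := by
  obtain ⟨Q, hQ, hP⟩ := h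
  refine ⟨_, FO.rel_crt k hQ, ?_⟩
  intro N R v
  constructor
  · rintro ⟨X, hX⟩
    obtain ⟨C, hC⟩ := (hP N _ v).1 hX
    exact ⟨sodbJoin X C, hC⟩
  · rintro ⟨C, hC⟩
    exact ⟨_, (hP N _ v).2 ⟨_, hC⟩⟩

theorem NPd.rel_sub (k : ℕ) {S : ℕ → (ℕ → List ℕ → Prop) → ℕ → ℕ → ℕ → Prop}
    (hS : FO (fun N R _ v => S N R (v 0) (v 1) (v 2))) (h : NPd P) :
    NPd (fun N R v => P N (Function.update R k (fun l => ∃ a b c, l = [a, b, c] ∧ S N R a b c))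
      v) := by
  obtain ⟨Q, hQ, hP⟩ := h
  exact ⟨_, FO.rel_sub k hS hQ, fun N R v => hP N _ v⟩

end Pool.Agent.CHK
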